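import Pool.Agent.Run7.h169.Merge

set_option autoImplicit false
open scoped Classical Topology
open Filter

namespace Run7.h169

/-- The conclusion of the problem for a given finite set of vertices: there is a face-to-face
tetrahedralization of the convex hull, all of whose vertices belong to the set, whose tetrahedra
can be listed so that each appears once and consecutive ones share a triangular face. -/
def HasHamTet (S : Finset E3) : Prop :=
  ∃ T : Finset (Finset (EuclideanSpace ℝ (Fin 3))),
    (∀ t ∈ T, t ⊆ S ∧ t.card = 4 ∧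
      AffineIndependent ℝ (fun x : t => (x.1 : EuclideanSpace ℝ (Fin 3)))) ∧
    (⋃ t ∈ T, convexHull ℝ (t : Set (EuclideanSpace ℝ (Fin 3)))) =
      convexHull ℝ (S : Set (EuclideanSpace ℝ (Fin 3))) ∧
    (∀ t ∈ T, ∀ u ∈ T,
      convexHull ℝ (t : Set (EuclideanSpace ℝ (Fin 3))) ∩
          convexHull ℝ (u : Set (EuclideanSpace ℝ (Fin 3))) =
        convexHull ℝ ((t ∩ u : Finset (EuclideanSpace ℝ (Fin 3))) :
          Set (EuclideanSpace ℝ (Fin 3)))) ∧
    ∃ f : ℕ → Finset (EuclideanSpace ℝ (Fin 3)),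
      (∀ i < T.card, f i ∈ T) ∧
      (∀ i < T.card, ∀ j < T.card, f i = f j → i = j) ∧
      (∀ i, i + 1 < T.card → (f i ∩ f (i + 1)).card = 3)

theorem hull_iff {σ : Finset E3} (h0 : (0 : E3) ∉ σ) {y : E3} :
    y ∈ convexHull ℝ ((insert 0 σ : Finset E3) : Set E3) ↔
      ∃ c : E3 → ℝ, (∀ x ∈ σ, 0 ≤ c x) ∧ ∑ x ∈ σ, c x ≤ 1 ∧ ∑ x ∈ σ, c x • x = y := by
  rw [Finset.mem_convexHull']
  constructor
  · rintro ⟨w, h1, h2, h3⟩
    refine ⟨w, fun x hx => h1 x (Finset.mem_insert_of_mem hx), ?_, ?_⟩
    · rw [Finset.sum_insert h0] at h2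
      have := h1 0 (Finset.mem_insert_self _ _)
      linarith
    · rw [Finset.sum_insert h0] at h3
      simpa using h3
  · rintro ⟨c, h1, h2, h3⟩
    refine ⟨fun x => if x = 0 then 1 - ∑ x ∈ σ, c x else c x, ?_, ?_, ?_⟩
    · intro x hx
      by_cases hx0 : x = 0
      · simp only [hx0, if_true]; linarith
      · simp only [hx0, if_false]
        rcases Finset.mem_insert.mp hx with h | h
        · exact absurd h hx0
        · exact h1 x h
    · rw [Finset.sum_insert h0]
      have : ∑ x ∈ σ, (if x = 0 then 1 - ∑ x ∈ σ, c x else c x) = ∑ x ∈ σ, c x := by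
        apply Finset.sum_congr rfl
        intro x hx
        rw [if_neg (fun h : x = 0 => h0 (h ▸ hx))]
      rw [this]; simp
    · rw [Finset.sum_insert h0]
      have : ∑ x ∈ σ, (if x = 0 then 1 - ∑ x ∈ σ, c x else c x) • x = ∑ x ∈ σ, c x • x := by
        apply Finset.sum_congr rfl
        intro x hx
        rw [if_neg (fun h : x = 0 => h0 (h ▸ hx))]
      rw [this, h3]; simp

theorem nice_zero_notMem {τ : Finset E3} (h : Nice τ) : (0 : E3) ∉ τ := by
  intro h0
  have := crd_self h h0
  rw [map_zero] at this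
  exact zero_ne_one this

theorem affineIndependent_insert_zero {τ : Finset E3} (h : Nice τ) :
    AffineIndependent ℝ (fun x : (insert 0 τ : Finset E3) => (x.1 : E3)) := by
  have h0 := nice_zero_notMem h
  have hli : LinearIndependent ℝ (fun x : τ => (x : E3)) := h.li
  have key : AffineIndependent ℝ
      (fun p : ((insert 0 τ : Finset E3) : Set E3) => (p : E3)) := by
    rw [affineIndependent_set_iff_linearIndependent_vsub ℝ (p₁ := (0 : E3)) (by simp)]
    have e : (fun p : E3 => p -ᵥ (0 : E3)) '' (((insert 0 τ : Finset E3) : Set E3) \ {0}) =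
        (τ : Set E3) := by
      ext z
      simp only [vsub_eq_sub, sub_zero, Set.image_id', Set.mem_sdiff, Finset.coe_insert,
        Set.mem_insert_iff, Finset.mem_coe, Set.mem_singleton_iff]
      constructor
      · rintro ⟨h1 | h1, h2⟩
        · exact absurd h1 h2
        · exact h1
      · intro hz
        exact ⟨Or.inr hz, fun hh => h0 (hh ▸ hz)⟩
    rw [e]
    exact hli
  exact key

theorem hasHamTet_of_list {W : Finset E3} (hC : Cfg W) {B : Finset (Finset E3)} (hF : Fan W B)
    {L : List (Finset E3)} (hnd : L.Nodup) (hL : L.toFinset = B)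
    (hch : L.IsChain (fun τ τ' => 2 ≤ (τ ∩ τ').card)) : HasHamTet (insert 0 W) := by
  have h0W := hC.zero_notMem
  have h0 : ∀ τ ∈ B, (0 : E3) ∉ τ := fun τ hτ => nice_zero_notMem (hF.nice τ hτ)
  have hinj : Set.InjOn (fun τ : Finset E3 => insert (0 : E3) τ) (B : Set (Finset E3)) := by
    intro τ hτ τ' hτ' heq
    have h1 := h0 τ hτ
    have h2 := h0 τ' hτ'
    have h3 : (insert (0 : E3) τ).erase 0 = (insert (0 : E3) τ').erase 0 := by
      rw [show (insert (0 : E3) τ) = insert (0 : E3) τ' from heq]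
    rwa [Finset.erase_insert h1, Finset.erase_insert h2] at h3
  have hint : ∀ τ τ' : Finset E3, (insert (0 : E3) τ) ∩ (insert (0 : E3) τ') =
      insert 0 (τ ∩ τ') := by
    intro τ τ'
    ext z
    simp only [Finset.mem_inter, Finset.mem_insert]
    tauto
  -- coordinates of a point of a small tetrahedron
  have hsmall : ∀ τ ∈ B, ∀ y, y ∈ convexHull ℝ ((insert 0 τ : Finset E3) : Set E3) ↔
      (y ∈ cone τ ∧ gfun τ (fun _ => 1) y ≤ 1) := by
    intro τ hτ y
    rw [hull_iff (h0 τ hτ)]
    have hN := hF.nice τ hτ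
    have hg : ∀ c : E3 → ℝ, gfun τ (fun _ => 1) (∑ x ∈ τ, c x • x) = ∑ x ∈ τ, c x := by
      intro c
      rw [gfun_sum]
      apply Finset.sum_congr rfl
      intro x hx
      rw [gfun_mem hN _ hx, mul_one]
    constructor
    · rintro ⟨c, h1, h2, rfl⟩
      exact ⟨⟨c, h1, rfl⟩, by rw [hg]; exact h2⟩
    · rintro ⟨⟨c, h1, rfl⟩, h2⟩
      exact ⟨c, h1, by rw [hg] at h2; exact h2, rfl⟩
  set T := B.image (fun τ : Finset E3 => insert (0 : E3) τ) with hT
  have hTcard : T.card = L.length := by
    rw [hT, Finset.card_image_of_injOn hinj, ← hL, List.toFinset_card_of_nodup hnd]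
  refine ⟨T, ?_, ?_, ?_, ?_⟩
  · intro t ht
    rw [hT, Finset.mem_image] at ht
    obtain ⟨τ, hτ, rfl⟩ := ht
    refine ⟨Finset.insert_subset_insert _ (hF.sub τ hτ), ?_, ?_⟩
    · rw [Finset.card_insert_of_notMem (h0 τ hτ), (hF.nice τ hτ).1]
    · exact affineIndependent_insert_zero (hF.nice τ hτ)
  · apply Set.Subset.antisymm
    · apply Set.iUnion₂_subset
      intro t ht
      rw [hT, Finset.mem_image] at ht
      obtain ⟨τ, hτ, rfl⟩ := ht
      apply convexHull_mono
      intro z hz
      exact Finset.insert_subset_insert _ (hF.sub τ hτ) hz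
    · intro y hy
      rw [hull_iff h0W] at hy
      obtain ⟨c, h1, h2, rfl⟩ := hy
      have hyW : ∑ x ∈ W, c x • x ∈ cone W := ⟨c, h1, rfl⟩
      obtain ⟨τ, hτ, hyτ⟩ := hF.cover _ hyW
      rw [Set.mem_iUnion₂]
      refine ⟨insert 0 τ, Finset.mem_image_of_mem _ hτ, ?_⟩
      rw [hsmall τ hτ]
      refine ⟨hyτ, ?_⟩
      rw [gfun_sum]
      calc ∑ x ∈ W, c x * gfun τ (fun _ => 1) x ≤ ∑ x ∈ W, c x * 1 := by
            apply Finset.sum_le_sum
            intro x hx
            exact mul_le_mul_of_nonneg_left (hF.supp τ hτ x hx) (h1 x hx)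
        _ ≤ 1 := by simpa using h2
  · intro t ht u hu
    rw [hT, Finset.mem_image] at ht hu
    obtain ⟨τ, hτ, rfl⟩ := ht
    obtain ⟨τ', hτ', rfl⟩ := hu
    rw [hint]
    apply Set.Subset.antisymm
    · rintro y ⟨hy1, hy2⟩
      rw [hsmall τ hτ] at hy1
      rw [hsmall τ' hτ'] at hy2
      obtain ⟨c, hc1, hc2⟩ := hF.inter τ hτ τ' hτ' y hy1.1 hy2.1
      rw [hull_iff (fun h => h0 τ hτ (Finset.mem_inter.mp h).1)]
      refine ⟨c, hc1, ?_, hc2⟩
      have h3 := hy1.2
      rw [← hc2, gfun_sum] at h3
      calc ∑ x ∈ τ ∩ τ', c x = ∑ x ∈ τ ∩ τ', c x * gfun τ (fun _ => 1) x := by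
            apply Finset.sum_congr rfl
            intro x hx
            rw [gfun_mem (hF.nice τ hτ) _ (Finset.mem_inter.mp hx).1, mul_one]
        _ ≤ 1 := h3
    · apply Set.subset_inter
      · apply convexHull_mono
        intro z hz
        exact Finset.insert_subset_insert _ Finset.inter_subset_left hz
      · apply convexHull_mono
        intro z hz
        exact Finset.insert_subset_insert _ Finset.inter_subset_right hz
  · refine ⟨fun i => insert 0 (L.getD i ∅), ?_, ?_, ?_⟩
    · intro i hi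
      rw [hTcard] at hi
      beta_reduce
      rw [List.getD_eq_getElem _ _ hi]
      apply Finset.mem_image_of_mem
      rw [← hL, List.mem_toFinset]
      exact List.getElem_mem hi
    · intro i hi j hj heq
      rw [hTcard] at hi hj
      beta_reduce at heq
      rw [List.getD_eq_getElem _ _ hi, List.getD_eq_getElem _ _ hj] at heq
      have hi' : L[i] ∈ B := by rw [← hL, List.mem_toFinset]; exact List.getElem_mem hi
      have hj' : L[j] ∈ B := by rw [← hL, List.mem_toFinset]; exact List.getElem_mem hj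
      have := hinj hi' hj' heq
      exact (hnd.getElem_inj_iff).mp this
    · intro i hi
      rw [hTcard] at hi
      have hi0 : i < L.length := by omega
      beta_reduce
      rw [List.getD_eq_getElem _ _ hi0, List.getD_eq_getElem _ _ hi, hint]
      have hi' : L[i] ∈ B := by rw [← hL, List.mem_toFinset]; exact List.getElem_mem hi0
      have hj' : L[i + 1] ∈ B := by rw [← hL, List.mem_toFinset]; exact List.getElem_mem hi
      have hne : L[i] ≠ L[i + 1] := by
        intro h
        have := (hnd.getElem_inj_iff).mp h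
        omega
      rw [Finset.card_insert_of_notMem (fun h => h0 _ hi' (Finset.mem_inter.mp h).1)]
      have h2 : 2 ≤ (L[i] ∩ L[i + 1]).card := hch.getElem i hi
      have h3 : (L[i] ∩ L[i + 1]).card < 3 := by
        have c1 := (hF.nice _ hi').1
        have c2 := (hF.nice _ hj').1
        refine lt_of_lt_of_eq ?_ c1
        apply Finset.card_lt_card
        rw [Finset.ssubset_iff_subset_ne]
        refine ⟨Finset.inter_subset_left, ?_⟩
        intro h
        apply hne
        rw [Finset.inter_eq_left] at h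
        exact Finset.eq_of_subset_of_card_le h (by rw [c1, c2])
      omega

/-- A colouring gives a Hamiltonian tetrahedralization. -/
theorem hasHamTet_of_col {W : Finset E3} {χ : E3 → Bool} (hC : Cfg W) (hχ : Col W χ) :
    HasHamTet (insert 0 W) := by
  obtain ⟨B, hF, L, hnd, hL, hch⟩ := exists_ham_fan hC hχ
  refine hasHamTet_of_list hC hF hnd hL (hch.imp ?_)
  rintro τ τ' ⟨x, y, h1, h2, h3, h4, h5⟩
  have hxy : x ≠ y := fun h => h5 (h ▸ rfl)
  have : ({x, y} : Finset E3) ⊆ τ ∩ τ' := by
    intro z hz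
    simp only [Finset.mem_insert, Finset.mem_singleton] at hz
    rw [Finset.mem_inter]
    rcases hz with rfl | rfl
    · exact ⟨h1, h2⟩
    · exact ⟨h3, h4⟩
  have h6 := Finset.card_le_card this
  rwa [Finset.card_pair hxy] at h6

end Run7.h169
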