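import Mathlib

set_option autoImplicit false
open scoped Classical

namespace Run7.h169

/-- Euclidean three-space. -/
abbrev E3 := EuclideanSpace ℝ (Fin 3)

/-- A set of three linearly independent vectors. -/
def Nice (τ : Finset E3) : Prop := τ.card = 3 ∧ LinearIndepOn ℝ id (τ : Set E3)

theorem Nice.li {τ : Finset E3} (h : Nice τ) : LinearIndependent ℝ (fun x : τ => (x : E3)) := h.2

theorem Nice.cardE {τ : Finset E3} (h : Nice τ) : Fintype.card τ = Module.finrank ℝ E3 := by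
  simp [h.1]

theorem Nice.nonempty {τ : Finset E3} (h : Nice τ) : Nonempty τ := by
  have : 0 < τ.card := by rw [h.1]; norm_num
  obtain ⟨x, hx⟩ := Finset.card_pos.mp this
  exact ⟨⟨x, hx⟩⟩

/-- The basis given by a nice set. -/
noncomputable def bas (τ : Finset E3) (h : Nice τ) : Module.Basis τ ℝ E3 :=
  haveI : Nonempty τ := h.nonempty
  basisOfLinearIndependentOfCardEqFinrank h.li h.cardE

theorem bas_apply (τ : Finset E3) (h : Nice τ) (x : τ) : bas τ h x = (x : E3) := by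
  haveI : Nonempty τ := h.nonempty
  unfold bas
  rw [coe_basisOfLinearIndependentOfCardEqFinrank]

/-- The coordinate functional of a nice set. -/
noncomputable def crd (τ : Finset E3) (x : E3) : E3 →ₗ[ℝ] ℝ :=
  if h : Nice τ ∧ x ∈ τ then (bas τ h.1).coord ⟨x, h.2⟩ else 0

theorem crd_self {τ : Finset E3} (h : Nice τ) {x : E3} (hx : x ∈ τ) : crd τ x x = 1 := by
  have h' : Nice τ ∧ x ∈ τ := ⟨h, hx⟩
  unfold crd
  rw [dif_pos h']
  have := (bas τ h).repr_self (⟨x, hx⟩ : τ)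
  rw [bas_apply] at this
  simp only [Module.Basis.coord_apply]
  have h2 : (bas τ h).repr x = Finsupp.single ⟨x, hx⟩ 1 := this
  rw [h2]; simp

theorem crd_ne {τ : Finset E3} (h : Nice τ) {x x' : E3} (hx : x ∈ τ) (hx' : x' ∈ τ)
    (hne : x ≠ x') : crd τ x x' = 0 := by
  have h' : Nice τ ∧ x ∈ τ := ⟨h, hx⟩
  unfold crd
  rw [dif_pos h']
  have := (bas τ h).repr_self (⟨x', hx'⟩ : τ)
  rw [bas_apply] at this
  simp only [Module.Basis.coord_apply]
  have h2 : (bas τ h).repr x' = Finsupp.single ⟨x', hx'⟩ 1 := this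
  rw [h2]
  rw [Finsupp.single_apply_eq_zero]
  intro h3
  exact absurd (congrArg Subtype.val h3) hne

theorem crd_sum {τ : Finset E3} (h : Nice τ) (y : E3) : ∑ x ∈ τ, crd τ x y • x = y := by
  have := (bas τ h).sum_repr y
  rw [← Finset.sum_coe_sort] 
  conv_rhs => rw [← this]
  apply Finset.sum_congr rfl
  intro i _
  have h' : Nice τ ∧ (i : E3) ∈ τ := ⟨h, i.2⟩
  unfold crd
  rw [dif_pos h', bas_apply]
  simp

theorem crd_unique {τ : Finset E3} (h : Nice τ) {c : E3 → ℝ} {y : E3}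
    (hy : ∑ x ∈ τ, c x • x = y) {x : E3} (hx : x ∈ τ) : crd τ x y = c x := by
  rw [← hy, map_sum]
  rw [Finset.sum_eq_single x]
  · rw [map_smul, crd_self h hx]; simp
  · intro b hb hbx
    rw [map_smul, crd_ne h hx hb (Ne.symm hbx)]; simp
  · intro hx'; exact absurd hx hx'

/-- Two linear functionals agreeing on a nice set are equal. -/
theorem nice_ext {τ : Finset E3} (h : Nice τ) {f g : E3 →ₗ[ℝ] ℝ} (hfg : ∀ x ∈ τ, f x = g x) :
    f = g := by
  ext1 y
  rw [← crd_sum h y, map_sum, map_sum]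
  apply Finset.sum_congr rfl
  intro x hx
  rw [map_smul, map_smul, hfg x hx]

/-- The convex cone spanned by a finite set. -/
def cone (τ : Finset E3) : Set E3 :=
  {y | ∃ c : E3 → ℝ, (∀ x ∈ τ, 0 ≤ c x) ∧ ∑ x ∈ τ, c x • x = y}

theorem mem_cone_iff_crd {τ : Finset E3} (h : Nice τ) {y : E3} :
    y ∈ cone τ ↔ ∀ x ∈ τ, 0 ≤ crd τ x y := by
  constructor
  · rintro ⟨c, hc, hy⟩ x hx
    rw [crd_unique h hy hx]; exact hc x hx
  · intro hc
    exact ⟨fun x => crd τ x y, hc, crd_sum h y⟩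

theorem cone_mono {σ τ : Finset E3} (h : σ ⊆ τ) : cone σ ⊆ cone τ := by
  rintro y ⟨c, hc, hy⟩
  refine ⟨fun x => if x ∈ σ then c x else 0, ?_, ?_⟩
  · intro x _
    by_cases hx : x ∈ σ
    · simp [hx, hc x hx]
    · simp [hx]
  · rw [← hy]
    rw [← Finset.sum_subset h (f := fun x => (if x ∈ σ then c x else 0) • x)]
    · apply Finset.sum_congr rfl
      intro x hx; simp [hx]
    · intro x _ hx; simp [hx]

theorem crd_eq_zero_of_mem_cone {σ τ : Finset E3} (h : Nice τ) (hσ : σ ⊆ τ) {y : E3}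
    (hy : y ∈ cone σ) {x : E3} (hx : x ∈ τ) (hxσ : x ∉ σ) : crd τ x y = 0 := by
  obtain ⟨c, hc, rfl⟩ := hy
  rw [map_sum]
  apply Finset.sum_eq_zero
  intro z hz
  rw [map_smul, crd_ne h hx (hσ hz) (fun h => hxσ (h ▸ hz))]; simp

theorem mem_cone_self {τ : Finset E3} {x : E3} (hx : x ∈ τ) : x ∈ cone τ := by
  refine ⟨fun z => if z = x then 1 else 0, ?_, ?_⟩
  · intro z _; dsimp; split_ifs <;> norm_num
  · simp [hx]

theorem cone_add {τ : Finset E3} {y z : E3} (hy : y ∈ cone τ) (hz : z ∈ cone τ) :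
    y + z ∈ cone τ := by
  obtain ⟨c, hc, rfl⟩ := hy
  obtain ⟨d, hd, rfl⟩ := hz
  refine ⟨fun x => c x + d x, fun x hx => add_nonneg (hc x hx) (hd x hx), ?_⟩
  rw [← Finset.sum_add_distrib]
  exact Finset.sum_congr rfl (fun x _ => add_smul _ _ _)

theorem cone_smul {τ : Finset E3} {y : E3} {a : ℝ} (ha : 0 ≤ a) (hy : y ∈ cone τ) :
    a • y ∈ cone τ := by
  obtain ⟨c, hc, rfl⟩ := hy
  refine ⟨fun x => a * c x, fun x hx => mul_nonneg ha (hc x hx), ?_⟩
  rw [Finset.smul_sum]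
  exact Finset.sum_congr rfl (fun x _ => mul_smul _ _ _)

theorem zero_mem_cone {τ : Finset E3} : (0 : E3) ∈ cone τ :=
  ⟨fun _ => 0, fun _ _ => le_rfl, by simp⟩

theorem cone_sum {τ : Finset E3} {σ : Finset E3} {c : E3 → ℝ} (hc : ∀ x ∈ σ, 0 ≤ c x)
    (h : ∀ x ∈ σ, x ∈ cone τ) : ∑ x ∈ σ, c x • x ∈ cone τ := by
  induction σ using Finset.induction_on with
  | empty => simpa using zero_mem_cone
  | insert a s ha ih =>
    rw [Finset.sum_insert ha]
    apply cone_add
    · exact cone_smul (hc a (Finset.mem_insert_self _ _)) (h a (Finset.mem_insert_self _ _))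
    · exact ih (fun x hx => hc x (Finset.mem_insert_of_mem hx))
        (fun x hx => h x (Finset.mem_insert_of_mem hx))

/-- Pivoting: replacing one vector of a nice set. -/
theorem nice_pivot {τ : Finset E3} (h : Nice τ) {x1 x0 : E3} (h1 : x1 ∈ τ) (h0 : x0 ∉ τ)
    (hc : crd τ x1 x0 ≠ 0) : Nice (insert x0 (τ.erase x1)) := by
  constructor
  · rw [Finset.card_insert_of_notMem (fun hh => h0 (Finset.mem_of_mem_erase hh)),
      Finset.card_erase_of_mem h1, h.1]
  · rw [Finset.coe_insert]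
    apply LinearIndepOn.insert
    · exact h.2.mono (by intro z hz; exact Finset.mem_of_mem_erase hz)
    · intro hmem
      apply hc
      have hle : Submodule.span ℝ (id '' ((τ.erase x1 : Finset E3) : Set E3)) ≤
          LinearMap.ker (crd τ x1) := by
        rw [Submodule.span_le]
        rintro z ⟨z', hz', rfl⟩
        have hz'' := Finset.mem_erase.mp (Finset.mem_coe.mp hz')
        exact crd_ne h h1 hz''.2 (Ne.symm hz''.1)
      exact hle hmem

/-- The functional with prescribed values on a nice set. -/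
noncomputable def gfun (τ : Finset E3) (H : E3 → ℝ) : E3 →ₗ[ℝ] ℝ := ∑ x ∈ τ, H x • crd τ x

theorem gfun_apply (τ : Finset E3) (H : E3 → ℝ) (y : E3) :
    gfun τ H y = ∑ x ∈ τ, crd τ x y * H x := by
  simp [gfun, mul_comm]

theorem gfun_mem {τ : Finset E3} (h : Nice τ) (H : E3 → ℝ) {x : E3} (hx : x ∈ τ) :
    gfun τ H x = H x := by
  rw [gfun_apply, Finset.sum_eq_single x]
  · rw [crd_self h hx, one_mul]
  · intro b hb hbx
    rw [crd_ne h hb hx hbx, zero_mul]
  · intro hx'; exact absurd hx hx'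

theorem gfun_sum {τ : Finset E3} (σ : Finset E3) (H : E3 → ℝ) (c : E3 → ℝ) :
    gfun τ H (∑ x ∈ σ, c x • x) = ∑ x ∈ σ, c x * gfun τ H x := by
  rw [map_sum]; simp

end Run7.h169
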