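import Pool.Agent.Run7.h169.Forest2

set_option autoImplicit false
open scoped Classical Topology
open Filter

namespace Run7.h169

section

variable {S : Finset E3} {v a1 a2 a3 : E3} {φ1 φ2 φ3 : E3 →ₗ[ℝ] ℝ}

/-- An edge of a face is an edge. -/
theorem edge_of_face {φ g : E3 →ₗ[ℝ] ℝ} {p q : E3} {M : ℝ} (hpq : p ≠ q)
    (h0 : ∀ y ∈ S, 0 ≤ φ (y - v)) (fp : φ (p - v) = 0) (fq : φ (q - v) = 0)
    (gp : g (p - v) = M) (gq : g (q - v) = M)
    (hlt : ∀ y ∈ S, φ (y - v) = 0 → y ≠ p → y ≠ q → g (y - v) < M) : IsEdgeS S p q := by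
  set T := S.filter (fun y => 0 < φ (y - v)) with hT
  set N : ℝ := ∑ y ∈ T, (|g (y - v)| + |M| + 1) / φ (y - v) with hN
  have hNy : ∀ y ∈ T, g (y - v) - N * φ (y - v) < M := by
    intro y hy
    have hφ : 0 < φ (y - v) := (Finset.mem_filter.mp hy).2
    have h1 : (|g (y - v)| + |M| + 1) / φ (y - v) ≤ N := by
      rw [hN]
      apply Finset.single_le_sum (f := fun y => (|g (y - v)| + |M| + 1) / φ (y - v)) _ hy
      intro z hz
      have := (Finset.mem_filter.mp hz).2
      positivity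
    rw [div_le_iff₀ hφ] at h1
    have h2 := le_abs_self (g (y - v))
    have h3 := neg_abs_le M
    linarith
  refine ⟨hpq, g - N • φ, ?_, ?_⟩
  · have e1 : (g - N • φ) (p - v) = M := by
      simp [fp, gp]
    have e2 : (g - N • φ) (q - v) = M := by
      simp [fq, gq]
    rw [map_sub] at e1 e2
    linarith
  · intro y hy y1 y2
    have e1 : (g - N • φ) (p - v) = M := by
      simp [fp, gp]
    have e2 : (g - N • φ) (y - v) < M := by
      show g (y - v) - N * φ (y - v) < M
      rcases eq_or_lt_of_le (h0 y hy) with h | h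
      · rw [← h, mul_zero, sub_zero]
        exact hlt y hy h.symm y1 y2
      · exact hNy y (Finset.mem_filter.mpr ⟨hy, h⟩)
    rw [map_sub] at e1 e2
    linarith

/-- The outer side of a quadrilateral facet at a simple vertex. -/
theorem Frm.quad_edge (hS : ConvPos S) (h : Frm S v a1 a2 a3 φ1 φ2 φ3) {m : E3} (hm : m ∈ S)
    (hquad : ∀ y ∈ S, φ3 (y - v) = 0 → y = v ∨ y = a1 ∨ y = a2 ∨ y = m)
    (hm1 : 0 < φ1 (m - v)) (hm2 : 0 < φ2 (m - v)) (hm3 : φ3 (m - v) = 0) :
    IsEdgeS S a2 m := by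
  have n0 : m ≠ v := by rintro rfl; rw [sub_self, map_zero] at hm1; exact lt_irrefl _ hm1
  have n1 : m ≠ a1 := by rintro rfl; rw [h.d21] at hm2; exact lt_irrefl _ hm2
  have n2 : m ≠ a2 := by rintro rfl; rw [h.d12] at hm1; exact lt_irrefl _ hm1
  have n3 : m ≠ a3 := by rintro rfl; rw [h.d13] at hm1; exact lt_irrefl _ hm1
  have hout := h.out hS hm n0 n1 n2 n3
  rw [hm3, add_zero] at hout
  set α := φ1 (m - v) with hα
  set β := φ2 (m - v) with hβ
  refine edge_of_face (v := v) (φ := φ3) (g := φ2 + ((1 - β) / α) • φ1) (M := 1) n2.symm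
    (fun y hy => (h.pos y hy).2.2) h.d32 hm3 ?_ ?_ ?_
  · simp [h.d22, h.d12]
  · simp only [LinearMap.add_apply, LinearMap.smul_apply, smul_eq_mul, ← hα, ← hβ]
    field_simp
    ring
  · intro y hy hy0 y1 y2
    rcases hquad y hy hy0 with rfl | rfl | rfl | rfl
    · simp
    · simp only [LinearMap.add_apply, LinearMap.smul_apply, smul_eq_mul, h.d11, h.d21]
      rw [zero_add, mul_one, div_lt_one hm1]
      linarith
    · exact absurd rfl y1
    · exact absurd rfl y2

theorem Frm.edge_v1 (hS : ConvPos S) (h : Frm S v a1 a2 a3 φ1 φ2 φ3) : IsEdgeS S v a1 :=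
  (h.swap12.swap23.edge3 hS).symm

/-- The colouring at a simple vertex of a polytope with bipartite graph. -/
theorem corner_hasHamTet (hS : ConvPos S) (hspan : affineSpan ℝ (S : Set E3) = ⊤)
    {c : E3 → Bool} (hbip : ∀ p ∈ S, ∀ q ∈ S, IsEdgeS S p q → c p ≠ c q)
    (h : Frm S v a1 a2 a3 φ1 φ2 φ3) {m : E3} (hm : m ∈ S)
    (hquad : ∀ y ∈ S, φ3 (y - v) = 0 → y = v ∨ y = a1 ∨ y = a2 ∨ y = m)
    (hm1 : 0 < φ1 (m - v)) (hm2 : 0 < φ2 (m - v)) (hm3 : φ3 (m - v) = 0)
    (k1 : ∀ p ∈ S, φ1 (p - v) ≠ 0 → ∀ x ∈ S, ∀ y ∈ S, φ1 (x - v) = 0 → φ1 (y - v) = 0 →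
      IsEdgeS S p x → IsEdgeS S p y → x = y)
    (k2 : ∀ p ∈ S, φ2 (p - v) ≠ 0 → ∀ x ∈ S, ∀ y ∈ S, φ2 (x - v) = 0 → φ2 (y - v) = 0 →
      IsEdgeS S p x → IsEdgeS S p y → x = y) : HasHamTet S := by
  set W := rel S v with hW
  have hC : Cfg W := cfg_rel hS hspan h.hv
  apply hasHamTet_of_rel h.hv
  have pos := fun z (hz : z ∈ W) => h.pos_rel hz
  have mS : ∀ {z : E3}, z ∈ W → z + v ∈ S := fun hz => (mem_rel.mp hz).1
  have ES : ∀ {p q : E3}, IsEdge0 W p q → IsEdgeS S (p + v) (q + v) := fun he => Frm.edge_rel he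
  have bip : ∀ {p q : E3}, p ∈ W → q ∈ W → IsEdge0 W p q → c (p + v) ≠ c (q + v) :=
    fun hp hq he => hbip _ (mS hp) _ (mS hq) (ES he)
  have K1 : ∀ p ∈ W, φ1 p ≠ 0 → ∀ x ∈ W, ∀ y ∈ W, φ1 x = 0 → φ1 y = 0 → IsEdge0 W p x →
      IsEdge0 W p y → x = y := by
    intro p hp hp1 x hx y hy hx1 hy1 ex ey
    apply add_right_cancel (b := v)
    exact k1 _ (mS hp) (by rwa [add_sub_cancel_right]) _ (mS hx) _ (mS hy)
      (by rwa [add_sub_cancel_right]) (by rwa [add_sub_cancel_right]) (ES ex) (ES ey)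
  have K2 : ∀ p ∈ W, φ2 p ≠ 0 → ∀ x ∈ W, ∀ y ∈ W, φ2 x = 0 → φ2 y = 0 → IsEdge0 W p x →
      IsEdge0 W p y → x = y := by
    intro p hp hp1 x hx y hy hx1 hy1 ex ey
    apply add_right_cancel (b := v)
    exact k2 _ (mS hp) (by rwa [add_sub_cancel_right]) _ (mS hx) _ (mS hy)
      (by rwa [add_sub_cancel_right]) (by rwa [add_sub_cancel_right]) (ES ex) (ES ey)
  -- classes
  have cv1 : c v ≠ c a1 := hbip _ h.hv _ h.h1 (h.edge_v1 hS)
  have cv2 : c v ≠ c a2 := hbip _ h.hv _ h.h2 (h.swap12.edge_v1 hS)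
  have em2 := h.quad_edge hS hm hquad hm1 hm2 hm3
  have cm2 : c a2 ≠ c m := hbip _ h.h2 _ hm em2
  -- the point m
  have quad : ∀ y ∈ W, φ3 y = 0 → 0 < φ1 y → 0 < φ2 y → y + v = m := by
    intro y hy h3 h1 h2
    rcases hquad _ (mS hy) (by rwa [add_sub_cancel_right]) with e | e | e | e
    · have : y = 0 := by
        have : y + v = 0 + v := by rw [e, zero_add]
        exact add_right_cancel this
      rw [this, map_zero] at h1
      exact absurd h1 (lt_irrefl _)
    · have : y = a1 - v := by rw [← e]; abel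
      rw [this, h.d21] at h2
      exact absurd h2 (lt_irrefl _)
    · have : y = a2 - v := by rw [← e]; abel
      rw [this, h.d12] at h1
      exact absurd h1 (lt_irrefl _)
    · exact e
  set χ : E3 → Bool := fun x =>
    if Inner W x then decide (c (x + v) ≠ c v) else decide (φ2 x = 0) with hχ
  have χin : ∀ x, Inner W x → χ x = decide (c (x + v) ≠ c v) := by
    intro x hx; rw [hχ]; beta_reduce; rw [if_pos hx]
  have χout : ∀ x, ¬ Inner W x → χ x = decide (φ2 x = 0) := by
    intro x hx; rw [hχ]; beta_reduce; rw [if_neg hx]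
  have χt : ∀ x, ¬ Inner W x → χ x = true → φ2 x = 0 := by
    intro x hx hc
    rw [χout x hx] at hc
    exact of_decide_eq_true hc
  have χf : ∀ x, ¬ Inner W x → χ x = false → φ2 x ≠ 0 := by
    intro x hx hc
    rw [χout x hx] at hc
    exact of_decide_eq_false hc
  have outer : ∀ x ∈ W, ¬ Inner W x → φ1 x = 0 ∨ φ2 x = 0 ∨ φ3 x = 0 := by
    intro x hx hn
    by_contra hcon
    push Not at hcon
    apply hn
    rw [h.inner_iff]
    obtain ⟨p1, p2, p3⟩ := pos x hx
    exact ⟨lt_of_le_of_ne p1 hcon.1.symm, lt_of_le_of_ne p2 hcon.2.1.symm,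
      lt_of_le_of_ne p3 hcon.2.2.symm⟩
  -- a non-inner vertex of colour false
  have outF : ∀ x ∈ W, ¬ Inner W x → χ x = false → 0 < φ2 x ∧
      (φ1 x = 0 ∨ (0 < φ1 x ∧ φ3 x = 0 ∧ x + v = m)) := by
    intro x hx hn hc
    have h2 := χf x hn hc
    obtain ⟨p1, p2, p3⟩ := pos x hx
    have h2' : 0 < φ2 x := lt_of_le_of_ne p2 h2.symm
    refine ⟨h2', ?_⟩
    rcases eq_or_lt_of_le p1 with e | e
    · left; exact e.symm
    · right
      rcases outer x hx hn with g | g | g
      · exact absurd g e.ne'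
      · exact absurd g h2
      · exact ⟨e, g, quad x hx g e h2'⟩
  refine hasHamTet_of_col hC (χ := χ) ⟨?_, ?_, ?_, ?_⟩
  · -- both colours occur
    refine ⟨a1 - v, h.a1_mem, a2 - v, h.swap12.a1_mem, ?_⟩
    have n1 : ¬ Inner W (a1 - v) := by
      rw [h.inner_iff, h.d21]; intro hh; exact lt_irrefl _ hh.2.1
    have n2 : ¬ Inner W (a2 - v) := by
      rw [h.inner_iff, h.d12]; intro hh; exact lt_irrefl _ hh.1
    rw [χout _ n1, χout _ n2, h.d21, h.d22]
    simp
  · -- no monochromatic chords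
    intro p hp q hq np nq he hc hin
    rw [h.inner_iff] at hin
    simp only [map_add] at hin
    obtain ⟨i1, i2, i3⟩ := hin
    cases hcp : χ p
    · have hcq : χ q = false := by rw [← hc]; exact hcp
      obtain ⟨p2, hp'⟩ := outF p hp np hcp
      obtain ⟨q2, hq'⟩ := outF q hq nq hcq
      have key : ∀ {p q : E3}, p ∈ W → q ∈ W → IsEdge0 W p q → φ1 p = 0 → 0 < φ3 p →
          0 < φ1 q → q + v = m → False := by
        intro p q hp hq he p1 p3 q1 hqm
        have h21 : a2 - v ∈ W := h.swap12.a1_mem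
        have eq2 : IsEdgeS S m a2 := em2.symm
        have e2 : IsEdgeS S m (p + v) := by rw [← hqm]; exact ES he.symm
        have := k1 m hm hm1.ne' _ h.h2 _ (mS hp) h.d12 (by rwa [add_sub_cancel_right]) eq2 e2
        have : p = a2 - v := by rw [this]; abel
        rw [this, h.d32] at p3
        exact lt_irrefl _ p3
      rcases hp' with hp1 | ⟨hp1, hp3, hpm⟩
      · rcases hq' with hq1 | ⟨hq1, hq3, hqm⟩
        · rw [hp1, hq1] at i1; simp at i1
        · exact key hp hq he hp1 (by linarith) hq1 hqm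
      · rcases hq' with hq1 | ⟨hq1, hq3, hqm⟩
        · exact key hq hp he.symm hq1 (by linarith) hp1 hpm
        · rw [hp3, hq3] at i3; simp at i3
    · have hcq : χ q = true := by rw [← hc]; exact hcp
      rw [χt p np hcp, χt q nq hcq] at i2
      simp at i2
  · -- forest condition
    refine ⟨fun _ => 0, ?_⟩
    intro p hp hin x hx y hy ex ey cx cy _ _
    obtain ⟨i1, i2, i3⟩ := h.inner_iff.mp hin
    -- neighbours of the same colour are not inner
    have nout : ∀ x ∈ W, IsEdge0 W p x → χ x = χ p → ¬ Inner W x := by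
      intro x hx ex cx hix
      have hb := bip hp hx ex
      rw [χin x hix, χin p hin] at cx
      by_cases h1 : c (p + v) = c v
      · have h2 : c (x + v) ≠ c v := fun hh => hb (h1.trans hh.symm)
        rw [decide_eq_true h2, decide_eq_false (not_not.mpr h1)] at cx
        simp at cx
      · have h2 : c (x + v) = c v := by
          revert h1 hb
          cases c (p + v) <;> cases c (x + v) <;> cases c v <;> simp
        rw [decide_eq_false (not_not.mpr h2), decide_eq_true h1] at cx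
        simp at cx
    have nx := nout x hx ex cx
    have ny := nout y hy ey cy
    cases hcp : χ p
    · -- colour false: the class of the apex
      have hcv : c (p + v) = c v := by
        rw [χin p hin] at hcp
        exact not_not.mp (of_decide_eq_false hcp)
      have hplane : ∀ x ∈ W, IsEdge0 W p x → ¬ Inner W x → χ x = χ p → φ1 x = 0 := by
        intro x hx ex nx cx
        rw [hcp] at cx
        obtain ⟨_, h1 | ⟨_, _, hxm⟩⟩ := outF x hx nx cx
        · exact h1
        · exfalso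
          have hb := bip hp hx ex
          rw [hxm] at hb
          revert hb cm2 cv2
          rw [hcv]
          cases c v <;> cases c m <;> cases c a2 <;> simp
      exact K1 p hp i1.ne' x hx y hy (hplane x hx ex nx cx) (hplane y hy ey ny cy) ex ey
    · rw [hcp] at cx cy
      exact K2 p hp i2.ne' x hx y hy (χt x nx cx) (χt y ny cy) ex ey
  · -- at most two bichromatic outer edges
    intro B hF
    set X := (W ×ˢ W).filter
      (fun e => χ e.1 = true ∧ χ e.2 = false ∧ cnt B e.1 e.2 = 1) with hX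
    -- structure of such an edge
    have hstr : ∀ e ∈ X, (∃ r, ({e.1, e.2, r} : Finset E3) ∈ B) ∧
        ((e.1 = a1 - v ∧ φ3 e.2 = 0 ∧ 0 < φ2 e.2) ∨
        (e.1 = a3 - v ∧ φ1 e.2 = 0 ∧ 0 < φ2 e.2)) := by
      intro e he
      rw [hX, Finset.mem_filter, Finset.mem_product] at he
      obtain ⟨⟨hp, hq⟩, cp, cq, hcnt⟩ := he
      have hpq : e.1 ≠ e.2 := by
        intro hh
        rw [hh, cq] at cp
        simp at cp
      obtain ⟨hr, f, f0, f1, f2, f3⟩ := hF.boundary_data hC hp hq hpq hcnt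
      have np : ¬ Inner W e.1 := not_inner_of_support f0 f1 f2
      have nq : ¬ Inner W e.2 := not_inner_of_support f0 f1 f3
      have hnin : ¬ Inner W (e.1 + e.2) :=
        not_inner_of_support f0 f1 (by rw [map_add, f2, f3, add_zero])
      refine ⟨hr, ?_⟩
      have tp := χt _ np cp
      have fq := χf _ nq cq
      obtain ⟨p1, p2, p3⟩ := pos _ hp
      obtain ⟨q1, q2, q3⟩ := pos _ hq
      have q2' : 0 < φ2 e.2 := lt_of_le_of_ne q2 fq.symm
      have hz : (φ1 e.1 = 0 ∧ φ1 e.2 = 0) ∨ (φ3 e.1 = 0 ∧ φ3 e.2 = 0) := by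
        by_contra hcon
        push Not at hcon
        obtain ⟨g1, g3⟩ := hcon
        apply hnin
        rw [h.inner_iff, map_add, map_add, map_add]
        refine ⟨?_, by linarith, ?_⟩
        · rcases eq_or_lt_of_le p1 with e' | e'
          · have := lt_of_le_of_ne q1 (Ne.symm (g1 e'.symm)); linarith
          · linarith
        · rcases eq_or_lt_of_le p3 with e' | e'
          · have := lt_of_le_of_ne q3 (Ne.symm (g3 e'.symm)); linarith
          · linarith
      rcases hz with g | g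
      · right
        exact ⟨h.ray_rel hS hp g.1 tp, g.2, q2'⟩
      · left
        exact ⟨h.swap12.swap23.ray_rel hS hp tp g.1, g.2, q2'⟩
    have hsub : X ⊆ (X.filter (fun e => e.1 = a1 - v ∧ φ3 e.2 = 0 ∧ 0 < φ2 e.2)) ∪
        (X.filter (fun e => e.1 = a3 - v ∧ φ1 e.2 = 0 ∧ 0 < φ2 e.2)) := by
      intro e he
      rw [Finset.mem_union]
      rcases (hstr e he).2 with g | g
      · left; exact Finset.mem_filter.mpr ⟨he, g⟩
      · right; exact Finset.mem_filter.mpr ⟨he, g⟩
    have c1 : (X.filter (fun e => e.1 = a1 - v ∧ φ3 e.2 = 0 ∧ 0 < φ2 e.2)).card ≤ 1 := by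
      rw [Finset.card_le_one]
      intro e he e' he'
      obtain ⟨heX, g1, g2, g3⟩ := Finset.mem_filter.mp he
      obtain ⟨heX', g1', g2', g3'⟩ := Finset.mem_filter.mp he'
      have g3n := g3.ne'
      obtain ⟨r, hr⟩ := (hstr e heX).1
      obtain ⟨r', hr'⟩ := (hstr e' heX').1
      rw [g1] at hr
      rw [g1'] at hr'
      have key : e.2 = e'.2 := by
        refine hF.corner_unique hr hr' (l := φ1 e'.2 - φ2 e'.2 / φ2 e.2 * φ1 e.2)
          (m := φ2 e'.2 / φ2 e.2) (by positivity) ?_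
        have x1 := h.ext e.2
        have x2 := h.ext e'.2
        rw [g2, zero_smul, add_zero, add_comm] at x1
        rw [g2', zero_smul, add_zero, add_comm] at x2
        exact ray_comb g3n x1 x2
      exact Prod.ext (g1.trans g1'.symm) key
    have c2 : (X.filter (fun e => e.1 = a3 - v ∧ φ1 e.2 = 0 ∧ 0 < φ2 e.2)).card ≤ 1 := by
      rw [Finset.card_le_one]
      intro e he e' he'
      obtain ⟨heX, g1, g2, g3⟩ := Finset.mem_filter.mp he
      obtain ⟨heX', g1', g2', g3'⟩ := Finset.mem_filter.mp he'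
      have g3n := g3.ne'
      obtain ⟨r, hr⟩ := (hstr e heX).1
      obtain ⟨r', hr'⟩ := (hstr e' heX').1
      rw [g1] at hr
      rw [g1'] at hr'
      have key : e.2 = e'.2 := by
        refine hF.corner_unique hr hr' (l := φ3 e'.2 - φ2 e'.2 / φ2 e.2 * φ3 e.2)
          (m := φ2 e'.2 / φ2 e.2) (by positivity) ?_
        have x1 := h.ext e.2
        have x2 := h.ext e'.2
        rw [g2, zero_smul, zero_add] at x1
        rw [g2', zero_smul, zero_add] at x2
        exact ray_comb g3n x1 x2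
      exact Prod.ext (g1.trans g1'.symm) key
    calc X.card ≤ _ := Finset.card_le_card hsub
      _ ≤ _ := Finset.card_union_le _ _
      _ ≤ 1 + 1 := Nat.add_le_add c1 c2

end

end Run7.h169
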