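import Pool.Agent.Run7.h169.Facet2

set_option autoImplicit false
open scoped Classical Topology
open Filter

namespace Run7.h169

section

variable {W : Finset E3} {B : Finset (Finset E3)}

/-- The ordered edges. -/
noncomputable def eds (W : Finset E3) : Finset (E3 × E3) :=
  (W ×ˢ W).filter (fun e => IsEdge0 W e.1 e.2)

/-- The number of incidences between triangles and ordered edges. -/
noncomputable def ps (W : Finset E3) (Q : Finset (Finset E3)) : ℕ :=
  ∑ e ∈ eds W, cnt Q e.1 e.2

theorem total_cnt (Q : Finset (Finset E3)) (hQ : ∀ τ ∈ Q, τ ⊆ W ∧ τ.card = 3) :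
    ∑ e ∈ (W ×ˢ W).filter (fun e => e.1 ≠ e.2), cnt Q e.1 e.2 = 6 * Q.card := by
  rw [Finset.sum_filter, Finset.sum_product]
  have h1 : ∀ p ∈ W, ∑ q ∈ W, (if p ≠ q then cnt Q p q else 0) =
      2 * (Q.filter (fun τ => p ∈ τ)).card := by
    intro p _
    rw [← cnt_sum Q hQ p, ← Finset.sum_filter]
    apply Finset.sum_congr
    · ext x
      simp only [Finset.mem_filter, Finset.mem_erase]
      constructor
      · rintro ⟨a, b⟩; exact ⟨b.symm, a⟩
      · rintro ⟨a, b⟩; exact ⟨b, a.symm⟩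
    · intro x _; rfl
  rw [Finset.sum_congr rfl h1, ← Finset.mul_sum]
  have h2 : ∑ p ∈ W, (Q.filter (fun τ => p ∈ τ)).card = 3 * Q.card := by
    have h3 : ∀ p ∈ W, (Q.filter (fun τ => p ∈ τ)).card =
        ∑ τ ∈ Q, (if p ∈ τ then 1 else 0) := by
      intro p _; rw [Finset.card_filter]
    rw [Finset.sum_congr rfl h3, Finset.sum_comm]
    have h4 : ∀ τ ∈ Q, ∑ p ∈ W, (if p ∈ τ then 1 else 0) = 3 := by
      intro τ hτ
      rw [← Finset.card_filter]
      have : W.filter (fun p => p ∈ τ) = τ := by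
        ext x
        rw [Finset.mem_filter]
        exact ⟨fun h => h.2, fun h => ⟨(hQ τ hτ).1 h, h⟩⟩
      rw [this, (hQ τ hτ).2]
    rw [Finset.sum_congr rfl h4, Finset.sum_const, smul_eq_mul, mul_comm]
  rw [h2]; ring

theorem bp_ne {π : E3 →ₗ[ℝ] ℝ} (hπ : π ∈ planes B) : (bp B π).Nonempty := by
  obtain ⟨τ, hτ, h⟩ := Finset.mem_image.mp hπ
  exact ⟨τ, mem_bp.mpr ⟨hτ, h⟩⟩

/-- Sides of the triangles of a facet. -/
theorem face_ps (hC : Cfg W) (hF : Fan W B) {π : E3 →ₗ[ℝ] ℝ} (hπ : π ∈ planes B) :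
    ps W (bp B π) ≤ 2 * (bp B π).card + 4 := by
  have hne := bp_ne hπ
  have hCV := face_cfg hC hF hne
  have hFV : Fan (vp W π) (bp B π) := face_fan hF hne
  have hsz := (hFV.size hCV).2
  have hpos := Finset.card_pos.mpr hne
  have hsubB : bp B π ⊆ B := Finset.filter_subset _ _
  have htot := total_cnt (W := W) (bp B π)
    (fun τ hτ => ⟨hF.sub τ (hsubB hτ), (hF.nice τ (hsubB hτ)).1⟩)
  set N := (W ×ˢ W).filter (fun e : E3 × E3 => e.1 ≠ e.2) with hN
  have hsub1 : eds W ⊆ N := by
    intro e he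
    obtain ⟨h1, h2⟩ := Finset.mem_filter.mp he
    exact Finset.mem_filter.mpr ⟨h1, h2.1⟩
  have hsub2 : dp (vp W π) (bp B π) ⊆ N := by
    intro e he
    obtain ⟨h1, h2, _⟩ := Finset.mem_filter.mp he
    rw [Finset.mem_product] at h1
    exact Finset.mem_filter.mpr ⟨Finset.mem_product.mpr
      ⟨(mem_vp.mp h1.1).1, (mem_vp.mp h1.2).1⟩, h2⟩
  have hdisj : Disjoint (eds W) (dp (vp W π) (bp B π)) := by
    rw [Finset.disjoint_left]
    intro e he he2
    obtain ⟨_, hedge⟩ := Finset.mem_filter.mp he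
    obtain ⟨h1, h2, h3⟩ := Finset.mem_filter.mp he2
    obtain ⟨τ1, τ2, h12, hset⟩ := Finset.card_eq_two.mp h3
    have hτ1 : τ1 ∈ (bp B π).filter (fun τ => e.1 ∈ τ ∧ e.2 ∈ τ) := by rw [hset]; simp
    have hτ2 : τ2 ∈ (bp B π).filter (fun τ => e.1 ∈ τ ∧ e.2 ∈ τ) := by rw [hset]; simp
    rw [Finset.mem_filter] at hτ1 hτ2
    obtain ⟨hb1, hπ1⟩ := mem_bp.mp hτ1.1
    obtain ⟨hb2, hπ2⟩ := mem_bp.mp hτ2.1
    obtain ⟨r, _, _, e1⟩ := third (hF.nice τ1 hb1).1 hτ1.2.1 hτ1.2.2 h2
    obtain ⟨s, _, _, e2⟩ := third (hF.nice τ2 hb2).1 hτ2.2.1 hτ2.2.2 h2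
    have hrs : r ≠ s := by
      rintro rfl; exact h12 (e1.trans e2.symm)
    have hN2 := hF.nice τ2 hb2
    rw [e1] at hb1 hπ1
    refine hF.not_edge hC hb1 (e2 ▸ hb2) hrs ?_ hedge
    rw [hπ1, ← hπ2]
    exact gfun_mem hN2 _ (by rw [e2]; simp)
  have h1 : ∑ e ∈ eds W ∪ dp (vp W π) (bp B π), cnt (bp B π) e.1 e.2 ≤
      ∑ e ∈ N, cnt (bp B π) e.1 e.2 :=
    Finset.sum_le_sum_of_subset (Finset.union_subset hsub1 hsub2)
  rw [Finset.sum_union hdisj, htot] at h1
  have h2 : ∑ e ∈ dp (vp W π) (bp B π), cnt (bp B π) e.1 e.2 =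
      (dp (vp W π) (bp B π)).card * 2 := by
    rw [← smul_eq_mul, ← Finset.sum_const]
    apply Finset.sum_congr rfl
    intro e he
    exact (Finset.mem_filter.mp he).2.2
  rw [h2] at h1
  have h3 : ps W (bp B π) = ∑ e ∈ eds W, cnt (bp B π) e.1 e.2 := rfl
  omega

theorem card_planes (B : Finset (Finset E3)) (P : Finset E3 → Prop) :
    (B.filter P).card = ∑ π ∈ planes B, ((bp B π).filter P).card := by
  rw [Finset.card_eq_sum_card_fiberwise (f := fun τ => gfun τ (fun _ => 1)) (t := planes B)]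
  · apply Finset.sum_congr rfl
    intro π _
    congr 1
    ext τ
    simp only [bp, Finset.mem_filter]
    tauto
  · intro τ hτ
    exact Finset.mem_coe.mpr (Finset.mem_image_of_mem _ (Finset.mem_filter.mp hτ).1)

theorem ps_planes : ps W B = ∑ π ∈ planes B, ps W (bp B π) := by
  unfold ps
  rw [Finset.sum_comm]
  apply Finset.sum_congr rfl
  intro e _
  unfold cnt
  convert card_planes B (fun τ => e.1 ∈ τ ∧ e.2 ∈ τ)

theorem card_planes' : B.card = ∑ π ∈ planes B, (bp B π).card := by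
  have := card_planes B (fun _ => True)
  simpa using this

/-- Every edge is a side of a triangle. -/
theorem Fan.edge_cover (hC : Cfg W) (hF : Fan W B) {p q : E3} (hp : p ∈ W) (hq : q ∈ W)
    (he : IsEdge0 W p q) : ∃ r, ({p, q, r} : Finset E3) ∈ B := by
  obtain ⟨hpq, f, f1, f2, f3⟩ := he
  obtain ⟨τ, hτ, hc⟩ := hF.cover _ (cone_add (mem_cone_self hp) (mem_cone_self hq))
  have hN := hF.nice τ hτ
  have hc0 := (mem_cone_iff_crd hN).mp hc
  have hfle : ∀ x ∈ W, f x ≤ 1 := by
    intro x hx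
    by_cases h1 : x = p
    · rw [h1, f1]
    · by_cases h2 : x = q
      · rw [h2, f2]
      · exact (f3 x hx h1 h2).le
  have h1 : ∑ x ∈ τ, crd τ x (p + q) ≤ 2 := by
    have e : ∑ x ∈ τ, crd τ x (p + q) = gfun τ (fun _ => 1) (p + q) := by
      rw [gfun_apply]; simp
    rw [e, map_add]
    have := hF.supp τ hτ p hp
    have := hF.supp τ hτ q hq
    linarith
  have h2 : ∑ x ∈ τ, crd τ x (p + q) * f x = 2 := by
    have e : f (p + q) = ∑ x ∈ τ, crd τ x (p + q) * f x := by
      conv_lhs => rw [← crd_sum hN (p + q)]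
      rw [map_sum]
      apply Finset.sum_congr rfl
      intro x _
      rw [map_smul, smul_eq_mul]
    rw [← e, map_add, f1, f2]; norm_num
  have h3 : ∀ x ∈ τ, 0 ≤ crd τ x (p + q) * (1 - f x) := fun x hx =>
    mul_nonneg (hc0 x hx) (by linarith [hfle x (hF.sub τ hτ hx)])
  have h4 : ∑ x ∈ τ, crd τ x (p + q) * (1 - f x) ≤ 0 := by
    have : ∑ x ∈ τ, crd τ x (p + q) * (1 - f x) =
        ∑ x ∈ τ, crd τ x (p + q) - ∑ x ∈ τ, crd τ x (p + q) * f x := by
      rw [← Finset.sum_sub_distrib]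
      apply Finset.sum_congr rfl
      intro x _; ring
    linarith
  have h5 := (Finset.sum_eq_zero_iff_of_nonneg h3).mp (le_antisymm h4 (Finset.sum_nonneg h3))
  have hsupp : ∀ x ∈ τ, x ≠ p → x ≠ q → crd τ x (p + q) = 0 := by
    intro x hx xp xq
    have := f3 x (hF.sub τ hτ hx) xp xq
    exact (mul_eq_zero.mp (h5 x hx)).resolve_right (by linarith)
  have hboth : ∀ {p q : E3}, p ∈ W → q ∈ W → p ≠ q →
      (∀ x ∈ τ, x ≠ p → x ≠ q → crd τ x (p + q) = 0) → p ∈ τ := by
    intro p q hp hq hpq hsupp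
    by_contra hpτ
    by_cases hqτ : q ∈ τ
    · have e : p + q = crd τ q (p + q) • q := by
        conv_lhs => rw [← crd_sum hN (p + q)]
        rw [Finset.sum_eq_single q]
        · intro x hx hxq
          rw [hsupp x hx (fun h => hpτ (h ▸ hx)) hxq, zero_smul]
        · intro hn; exact absurd hqτ hn
      apply hC.ray_ne hp hq hpq (t := crd τ q (p + q) - 1)
      rw [sub_smul, ← e]; module
    · have e : p + q = 0 := by
        rw [← crd_sum hN (p + q)]
        apply Finset.sum_eq_zero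
        intro x hx
        rw [hsupp x hx (fun h => hpτ (h ▸ hx)) (fun h => hqτ (h ▸ hx)), zero_smul]
      apply hC.ray_ne hp hq hpq (t := -1)
      rw [neg_one_smul]
      exact eq_neg_of_add_eq_zero_left e
  have hpτ := hboth hp hq hpq hsupp
  have hqτ : q ∈ τ := hboth hq hp hpq.symm (fun x hx xq xp => by
    rw [add_comm]; exact hsupp x hx xp xq)
  obtain ⟨r, _, _, rfl⟩ := third hN.1 hpτ hqτ hpq
  exact ⟨r, hτ⟩

theorem cnt_two {Q : Finset (Finset E3)} {p q r s : E3} (hpr : r ≠ p) (hqr : r ≠ q)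
    (h1 : ({p, q, r} : Finset E3) ∈ Q) (h2 : ({p, q, s} : Finset E3) ∈ Q) (hrs : r ≠ s) :
    2 ≤ cnt Q p q := by
  unfold cnt
  rw [show (2 : ℕ) = ({({p, q, r} : Finset E3), {p, q, s}} : Finset (Finset E3)).card from ?_]
  · apply Finset.card_le_card
    intro σ hσ
    rw [Finset.mem_insert, Finset.mem_singleton] at hσ
    rw [Finset.mem_filter]
    rcases hσ with rfl | rfl
    · exact ⟨h1, by simp, by simp⟩
    · exact ⟨h2, by simp, by simp⟩
  · symm
    apply Finset.card_pair
    intro heq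
    have : r ∈ ({p, q, s} : Finset E3) := by rw [← heq]; simp
    simp only [Finset.mem_insert, Finset.mem_singleton] at this
    rcases this with h | h | h
    · exact hpr h
    · exact hqr h
    · exact hrs h

/-- The degrees bound the number of incidences from below. -/
theorem Fan.deg_le (hC : Cfg W) (hF : Fan W B) :
    2 * ∑ p ∈ W, deg W p ≤ ps W B + 2 * (W.filter (fun w => ¬ Inner W w)).card := by
  have hps : ps W B = ∑ p ∈ W, ∑ q ∈ W.filter (fun q => IsEdge0 W p q), cnt B p q := by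
    unfold ps eds
    rw [Finset.sum_filter, Finset.sum_product]
    apply Finset.sum_congr rfl
    intro p _
    rw [Finset.sum_filter]
  have key : ∀ p ∈ W, 2 * deg W p ≤ ∑ q ∈ W.filter (fun q => IsEdge0 W p q), cnt B p q +
      (if ¬ Inner W p then 2 else 0) := by
    intro p hp
    have hbase : ∀ q ∈ W.filter (fun q => IsEdge0 W p q), 1 ≤ cnt B p q := by
      intro q hq
      obtain ⟨hqW, he⟩ := Finset.mem_filter.mp hq
      obtain ⟨r, hr⟩ := hF.edge_cover hC hp hqW he
      exact cnt_pos hr (by simp) (by simp)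
    by_cases hin : Inner W p
    · rw [if_neg (not_not.mpr hin), add_zero]
      have h2 : ∀ q ∈ W.filter (fun q => IsEdge0 W p q), 2 ≤ cnt B p q := by
        intro q hq
        obtain ⟨hqW, he⟩ := Finset.mem_filter.mp hq
        obtain ⟨r, hr⟩ := hF.edge_cover hC hp hqW he
        obtain ⟨s, hrs, hs⟩ := hF.exists_other hr (hin.add (mem_cone_self hqW))
        obtain ⟨_, d2, d3⟩ := (hF.nice _ hr).distinct
        exact cnt_two d2.symm d3.symm hr hs hrs
      have h3 : (W.filter (fun q => IsEdge0 W p q)).card • 2 ≤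
          ∑ q ∈ W.filter (fun q => IsEdge0 W p q), cnt B p q :=
        Finset.card_nsmul_le_sum _ _ _ h2
      rw [smul_eq_mul] at h3
      unfold deg
      omega
    · rw [if_pos hin]
      have h1 : ∀ q ∈ W.filter (fun q => IsEdge0 W p q),
          2 ≤ cnt B p q + (if cnt B p q = 1 then 1 else 0) := by
        intro q hq
        have := hbase q hq
        split_ifs <;> omega
      have h2 := Finset.card_nsmul_le_sum _ _ _ h1
      rw [smul_eq_mul, Finset.sum_add_distrib, ← Finset.card_filter] at h2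
      have h3 : ((W.filter (fun q => IsEdge0 W p q)).filter (fun q => cnt B p q = 1)).card ≤ 2 := by
        refine le_trans (Finset.card_le_card ?_) (hF.boundary_le_two hC hp)
        intro q hq
        obtain ⟨h4, h5⟩ := Finset.mem_filter.mp hq
        obtain ⟨h6, h7⟩ := Finset.mem_filter.mp h4
        exact Finset.mem_filter.mpr ⟨h6, h7.1.symm, h5⟩
      unfold deg
      omega
  have hsum := Finset.sum_le_sum key
  rw [← Finset.mul_sum, Finset.sum_add_distrib, ← hps, ← Finset.sum_filter, Finset.sum_const,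
    smul_eq_mul] at hsum
  omega

/-- The counting lemma: there is a simple inner vertex in a quadrilateral facet. -/
theorem count_lemma (hC : Cfg W) {c : E3 → Bool}
    (hbip : ∀ p ∈ W, ∀ q ∈ W, IsEdge0 W p q → c p ≠ c q) {Ex : Finset E3} (hEx : Ex.card ≤ 3)
    (h1 : ∀ p ∈ W, 2 ≤ deg W p) (h2 : ∀ p ∈ W, p ∉ Ex → 3 ≤ deg W p) :
    ∃ z ∈ W, Inner W z ∧ deg W z ≤ 3 ∧ ∃ π : E3 →ₗ[ℝ] ℝ, (∀ x ∈ W, π x ≤ 1) ∧ π z = 1 ∧
      (vp W π).card = 4 := by
  by_contra hcon
  push Not at hcon
  obtain ⟨B, hF⟩ := fan_exists hC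
  have hE := hF.euler hC
  have hD := hF.deg_le hC
  set I := W.filter (Inner W) with hI
  set O := W.filter (fun w => ¬ Inner W w) with hO
  set I3 := I.filter (fun z => deg W z ≤ 3) with hI3
  -- facet inequality
  have hface : ∀ π ∈ planes B, 3 * ps W (bp B π) + 2 * (I3.filter (fun z => π z = 1)).card ≤
      12 * (bp B π).card := by
    intro π hπ
    have hne := bp_ne hπ
    have hCV := face_cfg hC hF hne
    have hFV : Fan (vp W π) (bp B π) := face_fan hF hne
    have hsz := (hFV.size hCV).1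
    have hps := face_ps hC hF hπ
    have heven := face_even hC hF hbip hne
    have hV3 : 3 ≤ (vp W π).card := by
      obtain ⟨A, hA, hAn⟩ := hCV.full
      rw [← hAn.1]; exact Finset.card_le_card hA
    obtain ⟨k, hk⟩ := heven
    have hsub : I3.filter (fun z => π z = 1) ⊆ vp W π := by
      intro z hz
      obtain ⟨g1, g2⟩ := Finset.mem_filter.mp hz
      exact mem_vp.mpr ⟨(Finset.mem_filter.mp (Finset.mem_filter.mp g1).1).1, g2⟩
    have hcard := Finset.card_le_card hsub
    by_cases hemp : (I3.filter (fun z => π z = 1)).Nonempty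
    · obtain ⟨z, hz⟩ := hemp
      obtain ⟨g1, g2⟩ := Finset.mem_filter.mp hz
      obtain ⟨g3, g4⟩ := Finset.mem_filter.mp g1
      obtain ⟨g5, g6⟩ := Finset.mem_filter.mp g3
      have h4 : (vp W π).card ≠ 4 := by
        apply hcon z g5 g6 g4 π _ g2
        intro x hx
        obtain ⟨τ, hτ⟩ := hne
        obtain ⟨t1, t2⟩ := mem_bp.mp hτ
        rw [← t2]
        exact hF.supp τ t1 x hx
      omega
    · rw [Finset.not_nonempty_iff_eq_empty] at hemp
      rw [hemp, Finset.card_empty]
      omega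
  have hsum := Finset.sum_le_sum hface
  rw [Finset.sum_add_distrib, ← Finset.mul_sum, ← Finset.mul_sum, ← Finset.mul_sum,
    ← ps_planes, ← card_planes'] at hsum
  have h3 : 3 * I3.card ≤ ∑ π ∈ planes B, (I3.filter (fun z => π z = 1)).card := by
    have e : ∑ π ∈ planes B, (I3.filter (fun z => π z = 1)).card =
        ∑ z ∈ I3, ((planes B).filter (fun π => π z = 1)).card := by
      simp only [Finset.card_filter]
      rw [Finset.sum_comm]
    rw [e]
    have : ∀ z ∈ I3, 3 ≤ ((planes B).filter (fun π => π z = 1)).card := by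
      intro z hz
      obtain ⟨g3, g4⟩ := Finset.mem_filter.mp hz
      obtain ⟨g5, g6⟩ := Finset.mem_filter.mp g3
      exact hF.three_planes hC g5 g6
    have := Finset.card_nsmul_le_sum _ _ _ this
    rw [smul_eq_mul] at this
    omega
  -- degree sum
  have h4 : 4 * I.card + 3 * O.card ≤ ∑ p ∈ W, deg W p + 3 + I3.card := by
    have hsplit : ∑ p ∈ W, deg W p = ∑ p ∈ I, deg W p + ∑ p ∈ O, deg W p := by
      rw [hI, hO]
      exact (Finset.sum_filter_add_sum_filter_not W (Inner W) _).symm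
    have k1 : ∀ p ∈ I, 4 ≤ deg W p + ((if p ∈ Ex then 1 else 0) +
        (if deg W p ≤ 3 then 1 else 0)) := by
      intro p hp
      have hpW := (Finset.mem_filter.mp hp).1
      have g1 := h1 p hpW
      have g2 := h2 p hpW
      by_cases hx : p ∈ Ex
      · rw [if_pos hx]
        split_ifs <;> omega
      · have := g2 hx
        rw [if_neg hx]
        split_ifs <;> omega
    have k2 : ∀ p ∈ O, 3 ≤ deg W p + (if p ∈ Ex then 1 else 0) := by
      intro p hp
      have hpW := (Finset.mem_filter.mp hp).1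
      have g1 := h1 p hpW
      have g2 := h2 p hpW
      by_cases hx : p ∈ Ex
      · rw [if_pos hx]; omega
      · have := g2 hx
        rw [if_neg hx]; omega
    have m1 := Finset.card_nsmul_le_sum _ _ _ k1
    have m2 := Finset.card_nsmul_le_sum _ _ _ k2
    rw [smul_eq_mul, Finset.sum_add_distrib, Finset.sum_add_distrib, ← Finset.card_filter,
      ← Finset.card_filter] at m1
    rw [smul_eq_mul, Finset.sum_add_distrib, ← Finset.card_filter] at m2
    have m3 : (I.filter (fun p => p ∈ Ex)).card + (O.filter (fun p => p ∈ Ex)).card ≤ Ex.card := by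
      rw [← Finset.card_union_of_disjoint]
      · apply Finset.card_le_card
        intro z hz
        rcases Finset.mem_union.mp hz with h | h
        · exact (Finset.mem_filter.mp h).2
        · exact (Finset.mem_filter.mp h).2
      · rw [Finset.disjoint_left]
        intro z hz hz'
        exact (Finset.mem_filter.mp (Finset.mem_filter.mp hz').1).2
          (Finset.mem_filter.mp (Finset.mem_filter.mp hz).1).2
    have m4 : (I.filter (fun p => deg W p ≤ 3)).card = I3.card := rfl
    omega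
  omega

end

end Run7.h169
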