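import Pool.Agent.Run7.h169.Forest2

set_option autoImplicit false
open scoped Classical Topology
open Filter

namespace Run7.h169

section

variable {S : Finset E3} {v : E3}

/-- A vertex with a frame. -/
def HasFrm (S : Finset E3) (z : E3) : Prop :=
  ∃ a1 a2 a3 φ1 φ2 φ3, Frm S z a1 a2 a3 φ1 φ2 φ3

theorem cone_trans {M W : Finset E3} {y : E3} (h : ∀ x ∈ W, x ∈ cone M) (hy : y ∈ cone W) :
    y ∈ cone M := by
  obtain ⟨c, hc, rfl⟩ := hy
  exact cone_sum hc h

/-- The edges at a vertex generate the cone at the vertex. -/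
theorem exists_gens (hS : ConvPos S) (hspan : affineSpan ℝ (S : Set E3) = ⊤) (hv : v ∈ S) :
    ∃ M, M ⊆ rel S v ∧ (∀ x ∈ rel S v, x ∈ cone M) ∧ ∀ m ∈ M, IsEdgeS S v (m + v) := by
  set W := rel S v with hW
  have hC : Cfg W := cfg_rel hS hspan hv
  obtain ⟨M, hM, hmin⟩ := Finset.exists_min_image
    (W.powerset.filter (fun M => ∀ x ∈ W, x ∈ cone M)) (fun M => M.card)
    ⟨W, Finset.mem_filter.mpr ⟨Finset.mem_powerset.mpr subset_rfl, fun x hx => mem_cone_self hx⟩⟩
  rw [Finset.mem_filter, Finset.mem_powerset] at hM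
  obtain ⟨hMW, hMc⟩ := hM
  refine ⟨M, hMW, hMc, ?_⟩
  intro m hm
  have hmn : m ∉ cone (M.erase m) := by
    intro hmem
    have h1 := hmin (M.erase m) (by
      rw [Finset.mem_filter, Finset.mem_powerset]
      refine ⟨(Finset.erase_subset _ _).trans hMW, ?_⟩
      intro x hx
      refine cone_trans ?_ (hMc x hx)
      intro z hz
      by_cases hzm : z = m
      · rw [hzm]; exact hmem
      · exact mem_cone_self (Finset.mem_erase.mpr ⟨hzm, hz⟩))
    rw [Finset.card_erase_of_mem hm] at h1
    have := Finset.card_pos.mpr ⟨m, hm⟩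
    omega
  obtain ⟨l, hl⟩ := hC.ell
  -- separation
  have hdisj : Disjoint (convexHull ℝ ((M.erase m : Finset E3) : Set E3))
      (Submodule.span ℝ ({m} : Set E3) : Set E3) := by
    rw [Set.disjoint_left]
    intro z hz hz2
    rw [SetLike.mem_coe, Submodule.mem_span_singleton] at hz2
    obtain ⟨t, rfl⟩ := hz2
    rw [Finset.mem_convexHull'] at hz
    obtain ⟨w, w0, w1, w2⟩ := hz
    rcases le_or_gt t 0 with ht | ht
    · have h1 : l (t • m) ≤ 0 := by
        rw [map_smul, smul_eq_mul]
        exact mul_nonpos_of_nonpos_of_nonneg ht (hl m (hMW hm)).le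
      have h2 : 0 < l (t • m) := by
        rw [← w2, map_sum]
        obtain ⟨k, hk, hk0⟩ : ∃ k ∈ M.erase m, w k ≠ 0 := by
          by_contra hcon
          push Not at hcon
          rw [Finset.sum_eq_zero hcon] at w1
          exact zero_ne_one w1
        apply Finset.sum_pos'
        · intro i hi
          rw [map_smul, smul_eq_mul]
          exact mul_nonneg (w0 i hi) (hl i (hMW (Finset.mem_of_mem_erase hi))).le
        · refine ⟨k, hk, ?_⟩
          rw [map_smul, smul_eq_mul]
          exact mul_pos (lt_of_le_of_ne (w0 k hk) hk0.symm) (hl k (hMW (Finset.mem_of_mem_erase hk)))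
      linarith
    · apply hmn
      have hz3 : t • m ∈ cone (M.erase m) := ⟨w, w0, w2⟩
      have hz4 := cone_smul (a := 1 / t) (by positivity) hz3
      rwa [smul_smul, one_div_mul_cancel ht.ne', one_smul] at hz4
  obtain ⟨f, u, u', hf1, hf2, hf3⟩ := geometric_hahn_banach_compact_closed
    (convex_convexHull ℝ _) ((M.erase m).finite_toSet.isCompact_convexHull (𝕜 := ℝ))
    (Submodule.span ℝ ({m} : Set E3)).convex (Submodule.closed_of_finiteDimensional _) hdisj
  have hfm : f m = 0 := by
    by_contra hne
    have h1 := hf3 ((u' / f m) • m) (Submodule.smul_mem _ _ (Submodule.mem_span_singleton_self m))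
    rw [map_smul, smul_eq_mul, div_mul_cancel₀ _ hne] at h1
    exact lt_irrefl _ h1
  have hu' : u' < 0 := by
    have := hf3 0 (Submodule.zero_mem _)
    rwa [map_zero] at this
  have hneg : ∀ k ∈ M.erase m, f k < 0 := by
    intro k hk
    have := hf1 k (subset_convexHull ℝ _ hk)
    linarith
  refine ⟨?_, f.toLinearMap, ?_, ?_⟩
  · intro hh
    have h0 : m = 0 := by
      have : v + 0 = v + m := by rw [add_zero, add_comm v m]; exact hh
      exact (add_left_cancel this).symm
    exact hC.zero_notMem (h0 ▸ hMW hm)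
  · show f v = f (m + v)
    rw [map_add, hfm, zero_add]
  · intro x hx xv xm
    show f x < f v
    have hxW : x - v ∈ W := sub_mem_rel hx xv
    obtain ⟨c, c0, c1⟩ := hMc _ hxW
    have hfx : f (x - v) = ∑ k ∈ M.erase m, c k * f k := by
      rw [← c1, map_sum, ← Finset.add_sum_erase M _ hm, map_smul, hfm, smul_zero, zero_add]
      apply Finset.sum_congr rfl
      intro k _
      rw [map_smul, smul_eq_mul]
    have hle : f (x - v) ≤ 0 := by
      rw [hfx]
      apply Finset.sum_nonpos
      intro k hk
      exact mul_nonpos_of_nonneg_of_nonpos (c0 k (Finset.mem_of_mem_erase hk)) (hneg k hk).le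
    have hne : f (x - v) ≠ 0 := by
      intro h0
      rw [hfx] at h0
      have hz : ∀ k ∈ M.erase m, c k = 0 := by
        have := (Finset.sum_eq_zero_iff_of_nonpos (fun k hk =>
          mul_nonpos_of_nonneg_of_nonpos (c0 k (Finset.mem_of_mem_erase hk)) (hneg k hk).le)).mp h0
        intro k hk
        rcases mul_eq_zero.mp (this k hk) with h | h
        · exact h
        · exact absurd h (hneg k hk).ne
      have e : x - v = c m • m := by
        rw [← c1, ← Finset.add_sum_erase M _ hm, Finset.sum_eq_zero, add_zero]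
        intro k hk
        rw [hz k hk, zero_smul]
      set t := c m with ht
      have ht0 : t ≠ 0 := by
        intro h0
        rw [h0, zero_smul] at e
        exact xv (sub_eq_zero.mp e)
      have htp : 0 < t := lt_of_le_of_ne (c0 m hm) (Ne.symm ht0)
      have hmS : m + v ∈ S := (mem_rel.mp (hMW hm)).1
      have hmv : m + v ≠ v := by
        intro hh
        have : m = 0 := by simpa using hh
        exact hC.zero_notMem (this ▸ hMW hm)
      rcases le_or_gt t 1 with h1 | h1
      · refine hS.not_between hx hv hmS (Ne.symm xv) (Ne.symm xm) htp.le h1 ?_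
        have : x = v + t • m := by rw [← e]; abel
        rw [this]; module
      · refine hS.not_between (x := m + v) (y := v) (z := x) (t := 1 / t) hmS hv hx
          (Ne.symm hmv) xm (by positivity) (by rw [div_le_one htp]; exact h1.le) ?_
        have : x = v + t • m := by rw [← e]; abel
        rw [this]
        match_scalars <;> field_simp <;> ring
    have hlt : f (x - v) < 0 := lt_of_le_of_ne hle hne
    rw [map_sub] at hlt
    linarith

theorem span_of_cone {M W : Finset E3} (hC : Cfg W) (h : ∀ x ∈ W, x ∈ cone M) :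
    Submodule.span ℝ (M : Set E3) = ⊤ := by
  obtain ⟨A, hA, hAn⟩ := hC.full
  rw [eq_top_iff]
  intro y _
  rw [← crd_sum hAn y]
  apply Submodule.sum_mem
  intro x hx
  apply Submodule.smul_mem
  obtain ⟨c, _, h2⟩ := h x (hA hx)
  rw [← h2]
  apply Submodule.sum_mem
  intro z hz
  exact Submodule.smul_mem _ _ (Submodule.subset_span (by exact_mod_cast hz))

/-- The number of neighbours of a vertex. -/
theorem exists_nbrs (hS : ConvPos S) (hspan : affineSpan ℝ (S : Set E3) = ⊤) (hv : v ∈ S) :
    ∃ M, M ⊆ rel S v ∧ (∀ m ∈ M, IsEdgeS S v (m + v)) ∧ 3 ≤ M.card ∧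
      (¬ HasFrm S v → 4 ≤ M.card) := by
  obtain ⟨M, h1, h2, h3⟩ := exists_gens hS hspan hv
  have hC : Cfg (rel S v) := cfg_rel hS hspan hv
  have hsp := span_of_cone hC h2
  have hcard : 3 ≤ M.card := by
    have h4 := finrank_span_finset_le_card (R := ℝ) M
    rw [Set.finrank, hsp, finrank_top] at h4
    simpa using h4
  refine ⟨M, h1, h3, hcard, ?_⟩
  intro hno
  by_contra hlt
  have hM3 : M.card = 3 := by omega
  apply hno
  have hN : Nice M := by
    refine ⟨hM3, ?_⟩
    have hli : LinearIndependent ℝ (fun x : M => (x : E3)) := by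
      apply linearIndependent_of_top_le_span_of_card_eq_finrank
      · rw [← hsp]
        apply Submodule.span_mono
        intro x hx
        exact ⟨⟨x, by exact_mod_cast hx⟩, rfl⟩
      · simp [hM3]
    exact hli
  obtain ⟨a, b, c, hab, hac, hbc, rfl⟩ := Finset.card_eq_three.mp hM3
  have e1 : a + v - v = a := by abel
  have e2 : b + v - v = b := by abel
  have e3 : c + v - v = c := by abel
  refine ⟨a + v, b + v, c + v, _, _, _, frm_of_nice hv (mem_rel.mp (h1 (by simp))).1
    (mem_rel.mp (h1 (by simp))).1 (mem_rel.mp (h1 (by simp))).1 ?_ ?_⟩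
  · rw [e1, e2, e3]; exact hN
  · intro z hz
    rw [e1, e2, e3]
    by_cases hzv : z = v
    · exact ⟨0, 0, 0, le_rfl, le_rfl, le_rfl, by rw [hzv]; simp⟩
    · have := h2 _ (sub_mem_rel hz hzv)
      have hp := (mem_cone_iff_crd hN).mp this
      exact ⟨_, _, _, hp a (by simp), hp b (by simp), hp c (by simp), crd_sum3 hN (z - v)⟩

theorem IsEdgeS.rel {s0 p q : E3} (h : IsEdgeS S p q) (hs0 : s0 ∈ S) (hp : s0 ≠ p)
    (hq : s0 ≠ q) : IsEdge0 (rel S s0) (p - s0) (q - s0) := by
  obtain ⟨hne, f, h1, h2⟩ := h
  have hpos : 0 < f p - f s0 := by linarith [h2 s0 hs0 hp hq]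
  refine ⟨fun hh => hne (sub_left_inj.mp hh), (1 / (f p - f s0)) • f, ?_, ?_, ?_⟩
  · rw [LinearMap.smul_apply, map_sub, smul_eq_mul, one_div_mul_cancel hpos.ne']
  · rw [LinearMap.smul_apply, map_sub, ← h1, smul_eq_mul, one_div_mul_cancel hpos.ne']
  · intro x hx xp xq
    rw [LinearMap.smul_apply, smul_eq_mul, one_div, inv_mul_lt_one₀ hpos]
    have := h2 _ (mem_rel.mp hx).1 (fun hh => xp (by rw [← hh]; abel))
      (fun hh => xq (by rw [← hh]; abel))
    rw [map_add] at this
    linarith

/-- The degree of a vertex in the graph of the part not containing the apex. -/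
noncomputable def deg (W : Finset E3) (p : E3) : ℕ := (W.filter (fun q => IsEdge0 W p q)).card

theorem deg_ge (hS : ConvPos S) (hspan : affineSpan ℝ (S : Set E3) = ⊤) {s0 p : E3}
    (hs0 : s0 ∈ S) (hp : p ∈ rel S s0) : ∃ k : ℕ, 3 ≤ k ∧ (¬ HasFrm S (p + s0) → 4 ≤ k) ∧
      k ≤ deg (rel S s0) p + 1 ∧ (¬ IsEdgeS S (p + s0) s0 → k ≤ deg (rel S s0) p) := by
  obtain ⟨p1, p2⟩ := mem_rel.mp hp
  obtain ⟨M, m1, m2, m3, m4⟩ := exists_nbrs hS hspan p1
  have key : (M.erase (-p)).card ≤ deg (rel S s0) p := by
    apply Finset.card_le_card_of_injOn (fun m => m + p)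
    · intro m hm
      rw [Finset.mem_coe, Finset.mem_erase] at hm
      obtain ⟨hne, hm⟩ := hm
      have e : IsEdgeS S (p + s0) (m + (p + s0)) := m2 m hm
      have hmS := (mem_rel.mp (m1 hm)).1
      have h0 : m + (p + s0) ≠ s0 := by
        intro hh
        apply hne
        have : m + p = 0 := by
          have h1 : (m + p) + s0 = 0 + s0 := by rw [zero_add, add_assoc]; exact hh
          exact add_right_cancel h1
        exact eq_neg_of_add_eq_zero_left this
      have hps : s0 ≠ p + s0 := by
        intro hh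
        apply p2
        have : (0 : E3) + s0 = p + s0 := by rw [zero_add]; exact hh
        exact (add_right_cancel this).symm
      have he := e.rel hs0 hps (Ne.symm h0)
      have e1 : p + s0 - s0 = p := by abel
      have e2 : m + (p + s0) - s0 = m + p := by abel
      rw [e1, e2] at he
      beta_reduce
      rw [Finset.mem_coe, Finset.mem_filter]
      refine ⟨?_, he⟩
      rw [← e2]
      exact sub_mem_rel hmS h0
    · intro a _ b _ hab
      exact add_right_cancel hab
  have herase : M.card ≤ (M.erase (-p)).card + 1 := by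
    by_cases hm : -p ∈ M
    · rw [Finset.card_erase_of_mem hm]; omega
    · rw [Finset.erase_eq_of_notMem hm]; omega
  refine ⟨M.card, m3, m4, by omega, ?_⟩
  intro hno
  have hm : -p ∉ M := by
    intro hm
    apply hno
    have := m2 _ hm
    have e : -p + (p + s0) = s0 := by abel
    rwa [e] at this
  rw [Finset.erase_eq_of_notMem hm] at key
  exact key

end

end Run7.h169
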