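import Pool.Agent.Run7.h169.Bip1
import Pool.Agent.Run7.h169.Count
import Pool.Agent.Run7.h169.Nbr

set_option autoImplicit false
open scoped Classical Topology
open Filter

namespace Run7.h169

section

variable {S : Finset E3} {v a1 a2 a3 : E3} {φ1 φ2 φ3 : E3 →ₗ[ℝ] ℝ}

theorem Frm.span (h : Frm S v a1 a2 a3 φ1 φ2 φ3) : affineSpan ℝ (S : Set E3) = ⊤ := by
  rw [AffineSubspace.affineSpan_eq_top_iff_vectorSpan_eq_top_of_nonempty ℝ E3 E3
    ⟨v, Finset.mem_coe.mpr h.hv⟩, eq_top_iff]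
  intro z _
  rw [← h.ext z]
  have m : ∀ a ∈ S, a - v ∈ vectorSpan ℝ (S : Set E3) := fun a ha => by
    have := vsub_mem_vectorSpan ℝ (Finset.mem_coe.mpr ha) (Finset.mem_coe.mpr h.hv)
    rwa [vsub_eq_sub] at this
  exact Submodule.add_mem _ (Submodule.add_mem _ (Submodule.smul_mem _ _ (m _ h.h1))
    (Submodule.smul_mem _ _ (m _ h.h2))) (Submodule.smul_mem _ _ (m _ h.h3))

/-- Three vertices are not collinear. -/
theorem ConvPos.not_collinear (hS : ConvPos S) {p q y : E3} (hp : p ∈ S) (hq : q ∈ S)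
    (hy : y ∈ S) (hpq : p ≠ q) (hyp : y ≠ p) (hyq : y ≠ q) {s : ℝ}
    (h : y - p = s • (q - p)) : False := by
  have hy' : y = p + s • (q - p) := by rw [← h]; abel
  rcases lt_or_ge s 0 with h0 | h0
  · -- `p` between `y` and `q`
    have hd : 0 < 1 - s := by linarith
    refine hS.not_between (x := p) (y := y) (z := q) (t := -s / (1 - s)) hp hy hq hyp hpq.symm
      (div_nonneg (by linarith) hd.le) (by rw [div_le_one hd]; linarith) ?_
    rw [hy']
    match_scalars <;> field_simp <;> ring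
  · rcases le_or_gt s 1 with h1 | h1
    · refine hS.not_between (x := y) (y := p) (z := q) (t := s) hy hp hq hyp.symm hyq.symm h0 h1 ?_
      rw [hy']; module
    · have hs : 0 < s := by linarith
      refine hS.not_between (x := q) (y := p) (z := y) (t := 1 / s) hq hp hy hpq hyq
        (by positivity) (by rw [div_le_one hs]; exact h1.le) ?_
      rw [hy']
      match_scalars <;> field_simp <;> ring

theorem exists_ne_zero {X : E3} (hX : X ≠ 0) : ∃ f : E3 →ₗ[ℝ] ℝ, f X ≠ 0 := by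
  by_contra hcon
  push Not at hcon
  exact hX ((Module.forall_dual_apply_eq_zero_iff ℝ X).mp hcon)

/-- Two vertices on two independent supporting planes form an edge. -/
theorem edge_of_two_planes (hS : ConvPos S) {p q r : E3} (hp : p ∈ S) (hq : q ∈ S) (hpq : p ≠ q)
    {f g : E3 →ₗ[ℝ] ℝ} (hf : ∀ z ∈ S, f p ≤ f z) (hg : ∀ z ∈ S, g p ≤ g z) (fq : f q = f p)
    (gq : g q = g p) (g0 : g ≠ 0) (fr : f r ≠ f p) (gr : g r = g p) : IsEdgeS S p q := by
  refine ⟨hpq, -(f + g), ?_, ?_⟩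
  · show -(f p + g p) = -(f q + g q)
    rw [fq, gq]
  · intro y hy yp yq
    show -(f y + g y) < -(f p + g p)
    have h1 := hf y hy
    have h2 := hg y hy
    by_contra hcon
    push Not at hcon
    have e1 : f y = f p := by linarith
    have e2 : g y = g p := by linarith
    have hX : q - p ≠ 0 := fun hh => hpq (sub_eq_zero.mp hh).symm
    obtain ⟨k, hk⟩ := exists_ne_zero hX
    have hu : k (q - p) • (y - p) - k (y - p) • (q - p) = 0 := by
      refine tri_zero (h := g) (fx := f) (fy := k) (X := q - p) (Y := r - p) g0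
        (by rw [map_sub, gq, sub_self]) (by rw [map_sub, gr, sub_self])
        (by rw [map_sub, fq, sub_self]) (by rw [map_sub]; exact sub_ne_zero.mpr fr) hk ?_ ?_ ?_
      · simp only [map_sub, map_smul, smul_eq_mul, e2, gq]; ring
      · simp only [map_sub, map_smul, smul_eq_mul, e1, fq]; ring
      · simp only [map_sub, map_smul, smul_eq_mul]; ring
    refine hS.not_collinear hp hq hy hpq yp yq (s := k (y - p) / k (q - p)) ?_
    have h3 := sub_eq_zero.mp hu
    calc y - p = (1 / k (q - p)) • (k (q - p) • (y - p)) := by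
          rw [smul_smul, one_div_mul_cancel hk, one_smul]
      _ = (k (y - p) / k (q - p)) • (q - p) := by
          rw [h3, smul_smul]
          congr 1
          ring

theorem IsEdgeS.cof {p q r : E3} (h : IsEdgeS S p q) (hr : r ∈ S) (rp : r ≠ p) (rq : r ≠ q) :
    Cof S p q := by
  obtain ⟨e, e1, e2, e3⟩ := h.le
  refine ⟨-e, ?_, ?_, ?_⟩
  · intro h0
    have h1 : e = 0 := neg_eq_zero.mp h0
    have := e3 r hr rp rq
    rw [h1] at this
    simp at this
  · intro z hz
    show -(e p) ≤ -(e z)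
    have := e2 z hz
    linarith
  · show -(e q) = -(e p)
    rw [e1]

theorem Cof.symm {p q : E3} (h : Cof S p q) : Cof S q p := by
  obtain ⟨f, f0, f1, f2⟩ := h
  exact ⟨f, f0, fun z hz => by rw [f2]; exact f1 z hz, f2.symm⟩

/-- Two neighbours of a vertex on a facet that does not contain the vertex form a bad chord. -/
theorem bad_of_two (hS : ConvPos S) {c : E3 → Bool}
    (hbip : ∀ p ∈ S, ∀ q ∈ S, IsEdgeS S p q → c p ≠ c q) {f : E3 →ₗ[ℝ] ℝ} {p x y : E3}
    (hp : p ∈ S) (hx : x ∈ S) (hy : y ∈ S) (hf : ∀ z ∈ S, f x ≤ f z) (fxy : f y = f x)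
    (fp : f p ≠ f x) (ex : IsEdgeS S p x) (ey : IsEdgeS S p y) (hxy : x ≠ y) :
    Bad S x y p := by
  refine ⟨hx, hy, hp, hxy, ex.1.symm, ey.symm, ⟨f, ?_, hf, fxy⟩,
    (ex.cof hy ey.1.symm hxy.symm).symm, ?_⟩
  · rintro rfl
    exact fp (by simp)
  · rintro ⟨g, g0, g1, g2, g3⟩
    have he := edge_of_two_planes hS hx hy hxy hf g1 fxy g2 g0 fp g3
    have h1 := hbip x hx y hy he
    have h2 := hbip p hp x hx ex
    have h3 := hbip p hp y hy ey
    revert h1 h2 h3
    cases c x <;> cases c y <;> cases c p <;> simp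

/-- A quadrilateral facet at a simple vertex, in position. -/
theorem Frm.quad_aux (hS : ConvPos S) (h : Frm S v a1 a2 a3 φ1 φ2 φ3) {π : E3 →ₗ[ℝ] ℝ}
    (p1 : π (a1 - v) = 0) (p2 : π (a2 - v) = 0) (p3 : π (a3 - v) < 0)
    (hcard : (S.filter (fun y => π y = π v)).card = 4) :
    ∃ m ∈ S, (∀ y ∈ S, φ3 (y - v) = 0 → y = v ∨ y = a1 ∨ y = a2 ∨ y = m) ∧
      0 < φ1 (m - v) ∧ 0 < φ2 (m - v) ∧ φ3 (m - v) = 0 := by
  have hval : ∀ y, π (y - v) = φ3 (y - v) * π (a3 - v) := by
    intro y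
    conv_lhs => rw [← h.ext (y - v)]
    rw [map_add, map_add, map_smul, map_smul, map_smul, p1, p2]
    simp
  have hiff : ∀ y, π y = π v ↔ φ3 (y - v) = 0 := by
    intro y
    have := hval y
    rw [map_sub π] at this
    constructor
    · intro h1
      rw [h1, sub_self] at this
      exact (mul_eq_zero.mp this.symm).resolve_right p3.ne
    · intro h1
      rw [h1, zero_mul] at this
      linarith
  set E := S.filter (fun y => π y = π v) with hE
  have n1 : v ≠ a1 := by
    rintro hh; have := h.d11; rw [← hh, sub_self, map_zero] at this; exact zero_ne_one this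
  have n2 : v ≠ a2 := by
    rintro hh; have := h.d22; rw [← hh, sub_self, map_zero] at this; exact zero_ne_one this
  have n12 : a1 ≠ a2 := by
    rintro hh; have := h.d11; rw [hh, h.d12] at this; exact zero_ne_one this
  have hsub : ({v, a1, a2} : Finset E3) ⊆ E := by
    intro z hz
    simp only [Finset.mem_insert, Finset.mem_singleton] at hz
    rw [hE, Finset.mem_filter, hiff]
    rcases hz with rfl | rfl | rfl
    · exact ⟨h.hv, by rw [sub_self, map_zero]⟩
    · exact ⟨h.h1, h.d31⟩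
    · exact ⟨h.h2, h.d32⟩
  have h3 : ({v, a1, a2} : Finset E3).card = 3 := by
    rw [Finset.card_eq_three]; exact ⟨_, _, _, n1, n2, n12, rfl⟩
  have h4 : (E \ {v, a1, a2}).card = 1 := by
    rw [Finset.card_sdiff_of_subset hsub, hcard, h3]
  obtain ⟨m, hm⟩ := Finset.card_eq_one.mp h4
  have hmE : m ∈ E \ {v, a1, a2} := by rw [hm]; simp
  rw [Finset.mem_sdiff] at hmE
  obtain ⟨hmE, hmn⟩ := hmE
  simp only [Finset.mem_insert, Finset.mem_singleton, not_or] at hmn
  obtain ⟨hmS, hmπ⟩ := Finset.mem_filter.mp hmE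
  rw [hiff] at hmπ
  obtain ⟨q1, q2, _⟩ := h.pos m hmS
  refine ⟨m, hmS, ?_, ?_, ?_, hmπ⟩
  · intro y hy hy3
    by_contra hcon
    push Not at hcon
    have : y ∈ E \ {v, a1, a2} := by
      rw [Finset.mem_sdiff]
      refine ⟨Finset.mem_filter.mpr ⟨hy, (hiff y).mpr hy3⟩, ?_⟩
      simp only [Finset.mem_insert, Finset.mem_singleton, not_or]
      exact ⟨hcon.1, hcon.2.1, hcon.2.2.1⟩
    rw [hm, Finset.mem_singleton] at this
    exact hcon.2.2.2 this
  · refine lt_of_le_of_ne q1 (fun h0 => hmn.2.2 ?_)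
    exact h.swap23.ray hS hmS hmn.1 h0.symm hmπ
  · refine lt_of_le_of_ne q2 (fun h0 => hmn.2.1 ?_)
    exact h.swap12.swap23.ray hS hmS hmn.1 h0.symm hmπ

theorem Frm.two_neg (hS : ConvPos S) (h : Frm S v a1 a2 a3 φ1 φ2 φ3) {π : E3 →ₗ[ℝ] ℝ}
    (p1 : π (a1 - v) < 0) (p2 : π (a2 - v) < 0) (p3 : π (a3 - v) ≤ 0) :
    (S.filter (fun y => π y = π v)).card ≤ 2 := by
  refine le_trans (Finset.card_le_card (t := {v, a3}) ?_) Finset.card_le_two
  intro y hy
  rw [Finset.mem_filter] at hy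
  obtain ⟨hy, hyπ⟩ := hy
  rw [Finset.mem_insert, Finset.mem_singleton]
  by_cases hyv : y = v
  · left; exact hyv
  · right
    obtain ⟨q1, q2, q3⟩ := h.pos y hy
    have hval : π (y - v) = φ1 (y - v) * π (a1 - v) + φ2 (y - v) * π (a2 - v) +
        φ3 (y - v) * π (a3 - v) := by
      conv_lhs => rw [← h.ext (y - v)]
      rw [map_add, map_add, map_smul, map_smul, map_smul]
      simp
    have h0 : π (y - v) = 0 := by rw [map_sub, hyπ, sub_self]
    rw [h0] at hval
    have r1 := mul_nonpos_of_nonneg_of_nonpos q1 p1.le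
    have r2 := mul_nonpos_of_nonneg_of_nonpos q2 p2.le
    have r3 := mul_nonpos_of_nonneg_of_nonpos q3 p3
    have s1 : φ1 (y - v) = 0 := by
      have : φ1 (y - v) * π (a1 - v) = 0 := by linarith
      exact (mul_eq_zero.mp this).resolve_right p1.ne
    have s2 : φ2 (y - v) = 0 := by
      have : φ2 (y - v) * π (a2 - v) = 0 := by linarith
      exact (mul_eq_zero.mp this).resolve_right p2.ne
    exact h.ray hS hy hyv s1 s2

/-- A simple vertex in a quadrilateral facet. -/
theorem Frm.quad_frame (hS : ConvPos S) (h : Frm S v a1 a2 a3 φ1 φ2 φ3) {π : E3 →ₗ[ℝ] ℝ}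
    (hπ : ∀ y ∈ S, π y ≤ π v) (hπ0 : π ≠ 0)
    (hcard : (S.filter (fun y => π y = π v)).card = 4) :
    ∃ b1 b2 b3 ψ1 ψ2 ψ3, Frm S v b1 b2 b3 ψ1 ψ2 ψ3 ∧
      ∃ m ∈ S, (∀ y ∈ S, ψ3 (y - v) = 0 → y = v ∨ y = b1 ∨ y = b2 ∨ y = m) ∧
      0 < ψ1 (m - v) ∧ 0 < ψ2 (m - v) ∧ ψ3 (m - v) = 0 := by
  have le : ∀ y ∈ S, π (y - v) ≤ 0 := by
    intro y hy
    rw [map_sub]
    have := hπ y hy
    linarith
  have l1 := le a1 h.h1
  have l2 := le a2 h.h2
  have l3 := le a3 h.h3
  rcases lt_or_eq_of_le l1 with g1 | g1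
  · rcases lt_or_eq_of_le l2 with g2 | g2
    · have := h.two_neg hS g1 g2 l3
      omega
    · rcases lt_or_eq_of_le l3 with g3 | g3
      · have := h.swap23.two_neg hS g1 g3 l2
        omega
      · -- the first is negative
        have h' := h.swap12.swap23
        exact ⟨_, _, _, _, _, _, h', h'.quad_aux hS g2 g3 g1 hcard⟩
  · rcases lt_or_eq_of_le l2 with g2 | g2
    · rcases lt_or_eq_of_le l3 with g3 | g3
      · have := (h.swap12.swap23).two_neg hS g2 g3 l1
        omega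
      · have h' := h.swap23
        exact ⟨_, _, _, _, _, _, h', h'.quad_aux hS g1 g3 g2 hcard⟩
    · rcases lt_or_eq_of_le l3 with g3 | g3
      · exact ⟨_, _, _, _, _, _, h, h.quad_aux hS g1 g2 g3 hcard⟩
      · exfalso
        apply hπ0
        ext z
        rw [← h.ext z, map_add, map_add, map_smul, map_smul, map_smul, g1, g2, g3]
        simp

/-- The count seen from an apex. -/
theorem corner_of_count (hS : ConvPos S) (hspan : affineSpan ℝ (S : Set E3) = ⊤) {s0 : E3}
    (hs0 : s0 ∈ S) {c : E3 → Bool}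
    (hbip : ∀ p ∈ S, ∀ q ∈ S, p ≠ s0 → q ≠ s0 → IsEdgeS S p q → c p ≠ c q)
    {Ex : Finset E3} (hEx : Ex.card ≤ 3)
    (h2 : ∀ p ∈ S, p ≠ s0 → p ∉ Ex → IsEdgeS S p s0 → ¬ HasFrm S p) :
    ∃ z ∈ S, z ≠ s0 ∧ Inner (rel S s0) (z - s0) ∧ ¬ IsEdgeS S z s0 ∧ HasFrm S z ∧
      ∃ π : E3 →ₗ[ℝ] ℝ, π ≠ 0 ∧ (∀ y ∈ S, π y ≤ π z) ∧
        (S.filter (fun y => π y = π z)).card = 4 := by
  set W := rel S s0 with hW
  have hC : Cfg W := cfg_rel hS hspan hs0
  have mS : ∀ {z : E3}, z ∈ W → z + s0 ∈ S := fun hz => (mem_rel.mp hz).1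
  have ne0 : ∀ {z : E3}, z ∈ W → z + s0 ≠ s0 := by
    intro z hz hh
    exact (mem_rel.mp hz).2 (by simpa using hh)
  have hEx' : (Ex.image (fun y => y - s0)).card ≤ 3 := le_trans Finset.card_image_le hEx
  obtain ⟨z, hz, hin, hdeg, π, π1, π2, π3⟩ := count_lemma hC (c := fun y => c (y + s0))
    (by
      intro p hp q hq he
      exact hbip _ (mS hp) _ (mS hq) (ne0 hp) (ne0 hq) (Frm.edge_rel he)) hEx'
    (by
      intro p hp
      obtain ⟨k, k1, _, k3, _⟩ := deg_ge hS hspan hs0 hp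
      rw [← hW] at k3
      omega)
    (by
      intro p hp hpE
      obtain ⟨k, k1, k2, k3, k4⟩ := deg_ge hS hspan hs0 hp
      rw [← hW] at k3 k4
      by_cases he : IsEdgeS S (p + s0) s0
      · have h3 : p + s0 ∉ Ex := by
          intro hh
          apply hpE
          rw [Finset.mem_image]
          exact ⟨p + s0, hh, by abel⟩
        have := k2 (h2 _ (mS hp) (ne0 hp) h3 he)
        omega
      · have := k4 he
        omega)
  have hne : ¬ IsEdgeS S (z + s0) s0 := by
    intro he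
    obtain ⟨e, e1, e2, e3⟩ := he.le
    by_cases h3 : ∃ w ∈ S, w ≠ z + s0 ∧ w ≠ s0
    · obtain ⟨w, w1, w2, w3⟩ := h3
      refine not_inner_of_support (W := W) (f := -e) ?_ ?_ (y := z) ?_ hin
      · intro h0
        have h1 : e = 0 := neg_eq_zero.mp h0
        have := e3 w w1 w2 w3
        rw [h1] at this
        simp at this
      · intro x hx
        show 0 ≤ -(e x)
        have := e2 _ (mS hx)
        rw [map_add] at this e1
        rw [map_add] at this
        linarith
      · show -(e z) = 0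
        rw [map_add] at e1
        linarith
    · push Not at h3
      obtain ⟨A, hA, hAn⟩ := hC.full
      have : A ⊆ {z} := by
        intro w hw
        rw [Finset.mem_singleton]
        by_contra hwz
        exact ne0 (hA hw) (h3 _ (mS (hA hw)) (fun hh => hwz (add_right_cancel hh)))
      have h4 := Finset.card_le_card this
      rw [hAn.1, Finset.card_singleton] at h4
      omega
  have hfrm : HasFrm S (z + s0) := by
    by_contra hno
    obtain ⟨k, k1, k2, k3, k4⟩ := deg_ge hS hspan hs0 hz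
    rw [← hW] at k3 k4
    have := k2 hno
    have := k4 hne
    omega
  refine ⟨z + s0, mS hz, ne0 hz, by rwa [add_sub_cancel_right], hne, hfrm, π, ?_, ?_, ?_⟩
  · rintro rfl
    simp at π2
  · intro y hy
    rw [map_add, π2]
    by_cases hys : y = s0
    · rw [hys]; linarith
    · have := π1 _ (sub_mem_rel hy hys)
      rw [map_sub] at this
      linarith
  · rw [← π3]
    apply Finset.card_bij (fun y _ => y - s0)
    · intro y hy
      obtain ⟨h3, h4⟩ := Finset.mem_filter.mp hy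
      rw [map_add, π2] at h4
      have hys : y ≠ s0 := by
        rintro rfl
        linarith
      rw [mem_vp]
      refine ⟨sub_mem_rel h3 hys, ?_⟩
      rw [map_sub]; linarith
    · intro a _ b _ hab
      exact sub_left_inj.mp hab
    · intro b hb
      obtain ⟨h3, h4⟩ := mem_vp.mp hb
      refine ⟨b + s0, ?_, by abel⟩
      rw [Finset.mem_filter, map_add, map_add, π2, h4]
      exact ⟨mS h3, rfl⟩

/-- From a corner to a Hamiltonian tetrahedralization. -/
theorem hasHamTet_of_corner (hS : ConvPos S) (hspan : affineSpan ℝ (S : Set E3) = ⊤)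
    {c : E3 → Bool} (hbip : ∀ p ∈ S, ∀ q ∈ S, IsEdgeS S p q → c p ≠ c q) {z : E3}
    (hz : HasFrm S z) {π : E3 →ₗ[ℝ] ℝ} (hπ0 : π ≠ 0) (hπ : ∀ y ∈ S, π y ≤ π z)
    (hcard : (S.filter (fun y => π y = π z)).card = 4)
    (hk : ∀ f : E3 →ₗ[ℝ] ℝ, (∀ y ∈ S, f z ≤ f y) → ∀ p ∈ S, f p ≠ f z → ∀ x ∈ S, ∀ y ∈ S,
      f x = f z → f y = f z → IsEdgeS S p x → IsEdgeS S p y → x = y) : HasHamTet S := by
  obtain ⟨_, _, _, _, _, _, h⟩ := hz
  obtain ⟨b1, b2, b3, ψ1, ψ2, ψ3, h', m, hm, hquad, m1, m2, m3⟩ := h.quad_frame hS hπ hπ0 hcard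
  have conv : ∀ (ψ : E3 →ₗ[ℝ] ℝ) (y : E3), ψ (y - z) = 0 ↔ ψ y = ψ z := by
    intro ψ y
    rw [map_sub, sub_eq_zero]
  refine corner_hasHamTet hS hspan hbip h' hm hquad m1 m2 m3 ?_ ?_
  · intro p hp hpz x hx y hy hxz hyz ex ey
    rw [conv] at hxz hyz
    refine hk ψ1 ?_ p hp (fun hh => hpz ((conv _ _).mpr hh)) x hx y hy hxz hyz ex ey
    intro w hw
    have := (h'.pos w hw).1
    rw [map_sub] at this
    linarith
  · intro p hp hpz x hx y hy hxz hyz ex ey
    rw [conv] at hxz hyz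
    refine hk ψ2 ?_ p hp (fun hh => hpz ((conv _ _).mpr hh)) x hx y hy hxz hyz ex ey
    intro w hw
    have := (h'.pos w hw).2.1
    rw [map_sub] at this
    linarith

end

end Run7.h169
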