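import Pool.Agent.Run7.h169.Bip2

set_option autoImplicit false
open scoped Classical Topology
open Filter

namespace Run7.h169

section

variable {S : Finset E3} {c1 c2 x : E3} {h : E3 →ₗ[ℝ] ℝ}

/-- The crossing point of a segment with the plane of a bad chord. -/
theorem Bad.transfer (b : Bad S c1 c2 x) (h0 : h ≠ 0) (h2 : h c2 = h c1) (hx : h x = h c1)
    {u a : E3} (hu : u ∈ S) (ha : a ∈ S) (hu' : h c1 < h u) (ha' : h a < h c1) :
    ∃ t α β γ : ℝ, 0 < t ∧ t < 1 ∧ 0 ≤ α ∧ 0 ≤ β ∧ 0 ≤ γ ∧ α + β + γ = 1 ∧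
      (1 - t) • a + t • u = α • c1 + β • c2 + γ • x ∧
      ∀ f : E3 →ₗ[ℝ] ℝ, (1 - t) * f a + t * f u = α * f c1 + β * f c2 + γ * f x := by
  obtain ⟨t, t0, t1, tm, tS⟩ := cross ha' hu' ha hu
  obtain ⟨α, β, γ, p1, p2, p3, p4, p5⟩ := b.section h0 h2 hx tS tm
  refine ⟨t, α, β, γ, t0, t1, p1, p2, p3, p4, p5, ?_⟩
  intro f
  rw [← map_seg, p5, map_tri]

theorem Bad.push_le (b : Bad S c1 c2 x) (h0 : h ≠ 0) (h2 : h c2 = h c1) (hx : h x = h c1)
    {u a : E3} (hu : u ∈ S) (ha : a ∈ S) (hu' : h c1 < h u) (ha' : h a < h c1)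
    {f : E3 →ₗ[ℝ] ℝ} {M : ℝ} (f1 : f c1 ≤ M) (f2 : f c2 ≤ M) (f3 : f x ≤ M) (fu : M ≤ f u) :
    f a ≤ M := by
  obtain ⟨t, α, β, γ, t0, t1, p1, p2, p3, p4, _, p5⟩ := b.transfer h0 h2 hx hu ha hu' ha'
  have e := p5 f
  have q1 := mul_nonneg p1 (sub_nonneg.mpr f1)
  have q2 := mul_nonneg p2 (sub_nonneg.mpr f2)
  have q3 := mul_nonneg p3 (sub_nonneg.mpr f3)
  have q4 := mul_nonneg t0.le (sub_nonneg.mpr fu)
  have e2 : M = α * M + β * M + γ * M := by rw [← add_mul, ← add_mul, p4, one_mul]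
  have e3 : (1 - t) * f a ≤ (1 - t) * M := by linarith
  exact le_of_mul_le_mul_left e3 (by linarith)

theorem Bad.push_edge (hS : ConvPos S) (b : Bad S c1 c2 x) (h0 : h ≠ 0) (h2 : h c2 = h c1)
    (hx : h x = h c1) {u a : E3} (hu : u ∈ S) (ha : a ∈ S) (hu' : h c1 < h u)
    (ha' : h a < h c1) {f : E3 →ₗ[ℝ] ℝ} {M : ℝ} (f1 : f c1 ≤ M) (f2 : f c2 ≤ M) (f3 : f x ≤ M)
    (fu : M ≤ f u) {q : E3} (g1 : c1 ≠ q → f c1 < M) (g2 : c2 ≠ q → f c2 < M)
    (g3 : x ≠ q → f x < M) : f a < M := by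
  obtain ⟨t, α, β, γ, t0, t1, p1, p2, p3, p4, pv, p5⟩ := b.transfer h0 h2 hx hu ha hu' ha'
  by_contra hcon
  push Not at hcon
  have e := p5 f
  have q1 := mul_nonneg p1 (sub_nonneg.mpr f1)
  have q2 := mul_nonneg p2 (sub_nonneg.mpr f2)
  have q3 := mul_nonneg p3 (sub_nonneg.mpr f3)
  have q4 := mul_nonneg t0.le (sub_nonneg.mpr fu)
  have q5 := mul_nonneg (show 0 ≤ 1 - t by linarith) (sub_nonneg.mpr hcon)
  have e2 : M = α * M + β * M + γ * M := by rw [← add_mul, ← add_mul, p4, one_mul]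
  have r1 : α * (M - f c1) = 0 := by linarith
  have r2 : β * (M - f c2) = 0 := by linarith
  have r3 : γ * (M - f x) = 0 := by linarith
  have s1 : c1 ≠ q → α = 0 := fun hq =>
    (mul_eq_zero.mp r1).resolve_right (by have := g1 hq; linarith)
  have s2 : c2 ≠ q → β = 0 := fun hq =>
    (mul_eq_zero.mp r2).resolve_right (by have := g2 hq; linarith)
  have s3 : x ≠ q → γ = 0 := fun hq =>
    (mul_eq_zero.mp r3).resolve_right (by have := g3 hq; linarith)
  by_cases k1 : c1 = q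
  · have z2 := s2 (fun hh => b.vx (k1.trans hh.symm))
    have z3 := s3 (fun hh => b.vy (k1.trans hh.symm))
    have z1 : α = 1 := by linarith
    rw [z1, z2, z3, one_smul, zero_smul, zero_smul, add_zero, add_zero] at pv
    exact hS.not_between b.hv ha hu (by rintro rfl; linarith) (by rintro rfl; linarith)
      t0.le t1.le pv.symm
  · have z1 := s1 k1
    by_cases k2 : c2 = q
    · have z3 := s3 (fun hh => b.edge.1 (k2.trans hh.symm))
      have z2 : β = 1 := by linarith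
      rw [z1, z2, z3, one_smul, zero_smul, zero_smul, add_zero, zero_add] at pv
      exact hS.not_between b.hx ha hu (by rintro rfl; linarith) (by rintro rfl; linarith)
        t0.le t1.le pv.symm
    · have z2 := s2 k2
      have z3 : γ = 1 := by linarith
      rw [z1, z2, z3, one_smul, zero_smul, zero_smul, zero_add, zero_add] at pv
      exact hS.not_between b.hy ha hu (by rintro rfl; linarith) (by rintro rfl; linarith)
        t0.le t1.le pv.symm

/-- No edge crosses the plane of a bad chord. -/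
theorem Bad.no_cross_edge (hS : ConvPos S) (b : Bad S c1 c2 x) (h0 : h ≠ 0) (h2 : h c2 = h c1)
    (hx : h x = h c1) {u a : E3} (hu : u ∈ S) (ha : a ∈ S) (hu' : h c1 < h u)
    (ha' : h a < h c1) {S' : Finset E3} (m1 : c1 ∈ S') (m2 : c2 ∈ S') (m3 : x ∈ S')
    (he : IsEdgeS S' u a) : False := by
  obtain ⟨_, e, e1, e2⟩ := he
  have l1 := e2 c1 m1 (by rintro rfl; linarith) (by rintro rfl; linarith)
  have l2 := e2 c2 m2 (by rintro rfl; linarith) (by rintro rfl; linarith)
  have l3 := e2 x m3 (by rintro rfl; linarith) (by rintro rfl; linarith)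
  have := b.push_edge hS h0 h2 hx hu ha hu' ha' (f := e) (M := e u) l1.le l2.le l3.le le_rfl
    (q := u) (fun _ => l1) (fun _ => l2) (fun _ => l3)
  linarith

theorem Bad.face_side (hS : ConvPos S) (b : Bad S c1 c2 x) (h0 : h ≠ 0) (h2 : h c2 = h c1)
    (hx : h x = h c1) {F : E3 →ₗ[ℝ] ℝ} (F1 : ∀ z ∈ S, F c1 ≤ F z) (F2 : F c2 = F c1)
    (F3 : F c1 < F x) (hno : ¬ IsEdgeS S c1 c2) : ∃ u ∈ S, h c1 < h u ∧ F u = F c1 := by
  by_contra hcon
  push Not at hcon
  apply hno
  refine edge_of_face (v := c1) (φ := F) (g := h) (M := 0) b.vx ?_ ?_ ?_ ?_ ?_ ?_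
  · intro y hy
    rw [map_sub]
    linarith [F1 y hy]
  · rw [sub_self, map_zero]
  · rw [map_sub, F2, sub_self]
  · rw [sub_self, map_zero]
  · rw [map_sub, h2, sub_self]
  · intro y hy hyF y1 y2
    rw [map_sub] at hyF
    rw [map_sub]
    have hyF' : F y = F c1 := by linarith
    rcases lt_trichotomy (h y) (h c1) with g | g | g
    · linarith
    · exfalso
      rcases b.tri_mem hS h0 h2 hx hy g with rfl | rfl | rfl
      · exact y1 rfl
      · exact y2 rfl
      · linarith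
    · exact absurd hyF' (hcon y hy g)

/-- The frame at the base of the cap. -/
theorem Bad.base_frm (b : Bad S c1 c2 x) (h0 : h ≠ 0) (h2 : h c2 = h c1) (hx : h x = h c1)
    {s0 : E3} (hs0 : s0 ∈ S) (hs : h s0 < h c1) {S' : Finset E3} (hsub : S' ⊆ S) (m0 : s0 ∈ S')
    (m1 : c1 ∈ S') (m2 : c2 ∈ S') (m3 : x ∈ S') (hall : ∀ z ∈ S', z ≠ s0 → h c1 ≤ h z) :
    ∃ ψ1 ψ2 ψ3, Frm S' s0 c1 c2 x ψ1 ψ2 ψ3 := by
  obtain ⟨fx, fx0, fx1, fx2⟩ := b.cx
  obtain ⟨ee, e1, e2, e3⟩ := b.edge.le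
  have k1 : 0 < fx (x - c1) := by
    have h1 := fx1 x b.hy
    rw [map_sub]
    refine lt_of_le_of_ne (by linarith) (fun hh => b.no ⟨fx, fx0, fx1, fx2, by linarith⟩)
  rw [map_sub] at k1
  have hk : h c1 - h s0 ≠ 0 := by linarith
  have hN : Nice {c1 - s0, c2 - s0, x - s0} := by
    refine nice_of_functionals (f1 := ee - (ee (c2 - s0) / (h c1 - h s0)) • h)
      (f2 := fx - (fx (x - s0) / (h c1 - h s0)) • h) (f3 := h) ?_ ?_ ?_ ?_ ?_ ?_
    · show ee (c1 - s0) - ee (c2 - s0) / (h c1 - h s0) * h (c1 - s0) ≠ 0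
      rw [map_sub h, div_mul_cancel₀ _ hk, map_sub, map_sub]
      have := e3 c1 b.hv b.vx b.vy
      linarith
    · show ee (c2 - s0) - ee (c2 - s0) / (h c1 - h s0) * h (c2 - s0) = 0
      rw [map_sub h, h2, div_mul_cancel₀ _ hk, sub_self]
    · show ee (x - s0) - ee (c2 - s0) / (h c1 - h s0) * h (x - s0) = 0
      rw [map_sub h, hx, div_mul_cancel₀ _ hk, map_sub, map_sub]
      linarith
    · show fx (c2 - s0) - fx (x - s0) / (h c1 - h s0) * h (c2 - s0) ≠ 0
      rw [map_sub h, h2, div_mul_cancel₀ _ hk, map_sub, map_sub]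
      linarith
    · show fx (x - s0) - fx (x - s0) / (h c1 - h s0) * h (x - s0) = 0
      rw [map_sub h, hx, div_mul_cancel₀ _ hk, sub_self]
    · rw [map_sub, hx]; exact hk
  refine ⟨_, _, _, frm_of_nice m0 m1 m2 m3 hN ?_⟩
  intro z hz
  by_cases hzs : z = s0
  · rw [hzs]
    exact ⟨0, 0, 0, le_rfl, le_rfl, le_rfl, by simp⟩
  · have hz1 := hall z hz hzs
    have hd : 0 < h z - h s0 := by linarith
    set t := (h c1 - h s0) / (h z - h s0) with ht
    have ht0 : 0 < t := div_pos (by linarith) hd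
    have ht1 : t ≤ 1 := by rw [ht, div_le_one hd]; linarith
    have hm : (1 - t) • s0 + t • z ∈ convexHull ℝ (S : Set E3) :=
      seg_mem_hull (subset_convexHull ℝ _ hs0) (subset_convexHull ℝ _ (hsub hz)) ht0.le ht1
    have hmv : h ((1 - t) • s0 + t • z) = h c1 := by
      rw [map_add, map_smul, map_smul, smul_eq_mul, smul_eq_mul]
      have : t * (h z - h s0) = h c1 - h s0 := by rw [ht]; field_simp
      linarith
    obtain ⟨α, β, γ, p1, p2, p3, p4, p5⟩ := b.section h0 h2 hx hm hmv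
    refine ⟨α / t, β / t, γ / t, div_nonneg p1 ht0.le, div_nonneg p2 ht0.le,
      div_nonneg p3 ht0.le, ?_⟩
    have e4 : t • (z - s0) = α • (c1 - s0) + β • (c2 - s0) + γ • (x - s0) := by
      have e5 : t • (z - s0) = ((1 - t) • s0 + t • z) - s0 := by module
      rw [e5, p5]
      have : s0 = (α + β + γ) • s0 := by rw [p4, one_smul]
      conv_lhs => rw [this]
      module
    have e6 : z - s0 = (1 / t) • (t • (z - s0)) := by
      rw [smul_smul, one_div_mul_cancel ht0.ne', one_smul]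
    rw [e6, e4]
    match_scalars <;> field_simp

/-- A bad chord above the plane of a bad chord has a smaller cap. -/
theorem Bad.up_ssub {v x y : E3} (b : Bad S v x y) (h0 : h ≠ 0)
    (hx : h x = h v) (hy : h y = h v)
    {w a c : E3} (hwv : h v < h w) (b' : Bad S w a c) (ha : h v ≤ h a) (hc : h v ≤ h c) :
    ∃ g : E3 →ₗ[ℝ] ℝ, g ≠ 0 ∧ g a = g w ∧ g c = g w ∧ (up S g w).card < (up S h v).card := by
  obtain ⟨s0, hs0, hs0'⟩ := b.exists_above (neg_ne_zero.mpr h0)
    (by show -(h x) = -(h v); rw [hx]) (by show -(h y) = -(h v); rw [hy])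
  have hs1 : h s0 < h v := by
    have : -(h v) < -(h s0) := hs0'
    linarith
  obtain ⟨h', h'0, h'a, h'c⟩ := exists_plane w a c
  have hne : h' s0 ≠ h' w := by
    intro hh
    obtain ⟨α, β, γ, p1, p2, p3, p4, p5⟩ := b'.section h'0 h'a h'c (subset_convexHull ℝ _ hs0) hh
    have e : h s0 = α * h w + β * h a + γ * h c := by rw [p5, map_tri]
    have : h v ≤ h s0 := by
      have e2 : h v = α * h v + β * h v + γ * h v := by
        rw [← add_mul, ← add_mul, p4, one_mul]
      rw [e, e2]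
      have := mul_le_mul_of_nonneg_left hwv.le p1
      have := mul_le_mul_of_nonneg_left ha p2
      have := mul_le_mul_of_nonneg_left hc p3
      linarith
    linarith
  -- choose the sign
  obtain ⟨g, g0, ga, gc, gs⟩ : ∃ g : E3 →ₗ[ℝ] ℝ, g ≠ 0 ∧ g a = g w ∧ g c = g w ∧ g s0 < g w := by
    rcases lt_or_gt_of_ne hne with hlt | hgt
    · exact ⟨h', h'0, h'a, h'c, hlt⟩
    · refine ⟨-h', neg_ne_zero.mpr h'0, ?_, ?_, ?_⟩
      · show -(h' a) = -(h' w); rw [h'a]
      · show -(h' c) = -(h' w); rw [h'c]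
      · show -(h' s0) < -(h' w); linarith
  refine ⟨g, g0, ga, gc, Finset.card_lt_card ?_⟩
  rw [Finset.ssubset_iff_of_subset]
  · exact ⟨w, mem_up.mpr ⟨b'.hv, hwv⟩, fun hh => lt_irrefl _ (mem_up.mp hh).2⟩
  · intro s hs
    rw [mem_up] at hs ⊢
    refine ⟨hs.1, ?_⟩
    by_contra hle
    push Not at hle
    obtain ⟨t, t0, t1, tm, tS⟩ := cross gs hs.2 hs0 hs.1
    obtain ⟨α, β, γ, p1, p2, p3, p4, p5⟩ := b'.section g0 ga gc tS tm
    have e : (1 - t) * h s0 + t * h s = α * h w + β * h a + γ * h c := by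
      rw [← map_seg, p5, map_tri]
    have e2 : h v = α * h v + β * h v + γ * h v := by
      rw [← add_mul, ← add_mul, p4, one_mul]
    have := mul_le_mul_of_nonneg_left hwv.le p1
    have := mul_le_mul_of_nonneg_left ha p2
    have := mul_le_mul_of_nonneg_left hc p3
    have : (1 - t) * h s0 + t * h s < h v := by nlinarith
    linarith

/-- The main step: a minimal bad chord. -/
theorem bip_caseA (hS : ConvPos S) (hspan : affineSpan ℝ (S : Set E3) = ⊤) {c : E3 → Bool}
    (hbip : ∀ p ∈ S, ∀ q ∈ S, IsEdgeS S p q → c p ≠ c q) (b : Bad S c1 c2 x)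
    (ex : IsEdgeS S c1 x) (h0 : h ≠ 0) (h2 : h c2 = h c1) (hx : h x = h c1)
    (hmin : ∀ (d1 d2 y : E3) (g : E3 →ₗ[ℝ] ℝ), Bad S d1 d2 y → IsEdgeS S d1 y → g ≠ 0 →
      g d2 = g d1 → g y = g d1 → (up S h c1).card ≤ (up S g d1).card) : HasHamTet S := by
  obtain ⟨F, F0, F1, F2⟩ := b.cx
  have F3 : F c1 < F x :=
    lt_of_le_of_ne (F1 x b.hy) (fun hh => b.no ⟨F, F0, F1, F2, hh.symm⟩)
  have c1x := hbip c1 b.hv x b.hy ex
  have c2x := hbip c2 b.hx x b.hy b.edge
  have cc : c c1 = c c2 := by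
    revert c1x c2x
    cases c c1 <;> cases c c2 <;> cases c x <;> simp
  have hno : ¬ IsEdgeS S c1 c2 := fun he => hbip c1 b.hv c2 b.hx he cc
  obtain ⟨u0, hu0, hu0h, hu0F⟩ := b.face_side hS h0 h2 hx F1 F2 F3 hno
  obtain ⟨s0, hs0, hs0h', hs0F⟩ := b.face_side hS (h := -h) (neg_ne_zero.mpr h0)
    (by show -(h c2) = -(h c1); rw [h2]) (by show -(h x) = -(h c1); rw [hx]) F1 F2 F3 hno
  have hs0h : h s0 < h c1 := by
    have : -(h c1) < -(h s0) := hs0h'
    linarith
  -- the cap with a base vertex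
  set S' : Finset E3 := insert s0 (S.filter (fun y => h c1 ≤ h y)) with hS'def
  have mS' : ∀ {y : E3}, y ∈ S' ↔ y = s0 ∨ (y ∈ S ∧ h c1 ≤ h y) := by
    intro y
    rw [hS'def, Finset.mem_insert, Finset.mem_filter]
  have hsub : S' ⊆ S := by
    intro y hy
    rcases mS'.mp hy with rfl | ⟨hy, _⟩
    · exact hs0
    · exact hy
  have low : ∀ {y : E3}, y ∈ S → y ∉ S' → h y < h c1 := by
    intro y hy hn
    by_contra hcon
    push Not at hcon
    exact hn (mS'.mpr (Or.inr ⟨hy, hcon⟩))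
  have m0 : s0 ∈ S' := mS'.mpr (Or.inl rfl)
  have m1 : c1 ∈ S' := mS'.mpr (Or.inr ⟨b.hv, le_rfl⟩)
  have m2 : c2 ∈ S' := mS'.mpr (Or.inr ⟨b.hx, h2.ge⟩)
  have m3 : x ∈ S' := mS'.mpr (Or.inr ⟨b.hy, hx.ge⟩)
  have hge : ∀ z ∈ S', z ≠ s0 → h c1 ≤ h z := by
    intro z hz hne
    rcases mS'.mp hz with hh | hh
    · exact absurd hh hne
    · exact hh.2
  obtain ⟨ψ1, ψ2, ψ3, hψ⟩ := b.base_frm h0 h2 hx hs0 hs0h hsub m0 m1 m2 m3 hge
  have hconv : ConvPos S' := hS.mono hsub
  have tri : ∀ {y : E3}, y ∈ S → h y = h c1 → y = c1 ∨ y = c2 ∨ y = x :=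
    fun hy hh => b.tri_mem hS h0 h2 hx hy hh
  -- edges of the cap
  have up_edge : ∀ p ∈ S, h c1 < h p → ∀ q ∈ S', IsEdgeS S' p q → IsEdgeS S p q := by
    intro p hp hph q hq he
    obtain ⟨hpq, e, e1, e2⟩ := he
    have ele : ∀ w ∈ S', e w ≤ e p := by
      intro w hw
      by_cases w1 : w = p
      · rw [w1]
      · by_cases w2 : w = q
        · rw [w2, e1]
        · exact (e2 w hw w1 w2).le
    refine ⟨hpq, e, e1, ?_⟩
    intro y hy yp yq
    by_cases hyS : y ∈ S'
    · exact e2 y hyS yp yq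
    · exact b.push_edge hS h0 h2 hx hp hy hph (low hy hyS) (ele _ m1) (ele _ m2) (ele _ m3) le_rfl
        (q := q) (fun hq' => e2 _ m1 (by rintro rfl; exact lt_irrefl _ hph) hq')
        (fun hq' => e2 _ m2 (by rintro rfl; linarith) hq')
        (fun hq' => e2 _ m3 (by rintro rfl; linarith) hq')
  have no_s0 : ∀ p ∈ S, h c1 < h p → ¬ IsEdgeS S' p s0 := by
    intro p hp hph he
    exact b.no_cross_edge hS h0 h2 hx hp hs0 hph hs0h m1 m2 m3 he
  have no12 : ¬ IsEdgeS S' c1 c2 := by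
    rintro ⟨_, e, e1, e2⟩
    obtain ⟨t, α, β, γ, t0, t1, p1, p2, p3, p4, _, p5⟩ := b.transfer h0 h2 hx hu0 hs0 hu0h hs0h
    have g1 := p5 F
    rw [hs0F, hu0F, F2] at g1
    have g2 : γ * (F x - F c1) = 0 := by
      have : F c1 = α * F c1 + β * F c1 + γ * F c1 := by rw [← add_mul, ← add_mul, p4, one_mul]
      linarith
    have g3 : γ = 0 := (mul_eq_zero.mp g2).resolve_right (by linarith)
    have g4 := p5 e
    rw [g3, zero_mul, add_zero, ← e1, ← add_mul, show α + β = 1 by linarith, one_mul] at g4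
    have u0S : u0 ∈ S' := mS'.mpr (Or.inr ⟨hu0, hu0h.le⟩)
    have l1 := e2 u0 u0S (by rintro rfl; exact lt_irrefl _ hu0h) (by rintro rfl; linarith)
    have l2 := e2 s0 m0 (by rintro rfl; exact lt_irrefl _ hs0h) (by rintro rfl; linarith)
    nlinarith
  have hbip' : ∀ p ∈ S', ∀ q ∈ S', p ≠ s0 → q ≠ s0 → IsEdgeS S' p q → c p ≠ c q := by
    intro p hp q hq p0 q0 he
    rcases lt_or_eq_of_le (hge p hp p0) with g1 | g1
    · exact hbip p (hsub hp) q (hsub hq) (up_edge p (hsub hp) g1 q hq he)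
    · rcases lt_or_eq_of_le (hge q hq q0) with g2 | g2
      · exact hbip p (hsub hp) q (hsub hq) (up_edge q (hsub hq) g2 p hp he.symm).symm
      · rcases tri (hsub hp) g1.symm with rfl | rfl | rfl
        · rcases tri (hsub hq) g2.symm with rfl | rfl | rfl
          · exact absurd rfl he.1
          · exact absurd he no12
          · exact c1x
        · rcases tri (hsub hq) g2.symm with rfl | rfl | rfl
          · exact absurd he.symm no12
          · exact absurd rfl he.1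
          · exact c2x
        · rcases tri (hsub hq) g2.symm with rfl | rfl | rfl
          · exact c1x.symm
          · exact c2x.symm
          · exact absurd rfl he.1
  obtain ⟨z, hz, hzs, hin, _, hfrm, π, π0, πle, πcard⟩ :=
    corner_of_count hconv hψ.span m0 hbip' (Ex := {c1, c2, x}) Finset.card_le_three (by
      intro p hp hps hpE he
      exfalso
      simp only [Finset.mem_insert, Finset.mem_singleton, not_or] at hpE
      rcases lt_or_eq_of_le (hge p hp hps) with g1 | g1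
      · exact no_s0 p (hsub hp) g1 he
      · rcases tri (hsub hp) g1.symm with hh | hh | hh
        · exact hpE.1 hh
        · exact hpE.2.1 hh
        · exact hpE.2.2 hh)
  have hzS := hsub hz
  -- the vertex is above the plane
  have hzh : h c1 < h z := by
    rcases lt_or_eq_of_le (hge z hz hzs) with g1 | g1
    · exact g1
    · exfalso
      rw [hψ.inner_iff] at hin
      rcases tri hzS g1.symm with rfl | rfl | rfl
      · rw [hψ.d21] at hin; exact lt_irrefl _ hin.2.1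
      · rw [hψ.d12] at hin; exact lt_irrefl _ hin.1
      · rw [hψ.d13] at hin; exact lt_irrefl _ hin.1
  have hzF : F c1 < F z := by
    refine lt_of_le_of_ne (F1 z hzS) (fun hh => ?_)
    refine not_inner_of_support (W := rel S' s0) F0 ?_ (y := z - s0) ?_ hin
    · intro w hw
      have := F1 _ (hsub (mem_rel.mp hw).1)
      rw [map_add, hs0F] at this
      linarith
    · rw [map_sub, hs0F, ← hh, sub_self]
  have zcof : ∀ a ∈ S, h a < h c1 → ¬ Cof S z a := by
    intro a ha hah hcof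
    obtain ⟨e, e1, e2, e3⟩ := ex.le
    have := b.below h0 h2 hx (fx := F) (fy := -e) F1 F2
      (fun w hw => by show -(e c1) ≤ -(e w); linarith [e2 w hw])
      (by show -(e x) = -(e c1); rw [e1]) hzS hzh
      (by
        show -(e c1) < -(e z)
        have := e3 z hzS (by rintro rfl; exact lt_irrefl _ hzh) (by rintro rfl; linarith)
        linarith) ha hah hcof
    linarith [this.1]
  -- the frame of the whole polytope
  have hfrmS : HasFrm S z := by
    obtain ⟨a1, a2, a3, φ1, φ2, φ3, hf⟩ := hfrm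
    have key : ∀ φ : E3 →ₗ[ℝ] ℝ, (∀ y ∈ S', 0 ≤ φ (y - z)) → ∀ y ∈ S, 0 ≤ φ (y - z) := by
      intro φ hφ y hy
      by_cases hyS : y ∈ S'
      · exact hφ y hyS
      · have cv : ∀ w ∈ S', (-φ) w ≤ (-φ) z := by
          intro w hw
          have := hφ w hw
          rw [map_sub] at this
          show -(φ w) ≤ -(φ z)
          linarith
        have := b.push_le h0 h2 hx hzS hy hzh (low hy hyS) (cv _ m1) (cv _ m2) (cv _ m3) le_rfl
        have h3 : -(φ y) ≤ -(φ z) := this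
        rw [map_sub]
        linarith
    refine ⟨a1, a2, a3, φ1, φ2, φ3, hsub hf.hv, hsub hf.h1, hsub hf.h2, hsub hf.h3, hf.d11,
      hf.d12, hf.d13, hf.d21, hf.d22, hf.d23, hf.d31, hf.d32, hf.d33, hf.ext, ?_⟩
    intro y hy
    exact ⟨key φ1 (fun w hw => (hf.pos w hw).1) y hy, key φ2 (fun w hw => (hf.pos w hw).2.1) y hy,
      key φ3 (fun w hw => (hf.pos w hw).2.2) y hy⟩
  have πleS : ∀ y ∈ S, π y ≤ π z := by
    intro y hy
    by_cases hyS : y ∈ S'
    · exact πle y hyS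
    · exact b.push_le h0 h2 hx hzS hy hzh (low hy hyS) (πle _ m1) (πle _ m2) (πle _ m3) le_rfl
  have hfil : S.filter (fun y => π y = π z) = S'.filter (fun y => π y = π z) := by
    ext y
    rw [Finset.mem_filter, Finset.mem_filter]
    constructor
    · rintro ⟨hy, hyπ⟩
      refine ⟨?_, hyπ⟩
      by_contra hyS
      refine zcof y hy (low hy hyS) ⟨-π, neg_ne_zero.mpr π0, ?_, ?_⟩
      · intro w hw
        show -(π z) ≤ -(π w)
        linarith [πleS w hw]
      · show -(π y) = -(π z)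
        rw [hyπ]
    · rintro ⟨hy, hyπ⟩
      exact ⟨hsub hy, hyπ⟩
  refine hasHamTet_of_corner hS hspan hbip hfrmS π0 πleS (by rw [hfil]; exact πcard) ?_
  intro f hf p hp hpz d1 hd1 d2 hd2 fd1 fd2 ed1 ed2
  by_contra hne
  have f0 : f ≠ 0 := by rintro rfl; exact hpz (by simp)
  have hd1h : h c1 ≤ h d1 := by
    by_contra hcon
    push Not at hcon
    exact zcof d1 hd1 hcon ⟨f, f0, hf, fd1⟩
  have hd2h : h c1 ≤ h d2 := by
    by_contra hcon
    push Not at hcon
    exact zcof d2 hd2 hcon ⟨f, f0, hf, fd2⟩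
  have b1 : Bad S d1 d2 p := bad_of_two hS hbip hp hd1 hd2 (f := f)
    (fun w hw => by rw [fd1]; exact hf w hw) (by rw [fd1, fd2]) (by rw [fd1]; exact hpz) ed1 ed2 hne
  have b2 : Bad S d2 d1 p := bad_of_two hS hbip hp hd2 hd1 (f := f)
    (fun w hw => by rw [fd2]; exact hf w hw) (by rw [fd1, fd2]) (by rw [fd2]; exact hpz) ed2 ed1
    (Ne.symm hne)
  have cd1 := hbip p hp d1 hd1 ed1
  have cd2 := hbip p hp d2 hd2 ed2
  have cd : c d1 = c d2 := by
    revert cd1 cd2
    cases c d1 <;> cases c d2 <;> cases c p <;> simp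
  have two : f c1 = f z → f c2 = f z → False := by
    intro g1 g2
    exact hno (edge_of_two_planes hS b.hv b.hx b.vx F1 (fun w hw => by rw [g1]; exact hf w hw)
      F2 (by rw [g1, g2]) f0 (r := z) (ne_of_gt hzF) g1.symm)
  have notboth : h d1 = h c1 → h d2 = h c1 → False := by
    intro g1 g2
    rcases tri hd1 g1 with rfl | rfl | rfl
    · rcases tri hd2 g2 with rfl | rfl | rfl
      · exact hne rfl
      · exact two fd1 fd2
      · exact c1x cd
    · rcases tri hd2 g2 with rfl | rfl | rfl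
      · exact two fd2 fd1
      · exact hne rfl
      · exact c2x cd
    · rcases tri hd2 g2 with rfl | rfl | rfl
      · exact c1x cd.symm
      · exact c2x cd.symm
      · exact hne rfl
  have step : ∀ d d' : E3, d ∈ S → Bad S d d' p → IsEdgeS S p d → h c1 < h d → h c1 ≤ h d' →
      False := by
    intro d d' hd bd ed hdh hd'h
    have hph : h c1 ≤ h p := by
      by_contra hcon
      push Not at hcon
      exact b.no_cross_edge hS h0 h2 hx hd hp hdh hcon b.hv b.hx b.hy ed.symm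
    obtain ⟨g, g0, g1, g2, g3⟩ := b.up_ssub h0 h2 hx hdh bd hd'h hph
    have := hmin d d' p g bd ed.symm g0 g1 g2
    omega
  rcases lt_or_eq_of_le hd1h with g1 | g1
  · exact step d1 d2 hd1 b1 ed1 g1 hd2h
  · rcases lt_or_eq_of_le hd2h with g2 | g2
    · exact step d2 d1 hd2 b2 ed2 g2 hd1h
    · exact notboth g1.symm g2.symm

/-- The case without bad chords. -/
theorem bip_caseB (hS : ConvPos S) (hspan : affineSpan ℝ (S : Set E3) = ⊤) {c : E3 → Bool}
    (hbip : ∀ p ∈ S, ∀ q ∈ S, IsEdgeS S p q → c p ≠ c q)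
    (hnone : ∀ c1 c2 x, Bad S c1 c2 x → ¬ IsEdgeS S c1 x) : HasHamTet S := by
  have hcount : ∃ z ∈ S, HasFrm S z ∧ ∃ π : E3 →ₗ[ℝ] ℝ, π ≠ 0 ∧ (∀ y ∈ S, π y ≤ π z) ∧
      (S.filter (fun y => π y = π z)).card = 4 := by
    by_cases hfr : ∃ v ∈ S, HasFrm S v
    · obtain ⟨v, hv, a1, a2, a3, φ1, φ2, φ3, hf⟩ := hfr
      obtain ⟨z, hz, _, _, _, h1, h2⟩ := corner_of_count hS hspan hv
        (fun p hp q hq _ _ he => hbip p hp q hq he) (Ex := {a1, a2, a3}) Finset.card_le_three (by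
          intro p hp _ hpE he
          exfalso
          simp only [Finset.mem_insert, Finset.mem_singleton, not_or] at hpE
          rcases hf.neighbour hp he.symm with hh | hh | hh
          · exact hpE.1 hh
          · exact hpE.2.1 hh
          · exact hpE.2.2 hh)
      exact ⟨z, hz, h1, h2⟩
    · push Not at hfr
      obtain ⟨v, hv⟩ : S.Nonempty := by
        rw [Finset.nonempty_iff_ne_empty]
        rintro rfl
        rw [Finset.coe_empty, AffineSubspace.span_empty] at hspan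
        exact absurd hspan (bot_ne_top)
      obtain ⟨z, hz, _, _, _, h1, h2⟩ := corner_of_count hS hspan hv
        (fun p hp q hq _ _ he => hbip p hp q hq he) (Ex := ∅) (by simp)
        (fun p hp _ _ _ => hfr p hp)
      exact ⟨z, hz, h1, h2⟩
  obtain ⟨z, hz, hfrm, π, π0, πle, πcard⟩ := hcount
  refine hasHamTet_of_corner hS hspan hbip hfrm π0 πle πcard ?_
  intro f hf p hp hpz d1 hd1 d2 hd2 fd1 fd2 ed1 ed2
  by_contra hne
  exact hnone d1 d2 p (bad_of_two hS hbip hp hd1 hd2 (f := f)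
    (fun w hw => by rw [fd1]; exact hf w hw) (by rw [fd1, fd2]) (by rw [fd1]; exact hpz)
    ed1 ed2 hne) ed1.symm

/-- Polytopes with bipartite graph have Hamiltonian tetrahedralizations. -/
theorem bipartite_hasHamTet (hS : ConvPos S) (hspan : affineSpan ℝ (S : Set E3) = ⊤)
    {c : E3 → Bool} (hbip : ∀ p ∈ S, ∀ q ∈ S, IsEdgeS S p q → c p ≠ c q) : HasHamTet S := by
  by_cases hex : ∃ n : ℕ, ∃ (c1 c2 x : E3) (h : E3 →ₗ[ℝ] ℝ), Bad S c1 c2 x ∧ IsEdgeS S c1 x ∧
      h ≠ 0 ∧ h c2 = h c1 ∧ h x = h c1 ∧ (up S h c1).card = n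
  · obtain ⟨c1, c2, x, h, b, ex, h0, h2, hx, hn⟩ := Nat.find_spec hex
    refine bip_caseA hS hspan hbip b ex h0 h2 hx ?_
    intro d1 d2 y g bd ed g0 g2 gy
    rw [hn]
    exact Nat.find_min' hex ⟨d1, d2, y, g, bd, ed, g0, g2, gy, rfl⟩
  · refine bip_caseB hS hspan hbip ?_
    intro c1 c2 x b ex
    obtain ⟨h, h0, h2, hx⟩ := exists_plane c1 c2 x
    exact hex ⟨_, c1, c2, x, h, b, ex, h0, h2, hx, rfl⟩

end

end Run7.h169
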