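import Pool.Agent.Run7.h169.Conn

set_option autoImplicit false
open scoped Classical Topology
open Filter

namespace Run7.h169

/-- A monochromatic triangle. -/
def Mono (χ : E3 → Bool) (τ : Finset E3) : Prop := ∀ x ∈ τ, ∀ y ∈ τ, χ x = χ y

/-- Two triangles sharing a bichromatic edge. -/
def BAdj (χ : E3 → Bool) (τ τ' : Finset E3) : Prop :=
  ∃ x y, x ∈ τ ∧ x ∈ τ' ∧ y ∈ τ ∧ y ∈ τ' ∧ χ x ≠ χ y

theorem BAdj.symm {χ : E3 → Bool} {τ τ' : Finset E3} (h : BAdj χ τ τ') : BAdj χ τ' τ := by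
  obtain ⟨x, y, h1, h2, h3, h4, h5⟩ := h
  exact ⟨x, y, h2, h1, h4, h3, h5⟩

/-- A suitable two-colouring of the vertices. -/
structure Col (W : Finset E3) (χ : E3 → Bool) : Prop where
  two : ∃ x ∈ W, ∃ y ∈ W, χ x ≠ χ y
  chord : ∀ p ∈ W, ∀ q ∈ W, ¬ Inner W p → ¬ Inner W q → IsEdge0 W p q → χ p = χ q →
    ¬ Inner W (p + q)
  forest : ∃ ρ : E3 → ℕ, ∀ p ∈ W, Inner W p → ∀ x ∈ W, ∀ y ∈ W, IsEdge0 W p x → IsEdge0 W p y →
    χ x = χ p → χ y = χ p → (Inner W x → ρ x ≤ ρ p) → (Inner W y → ρ y ≤ ρ p) → x = y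
  outer : ∀ B, Fan W B →
    ((W ×ˢ W).filter (fun e => χ e.1 = true ∧ χ e.2 = false ∧ cnt B e.1 e.2 = 1)).card ≤ 2

section

variable {W : Finset E3} {B : Finset (Finset E3)}

theorem cnt_comm (Q : Finset (Finset E3)) (x y : E3) : cnt Q x y = cnt Q y x := by
  unfold cnt
  congr 1
  apply Finset.filter_congr
  intro τ _
  exact and_comm

theorem cnt_pos {Q : Finset (Finset E3)} {τ : Finset E3} (hτ : τ ∈ Q) {x y : E3} (hx : x ∈ τ)
    (hy : y ∈ τ) : 0 < cnt Q x y :=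
  Finset.card_pos.mpr ⟨τ, Finset.mem_filter.mpr ⟨hτ, hx, hy⟩⟩

theorem cnt_sum (Q : Finset (Finset E3)) (hQ : ∀ τ ∈ Q, τ ⊆ W ∧ τ.card = 3) (p : E3) :
    ∑ x ∈ W.erase p, cnt Q p x = 2 * (Q.filter (fun τ => p ∈ τ)).card := by
  have h1 : ∀ x ∈ W.erase p, cnt Q p x =
      ∑ τ ∈ Q.filter (fun τ => p ∈ τ), (if x ∈ τ then 1 else 0) := by
    intro x _
    rw [← Finset.card_filter, Finset.filter_filter]
    rfl
  rw [Finset.sum_congr rfl h1, Finset.sum_comm]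
  have h2 : ∀ τ ∈ Q.filter (fun τ => p ∈ τ), ∑ x ∈ W.erase p, (if x ∈ τ then 1 else 0) = 2 := by
    intro τ hτ
    rw [Finset.mem_filter] at hτ
    rw [← Finset.card_filter]
    have : (W.erase p).filter (fun x => x ∈ τ) = τ.erase p := by
      ext x
      simp only [Finset.mem_filter, Finset.mem_erase]
      constructor
      · rintro ⟨⟨a, _⟩, c⟩; exact ⟨a, c⟩
      · rintro ⟨a, c⟩; exact ⟨⟨a, (hQ τ hτ.1).1 c⟩, c⟩
    rw [this, Finset.card_erase_of_mem hτ.2, (hQ τ hτ.1).2]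
  rw [Finset.sum_congr rfl h2, Finset.sum_const, smul_eq_mul, mul_comm]

theorem exists_second (Q : Finset (Finset E3)) (hQ : ∀ τ ∈ Q, τ ⊆ W ∧ τ.card = 3) {p q : E3}
    (hq : q ∈ W.erase p) (h1 : cnt Q p q = 1) (h2 : ∀ x ∈ W.erase p, cnt Q p x ≤ 2) :
    ∃ x ∈ W.erase p, x ≠ q ∧ cnt Q p x = 1 := by
  by_contra hcon
  push Not at hcon
  have hs := cnt_sum Q hQ p
  rw [← Finset.add_sum_erase _ _ hq, h1] at hs
  have he : Even (∑ x ∈ (W.erase p).erase q, cnt Q p x) := by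
    apply Finset.even_sum
    intro x hx
    rw [Finset.mem_erase] at hx
    have a1 := hcon x hx.2 hx.1
    have a2 := h2 x hx.2
    have a3 : cnt Q p x = 0 ∨ cnt Q p x = 2 := by omega
    rcases a3 with a | a <;> rw [a] <;> decide
  obtain ⟨k, hk⟩ := he
  rw [hk] at hs
  omega

theorem Fan.cnt_boundary (hF : Fan W B) {Q : Finset (Finset E3)} (hQ : Q ⊆ B) {p q r s : E3}
    (hrs : r ≠ s) (h1 : ({p, q, r} : Finset E3) ∈ Q) (h2 : ({p, q, s} : Finset E3) ∈ B \ Q) :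
    cnt Q p q = 1 := by
  rw [Finset.mem_sdiff] at h2
  unfold cnt
  rw [Finset.card_eq_one]
  refine ⟨{p, q, r}, ?_⟩
  ext τ
  rw [Finset.mem_filter, Finset.mem_singleton]
  constructor
  · rintro ⟨hτ, hp, hq⟩
    rcases hF.eq_or_eq (hQ h1) h2.1 hrs (hQ hτ) hp hq with h | h
    · exact h
    · exact absurd (h ▸ hτ) h2.2
  · rintro rfl
    exact ⟨h1, by simp, by simp⟩

theorem Fan.boundary_of_cnt (hF : Fan W B) {Q : Finset (Finset E3)} (hQ : Q ⊆ B) {p q : E3}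
    (hpq : p ≠ q) (hcnt : cnt Q p q = 1) (hin : Inner W (p + q)) :
    ∃ r s : E3, r ≠ s ∧ ({p, q, r} : Finset E3) ∈ Q ∧ ({p, q, s} : Finset E3) ∈ B \ Q := by
  have hpos : 0 < (Q.filter (fun τ => p ∈ τ ∧ q ∈ τ)).card := by
    have : cnt Q p q = (Q.filter (fun τ => p ∈ τ ∧ q ∈ τ)).card := rfl
    omega
  obtain ⟨τ, hτ⟩ := Finset.card_pos.mp hpos
  rw [Finset.mem_filter] at hτ
  obtain ⟨r, hr1, hr2, rfl⟩ := third (hF.nice τ (hQ hτ.1)).1 hτ.2.1 hτ.2.2 hpq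
  obtain ⟨s, hrs, hs⟩ := hF.exists_other (hQ hτ.1) hin
  refine ⟨r, s, hrs, hτ.1, ?_⟩
  rw [Finset.mem_sdiff]
  refine ⟨hs, ?_⟩
  intro hsQ
  have h2 : 2 ≤ cnt Q p q := by
    unfold cnt
    rw [show (2 : ℕ) = ({({p, q, r} : Finset E3), {p, q, s}} : Finset (Finset E3)).card from ?_]
    · apply Finset.card_le_card
      intro σ hσ
      rw [Finset.mem_insert, Finset.mem_singleton] at hσ
      rw [Finset.mem_filter]
      rcases hσ with rfl | rfl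
      · exact ⟨hτ.1, by simp, by simp⟩
      · exact ⟨hsQ, by simp, by simp⟩
    · symm
      apply Finset.card_pair
      intro heq
      have : r ∈ ({p, q, s} : Finset E3) := by rw [← heq]; simp
      simp only [Finset.mem_insert, Finset.mem_singleton] at this
      rcases this with h | h | h
      · exact hr1 h
      · exact hr2 h
      · exact hrs h
  omega

/-- Key lemma: a nontrivial splitting of the triangles whose crossing edges are all
monochromatic is crossed by a flippable edge. -/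
theorem flippable {χ : E3 → Bool} (hC : Cfg W) (hF : Fan W B) (hχ : Col W χ)
    {Q : Finset (Finset E3)} (hQ : Q ⊆ B) (hne : Q.Nonempty) (hne' : (B \ Q).Nonempty)
    (hmono : ∀ p q r s : E3, p ≠ q → r ≠ s → ({p, q, r} : Finset E3) ∈ Q →
      ({p, q, s} : Finset E3) ∈ B \ Q → χ p = χ q) :
    ∃ p q r s : E3, p ≠ q ∧ r ≠ s ∧ ({p, q, r} : Finset E3) ∈ Q ∧
      ({p, q, s} : Finset E3) ∈ B \ Q ∧ gfun {p, q, r} (fun _ => 1) s = 1 := by
  by_contra hcon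
  push Not at hcon
  -- every crossing edge is an edge of the polytope
  have hedge : ∀ p q r s : E3, p ≠ q → r ≠ s → ({p, q, r} : Finset E3) ∈ Q →
      ({p, q, s} : Finset E3) ∈ B \ Q → IsEdge0 W p q := by
    intro p q r s h1 h2 h3 h4
    exact hF.ridge hC (hQ h3) (Finset.mem_sdiff.mp h4).1 (hcon p q r s h1 h2 h3 h4)
  have hQ3 : ∀ τ ∈ Q, τ ⊆ W ∧ τ.card = 3 := fun τ hτ =>
    ⟨hF.sub τ (hQ hτ), (hF.nice τ (hQ hτ)).1⟩
  have hmemW : ∀ {a b c : E3}, ({a, b, c} : Finset E3) ∈ Q → a ∈ W ∧ b ∈ W := by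
    intro a b c h
    exact ⟨(hQ3 _ h).1 (by simp), (hQ3 _ h).1 (by simp)⟩
  obtain ⟨ρ, hρ⟩ := hχ.forest
  set P0 := W.filter (fun p => Inner W p ∧ ∃ q r s : E3, p ≠ q ∧ r ≠ s ∧
    ({p, q, r} : Finset E3) ∈ Q ∧ ({p, q, s} : Finset E3) ∈ B \ Q) with hP0
  have hP0ne : P0.Nonempty := by
    obtain ⟨p, q, r, s, hpq, hrs, h1, h2⟩ := hF.connected hQ hne hne'
    have hin := hF.two_inner (hQ h1) (Finset.mem_sdiff.mp h2).1 hrs
    by_cases hp : Inner W p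
    · exact ⟨p, Finset.mem_filter.mpr ⟨(hmemW h1).1, hp, q, r, s, hpq, hrs, h1, h2⟩⟩
    · by_cases hq : Inner W q
      · refine ⟨q, Finset.mem_filter.mpr ⟨(hmemW h1).2, hq, p, r, s, hpq.symm, hrs, ?_, ?_⟩⟩
        · rw [swap12]; exact h1
        · rw [swap12]; exact h2
      · exact absurd hin (hχ.chord p (hmemW h1).1 q (hmemW h1).2 hp hq
          (hedge p q r s hpq hrs h1 h2) (hmono p q r s hpq hrs h1 h2))
  obtain ⟨p, hp, hmax⟩ := Finset.exists_max_image P0 ρ hP0ne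
  rw [hP0, Finset.mem_filter] at hp
  obtain ⟨hpW, hpin, q, r, s, hpq, hrs, h1, h2⟩ := hp
  have hqW := (hmemW h1).2
  have hc1 := hF.cnt_boundary hQ hrs h1 h2
  obtain ⟨x, hx, hxq, hcx⟩ := exists_second Q hQ3 (Finset.mem_erase.mpr ⟨hpq.symm, hqW⟩) hc1
    (fun x hx => (cnt_mono hQ p x).trans (hF.cnt_le (Ne.symm (Finset.mem_erase.mp hx).1)))
  rw [Finset.mem_erase] at hx
  have hpx : p ≠ x := Ne.symm hx.1
  obtain ⟨r', s', hrs', h1', h2'⟩ := hF.boundary_of_cnt hQ hpx hcx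
    (hpin.add (mem_cone_self hx.2))
  have mem_P0 : ∀ z r s : E3, p ≠ z → r ≠ s → ({p, z, r} : Finset E3) ∈ Q →
      ({p, z, s} : Finset E3) ∈ B \ Q → Inner W z → ρ z ≤ ρ p := by
    intro z r s hz hrs g1 g2 hzin
    apply hmax z
    rw [hP0, Finset.mem_filter]
    refine ⟨(hmemW g1).2, hzin, p, r, s, hz.symm, hrs, ?_, ?_⟩
    · rw [swap12]; exact g1
    · rw [swap12]; exact g2
  have := hρ p hpW hpin x hx.2 q hqW (hedge p x r' s' hpx hrs' h1' h2')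
    (hedge p q r s hpq hrs h1 h2) (hmono p x r' s' hpx hrs' h1' h2').symm
    (hmono p q r s hpq hrs h1 h2).symm (mem_P0 x r' s' hpx hrs' h1' h2')
    (mem_P0 q r s hpq hrs h1 h2)
  exact hxq this

end

end Run7.h169
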