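import Pool.Agent.Run7.h169.Flip2

set_option autoImplicit false
open scoped Classical Topology
open Filter

namespace Run7.h169

section

variable {W : Finset E3} {B : Finset (Finset E3)}

/-- Two vectors do not span the space: there is a nonzero functional killing both. -/
theorem exists_functional (u v : E3) : ∃ f : E3 →ₗ[ℝ] ℝ, f ≠ 0 ∧ f u = 0 ∧ f v = 0 := by
  have hlt : Submodule.span ℝ ({u, v} : Set E3) < ⊤ := by
    rw [lt_top_iff_ne_top]
    intro h
    have h1 : Module.finrank ℝ (Submodule.span ℝ ({u, v} : Set E3)) ≤ 2 := by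
      have h2 := finrank_span_finset_le_card (R := ℝ) ({u, v} : Finset E3)
      rw [Finset.coe_insert, Finset.coe_singleton] at h2
      exact h2.trans (Finset.card_le_two)
    rw [h, finrank_top] at h1
    simp at h1
  obtain ⟨f, hf, hle⟩ := Submodule.exists_le_ker_of_lt_top _ hlt
  refine ⟨f, hf, ?_, ?_⟩
  · exact hle (Submodule.subset_span (by simp))
  · exact hle (Submodule.subset_span (by simp))

theorem isClosed_path (hF : Fan W B) {Q : Finset (Finset E3)} (hQ : Q ⊆ B) (y z : E3) :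
    IsClosed {t : ℝ | ∃ τ ∈ Q, y + t • z ∈ cone τ} := by
  have e : {t : ℝ | ∃ τ ∈ Q, y + t • z ∈ cone τ} =
      ⋃ τ ∈ Q, {t : ℝ | ∀ x ∈ τ, 0 ≤ crd τ x y + t * crd τ x z} := by
    ext t
    simp only [Set.mem_ofPred_eq, Set.mem_iUnion, exists_prop]
    constructor
    · rintro ⟨τ, hτ, h⟩
      refine ⟨τ, hτ, ?_⟩
      rw [mem_cone_iff_crd (hF.nice τ (hQ hτ))] at h
      intro x hx
      have := h x hx
      rw [map_add, map_smul, smul_eq_mul] at this
      exact this
    · rintro ⟨τ, hτ, h⟩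
      refine ⟨τ, hτ, ?_⟩
      rw [mem_cone_iff_crd (hF.nice τ (hQ hτ))]
      intro x hx
      rw [map_add, map_smul, smul_eq_mul]
      exact h x hx
  rw [e]
  apply Q.finite_toSet.isClosed_biUnion
  intro τ _
  have e2 : {t : ℝ | ∀ x ∈ τ, 0 ≤ crd τ x y + t * crd τ x z} =
      ⋂ x ∈ τ, {t : ℝ | 0 ≤ crd τ x y + t * crd τ x z} := by
    ext t; simp
  rw [e2]
  apply isClosed_biInter
  intro x _
  exact isClosed_le continuous_const (by fun_prop)

/-- Strong connectivity: any nontrivial splitting of the triangles is crossed by an edge. -/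
theorem Fan.connected (hF : Fan W B) {Q : Finset (Finset E3)} (hQ : Q ⊆ B)
    (hne : Q.Nonempty) (hne' : (B \ Q).Nonempty) :
    ∃ p q r s : E3, p ≠ q ∧ r ≠ s ∧ ({p, q, r} : Finset E3) ∈ Q ∧
      ({p, q, s} : Finset E3) ∈ B \ Q := by
  obtain ⟨τ1, hτ1⟩ := hne
  obtain ⟨τ2, hτ2⟩ := hne'
  have hτ1B := hQ hτ1
  have hτ2B := (Finset.mem_sdiff.mp hτ2).1
  have hN1 := hF.nice τ1 hτ1B
  have hN2 := hF.nice τ2 hτ2B
  -- first generic point
  choose f0 hf0 hf0x _ using fun x : E3 => exists_functional x x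
  obtain ⟨y0, hy0, hy0'⟩ := generic_dir hN1 (W.image f0) (by
    intro f hf
    obtain ⟨x, _, rfl⟩ := Finset.mem_image.mp hf
    exact hf0 x)
  choose f1 hf1 hf1x hf1y using fun x : E3 => exists_functional x y0
  obtain ⟨y1, hy1, hy1'⟩ := generic_dir hN2 (W.image f1) (by
    intro f hf
    obtain ⟨x, _, rfl⟩ := Finset.mem_image.mp hf
    exact hf1 x)
  have hy0c : y0 ∈ cone τ1 := (mem_cone_iff_crd hN1).mpr (fun x hx => (hy0 x hx).le)
  have hy1c : y1 ∈ cone τ2 := (mem_cone_iff_crd hN2).mpr (fun x hx => (hy1 x hx).le)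
  have hy0W : y0 ∈ cone W := cone_mono (hF.sub τ1 hτ1B) hy0c
  have hy1W : y1 ∈ cone W := cone_mono (hF.sub τ2 hτ2B) hy1c
  have hK1 := isClosed_path hF hQ y0 (y1 - y0)
  have hK2 := isClosed_path hF (Finset.sdiff_subset (s := B) (t := Q)) y0 (y1 - y0)
  have hpre := isPreconnected_closed_iff.mp (isPreconnected_Icc (a := (0 : ℝ)) (b := 1)) _ _ hK1 hK2
    (by
      intro t ht
      have hmem : y0 + t • (y1 - y0) ∈ cone W := by
        have e : y0 + t • (y1 - y0) = (1 - t) • y0 + t • y1 := by module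
        rw [e]
        exact cone_add (cone_smul (by linarith [ht.2]) hy0W) (cone_smul ht.1 hy1W)
      obtain ⟨τ, hτ, hyτ⟩ := hF.cover _ hmem
      by_cases h : τ ∈ Q
      · left; exact ⟨τ, h, hyτ⟩
      · right; exact ⟨τ, Finset.mem_sdiff.mpr ⟨hτ, h⟩, hyτ⟩)
    ⟨0, by simp, τ1, hτ1, by simpa using hy0c⟩
    ⟨1, by simp, τ2, hτ2, by simpa using hy1c⟩
  obtain ⟨t, ht, ⟨τ, hτ, hyτ⟩, ⟨τ', hτ', hyτ'⟩⟩ := hpre
  have hτB := hQ hτ
  have hτ'B := (Finset.mem_sdiff.mp hτ').1
  have hyi := hF.inter τ hτB τ' hτ'B _ hyτ hyτ'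
  have hne : τ ≠ τ' := by
    rintro rfl
    exact (Finset.mem_sdiff.mp hτ').2 hτ
  -- the point is not on a ray
  have hray : ∀ x ∈ W, ∀ c : ℝ, y0 + t • (y1 - y0) ≠ c • x := by
    intro x hx c hcon
    have h1 := congrArg (f1 x) hcon
    rw [map_add, map_smul, map_sub, hf1y, map_smul, hf1x] at h1
    simp only [smul_eq_mul, mul_zero, zero_add, sub_zero] at h1
    have h2 := hy1' (f1 x) (Finset.mem_image_of_mem _ hx)
    have h3 : t = 0 := by
      rcases mul_eq_zero.mp h1 with h | h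
      · exact h
      · exact absurd h h2
    rw [h3, zero_smul, add_zero] at hcon
    have h4 := hy0' (f0 x) (Finset.mem_image_of_mem _ hx)
    rw [hcon, map_smul, hf0x, smul_zero] at h4
    exact h4 rfl
  have hcard : 1 < (τ ∩ τ').card := by
    by_contra hle
    push Not at hle
    obtain ⟨c, hc, hy⟩ := hyi
    rcases Finset.card_le_one_iff_subset_singleton.mp hle with ⟨x, hx⟩
    by_cases hemp : τ ∩ τ' = ∅
    · rw [hemp, Finset.sum_empty] at hy
      have hτ1ne : τ1.Nonempty := by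
        rw [← Finset.card_pos, hN1.1]; norm_num
      obtain ⟨x', hx'⟩ := hτ1ne
      exact hray x' (hF.sub τ1 hτ1B hx') 0 (by rw [zero_smul]; exact hy.symm)
    · have hs : τ ∩ τ' = {x} := (Finset.subset_singleton_iff.mp hx).resolve_left hemp
      have hxW : x ∈ W := hF.sub τ hτB (Finset.mem_inter.mp (hs ▸ Finset.mem_singleton_self x)).1
      rw [hs, Finset.sum_singleton] at hy
      exact hray x hxW (c x) hy.symm
  obtain ⟨p, hp, q, hq, hpq⟩ := Finset.one_lt_card.mp hcard
  rw [Finset.mem_inter] at hp hq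
  obtain ⟨r, _, _, rfl⟩ := third (hF.nice τ hτB).1 hp.1 hq.1 hpq
  obtain ⟨s, _, _, rfl⟩ := third (hF.nice τ' hτ'B).1 hp.2 hq.2 hpq
  refine ⟨p, q, r, s, hpq, ?_, hτ, hτ'⟩
  rintro rfl
  exact hne rfl

/-- Edges of the polytope not through the origin. -/
def IsEdge0 (W : Finset E3) (p q : E3) : Prop :=
  p ≠ q ∧ ∃ f : E3 →ₗ[ℝ] ℝ, f p = 1 ∧ f q = 1 ∧ ∀ x ∈ W, x ≠ p → x ≠ q → f x < 1

theorem IsEdge0.symm {p q : E3} (h : IsEdge0 W p q) : IsEdge0 W q p := by
  obtain ⟨h1, f, h2, h3, h4⟩ := h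
  exact ⟨h1.symm, f, h3, h2, fun x hx a b => h4 x hx b a⟩

theorem Fan.ridge (hC : Cfg W) (hF : Fan W B) {p q r s : E3}
    (h1 : ({p, q, r} : Finset E3) ∈ B) (h2 : ({p, q, s} : Finset E3) ∈ B)
    (hcop : gfun {p, q, r} (fun _ => 1) s ≠ 1) : IsEdge0 W p q := by
  have hN := hF.nice _ h1
  have hN2 := hF.nice _ h2
  obtain ⟨hpq, hpr, hqr⟩ := hN.distinct
  have hpW : p ∈ W := hF.sub _ h1 (by simp)
  have hqW : q ∈ W := hF.sub _ h1 (by simp)
  have hsW : s ∈ W := hF.sub _ h2 (by simp)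
  set g1 := gfun {p, q, r} (fun _ => 1) with hg1
  set g2 := gfun {p, q, s} (fun _ => 1) with hg2
  have a1 : g1 p = 1 := gfun_mem hN _ (by simp)
  have a2 : g1 q = 1 := gfun_mem hN _ (by simp)
  have b1 : g2 p = 1 := gfun_mem hN2 _ (by simp)
  have b2 : g2 q = 1 := gfun_mem hN2 _ (by simp)
  have b3 : g2 s = 1 := gfun_mem hN2 _ (by simp)
  have hs1 : g1 s < 1 := lt_of_le_of_ne (hF.supp _ h1 s hsW) hcop
  refine ⟨hpq, (1 / 2 : ℝ) • (g1 + g2), ?_, ?_, ?_⟩
  · simp [a1, b1]; norm_num
  · simp [a2, b2]; norm_num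
  · intro x hx hxp hxq
    have u1 := hF.supp _ h1 x hx
    have u2 := hF.supp _ h2 x hx
    rw [← hg1] at u1
    rw [← hg2] at u2
    by_contra hcon
    push Not at hcon
    simp only [LinearMap.smul_apply, LinearMap.add_apply, smul_eq_mul] at hcon
    have v1 : g1 x = 1 := by linarith
    have v2 : g2 x = 1 := by linarith
    have hx3 := crd_sum3 hN2 x
    set a := crd {p, q, s} p x with ha
    set b := crd {p, q, s} q x with hb
    set c := crd {p, q, s} s x with hc
    have w1 : g1 x = a + b + c * g1 s := by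
      rw [← hx3, map_add, map_add, map_smul, map_smul, map_smul, a1, a2]; simp
    have w2 : g2 x = a + b + c := by
      rw [← hx3, map_add, map_add, map_smul, map_smul, map_smul, b1, b2, b3]; simp
    have hc0 : c = 0 := by
      have : c * (g1 s - 1) = 0 := by linarith
      rcases mul_eq_zero.mp this with h | h
      · exact h
      · exfalso; linarith
    rw [hc0, zero_smul, add_zero] at hx3
    have hab : a + b = 1 := by linarith
    rcases lt_or_ge a 0 with ha0 | ha0
    · have hb0 : 0 < b := by linarith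
      have := hC.cvx3 (x := q) (a := x) (b := p) (c := p) (u := 1 / b) (v := -a / b) (w := 0)
        hqW hx hpW hpW hxq hpq hpq (by positivity) (div_nonneg (by linarith) hb0.le) le_rfl (by
          rw [← hx3]
          match_scalars <;> field_simp <;> ring)
      have e : 1 / b + -a / b + 0 = 1 := by field_simp; linarith
      rw [e] at this
      exact lt_irrefl _ this
    · rcases lt_or_ge b 0 with hb0 | hb0
      · have ha1 : 0 < a := by linarith
        have := hC.cvx3 (x := p) (a := x) (b := q) (c := q) (u := 1 / a) (v := -b / a) (w := 0)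
          hpW hx hqW hqW hxp hpq.symm hpq.symm (by positivity) (div_nonneg (by linarith) ha1.le)
          le_rfl (by
            rw [← hx3]
            match_scalars <;> field_simp <;> ring)
        have e : 1 / a + -b / a + 0 = 1 := by field_simp; linarith
        rw [e] at this
        exact lt_irrefl _ this
      · have := hC.cvx3 (x := x) (a := p) (b := q) (c := q) (u := a) (v := b) (w := 0)
          hx hpW hqW hqW (Ne.symm hxp) (Ne.symm hxq) (Ne.symm hxq) ha0 hb0 le_rfl (by
            rw [zero_smul, add_zero]; exact hx3)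
        linarith

/-- An edge with two triangles is inner. -/
theorem Fan.two_inner (hF : Fan W B) {p q r s : E3}
    (h1 : ({p, q, r} : Finset E3) ∈ B) (h2 : ({p, q, s} : Finset E3) ∈ B) (hrs : r ≠ s) :
    Inner W (p + q) := by
  intro w
  have hN := hF.nice _ h1
  have hw := crd_sum3 hN w
  have hs := crd_sum3 hN s
  have hγ := hF.side_neg h1 h2 hrs
  have hγ0 := hγ.ne
  set a := crd {p, q, r} p w with ha
  set b := crd {p, q, r} q w with hb
  set c := crd {p, q, r} r w with hc
  set α := crd {p, q, r} p s with hα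
  set β := crd {p, q, r} q s with hβ
  set γ := crd {p, q, r} r s with hγd
  have hpos : ∀ᶠ δ in 𝓝[>] (0 : ℝ), 0 < δ := self_mem_nhdsWithin
  rcases le_or_gt 0 c with hc0 | hc0
  · filter_upwards [hpos, ev_pos (a := 1) (b := a) one_pos, ev_pos (a := 1) (b := b) one_pos]
      with δ h0 ha1 hb1
    apply cone_mono (hF.sub _ h1)
    refine mem_cone3 (a := 1 + δ * a) (b := 1 + δ * b) (c := δ * c) ha1.le hb1.le
      (by positivity) ?_
    rw [← hw]; module
  · filter_upwards [hpos, ev_pos (a := 1) (b := a - c * α / γ) one_pos,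
      ev_pos (a := 1) (b := b - c * β / γ) one_pos] with δ h0 ha1 hb1
    apply cone_mono (hF.sub _ h2)
    refine mem_cone3 (a := 1 + δ * (a - c * α / γ)) (b := 1 + δ * (b - c * β / γ))
      (c := δ * (c / γ)) ha1.le hb1.le
      (mul_nonneg h0.le (div_nonneg_of_nonpos hc0.le hγ.le)) ?_
    rw [← hw, ← hs]
    match_scalars <;> field_simp <;> ring

/-- Every vertex lies in some triangle. -/
theorem Fan.exists_mem (hC : Cfg W) (hF : Fan W B) {x : E3} (hx : x ∈ W) :
    ∃ τ ∈ B, x ∈ τ := by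
  obtain ⟨τ, hτ, hxτ⟩ := hF.cover x (mem_cone_self hx)
  exact ⟨τ, hτ, hF.vertex_mem hC hτ hx hxτ⟩

end

end Run7.h169
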