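import Pool.Agent.Run7.h169.Frame

set_option autoImplicit false
open scoped Classical Topology
open Filter

namespace Run7.h169

theorem comb_lt {a b c x y z m : ℝ} (ha : 0 ≤ a) (hb : 0 ≤ b) (hc : 0 ≤ c) (hs : a + b + c = 1)
    (hx : x < m) (hy : y < m) (hz : z < m) : a * x + b * y + c * z < m := by
  have e : m = a * m + b * m + c * m := by rw [← add_mul, ← add_mul, hs, one_mul]
  have h1 : a * x ≤ a * m := mul_le_mul_of_nonneg_left hx.le ha
  have h2 : b * y ≤ b * m := mul_le_mul_of_nonneg_left hy.le hb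
  have h3 : c * z ≤ c * m := mul_le_mul_of_nonneg_left hz.le hc
  rcases eq_or_lt_of_le ha with h0 | h0
  · rcases eq_or_lt_of_le hb with h0' | h0'
    · have hc1 : c = 1 := by linarith
      rw [← h0, ← h0', hc1]; linarith
    · have := mul_lt_mul_of_pos_left hy h0'
      linarith
  · have := mul_lt_mul_of_pos_left hx h0
    linarith

theorem seg_lt {t x y m : ℝ} (h0 : 0 < t) (h1 : t < 1) (hx : x < m) (hy : y ≤ m) :
    (1 - t) * x + t * y < m := by
  have h2 : (1 - t) * x < (1 - t) * m := mul_lt_mul_of_pos_left hx (by linarith)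
  have h3 : t * y ≤ t * m := mul_le_mul_of_nonneg_left hy h0.le
  linarith

section

variable {S : Finset E3} {v a1 a2 a3 : E3} {φ1 φ2 φ3 : E3 →ₗ[ℝ] ℝ}

theorem Frm.a3_ne (h : Frm S v a1 a2 a3 φ1 φ2 φ3) : a3 ≠ v := by
  rintro rfl
  have := h.d33; rw [sub_self, map_zero] at this; exact zero_ne_one this

/-- The apex and a neighbour form an edge. -/
theorem Frm.edge3 (hS : ConvPos S) (h : Frm S v a1 a2 a3 φ1 φ2 φ3) : IsEdgeS S a3 v := by
  refine ⟨h.a3_ne, -(φ1 + φ2), ?_, ?_⟩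
  · have h1 := h.d13
    have h2 := h.d23
    rw [map_sub] at h1 h2
    simp only [LinearMap.neg_apply, LinearMap.add_apply]
    linarith
  · intro x hx hx1 hx2
    obtain ⟨p1, p2, _⟩ := h.pos x hx
    have h1 := h.d13
    have h2 := h.d23
    by_contra hcon
    have hz : φ1 (x - v) = 0 ∧ φ2 (x - v) = 0 := by
      rw [map_sub] at h1 h2 p1 p2 ⊢
      rw [map_sub]
      simp only [LinearMap.neg_apply, LinearMap.add_apply, not_lt] at hcon
      constructor <;> linarith
    exact hx1 (h.ray hS hx hx2 hz.1 hz.2)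

/-- Frames at a neighbour: the two common facets and the old apex as third neighbour. -/
theorem Frm.move (hS : ConvPos S) (h : Frm S v a1 a2 a3 φ1 φ2 φ3) (hs : SimpleVertex S a3) :
    ∃ b1 b2 ψ1 ψ2 ψ3, ∃ c1 c2 : ℝ, 0 < c1 ∧ 0 < c2 ∧ Frm S a3 b1 b2 v ψ1 ψ2 ψ3 ∧
      (∀ y, φ1 (y - v) = c1 * ψ1 (y - a3)) ∧ (∀ y, φ2 (y - v) = c2 * ψ2 (y - a3)) := by
  -- a frame whose third neighbour is `v`
  obtain ⟨b1, b2, ψ1, ψ2, ψ3, hb⟩ : ∃ b1 b2 ψ1 ψ2 ψ3, Frm S a3 b1 b2 v ψ1 ψ2 ψ3 := by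
    obtain ⟨b1, b2, b3, ψ1, ψ2, ψ3, hb⟩ := hs.frame h.h3
    rcases hb.neighbour h.hv (h.edge3 hS) with rfl | rfl | rfl
    · exact ⟨b2, b3, ψ2, ψ3, ψ1, hb.swap12.swap23⟩
    · exact ⟨b1, b3, ψ1, ψ3, ψ2, hb.swap23⟩
    · exact ⟨b1, b2, ψ1, ψ2, ψ3, hb⟩
  have hz1 : φ1 (v - a3) = 0 := by
    have := h.d13
    rw [map_sub] at this ⊢; linarith
  have hz2 : φ2 (v - a3) = 0 := by
    have := h.d23
    rw [map_sub] at this ⊢; linarith
  have k1 : ∀ y, φ1 (y - v) = ψ1 (y - a3) * φ1 (b1 - a3) + ψ2 (y - a3) * φ1 (b2 - a3) := by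
    intro y
    have e := congrArg φ1 (hb.ext (y - a3))
    rw [map_add, map_add, map_smul, map_smul, map_smul, hz1] at e
    simp only [smul_eq_mul, mul_zero, add_zero] at e
    rw [e]
    have : y - a3 = (y - v) + (v - a3) := by abel
    rw [this, map_add, hz1, add_zero]
  have k2 : ∀ y, φ2 (y - v) = ψ1 (y - a3) * φ2 (b1 - a3) + ψ2 (y - a3) * φ2 (b2 - a3) := by
    intro y
    have e := congrArg φ2 (hb.ext (y - a3))
    rw [map_add, map_add, map_smul, map_smul, map_smul, hz2] at e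
    simp only [smul_eq_mul, mul_zero, add_zero] at e
    rw [e]
    have : y - a3 = (y - v) + (v - a3) := by abel
    rw [this, map_add, hz2, add_zero]
  have n11 : 0 ≤ φ1 (b1 - a3) := by
    have := (h.pos b1 hb.h1).1
    rw [k1, hb.d11, hb.d21] at this; linarith
  have n12 : 0 ≤ φ1 (b2 - a3) := by
    have := (h.pos b2 hb.h2).1
    rw [k1, hb.d12, hb.d22] at this; linarith
  have n21 : 0 ≤ φ2 (b1 - a3) := by
    have := (h.pos b1 hb.h1).2.1
    rw [k2, hb.d11, hb.d21] at this; linarith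
  have n22 : 0 ≤ φ2 (b2 - a3) := by
    have := (h.pos b2 hb.h2).2.1
    rw [k2, hb.d12, hb.d22] at this; linarith
  -- evaluate at the neighbours a1 and a2 of the apex
  have m1 := h.d11
  rw [k1] at m1
  have m2 := h.d21
  rw [k2] at m2
  have m3 := h.d12
  rw [k1] at m3
  have m4 := h.d22
  rw [k2] at m4
  obtain ⟨u1, u2, _⟩ := hb.pos a1 h.h1
  obtain ⟨w1, w2, _⟩ := hb.pos a2 h.h2
  set x1 := ψ1 (a1 - a3)
  set x2 := ψ2 (a1 - a3)
  set y1 := ψ1 (a2 - a3)
  set y2 := ψ2 (a2 - a3)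
  set A := φ1 (b1 - a3) with hA
  set B := φ1 (b2 - a3) with hB
  set C := φ2 (b1 - a3) with hC
  set D := φ2 (b2 - a3) with hD
  -- x1 * A + x2 * B = 1, x1 * C + x2 * D = 0, y1 * A + y2 * B = 0, y1 * C + y2 * D = 1
  have j1 := mul_nonneg u1 n21
  have j2 := mul_nonneg u2 n22
  have j3 := mul_nonneg w1 n11
  have j4 := mul_nonneg w2 n12
  have q1 : x1 * C = 0 := by linarith
  have q2 : x2 * D = 0 := by linarith
  have q3 : y1 * A = 0 := by linarith
  have q4 : y2 * B = 0 := by linarith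
  have cases1 : (0 < A ∧ C = 0 ∧ 0 < D ∧ B = 0) ∨ (0 < B ∧ D = 0 ∧ 0 < C ∧ A = 0) := by
    rcases eq_or_lt_of_le n11 with hA0 | hA0
    · -- A = 0
      have hB1 : x2 * B = 1 := by rw [← hA0] at m1; linarith
      have hx2 : x2 ≠ 0 := by rintro h0; rw [h0] at hB1; simp at hB1
      have hB0 : B ≠ 0 := by rintro h0; rw [h0] at hB1; simp at hB1
      have hD0 : D = 0 := (mul_eq_zero.mp q2).resolve_left hx2
      have hC1 : y1 * C = 1 := by rw [hD0] at m4; linarith
      have hC0 : C ≠ 0 := by rintro h0; rw [h0] at hC1; simp at hC1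
      right
      exact ⟨lt_of_le_of_ne n12 (Ne.symm hB0), hD0, lt_of_le_of_ne n21 (Ne.symm hC0), hA0.symm⟩
    · -- 0 < A
      have hy1 : y1 = 0 := (mul_eq_zero.mp q3).resolve_right hA0.ne'
      have hD1 : y2 * D = 1 := by rw [hy1] at m4; linarith
      have hy2 : y2 ≠ 0 := by rintro h0; rw [h0] at hD1; simp at hD1
      have hD0 : D ≠ 0 := by rintro h0; rw [h0] at hD1; simp at hD1
      have hB0 : B = 0 := (mul_eq_zero.mp q4).resolve_left hy2
      have hx2 : x2 = 0 := (mul_eq_zero.mp q2).resolve_right hD0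
      have hx1 : x1 ≠ 0 := by
        rintro h0; rw [h0, hx2] at m1; simp at m1
      have hC0 : C = 0 := (mul_eq_zero.mp q1).resolve_left hx1
      left
      exact ⟨hA0, hC0, lt_of_le_of_ne n22 (Ne.symm hD0), hB0⟩
  rcases cases1 with ⟨c1, c2, c3, c4⟩ | ⟨c1, c2, c3, c4⟩
  · refine ⟨b1, b2, ψ1, ψ2, ψ3, A, D, c1, c3, hb, ?_, ?_⟩
    · intro y; rw [k1, c4]; ring
    · intro y; rw [k2, c2]; ring
  · refine ⟨b2, b1, ψ2, ψ1, ψ3, B, C, c1, c3, hb.swap12, ?_, ?_⟩
    · intro y; rw [k1, c4]; ring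
    · intro y; rw [k2, c2]; ring

/-- A bad chord: an edge joining the two facets opposite to the second neighbour. -/
def BadChord (S : Finset E3) (v : E3) (φ1 φ2 φ3 : E3 →ₗ[ℝ] ℝ) (p q : E3) : Prop :=
  p ∈ S ∧ q ∈ S ∧ φ1 (p - v) = 0 ∧ 0 < φ2 (p - v) ∧ 0 < φ3 (p - v) ∧
    φ3 (q - v) = 0 ∧ 0 < φ1 (q - v) ∧ 0 < φ2 (q - v) ∧ IsEdgeS S p q

/-- The points of the hull, described by linear inequalities. -/
def InHull (S : Finset E3) (z : E3) : Prop :=
  ∀ g : E3 →ₗ[ℝ] ℝ, ∀ c : ℝ, (∀ x ∈ S, g x ≤ c) → g z ≤ c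

theorem InHull.seg {x y : E3} (hx : x ∈ S) (hy : y ∈ S) {t : ℝ} (h0 : 0 ≤ t) (h1 : t ≤ 1) :
    InHull S ((1 - t) • x + t • y) := by
  intro g c hg
  rw [map_add, map_smul, map_smul, smul_eq_mul, smul_eq_mul]
  have := hg x hx
  have := hg y hy
  nlinarith

/-- The functional of the plane through the apex and a chord. -/
noncomputable def hfun (v : E3) (φ1 φ2 φ3 : E3 →ₗ[ℝ] ℝ) (p q y : E3) : ℝ :=
  φ2 (y - v) - (φ2 (p - v) / φ3 (p - v)) * φ3 (y - v) - (φ2 (q - v) / φ1 (q - v)) * φ1 (y - v)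

theorem hfun_seg (v : E3) (φ1 φ2 φ3 : E3 →ₗ[ℝ] ℝ) (p q x y : E3) (t : ℝ) :
    hfun v φ1 φ2 φ3 p q ((1 - t) • x + t • y) =
      (1 - t) * hfun v φ1 φ2 φ3 p q x + t * hfun v φ1 φ2 φ3 p q y := by
  unfold hfun
  simp only [map_sub, map_add, map_smul, smul_eq_mul]
  ring

theorem hfun_comb (v : E3) (φ1 φ2 φ3 : E3 →ₗ[ℝ] ℝ) (p q x y z : E3) {a b c : ℝ}
    (h : a + b + c = 1) :
    hfun v φ1 φ2 φ3 p q (a • x + b • y + c • z) =
      a * hfun v φ1 φ2 φ3 p q x + b * hfun v φ1 φ2 φ3 p q y + c * hfun v φ1 φ2 φ3 p q z := by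
  unfold hfun
  have hc : c = 1 - a - b := by linarith
  subst hc
  simp only [map_sub, map_add, map_smul, smul_eq_mul]
  ring

/-- The section of the polytope by the plane of a chord is a triangle. -/
theorem Frm.section (h : Frm S v a1 a2 a3 φ1 φ2 φ3) {p q : E3}
    (hb : BadChord S v φ1 φ2 φ3 p q) {z : E3} (hz : InHull S z)
    (hh : hfun v φ1 φ2 φ3 p q z = 0) :
    ∃ a b c : ℝ, 0 ≤ a ∧ 0 ≤ b ∧ 0 ≤ c ∧ a + b + c = 1 ∧ a • v + b • p + c • q = z := by
  obtain ⟨hp, hq, p1, p2, p3, q3, q1, q2, hpq, f, hf1, hf2⟩ := hb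
  have z1 : 0 ≤ φ1 (z - v) := by
    have := hz (-φ1) (-(φ1 v)) (by
      intro x hx
      have := (h.pos x hx).1
      rw [map_sub] at this
      simp only [LinearMap.neg_apply]; linarith)
    simp only [LinearMap.neg_apply] at this
    rw [map_sub]; linarith
  have z3 : 0 ≤ φ3 (z - v) := by
    have := hz (-φ3) (-(φ3 v)) (by
      intro x hx
      have := (h.pos x hx).2.2
      rw [map_sub] at this
      simp only [LinearMap.neg_apply]; linarith)
    simp only [LinearMap.neg_apply] at this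
    rw [map_sub]; linarith
  set b := φ3 (z - v) / φ3 (p - v) with hb
  set c := φ1 (z - v) / φ1 (q - v) with hc
  have hb0 : 0 ≤ b := div_nonneg z3 p3.le
  have hc0 : 0 ≤ c := div_nonneg z1 q1.le
  have eb : b * φ3 (p - v) = φ3 (z - v) := by rw [hb]; field_simp
  have ec : c * φ1 (q - v) = φ1 (z - v) := by rw [hc]; field_simp
  have e2 : φ2 (z - v) = b * φ2 (p - v) + c * φ2 (q - v) := by
    unfold hfun at hh
    have h1 : φ2 (p - v) / φ3 (p - v) * φ3 (z - v) = b * φ2 (p - v) := by rw [hb]; ring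
    have h2 : φ2 (q - v) / φ1 (q - v) * φ1 (z - v) = c * φ2 (q - v) := by rw [hc]; ring
    rw [h1, h2] at hh; linarith
  have ez : z - v = b • (p - v) + c • (q - v) := by
    rw [← h.ext (z - v)]
    have ep := h.ext (p - v)
    have eq := h.ext (q - v)
    rw [p1] at ep
    rw [q3] at eq
    conv_rhs => rw [← ep, ← eq]
    rw [e2, ← eb, ← ec]
    module
  have ez' : (1 - b - c) • v + b • p + c • q = z := by
    have : z = v + (z - v) := by abel
    rw [this, ez]; module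
  have hvp : v ≠ p := by
    rintro rfl
    rw [sub_self, map_zero] at p3; exact lt_irrefl _ p3
  have hvq : v ≠ q := by
    rintro rfl
    rw [sub_self, map_zero] at q1; exact lt_irrefl _ q1
  have hfv := hf2 v h.hv hvp hvq
  have hfz := hz f (f p) (by
    intro x hx
    by_cases hxp : x = p
    · rw [hxp]
    · by_cases hxq : x = q
      · rw [hxq, hf1]
      · exact (hf2 x hx hxp hxq).le)
  refine ⟨1 - b - c, b, c, ?_, hb0, hc0, by ring, ez'⟩
  by_contra hneg
  push Not at hneg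
  rw [← ez', map_add, map_add, map_smul, map_smul, map_smul, ← hf1] at hfz
  simp only [smul_eq_mul] at hfz
  nlinarith

theorem hfun_base (v : E3) (φ1 φ2 φ3 : E3 →ₗ[ℝ] ℝ) (p q : E3) :
    hfun v φ1 φ2 φ3 p q v = 0 := by
  unfold hfun; simp

theorem hfun_p (v : E3) (φ1 φ2 φ3 : E3 →ₗ[ℝ] ℝ) (p q : E3) (h1 : φ1 (p - v) = 0)
    (h3 : 0 < φ3 (p - v)) : hfun v φ1 φ2 φ3 p q p = 0 := by
  unfold hfun; rw [h1]; field_simp; ring

theorem hfun_q (v : E3) (φ1 φ2 φ3 : E3 →ₗ[ℝ] ℝ) (p q : E3) (h3 : φ3 (q - v) = 0)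
    (h1 : 0 < φ1 (q - v)) : hfun v φ1 φ2 φ3 p q q = 0 := by
  unfold hfun; rw [h3]; field_simp; ring

/-- The descent step. -/
theorem descent_step (hS : ConvPos S) (hsimple : ∀ x ∈ S, SimpleVertex S x)
    (hall : ∀ v a1 a2 a3 φ1 φ2 φ3, Frm S v a1 a2 a3 φ1 φ2 φ3 →
      ∃ p q, BadChord S v φ1 φ2 φ3 p q)
    (h : Frm S v a1 a2 a3 φ1 φ2 φ3) {p q : E3} (hb : BadChord S v φ1 φ2 φ3 p q) :
    ∃ w b1 b2 b3 ψ1 ψ2 ψ3 p' q', Frm S w b1 b2 b3 ψ1 ψ2 ψ3 ∧ BadChord S w ψ1 ψ2 ψ3 p' q' ∧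
      (S.filter (fun y => 0 < hfun w ψ1 ψ2 ψ3 p' q' y)).card <
        (S.filter (fun y => 0 < hfun v φ1 φ2 φ3 p q y)).card := by
  have hsec := fun z => h.section hb (z := z)
  have hb0 := hb
  obtain ⟨hp, hq, p1, p2, p3, q3, q1, q2, hpq, f, hf1, hf2⟩ := hb
  obtain ⟨b1, b2, ψ1, ψ2, ψ3, c1, c2, hc1, hc2, hw, hF1, hF2⟩ :=
    h.swap23.move hS (hsimple a2 h.h2)
  obtain ⟨p', q', hb'⟩ := hall _ _ _ _ _ _ _ hw
  have hsec' := fun z => hw.section hb' (z := z)
  refine ⟨a2, b1, b2, v, ψ1, ψ2, ψ3, p', q', hw, hb', ?_⟩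
  obtain ⟨hp', hq', p1', p2', p3', q3', q1', q2', hpq', f', hf1', hf2'⟩ := hb'
  set H := hfun v φ1 φ2 φ3 p q with hH
  set H' := hfun a2 ψ1 ψ2 ψ3 p' q' with hH'
  have Hv : H v = 0 := hfun_base _ _ _ _ _ _
  have Hp : H p = 0 := hfun_p _ _ _ _ _ _ p1 p3
  have Hq : H q = 0 := hfun_q _ _ _ _ _ _ q3 q1
  have Hw : H a2 = 1 := by
    rw [hH]; unfold hfun; rw [h.d12, h.d22, h.d32]; ring
  have Hw' : H' a2 = 0 := hfun_base _ _ _ _ _ _
  have Hp' : H' p' = 0 := hfun_p _ _ _ _ _ _ p1' p3'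
  have Hq' : H' q' = 0 := hfun_q _ _ _ _ _ _ q3' q1'
  have Hv' : H' v < 0 := by
    rw [hH']; unfold hfun; rw [hw.d13, hw.d23, hw.d33]
    have : 0 < ψ2 (p' - a2) / ψ3 (p' - a2) := by positivity
    linarith
  have fle : ∀ x ∈ S, f' x ≤ f' p' := by
    intro x hx
    by_cases hxp : x = p'
    · rw [hxp]
    · by_cases hxq : x = q'
      · rw [hxq, hf1']
      · exact (hf2' x hx hxp hxq).le
  -- Step A
  have stepA : 0 ≤ H q' := by
    by_contra hneg
    push Not at hneg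
    set t := 1 / (1 - H q') with ht
    have hd : 0 < 1 - H q' := by linarith
    have ht0 : 0 < t := by positivity
    have ht1 : t < 1 := by rw [ht, div_lt_one hd]; linarith
    have hz0 : H ((1 - t) • a2 + t • q') = 0 := by
      rw [hH, hfun_seg, ← hH, Hw, ht]; field_simp; ring
    obtain ⟨a, b, c, ha, hb, hc, hs, he⟩ := hsec _ (InHull.seg h.h2 hq' ht0.le ht1.le) hz0
    have e1 : ψ3 ((1 - t) • a2 + t • q' - a2) = 0 := by
      have : (1 - t) • a2 + t • q' - a2 = t • (q' - a2) := by module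
      rw [this, map_smul, q3', smul_zero]
    have e2 : ψ3 ((1 - t) • a2 + t • q' - a2) =
        a * ψ3 (v - a2) + b * ψ3 (p - a2) + c * ψ3 (q - a2) := by
      rw [← he]
      have : a • v + b • p + c • q - a2 = a • (v - a2) + b • (p - a2) + c • (q - a2) := by
        have hc' : c = 1 - a - b := by linarith
        subst hc'; module
      rw [this]; simp
    rw [e1, hw.d33] at e2
    have r1 := (hw.pos p hp).2.2
    have r2 := (hw.pos q hq).2.2
    have i1 := mul_nonneg hb r1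
    have i2 := mul_nonneg hc r2
    have ha0 : a = 0 := by linarith
    have e3 := congrArg f he
    rw [ha0, zero_smul, zero_add, map_add, map_smul, map_smul, map_add, map_smul, map_smul,
      ← hf1] at e3
    simp only [smul_eq_mul] at e3
    have hwp : a2 ≠ p := by rintro rfl; rw [Hw] at Hp; exact one_ne_zero Hp
    have hwq : a2 ≠ q := by rintro rfl; rw [Hw] at Hq; exact one_ne_zero Hq
    have hqp : q' ≠ p := by rintro rfl; rw [Hp] at hneg; exact lt_irrefl _ hneg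
    have hqq : q' ≠ q := by rintro rfl; rw [Hq] at hneg; exact lt_irrefl _ hneg
    have g1 := hf2 a2 h.h2 hwp hwq
    have g2 := hf2 q' hq' hqp hqq
    have hbc : b + c = 1 := by linarith
    have e4 : b * f p + c * f p = f p := by rw [← add_mul, hbc, one_mul]
    have e5 := seg_lt ht0 ht1 g1 g2.le
    linarith
  -- Step B
  have stepB : 0 ≤ H p' := by
    by_contra hneg
    push Not at hneg
    rcases eq_or_lt_of_le stepA with h0 | h0
    · obtain ⟨a, b, c, ha, hb, hc, hs, he⟩ := hsec q' (by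
        have := InHull.seg (t := 1) hq' hq' zero_le_one le_rfl
        simpa using this) h0.symm
      have e1 := congrArg f' he
      rw [map_add, map_add, map_smul, map_smul, map_smul, ← hf1'] at e1
      simp only [smul_eq_mul] at e1
      have nv : v ≠ p' := by rintro rfl; rw [Hv] at hneg; exact lt_irrefl _ hneg
      have np : p ≠ p' := by rintro rfl; rw [Hp] at hneg; exact lt_irrefl _ hneg
      have nq : q ≠ p' := by rintro rfl; rw [Hq] at hneg; exact lt_irrefl _ hneg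
      have nv' : v ≠ q' := by
        rintro rfl
        have := hF1 v
        rw [sub_self, map_zero] at this
        have : 0 < c1 * ψ1 (v - a2) := mul_pos hc1 q1'
        linarith
      have np' : p ≠ q' := by
        rintro rfl
        have := hF1 p
        rw [p1] at this
        have : 0 < c1 * ψ1 (p - a2) := mul_pos hc1 q1'
        linarith
      have nq' : q ≠ q' := by
        rintro rfl
        have := hF2 q
        rw [q3] at this
        have : 0 < c2 * ψ2 (q - a2) := mul_pos hc2 q2'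
        linarith
      have g1 := hf2' v h.hv nv nv'
      have g2 := hf2' p hp np np'
      have g3 := hf2' q hq nq nq'
      have e5 := comb_lt ha hb hc hs g1 g2 g3
      linarith
    · set t := -H p' / (H q' - H p') with ht
      have hd : 0 < H q' - H p' := by linarith
      have ht0 : 0 < t := div_pos (by linarith) hd
      have ht1 : t < 1 := by rw [ht, div_lt_one hd]; linarith
      have hz0 : H ((1 - t) • p' + t • q') = 0 := by
        rw [hH, hfun_seg, ← hH, ht]; field_simp; ring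
      obtain ⟨a, b, c, ha, hb, hc, hs, he⟩ := hsec _ (InHull.seg hp' hq' ht0.le ht1.le) hz0
      have e1 := congrArg f' he
      rw [map_add, map_add, map_smul, map_smul, map_smul, map_add, map_smul, map_smul,
        ← hf1'] at e1
      simp only [smul_eq_mul] at e1
      have nv : v ≠ p' := by rintro rfl; rw [Hv] at hneg; exact lt_irrefl _ hneg
      have np : p ≠ p' := by rintro rfl; rw [Hp] at hneg; exact lt_irrefl _ hneg
      have nq : q ≠ p' := by rintro rfl; rw [Hq] at hneg; exact lt_irrefl _ hneg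
      have nv' : v ≠ q' := by rintro rfl; rw [Hv] at h0; exact lt_irrefl _ h0
      have np' : p ≠ q' := by rintro rfl; rw [Hp] at h0; exact lt_irrefl _ h0
      have nq' : q ≠ q' := by rintro rfl; rw [Hq] at h0; exact lt_irrefl _ h0
      have g1 := hf2' v h.hv nv nv'
      have g2 := hf2' p hp np np'
      have g3 := hf2' q hq nq nq'
      have e5 := comb_lt ha hb hc hs g1 g2 g3
      have e6 : (1 - t) * f' p' + t * f' p' = f' p' := by ring
      linarith
  -- Step C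
  apply Finset.card_lt_card
  rw [Finset.ssubset_iff_of_subset]
  · refine ⟨a2, ?_, ?_⟩
    · rw [Finset.mem_filter, Hw]; exact ⟨h.h2, one_pos⟩
    · rw [Finset.mem_filter, Hw']; exact fun hh => lt_irrefl _ hh.2
  · intro y hy
    rw [Finset.mem_filter] at hy ⊢
    obtain ⟨hyS, hy'⟩ := hy
    refine ⟨hyS, ?_⟩
    by_contra hneg
    push Not at hneg
    set t := -H' v / (H' y - H' v) with ht
    have hd : 0 < H' y - H' v := by linarith
    have ht0 : 0 < t := div_pos (by linarith) hd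
    have ht1 : t < 1 := by rw [ht, div_lt_one hd]; linarith
    have hz0 : H' ((1 - t) • v + t • y) = 0 := by
      rw [hH', hfun_seg, ← hH', ht]; field_simp; ring
    obtain ⟨a, b, c, ha, hb, hc, hs, he⟩ := hsec' _ (InHull.seg h.hv hyS ht0.le ht1.le) hz0
    have e0 : H ((1 - t) • v + t • y) = t * H y := by
      rw [hH, hfun_seg, ← hH, Hv]; ring
    rw [← he, hH, hfun_comb _ _ _ _ _ _ _ _ _ hs, ← hH, Hw] at e0
    have i1 := mul_nonneg hb stepB
    have i2 := mul_nonneg hc stepA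
    have i3 : t * H y ≤ 0 := mul_nonpos_of_nonneg_of_nonpos ht0.le hneg
    have ha0 : a = 0 := by linarith
    have e1 := congrArg f' he
    rw [ha0, zero_smul, zero_add, map_add, map_smul, map_smul, map_add, map_smul, map_smul,
      ← hf1'] at e1
    simp only [smul_eq_mul] at e1
    have nv : v ≠ p' := by rintro rfl; rw [Hp'] at Hv'; exact lt_irrefl _ Hv'
    have nv' : v ≠ q' := by rintro rfl; rw [Hq'] at Hv'; exact lt_irrefl _ Hv'
    have g1 := hf2' v h.hv nv nv'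
    have g2 := fle y hyS
    have hbc : b + c = 1 := by linarith
    have e4 : b * f' p' + c * f' p' = f' p' := by rw [← add_mul, hbc, one_mul]
    have e5 := seg_lt ht0 ht1 g1 g2
    linarith

/-- The good flag lemma. -/
theorem exists_good_frame (hS : ConvPos S) (hne : S.Nonempty)
    (hsimple : ∀ x ∈ S, SimpleVertex S x) :
    ∃ v a1 a2 a3 φ1 φ2 φ3, Frm S v a1 a2 a3 φ1 φ2 φ3 ∧ ∀ p q, ¬ BadChord S v φ1 φ2 φ3 p q := by
  by_contra hcon
  push Not at hcon
  have hall : ∀ v a1 a2 a3 φ1 φ2 φ3, Frm S v a1 a2 a3 φ1 φ2 φ3 →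
      ∃ p q, BadChord S v φ1 φ2 φ3 p q := by
    intro v a1 a2 a3 φ1 φ2 φ3 h
    exact hcon v a1 a2 a3 φ1 φ2 φ3 h
  have key : ∀ n : ℕ, ∀ v a1 a2 a3 φ1 φ2 φ3 p q, Frm S v a1 a2 a3 φ1 φ2 φ3 →
      BadChord S v φ1 φ2 φ3 p q →
      (S.filter (fun y => 0 < hfun v φ1 φ2 φ3 p q y)).card = n → False := by
    intro n
    induction n using Nat.strong_induction_on with
    | _ n ih =>
      intro v a1 a2 a3 φ1 φ2 φ3 p q h hb hn
      obtain ⟨w, b1, b2, b3, ψ1, ψ2, ψ3, p', q', hw, hb', hlt⟩ :=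
        descent_step hS hsimple hall h hb
      exact ih _ (by rw [← hn]; exact hlt) w b1 b2 b3 ψ1 ψ2 ψ3 p' q' hw hb' rfl
  obtain ⟨v, hv⟩ := hne
  obtain ⟨a1, a2, a3, φ1, φ2, φ3, h⟩ := (hsimple v hv).frame hv
  obtain ⟨p, q, hb⟩ := hall _ _ _ _ _ _ _ h
  exact key _ v a1 a2 a3 φ1 φ2 φ3 p q h hb rfl

end

end Run7.h169
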