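import Pool.Agent.Run7.h169.Forest2

set_option autoImplicit false
open scoped Classical Topology
open Filter

namespace Run7.h169

/-- A functional not vanishing on finitely many given nonzero vectors. -/
theorem exists_generic_fun (U : Finset E3) (hU : ∀ u ∈ U, u ≠ 0) :
    ∃ n : E3 →ₗ[ℝ] ℝ, ∀ u ∈ U, n u ≠ 0 := by
  set s : Finset (Subspace ℝ (E3 →ₗ[ℝ] ℝ)) :=
    U.image (fun u => LinearMap.ker (LinearMap.applyₗ (R := ℝ) (M₂ := ℝ) u)) with hs
  have htop : (⊤ : Subspace ℝ (E3 →ₗ[ℝ] ℝ)) ∉ s := by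
    intro hmem
    rw [hs, Finset.mem_image] at hmem
    obtain ⟨u, hu, hker⟩ := hmem
    have h1 : (innerSL ℝ u).toLinearMap ∈
        LinearMap.ker (LinearMap.applyₗ (R := ℝ) (M₂ := ℝ) u) := by
      rw [hker]; exact Submodule.mem_top
    rw [LinearMap.mem_ker] at h1
    have h2 : inner ℝ u u = (0 : ℝ) := h1
    exact hU u hu (inner_self_eq_zero.mp h2)
  have hne := Subspace.biUnion_ne_univ_of_top_notMem htop
  rw [Set.ne_univ_iff_exists_notMem] at hne
  obtain ⟨n, hn⟩ := hne
  refine ⟨n, ?_⟩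
  intro u hu hnu
  apply hn
  rw [Set.mem_iUnion₂]
  refine ⟨LinearMap.ker (LinearMap.applyₗ (R := ℝ) (M₂ := ℝ) u), ?_, ?_⟩
  · rw [hs]; exact Finset.mem_image_of_mem _ hu
  · show n ∈ LinearMap.ker (LinearMap.applyₗ (R := ℝ) (M₂ := ℝ) u)
    rw [LinearMap.mem_ker]; exact hnu

section

variable {W : Finset E3} {B : Finset (Finset E3)}

/-- Different vertices lie on different rays. -/
theorem Cfg.ray_ne (hC : Cfg W) {x y : E3} (hx : x ∈ W) (hy : y ∈ W) (hxy : x ≠ y) {t : ℝ} :
    x ≠ t • y := by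
  intro he
  obtain ⟨l, hl⟩ := hC.ell
  have lx := hl x hx
  have ly := hl y hy
  have ht : 0 < t := by
    rw [he, map_smul, smul_eq_mul] at lx
    exact (pos_iff_pos_of_mul_pos lx).mpr ly
  have h1 := hC.cvx3 (x := x) (a := y) (b := y) (c := y) (u := t) (v := 0) (w := 0) hx hy hy hy
    hxy.symm hxy.symm hxy.symm ht.le le_rfl le_rfl (by rw [← he]; simp)
  have h2 := hC.cvx3 (x := y) (a := x) (b := x) (c := x) (u := 1 / t) (v := 0) (w := 0) hy hx hx hx
    hxy hxy hxy (by positivity) le_rfl le_rfl (by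
      rw [he, smul_smul, one_div_mul_cancel ht.ne']; simp)
  rw [add_zero, add_zero] at h1 h2
  rw [lt_div_iff₀ ht] at h2
  linarith

/-- A generic projective coordinate. -/
theorem exists_coord (hC : Cfg W) : ∃ l n : E3 →ₗ[ℝ] ℝ, (∀ y ∈ W, 0 < l y) ∧
    ∀ x ∈ W, ∀ y ∈ W, n x / l x = n y / l y → x = y := by
  obtain ⟨l, hl⟩ := hC.ell
  obtain ⟨n, hn⟩ := exists_generic_fun
    (((W ×ˢ W).filter (fun e => e.1 ≠ e.2)).image (fun e => l e.2 • e.1 - l e.1 • e.2)) (by
      intro u hu
      obtain ⟨e, he, rfl⟩ := Finset.mem_image.mp hu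
      rw [Finset.mem_filter, Finset.mem_product] at he
      intro h0
      have l2 := hl _ he.1.2
      apply hC.ray_ne he.1.1 he.1.2 he.2 (t := l e.1 / l e.2)
      have h1 := sub_eq_zero.mp h0
      have h3 := congrArg (fun z => (1 / l e.2) • z) h1
      simp only [smul_smul, one_div_mul_cancel l2.ne', one_smul] at h3
      exact h3.trans (by congr 1; ring))
  refine ⟨l, n, hl, ?_⟩
  intro x hx y hy hxy
  by_contra hne
  have lx := hl x hx
  have ly := hl y hy
  apply hn _ (Finset.mem_image_of_mem _ (Finset.mem_filter.mpr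
    ⟨Finset.mem_product.mpr (show (x, y).1 ∈ W ∧ (x, y).2 ∈ W from ⟨hx, hy⟩), hne⟩))
  rw [div_eq_div_iff lx.ne' ly.ne'] at hxy
  simp only [map_sub, map_smul, smul_eq_mul]
  linarith

/-- The middle vertex of a triangle. -/
def Mid (r : E3 → ℝ) (w : E3) (τ : Finset E3) : Prop :=
  w ∈ τ ∧ ∃ x ∈ τ, ∃ y ∈ τ, r x < r w ∧ r w < r y

theorem exists_mid {r : E3 → ℝ} {τ : Finset E3} (h : τ.card = 3)
    (hr : ∀ x ∈ τ, ∀ y ∈ τ, r x = r y → x = y) : ∃ w ∈ τ, Mid r w τ := by
  obtain ⟨a, b, c, hab, hac, hbc, rfl⟩ := Finset.card_eq_three.mp h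
  have ha : a ∈ ({a, b, c} : Finset E3) := by simp
  have hb : b ∈ ({a, b, c} : Finset E3) := by simp
  have hc : c ∈ ({a, b, c} : Finset E3) := by simp
  have nab : r a ≠ r b := fun h => hab (hr a ha b hb h)
  have nac : r a ≠ r c := fun h => hac (hr a ha c hc h)
  have nbc : r b ≠ r c := fun h => hbc (hr b hb c hc h)
  rcases lt_or_gt_of_ne nab with h1 | h1
  · rcases lt_or_gt_of_ne nbc with h2 | h2
    · exact ⟨b, hb, hb, a, ha, c, hc, h1, h2⟩
    · rcases lt_or_gt_of_ne nac with h3 | h3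
      · exact ⟨c, hc, hc, a, ha, b, hb, h3, h2⟩
      · exact ⟨a, ha, ha, c, hc, b, hb, h3, h1⟩
  · rcases lt_or_gt_of_ne nac with h2 | h2
    · exact ⟨a, ha, ha, b, hb, c, hc, h1, h2⟩
    · rcases lt_or_gt_of_ne nbc with h3 | h3
      · exact ⟨c, hc, hc, b, hb, a, ha, h3, h2⟩
      · exact ⟨b, hb, hb, c, hc, a, ha, h3, h1⟩

/-- The crossing vector of a triangle at its middle vertex. -/
theorem cross_vec {x w y z : E3} (hN : Nice {x, w, y}) {α : E3 →ₗ[ℝ] ℝ} (hx : α x < 0)
    (hw : α w = 0) (hy : 0 < α y) (hz : α z = 0) :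
    ∃ s t : ℝ, z = s • w + t • (α y • x - α x • y) := by
  have e := crd_sum3 hN z
  set a := crd {x, w, y} x z
  set b := crd {x, w, y} w z
  set c := crd {x, w, y} y z
  have h0 := congrArg α e
  simp only [map_add, map_smul, hw, hz, smul_eq_mul, mul_zero, add_zero] at h0
  refine ⟨b, a / α y, ?_⟩
  have hc : c = -(a / α y) * α x := by
    field_simp
    linarith
  rw [← e, hc]
  match_scalars <;> field_simp

theorem tri_form {τ : Finset E3} (h : τ.card = 3) {x w y : E3} (hx : x ∈ τ) (hw : w ∈ τ)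
    (hy : y ∈ τ) (h1 : x ≠ w) (h2 : x ≠ y) (h3 : w ≠ y) : τ = {x, w, y} := by
  symm
  apply Finset.eq_of_subset_of_card_le
  · intro z hz
    simp only [Finset.mem_insert, Finset.mem_singleton] at hz
    rcases hz with rfl | rfl | rfl <;> assumption
  · rw [h, Finset.card_eq_three.mpr ⟨x, w, y, h1, h2, h3, rfl⟩]

/-- Two triangles with the same middle vertex lying on the same side coincide. -/
theorem Fan.mid_unique (hF : Fan W B) {x w y x' y' : E3} (h1 : ({x, w, y} : Finset E3) ∈ B)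
    (h2 : ({x', w, y'} : Finset E3) ∈ B) {α : E3 →ₗ[ℝ] ℝ} (hx : α x < 0) (hy : 0 < α y)
    (hx' : α x' < 0) (hy' : 0 < α y') {s t : ℝ} (ht : 0 < t)
    (he : α y' • x' - α x' • y' = s • w + t • (α y • x - α x • y)) :
    ({x, w, y} : Finset E3) = {x', w, y'} := by
  have hN := hF.nice _ h1
  have hN' := hF.nice _ h2
  obtain ⟨M, hM0, hM1⟩ : ∃ M : ℝ, 0 < M ∧ 0 < M + s := by
    refine ⟨|s| + 1, by positivity, ?_⟩
    have := neg_abs_le s
    linarith
  have e1 : (t * α y) • x + (M + s) • w + (t * -α x) • y =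
      M • w + (α y' • x' - α x' • y') := by
    rw [he]; module
  have e2 : α y' • x' + M • w + (-α x') • y' = M • w + (α y' • x' - α x' • y') := by module
  have m1 : M • w + (α y' • x' - α x' • y') ∈ cone {x, w, y} :=
    mem_cone3 (mul_pos ht hy).le hM1.le (mul_pos ht (neg_pos.mpr hx)).le e1
  have m2 : M • w + (α y' • x' - α x' • y') ∈ cone {x', w, y'} :=
    mem_cone3 hy'.le hM0.le (neg_pos.mpr hx').le e2
  have m3 := hF.inter _ h1 _ h2 _ m1 m2
  obtain ⟨c1, c2, c3⟩ := crd3_unique hN e1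
  apply Finset.eq_of_subset_of_card_le
  · intro z hz
    simp only [Finset.mem_insert, Finset.mem_singleton] at hz
    rcases hz with rfl | rfl | rfl
    · exact support_of_mem_cone_inter hN m3 (by simp) (by rw [c1]; exact (mul_pos ht hy).ne')
    · simp
    · exact support_of_mem_cone_inter hN m3 (by simp)
        (by rw [c3]; exact (mul_pos ht (neg_pos.mpr hx)).ne')
  · rw [hN.1, hN'.1]

/-- The Euler inequality. -/
theorem Fan.euler (hC : Cfg W) (hF : Fan W B) :
    B.card + 2 ≤ 2 * (W.filter (Inner W)).card + (W.filter (fun w => ¬ Inner W w)).card := by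
  obtain ⟨l, n, hl, hinj⟩ := exists_coord hC
  set r : E3 → ℝ := fun z => n z / l z with hr
  have hinj' : ∀ x ∈ W, ∀ y ∈ W, r x = r y → x = y := hinj
  -- the functional of a vertex
  set α : E3 → (E3 →ₗ[ℝ] ℝ) := fun w => n - r w • l with hα
  have αval : ∀ w, ∀ x ∈ W, α w x = l x * (r x - r w) := by
    intro w x hx
    have := hl x hx
    simp only [hα, hr, LinearMap.sub_apply, LinearMap.smul_apply, smul_eq_mul]
    field_simp
  have αneg : ∀ w x, x ∈ W → r x < r w → α w x < 0 := by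
    intro w x hx h
    rw [αval w x hx]
    exact mul_neg_of_pos_of_neg (hl x hx) (by linarith)
  have αpos : ∀ w x, x ∈ W → r w < r x → 0 < α w x := by
    intro w x hx h
    rw [αval w x hx]
    exact mul_pos (hl x hx) (by linarith)
  have αself : ∀ w ∈ W, α w w = 0 := by
    intro w hw
    rw [αval w w hw, sub_self, mul_zero]
  set F : E3 → Finset (Finset E3) := fun w => B.filter (Mid r w) with hFd
  -- normal form of members
  have form : ∀ w, ∀ τ ∈ F w, ∃ x y, x ∈ W ∧ w ∈ W ∧ y ∈ W ∧ r x < r w ∧ r w < r y ∧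
      τ = {x, w, y} ∧ ({x, w, y} : Finset E3) ∈ B := by
    intro w τ hτ
    obtain ⟨hτB, hw, x, hx, y, hy, h1, h2⟩ := Finset.mem_filter.mp hτ
    have hsub := hF.sub τ hτB
    have e := tri_form (hF.nice τ hτB).1 hx hw hy (by rintro rfl; exact lt_irrefl _ h1)
      (by rintro rfl; linarith) (by rintro rfl; exact lt_irrefl _ h2)
    exact ⟨x, y, hsub hx, hsub hw, hsub hy, h1, h2, e, e ▸ hτB⟩
  -- relation between two members
  have rel2 : ∀ w, ∀ τ ∈ F w, ∀ τ' ∈ F w, τ ≠ τ' → ∃ x y x' y' : E3, ∃ s t : ℝ, t < 0 ∧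
      ({x, w, y} : Finset E3) ∈ B ∧ ({x', w, y'} : Finset E3) ∈ B ∧
      τ = {x, w, y} ∧ τ' = {x', w, y'} ∧ x ∈ W ∧ y ∈ W ∧ x' ∈ W ∧ y' ∈ W ∧
      r x < r w ∧ r w < r y ∧ r x' < r w ∧ r w < r y' ∧
      α w y' • x' - α w x' • y' = s • w + t • (α w y • x - α w x • y) := by
    intro w τ hτ τ' hτ' hne
    obtain ⟨x, y, hx, hw, hy, h1, h2, h3, h4⟩ := form w τ hτ
    obtain ⟨x', y', hx', _, hy', h1', h2', h3', h4'⟩ := form w τ' hτ'
    obtain ⟨s, t, hst⟩ := cross_vec (hF.nice _ h4) (αneg w x hx h1) (αself w hw)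
      (αpos w y hy h2) (z := α w y' • x' - α w x' • y') (by
        simp only [map_sub, map_smul, smul_eq_mul]; ring)
    refine ⟨x, y, x', y', s, t, ?_, h4, h4', h3, h3', hx, hy, hx', hy', h1, h2, h1', h2', hst⟩
    rcases lt_trichotomy t 0 with ht | ht | ht
    · exact ht
    · exfalso
      rw [ht, zero_smul, add_zero] at hst
      have hN' := hF.nice _ h4'
      have e1 : α w y' • x' + (0 : ℝ) • w + (-α w x') • y' = s • w := by rw [← hst]; module
      have e2 : (0 : ℝ) • x' + s • w + (0 : ℝ) • y' = s • w := by module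
      have c1 := (crd3_unique hN' e1).1
      have c2 := (crd3_unique hN' e2).1
      have := αpos w y' hy' h2'
      rw [c1] at c2
      linarith
    · exfalso
      apply hne
      rw [h3, h3']
      exact hF.mid_unique h4 h4' (αneg w x hx h1) (αpos w y hy h2) (αneg w x' hx' h1')
        (αpos w y' hy' h2') ht hst
  -- at most two
  have two : ∀ w, (F w).card ≤ 2 := by
    intro w
    by_contra hcon
    push Not at hcon
    obtain ⟨τ1, h1, τ2, h2, τ3, h3, d12, d13, d23⟩ := Finset.two_lt_card.mp hcon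
    obtain ⟨x, y, x2, y2, s2, t2, ht2, b1, b2, e1, e2, m1, m2, m3, m4, l1, l2, l3, l4, k2⟩ :=
      rel2 w τ1 h1 τ2 h2 d12
    obtain ⟨x', y', x3, y3, m5, _, m6, l5, l6, e3, b3⟩ : ∃ x' y' x3 y3 : E3, x3 ∈ W ∧ True ∧
        y3 ∈ W ∧ r x3 < r w ∧ r w < r y3 ∧ τ3 = {x3, w, y3} ∧ ({x3, w, y3} : Finset E3) ∈ B := by
      obtain ⟨x3, y3, g1, _, g2, g3, g4, g5, g6⟩ := form w τ3 h3
      exact ⟨x3, y3, x3, y3, g1, trivial, g2, g3, g4, g5, g6⟩
    have hwW : w ∈ W := by
      obtain ⟨_, _, _, g, _⟩ := form w τ1 h1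
      exact g
    obtain ⟨s3, t3, k3⟩ := cross_vec (hF.nice _ b1) (αneg w x m1 l1) (αself w hwW)
      (αpos w y m2 l2) (z := α w y3 • x3 - α w x3 • y3) (by
        simp only [map_sub, map_smul, smul_eq_mul]; ring)
    rcases lt_trichotomy t3 0 with ht | ht | ht
    · apply d23
      rw [e2, e3]
      refine hF.mid_unique b2 b3 (αneg w x2 m3 l3) (αpos w y2 m4 l4) (αneg w x3 m5 l5)
        (αpos w y3 m6 l6) (s := s3 - t3 / t2 * s2) (t := t3 / t2)
        (div_pos_of_neg_of_neg ht ht2) ?_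
      rw [k3, k2]
      have := ht2.ne
      match_scalars <;> field_simp <;> ring
    · rw [ht, zero_smul, add_zero] at k3
      have hN' := hF.nice _ b3
      have e4 : α w y3 • x3 + (0 : ℝ) • w + (-α w x3) • y3 = s3 • w := by rw [← k3]; module
      have e5 : (0 : ℝ) • x3 + s3 • w + (0 : ℝ) • y3 = s3 • w := by module
      have c1 := (crd3_unique hN' e4).1
      have c2 := (crd3_unique hN' e5).1
      have := αpos w y3 m6 l6
      rw [c1] at c2
      linarith
    · apply d13
      rw [e1, e3]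
      exact hF.mid_unique b1 b3 (αneg w x m1 l1) (αpos w y m2 l2) (αneg w x3 m5 l5)
        (αpos w y3 m6 l6) ht k3
  -- at most one at outer vertices
  have one : ∀ w ∈ W, ¬ Inner W w → (F w).card ≤ 1 := by
    intro w hw hn
    rw [Finset.card_le_one]
    intro τ hτ τ' hτ'
    by_contra hne
    obtain ⟨x, y, x', y', s, t, ht, b1, b2, e1, e2, m1, m2, m3, m4, l1, l2, l3, l4, k⟩ :=
      rel2 w τ hτ τ' hτ' hne
    obtain ⟨f, f0, f1, f2⟩ := exists_support hC (mem_cone_self hw) hn
    have kf := congrArg f k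
    simp only [map_sub, map_add, map_smul, f2, smul_eq_mul, mul_zero, zero_add] at kf
    have a1 := αneg w x m1 l1
    have a2 := αpos w y m2 l2
    have a3 := αneg w x' m3 l3
    have a4 := αpos w y' m4 l4
    have g1 := f1 x m1
    have g2 := f1 y m2
    have g3 := f1 x' m3
    have g4 := f1 y' m4
    have p1 : 0 ≤ α w y' * f x' - α w x' * f y' := by nlinarith
    have p2 : 0 ≤ α w y * f x - α w x * f y := by nlinarith
    have p3 : α w y * f x - α w x * f y = 0 := by nlinarith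
    have q1 : 0 ≤ α w y * f x := mul_nonneg a2.le g1
    have q2 : 0 ≤ -α w x * f y := mul_nonneg (neg_pos.mpr a1).le g2
    have z1 : f x = 0 := by
      have : α w y * f x = 0 := by linarith
      exact (mul_eq_zero.mp this).resolve_left a2.ne'
    have z2 : f y = 0 := by
      have : -α w x * f y = 0 := by linarith
      exact (mul_eq_zero.mp this).resolve_left (neg_pos.mpr a1).ne'
    apply f0
    apply nice_ext (hF.nice _ b1)
    intro z hz
    simp only [Finset.mem_insert, Finset.mem_singleton] at hz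
    rcases hz with rfl | rfl | rfl
    · rw [z1]; rfl
    · rw [f2]; rfl
    · rw [z2]; rfl
  -- extreme vertices
  obtain ⟨A, hA, hAn⟩ := hC.full
  have hWne : W.Nonempty := by
    obtain ⟨x, hx⟩ := Finset.card_pos.mp (by rw [hAn.1]; norm_num : 0 < A.card)
    exact ⟨x, hA hx⟩
  have hW3 : 3 ≤ W.card := by
    rw [← hAn.1]; exact Finset.card_le_card hA
  obtain ⟨w0, hw0, hmin⟩ := Finset.exists_min_image W r hWne
  obtain ⟨w1, hw1, hmax⟩ := Finset.exists_max_image W r hWne
  have hne01 : w0 ≠ w1 := by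
    rintro rfl
    have hall : ∀ x ∈ W, x = w0 := by
      intro x hx
      apply hinj' x hx w0 hw0
      exact le_antisymm (hmax x hx) (hmin x hx)
    have : W.card ≤ 1 := by
      rw [Finset.card_le_one]
      intro a ha b hb
      rw [hall a ha, hall b hb]
    omega
  have hlt01 : r w0 < r w1 :=
    lt_of_le_of_ne (hmin w1 hw1) (fun h => hne01 (hinj' w0 hw0 w1 hw1 h))
  have n0 : ¬ Inner W w0 := by
    apply not_inner_of_support (f := α w0)
    · intro h0
      have := αpos w0 w1 hw1 hlt01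
      rw [h0] at this
      exact lt_irrefl _ this
    · intro x hx
      rw [αval w0 x hx]
      exact mul_nonneg (hl x hx).le (by linarith [hmin x hx])
    · exact αself w0 hw0
  have n1 : ¬ Inner W w1 := by
    apply not_inner_of_support (f := -α w1)
    · intro h0
      have h1 := αneg w1 w0 hw0 hlt01
      have h2 : (-α w1) w0 = 0 := by rw [h0]; rfl
      have h3 : -(α w1 w0) = 0 := h2
      linarith
    · intro x hx
      show 0 ≤ -(α w1 x)
      rw [αval w1 x hx]
      have := mul_nonneg (hl x hx).le (by linarith [hmax x hx] : 0 ≤ r w1 - r x)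
      linarith
    · show -(α w1 w1) = 0
      rw [αself w1 hw1, neg_zero]
  have z0 : (F w0).card = 0 := by
    rw [Finset.card_eq_zero, Finset.eq_empty_iff_forall_notMem]
    intro τ hτ
    obtain ⟨x, y, hx, _, _, h1, _⟩ := form w0 τ hτ
    linarith [hmin x hx]
  have z1 : (F w1).card = 0 := by
    rw [Finset.card_eq_zero, Finset.eq_empty_iff_forall_notMem]
    intro τ hτ
    obtain ⟨x, y, _, _, hy, _, h2, _⟩ := form w1 τ hτ
    linarith [hmax y hy]
  -- the count
  have hcover : B ⊆ W.biUnion F := by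
    intro τ hτ
    obtain ⟨w, hw, hmid⟩ := exists_mid (r := r) (hF.nice τ hτ).1
      (fun x hx y hy => hinj' x (hF.sub τ hτ hx) y (hF.sub τ hτ hy))
    rw [Finset.mem_biUnion]
    exact ⟨w, hF.sub τ hτ hw, Finset.mem_filter.mpr ⟨hτ, hmid⟩⟩
  have hcard := (Finset.card_le_card hcover).trans Finset.card_biUnion_le
  have s1 : ∑ w ∈ W.filter (Inner W), (F w).card ≤ (W.filter (Inner W)).card * 2 := by
    rw [← smul_eq_mul]
    exact Finset.sum_le_card_nsmul _ _ _ (fun w _ => two w)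
  set O := W.filter (fun w => ¬ Inner W w) with hO
  have hw0O : w0 ∈ O := Finset.mem_filter.mpr ⟨hw0, n0⟩
  have hw1O : w1 ∈ O.erase w0 :=
    Finset.mem_erase.mpr ⟨hne01.symm, Finset.mem_filter.mpr ⟨hw1, n1⟩⟩
  have s2 : ∑ w ∈ O, (F w).card ≤ ((O.erase w0).erase w1).card * 1 := by
    rw [← Finset.add_sum_erase O _ hw0O, ← Finset.add_sum_erase _ _ hw1O, z0, z1, zero_add,
      zero_add, ← smul_eq_mul]
    apply Finset.sum_le_card_nsmul
    intro w hw
    have := (Finset.mem_filter.mp (Finset.mem_of_mem_erase (Finset.mem_of_mem_erase hw)))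
    exact one w this.1 this.2
  rw [Finset.card_erase_of_mem hw1O, Finset.card_erase_of_mem hw0O] at s2
  have hsplit : ∑ w ∈ W, (F w).card =
      ∑ w ∈ W.filter (Inner W), (F w).card + ∑ w ∈ O, (F w).card := by
    rw [hO]
    exact (Finset.sum_filter_add_sum_filter_not W (Inner W) _).symm
  rw [hsplit] at hcard
  have hO2 : 1 < O.card := Finset.one_lt_card.mpr ⟨w0, hw0O, w1, Finset.mem_of_mem_erase hw1O, hne01⟩
  omega

end

end Run7.h169
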