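import Pool.Agent.Run7.h169.Euler

set_option autoImplicit false
open scoped Classical Topology
open Filter

namespace Run7.h169

/-- A ray not in the cone of finitely many vectors is strictly supported. -/
theorem sep_ray {M : Finset E3} {m : E3} {l : E3 →ₗ[ℝ] ℝ} (hl : ∀ k ∈ M, 0 < l k)
    (hlm : 0 < l m) (hmn : m ∉ cone M) : ∃ f : E3 →ₗ[ℝ] ℝ, f m = 0 ∧ ∀ k ∈ M, 0 < f k := by
  have hdisj : Disjoint (convexHull ℝ (M : Set E3))
      (Submodule.span ℝ ({m} : Set E3) : Set E3) := by
    rw [Set.disjoint_left]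
    intro z hz hz2
    rw [SetLike.mem_coe, Submodule.mem_span_singleton] at hz2
    obtain ⟨t, rfl⟩ := hz2
    rw [Finset.mem_convexHull'] at hz
    obtain ⟨w, w0, w1, w2⟩ := hz
    rcases le_or_gt t 0 with ht | ht
    · have h1 : l (t • m) ≤ 0 := by
        rw [map_smul, smul_eq_mul]
        exact mul_nonpos_of_nonpos_of_nonneg ht hlm.le
      have h2 : 0 < l (t • m) := by
        rw [← w2, map_sum]
        obtain ⟨k, hk, hk0⟩ : ∃ k ∈ M, w k ≠ 0 := by
          by_contra hcon
          push Not at hcon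
          rw [Finset.sum_eq_zero hcon] at w1
          exact zero_ne_one w1
        apply Finset.sum_pos'
        · intro i hi
          rw [map_smul, smul_eq_mul]
          exact mul_nonneg (w0 i hi) (hl i hi).le
        · refine ⟨k, hk, ?_⟩
          rw [map_smul, smul_eq_mul]
          exact mul_pos (lt_of_le_of_ne (w0 k hk) hk0.symm) (hl k hk)
      linarith
    · apply hmn
      have hz3 : t • m ∈ cone M := ⟨w, w0, w2⟩
      have hz4 := cone_smul (a := 1 / t) (by positivity) hz3
      rwa [smul_smul, one_div_mul_cancel ht.ne', one_smul] at hz4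
  obtain ⟨f, u, u', hf1, hf2, hf3⟩ := geometric_hahn_banach_compact_closed
    (convex_convexHull ℝ _) (M.finite_toSet.isCompact_convexHull (𝕜 := ℝ))
    (Submodule.span ℝ ({m} : Set E3)).convex (Submodule.closed_of_finiteDimensional _) hdisj
  have hfm : f m = 0 := by
    by_contra hne
    have h1 := hf3 ((u' / f m) • m) (Submodule.smul_mem _ _ (Submodule.mem_span_singleton_self m))
    rw [map_smul, smul_eq_mul, div_mul_cancel₀ _ hne] at h1
    exact lt_irrefl _ h1
  have hu' : u' < 0 := by
    have := hf3 0 (Submodule.zero_mem _)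
    rwa [map_zero] at this
  refine ⟨-f.toLinearMap, ?_, ?_⟩
  · show -(f m) = 0
    rw [hfm, neg_zero]
  · intro k hk
    have := hf1 k (subset_convexHull ℝ _ hk)
    show 0 < -(f k)
    linarith

section

variable {W : Finset E3} {B : Finset (Finset E3)}

/-- No vertex is on the line through two others. -/
theorem Cfg.line (hC : Cfg W) {p q x : E3} (hp : p ∈ W) (hq : q ∈ W) (hx : x ∈ W) (hpq : p ≠ q)
    (hxp : x ≠ p) (hxq : x ≠ q) {a b : ℝ} (hab : a + b = 1) (h : x = a • p + b • q) : False := by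
  rcases lt_or_ge a 0 with ha0 | ha0
  · have hb0 : 0 < b := by linarith
    have := hC.cvx3 (x := q) (a := x) (b := p) (c := p) (u := 1 / b) (v := -a / b) (w := 0)
      hq hx hp hp hxq hpq hpq (by positivity) (div_nonneg (by linarith) hb0.le) le_rfl (by
        rw [h]
        match_scalars <;> field_simp <;> ring)
    have e : 1 / b + -a / b + 0 = 1 := by field_simp; linarith
    rw [e] at this
    exact lt_irrefl _ this
  · rcases lt_or_ge b 0 with hb0 | hb0
    · have ha1 : 0 < a := by linarith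
      have := hC.cvx3 (x := p) (a := x) (b := q) (c := q) (u := 1 / a) (v := -b / a) (w := 0)
        hp hx hq hq hxp hpq.symm hpq.symm (by positivity) (div_nonneg (by linarith) ha1.le)
        le_rfl (by
          rw [h]
          match_scalars <;> field_simp <;> ring)
      have e : 1 / a + -b / a + 0 = 1 := by field_simp; linarith
      rw [e] at this
      exact lt_irrefl _ this
    · have := hC.cvx3 (x := x) (a := p) (b := q) (c := q) (u := a) (v := b) (w := 0)
        hx hp hq hq (Ne.symm hxp) (Ne.symm hxq) (Ne.symm hxq) ha0 hb0 le_rfl (by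
          rw [zero_smul, add_zero]; exact h.symm)
      linarith

/-- A strictly exposing functional of a vertex. -/
theorem Cfg.expose (hC : Cfg W) {z : E3} (hz : z ∈ W) :
    ∃ h : E3 →ₗ[ℝ] ℝ, ∀ x ∈ W, x ≠ z → h x < h z := by
  have hn : z ∉ convexHull ℝ ((W.erase z : Finset E3) : Set E3) := by
    intro hm
    rw [Finset.mem_convexHull'] at hm
    obtain ⟨w, w0, w1, w2⟩ := hm
    have := hC.cvx z hz w w0 w2
    rw [w1] at this
    exact lt_irrefl _ this
  obtain ⟨f, u, h1, h2⟩ := geometric_hahn_banach_point_closed (convex_convexHull ℝ _)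
    ((W.erase z).finite_toSet.isCompact_convexHull (𝕜 := ℝ)).isClosed hn
  refine ⟨-f.toLinearMap, ?_⟩
  intro x hx hxz
  have := h2 x (subset_convexHull ℝ _ (Finset.mem_coe.mpr (Finset.mem_erase.mpr ⟨hxz, hx⟩)))
  show -(f x) < -(f z)
  linarith

/-- The vertices on a plane. -/
noncomputable def vp (W : Finset E3) (π : E3 →ₗ[ℝ] ℝ) : Finset E3 := W.filter (fun w => π w = 1)

/-- The triangles on a plane. -/
noncomputable def bp (B : Finset (Finset E3)) (π : E3 →ₗ[ℝ] ℝ) : Finset (Finset E3) :=
  B.filter (fun τ => gfun τ (fun _ => 1) = π)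

theorem mem_vp {π : E3 →ₗ[ℝ] ℝ} {w : E3} : w ∈ vp W π ↔ w ∈ W ∧ π w = 1 := Finset.mem_filter

theorem mem_bp {π : E3 →ₗ[ℝ] ℝ} {τ : Finset E3} :
    τ ∈ bp B π ↔ τ ∈ B ∧ gfun τ (fun _ => 1) = π := Finset.mem_filter

theorem face_cfg (hC : Cfg W) (hF : Fan W B) {π : E3 →ₗ[ℝ] ℝ} (hne : (bp B π).Nonempty) :
    Cfg (vp W π) := by
  obtain ⟨τ, hτ⟩ := hne
  obtain ⟨hτB, hτπ⟩ := mem_bp.mp hτ
  refine ⟨?_, ⟨τ, ?_, hF.nice τ hτB⟩, ?_⟩
  · obtain ⟨l, hl⟩ := hC.ell
    exact ⟨l, fun y hy => hl y (mem_vp.mp hy).1⟩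
  · intro x hx
    rw [mem_vp]
    exact ⟨hF.sub τ hτB hx, by rw [← hτπ]; exact gfun_mem (hF.nice τ hτB) _ hx⟩
  · intro x hx c hc hsum
    have hx' := (mem_vp.mp hx).1
    have hsub : (vp W π).erase x ⊆ W.erase x :=
      Finset.erase_subset_erase _ (Finset.filter_subset _ _)
    have h1 := hC.cvx x hx' (fun z => if z ∈ (vp W π).erase x then c z else 0) (by
      intro y _
      split_ifs with h
      · exact hc y h
      · exact le_rfl) (by
      rw [← Finset.sum_subset hsub]
      · refine Eq.trans ?_ hsum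
        apply Finset.sum_congr rfl
        intro z hz
        rw [if_pos hz]
      · intro z _ hz
        rw [if_neg hz, zero_smul])
    rw [← Finset.sum_subset hsub] at h1
    · rwa [Finset.sum_congr rfl (fun z hz => if_pos hz)] at h1
    · intro z _ hz
      rw [if_neg hz]

theorem face_fan (hF : Fan W B) {π : E3 →ₗ[ℝ] ℝ} (hne : (bp B π).Nonempty) :
    Fan (vp W π) (bp B π) := by
  obtain ⟨τ0, hτ0⟩ := hne
  obtain ⟨hτ0B, hτ0π⟩ := mem_bp.mp hτ0
  have hN0 := hF.nice τ0 hτ0B
  have hπle : ∀ x ∈ W, π x ≤ 1 := by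
    intro x hx
    rw [← hτ0π]
    exact hF.supp τ0 hτ0B x hx
  have hsubV : ∀ τ ∈ bp B π, τ ⊆ vp W π := by
    intro τ hτ x hx
    obtain ⟨h1, h2⟩ := mem_bp.mp hτ
    rw [mem_vp]
    exact ⟨hF.sub τ h1 hx, by rw [← h2]; exact gfun_mem (hF.nice τ h1) _ hx⟩
  refine ⟨hsubV, fun τ hτ => hF.nice τ (mem_bp.mp hτ).1, ?_, ?_, ?_⟩
  · intro τ hτ x hx
    rw [(mem_bp.mp hτ).2]
    exact (mem_vp.mp hx).2.le
  · intro τ hτ τ' hτ' y h1 h2
    exact hF.inter τ (mem_bp.mp hτ).1 τ' (mem_bp.mp hτ').1 y h1 h2
  · intro y hy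
    obtain ⟨z, hz1, hz2⟩ := generic_dir hN0 (B.biUnion (fun τ => τ.image (fun x => crd τ x))) (by
      intro f hf
      obtain ⟨τ, hτ, hf⟩ := Finset.mem_biUnion.mp hf
      obtain ⟨x, hx, rfl⟩ := Finset.mem_image.mp hf
      exact crd_ne_zero_map (hF.nice τ hτ) hx)
    have hzV : z ∈ cone (vp W π) := by
      apply cone_mono (hsubV τ0 hτ0)
      rw [mem_cone_iff_crd hN0]
      exact fun x hx => (hz1 x hx).le
    have hev : ∀ᶠ δ in 𝓝[>] (0 : ℝ), ∀ τ ∈ B, ∀ x ∈ τ, crd τ x y + δ * crd τ x z ≠ 0 := by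
      rw [Filter.eventually_all_finset]
      intro τ hτ
      rw [Filter.eventually_all_finset]
      intro x hx
      exact gen2 (Or.inr (hz2 _ (Finset.mem_biUnion.mpr ⟨τ, hτ, Finset.mem_image_of_mem _ hx⟩)))
    have hpos : ∀ᶠ δ in 𝓝[>] (0 : ℝ), 0 < δ := self_mem_nhdsWithin
    have hfr : ∀ᶠ δ in 𝓝[>] (0 : ℝ), ∃ τ ∈ bp B π, y + δ • z ∈ cone τ := by
      filter_upwards [hev, hpos] with δ hδ hδp
      have hmem : y + δ • z ∈ cone (vp W π) := cone_add hy (cone_smul hδp.le hzV)
      obtain ⟨τ, hτ, hyτ⟩ := hF.cover _ (cone_mono (Finset.filter_subset _ _) hmem)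
      refine ⟨τ, ?_, hyτ⟩
      rw [mem_bp]
      refine ⟨hτ, ?_⟩
      have hN := hF.nice τ hτ
      have hcpos : ∀ x ∈ τ, 0 < crd τ x (y + δ • z) := by
        intro x hx
        refine lt_of_le_of_ne ((mem_cone_iff_crd hN).mp hyτ x hx) ?_
        rw [map_add, map_smul, smul_eq_mul]
        exact (hδ τ hτ x hx).symm
      obtain ⟨c, hc, hcy⟩ := hmem
      have e1 : gfun τ (fun _ => 1) (y + δ • z) ≤ π (y + δ • z) := by
        rw [← hcy, map_sum, map_sum]
        apply Finset.sum_le_sum
        intro w hw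
        rw [map_smul, map_smul, smul_eq_mul, smul_eq_mul, (mem_vp.mp hw).2]
        exact mul_le_mul_of_nonneg_left (hF.supp τ hτ w (mem_vp.mp hw).1) (hc w hw)
      have e2 : gfun τ (fun _ => 1) (y + δ • z) = ∑ x ∈ τ, crd τ x (y + δ • z) := by
        rw [gfun_apply]
        apply Finset.sum_congr rfl
        intro x _
        rw [mul_one]
      have e3 : π (y + δ • z) = ∑ x ∈ τ, crd τ x (y + δ • z) * π x := by
        conv_lhs => rw [← crd_sum hN (y + δ • z)]
        rw [map_sum]
        apply Finset.sum_congr rfl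
        intro x _
        rw [map_smul, smul_eq_mul]
      have e4 : ∑ x ∈ τ, crd τ x (y + δ • z) * (1 - π x) ≤ 0 := by
        have : ∑ x ∈ τ, crd τ x (y + δ • z) * (1 - π x) =
            gfun τ (fun _ => 1) (y + δ • z) - π (y + δ • z) := by
          rw [e2, e3, ← Finset.sum_sub_distrib]
          apply Finset.sum_congr rfl
          intro x _; ring
        linarith
      have e5 : ∀ x ∈ τ, 0 ≤ crd τ x (y + δ • z) * (1 - π x) := fun x hx =>
        mul_nonneg (hcpos x hx).le (by linarith [hπle x (hF.sub τ hτ hx)])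
      have e6 := (Finset.sum_eq_zero_iff_of_nonneg e5).mp
        (le_antisymm e4 (Finset.sum_nonneg e5))
      apply nice_ext hN
      intro x hx
      rw [gfun_mem hN _ hx]
      have := (mul_eq_zero.mp (e6 x hx)).resolve_left (hcpos x hx).ne'
      linarith
    obtain ⟨τ, hτ, hyτ, _⟩ := cone_limit (fun τ hτ => hF.nice τ (mem_bp.mp hτ).1) hfr.frequently
    exact ⟨τ, hτ, hyτ⟩

/-- Ordered pairs with two triangles. -/
noncomputable def dp (W : Finset E3) (Q : Finset (Finset E3)) : Finset (E3 × E3) :=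
  (W ×ˢ W).filter (fun e => e.1 ≠ e.2 ∧ cnt Q e.1 e.2 = 2)

/-- Growing a connected region triangle by triangle. -/
theorem Fan.grow (hF : Fan W B) : ∀ k : ℕ, k + 1 ≤ B.card →
    ∃ Q, Q ⊆ B ∧ Q.card = k + 1 ∧ (Q.biUnion id).card ≤ k + 3 ∧ 2 * k ≤ (dp W Q).card := by
  intro k
  induction k with
  | zero =>
    intro hB
    obtain ⟨τ, hτ⟩ := Finset.card_pos.mp (by omega : 0 < B.card)
    refine ⟨{τ}, Finset.singleton_subset_iff.mpr hτ, by simp, ?_, by omega⟩
    rw [Finset.singleton_biUnion, id, (hF.nice τ hτ).1]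
  | succ k ih =>
    intro hB
    obtain ⟨Q, hQ, hQc, hQv, hQd⟩ := ih (by omega)
    have hne : Q.Nonempty := Finset.card_pos.mp (by omega)
    have hne' : (B \ Q).Nonempty := by
      rw [← Finset.card_pos, Finset.card_sdiff_of_subset hQ]
      omega
    obtain ⟨p, q, r, s, hpq, hrs, h1, h2⟩ := hF.connected hQ hne hne'
    obtain ⟨h2B, h2Q⟩ := Finset.mem_sdiff.mp h2
    refine ⟨insert {p, q, s} Q, ?_, ?_, ?_, ?_⟩
    · intro τ hτ
      rcases Finset.mem_insert.mp hτ with rfl | h
      · exact h2B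
      · exact hQ h
    · rw [Finset.card_insert_of_notMem h2Q, hQc]
    · have hsub : (insert {p, q, s} Q).biUnion id ⊆ insert s (Q.biUnion id) := by
        intro z hz
        obtain ⟨τ, hτ, hzτ⟩ := Finset.mem_biUnion.mp hz
        rcases Finset.mem_insert.mp hτ with rfl | h
        · simp only [id, Finset.mem_insert, Finset.mem_singleton] at hzτ
          rcases hzτ with rfl | rfl | rfl
          · exact Finset.mem_insert_of_mem (Finset.mem_biUnion.mpr ⟨_, h1, by simp⟩)
          · exact Finset.mem_insert_of_mem (Finset.mem_biUnion.mpr ⟨_, h1, by simp⟩)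
          · exact Finset.mem_insert_self _ _
        · exact Finset.mem_insert_of_mem (Finset.mem_biUnion.mpr ⟨τ, h, hzτ⟩)
      have := Finset.card_le_card hsub
      have := Finset.card_insert_le s (Q.biUnion id)
      omega
    · have hpW : p ∈ W := hF.sub _ (hQ h1) (by simp)
      have hqW : q ∈ W := hF.sub _ (hQ h1) (by simp)
      have hins : insert {p, q, s} Q ⊆ B := by
        intro τ hτ
        rcases Finset.mem_insert.mp hτ with rfl | h
        · exact h2B
        · exact hQ h
      have c1 := hF.cnt_boundary hQ hrs h1 h2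
      have c2 : 2 ≤ cnt (insert {p, q, s} Q) p q := by
        unfold cnt
        rw [show (2 : ℕ) = ({({p, q, r} : Finset E3), {p, q, s}} : Finset (Finset E3)).card from ?_]
        · apply Finset.card_le_card
          intro σ hσ
          rw [Finset.mem_insert, Finset.mem_singleton] at hσ
          rw [Finset.mem_filter]
          rcases hσ with rfl | rfl
          · exact ⟨Finset.mem_insert_of_mem h1, by simp, by simp⟩
          · exact ⟨Finset.mem_insert_self _ _, by simp, by simp⟩
        · symm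
          apply Finset.card_pair
          intro heq
          rw [heq] at h1
          exact h2Q h1
      have c3 : cnt (insert {p, q, s} Q) p q = 2 :=
        le_antisymm ((cnt_mono hins p q).trans (hF.cnt_le hpq)) c2
      have hsub : insert (p, q) (insert (q, p) (dp W Q)) ⊆ dp W (insert {p, q, s} Q) := by
        intro e he
        rw [Finset.mem_insert, Finset.mem_insert] at he
        unfold dp
        rw [Finset.mem_filter, Finset.mem_product]
        rcases he with rfl | rfl | he
        · exact ⟨⟨hpW, hqW⟩, hpq, c3⟩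
        · exact ⟨⟨hqW, hpW⟩, hpq.symm, by rw [cnt_comm]; exact c3⟩
        · obtain ⟨g1, g2, g3⟩ := Finset.mem_filter.mp he
          refine ⟨Finset.mem_product.mp g1, g2, ?_⟩
          apply le_antisymm ((cnt_mono hins _ _).trans (hF.cnt_le g2))
          rw [← g3]
          exact cnt_mono (Finset.subset_insert _ _) _ _
      have n1 : (q, p) ∉ dp W Q := by
        intro hm
        have := (Finset.mem_filter.mp hm).2.2
        rw [cnt_comm, c1] at this
        omega
      have n2 : (p, q) ∉ insert (q, p) (dp W Q) := by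
        rw [Finset.mem_insert]
        rintro (h | hm)
        · exact hpq (Prod.ext_iff.mp h).1
        · have := (Finset.mem_filter.mp hm).2.2
          rw [c1] at this
          omega
      have := Finset.card_le_card hsub
      rw [Finset.card_insert_of_notMem n2, Finset.card_insert_of_notMem n1] at this
      omega

/-- The size of a triangulated polygon or disk. -/
theorem Fan.size (hC : Cfg W) (hF : Fan W B) :
    W.card ≤ B.card + 2 ∧ 2 * (B.card - 1) ≤ (dp W B).card := by
  have hpos : 0 < B.card := by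
    obtain ⟨A, hA, hAn⟩ := hC.full
    obtain ⟨x, hx⟩ := Finset.card_pos.mp (by rw [hAn.1]; norm_num : 0 < A.card)
    obtain ⟨τ, hτ, _⟩ := hF.exists_mem hC (hA hx)
    exact Finset.card_pos.mpr ⟨τ, hτ⟩
  obtain ⟨Q, h1, h2, h3, h4⟩ := hF.grow (B.card - 1) (by omega)
  have hQ : Q = B := Finset.eq_of_subset_of_card_le h1 (by omega)
  rw [hQ] at h3 h4
  refine ⟨?_, h4⟩
  have hsub : W ⊆ B.biUnion id := by
    intro x hx
    obtain ⟨τ, hτ, hxτ⟩ := hF.exists_mem hC hx
    exact Finset.mem_biUnion.mpr ⟨τ, hτ, hxτ⟩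
  have := Finset.card_le_card hsub
  omega

/-- Two coplanar triangles do not share an edge of the polytope. -/
theorem Fan.not_edge (hC : Cfg W) (hF : Fan W B) {p q r s : E3}
    (h1 : ({p, q, r} : Finset E3) ∈ B) (h2 : ({p, q, s} : Finset E3) ∈ B) (hrs : r ≠ s)
    (hcop : gfun {p, q, r} (fun _ => 1) s = 1) : ¬ IsEdge0 W p q := by
  rintro ⟨hpq, f, f1, f2, f3⟩
  obtain ⟨α, β, γ, hα, hβ, hγ, hs⟩ := hF.flip_rel hC h1 h2 hrs hcop
  have hN := hF.nice _ h1
  have hN2 := hF.nice _ h2
  obtain ⟨_, hpr, hqr⟩ := hN.distinct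
  obtain ⟨_, hps, hqs⟩ := hN2.distinct
  have g := hcop
  rw [hs, map_sub, map_add, map_smul, map_smul, map_smul, gfun_mem hN _ (by simp),
    gfun_mem hN _ (by simp), gfun_mem hN _ (by simp)] at g
  simp only [smul_eq_mul, mul_one] at g
  have k := congrArg f hs
  rw [map_sub, map_add, map_smul, map_smul, map_smul, f1, f2] at k
  simp only [smul_eq_mul, mul_one] at k
  have l1 := f3 r (hF.sub _ h1 (by simp)) hpr.symm hqr.symm
  have l2 := f3 s (hF.sub _ h2 (by simp)) hps.symm hqs.symm
  have := mul_lt_mul_of_pos_left l1 hγ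
  linarith

/-- A side of a facet is an edge. -/
theorem Fan.edge_of_face (hC : Cfg W) (hF : Fan W B) {π : E3 →ₗ[ℝ] ℝ} {p q : E3} (hpq : p ≠ q)
    (hcnt : cnt (bp B π) p q = 1) : IsEdge0 W p q := by
  have hpos : 0 < ((bp B π).filter (fun τ => p ∈ τ ∧ q ∈ τ)).card := by
    have : cnt (bp B π) p q = ((bp B π).filter (fun τ => p ∈ τ ∧ q ∈ τ)).card := rfl
    omega
  obtain ⟨τ, hτ⟩ := Finset.card_pos.mp hpos
  rw [Finset.mem_filter] at hτ
  obtain ⟨hτ1, hτ2, hτ3⟩ := hτ
  obtain ⟨hτB, hτπ⟩ := mem_bp.mp hτ1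
  obtain ⟨r, hr1, hr2, rfl⟩ := third (hF.nice τ hτB).1 hτ2 hτ3 hpq
  have hN := hF.nice _ hτB
  by_cases hin : Inner W (p + q)
  · obtain ⟨s, hrs, hs⟩ := hF.exists_other hτB hin
    apply hF.ridge hC hτB hs
    intro hcop
    have hN2 := hF.nice _ hs
    have gp : gfun {p, q, r} (fun _ => 1) p = 1 := gfun_mem hN _ (by simp)
    have gq : gfun {p, q, r} (fun _ => 1) q = 1 := gfun_mem hN _ (by simp)
    have heq : gfun {p, q, s} (fun _ => 1) = π := by
      rw [← hτπ]
      apply nice_ext hN2
      intro x hx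
      rw [gfun_mem hN2 _ hx]
      simp only [Finset.mem_insert, Finset.mem_singleton] at hx
      rcases hx with h | h | h
      · rw [h]; exact gp.symm
      · rw [h]; exact gq.symm
      · rw [h]; exact hcop.symm
    have h2 : 2 ≤ cnt (bp B π) p q := by
      unfold cnt
      rw [show (2 : ℕ) = ({({p, q, r} : Finset E3), {p, q, s}} : Finset (Finset E3)).card from ?_]
      · apply Finset.card_le_card
        intro σ hσ
        rw [Finset.mem_insert, Finset.mem_singleton] at hσ
        rw [Finset.mem_filter]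
        rcases hσ with rfl | rfl
        · exact ⟨hτ1, by simp, by simp⟩
        · exact ⟨mem_bp.mpr ⟨hs, heq⟩, by simp, by simp⟩
      · symm
        apply Finset.card_pair
        intro heq
        have : r ∈ ({p, q, s} : Finset E3) := by rw [← heq]; simp
        simp only [Finset.mem_insert, Finset.mem_singleton] at this
        rcases this with h | h | h
        · exact hr1 h
        · exact hr2 h
        · exact hrs h
    omega
  · have hpW : p ∈ W := hF.sub _ hτB (by simp)
    have hqW : q ∈ W := hF.sub _ hτB (by simp)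
    obtain ⟨f, f0, f1, f2⟩ := exists_support hC
      (cone_add (mem_cone_self hpW) (mem_cone_self hqW)) hin
    rw [map_add] at f2
    have g1 := f1 p hpW
    have g2 := f1 q hqW
    have fp : f p = 0 := by linarith
    have fq : f q = 0 := by linarith
    have fr : f r ≠ 0 := by
      intro h0
      apply f0
      apply nice_ext hN
      intro x hx
      simp only [Finset.mem_insert, Finset.mem_singleton] at hx
      rcases hx with rfl | rfl | rfl
      · rw [fp]; rfl
      · rw [fq]; rfl
      · rw [h0]; rfl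
    set g := gfun {p, q, r} (fun _ => 1) with hg
    have gp : g p = 1 := gfun_mem hN _ (by simp)
    have gq : g q = 1 := gfun_mem hN _ (by simp)
    refine ⟨hpq, g - f, by simp [gp, fp], by simp [gq, fq], ?_⟩
    intro x hx hxp hxq
    have u1 := hF.supp _ hτB x hx
    have u2 := f1 x hx
    show g x - f x < 1
    by_contra hcon
    push Not at hcon
    have v1 : g x = 1 := by linarith
    have v2 : f x = 0 := by linarith
    have e := crd_sum3 hN x
    have k1 := congrArg f e
    rw [map_add, map_add, map_smul, map_smul, map_smul, fp, fq, v2] at k1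
    simp only [smul_eq_mul, mul_zero, zero_add] at k1
    have k2 := (mul_eq_zero.mp k1).resolve_right fr
    have k3 := congrArg g e
    rw [map_add, map_add, map_smul, map_smul, map_smul, gp, gq, v1, k2] at k3
    simp only [smul_eq_mul, mul_one, zero_mul, add_zero] at k3
    rw [k2, zero_smul, add_zero] at e
    exact hC.line hpW hqW hx hpq hxp hxq k3 e.symm

end

end Run7.h169
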