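import Pool.Agent.Run7.h169.Facet
import Pool.Agent.Run7.h169.Nbr

set_option autoImplicit false
open scoped Classical Topology
open Filter

namespace Run7.h169

section

variable {W : Finset E3} {B : Finset (Finset E3)}

/-- In a flat fan every vertex has exactly two boundary neighbours. -/
theorem flat_boundary (hC : Cfg W) (hF : Fan W B) {π : E3 →ₗ[ℝ] ℝ} (hflat : ∀ w ∈ W, π w = 1)
    {w : E3} (hw : w ∈ W) : (W.filter (fun x => x ≠ w ∧ cnt B w x = 1)).card = 2 := by
  have hB3 : ∀ τ ∈ B, τ ⊆ W ∧ τ.card = 3 := fun τ hτ => ⟨hF.sub τ hτ, (hF.nice τ hτ).1⟩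
  apply le_antisymm (hF.boundary_le_two hC hw)
  -- one boundary neighbour
  have hone : ∃ u ∈ W.erase w, cnt B w u = 1 := by
    by_contra hcon
    push Not at hcon
    obtain ⟨l, hl⟩ := hC.ell
    have hwn : w ∉ cone (W.erase w) := by
      rintro ⟨c, hc, hsum⟩
      have h1 := hC.cvx w hw c hc hsum
      have h2 := congrArg π hsum
      rw [map_sum, hflat w hw] at h2
      have h3 : ∑ x ∈ W.erase w, π (c x • x) = ∑ x ∈ W.erase w, c x := by
        apply Finset.sum_congr rfl
        intro x hx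
        rw [map_smul, smul_eq_mul, hflat x (Finset.mem_of_mem_erase hx), mul_one]
      rw [h3] at h2
      linarith
    obtain ⟨g, gw, gpos⟩ := sep_ray (l := l) (fun k hk => hl k (Finset.mem_of_mem_erase hk))
      (hl w hw) hwn
    obtain ⟨τ0, hτ0, hwτ0⟩ := hF.exists_mem hC hw
    obtain ⟨u0, hu0, hu0w⟩ : ∃ u0 ∈ τ0, u0 ≠ w := by
      have : 1 < τ0.card := by rw [(hF.nice τ0 hτ0).1]; norm_num
      obtain ⟨a, ha, b, hb, hab⟩ := Finset.one_lt_card.mp this
      by_cases h : a = w
      · exact ⟨b, hb, fun hh => hab (h.trans hh.symm)⟩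
      · exact ⟨a, ha, h⟩
    obtain ⟨k, k0, kw, ku0⟩ := exists_functional w u0
    have hu0W : u0 ∈ W := hF.sub τ0 hτ0 hu0
    set L := (W.erase w).filter (fun u => 0 < cnt B w u) with hL
    have hLmem : ∀ {u : E3} {τ : Finset E3}, τ ∈ B → w ∈ τ → u ∈ τ → u ≠ w → u ∈ L := by
      intro u τ hτ h1 h2 h3
      exact Finset.mem_filter.mpr ⟨Finset.mem_erase.mpr ⟨h3, hF.sub τ hτ h2⟩, cnt_pos hτ h1 h2⟩
    obtain ⟨u, huL, hmin⟩ := Finset.exists_min_image L (fun u => k u / g u)
      ⟨u0, hLmem hτ0 hwτ0 hu0 hu0w⟩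
    obtain ⟨hu1, hu2⟩ := Finset.mem_filter.mp huL
    obtain ⟨huw, huW⟩ := Finset.mem_erase.mp hu1
    have hcnt2 : cnt B w u = 2 := by
      have h1 := hcon u hu1
      have h2 := hF.cnt_le huw.symm
      omega
    obtain ⟨τ1, τ2, h12, hset⟩ := Finset.card_eq_two.mp hcnt2
    have hτ1 : τ1 ∈ B.filter (fun τ => w ∈ τ ∧ u ∈ τ) := by rw [hset]; simp
    have hτ2 : τ2 ∈ B.filter (fun τ => w ∈ τ ∧ u ∈ τ) := by rw [hset]; simp
    rw [Finset.mem_filter] at hτ1 hτ2
    obtain ⟨r, hrw, hru, e1⟩ := third (hF.nice τ1 hτ1.1).1 hτ1.2.1 hτ1.2.2 huw.symm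
    obtain ⟨s, hsw, hsu, e2⟩ := third (hF.nice τ2 hτ2.1).1 hτ2.2.1 hτ2.2.2 huw.symm
    have hrs : r ≠ s := by
      rintro rfl; exact h12 (e1.trans e2.symm)
    have hrL : r ∈ L := hLmem hτ1.1 hτ1.2.1 (by rw [e1]; simp) hrw
    have hsL : s ∈ L := hLmem hτ2.1 hτ2.2.1 (by rw [e2]; simp) hsw
    have b1 : ({w, u, r} : Finset E3) ∈ B := e1 ▸ hτ1.1
    have b2 : ({w, u, s} : Finset E3) ∈ B := e2 ▸ hτ2.1
    have hN := hF.nice _ b1
    have hγ := hF.side_neg b1 b2 hrs
    have e := crd_sum3 hN s
    set a := crd {w, u, r} w s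
    set b := crd {w, u, r} u s
    set γ := crd {w, u, r} r s
    have gL : ∀ x ∈ L, 0 < g x := fun x hx => gpos x (Finset.mem_filter.mp hx).1
    have gu := gL u huL
    have gr := gL r hrL
    have gs := gL s hsL
    set σ := k u / g u with hσ
    have ku : k u = σ * g u := by rw [hσ]; field_simp
    have kr : σ * g r ≤ k r := by
      have := hmin r hrL
      rwa [le_div_iff₀ gr] at this
    have ks : σ * g s ≤ k s := by
      have := hmin s hsL
      rwa [le_div_iff₀ gs] at this
    have eg := congrArg g e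
    have ek := congrArg k e
    simp only [map_add, map_smul, gw, kw, smul_eq_mul, mul_zero, zero_add] at eg ek
    have kr' : k r = σ * g r := by
      have h1 : γ * k r ≥ γ * (σ * g r) := by
        have h2 : b * k u + γ * k r ≥ σ * (b * g u + γ * g r) := by rw [ek, eg]; exact ks
        rw [ku] at h2
        nlinarith
      have h3 : k r ≤ σ * g r := by
        by_contra hlt
        push Not at hlt
        have := mul_lt_mul_of_neg_left hlt hγ
        linarith
      exact le_antisymm h3 kr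
    have hk : k = σ • g := by
      apply nice_ext hN
      intro x hx
      simp only [Finset.mem_insert, Finset.mem_singleton] at hx
      rw [LinearMap.smul_apply, smul_eq_mul]
      rcases hx with h | h | h
      · rw [h, kw, gw, mul_zero]
      · rw [h, ku]
      · rw [h, kr']
    have hσ0 : σ = 0 := by
      have h1 : σ * g u0 = 0 := by
        rw [← ku0, hk, LinearMap.smul_apply, smul_eq_mul]
      exact (mul_eq_zero.mp h1).resolve_right
        (gpos u0 (Finset.mem_erase.mpr ⟨hu0w, hu0W⟩)).ne'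
    apply k0
    rw [hk, hσ0, zero_smul]
  obtain ⟨u, hu, hcu⟩ := hone
  obtain ⟨u', hu', hne, hcu'⟩ := exists_second B hB3 hu hcu
    (fun x hx => hF.cnt_le (Ne.symm (Finset.mem_erase.mp hx).1))
  rw [show (2 : ℕ) = ({u, u'} : Finset E3).card from (Finset.card_pair hne.symm).symm]
  apply Finset.card_le_card
  intro z hz
  rw [Finset.mem_insert, Finset.mem_singleton] at hz
  rw [Finset.mem_filter]
  rcases hz with h | h
  · rw [h]; exact ⟨(Finset.mem_erase.mp hu).2, (Finset.mem_erase.mp hu).1, hcu⟩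
  · rw [h]; exact ⟨(Finset.mem_erase.mp hu').2, (Finset.mem_erase.mp hu').1, hcu'⟩

/-- Facets of a polytope with bipartite graph have an even number of vertices. -/
theorem face_even (hC : Cfg W) (hF : Fan W B) {c : E3 → Bool}
    (hbip : ∀ p ∈ W, ∀ q ∈ W, IsEdge0 W p q → c p ≠ c q) {π : E3 →ₗ[ℝ] ℝ}
    (hne : (bp B π).Nonempty) : Even (vp W π).card := by
  set V := vp W π with hV
  set Q := bp B π with hQ
  have hCV := face_cfg hC hF hne
  have hFV : Fan V Q := face_fan hF hne
  have hflat : ∀ w ∈ V, π w = 1 := fun w hw => (mem_vp.mp hw).2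
  have hcount : ∀ b : Bool, ∀ w ∈ V, c w = b →
      ((V.filter (fun x => c x = !b)).filter (fun x => cnt Q w x = 1)).card = 2 := by
    intro b w hw hcw
    rw [← flat_boundary hCV hFV hflat hw]
    congr 1
    ext x
    simp only [Finset.mem_filter]
    constructor
    · rintro ⟨⟨h1, h2⟩, h3⟩
      refine ⟨h1, ?_, h3⟩
      rintro rfl
      rw [hcw] at h2
      cases b <;> simp at h2
    · rintro ⟨h1, h2, h3⟩
      refine ⟨⟨h1, ?_⟩, h3⟩
      have := hbip w (mem_vp.mp hw).1 x (mem_vp.mp h1).1 (hF.edge_of_face hC h2.symm h3)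
      rw [hcw] at this
      revert this
      cases b <;> cases c x <;> simp
  have hsum : ∀ b : Bool, ∑ w ∈ V.filter (fun x => c x = b), ∑ x ∈ V.filter (fun x => c x = !b),
      (if cnt Q w x = 1 then 1 else 0) = 2 * (V.filter (fun x => c x = b)).card := by
    intro b
    rw [Finset.sum_congr rfl (g := fun _ => 2)]
    · rw [Finset.sum_const, smul_eq_mul, mul_comm]
    · intro w hw
      rw [Finset.mem_filter] at hw
      rw [← Finset.card_filter]
      exact hcount b w hw.1 hw.2
  have h1 := hsum true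
  have h2 := hsum false
  rw [Bool.not_true] at h1
  rw [Bool.not_false, Finset.sum_comm] at h2
  have h3 : ∑ y ∈ V.filter (fun x => c x = true), ∑ x ∈ V.filter (fun x => c x = false),
      (if cnt Q x y = 1 then 1 else 0) = ∑ w ∈ V.filter (fun x => c x = true),
      ∑ x ∈ V.filter (fun x => c x = false), (if cnt Q w x = 1 then 1 else 0) := by
    apply Finset.sum_congr rfl
    intro y _
    apply Finset.sum_congr rfl
    intro x _
    rw [cnt_comm]
  rw [h3, h1] at h2
  have h4 : V.card = (V.filter (fun x => c x = true)).card +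
      (V.filter (fun x => c x = false)).card := by
    rw [← Finset.card_filter_add_card_filter_not (s := V) (fun x => c x = true)]
    congr 2
    apply Finset.filter_congr
    intro x _
    cases c x <;> simp
  rw [h4]
  have : (V.filter (fun x => c x = true)).card = (V.filter (fun x => c x = false)).card := by
    omega
  rw [this]
  exact ⟨_, rfl⟩

/-- The planes of the facets. -/
noncomputable def planes (B : Finset (Finset E3)) : Finset (E3 →ₗ[ℝ] ℝ) :=
  B.image (fun τ => gfun τ (fun _ => 1))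

theorem exists_ker2 (f g : E3 →ₗ[ℝ] ℝ) : ∃ d : E3, d ≠ 0 ∧ f d = 0 ∧ g d = 0 := by
  have h : LinearMap.ker (f.prod g) ≠ ⊥ := by
    apply LinearMap.ker_ne_bot_of_finrank_lt
    simp
  obtain ⟨d, hd, hd0⟩ := Submodule.exists_mem_ne_zero_of_ne_bot h
  have h1 : (f d, g d) = ((0, 0) : ℝ × ℝ) := LinearMap.mem_ker.mp hd
  rw [Prod.mk.injEq] at h1
  exact ⟨d, hd0, h1.1, h1.2⟩

/-- An inner vertex is in at least three facets. -/
theorem Fan.three_planes (hC : Cfg W) (hF : Fan W B) {z : E3} (hz : z ∈ W) (hin : Inner W z) :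
    3 ≤ ((planes B).filter (fun π => π z = 1)).card := by
  by_contra hlt
  push Not at hlt
  set P := (planes B).filter (fun π => π z = 1) with hP
  have hex : ∃ f g : E3 →ₗ[ℝ] ℝ, ∀ π ∈ P, π = f ∨ π = g := by
    rcases Nat.lt_or_ge P.card 2 with h1 | h1
    · have h2 : P.card ≤ 1 := by omega
      by_cases hne : P.Nonempty
      · obtain ⟨f, hf⟩ := hne
        exact ⟨f, f, fun π hπ => Or.inl (Finset.card_le_one.mp h2 π hπ f hf)⟩
      · rw [Finset.not_nonempty_iff_eq_empty] at hne
        exact ⟨0, 0, fun π hπ => by rw [hne] at hπ; exact absurd hπ (Finset.notMem_empty _)⟩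
    · have h2 : P.card = 2 := by omega
      obtain ⟨f, g, _, h3⟩ := Finset.card_eq_two.mp h2
      refine ⟨f, g, fun π hπ => ?_⟩
      rw [h3] at hπ
      simpa using hπ
  obtain ⟨f, g, hfg⟩ := hex
  obtain ⟨d, d0, hfd, hgd⟩ := exists_ker2 f g
  obtain ⟨h, hh⟩ := hC.expose hz
  have hpos : ∀ᶠ δ in 𝓝[>] (0 : ℝ), 0 < δ := self_mem_nhdsWithin
  -- a small step in a direction of the common kernel
  have key : ∀ e : E3, f e = 0 → g e = 0 → ∃ δ : ℝ, 0 < δ ∧ h (z + δ • e) ≤ h z ∧
      (h (z + δ • e) = h z → e = 0) := by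
    intro e fe ge
    have hev : ∀ᶠ δ in 𝓝[>] (0 : ℝ), ∃ τ ∈ B, z + δ • e ∈ cone τ := by
      filter_upwards [hin e] with δ hδ
      exact hF.cover _ hδ
    obtain ⟨τ, hτ, hzτ, hfr⟩ := cone_limit hF.nice hev.frequently
    have hN := hF.nice τ hτ
    have hzm := hF.vertex_mem hC hτ hz hzτ
    have hπz : gfun τ (fun _ => 1) z = 1 := gfun_mem hN _ hzm
    have hπ : gfun τ (fun _ => 1) ∈ P :=
      Finset.mem_filter.mpr ⟨Finset.mem_image_of_mem _ hτ, hπz⟩
    have hπe : gfun τ (fun _ => 1) e = 0 := by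
      rcases hfg _ hπ with h1 | h1 <;> rw [h1] <;> assumption
    obtain ⟨δ, hδ1, hδ2⟩ := (hfr.and_eventually hpos).exists
    have hc := (mem_cone_iff_crd hN).mp hδ1
    have hsum : ∑ x ∈ τ, crd τ x (z + δ • e) = 1 := by
      have : gfun τ (fun _ => 1) (z + δ • e) = 1 := by
        rw [map_add, map_smul, hπz, hπe, smul_zero, add_zero]
      rw [gfun_apply] at this
      simpa using this
    have hval : h (z + δ • e) = ∑ x ∈ τ, crd τ x (z + δ • e) * h x := by
      conv_lhs => rw [← crd_sum hN (z + δ • e)]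
      rw [map_sum]
      apply Finset.sum_congr rfl
      intro x _
      rw [map_smul, smul_eq_mul]
    have hz1 : h z = ∑ x ∈ τ, crd τ x (z + δ • e) * h z := by
      rw [← Finset.sum_mul, hsum, one_mul]
    have hle : ∀ x ∈ τ, crd τ x (z + δ • e) * h x ≤ crd τ x (z + δ • e) * h z := by
      intro x hx
      apply mul_le_mul_of_nonneg_left _ (hc x hx)
      by_cases hxz : x = z
      · rw [hxz]
      · exact (hh x (hF.sub τ hτ hx) hxz).le
    refine ⟨δ, hδ2, ?_, ?_⟩
    · rw [hval, hz1]
      exact Finset.sum_le_sum hle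
    · intro heq
      rw [hval, hz1] at heq
      have hall := (Finset.sum_eq_sum_iff_of_le hle).mp heq
      have hzero : ∀ x ∈ τ, x ≠ z → crd τ x (z + δ • e) = 0 := by
        intro x hx hxz
        have h1 := hall x hx
        have h2 := hh x (hF.sub τ hτ hx) hxz
        have h3 : crd τ x (z + δ • e) * (h x - h z) = 0 := by linarith
        exact (mul_eq_zero.mp h3).resolve_right (by linarith)
      have h4 : z + δ • e = crd τ z (z + δ • e) • z := by
        conv_lhs => rw [← crd_sum hN (z + δ • e)]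
        rw [Finset.sum_eq_single z]
        · intro x hx hxz
          rw [hzero x hx hxz, zero_smul]
        · intro hn; exact absurd hzm hn
      have h5 : crd τ z (z + δ • e) = 1 := by
        rw [← hsum, Finset.sum_eq_single z]
        · intro x hx hxz; exact hzero x hx hxz
        · intro hn; exact absurd hzm hn
      rw [h5, one_smul] at h4
      have h6 : δ • e = 0 := by simpa using h4
      exact (smul_eq_zero.mp h6).resolve_left hδ2.ne'
  obtain ⟨δ1, p1, q1, r1⟩ := key d hfd hgd
  obtain ⟨δ2, p2, q2, r2⟩ := key (-d) (by rw [map_neg, hfd, neg_zero])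
    (by rw [map_neg, hgd, neg_zero])
  rw [map_add, map_smul, smul_eq_mul] at q1 r1
  rw [map_add, map_smul, map_neg, smul_eq_mul] at q2
  have h1 : h d ≤ 0 := by
    by_contra hcon
    push Not at hcon
    have := mul_pos p1 hcon
    linarith
  have h2 : 0 ≤ h d := by
    by_contra hcon
    push Not at hcon
    have := mul_pos p2 (neg_pos.mpr hcon)
    linarith
  exact d0 (r1 (by rw [le_antisymm h1 h2, mul_zero, add_zero]))

end

end Run7.h169
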