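import Pool.Agent.Run7.h169.Gen

set_option autoImplicit false
open scoped Classical Topology
open Filter

namespace Run7.h169

/-- A configuration of vectors: the vertices of a polytope seen from one of its vertices, which
is placed at the origin. -/
structure Cfg (W : Finset E3) : Prop where
  ell : ∃ l : E3 →ₗ[ℝ] ℝ, ∀ y ∈ W, 0 < l y
  full : ∃ A, A ⊆ W ∧ Nice A
  cvx : ∀ x ∈ W, ∀ c : E3 → ℝ, (∀ y ∈ W.erase x, 0 ≤ c y) →
    ∑ y ∈ W.erase x, c y • y = x → 1 < ∑ y ∈ W.erase x, c y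

/-- A fan of nice cones refining the faces of the polytope not through the origin. -/
structure Fan (W : Finset E3) (B : Finset (Finset E3)) : Prop where
  sub : ∀ τ ∈ B, τ ⊆ W
  nice : ∀ τ ∈ B, Nice τ
  supp : ∀ τ ∈ B, ∀ x ∈ W, gfun τ (fun _ => 1) x ≤ 1
  inter : ∀ τ ∈ B, ∀ τ' ∈ B, ∀ y, y ∈ cone τ → y ∈ cone τ' → y ∈ cone (τ ∩ τ')
  cover : ∀ y ∈ cone W, ∃ τ ∈ B, y ∈ cone τ

/-- Any nonzero-sum-free linear dependence allows to shorten a conic combination. -/
theorem cone_shorten {σ : Finset E3} {c : E3 → ℝ} (hc : ∀ x ∈ σ, 0 ≤ c x)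
    (hdep : ¬ LinearIndepOn ℝ id (σ : Set E3)) :
    ∃ x0 ∈ σ, ∃ c' : E3 → ℝ, (∀ x ∈ σ.erase x0, 0 ≤ c' x) ∧
      ∑ x ∈ σ.erase x0, c' x • x = ∑ x ∈ σ, c x • x := by
  rw [linearIndepOn_finset_iff] at hdep
  push Not at hdep
  obtain ⟨d0, hd0, x2, hx2, hx2d⟩ := hdep
  -- choose a sign so that some coefficient is positive
  obtain ⟨d, hd, x3, hx3, hx3d⟩ : ∃ d : E3 → ℝ, ∑ x ∈ σ, d x • x = 0 ∧ ∃ x3 ∈ σ, 0 < d x3 := by
    rcases lt_or_gt_of_ne hx2d with h | h
    · refine ⟨fun x => - d0 x, ?_, x2, hx2, by simpa using h⟩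
      simp only [neg_smul, Finset.sum_neg_distrib, neg_eq_zero]
      simpa using hd0
    · exact ⟨d0, by simpa using hd0, x2, hx2, h⟩
  obtain ⟨x1, hx1, hmin⟩ := Finset.exists_min_image (σ.filter (fun x => 0 < d x))
    (fun x => c x / d x) ⟨x3, Finset.mem_filter.mpr ⟨hx3, hx3d⟩⟩
  rw [Finset.mem_filter] at hx1
  obtain ⟨hx1σ, hd1⟩ := hx1
  set t := c x1 / d x1 with ht
  have htn : 0 ≤ t := div_nonneg (hc x1 hx1σ) hd1.le
  refine ⟨x1, hx1σ, fun x => c x - t * d x, ?_, ?_⟩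
  · intro x hx
    have hxσ := Finset.mem_of_mem_erase hx
    by_cases hdx : 0 < d x
    · have h5 : t ≤ c x / d x := hmin x (Finset.mem_filter.mpr ⟨hxσ, hdx⟩)
      rw [le_div_iff₀ hdx] at h5
      show 0 ≤ c x - t * d x
      linarith
    · push Not at hdx
      have := hc x hxσ
      show 0 ≤ c x - t * d x
      nlinarith
  · have e0 : (c x1 - t * d x1) = 0 := by rw [ht]; field_simp; ring
    have e1 : ∑ x ∈ σ.erase x1, (c x - t * d x) • x = ∑ x ∈ σ, (c x - t * d x) • x := by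
      rw [← Finset.add_sum_erase σ _ hx1σ, e0, zero_smul, zero_add]
    rw [e1]
    have e2 : ∑ x ∈ σ, (c x - t * d x) • x = ∑ x ∈ σ, c x • x - t • ∑ x ∈ σ, d x • x := by
      rw [Finset.smul_sum, ← Finset.sum_sub_distrib]
      apply Finset.sum_congr rfl
      intro x _
      rw [sub_smul, mul_smul]
    rw [e2, hd, smul_zero, sub_zero]

/-- Caratheodory for cones, first half. -/
theorem cone_carath (n : ℕ) : ∀ σ : Finset E3, σ.card = n → ∀ y ∈ cone σ,
    ∃ σ', σ' ⊆ σ ∧ LinearIndepOn ℝ id (σ' : Set E3) ∧ y ∈ cone σ' := by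
  induction n with
  | zero =>
    intro σ hσ y hy
    rw [Finset.card_eq_zero] at hσ
    subst hσ
    exact ⟨∅, subset_rfl, by simp, hy⟩
  | succ n ih =>
    intro σ hσ y hy
    by_cases hli : LinearIndepOn ℝ id (σ : Set E3)
    · exact ⟨σ, subset_rfl, hli, hy⟩
    · obtain ⟨c, hc, rfl⟩ := hy
      obtain ⟨x0, hx0, c', hc', hs⟩ := cone_shorten hc hli
      obtain ⟨σ', h1, h2, h3⟩ := ih (σ.erase x0) (by
        rw [Finset.card_erase_of_mem hx0, hσ]; rfl) _ ⟨c', hc', rfl⟩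
      rw [hs] at h3
      exact ⟨σ', h1.trans (Finset.erase_subset _ _), h2, h3⟩

/-- A linearly independent subset of a spanning set extends to a nice set. -/
theorem extend_nice {W A σ : Finset E3} (hA : A ⊆ W) (hAn : Nice A) (hσ : σ ⊆ W)
    (hli : LinearIndepOn ℝ id (σ : Set E3)) : ∃ τ, σ ⊆ τ ∧ τ ⊆ W ∧ Nice τ := by
  obtain ⟨b, hb1, hb2, hb3, hb4⟩ := exists_linearIndepOn_extension hli
    (show (σ : Set E3) ⊆ (W : Set E3) from by exact_mod_cast hσ)
  have hfin : b.Finite := W.finite_toSet.subset hb1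
  refine ⟨hfin.toFinset, ?_, ?_, ?_, ?_⟩
  · intro x hx
    rw [Set.Finite.mem_toFinset]
    exact hb2 hx
  · intro x hx
    rw [Set.Finite.mem_toFinset] at hx
    exact_mod_cast hb1 hx
  · have hspan : Submodule.span ℝ (id '' b) = ⊤ := by
      rw [eq_top_iff]
      intro y _
      rw [← crd_sum hAn y]
      apply Submodule.sum_mem
      intro x hx
      apply Submodule.smul_mem
      apply hb3
      exact ⟨x, hA hx, rfl⟩
    have hli' : LinearIndependent ℝ (fun x : b => id (x : E3)) := hb4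
    have hcard : Module.finrank ℝ E3 = hfin.toFinset.card := by
      have : Fintype b := hfin.fintype
      have h1 : Submodule.span ℝ (Set.range (fun x : b => id (x : E3))) = ⊤ := by
        rw [← hspan]
        congr 1
        ext z; simp
      have bb := Module.Basis.mk hli' (by rw [h1])
      rw [Module.finrank_eq_card_basis bb]
      rw [Set.Finite.card_toFinset]
    rw [← hcard]
    simp
  · rw [Set.Finite.coe_toFinset]
    exact hb4

theorem Cfg.carath {W : Finset E3} (hC : Cfg W) {y : E3} (hy : y ∈ cone W) :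
    ∃ τ, τ ⊆ W ∧ Nice τ ∧ y ∈ cone τ := by
  obtain ⟨A, hA, hAn⟩ := hC.full
  obtain ⟨σ, h1, h2, h3⟩ := cone_carath W.card W rfl y hy
  obtain ⟨τ, g1, g2, g3⟩ := extend_nice hA hAn h1 h2
  exact ⟨τ, g2, g3, cone_mono g1 h3⟩

theorem Cfg.zero_notMem {W : Finset E3} (hC : Cfg W) : (0 : E3) ∉ W := by
  intro h
  obtain ⟨l, hl⟩ := hC.ell
  have := hl 0 h
  rw [map_zero] at this
  exact lt_irrefl _ this

theorem lp_generic {W : Finset E3} (hC : Cfg W) (H : E3 → ℝ) {y : E3} (hy : y ∈ cone W)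
    (hgen : ∀ τ, τ ⊆ W → Nice τ → ∀ x ∈ τ, crd τ x y ≠ 0) :
    ∃ τ, τ ⊆ W ∧ Nice τ ∧ y ∈ cone τ ∧ ∀ x ∈ W, gfun τ H x ≤ H x := by
  obtain ⟨τ, hτ, hmin⟩ := Finset.exists_min_image
    (W.powerset.filter (fun τ => Nice τ ∧ y ∈ cone τ)) (fun τ => gfun τ H y)
    (by
      obtain ⟨τ, h1, h2, h3⟩ := hC.carath hy
      refine ⟨τ, ?_⟩
      rw [Finset.mem_filter, Finset.mem_powerset]
      exact ⟨h1, h2, h3⟩)
  rw [Finset.mem_filter, Finset.mem_powerset] at hτ
  obtain ⟨hτW, hN, hyτ⟩ := hτ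
  refine ⟨τ, hτW, hN, hyτ, ?_⟩
  intro x0 hx0
  by_contra hcon
  push Not at hcon
  have hx0τ : x0 ∉ τ := by
    intro h
    rw [gfun_mem hN H h] at hcon
    exact lt_irrefl _ hcon
  have hypos := (mem_cone_iff_crd hN).mp hyτ
  -- the set of positive coordinates of x0
  have hD : (τ.filter (fun x => 0 < crd τ x x0)).Nonempty := by
    by_contra hne
    rw [Finset.not_nonempty_iff_eq_empty, Finset.filter_eq_empty_iff] at hne
    obtain ⟨l, hl⟩ := hC.ell
    have h1 := hl x0 hx0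
    have h2 : l x0 = ∑ x ∈ τ, crd τ x x0 * l x := by
      conv_lhs => rw [← crd_sum hN x0]
      rw [map_sum]; simp
    rw [h2] at h1
    have h3 : ∑ x ∈ τ, crd τ x x0 * l x ≤ 0 := by
      apply Finset.sum_nonpos
      intro x hx
      have h4 := hne hx
      push Not at h4
      exact mul_nonpos_of_nonpos_of_nonneg h4 (hl x (hτW hx)).le
    linarith
  obtain ⟨x1, hx1, hx1min⟩ := Finset.exists_min_image _
    (fun x => crd τ x y / crd τ x x0) hD
  rw [Finset.mem_filter] at hx1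
  obtain ⟨hx1τ, hd1⟩ := hx1
  have hc1 : 0 < crd τ x1 y := lt_of_le_of_ne (hypos x1 hx1τ) (Ne.symm (hgen τ hτW hN x1 hx1τ))
  set t := crd τ x1 y / crd τ x1 x0 with ht
  have htpos : 0 < t := div_pos hc1 hd1
  set τ' := insert x0 (τ.erase x1) with hτ'
  have hN' : Nice τ' := nice_pivot hN hx1τ hx0τ hd1.ne'
  have hx0e : x0 ∉ τ.erase x1 := fun hh => hx0τ (Finset.mem_of_mem_erase hh)
  have hτ'W : τ' ⊆ W := by
    intro z hz
    rw [hτ', Finset.mem_insert] at hz
    rcases hz with rfl | hz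
    · exact hx0
    · exact hτW (Finset.mem_of_mem_erase hz)
  set c' : E3 → ℝ := fun x => if x = x0 then t else crd τ x y - t * crd τ x x0 with hc'
  have hval : ∀ F : E3 → ℝ, ∑ x ∈ τ', c' x * F x =
      t * F x0 + (gfun τ F y - t * gfun τ F x0) := by
    intro F
    rw [hτ', Finset.sum_insert hx0e]
    congr 1
    · simp [hc']
    · have e1 : ∑ x ∈ τ.erase x1, c' x * F x =
          ∑ x ∈ τ, (crd τ x y - t * crd τ x x0) * F x := by
        rw [← Finset.add_sum_erase τ _ hx1τ]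
        have : crd τ x1 y - t * crd τ x1 x0 = 0 := by
          rw [ht]; field_simp; ring
        rw [this, zero_mul, zero_add]
        apply Finset.sum_congr rfl
        intro x hx
        have hxne : x ≠ x0 := fun h => hx0e (h ▸ hx)
        simp [hc', hxne]
      rw [e1, gfun_apply, gfun_apply, Finset.mul_sum, ← Finset.sum_sub_distrib]
      apply Finset.sum_congr rfl
      intro x _; ring
  have hsum : ∑ x ∈ τ', c' x • x = y := by
    rw [hτ', Finset.sum_insert hx0e]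
    have e1 : ∑ x ∈ τ.erase x1, c' x • x =
        ∑ x ∈ τ, (crd τ x y - t * crd τ x x0) • x := by
      rw [← Finset.add_sum_erase τ _ hx1τ]
      have : crd τ x1 y - t * crd τ x1 x0 = 0 := by
        rw [ht]; field_simp; ring
      rw [this, zero_smul, zero_add]
      apply Finset.sum_congr rfl
      intro x hx
      have hxne : x ≠ x0 := fun h => hx0e (h ▸ hx)
      simp [hc', hxne]
    have e2 : ∑ x ∈ τ, (crd τ x y - t * crd τ x x0) • x = y - t • x0 := by
      conv_rhs => rw [← crd_sum hN y, ← crd_sum hN x0]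
      rw [Finset.smul_sum, ← Finset.sum_sub_distrib]
      apply Finset.sum_congr rfl
      intro x _
      rw [sub_smul, mul_smul]
    rw [e1, e2]
    simp [hc']
  have hpos' : ∀ x ∈ τ', 0 ≤ c' x := by
    intro x hx
    by_cases hxx : x = x0
    · simp [hc', hxx, htpos.le]
    · rw [hτ', Finset.mem_insert] at hx
      have hxe : x ∈ τ := by
        rcases hx with h | h
        · exact absurd h hxx
        · exact Finset.mem_of_mem_erase h
      simp only [hc', hxx, if_false]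
      by_cases hdx : 0 < crd τ x x0
      · have := hx1min x (Finset.mem_filter.mpr ⟨hxe, hdx⟩)
        have h5 : t ≤ crd τ x y / crd τ x x0 := this
        rw [le_div_iff₀ hdx] at h5
        linarith
      · push Not at hdx
        have := hypos x hxe
        nlinarith
  have hy' : y ∈ cone τ' := ⟨c', hpos', hsum⟩
  have hm := hmin τ' (by
    rw [Finset.mem_filter, Finset.mem_powerset]
    exact ⟨hτ'W, hN', hy'⟩)
  have hcost : gfun τ' H y = t * H x0 + (gfun τ H y - t * gfun τ H x0) := by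
    rw [← hval H, gfun_apply]
    apply Finset.sum_congr rfl
    intro x hx
    rw [crd_unique hN' hsum hx]
  have hm' : gfun τ H y ≤ gfun τ' H y := hm
  rw [hcost] at hm'
  nlinarith

/-- A generic direction inside the cone of a nice set. -/
theorem generic_dir {A : Finset E3} (hA : Nice A) (F : Finset (E3 →ₗ[ℝ] ℝ))
    (hF : ∀ f ∈ F, f ≠ 0) : ∃ z : E3, (∀ x ∈ A, 0 < crd A x z) ∧ ∀ f ∈ F, f z ≠ 0 := by
  obtain ⟨a, b, c, hab, hac, hbc, hABC⟩ := Finset.card_eq_three.mp hA.1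
  have ha : a ∈ A := by rw [hABC]; simp
  have hb : b ∈ A := by rw [hABC]; simp
  have hc : c ∈ A := by rw [hABC]; simp
  have h1 : ∀ f ∈ F, ∀ᶠ δ in 𝓝[>] (0 : ℝ), f a + δ * f b + δ ^ 2 * f c ≠ 0 := by
    intro f hf
    apply gen3
    by_contra hcon
    push Not at hcon
    obtain ⟨ga, gb, gc⟩ := hcon
    apply hF f hf
    apply nice_ext hA
    intro x hx
    rw [hABC] at hx
    simp only [Finset.mem_insert, Finset.mem_singleton] at hx
    rcases hx with rfl | rfl | rfl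
    · simpa using ga
    · simpa using gb
    · simpa using gc
  have h2 := (Filter.eventually_all_finset F).mpr h1
  have h3 : ∀ᶠ δ in 𝓝[>] (0 : ℝ), 0 < δ := self_mem_nhdsWithin
  obtain ⟨δ, hδ1, hδ⟩ := (h2.and h3).exists
  refine ⟨a + δ • b + δ ^ 2 • c, ?_, ?_⟩
  · intro x hx
    have hx' := hx
    rw [hABC] at hx'
    simp only [Finset.mem_insert, Finset.mem_singleton] at hx'
    rcases hx' with rfl | rfl | rfl
    · simp [crd_self hA ha, crd_ne hA ha hb hab, crd_ne hA ha hc hac]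
    · simp [crd_self hA hb, crd_ne hA hb ha hab.symm, crd_ne hA hb hc hbc, hδ]
    · simp [crd_self hA hc, crd_ne hA hc ha hac.symm, crd_ne hA hc hb hbc.symm, hδ]
  · intro f hf
    have := hδ1 f hf
    simpa using this

theorem crd_ne_zero_map {τ : Finset E3} (h : Nice τ) {x : E3} (hx : x ∈ τ) : crd τ x ≠ 0 := by
  intro h0
  have := crd_self h hx
  rw [h0] at this
  simp at this

theorem lp_all {W : Finset E3} (hC : Cfg W) (H : E3 → ℝ) {y : E3} (hy : y ∈ cone W) :
    ∃ τ, (τ ⊆ W ∧ Nice τ ∧ ∀ x ∈ W, gfun τ H x ≤ H x) ∧ y ∈ cone τ := by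
  obtain ⟨A, hAW, hAn⟩ := hC.full
  set F : Finset (E3 →ₗ[ℝ] ℝ) :=
    (W.powerset.filter Nice).biUnion (fun τ => τ.image (fun x => crd τ x)) with hFdef
  have hF : ∀ f ∈ F, f ≠ 0 := by
    intro f hf
    rw [hFdef, Finset.mem_biUnion] at hf
    obtain ⟨τ, hτ, hf⟩ := hf
    rw [Finset.mem_image] at hf
    obtain ⟨x, hx, rfl⟩ := hf
    exact crd_ne_zero_map (Finset.mem_filter.mp hτ).2 hx
  obtain ⟨z, hz1, hz2⟩ := generic_dir hAn F hF
  have hzW : z ∈ cone W := by
    apply cone_mono hAW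
    rw [mem_cone_iff_crd hAn]
    exact fun x hx => (hz1 x hx).le
  set B := W.powerset.filter (fun τ => Nice τ ∧ ∀ x ∈ W, gfun τ H x ≤ H x) with hB
  have hBn : ∀ τ ∈ B, Nice τ := by
    intro τ hτ
    exact (Finset.mem_filter.mp hτ).2.1
  have hev : ∀ᶠ δ in 𝓝[>] (0 : ℝ), ∀ f ∈ F, f y + δ * f z ≠ 0 := by
    rw [Filter.eventually_all_finset]
    intro f hf
    exact gen2 (Or.inr (hz2 f hf))
  have hpos : ∀ᶠ δ in 𝓝[>] (0 : ℝ), 0 < δ := self_mem_nhdsWithin
  have hfr : ∀ᶠ δ in 𝓝[>] (0 : ℝ), ∃ τ ∈ B, y + δ • z ∈ cone τ := by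
    filter_upwards [hev, hpos] with δ hδ hδp
    have hmem : y + δ • z ∈ cone W := cone_add hy (cone_smul hδp.le hzW)
    obtain ⟨τ, h1, h2, h3, h4⟩ := lp_generic hC H hmem (by
      intro τ hτ hN x hx
      rw [map_add, map_smul, smul_eq_mul]
      apply hδ
      rw [hFdef, Finset.mem_biUnion]
      exact ⟨τ, Finset.mem_filter.mpr ⟨Finset.mem_powerset.mpr hτ, hN⟩,
        Finset.mem_image_of_mem _ hx⟩)
    refine ⟨τ, ?_, h3⟩
    rw [hB, Finset.mem_filter, Finset.mem_powerset]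
    exact ⟨h1, h2, h4⟩
  obtain ⟨τ, hτ, hyτ, _⟩ := cone_limit hBn hfr.frequently
  rw [hB, Finset.mem_filter, Finset.mem_powerset] at hτ
  exact ⟨τ, hτ, hyτ⟩

/-- A generic height function. -/
theorem generic_height (W : Finset E3) : ∃ h : E3 → ℝ, ∀ τ, τ ⊆ W → Nice τ → ∀ x ∈ W, x ∉ τ →
    gfun τ h x ≠ h x := by
  set φ : Finset E3 × E3 → ((E3 → ℝ) →ₗ[ℝ] ℝ) := fun p =>
    (∑ z ∈ p.1, crd p.1 z p.2 • (LinearMap.proj z : (E3 → ℝ) →ₗ[ℝ] ℝ)) - LinearMap.proj p.2
    with hφ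
  have hφa : ∀ (τ : Finset E3) (x : E3) (h : E3 → ℝ), φ (τ, x) h = gfun τ h x - h x := by
    intro τ x h
    simp [hφ, gfun_apply]
  set P : Finset (Finset E3 × E3) := (W.powerset ×ˢ W).filter (fun p => Nice p.1 ∧ p.2 ∉ p.1)
    with hP
  set s : Finset (Subspace ℝ (E3 → ℝ)) := P.image (fun p => LinearMap.ker (φ p)) with hs
  have htop : (⊤ : Subspace ℝ (E3 → ℝ)) ∉ s := by
    intro hmem
    rw [hs, Finset.mem_image] at hmem
    obtain ⟨⟨τ, x⟩, hp, hker⟩ := hmem
    rw [hP, Finset.mem_filter] at hp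
    have hx : x ∉ τ := hp.2.2
    have h1 : (Pi.single x (1 : ℝ) : E3 → ℝ) ∈ LinearMap.ker (φ (τ, x)) := by
      rw [hker]; exact Submodule.mem_top
    rw [LinearMap.mem_ker, hφa, gfun_apply] at h1
    have h2 : ∑ z ∈ τ, crd τ z x * (Pi.single x (1 : ℝ) : E3 → ℝ) z = 0 := by
      apply Finset.sum_eq_zero
      intro z hz
      have : z ≠ x := fun h => hx (h ▸ hz)
      rw [Pi.single_eq_of_ne this, mul_zero]
    rw [h2] at h1
    simp at h1
  have hne := Subspace.biUnion_ne_univ_of_top_notMem htop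
  rw [Set.ne_univ_iff_exists_notMem] at hne
  obtain ⟨h, hh⟩ := hne
  refine ⟨h, ?_⟩
  intro τ hτ hN x hx hxτ heq
  apply hh
  rw [Set.mem_iUnion₂]
  refine ⟨LinearMap.ker (φ (τ, x)), ?_, ?_⟩
  · rw [hs, Finset.mem_image]
    refine ⟨(τ, x), ?_, rfl⟩
    rw [hP, Finset.mem_filter, Finset.mem_product, Finset.mem_powerset]
    exact ⟨⟨hτ, hx⟩, hN, hxτ⟩
  · show h ∈ LinearMap.ker (φ (τ, x))
    rw [LinearMap.mem_ker, hφa, heq, sub_self]

/-- Existence of a fan. -/
theorem fan_exists {W : Finset E3} (hC : Cfg W) : ∃ B, Fan W B := by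
  obtain ⟨h, hh⟩ := generic_height W
  set P : Finset (Finset E3 × E3) := (W.powerset ×ˢ W).filter (fun p => Nice p.1)
    with hP
  have hmemP : ∀ τ x, τ ⊆ W → Nice τ → x ∈ W → (τ, x) ∈ P := by
    intro τ x h1 h2 h3
    rw [hP, Finset.mem_filter, Finset.mem_product, Finset.mem_powerset]
    exact ⟨⟨h1, h3⟩, h2⟩
  have hP' : ∀ p ∈ P, p.1 ⊆ W ∧ Nice p.1 ∧ p.2 ∈ W := by
    intro p hp
    rw [hP, Finset.mem_filter, Finset.mem_product, Finset.mem_powerset] at hp
    exact ⟨hp.1.1, hp.2, hp.1.2⟩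
  have hg : ∀ (τ : Finset E3) (x : E3) (ε : ℝ),
      gfun τ (fun z => 1 + ε * h z) x - (1 + ε * h x) =
        (gfun τ (fun _ => 1) x - 1) + ε * (gfun τ h x - h x) := by
    intro τ x ε
    rw [gfun_apply, gfun_apply, gfun_apply]
    have : ∑ z ∈ τ, crd τ z x * (1 + ε * h z) =
        ∑ z ∈ τ, crd τ z x * 1 + ε * ∑ z ∈ τ, crd τ z x * h z := by
      rw [Finset.mul_sum, ← Finset.sum_add_distrib]
      apply Finset.sum_congr rfl
      intro z _; ring
    rw [this]; ring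
  have hev1 : ∀ᶠ ε in 𝓝[>] (0 : ℝ), ∀ p ∈ P, p.2 ∉ p.1 →
      gfun p.1 (fun z => 1 + ε * h z) p.2 ≠ 1 + ε * h p.2 := by
    rw [Filter.eventually_all_finset]
    intro p hp
    obtain ⟨h1, h2, h3⟩ := hP' p hp
    by_cases hx : p.2 ∈ p.1
    · filter_upwards with ε hcon
      exact absurd hx hcon
    · have := gen2 (a := gfun p.1 (fun _ => 1) p.2 - 1) (b := gfun p.1 h p.2 - h p.2)
        (Or.inr (sub_ne_zero.mpr (hh p.1 h1 h2 p.2 h3 hx)))
      filter_upwards [this] with ε hε _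
      rw [← hg] at hε
      exact sub_ne_zero.mp hε
  have hev2 : ∀ᶠ ε in 𝓝[>] (0 : ℝ), ∀ p ∈ P,
      gfun p.1 (fun z => 1 + ε * h z) p.2 ≤ 1 + ε * h p.2 → gfun p.1 (fun _ => 1) p.2 ≤ 1 := by
    rw [Filter.eventually_all_finset]
    intro p hp
    by_cases hx : gfun p.1 (fun _ => 1) p.2 ≤ 1
    · filter_upwards with ε _
      exact hx
    · push Not at hx
      have := ev_pos (a := gfun p.1 (fun _ => 1) p.2 - 1) (b := gfun p.1 h p.2 - h p.2)
        (by linarith)
      filter_upwards [this] with ε hε hle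
      rw [← hg] at hε
      linarith
  obtain ⟨ε, hε1, hε2⟩ := (hev1.and hev2).exists
  set H : E3 → ℝ := fun z => 1 + ε * h z with hH
  refine ⟨W.powerset.filter (fun τ => Nice τ ∧ ∀ x ∈ W, gfun τ H x ≤ H x), ?_, ?_, ?_, ?_, ?_⟩
  · intro τ hτ
    exact Finset.mem_powerset.mp (Finset.mem_filter.mp hτ).1
  · intro τ hτ
    exact (Finset.mem_filter.mp hτ).2.1
  · intro τ hτ x hx
    rw [Finset.mem_filter, Finset.mem_powerset] at hτ
    exact hε2 (τ, x) (hmemP τ x hτ.1 hτ.2.1 hx) (hτ.2.2 x hx)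
  · intro τ hτ τ' hτ' y hy hy'
    rw [Finset.mem_filter, Finset.mem_powerset] at hτ hτ'
    obtain ⟨hτW, hN, hf⟩ := hτ
    obtain ⟨hτW', hN', hf'⟩ := hτ'
    have hc := (mem_cone_iff_crd hN).mp hy
    have hc' := (mem_cone_iff_crd hN').mp hy'
    -- compare the two functionals at y
    have k1 : gfun τ H y = ∑ x ∈ τ', crd τ' x y * gfun τ H x := by
      conv_lhs => rw [← crd_sum hN' y]
      rw [gfun_sum τ' _ (fun x => crd τ' x y)]
    have k2 : gfun τ' H y = ∑ x ∈ τ', crd τ' x y * H x := gfun_apply _ _ _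
    have k3 : gfun τ' H y = ∑ x ∈ τ, crd τ x y * gfun τ' H x := by
      conv_lhs => rw [← crd_sum hN y]
      rw [gfun_sum τ _ (fun x => crd τ x y)]
    have k4 : gfun τ H y = ∑ x ∈ τ, crd τ x y * H x := gfun_apply _ _ _
    have l1 : gfun τ H y ≤ gfun τ' H y := by
      rw [k1, k2]
      apply Finset.sum_le_sum
      intro x hx
      exact mul_le_mul_of_nonneg_left (hf x (hτW' hx)) (hc' x hx)
    have l2 : gfun τ' H y ≤ gfun τ H y := by
      rw [k3, k4]
      apply Finset.sum_le_sum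
      intro x hx
      exact mul_le_mul_of_nonneg_left (hf' x (hτW hx)) (hc x hx)
    have l3 : gfun τ H y = gfun τ' H y := le_antisymm l1 l2
    have l4 : ∑ x ∈ τ', crd τ' x y * (H x - gfun τ H x) = 0 := by
      have : ∑ x ∈ τ', crd τ' x y * (H x - gfun τ H x) = gfun τ' H y - gfun τ H y := by
        rw [k2, k1, ← Finset.sum_sub_distrib]
        apply Finset.sum_congr rfl
        intro x _; ring
      rw [this, l3, sub_self]
    have l5 := (Finset.sum_eq_zero_iff_of_nonneg (fun x hx =>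
      mul_nonneg (hc' x hx) (sub_nonneg.mpr (hf x (hτW' hx))))).mp l4
    refine ⟨fun x => crd τ' x y, ?_, ?_⟩
    · intro x hx
      exact hc' x (Finset.mem_inter.mp hx).2
    · rw [Finset.sum_subset (Finset.inter_subset_right (s₁ := τ) (s₂ := τ'))]
      · exact crd_sum hN' y
      · intro x hx hxn
        have hxτ : x ∉ τ := fun h => hxn (Finset.mem_inter.mpr ⟨h, hx⟩)
        have h5 := l5 x hx
        have h6 : H x - gfun τ H x ≠ 0 := by
          intro h7
          exact hε1 (τ, x) (hmemP τ x hτW hN (hτW' hx)) hxτ (by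
            show gfun τ H x = H x
            linarith)
        rcases mul_eq_zero.mp h5 with h7 | h7
        · show crd τ' x y • x = 0
          rw [h7, zero_smul]
        · exact absurd h7 h6
  · intro y hy
    obtain ⟨τ, ⟨h1, h2, h3⟩, h4⟩ := lp_all hC H hy
    refine ⟨τ, ?_, h4⟩
    rw [Finset.mem_filter, Finset.mem_powerset]
    exact ⟨h1, h2, h3⟩

end Run7.h169
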