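import Pool.Agent.Run7.h169.Fan

set_option autoImplicit false
open scoped Classical Topology
open Filter

namespace Run7.h169

theorem Nice.distinct {p q r : E3} (h : Nice {p, q, r}) : p ≠ q ∧ p ≠ r ∧ q ≠ r := by
  have h1 := h.1
  refine ⟨?_, ?_, ?_⟩
  · rintro rfl
    rw [Finset.insert_eq_of_mem (by simp)] at h1
    have := Finset.card_le_two (a := p) (b := r)
    omega
  · rintro rfl
    have e : ({p, q, p} : Finset E3) = {p, q} := by ext; simp; tauto
    rw [e] at h1
    have := Finset.card_le_two (a := p) (b := q)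
    omega
  · rintro rfl
    have e : ({p, q, q} : Finset E3) = {p, q} := by ext; simp
    rw [e] at h1
    have := Finset.card_le_two (a := p) (b := q)
    omega

theorem third {τ : Finset E3} (h : τ.card = 3) {p q : E3} (hp : p ∈ τ) (hq : q ∈ τ)
    (hpq : p ≠ q) : ∃ r, r ≠ p ∧ r ≠ q ∧ τ = {p, q, r} := by
  have h1 : ((τ.erase p).erase q).card = 1 := by
    rw [Finset.card_erase_of_mem (Finset.mem_erase.mpr ⟨hpq.symm, hq⟩),
      Finset.card_erase_of_mem hp, h]
  obtain ⟨r, hr⟩ := Finset.card_eq_one.mp h1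
  have hr' : r ∈ (τ.erase p).erase q := by rw [hr]; simp
  have h2 := Finset.mem_erase.mp hr'
  have h3 := Finset.mem_erase.mp h2.2
  refine ⟨r, h3.1, h2.1, ?_⟩
  symm
  apply Finset.eq_of_subset_of_card_le
  · intro x hx
    simp only [Finset.mem_insert, Finset.mem_singleton] at hx
    rcases hx with rfl | rfl | rfl
    · exact hp
    · exact hq
    · exact h3.2
  · rw [h, Finset.card_eq_three.mpr ⟨p, q, r, hpq, h3.1.symm, h2.1.symm, rfl⟩]

/-- Coordinates in a triple, as an explicit sum. -/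
theorem crd_sum3 {p q r : E3} (h : Nice {p, q, r}) (y : E3) :
    crd {p, q, r} p y • p + crd {p, q, r} q y • q + crd {p, q, r} r y • r = y := by
  obtain ⟨h1, h2, h3⟩ := h.distinct
  have := crd_sum h y
  rw [Finset.sum_insert (by simp [h1, h2]), Finset.sum_insert (by simp [h3]),
    Finset.sum_singleton] at this
  rw [← add_assoc] at this
  exact this

theorem crd3_unique {p q r : E3} (h : Nice {p, q, r}) {y : E3} {a b c : ℝ}
    (hy : a • p + b • q + c • r = y) :
    crd {p, q, r} p y = a ∧ crd {p, q, r} q y = b ∧ crd {p, q, r} r y = c := by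
  obtain ⟨h1, h2, h3⟩ := h.distinct
  have hp : p ∈ ({p, q, r} : Finset E3) := by simp
  have hq : q ∈ ({p, q, r} : Finset E3) := by simp
  have hr : r ∈ ({p, q, r} : Finset E3) := by simp
  subst hy
  refine ⟨?_, ?_, ?_⟩
  · simp [crd_self h hp, crd_ne h hp hq h1, crd_ne h hp hr h2]
  · simp [crd_self h hq, crd_ne h hq hp h1.symm, crd_ne h hq hr h3]
  · simp [crd_self h hr, crd_ne h hr hp h2.symm, crd_ne h hr hq h3.symm]

theorem mem_cone3 {p q r y : E3} {a b c : ℝ} (h1 : 0 ≤ a) (h2 : 0 ≤ b) (h3 : 0 ≤ c)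
    (hy : a • p + b • q + c • r = y) : y ∈ cone {p, q, r} := by
  rw [← hy]
  apply cone_add (cone_add _ _) _
  · exact cone_smul h1 (mem_cone_self (by simp))
  · exact cone_smul h2 (mem_cone_self (by simp))
  · exact cone_smul h3 (mem_cone_self (by simp))

/-- Membership in a face of a nice cone is read off the support. -/
theorem mem_cone_of_support {τ σ : Finset E3} (h : Nice τ) {y : E3} (hy : y ∈ cone τ)
    (hs : ∀ x ∈ τ, crd τ x y ≠ 0 → x ∈ σ) : y ∈ cone σ := by
  rw [← crd_sum h y]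
  rw [← Finset.sum_filter_ne_zero]
  have h0 := (mem_cone_iff_crd h).mp hy
  apply cone_sum
  · intro x hx
    exact h0 x (Finset.mem_filter.mp hx).1
  · intro x hx
    rw [Finset.mem_filter] at hx
    apply mem_cone_self
    apply hs x hx.1
    intro h2
    apply hx.2
    rw [h2, zero_smul]

theorem support_of_mem_cone_inter {τ σ : Finset E3} (h : Nice τ) {y : E3}
    (hy : y ∈ cone (τ ∩ σ)) {x : E3} (hx : x ∈ τ) (hne : crd τ x y ≠ 0) : x ∈ σ := by
  by_contra hcon
  exact hne (crd_eq_zero_of_mem_cone h Finset.inter_subset_left hy hx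
    (fun hh => hcon (Finset.mem_inter.mp hh).2))

section FanLemmas

variable {W : Finset E3} {B : Finset (Finset E3)}

theorem Fan.vertex_mem (hC : Cfg W) (hF : Fan W B) {τ : Finset E3} (hτ : τ ∈ B) {x : E3}
    (hx : x ∈ W) (hxc : x ∈ cone τ) : x ∈ τ := by
  by_contra hcon
  have hN := hF.nice τ hτ
  have hpos := (mem_cone_iff_crd hN).mp hxc
  have hsub : τ ⊆ W.erase x := by
    intro z hz
    rw [Finset.mem_erase]
    exact ⟨fun h => hcon (h ▸ hz), hF.sub τ hτ hz⟩
  have h1 := hC.cvx x hx (fun z => if z ∈ τ then crd τ z x else 0) (by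
    intro y _
    split_ifs with h
    · exact hpos y h
    · exact le_rfl) (by
    rw [← Finset.sum_subset hsub]
    · rw [← crd_sum hN x]
      apply Finset.sum_congr rfl
      intro z hz
      rw [if_pos hz, crd_sum hN x]
    · intro z _ hz
      rw [if_neg hz, zero_smul])
  have h2 : ∑ y ∈ W.erase x, (if y ∈ τ then crd τ y x else 0) = gfun τ (fun _ => 1) x := by
    rw [← Finset.sum_subset hsub, gfun_apply]
    · apply Finset.sum_congr rfl
      intro z hz
      rw [if_pos hz, mul_one]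
    · intro z _ hz
      rw [if_neg hz]
  rw [h2] at h1
  have := hF.supp τ hτ x hx
  linarith

theorem Fan.side (hF : Fan W B) {p q r r' : E3} (h : ({p, q, r} : Finset E3) ∈ B)
    (h' : ({p, q, r'} : Finset E3) ∈ B) (hpos : 0 < crd {p, q, r} r r') : r = r' := by
  by_contra hne
  have hN := hF.nice _ h
  have hN' := hF.nice _ h'
  obtain ⟨h1, h2, h3⟩ := hN.distinct
  set α := crd {p, q, r} p r' with hα
  set β := crd {p, q, r} q r' with hβ
  set γ := crd {p, q, r} r r' with hγ
  have hr' : α • p + β • q + γ • r = r' := crd_sum3 hN r'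
  set M := |α| + |β| with hM
  have hM0 : 0 ≤ M := by positivity
  have hMα : 0 ≤ M + α := by
    have := neg_abs_le α
    have := abs_nonneg β
    linarith
  have hMβ : 0 ≤ M + β := by
    have := neg_abs_le β
    have := abs_nonneg α
    linarith
  have e1 : M • p + M • q + (1 : ℝ) • r' = (M + α) • p + (M + β) • q + γ • r := by
    rw [one_smul, ← hr']; module
  have k1 : M • p + M • q + (1 : ℝ) • r' ∈ cone {p, q, r'} :=
    mem_cone3 hM0 hM0 zero_le_one rfl
  have k2 : M • p + M • q + (1 : ℝ) • r' ∈ cone {p, q, r} :=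
    mem_cone3 hMα hMβ hpos.le e1.symm
  have k3 := hF.inter _ h _ h' _ k2 k1
  have k4 := (crd3_unique hN e1.symm).2.2
  have k5 : r ∈ ({p, q, r'} : Finset E3) := by
    apply support_of_mem_cone_inter hN k3 (by simp)
    rw [k4]; exact hpos.ne'
  simp only [Finset.mem_insert, Finset.mem_singleton] at k5
  rcases k5 with k5 | k5 | k5
  · exact h2 k5.symm
  · exact h3 k5.symm
  · exact hne k5

/-- A third vertex is never in the plane spanned by the edge. -/
theorem crd_third_ne_zero {p q r r' : E3} (hN : Nice {p, q, r})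
    (hN' : Nice {p, q, r'}) : crd {p, q, r} r r' ≠ 0 := by
  intro h0
  have hr' := crd_sum3 hN r'
  rw [h0, zero_smul, add_zero] at hr'
  obtain ⟨h1, h2, h3⟩ := hN'.distinct
  have h4 : crd {p, q, r} p r' • p + crd {p, q, r} q r' • q + (0 : ℝ) • r' = r' := by
    rw [zero_smul, add_zero]; exact hr'
  have h5 := (crd3_unique (y := r') hN' h4).2.2
  rw [crd_self hN' (by simp)] at h5
  exact one_ne_zero h5

theorem Fan.side_neg (hF : Fan W B) {p q r r' : E3} (h : ({p, q, r} : Finset E3) ∈ B)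
    (h' : ({p, q, r'} : Finset E3) ∈ B) (hne : r ≠ r') : crd {p, q, r} r r' < 0 := by
  rcases lt_trichotomy (crd {p, q, r} r r') 0 with h0 | h0 | h0
  · exact h0
  · exact absurd h0 (crd_third_ne_zero (hF.nice _ h) (hF.nice _ h'))
  · exact absurd (hF.side h h' h0) hne

theorem Fan.le_two (hF : Fan W B) {p q r1 r2 r3 : E3} (h1 : ({p, q, r1} : Finset E3) ∈ B)
    (h2 : ({p, q, r2} : Finset E3) ∈ B) (h3 : ({p, q, r3} : Finset E3) ∈ B)
    (h12 : r1 ≠ r2) : r3 = r1 ∨ r3 = r2 := by
  by_contra hcon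
  push Not at hcon
  obtain ⟨h31, h32⟩ := hcon
  have a1 := hF.side_neg h1 h3 (Ne.symm h31)
  have a2 := hF.side_neg h2 h1 (Ne.symm h12)
  have e : crd {p, q, r1} p r3 • p + crd {p, q, r1} q r3 • q + crd {p, q, r1} r1 r3 • r1 = r3 :=
    crd_sum3 (hF.nice _ h1) r3
  have hN2 := hF.nice _ h2
  obtain ⟨d1, d2, d3⟩ := hN2.distinct
  have a3 : crd {p, q, r2} r2 r3 = crd {p, q, r1} r1 r3 * crd {p, q, r2} r2 r1 := by
    conv_lhs => rw [← e]
    rw [map_add, map_add, map_smul, map_smul, map_smul,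
      crd_ne hN2 (by simp) (by simp) d2.symm, crd_ne hN2 (by simp) (by simp) d3.symm]
    simp
  have a4 : 0 < crd {p, q, r2} r2 r3 := by
    rw [a3]; exact mul_pos_of_neg_of_neg a1 a2
  exact h32 (hF.side h2 h3 a4).symm

/-- Any triangle on an edge with two known triangles is one of them. -/
theorem Fan.eq_or_eq (hF : Fan W B) {p q r s : E3} (h1 : ({p, q, r} : Finset E3) ∈ B)
    (h2 : ({p, q, s} : Finset E3) ∈ B) (hrs : r ≠ s) {τ : Finset E3} (hτ : τ ∈ B) (hp : p ∈ τ)
    (hq : q ∈ τ) : τ = {p, q, r} ∨ τ = {p, q, s} := by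
  have hpq := (hF.nice _ h1).distinct.1
  obtain ⟨w, hw1, hw2, rfl⟩ := third (hF.nice τ hτ).1 hp hq hpq
  rcases hF.le_two h1 h2 hτ hrs with h | h
  · left; rw [h]
  · right; rw [h]

/-- A point of the cone from which one can move a little in every direction. -/
def Inner (W : Finset E3) (y : E3) : Prop :=
  ∀ r : E3, ∀ᶠ δ in 𝓝[>] (0 : ℝ), y + δ • r ∈ cone W

theorem Inner.add {y z : E3} (hy : Inner W y) (hz : z ∈ cone W) : Inner W (y + z) := by
  intro r
  filter_upwards [hy r] with δ hδ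
  have : y + z + δ • r = (y + δ • r) + z := by module
  rw [this]
  exact cone_add hδ hz

theorem Fan.exists_other (hF : Fan W B) {p q r : E3} (h : ({p, q, r} : Finset E3) ∈ B)
    (hin : Inner W (p + q)) : ∃ s, r ≠ s ∧ ({p, q, s} : Finset E3) ∈ B := by
  have hN := hF.nice _ h
  obtain ⟨h1, h2, h3⟩ := hN.distinct
  have hpos : ∀ᶠ δ in 𝓝[>] (0 : ℝ), 0 < δ := self_mem_nhdsWithin
  have hev : ∀ᶠ δ in 𝓝[>] (0 : ℝ), ∃ τ ∈ B, (p + q) + δ • (-r) ∈ cone τ := by
    filter_upwards [hin (-r)] with δ hδ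
    exact hF.cover _ hδ
  obtain ⟨τ', hτ', hmem, hfr⟩ := cone_limit hF.nice hev.frequently
  have hpq : (1 : ℝ) • p + (1 : ℝ) • q + (0 : ℝ) • r = p + q := by simp
  have hc := crd3_unique hN hpq
  have hmem1 : p + q ∈ cone {p, q, r} := mem_cone3 zero_le_one zero_le_one le_rfl hpq
  have hmem2 := hF.inter _ h _ hτ' _ hmem1 hmem
  have hp : p ∈ τ' := support_of_mem_cone_inter hN hmem2 (by simp) (by rw [hc.1]; norm_num)
  have hq : q ∈ τ' := support_of_mem_cone_inter hN hmem2 (by simp) (by rw [hc.2.1]; norm_num)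
  obtain ⟨s, hs1, hs2, rfl⟩ := third (hF.nice τ' hτ').1 hp hq h1
  refine ⟨s, ?_, hτ'⟩
  rintro rfl
  obtain ⟨δ, hδ1, hδ2⟩ := (hfr.and_eventually hpos).exists
  rw [mem_cone_iff_crd hN] at hδ1
  have h5 := hδ1 r (by simp)
  rw [map_add, hc.2.2, map_smul, map_neg, crd_self hN (by simp)] at h5
  simp at h5
  linarith

/-- The number of triangles of `Q` through an edge. -/
noncomputable def cnt (Q : Finset (Finset E3)) (x y : E3) : ℕ :=
  (Q.filter (fun τ => x ∈ τ ∧ y ∈ τ)).card

theorem cnt_mono {Q Q' : Finset (Finset E3)} (h : Q ⊆ Q') (x y : E3) : cnt Q x y ≤ cnt Q' x y :=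
  Finset.card_le_card (Finset.filter_subset_filter _ h)

theorem Fan.cnt_le (hF : Fan W B) {p q : E3} (hpq : p ≠ q) : cnt B p q ≤ 2 := by
  by_contra hcon
  push Not at hcon
  obtain ⟨t1, t2, t3, h1, h2, h3, h12, h13, h23⟩ := (Finset.two_lt_card_iff).mp hcon
  rw [Finset.mem_filter] at h1 h2 h3
  obtain ⟨r1, _, _, e1⟩ := third (hF.nice _ h1.1).1 h1.2.1 h1.2.2 hpq
  obtain ⟨r2, _, _, e2⟩ := third (hF.nice _ h2.1).1 h2.2.1 h2.2.2 hpq
  have hr12 : r1 ≠ r2 := by
    rintro rfl; exact h12 (e1.trans e2.symm)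
  subst e1 e2
  rcases hF.eq_or_eq h1.1 h2.1 hr12 h3.1 h3.2.1 h3.2.2 with h | h
  · exact h13 h.symm
  · exact h23 h.symm

end FanLemmas

end Run7.h169
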