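import Pool.Agent.Run7.h169.Flip

set_option autoImplicit false
open scoped Classical Topology
open Filter

namespace Run7.h169

section

variable {W : Finset E3} {B : Finset (Finset E3)}

theorem Cfg.cvx3 (hC : Cfg W) {x a b c : E3} (hx : x ∈ W) (ha : a ∈ W) (hb : b ∈ W) (hc : c ∈ W)
    (hax : a ≠ x) (hbx : b ≠ x) (hcx : c ≠ x) {u v w : ℝ} (hu : 0 ≤ u) (hv : 0 ≤ v) (hw : 0 ≤ w)
    (h : u • a + v • b + w • c = x) : 1 < u + v + w := by
  have ha' : a ∈ W.erase x := Finset.mem_erase.mpr ⟨hax, ha⟩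
  have hb' : b ∈ W.erase x := Finset.mem_erase.mpr ⟨hbx, hb⟩
  have hc' : c ∈ W.erase x := Finset.mem_erase.mpr ⟨hcx, hc⟩
  have := hC.cvx x hx (fun z => (if z = a then u else 0) + (if z = b then v else 0) +
    (if z = c then w else 0)) (by
      intro y _
      have h1 : 0 ≤ (if y = a then u else 0) := by split_ifs; exacts [hu, le_rfl]
      have h2 : 0 ≤ (if y = b then v else 0) := by split_ifs; exacts [hv, le_rfl]
      have h3 : 0 ≤ (if y = c then w else 0) := by split_ifs; exacts [hw, le_rfl]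
      positivity) (by
      simp only [add_smul, ite_smul, zero_smul, Finset.sum_add_distrib, Finset.sum_ite_eq',
        ha', hb', hc', if_true]
      exact h)
  simpa only [Finset.sum_add_distrib, Finset.sum_ite_eq', ha', hb', hc', if_true] using this

/-- The relation between the four vertices of a flippable quadrilateral. -/
theorem Fan.flip_rel (hC : Cfg W) (hF : Fan W B) {p q r s : E3}
    (h1 : ({p, q, r} : Finset E3) ∈ B) (h2 : ({p, q, s} : Finset E3) ∈ B) (hrs : r ≠ s)
    (hcop : gfun {p, q, r} (fun _ => 1) s = 1) :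
    ∃ α β γ : ℝ, 0 < α ∧ 0 < β ∧ 0 < γ ∧ s = α • p + β • q - γ • r := by
  have hN := hF.nice _ h1
  have hN2 := hF.nice _ h2
  obtain ⟨hpq, hpr, hqr⟩ := hN.distinct
  obtain ⟨_, hps, hqs⟩ := hN2.distinct
  have hpW : p ∈ W := hF.sub _ h1 (by simp)
  have hqW : q ∈ W := hF.sub _ h1 (by simp)
  have hrW : r ∈ W := hF.sub _ h1 (by simp)
  have hsW : s ∈ W := hF.sub _ h2 (by simp)
  have hs := crd_sum3 hN s
  have hγ := hF.side_neg h1 h2 hrs
  set α := crd {p, q, r} p s with hα
  set β := crd {p, q, r} q s with hβ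
  set γ := crd {p, q, r} r s with hγd
  have hsum : α + β + γ = 1 := by
    rw [gfun_apply, Finset.sum_insert (by simp [hpq, hpr]), Finset.sum_insert (by simp [hqr]),
      Finset.sum_singleton] at hcop
    simp only [mul_one] at hcop
    rw [← hα, ← hβ, ← hγd] at hcop
    linarith
  refine ⟨α, β, -γ, ?_, ?_, by linarith, ?_⟩
  · by_contra hcon
    push Not at hcon
    have hβ0 : 0 < β := by linarith
    have := hC.cvx3 (x := q) (a := s) (b := p) (c := r) (u := 1 / β) (v := -α / β)
      (w := -γ / β) hqW hsW hpW hrW hqs.symm hpq hqr.symm (by positivity)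
      (div_nonneg (by linarith) hβ0.le) (div_nonneg (by linarith) hβ0.le) (by
        rw [← hs]
        match_scalars <;> field_simp <;> ring)
    have e : 1 / β + -α / β + -γ / β = 1 := by
      field_simp; linarith
    rw [e] at this
    exact lt_irrefl _ this
  · by_contra hcon
    push Not at hcon
    have hα0 : 0 < α := by linarith
    have := hC.cvx3 (x := p) (a := s) (b := q) (c := r) (u := 1 / α) (v := -β / α)
      (w := -γ / α) hpW hsW hqW hrW hps.symm hpq.symm hpr.symm (by positivity)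
      (div_nonneg (by linarith) hα0.le) (div_nonneg (by linarith) hα0.le) (by
        rw [← hs]
        match_scalars <;> field_simp <;> ring)
    have e : 1 / α + -β / α + -γ / α = 1 := by
      field_simp; linarith
    rw [e] at this
    exact lt_irrefl _ this
  · rw [← hs]; module

theorem flip_nice {p q r s : E3} (hN : Nice {p, q, r}) (hrs : r ≠ s) (hps : p ≠ s) (hqs : q ≠ s)
    {α β γ : ℝ} (hβ : 0 < β) (hs : s = α • p + β • q - γ • r) : Nice {p, r, s} := by
  obtain ⟨hpq, hpr, hqr⟩ := hN.distinct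
  have hc := crd3_unique (a := α) (b := β) (c := -γ) (y := s) hN (by rw [hs]; module)
  have h1 := nice_pivot hN (x1 := q) (x0 := s) (by simp)
    (by simp only [Finset.mem_insert, Finset.mem_singleton]
        rintro (h | h | h)
        · exact hps h.symm
        · exact hqs h.symm
        · exact hrs h.symm) (by rw [hc.2.1]; exact hβ.ne')
  have e : insert s (({p, q, r} : Finset E3).erase q) = {p, r, s} := by
    ext z
    simp only [Finset.mem_insert, Finset.mem_erase, Finset.mem_singleton]
    constructor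
    · rintro (h | ⟨h, h' | h' | h'⟩) <;> simp_all
    · rintro (h | h | h)
      · right; subst h; exact ⟨hpq, Or.inl rfl⟩
      · right; subst h; exact ⟨hqr.symm, Or.inr (Or.inr rfl)⟩
      · left; exact h
  rw [e] at h1
  exact h1

theorem flip_supp {p q r s : E3} (hN : Nice {p, q, r}) (hN' : Nice {p, r, s})
    (hcop : gfun {p, q, r} (fun _ => 1) s = 1) :
    gfun {p, r, s} (fun _ => 1) = gfun {p, q, r} (fun _ => 1) := by
  apply nice_ext hN'
  intro x hx
  rw [gfun_mem hN' _ hx]
  simp only [Finset.mem_insert, Finset.mem_singleton] at hx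
  rcases hx with rfl | rfl | rfl
  · rw [gfun_mem hN _ (by simp)]
  · rw [gfun_mem hN _ (by simp)]
  · exact hcop.symm

theorem Fan.flip_inter (hF : Fan W B) {p q r s : E3}
    (h1 : ({p, q, r} : Finset E3) ∈ B) (h2 : ({p, q, s} : Finset E3) ∈ B) (hrs : r ≠ s)
    {α β γ : ℝ} (hα : 0 < α) (hβ : 0 < β) (hγ : 0 < γ) (hs : s = α • p + β • q - γ • r)
    (hN' : Nice {p, r, s}) {τ : Finset E3} (hτ : τ ∈ B) (hne1 : τ ≠ {p, q, r})
    (hne2 : τ ≠ {p, q, s}) {y : E3} (hy : y ∈ cone {p, r, s}) (hyτ : y ∈ cone τ) :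
    y ∈ cone ({p, r, s} ∩ τ) := by
  have hN := hF.nice _ h1
  have hN2 := hF.nice _ h2
  have hys := crd_sum3 hN' y
  have hpos := (mem_cone_iff_crd hN').mp hy
  set a := crd {p, r, s} p y with ha
  set c := crd {p, r, s} r y with hc
  set d := crd {p, r, s} s y with hd
  have ha0 : 0 ≤ a := hpos p (by simp)
  have hc0 : 0 ≤ c := hpos r (by simp)
  have hd0 : 0 ≤ d := hpos s (by simp)
  have hnpq : ¬ (p ∈ τ ∧ q ∈ τ) := by
    rintro ⟨hp, hq⟩
    rcases hF.eq_or_eq h1 h2 hrs hτ hp hq with h | h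
    · exact hne1 h
    · exact hne2 h
  apply mem_cone_of_support hN' hy
  have goal3 : (a ≠ 0 → p ∈ τ) ∧ (c ≠ 0 → r ∈ τ) ∧ (d ≠ 0 → s ∈ τ) := by
    by_cases hcase : 0 ≤ c - d * γ
    · have e1 : (a + d * α) • p + (d * β) • q + (c - d * γ) • r = y := by
        rw [← hys, hs]; module
      have hy1 : y ∈ cone {p, q, r} :=
        mem_cone3 (by positivity) (by positivity) hcase e1
      have hi := hF.inter _ h1 _ hτ y hy1 hyτ
      obtain ⟨c1, c2, c3⟩ := crd3_unique hN e1
      have s1 := fun hh => support_of_mem_cone_inter hN hi (x := p) (by simp) hh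
      have s2 := fun hh => support_of_mem_cone_inter hN hi (x := q) (by simp) hh
      have s3 := fun hh => support_of_mem_cone_inter hN hi (x := r) (by simp) hh
      rw [c1] at s1
      rw [c2] at s2
      rw [c3] at s3
      have hd00 : d = 0 := by
        by_contra hd1
        have hdp : 0 < d := lt_of_le_of_ne hd0 (Ne.symm hd1)
        exact hnpq ⟨s1 (by positivity), s2 (by positivity)⟩
      refine ⟨?_, ?_, ?_⟩
      · intro ha1
        apply s1
        rw [hd00]; simpa using ha1
      · intro hc1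
        apply s3
        rw [hd00]; simpa using hc1
      · intro hd1; exact absurd hd00 hd1
    · push Not at hcase
      have e1 : (a + c * α / γ) • p + (c * β / γ) • q + (d - c / γ) • s = y := by
        rw [← hys, hs]
        match_scalars <;> field_simp <;> ring
      have hdc : 0 < d - c / γ := by
        rw [sub_pos, div_lt_iff₀ hγ]; linarith
      have hy1 : y ∈ cone {p, q, s} :=
        mem_cone3 (by positivity) (by positivity) hdc.le e1
      have hi := hF.inter _ h2 _ hτ y hy1 hyτ
      obtain ⟨c1, c2, c3⟩ := crd3_unique hN2 e1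
      have s1 := fun hh => support_of_mem_cone_inter hN2 hi (x := p) (by simp) hh
      have s2 := fun hh => support_of_mem_cone_inter hN2 hi (x := q) (by simp) hh
      have s3 := fun hh => support_of_mem_cone_inter hN2 hi (x := s) (by simp) hh
      rw [c1] at s1
      rw [c2] at s2
      rw [c3] at s3
      have hc00 : c = 0 := by
        by_contra hc1
        have hcp : 0 < c := lt_of_le_of_ne hc0 (Ne.symm hc1)
        exact hnpq ⟨s1 (by positivity), s2 (by positivity)⟩
      refine ⟨?_, ?_, ?_⟩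
      · intro ha1
        apply s1
        rw [hc00]; simpa using ha1
      · intro hc1; exact absurd hc00 hc1
      · intro _
        exact s3 hdc.ne'
  intro x hx hxne
  rw [Finset.mem_inter]
  refine ⟨hx, ?_⟩
  simp only [Finset.mem_insert, Finset.mem_singleton] at hx
  rcases hx with rfl | rfl | rfl
  · exact goal3.1 hxne
  · exact goal3.2.1 hxne
  · exact goal3.2.2 hxne

theorem flip_inter2 {p q r s : E3} {α β γ : ℝ} (hα : 0 < α) (hβ : 0 < β)
    (hs : s = α • p + β • q - γ • r) (hN : Nice {p, q, r})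
    (hN1 : Nice {p, r, s}) (hN2 : Nice {q, r, s}) {y : E3} (hy : y ∈ cone {p, r, s})
    (hy2 : y ∈ cone {q, r, s}) : y ∈ cone ({p, r, s} ∩ {q, r, s}) := by
  have hys := crd_sum3 hN1 y
  have hys2 := crd_sum3 hN2 y
  have hpos := (mem_cone_iff_crd hN1).mp hy
  have hpos2 := (mem_cone_iff_crd hN2).mp hy2
  set a := crd {p, r, s} p y with ha
  set c := crd {p, r, s} r y with hc
  set d := crd {p, r, s} s y with hd
  set a' := crd {q, r, s} q y with ha'
  set c' := crd {q, r, s} r y with hc'
  set d' := crd {q, r, s} s y with hd'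
  have ha0 : 0 ≤ a := hpos p (by simp)
  have ha0' : 0 ≤ a' := hpos2 q (by simp)
  have e1 : (a + d * α) • p + (d * β) • q + (c - d * γ) • r = y := by
    rw [← hys, hs]; module
  have e2 : (d' * α) • p + (a' + d' * β) • q + (c' - d' * γ) • r = y := by
    rw [← hys2, hs]; module
  obtain ⟨c1, c2, c3⟩ := crd3_unique hN e1
  obtain ⟨c1', c2', c3'⟩ := crd3_unique hN e2
  have f1 : a + d * α = d' * α := c1.symm.trans c1'
  have f2 : d * β = a' + d' * β := c2.symm.trans c2'
  have f3 : a = 0 := by
    have g1 : a = (d' - d) * α := by linarith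
    have g2 : a' = (d - d') * β := by linarith
    have g3 : 0 ≤ d' - d := by
      by_contra hh
      push Not at hh
      nlinarith
    have g4 : 0 ≤ d - d' := by
      by_contra hh
      push Not at hh
      nlinarith
    have g5 : d' - d = 0 := by linarith
    rw [g1, g5, zero_mul]
  apply mem_cone_of_support hN1 hy
  intro x hx hxne
  rw [Finset.mem_inter]
  refine ⟨hx, ?_⟩
  simp only [Finset.mem_insert, Finset.mem_singleton] at hx
  rcases hx with rfl | rfl | rfl
  · exact absurd f3 hxne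
  · simp
  · simp

theorem flip_cover {p q r s : E3} {α β γ : ℝ} (hα : 0 < α) (hβ : 0 < β) (hγ : 0 < γ)
    (hs : s = α • p + β • q - γ • r) {y : E3} {a b c d : ℝ} (ha : 0 ≤ a) (hb : 0 ≤ b) (hc : 0 ≤ c)
    (hd : 0 ≤ d) (hy : a • p + b • q + c • r + d • s = y) :
    y ∈ cone {p, r, s} ∨ y ∈ cone {q, r, s} := by
  by_cases h : a * β ≤ b * α
  · right
    -- eliminate p
    have e : (b - a / α * β) • q + (c + a / α * γ) • r + (d + a / α) • s = y := by
      rw [← hy, hs]
      match_scalars <;> field_simp <;> ring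
    refine mem_cone3 ?_ (by positivity) (by positivity) e
    rw [sub_nonneg, div_mul_eq_mul_div, div_le_iff₀ hα]
    exact h
  · left
    push Not at h
    have e : (a - b / β * α) • p + (c + b / β * γ) • r + (d + b / β) • s = y := by
      rw [← hy, hs]
      match_scalars <;> field_simp <;> ring
    refine mem_cone3 ?_ (by positivity) (by positivity) e
    rw [sub_nonneg, div_mul_eq_mul_div, div_le_iff₀ hβ]
    exact h.le

/-- The result of a flip. -/
noncomputable def flipSet (B : Finset (Finset E3)) (p q r s : E3) : Finset (Finset E3) :=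
  insert {p, r, s} (insert {q, r, s} ((B.erase {p, q, r}).erase {p, q, s}))

theorem mem_flipSet {B : Finset (Finset E3)} {p q r s : E3} {τ : Finset E3} :
    τ ∈ flipSet B p q r s ↔ τ = {p, r, s} ∨ τ = {q, r, s} ∨
      (τ ≠ {p, q, s} ∧ τ ≠ {p, q, r} ∧ τ ∈ B) := by
  simp [flipSet]

theorem swap12 (p q r : E3) : ({q, p, r} : Finset E3) = {p, q, r} := by
  ext z; simp only [Finset.mem_insert, Finset.mem_singleton]; tauto

theorem Fan.flip (hC : Cfg W) (hF : Fan W B) {p q r s : E3}
    (h1 : ({p, q, r} : Finset E3) ∈ B) (h2 : ({p, q, s} : Finset E3) ∈ B) (hrs : r ≠ s)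
    (hcop : gfun {p, q, r} (fun _ => 1) s = 1) : Fan W (flipSet B p q r s) := by
  have hN := hF.nice _ h1
  have hN2 := hF.nice _ h2
  obtain ⟨hpq, hpr, hqr⟩ := hN.distinct
  obtain ⟨_, hps, hqs⟩ := hN2.distinct
  obtain ⟨α, β, γ, hα, hβ, hγ, hs⟩ := hF.flip_rel hC h1 h2 hrs hcop
  have hs' : s = β • q + α • p - γ • r := by rw [hs]; module
  have h1' : ({q, p, r} : Finset E3) ∈ B := by rw [swap12]; exact h1
  have h2' : ({q, p, s} : Finset E3) ∈ B := by rw [swap12]; exact h2
  have hNp : Nice {p, r, s} := flip_nice hN hrs hps hqs hβ hs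
  have hNq : Nice {q, r, s} := flip_nice (by rw [swap12]; exact hN) hrs hqs hps hα hs'
  have hgp := flip_supp hN hNp hcop
  have hgq : gfun {q, r, s} (fun _ => 1) = gfun {p, q, r} (fun _ => 1) := by
    have := flip_supp (p := q) (q := p) (r := r) (s := s) (by rw [swap12]; exact hN) hNq
      (by rw [swap12]; exact hcop)
    rw [this, swap12]
  have hpW : p ∈ W := hF.sub _ h1 (by simp)
  have hqW : q ∈ W := hF.sub _ h1 (by simp)
  have hrW : r ∈ W := hF.sub _ h1 (by simp)
  have hsW : s ∈ W := hF.sub _ h2 (by simp)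
  -- intersection of a new triangle with an old one
  have ip : ∀ τ ∈ B, τ ≠ {p, q, s} → τ ≠ {p, q, r} → ∀ y, y ∈ cone {p, r, s} → y ∈ cone τ →
      y ∈ cone ({p, r, s} ∩ τ) := fun τ hτ hn2 hn1 y hy hyτ =>
    hF.flip_inter h1 h2 hrs hα hβ hγ hs hNp hτ hn1 hn2 hy hyτ
  have iq : ∀ τ ∈ B, τ ≠ {p, q, s} → τ ≠ {p, q, r} → ∀ y, y ∈ cone {q, r, s} → y ∈ cone τ →
      y ∈ cone ({q, r, s} ∩ τ) := fun τ hτ hn2 hn1 y hy hyτ =>
    hF.flip_inter h1' h2' hrs hβ hα hγ hs' hNq hτ (by rw [swap12]; exact hn1)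
      (by rw [swap12]; exact hn2) hy hyτ
  have ipq : ∀ y, y ∈ cone {p, r, s} → y ∈ cone {q, r, s} →
      y ∈ cone ({p, r, s} ∩ {q, r, s}) := fun y hy hy2 => flip_inter2 hα hβ hs hN hNp hNq hy hy2
  refine ⟨?_, ?_, ?_, ?_, ?_⟩
  · intro τ hτ
    rw [mem_flipSet] at hτ
    rcases hτ with rfl | rfl | ⟨_, _, hτ⟩
    · intro x hx
      simp only [Finset.mem_insert, Finset.mem_singleton] at hx
      rcases hx with rfl | rfl | rfl <;> assumption
    · intro x hx
      simp only [Finset.mem_insert, Finset.mem_singleton] at hx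
      rcases hx with rfl | rfl | rfl <;> assumption
    · exact hF.sub τ hτ
  · intro τ hτ
    rw [mem_flipSet] at hτ
    rcases hτ with rfl | rfl | ⟨_, _, hτ⟩
    · exact hNp
    · exact hNq
    · exact hF.nice τ hτ
  · intro τ hτ x hx
    rw [mem_flipSet] at hτ
    rcases hτ with rfl | rfl | ⟨_, _, hτ⟩
    · rw [hgp]; exact hF.supp _ h1 x hx
    · rw [hgq]; exact hF.supp _ h1 x hx
    · exact hF.supp τ hτ x hx
  · intro τ hτ τ' hτ' y hy hy'
    rw [mem_flipSet] at hτ hτ'
    rcases hτ with rfl | rfl | ⟨hn2, hn1, hτ⟩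
    · rcases hτ' with rfl | rfl | ⟨hn2', hn1', hτ'⟩
      · rw [Finset.inter_self]; exact hy
      · exact ipq y hy hy'
      · exact ip τ' hτ' hn2' hn1' y hy hy'
    · rcases hτ' with rfl | rfl | ⟨hn2', hn1', hτ'⟩
      · rw [Finset.inter_comm]; exact ipq y hy' hy
      · rw [Finset.inter_self]; exact hy
      · exact iq τ' hτ' hn2' hn1' y hy hy'
    · rcases hτ' with rfl | rfl | ⟨hn2', hn1', hτ'⟩
      · rw [Finset.inter_comm]; exact ip τ hτ hn2 hn1 y hy' hy
      · rw [Finset.inter_comm]; exact iq τ hτ hn2 hn1 y hy' hy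
      · exact hF.inter τ hτ τ' hτ' y hy hy'
  · intro y hy
    obtain ⟨τ, hτ, hyτ⟩ := hF.cover y hy
    by_cases hn1 : τ = {p, q, r}
    · subst hn1
      have hpos := (mem_cone_iff_crd hN).mp hyτ
      have e : crd {p, q, r} p y • p + crd {p, q, r} q y • q + crd {p, q, r} r y • r +
          (0 : ℝ) • s = y := by rw [zero_smul, add_zero]; exact crd_sum3 hN y
      rcases flip_cover hα hβ hγ hs (hpos p (by simp)) (hpos q (by simp)) (hpos r (by simp))
        le_rfl e with h | h
      · exact ⟨_, mem_flipSet.mpr (Or.inl rfl), h⟩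
      · exact ⟨_, mem_flipSet.mpr (Or.inr (Or.inl rfl)), h⟩
    · by_cases hn2 : τ = {p, q, s}
      · subst hn2
        have hpos := (mem_cone_iff_crd hN2).mp hyτ
        have e : crd {p, q, s} p y • p + crd {p, q, s} q y • q + (0 : ℝ) • r +
            crd {p, q, s} s y • s = y := by
          rw [zero_smul, add_zero]; exact crd_sum3 hN2 y
        rcases flip_cover hα hβ hγ hs (hpos p (by simp)) (hpos q (by simp)) le_rfl
          (hpos s (by simp)) e with h | h
        · exact ⟨_, mem_flipSet.mpr (Or.inl rfl), h⟩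
        · exact ⟨_, mem_flipSet.mpr (Or.inr (Or.inl rfl)), h⟩
      · exact ⟨τ, mem_flipSet.mpr (Or.inr (Or.inr ⟨hn2, hn1, hτ⟩)), hyτ⟩

end

end Run7.h169
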