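import Pool.Agent.Run7.h169.Trim2

set_option autoImplicit false
open scoped Classical Topology
open Filter

namespace Run7.h169

/-- There is no cycle of distinct elements with the property `P`, consecutive ones related. -/
def NoCycle {α : Type*} (R : α → α → Prop) (P : α → Prop) : Prop :=
  ¬ ∃ (n : ℕ) (c : ℕ → α), 3 ≤ n ∧ (∀ i < n, P (c i)) ∧
    (∀ i < n, ∀ j < n, c i = c j → i = j) ∧ (∀ i, i + 1 < n → R (c i) (c (i + 1))) ∧
    R (c (n - 1)) (c 0)

theorem exists_max_of_bdd {Q : ℕ → Prop} {b n0 : ℕ} (h0 : Q n0) (hb : ∀ n, Q n → n ≤ b) :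
    ∃ n, Q n ∧ ∀ m, Q m → m ≤ n := by
  refine ⟨Nat.findGreatest Q b, Nat.findGreatest_spec (hb n0 h0) h0, ?_⟩
  intro m hm
  exact Nat.le_findGreatest (hb m hm) hm

/-- Minimum degree two forces a cycle. -/
theorem NoCycle.exists_leaf {α : Type*} {R : α → α → Prop} {P : α → Prop}
    (h : NoCycle R P) (hirr : ∀ x, ¬ R x x) (M : Finset α) (hne : M.Nonempty)
    (hP : ∀ x ∈ M, P x) :
    ∃ x ∈ M, ∀ y ∈ M, ∀ z ∈ M, R x y → R x z → y = z := by
  by_contra hcon
  push Not at hcon
  obtain ⟨x0, hx0⟩ := hne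
  set Q : ℕ → Prop := fun n => ∃ c : ℕ → α, 1 ≤ n ∧ (∀ i < n, c i ∈ M) ∧
    (∀ i < n, ∀ j < n, c i = c j → i = j) ∧ (∀ i, i + 1 < n → R (c i) (c (i + 1))) with hQ
  have hQ1 : Q 1 := by
    refine ⟨fun _ => x0, le_rfl, fun i _ => hx0, ?_, ?_⟩
    · intro i hi j hj _; omega
    · intro i hi; omega
  have hb : ∀ n, Q n → n ≤ M.card := by
    rintro n ⟨c, _, h1, h2, _⟩
    have := Finset.card_le_card_of_injOn (s := Finset.range n) (t := M) c
      (by intro i hi; exact h1 i (by simpa using hi))
      (by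
        intro i hi j hj hij
        exact h2 i (by simpa using hi) j (by simpa using hj) hij)
    simpa using this
  obtain ⟨n, ⟨c, hn, c1, c2, c3⟩, hmax⟩ := exists_max_of_bdd hQ1 hb
  have hz : c (n - 1) ∈ M := c1 _ (by omega)
  -- every neighbour of the end is on the path
  have onpath : ∀ y ∈ M, R (c (n - 1)) y → ∃ i < n, c i = y := by
    intro y hy hRy
    by_contra hno
    push Not at hno
    have : Q (n + 1) := by
      refine ⟨fun i => if i < n then c i else y, by omega, ?_, ?_, ?_⟩
      · intro i _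
        beta_reduce
        split_ifs with hi
        · exact c1 i hi
        · exact hy
      · intro i hi j hj hij
        beta_reduce at hij
        split_ifs at hij with h1 h2 h3
        · exact c2 i h1 j h2 hij
        · exact absurd hij (hno i h1)
        · exact absurd hij.symm (hno j h3)
        · omega
      · intro i hi
        beta_reduce
        rw [if_pos (by omega : i < n)]
        by_cases h2 : i + 1 < n
        · rw [if_pos h2]; exact c3 i h2
        · rw [if_neg h2]
          have : i = n - 1 := by omega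
          rw [this]; exact hRy
    have := hmax _ this
    omega
  obtain ⟨y, hy, z, hz', hRy, hRz, hyz⟩ := hcon _ hz
  obtain ⟨i, hi, hiy⟩ := onpath y hy hRy
  obtain ⟨j, hj, hjz⟩ := onpath z hz' hRz
  have key : ∀ k < n, k + 2 < n → R (c (n - 1)) (c k) → False := by
    intro k hk hk2 hR
    apply h
    refine ⟨n - k, fun m => c (k + m), by omega, ?_, ?_, ?_, ?_⟩
    · intro m hm; exact hP _ (c1 _ (by omega))
    · intro a ha b hb hab
      have := c2 _ (by omega) _ (by omega) hab
      omega
    · intro m hm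
      have := c3 (k + m) (by omega)
      beta_reduce
      rw [← add_assoc]; exact this
    · beta_reduce
      rw [add_zero, show k + (n - k - 1) = n - 1 by omega]
      exact hR
  have hin : i ≠ n - 1 := by
    rintro rfl
    rw [hiy] at hRy
    exact hirr _ hRy
  have hjn : j ≠ n - 1 := by
    rintro rfl
    rw [hjz] at hRz
    exact hirr _ hRz
  have hij : i ≠ j := by
    rintro rfl
    exact hyz (hiy.symm.trans hjz)
  rcases lt_or_gt_of_ne hij with hlt | hgt
  · exact key i hi (by omega) (by rw [hiy]; exact hRy)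
  · exact key j hj (by omega) (by rw [hjz]; exact hRz)

/-- In a forest with at least one vertex besides the root, some non-root vertex is a leaf. -/
theorem two_leaf {α : Type*} {R : α → α → Prop} (hsymm : ∀ x y, R x y → R y x)
    (hirr : ∀ x, ¬ R x x) :
    ∀ (n : ℕ) (M : Finset α), M.card = n →
    (∀ M' ⊆ M, M'.Nonempty → ∃ x ∈ M', ∀ y ∈ M', ∀ z ∈ M', R x y → R x z → y = z) →
    ∀ q, (∃ x ∈ M, x ≠ q) → ∃ x ∈ M, x ≠ q ∧ ∀ y ∈ M, ∀ z ∈ M, R x y → R x z → y = z := by
  intro n
  induction n with
  | zero =>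
    intro M hM _ q hx
    obtain ⟨x, hx, _⟩ := hx
    rw [Finset.card_eq_zero] at hM
    rw [hM] at hx
    exact absurd hx (Finset.notMem_empty x)
  | succ n ih =>
    intro M hM hdeg q hex
    obtain ⟨x0, hx0, h0⟩ := hdeg M subset_rfl (by
      obtain ⟨x, hx, _⟩ := hex; exact ⟨x, hx⟩)
    by_cases hq : x0 = q
    · subst hq
      obtain ⟨x1, hx1, hne1⟩ := hex
      by_cases hnb : ∃ q' ∈ M, q' ≠ x0 ∧ R x0 q'
      · obtain ⟨q', hq', hq'ne, hRq'⟩ := hnb
        by_cases hex2 : ∃ x ∈ M.erase x0, x ≠ q'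
        · obtain ⟨x, hx, hxq', hx2⟩ := ih (M.erase x0)
            (by rw [Finset.card_erase_of_mem hx0, hM]; rfl)
            (fun M' hM' => hdeg M' (hM'.trans (Finset.erase_subset _ _))) q' hex2
          rw [Finset.mem_erase] at hx
          refine ⟨x, hx.2, hx.1, ?_⟩
          have hnadj : ¬ R x x0 := fun hh => hxq' (h0 x hx.2 q' hq' (hsymm _ _ hh) hRq')
          intro y hy z hz hRy hRz
          have y0 : y ≠ x0 := by rintro rfl; exact hnadj hRy
          have z0 : z ≠ x0 := by rintro rfl; exact hnadj hRz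
          exact hx2 y (Finset.mem_erase.mpr ⟨y0, hy⟩) z (Finset.mem_erase.mpr ⟨z0, hz⟩) hRy hRz
        · push Not at hex2
          obtain ⟨x, hx, hx2⟩ := hdeg (M.erase x0) (Finset.erase_subset _ _)
            ⟨q', Finset.mem_erase.mpr ⟨hq'ne, hq'⟩⟩
          have hxq : x = q' := hex2 x hx
          subst hxq
          refine ⟨x, hq', hq'ne, ?_⟩
          intro y hy z hz hRy hRz
          have only : ∀ y ∈ M, R x y → y = x0 := by
            intro y hy hR
            by_contra hy0
            have : y = x := hex2 y (Finset.mem_erase.mpr ⟨hy0, hy⟩)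
            rw [this] at hR
            exact hirr _ hR
          rw [only y hy hRy, only z hz hRz]
      · push Not at hnb
        obtain ⟨x, hx, hx2⟩ := hdeg (M.erase x0) (Finset.erase_subset _ _)
          ⟨x1, Finset.mem_erase.mpr ⟨hne1, hx1⟩⟩
        rw [Finset.mem_erase] at hx
        refine ⟨x, hx.2, hx.1, ?_⟩
        have hnadj : ¬ R x x0 := fun hh => hnb x hx.2 hx.1 (hsymm _ _ hh)
        intro y hy z hz hRy hRz
        have y0 : y ≠ x0 := by rintro rfl; exact hnadj hRy
        have z0 : z ≠ x0 := by rintro rfl; exact hnadj hRz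
        exact hx2 y (Finset.mem_erase.mpr ⟨y0, hy⟩) z (Finset.mem_erase.mpr ⟨z0, hz⟩) hRy hRz
    · exact ⟨x0, hx0, hq, h0⟩

/-- A ranking of a forest with a given root: every other vertex has at most one neighbour that
is the root or has no larger rank. -/
theorem forest_rank {α : Type*} {R : α → α → Prop} (hsymm : ∀ x y, R x y → R y x)
    (hirr : ∀ x, ¬ R x x) (q : α) : ∀ (n : ℕ) (M : Finset α), M.card = n →
    (∀ M' ⊆ M, M'.Nonempty → ∃ x ∈ M', ∀ y ∈ M', ∀ z ∈ M', R x y → R x z → y = z) →
    ∃ ρ : α → ℕ, ∀ x ∈ M, x ≠ q → ∀ y ∈ M, ∀ z ∈ M, R x y → R x z → (y ≠ q → ρ y ≤ ρ x) →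
      (z ≠ q → ρ z ≤ ρ x) → y = z := by
  intro n
  induction n with
  | zero =>
    intro M hM _
    rw [Finset.card_eq_zero] at hM
    refine ⟨fun _ => 0, ?_⟩
    intro x hx
    rw [hM] at hx
    exact absurd hx (Finset.notMem_empty x)
  | succ n ih =>
    intro M hM hdeg
    by_cases hex : ∃ x ∈ M, x ≠ q
    · obtain ⟨x0, hx0, hx0q, h0⟩ := two_leaf hsymm hirr _ M rfl hdeg q hex
      obtain ⟨ρ, hρ⟩ := ih (M.erase x0) (by rw [Finset.card_erase_of_mem hx0, hM]; rfl)
        (fun M' hM' => hdeg M' (hM'.trans (Finset.erase_subset _ _)))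
      refine ⟨Function.update ρ x0 (M.sup ρ + 1), ?_⟩
      intro x hx hxq y hy z hz hRy hRz ry rz
      by_cases hxx : x = x0
      · subst hxx
        exact h0 y hy z hz hRy hRz
      · have hρx : ρ x ≤ M.sup ρ := Finset.le_sup (f := ρ) hx
        have ne : ∀ y, (y ≠ q → Function.update ρ x0 (M.sup ρ + 1) y ≤
            Function.update ρ x0 (M.sup ρ + 1) x) → y ≠ x0 := by
          rintro y ry rfl
          have := ry hx0q
          rw [Function.update_self, Function.update_of_ne hxx] at this
          omega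
        have y0 := ne y ry
        have z0 := ne z rz
        refine hρ x (Finset.mem_erase.mpr ⟨hxx, hx⟩) hxq y (Finset.mem_erase.mpr ⟨y0, hy⟩) z
          (Finset.mem_erase.mpr ⟨z0, hz⟩) hRy hRz ?_ ?_
        · intro hh
          have := ry hh
          rwa [Function.update_of_ne y0, Function.update_of_ne hxx] at this
        · intro hh
          have := rz hh
          rwa [Function.update_of_ne z0, Function.update_of_ne hxx] at this
    · push Not at hex
      refine ⟨fun _ => 0, ?_⟩
      intro x hx hxq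
      exact absurd (hex x hx) hxq

end Run7.h169
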