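import Pool.Agent.Run7.h169.Forest

set_option autoImplicit false
open scoped Classical Topology
open Filter

namespace Run7.h169

section

variable {S : Finset E3} {v : E3}

theorem cof_of_not_inner (hC : Cfg (rel S v)) {p : E3} (hp : p ∈ rel S v)
    (hn : ¬ Inner (rel S v) p) : Cof S v (p + v) := by
  obtain ⟨f, f0, f1, f2⟩ := exists_support hC (mem_cone_self hp) hn
  refine ⟨f, f0, ?_, by rw [map_add, f2, zero_add]⟩
  intro z hz
  by_cases hzv : z = v
  · rw [hzv]
  · have := f1 (z - v) (sub_mem_rel hz hzv)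
    rw [map_sub] at this
    linarith

theorem not_inner_of_cof3 {p r : E3} (h : Cof3 S v (p + v) (r + v)) :
    ¬ Inner (rel S v) (p + r) := by
  obtain ⟨f, f0, f1, f2, f3⟩ := h
  rw [map_add] at f2 f3
  apply not_inner_of_support f0
  · intro z hz
    have := f1 _ (mem_rel.mp hz).1
    rw [map_add] at this
    linarith
  · rw [map_add]; linarith

theorem bad_of_chord (hC : Cfg (rel S v)) (hv : v ∈ S) {p r : E3} (hp : p ∈ rel S v)
    (hr : r ∈ rel S v) (np : ¬ Inner (rel S v) p) (nr : ¬ Inner (rel S v) r)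
    (he : IsEdge0 (rel S v) p r) (hin : Inner (rel S v) (p + r)) :
    Bad S v (p + v) (r + v) := by
  obtain ⟨p1, p2⟩ := mem_rel.mp hp
  obtain ⟨r1, r2⟩ := mem_rel.mp hr
  exact ⟨hv, p1, r1, fun hh => p2 (by simpa using hh.symm), fun hh => r2 (by simpa using hh.symm),
    Frm.edge_rel he, cof_of_not_inner hC hp np, cof_of_not_inner hC hr nr,
    fun hc => not_inner_of_cof3 hc hin⟩

/-- A simple outer vertex has at most one inner neighbour. -/
theorem outer_simple (hC : Cfg (rel S v)) {q : E3} (hv : v ∈ S) (hq : q ∈ rel S v)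
    (nq : ¬ Inner (rel S v) q) (hs : SimpleVertex S (q + v)) {x y : E3} (hx : x ∈ rel S v)
    (hy : y ∈ rel S v) (ix : Inner (rel S v) x) (iy : Inner (rel S v) y)
    (ex : IsEdge0 (rel S v) q x) (ey : IsEdge0 (rel S v) q y) : x = y := by
  have hqS := (mem_rel.mp hq).1
  obtain ⟨b1, b2, b3, ψ1, ψ2, ψ3, hb⟩ := hs.frame hqS
  -- some coordinate of the apex vanishes
  have hzero : ψ1 (v - (q + v)) = 0 ∨ ψ2 (v - (q + v)) = 0 ∨ ψ3 (v - (q + v)) = 0 := by
    by_contra hcon
    push Not at hcon
    obtain ⟨p1, p2, p3⟩ := hb.pos v hv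
    obtain ⟨g, g0, g1, g2⟩ := cof_of_not_inner hC hq nq
    have c1 : 0 < ψ1 (v - (q + v)) := lt_of_le_of_ne p1 (Ne.symm hcon.1)
    have c2 : 0 < ψ2 (v - (q + v)) := lt_of_le_of_ne p2 (Ne.symm hcon.2.1)
    have c3 : 0 < ψ3 (v - (q + v)) := lt_of_le_of_ne p3 (Ne.symm hcon.2.2)
    have e := congrArg g (hb.ext (v - (q + v)))
    have e0 : g (v - (q + v)) = 0 := by rw [map_sub, g2, sub_self]
    rw [e0, map_add, map_add, map_smul, map_smul, map_smul, smul_eq_mul, smul_eq_mul,
      smul_eq_mul] at e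
    have nn : ∀ b ∈ S, 0 ≤ g (b - (q + v)) := by
      intro b hb
      rw [map_sub, g2]
      linarith [g1 b hb]
    have n1 := nn _ hb.h1
    have n2 := nn _ hb.h2
    have n3 := nn _ hb.h3
    have m1 := mul_nonneg c1.le n1
    have m2 := mul_nonneg c2.le n2
    have m3 := mul_nonneg c3.le n3
    have z1 : g (b1 - (q + v)) = 0 :=
      (mul_eq_zero.mp (by linarith : ψ1 (v - (q + v)) * g (b1 - (q + v)) = 0)).resolve_left c1.ne'
    have z2 : g (b2 - (q + v)) = 0 :=
      (mul_eq_zero.mp (by linarith : ψ2 (v - (q + v)) * g (b2 - (q + v)) = 0)).resolve_left c2.ne'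
    have z3 : g (b3 - (q + v)) = 0 :=
      (mul_eq_zero.mp (by linarith : ψ3 (v - (q + v)) * g (b3 - (q + v)) = 0)).resolve_left c3.ne'
    apply g0
    ext z
    rw [← hb.ext z, map_add, map_add, map_smul, map_smul, map_smul, z1, z2, z3]
    simp
  have nb : ∀ z ∈ rel S v, IsEdge0 (rel S v) q z →
      z + v = b1 ∨ z + v = b2 ∨ z + v = b3 := fun z hz he =>
    hb.neighbour (mem_rel.mp hz).1 (Frm.edge_rel he)
  -- a coordinate vanishing at the apex and at a neighbour
  have key : ∀ ψ : E3 →ₗ[ℝ] ℝ, (∀ z ∈ S, 0 ≤ ψ (z - (q + v))) → ψ ≠ 0 →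
      ψ (v - (q + v)) = 0 → ∀ z, ψ (z + v - (q + v)) = 0 → ¬ Inner (rel S v) z := by
    intro ψ h1 h0 h2 z h3
    apply not_inner_of_support h0
    · intro u hu
      have := h1 _ (mem_rel.mp hu).1
      have e : u + v - (q + v) = u + (v - (q + v)) := by abel
      rw [e, map_add, h2, add_zero] at this
      exact this
    · have e : z + v - (q + v) = z + (v - (q + v)) := by abel
      rw [e, map_add, h2, add_zero] at h3
      exact h3
  have ne1 : ψ1 ≠ 0 := by
    intro h0
    have := hb.d11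
    rw [h0] at this
    simp at this
  have ne2 : ψ2 ≠ 0 := by
    intro h0
    have := hb.d22
    rw [h0] at this
    simp at this
  have ne3 : ψ3 ≠ 0 := by
    intro h0
    have := hb.d33
    rw [h0] at this
    simp at this
  have pos1 : ∀ z ∈ S, 0 ≤ ψ1 (z - (q + v)) := fun z hz => (hb.pos z hz).1
  have pos2 : ∀ z ∈ S, 0 ≤ ψ2 (z - (q + v)) := fun z hz => (hb.pos z hz).2.1
  have pos3 : ∀ z ∈ S, 0 ≤ ψ3 (z - (q + v)) := fun z hz => (hb.pos z hz).2.2
  have kx := nb x hx ex
  have ky := nb y hy ey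
  apply add_right_cancel (b := v)
  rcases hzero with h0 | h0 | h0
  · have k : ∀ z, Inner (rel S v) z → (z + v = b1 ∨ z + v = b2 ∨ z + v = b3) → z + v = b1 := by
      rintro z iz (h | h | h)
      · exact h
      · exact absurd iz (key ψ1 pos1 ne1 h0 z (by rw [h]; exact hb.d12))
      · exact absurd iz (key ψ1 pos1 ne1 h0 z (by rw [h]; exact hb.d13))
    rw [k x ix kx, k y iy ky]
  · have k : ∀ z, Inner (rel S v) z → (z + v = b1 ∨ z + v = b2 ∨ z + v = b3) → z + v = b2 := by
      rintro z iz (h | h | h)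
      · exact absurd iz (key ψ2 pos2 ne2 h0 z (by rw [h]; exact hb.d21))
      · exact h
      · exact absurd iz (key ψ2 pos2 ne2 h0 z (by rw [h]; exact hb.d23))
    rw [k x ix kx, k y iy ky]
  · have k : ∀ z, Inner (rel S v) z → (z + v = b1 ∨ z + v = b2 ∨ z + v = b3) → z + v = b3 := by
      rintro z iz (h | h | h)
      · exact absurd iz (key ψ3 pos3 ne3 h0 z (by rw [h]; exact hb.d31))
      · exact absurd iz (key ψ3 pos3 ne3 h0 z (by rw [h]; exact hb.d32))
      · exact h
    rw [k x ix kx, k y iy ky]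

theorem zero_notMem_rel : (0 : E3) ∉ rel S v := fun h => (mem_rel.mp h).2 rfl

/-- Polytopes whose non-simple vertices induce a forest. -/
theorem forest_hasHamTet (hS : ConvPos S) (hspan : affineSpan ℝ (S : Set E3) = ⊤)
    (hno : NoCycle (IsEdgeS S) (fun x => x ∈ S ∧ ¬ SimpleVertex S x)) : HasHamTet S := by
  have hne : S.Nonempty := by
    by_contra h
    rw [Finset.not_nonempty_iff_eq_empty] at h
    rw [h] at hspan
    simp at hspan
  obtain ⟨v, hv, q, hgood⟩ := good_apex hS hne
  have hC := cfg_rel hS hspan hv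
  set W := rel S v with hW
  -- the special outer vertex
  set q1 : E3 := if Inner W (q - v) then 0 else q - v with hq1
  have hq1n : q1 ∈ W → ¬ Inner W q1 := by
    intro hm
    rw [hq1] at hm ⊢
    split_ifs with h
    · rw [if_pos h] at hm
      exact absurd hm zero_notMem_rel
    · exact h
  have hpq : ∀ p ∈ W, ¬ Inner W p → p + v = q → p = q1 := by
    intro p _ np hpq
    have e : q - v = p := by rw [← hpq]; abel
    rw [hq1, e, if_neg np]
  -- the forest
  set M := W.filter (fun x => (Inner W x ∧ ¬ SimpleVertex S (x + v)) ∨ (¬ Inner W x ∧ x = q1))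
    with hM
  have hirr : ∀ x, ¬ IsEdge0 W x x := fun x h => h.1 rfl
  have hsymm : ∀ x y, IsEdge0 W x y → IsEdge0 W y x := fun x y h => h.symm
  have hnoW : NoCycle (IsEdge0 W) (fun x => x ∈ W ∧ ¬ SimpleVertex S (x + v)) := by
    rintro ⟨n, c, h1, h2, h3, h4, h5⟩
    apply hno
    refine ⟨n, fun i => c i + v, h1, ?_, ?_, ?_, ?_⟩
    · intro i hi
      exact ⟨(mem_rel.mp (h2 i hi).1).1, (h2 i hi).2⟩
    · intro i hi j hj hij
      exact h3 i hi j hj (add_right_cancel hij)
    · intro i hi
      exact Frm.edge_rel (h4 i hi)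
    · exact Frm.edge_rel h5
  have hdeg : ∀ M' ⊆ M, M'.Nonempty →
      ∃ x ∈ M', ∀ y ∈ M', ∀ z ∈ M', IsEdge0 W x y → IsEdge0 W x z → y = z := by
    intro M' hM' hne'
    by_cases hq : q1 ∈ M' ∧ SimpleVertex S (q1 + v)
    · obtain ⟨hqM, hqs⟩ := hq
      have hqW := (Finset.mem_filter.mp (hM' hqM)).1
      have nq := hq1n hqW
      refine ⟨q1, hqM, ?_⟩
      intro y hy z hz ey ez
      have inn : ∀ y ∈ M', IsEdge0 W q1 y → y ∈ W ∧ Inner W y := by
        intro y hy ey
        have := Finset.mem_filter.mp (hM' hy)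
        refine ⟨this.1, ?_⟩
        rcases this.2 with h | h
        · exact h.1
        · exact absurd h.2.symm ey.1
      obtain ⟨y1, y2⟩ := inn y hy ey
      obtain ⟨z1, z2⟩ := inn z hz ez
      exact outer_simple hC hv hqW nq hqs y1 z1 y2 z2 ey ez
    · apply hnoW.exists_leaf hirr M' hne'
      intro x hx
      have := Finset.mem_filter.mp (hM' hx)
      refine ⟨this.1, ?_⟩
      rcases this.2 with h | h
      · exact h.2
      · intro hs
        rw [h.2] at hx hs
        exact hq ⟨hx, hs⟩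
  obtain ⟨ρ0, hρ0⟩ := forest_rank hsymm hirr q1 _ M rfl hdeg
  -- the colouring
  set χ0 : E3 → Bool := fun x => if Inner W x then false else decide (x ≠ q1) with hχ0
  set I := W.filter (fun x => Inner W x ∧ SimpleVertex S (x + v)) with hI
  obtain ⟨χ, ρ, hout, hfor⟩ := greedy (fun w x => x ∈ W ∧ IsEdge0 W w x)
    (fun x hx => hx.2.1 rfl) χ0 I (by
      intro w hw
      rw [hI, Finset.mem_filter] at hw
      obtain ⟨hwW, _, hws⟩ := hw
      obtain ⟨b1, b2, b3, ψ1, ψ2, ψ3, hb⟩ := hws.frame (mem_rel.mp hwW).1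
      refine ⟨b1 - v, b2 - v, b3 - v, ?_⟩
      rintro x ⟨hx, he⟩
      rcases hb.neighbour (mem_rel.mp hx).1 (Frm.edge_rel he) with h | h | h
      · left; rw [← h]; abel
      · right; left; rw [← h]; abel
      · right; right; rw [← h]; abel)
  have χout : ∀ x, ¬ Inner W x → χ x = decide (x ≠ q1) := by
    intro x hx
    rw [hout x (fun hm => hx (Finset.mem_filter.mp hm).2.1), hχ0]
    beta_reduce
    rw [if_neg hx]
  have χfalse : ∀ x, ¬ Inner W x → χ x = false → x = q1 := by
    intro x hx hc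
    rw [χout x hx] at hc
    simpa using hc
  have χtrue : ∀ x, ¬ Inner W x → χ x = true → x ≠ q1 := by
    intro x hx hc
    rw [χout x hx] at hc
    simpa using hc
  set K := W.sup ρ0 + 1 with hK
  set ρ' : E3 → ℕ := fun x => if x ∈ I then ρ x + K else ρ0 x with hρ'
  have ρI : ∀ x ∈ I, ρ' x = ρ x + K := by
    intro x hx; rw [hρ']; beta_reduce; rw [if_pos hx]
  have ρN : ∀ x, x ∉ I → ρ' x = ρ0 x := by
    intro x hx; rw [hρ']; beta_reduce; rw [if_neg hx]
  have hpre : PreCol S v χ q1 := by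
    refine ⟨⟨ρ', ?_⟩, fun x _ nx cx => χfalse x nx cx, ?_⟩
    · intro p hp hin x hx y hy ex ey cx cy rx ry
      by_cases hpI : p ∈ I
      · refine hfor p hpI x y ⟨hx, ex⟩ ⟨hy, ey⟩ cx cy ?_ ?_
        · intro hxI
          have := rx (Finset.mem_filter.mp hxI).2.1
          rw [ρI x hxI, ρI p hpI] at this
          omega
        · intro hyI
          have := ry (Finset.mem_filter.mp hyI).2.1
          rw [ρI y hyI, ρI p hpI] at this
          omega
      · have hpns : ¬ SimpleVertex S (p + v) := fun hs =>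
          hpI (Finset.mem_filter.mpr ⟨hp, hin, hs⟩)
        have hpM : p ∈ M := Finset.mem_filter.mpr ⟨hp, Or.inl ⟨hin, hpns⟩⟩
        have cp : χ p = false := by
          rw [hout p hpI, hχ0]
          beta_reduce
          rw [if_pos hin]
        have hpq1 : p ≠ q1 := by
          rintro h
          rw [h] at hp hin
          exact hq1n hp hin
        have hρp : ρ0 p < K := by
          have : ρ0 p ≤ W.sup ρ0 := Finset.le_sup (f := ρ0) hp
          omega
        have mem : ∀ x ∈ W, χ x = χ p → (Inner W x → ρ' x ≤ ρ' p) →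
            x ∈ M ∧ (x ≠ q1 → ρ0 x ≤ ρ0 p) := by
          intro x hx cx rx
          by_cases hix : Inner W x
          · have hxI : x ∉ I := by
              intro hxI
              have := rx hix
              rw [ρI x hxI, ρN p hpI] at this
              omega
            have hxns : ¬ SimpleVertex S (x + v) := fun hs =>
              hxI (Finset.mem_filter.mpr ⟨hx, hix, hs⟩)
            refine ⟨Finset.mem_filter.mpr ⟨hx, Or.inl ⟨hix, hxns⟩⟩, fun _ => ?_⟩
            have := rx hix
            rwa [ρN x hxI, ρN p hpI] at this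
          · have hxq := χfalse x hix (cx.trans cp)
            exact ⟨Finset.mem_filter.mpr ⟨hx, Or.inr ⟨hix, hxq⟩⟩, fun hh => absurd hxq hh⟩
        obtain ⟨m1, m2⟩ := mem x hx cx rx
        obtain ⟨n1, n2⟩ := mem y hy cy ry
        exact hρ0 p hpM hpq1 x m1 y n1 ex ey m2 n2
    · intro p hp r hr np nr he hc hin
      have hb := bad_of_chord hC hv hp hr np nr he hin
      cases hcp : χ p
      · have h1 := χfalse p np hcp
        have h2 := χfalse r nr (hc.symm.trans hcp)
        exact absurd (h1.trans h2.symm) he.1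
      · have h1 := χtrue p np hcp
        have h2 := χtrue r nr (hc.symm.trans hcp)
        rcases hgood _ _ hb with h | h | h
        · exact absurd (hpq p hp np h) h1
        · exact absurd (hpq r hr nr h) h2
        · exact h
  exact PreCol.hasHamTet _ S rfl hS hspan hv hpre

end

end Run7.h169
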