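import Pool.Agent.Run7.h169.Assemble

set_option autoImplicit false
open scoped Classical Topology
open Filter

namespace Run7.h169

/-- A simple vertex: the cone at the vertex is generated by three linearly independent edges. -/
def SimpleVertex (S : Finset E3) (x : E3) : Prop :=
  ∃ a b c : E3, a ∈ S ∧ b ∈ S ∧ c ∈ S ∧ AffineIndependent ℝ ![x, a, b, c] ∧
    ∀ y ∈ S, ∃ α β γ : ℝ, 0 ≤ α ∧ 0 ≤ β ∧ 0 ≤ γ ∧
      y - x = α • (a - x) + β • (b - x) + γ • (c - x)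

/-- Points in convex position. -/
def ConvPos (S : Finset E3) : Prop :=
  ∀ p ∈ S, p ∉ convexHull ℝ ((S.erase p : Finset E3) : Set E3)

/-- A frame at a simple vertex: neighbours and coordinate functionals. -/
structure Frm (S : Finset E3) (v a1 a2 a3 : E3) (φ1 φ2 φ3 : E3 →ₗ[ℝ] ℝ) : Prop where
  hv : v ∈ S
  h1 : a1 ∈ S
  h2 : a2 ∈ S
  h3 : a3 ∈ S
  d11 : φ1 (a1 - v) = 1
  d12 : φ1 (a2 - v) = 0
  d13 : φ1 (a3 - v) = 0
  d21 : φ2 (a1 - v) = 0
  d22 : φ2 (a2 - v) = 1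
  d23 : φ2 (a3 - v) = 0
  d31 : φ3 (a1 - v) = 0
  d32 : φ3 (a2 - v) = 0
  d33 : φ3 (a3 - v) = 1
  ext : ∀ z, φ1 z • (a1 - v) + φ2 z • (a2 - v) + φ3 z • (a3 - v) = z
  pos : ∀ y ∈ S, 0 ≤ φ1 (y - v) ∧ 0 ≤ φ2 (y - v) ∧ 0 ≤ φ3 (y - v)

theorem Frm.swap12 {S : Finset E3} {v a1 a2 a3 : E3} {φ1 φ2 φ3 : E3 →ₗ[ℝ] ℝ}
    (h : Frm S v a1 a2 a3 φ1 φ2 φ3) : Frm S v a2 a1 a3 φ2 φ1 φ3 :=
  ⟨h.hv, h.h2, h.h1, h.h3, h.d22, h.d21, h.d23, h.d12, h.d11, h.d13, h.d32, h.d31, h.d33,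
    fun z => by rw [add_comm (φ2 z • _)]; exact h.ext z,
    fun y hy => ⟨(h.pos y hy).2.1, (h.pos y hy).1, (h.pos y hy).2.2⟩⟩

theorem Frm.swap23 {S : Finset E3} {v a1 a2 a3 : E3} {φ1 φ2 φ3 : E3 →ₗ[ℝ] ℝ}
    (h : Frm S v a1 a2 a3 φ1 φ2 φ3) : Frm S v a1 a3 a2 φ1 φ3 φ2 :=
  ⟨h.hv, h.h1, h.h3, h.h2, h.d11, h.d13, h.d12, h.d31, h.d33, h.d32, h.d21, h.d23, h.d22,
    fun z => by
      rw [add_assoc, add_comm (φ3 z • _), ← add_assoc]; exact h.ext z,
    fun y hy => ⟨(h.pos y hy).1, (h.pos y hy).2.2, (h.pos y hy).2.1⟩⟩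

theorem SimpleVertex.frame {S : Finset E3} {v : E3} (hv : v ∈ S) (h : SimpleVertex S v) :
    ∃ a1 a2 a3 φ1 φ2 φ3, Frm S v a1 a2 a3 φ1 φ2 φ3 := by
  obtain ⟨a, b, c, ha, hb, hc, hai, hcone⟩ := h
  -- the three difference vectors form a nice set
  have hli : LinearIndependent ℝ ![a - v, b - v, c - v] := by
    rw [affineIndependent_iff_linearIndependent_vsub ℝ _ (0 : Fin 4)] at hai
    have h2 := hai.comp (fun i : Fin 3 => (⟨i.succ, Fin.succ_ne_zero i⟩ : {x : Fin 4 // x ≠ 0}))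
      (by intro i j hij; simpa using hij)
    have e : (![a - v, b - v, c - v] : Fin 3 → E3) =
        (fun i : {x : Fin 4 // x ≠ 0} => ![v, a, b, c] i -ᵥ ![v, a, b, c] 0) ∘
          (fun i : Fin 3 => (⟨i.succ, Fin.succ_ne_zero i⟩ : {x : Fin 4 // x ≠ 0})) := by
      funext i
      fin_cases i <;> simp
    rw [e]
    exact h2
  have hcard : Fintype.card (Fin 3) = Module.finrank ℝ E3 := by simp
  set bb := basisOfLinearIndependentOfCardEqFinrank hli hcard with hbb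
  have hbv : ∀ i, bb i = ![a - v, b - v, c - v] i := fun i => by
    rw [hbb, coe_basisOfLinearIndependentOfCardEqFinrank]
  have e0 : bb 0 = a - v := hbv 0
  have e1 : bb 1 = b - v := hbv 1
  have e2 : bb 2 = c - v := hbv 2
  have hco : ∀ i j, bb.coord i (bb j) = if j = i then 1 else 0 := by
    intro i j
    rw [Module.Basis.coord_apply, Module.Basis.repr_self, Finsupp.single_apply]
  refine ⟨a, b, c, bb.coord 0, bb.coord 1, bb.coord 2, hv, ha, hb, hc, ?_, ?_, ?_, ?_, ?_, ?_,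
    ?_, ?_, ?_, ?_, ?_⟩
  · rw [← e0, hco]; simp
  · rw [← e1, hco]; simp
  · rw [← e2, hco]; simp
  · rw [← e0, hco]; simp
  · rw [← e1, hco]; simp
  · rw [← e2, hco]; simp
  · rw [← e0, hco]; simp
  · rw [← e1, hco]; simp
  · rw [← e2, hco]; simp
  · intro z
    have := bb.sum_repr z
    rw [Fin.sum_univ_three] at this
    rw [← e0, ← e1, ← e2]
    exact this
  · intro y hy
    obtain ⟨α, β, γ, h1, h2, h3, h4⟩ := hcone y hy
    rw [h4, ← e0, ← e1, ← e2]
    simp only [map_add, map_smul, hco]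
    simp [h1, h2, h3]

/-- Edges of the polytope. -/
def IsEdgeS (S : Finset E3) (p q : E3) : Prop :=
  p ≠ q ∧ ∃ f : E3 →ₗ[ℝ] ℝ, f p = f q ∧ ∀ x ∈ S, x ≠ p → x ≠ q → f x < f p

theorem IsEdgeS.symm {S : Finset E3} {p q : E3} (h : IsEdgeS S p q) : IsEdgeS S q p := by
  obtain ⟨h1, f, h2, h3⟩ := h
  exact ⟨h1.symm, f, h2.symm, fun x hx a b => by rw [← h2]; exact h3 x hx b a⟩

section

variable {S : Finset E3} {v a1 a2 a3 : E3} {φ1 φ2 φ3 : E3 →ₗ[ℝ] ℝ}

/-- The neighbours of a simple vertex. -/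
theorem Frm.neighbour (h : Frm S v a1 a2 a3 φ1 φ2 φ3) {x : E3} (hx : x ∈ S)
    (he : IsEdgeS S v x) : x = a1 ∨ x = a2 ∨ x = a3 := by
  by_contra hcon
  push Not at hcon
  obtain ⟨hne, f, hf1, hf2⟩ := he
  have k1 : a1 ≠ v := by
    rintro rfl
    have := h.d11; rw [sub_self, map_zero] at this; exact zero_ne_one this
  have k2 : a2 ≠ v := by
    rintro rfl
    have := h.d22; rw [sub_self, map_zero] at this; exact zero_ne_one this
  have k3 : a3 ≠ v := by
    rintro rfl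
    have := h.d33; rw [sub_self, map_zero] at this; exact zero_ne_one this
  have l1 := hf2 a1 h.h1 k1 (Ne.symm hcon.1)
  have l2 := hf2 a2 h.h2 k2 (Ne.symm hcon.2.1)
  have l3 := hf2 a3 h.h3 k3 (Ne.symm hcon.2.2)
  obtain ⟨p1, p2, p3⟩ := h.pos x hx
  have e := congrArg f (h.ext (x - v))
  simp only [map_add, map_smul, map_sub, smul_eq_mul] at e p1 p2 p3
  rw [← hf1, sub_self] at e
  have z1 : (φ1 x - φ1 v) = 0 := by nlinarith
  have z2 : (φ2 x - φ2 v) = 0 := by nlinarith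
  have z3 : (φ3 x - φ3 v) = 0 := by nlinarith
  have e' := h.ext (x - v)
  rw [map_sub, map_sub, map_sub, z1, z2, z3] at e'
  simp only [zero_smul, add_zero] at e'
  exact hne (sub_eq_zero.mp e'.symm).symm

/-- Convex position for collinear triples. -/
theorem ConvPos.not_between (hS : ConvPos S) {x y z : E3} (hx : x ∈ S) (hy : y ∈ S) (hz : z ∈ S)
    (hxy : y ≠ x) (hxz : z ≠ x) {t : ℝ} (ht0 : 0 ≤ t) (ht1 : t ≤ 1)
    (h : x = (1 - t) • y + t • z) : False := by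
  apply hS x hx
  have hy' : y ∈ ((S.erase x : Finset E3) : Set E3) := by
    rw [Finset.mem_coe, Finset.mem_erase]; exact ⟨hxy, hy⟩
  have hz' : z ∈ ((S.erase x : Finset E3) : Set E3) := by
    rw [Finset.mem_coe, Finset.mem_erase]; exact ⟨hxz, hz⟩
  have := (convex_convexHull ℝ ((S.erase x : Finset E3) : Set E3))
    (subset_convexHull ℝ _ hy') (subset_convexHull ℝ _ hz') (sub_nonneg.mpr ht1) ht0
    (by ring)
  rw [← h] at this
  exact this

/-- A vertex on the ray of a neighbour is the neighbour. -/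
theorem Frm.ray (hS : ConvPos S) (h : Frm S v a1 a2 a3 φ1 φ2 φ3) {x : E3} (hx : x ∈ S)
    (hxv : x ≠ v) (hz1 : φ1 (x - v) = 0) (hz2 : φ2 (x - v) = 0) : x = a3 := by
  by_contra hne
  have e := h.ext (x - v)
  rw [hz1, hz2, zero_smul, zero_smul, zero_add, zero_add] at e
  obtain ⟨_, _, p3⟩ := h.pos x hx
  set t := φ3 (x - v) with ht
  have k3 : a3 ≠ v := by
    rintro rfl
    have := h.d33; rw [sub_self, map_zero] at this; exact zero_ne_one this
  have ht0 : t ≠ 0 := by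
    intro h0
    rw [h0, zero_smul] at e
    exact hxv (sub_eq_zero.mp e.symm)
  have htp : 0 < t := lt_of_le_of_ne p3 (Ne.symm ht0)
  rcases le_or_gt t 1 with h1 | h1
  · -- x between v and a3
    refine hS.not_between hx h.hv h.h3 (Ne.symm hxv) (Ne.symm hne) htp.le h1 ?_
    have : x = v + t • (a3 - v) := by rw [e]; module
    rw [this]; module
  · refine hS.not_between (x := a3) (y := v) (z := x) (t := 1 / t) h.h3 h.hv hx (Ne.symm k3) hne
      (by positivity) (by rw [div_le_one htp]; exact h1.le) ?_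
    have : x = v + t • (a3 - v) := by rw [e]; module
    rw [this]
    match_scalars <;> field_simp <;> ring

end

end Run7.h169
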