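import Pool.Agent.Run7.h169.Basic

set_option autoImplicit false
open scoped Classical Topology
open Filter

namespace Run7.h169

theorem gen2 {a b : ℝ} (h : a ≠ 0 ∨ b ≠ 0) : ∀ᶠ δ in 𝓝[>] (0 : ℝ), a + δ * b ≠ 0 := by
  by_cases ha : a = 0
  · have hb : b ≠ 0 := by
      rcases h with h | h
      · exact absurd ha h
      · exact h
    filter_upwards [self_mem_nhdsWithin] with δ hδ
    have : (0 : ℝ) < δ := hδ
    rw [ha, zero_add]
    exact mul_ne_zero this.ne' hb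
  · have hc : Continuous (fun δ : ℝ => a + δ * b) := by fun_prop
    have ht : Tendsto (fun δ : ℝ => a + δ * b) (𝓝[>] 0) (𝓝 (a + 0 * b)) :=
      (hc.tendsto 0).mono_left nhdsWithin_le_nhds
    apply ht.eventually_ne
    simpa using ha

theorem gen3 {a b c : ℝ} (h : a ≠ 0 ∨ b ≠ 0 ∨ c ≠ 0) :
    ∀ᶠ δ in 𝓝[>] (0 : ℝ), a + δ * b + δ ^ 2 * c ≠ 0 := by
  by_cases ha : a = 0
  · have hbc : b ≠ 0 ∨ c ≠ 0 := by
      rcases h with h | h
      · exact absurd ha h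
      · exact h
    filter_upwards [self_mem_nhdsWithin, gen2 hbc] with δ hδ h2
    have : (0 : ℝ) < δ := hδ
    have h3 : a + δ * b + δ ^ 2 * c = δ * (b + δ * c) := by rw [ha]; ring
    rw [h3]
    exact mul_ne_zero this.ne' h2
  · have hc : Continuous (fun δ : ℝ => a + δ * b + δ ^ 2 * c) := by fun_prop
    have ht : Tendsto (fun δ : ℝ => a + δ * b + δ ^ 2 * c) (𝓝[>] 0)
        (𝓝 (a + 0 * b + 0 ^ 2 * c)) :=
      (hc.tendsto 0).mono_left nhdsWithin_le_nhds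
    apply ht.eventually_ne
    simpa using ha

theorem ev_neg {a b : ℝ} (h : a < 0) : ∀ᶠ δ in 𝓝[>] (0 : ℝ), a + δ * b < 0 := by
  have hc : Continuous (fun δ : ℝ => a + δ * b) := by fun_prop
  have ht : Tendsto (fun δ : ℝ => a + δ * b) (𝓝[>] 0) (𝓝 (a + 0 * b)) :=
    (hc.tendsto 0).mono_left nhdsWithin_le_nhds
  exact ht.eventually_lt_const (by simpa using h)

theorem ev_pos {a b : ℝ} (h : 0 < a) : ∀ᶠ δ in 𝓝[>] (0 : ℝ), 0 < a + δ * b := by
  have hc : Continuous (fun δ : ℝ => a + δ * b) := by fun_prop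
  have ht : Tendsto (fun δ : ℝ => a + δ * b) (𝓝[>] 0) (𝓝 (a + 0 * b)) :=
    (hc.tendsto 0).mono_left nhdsWithin_le_nhds
  exact ht.eventually_const_lt (by simpa using h)

/-- Passing to the limit in a finite union of nice cones. -/
theorem cone_limit {B : Finset (Finset E3)} (hB : ∀ τ ∈ B, Nice τ) {y z : E3}
    (h : ∃ᶠ δ in 𝓝[>] (0 : ℝ), ∃ τ ∈ B, y + δ • z ∈ cone τ) :
    ∃ τ ∈ B, y ∈ cone τ ∧ ∃ᶠ δ in 𝓝[>] (0 : ℝ), y + δ • z ∈ cone τ := by
  have h1 : ∃ τ ∈ B, ∃ᶠ δ in 𝓝[>] (0 : ℝ), y + δ • z ∈ cone τ := by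
    by_contra hcon
    push Not at hcon
    apply h
    have : ∀ τ ∈ B, ∀ᶠ δ in 𝓝[>] (0 : ℝ), ¬ (y + δ • z ∈ cone τ) := by
      intro τ hτ
      exact hcon τ hτ
    have h2 := (Filter.eventually_all_finset B).mpr this
    filter_upwards [h2] with δ hδ
    rintro ⟨τ, hτ, hy⟩
    exact hδ τ hτ hy
  obtain ⟨τ, hτ, hf⟩ := h1
  refine ⟨τ, hτ, ?_, hf⟩
  rw [mem_cone_iff_crd (hB τ hτ)]
  intro x hx
  by_contra hneg
  push Not at hneg
  apply hf
  filter_upwards [ev_neg (b := crd τ x z) hneg] with δ hδ hmem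
  rw [mem_cone_iff_crd (hB τ hτ)] at hmem
  have := hmem x hx
  rw [map_add, map_smul, smul_eq_mul] at this
  linarith

end Run7.h169
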