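import Pool.Agent.Run7.h169.Trans

set_option autoImplicit false
open scoped Classical Topology
open Filter

namespace Run7.h169

/-- Greedy colouring: each vertex of `I`, having at most three neighbours, gets a colour that it
shares with at most one of its earlier neighbours. -/
theorem greedy (N : E3 → E3 → Prop) (hirr : ∀ x, ¬ N x x) (χ0 : E3 → Bool) (I : Finset E3)
    (hN : ∀ w ∈ I, ∃ n1 n2 n3, ∀ x, N w x → x = n1 ∨ x = n2 ∨ x = n3) :
    ∃ χ : E3 → Bool, ∃ ρ : E3 → ℕ, (∀ x, x ∉ I → χ x = χ0 x) ∧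
      ∀ p ∈ I, ∀ x y, N p x → N p y → χ x = χ p → χ y = χ p → (x ∈ I → ρ x ≤ ρ p) →
        (y ∈ I → ρ y ≤ ρ p) → x = y := by
  induction I using Finset.induction_on with
  | empty => exact ⟨χ0, fun _ => 0, fun _ _ => rfl, fun p hp => absurd hp (Finset.notMem_empty p)⟩
  | insert w I hw ih =>
    obtain ⟨χ, ρ, h1, h2⟩ := ih (fun x hx => hN x (Finset.mem_insert_of_mem hx))
    obtain ⟨n1, n2, n3, hn⟩ := hN w (Finset.mem_insert_self _ _)
    -- choose the colour
    obtain ⟨c, hc⟩ : ∃ c : Bool, ∀ x y, N w x → N w y → χ x = c → χ y = c → x = y := by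
      by_cases ht : ∀ x y, N w x → N w y → χ x = true → χ y = true → x = y
      · exact ⟨true, ht⟩
      · push Not at ht
        obtain ⟨x0, y0, hx0, hy0, cx0, cy0, hxy⟩ := ht
        refine ⟨false, ?_⟩
        intro x y hx hy cx cy
        have d1 : x ≠ x0 := by rintro rfl; rw [cx0] at cx; simp at cx
        have d2 : x ≠ y0 := by rintro rfl; rw [cy0] at cx; simp at cx
        have d3 : y ≠ x0 := by rintro rfl; rw [cx0] at cy; simp at cy
        have d4 : y ≠ y0 := by rintro rfl; rw [cy0] at cy; simp at cy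
        by_contra hne
        have hsub : ({x0, y0, x, y} : Finset E3) ⊆ {n1, n2, n3} := by
          intro z hz
          simp only [Finset.mem_insert, Finset.mem_singleton] at hz ⊢
          rcases hz with rfl | rfl | rfl | rfl
          · exact hn _ hx0
          · exact hn _ hy0
          · exact hn _ hx
          · exact hn _ hy
        have h4 : ({x0, y0, x, y} : Finset E3).card = 4 := by
          rw [Finset.card_insert_of_notMem, Finset.card_insert_of_notMem, Finset.card_pair hne]
          · simp only [Finset.mem_insert, Finset.mem_singleton, not_or]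
            exact ⟨Ne.symm d2, Ne.symm d4⟩
          · simp only [Finset.mem_insert, Finset.mem_singleton, not_or]
            exact ⟨hxy, Ne.symm d1, Ne.symm d3⟩
        have h5 := Finset.card_le_card hsub
        rw [h4] at h5
        have h6 := Finset.card_le_three (a := n1) (b := n2) (c := n3)
        omega
    set M := (insert w I).sup ρ with hM
    refine ⟨Function.update χ w c, Function.update ρ w (M + 1), ?_, ?_⟩
    · intro x hx
      rw [Finset.mem_insert, not_or] at hx
      rw [Function.update_of_ne hx.1]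
      exact h1 x hx.2
    · intro p hp x y hx hy cx cy rx ry
      rcases Finset.mem_insert.mp hp with rfl | hpI
      · have hxp : x ≠ p := by rintro rfl; exact hirr _ hx
        have hyp : y ≠ p := by rintro rfl; exact hirr _ hy
        rw [Function.update_self, Function.update_of_ne hxp] at cx
        rw [Function.update_self, Function.update_of_ne hyp] at cy
        exact hc x y hx hy cx cy
      · have hpw : p ≠ w := by rintro rfl; exact hw hpI
        have hρp : ρ p ≤ M := Finset.le_sup (f := ρ) (Finset.mem_insert_of_mem hpI)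
        have hxw : x ≠ w := by
          rintro rfl
          have := rx (Finset.mem_insert_self _ _)
          rw [Function.update_self, Function.update_of_ne hpw] at this
          omega
        have hyw : y ≠ w := by
          rintro rfl
          have := ry (Finset.mem_insert_self _ _)
          rw [Function.update_self, Function.update_of_ne hpw] at this
          omega
        rw [Function.update_of_ne hpw, Function.update_of_ne hxw] at cx
        rw [Function.update_of_ne hpw, Function.update_of_ne hyw] at cy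
        apply h2 p hpI x y hx hy cx cy
        · intro hxI
          have := rx (Finset.mem_insert_of_mem hxI)
          rwa [Function.update_of_ne hpw, Function.update_of_ne hxw] at this
        · intro hyI
          have := ry (Finset.mem_insert_of_mem hyI)
          rwa [Function.update_of_ne hpw, Function.update_of_ne hyw] at this

theorem ray_comb {u w x x' : E3} {α γ α' γ' : ℝ} (hα : α ≠ 0) (hx : α • u + γ • w = x)
    (hx' : α' • u + γ' • w = x') : x' = (γ' - α' / α * γ) • w + (α' / α) • x := by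
  rw [← hx, ← hx']
  match_scalars
  · field_simp
  · ring

/-- Two edges of a fan leaving a vertex in the same half-plane coincide. -/
theorem Fan.corner_unique {W : Finset E3} {B : Finset (Finset E3)} (hF : Fan W B)
    {a q r q' r' : E3} (h1 : ({a, q, r} : Finset E3) ∈ B) (h2 : ({a, q', r'} : Finset E3) ∈ B)
    {l m : ℝ} (hm : 0 < m) (hq : q' = l • a + m • q) : q = q' := by
  by_contra hne
  have hN1 := hF.nice _ h1
  have hN2 := hF.nice _ h2
  obtain ⟨d1, d2, d3⟩ := hN1.distinct
  obtain ⟨e1, e2, e3⟩ := hN2.distinct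
  set M := |l| with hM
  have hM0 : 0 ≤ M := abs_nonneg l
  have hMl : 0 ≤ M + l := by
    have := neg_abs_le l
    linarith
  have k1 : (M + l) • a + m • q + (0 : ℝ) • r = M • a + q' := by rw [hq]; module
  have k2 : M • a + (1 : ℝ) • q' + (0 : ℝ) • r' = M • a + q' := by module
  have m1 : M • a + q' ∈ cone {a, q, r} := mem_cone3 hMl hm.le le_rfl k1
  have m2 : M • a + q' ∈ cone {a, q', r'} := mem_cone3 hM0 zero_le_one le_rfl k2
  have m3 := hF.inter _ h1 _ h2 _ m1 m2
  have hqm : q ∈ ({a, q', r'} : Finset E3) := by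
    apply support_of_mem_cone_inter hN1 m3 (by simp)
    rw [(crd3_unique hN1 k1).2.1]; exact hm.ne'
  simp only [Finset.mem_insert, Finset.mem_singleton] at hqm
  rcases hqm with h | h | h
  · exact d1 h.symm
  · exact hne h
  · subst h
    have k3 : l • a + (0 : ℝ) • q' + m • q = q' := by
      conv_rhs => rw [hq]
      module
    have k4 := (crd3_unique hN2 k3).2.1
    rw [crd_self hN2 (by simp)] at k4
    exact one_ne_zero k4

section

variable {S : Finset E3} {v a1 a2 a3 : E3} {φ1 φ2 φ3 : E3 →ₗ[ℝ] ℝ}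

theorem Frm.edge_rel {p q : E3} (h : IsEdge0 (rel S v) p q) : IsEdgeS S (p + v) (q + v) := by
  obtain ⟨hne, f, h1, h2, h3⟩ := h
  refine ⟨fun h => hne (add_right_cancel h), f, ?_, ?_⟩
  · rw [map_add, map_add, h1, h2]
  · intro x hx hxp hxq
    rw [map_add, h1]
    by_cases hxv : x = v
    · rw [hxv]; linarith
    · have := h3 (x - v) (sub_mem_rel hx hxv)
        (by rintro rfl; exact hxp (by abel)) (by rintro rfl; exact hxq (by abel))
      rw [map_sub] at this
      linarith

theorem Frm.a1_mem (h : Frm S v a1 a2 a3 φ1 φ2 φ3) : a1 - v ∈ rel S v := by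
  apply sub_mem_rel h.h1
  rintro rfl
  have := h.d11; rw [sub_self, map_zero] at this; exact zero_ne_one this

theorem Frm.pos_rel (h : Frm S v a1 a2 a3 φ1 φ2 φ3) {z : E3} (hz : z ∈ rel S v) :
    0 ≤ φ1 z ∧ 0 ≤ φ2 z ∧ 0 ≤ φ3 z := by
  have := h.pos _ (mem_rel.mp hz).1
  rwa [add_sub_cancel_right] at this

theorem Frm.cone_iff (h : Frm S v a1 a2 a3 φ1 φ2 φ3) {y : E3} :
    y ∈ cone (rel S v) ↔ 0 ≤ φ1 y ∧ 0 ≤ φ2 y ∧ 0 ≤ φ3 y := by
  constructor
  · rintro ⟨c, hc, rfl⟩
    simp only [map_sum, map_smul, smul_eq_mul]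
    refine ⟨Finset.sum_nonneg fun x hx => mul_nonneg (hc x hx) (h.pos_rel hx).1,
      Finset.sum_nonneg fun x hx => mul_nonneg (hc x hx) (h.pos_rel hx).2.1,
      Finset.sum_nonneg fun x hx => mul_nonneg (hc x hx) (h.pos_rel hx).2.2⟩
  · rintro ⟨h1, h2, h3⟩
    rw [← h.ext y]
    apply cone_add (cone_add _ _) _
    · exact cone_smul h1 (mem_cone_self h.a1_mem)
    · exact cone_smul h2 (mem_cone_self h.swap12.a1_mem)
    · exact cone_smul h3 (mem_cone_self h.swap23.swap12.a1_mem)

theorem Frm.inner_iff (h : Frm S v a1 a2 a3 φ1 φ2 φ3) {y : E3} :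
    Inner (rel S v) y ↔ 0 < φ1 y ∧ 0 < φ2 y ∧ 0 < φ3 y := by
  constructor
  · intro hin
    have hpos : ∀ᶠ δ in 𝓝[>] (0 : ℝ), 0 < δ := self_mem_nhdsWithin
    obtain ⟨δ, h1, h2⟩ := ((hin (-((a1 - v) + (a2 - v) + (a3 - v)))).and hpos).exists
    rw [h.cone_iff] at h1
    simp only [map_add, map_smul, map_neg, h.d11, h.d12, h.d13, h.d21, h.d22, h.d23, h.d31,
      h.d32, h.d33, smul_eq_mul] at h1
    refine ⟨?_, ?_, ?_⟩ <;> linarith [h1.1, h1.2.1, h1.2.2]
  · rintro ⟨h1, h2, h3⟩ r
    filter_upwards [ev_pos (b := φ1 r) h1, ev_pos (b := φ2 r) h2, ev_pos (b := φ3 r) h3]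
      with δ e1 e2 e3
    rw [h.cone_iff]
    simp only [map_add, map_smul, smul_eq_mul]
    exact ⟨e1.le, e2.le, e3.le⟩

/-- A vertex on the ray of the third neighbour. -/
theorem Frm.ray_rel (hS : ConvPos S) (h : Frm S v a1 a2 a3 φ1 φ2 φ3) {z : E3}
    (hz : z ∈ rel S v) (h1 : φ1 z = 0) (h2 : φ2 z = 0) : z = a3 - v := by
  have hz' := mem_rel.mp hz
  have := h.ray hS hz'.1 (by
    intro hh
    apply hz'.2
    have : z + v - v = v - v := by rw [hh]
    simpa using this) (by rw [add_sub_cancel_right]; exact h1)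
    (by rw [add_sub_cancel_right]; exact h2)
  rw [← this]; abel

/-- The third neighbour of a simple vertex has no edge leaving both facets. -/
theorem Frm.no_edge_a3 (hS : ConvPos S) (hsimple : ∀ x ∈ S, SimpleVertex S x)
    (h : Frm S v a1 a2 a3 φ1 φ2 φ3) {q : E3} (hq : q ∈ S) (he : IsEdgeS S a3 q)
    (h1 : 0 < φ1 (q - v)) (h2 : 0 < φ2 (q - v)) : False := by
  obtain ⟨b1, b2, ψ1, ψ2, ψ3, c1, c2, hc1, hc2, hw, hF1, hF2⟩ := h.move hS (hsimple a3 h.h3)
  rcases hw.neighbour hq he with rfl | rfl | rfl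
  · have := hF2 q
    rw [hw.d21, mul_zero] at this
    linarith
  · have := hF1 q
    rw [hw.d12, mul_zero] at this
    linarith
  · rw [sub_self, map_zero] at h1
    exact lt_irrefl _ h1

/-- The neighbours of a simple vertex, seen from the apex. -/
theorem degree_rel (hsimple : ∀ x ∈ S, SimpleVertex S x) {w : E3} (hw : w ∈ rel S v) :
    ∃ n1 n2 n3, ∀ x, (x ∈ rel S v ∧ IsEdge0 (rel S v) w x) → x = n1 ∨ x = n2 ∨ x = n3 := by
  have hw' := mem_rel.mp hw
  obtain ⟨b1, b2, b3, ψ1, ψ2, ψ3, hb⟩ := (hsimple _ hw'.1).frame hw'.1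
  refine ⟨b1 - v, b2 - v, b3 - v, ?_⟩
  rintro x ⟨hx, he⟩
  rcases hb.neighbour (mem_rel.mp hx).1 (Frm.edge_rel he) with h | h | h
  · left; rw [← h]; abel
  · right; left; rw [← h]; abel
  · right; right; rw [← h]; abel

/-- The colouring of a simple polytope seen from a good flag. -/
theorem exists_col (hS : ConvPos S) (hsimple : ∀ x ∈ S, SimpleVertex S x)
    (h : Frm S v a1 a2 a3 φ1 φ2 φ3) (hgood : ∀ p q, ¬ BadChord S v φ1 φ2 φ3 p q) :
    ∃ χ, Col (rel S v) χ := by
  set W := rel S v with hW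
  set χ0 : E3 → Bool := fun w => decide (¬ (φ2 w = 0 ∧ 0 < φ1 w)) with hχ0
  obtain ⟨χ, ρ, hout, hfor⟩ := greedy (fun w x => x ∈ W ∧ IsEdge0 W w x)
    (fun x hx => hx.2.1 rfl) χ0 (W.filter (Inner W))
    (fun w hw => degree_rel hsimple (Finset.mem_filter.mp hw).1)
  have hout' : ∀ x, ¬ Inner W x → χ x = χ0 x := by
    intro x hx
    apply hout
    intro hm
    exact hx (Finset.mem_filter.mp hm).2
  have χt : ∀ x, ¬ Inner W x → χ x = true → ¬ (φ2 x = 0 ∧ 0 < φ1 x) := by
    intro x hx hc
    rw [hout' x hx] at hc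
    exact of_decide_eq_true hc
  have χf : ∀ x, ¬ Inner W x → χ x = false → (φ2 x = 0 ∧ 0 < φ1 x) := by
    intro x hx hc
    rw [hout' x hx] at hc
    exact not_not.mp (of_decide_eq_false hc)
  have pos := fun z (hz : z ∈ W) => h.pos_rel hz
  -- monochromatic chords of the colour true
  have chordT : ∀ p ∈ W, ∀ q ∈ W, IsEdge0 W p q → φ1 p = 0 → 0 < φ3 p → φ3 q = 0 → 0 < φ1 q →
      0 < φ2 q → False := by
    intro p hp q hq he g1 g2 g3 g4 g5
    have heS := Frm.edge_rel he
    rcases eq_or_lt_of_le (pos p hp).2.1 with g6 | g6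
    · have hp3 : p = a3 - v := h.ray_rel hS hp g1 g6.symm
      rw [hp3] at heS
      have e : a3 - v + v = a3 := by abel
      rw [e] at heS
      exact h.no_edge_a3 hS hsimple (mem_rel.mp hq).1 heS (by rw [add_sub_cancel_right]; exact g4)
        (by rw [add_sub_cancel_right]; exact g5)
    · apply hgood (p + v) (q + v)
      refine ⟨(mem_rel.mp hp).1, (mem_rel.mp hq).1, ?_, ?_, ?_, ?_, ?_, ?_, heS⟩ <;>
        rw [add_sub_cancel_right] <;> assumption
  refine ⟨χ, ?_, ?_, ?_, ?_⟩
  · -- both colours occur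
    refine ⟨a1 - v, h.a1_mem, a3 - v, h.swap23.swap12.a1_mem, ?_⟩
    have n1 : ¬ Inner W (a1 - v) := by
      rw [h.inner_iff, h.d21]; intro hh; exact lt_irrefl _ hh.2.1
    have n3 : ¬ Inner W (a3 - v) := by
      rw [h.inner_iff, h.d13]; intro hh; exact lt_irrefl _ hh.1
    intro hcon
    by_cases hc : χ (a1 - v) = true
    · exact χt _ n1 hc ⟨h.d21, by rw [h.d11]; exact one_pos⟩
    · have hc' : χ (a1 - v) = false := by simpa using hc
      rw [hcon] at hc'
      have := (χf _ n3 hc').2
      rw [h.d13] at this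
      exact lt_irrefl _ this
  · -- no monochromatic chords
    intro p hp q hq np nq he hc hin
    rw [h.inner_iff] at hin np nq
    simp only [map_add] at hin
    obtain ⟨i1, i2, i3⟩ := hin
    obtain ⟨p1, p2, p3⟩ := pos p hp
    obtain ⟨q1, q2, q3⟩ := pos q hq
    have np' : ¬ Inner W p := by rw [h.inner_iff]; exact np
    have nq' : ¬ Inner W q := by rw [h.inner_iff]; exact nq
    by_cases hcp : χ p = true
    · have hcq : χ q = true := by rw [← hc]; exact hcp
      have tp := χt p np' hcp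
      have tq := χt q nq' hcq
      -- p lies on the first facet or on the third
      have sp : φ1 p = 0 ∨ (0 < φ1 p ∧ 0 < φ2 p ∧ φ3 p = 0) := by
        rcases eq_or_lt_of_le p1 with e | e
        · left; exact e.symm
        · right
          have e2 : 0 < φ2 p := lt_of_le_of_ne p2 (fun h0 => tp ⟨h0.symm, e⟩)
          refine ⟨e, e2, ?_⟩
          rcases eq_or_lt_of_le p3 with e3 | e3
          · exact e3.symm
          · exact absurd ⟨e, e2, e3⟩ np
      have sq : φ1 q = 0 ∨ (0 < φ1 q ∧ 0 < φ2 q ∧ φ3 q = 0) := by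
        rcases eq_or_lt_of_le q1 with e | e
        · left; exact e.symm
        · right
          have e2 : 0 < φ2 q := lt_of_le_of_ne q2 (fun h0 => tq ⟨h0.symm, e⟩)
          refine ⟨e, e2, ?_⟩
          rcases eq_or_lt_of_le q3 with e3 | e3
          · exact e3.symm
          · exact absurd ⟨e, e2, e3⟩ nq
      rcases sp with sp | ⟨sp1, sp2, sp3⟩
      · rcases sq with sq | ⟨sq1, sq2, sq3⟩
        · rw [sp, sq] at i1; simp at i1
        · exact chordT p hp q hq he sp (by linarith) sq3 sq1 sq2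
      · rcases sq with sq | ⟨sq1, sq2, sq3⟩
        · exact chordT q hq p hp he.symm sq (by linarith) sp3 sp1 sp2
        · rw [sp3, sq3] at i3; simp at i3
    · have hcp' : χ p = false := by simpa using hcp
      have hcq : χ q = false := by rw [← hc]; exact hcp'
      have := (χf p np' hcp').1
      have := (χf q nq' hcq).1
      linarith
  · -- forest condition
    refine ⟨ρ, ?_⟩
    intro p hp hin x hx y hy ex ey cx cy rx ry
    exact hfor p (Finset.mem_filter.mpr ⟨hp, hin⟩) x y ⟨hx, ex⟩ ⟨hy, ey⟩ cx cy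
      (fun hh => rx (Finset.mem_filter.mp hh).2) (fun hh => ry (Finset.mem_filter.mp hh).2)
  · -- at most two bichromatic outer edges
    intro B hF
    set X := (W ×ˢ W).filter
      (fun e => χ e.1 = true ∧ χ e.2 = false ∧ cnt B e.1 e.2 = 1) with hX
    -- structure of such an edge
    have hstr : ∀ e ∈ X, (e.1 = a3 - v ∧ φ2 e.2 = 0 ∧ 0 < φ1 e.2 ∧ e.1 ≠ e.2 ∧
          (∃ r, ({e.1, e.2, r} : Finset E3) ∈ B)) ∨
        (e.2 = a1 - v ∧ φ3 e.1 = 0 ∧ 0 < φ2 e.1 ∧ e.1 ≠ e.2 ∧
          (∃ r, ({e.1, e.2, r} : Finset E3) ∈ B)) := by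
      intro e he
      rw [hX, Finset.mem_filter, Finset.mem_product] at he
      obtain ⟨⟨hp, hq⟩, cp, cq, hcnt⟩ := he
      have hpq : e.1 ≠ e.2 := by
        intro hh
        rw [hh, cq] at cp
        simp at cp
      have hpos : 0 < (B.filter (fun τ => e.1 ∈ τ ∧ e.2 ∈ τ)).card := by
        have : cnt B e.1 e.2 = (B.filter (fun τ => e.1 ∈ τ ∧ e.2 ∈ τ)).card := rfl
        omega
      obtain ⟨τ, hτ⟩ := Finset.card_pos.mp hpos
      rw [Finset.mem_filter] at hτ
      obtain ⟨r, hr1, hr2, hτe⟩ := third (hF.nice τ hτ.1).1 hτ.2.1 hτ.2.2 hpq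
      have hτB : ({e.1, e.2, r} : Finset E3) ∈ B := hτe ▸ hτ.1
      have hnin : ¬ Inner W (e.1 + e.2) := by
        intro hin
        obtain ⟨s, hrs, hs⟩ := hF.exists_other hτB hin
        have := hF.boundary_of_cnt (Q := B) subset_rfl hpq hcnt hin
        obtain ⟨_, _, _, _, h2⟩ := this
        rw [Finset.sdiff_self] at h2
        exact Finset.notMem_empty _ h2
      obtain ⟨p1, p2, p3⟩ := pos _ hp
      obtain ⟨q1, q2, q3⟩ := pos _ hq
      have hz : (φ1 e.1 = 0 ∧ φ1 e.2 = 0) ∨ (φ2 e.1 = 0 ∧ φ2 e.2 = 0) ∨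
          (φ3 e.1 = 0 ∧ φ3 e.2 = 0) := by
        by_contra hcon
        push Not at hcon
        obtain ⟨g1, g2, g3⟩ := hcon
        apply hnin
        rw [h.inner_iff, map_add, map_add, map_add]
        refine ⟨?_, ?_, ?_⟩
        · rcases eq_or_lt_of_le p1 with e' | e'
          · have := lt_of_le_of_ne q1 (Ne.symm (g1 e'.symm)); linarith
          · linarith
        · rcases eq_or_lt_of_le p2 with e' | e'
          · have := lt_of_le_of_ne q2 (Ne.symm (g2 e'.symm)); linarith
          · linarith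
        · rcases eq_or_lt_of_le p3 with e' | e'
          · have := lt_of_le_of_ne q3 (Ne.symm (g3 e'.symm)); linarith
          · linarith
      have np : ¬ Inner W e.1 := by
        rw [h.inner_iff]
        rintro ⟨g1, g2, g3⟩
        rcases hz with g | g | g <;> linarith [g.1]
      have nq : ¬ Inner W e.2 := by
        rw [h.inner_iff]
        rintro ⟨g1, g2, g3⟩
        rcases hz with g | g | g <;> linarith [g.2]
      have tp := χt _ np cp
      obtain ⟨fq1, fq2⟩ := χf _ nq cq
      rcases hz with g | g | g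
      · exfalso; linarith [g.2]
      · left
        have hp1 : φ1 e.1 = 0 := by
          by_contra hne
          exact tp ⟨g.1, lt_of_le_of_ne p1 (Ne.symm hne)⟩
        exact ⟨h.ray_rel hS hp hp1 g.1, fq1, fq2, hpq, r, hτB⟩
      · right
        have hq1 : e.2 = a1 - v := h.swap12.swap23.ray_rel hS hq fq1 g.2
        refine ⟨hq1, g.1, ?_, hpq, r, hτB⟩
        refine lt_of_le_of_ne p2 (fun h0 => ?_)
        apply hpq
        rw [hq1]
        exact h.swap12.swap23.ray_rel hS hp h0.symm g.1
    -- split into two subsingletons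
    have hsub : X ⊆ (X.filter (fun e => e.1 = a3 - v ∧ φ2 e.2 = 0 ∧ 0 < φ1 e.2)) ∪
        (X.filter (fun e => e.2 = a1 - v ∧ φ3 e.1 = 0 ∧ 0 < φ2 e.1)) := by
      intro e he
      rw [Finset.mem_union]
      rcases hstr e he with ⟨g1, g2, g3, _⟩ | ⟨g1, g2, g3, _⟩
      · left; exact Finset.mem_filter.mpr ⟨he, g1, g2, g3⟩
      · right; exact Finset.mem_filter.mpr ⟨he, g1, g2, g3⟩
    have c1 : (X.filter (fun e => e.1 = a3 - v ∧ φ2 e.2 = 0 ∧ 0 < φ1 e.2)).card ≤ 1 := by
      rw [Finset.card_le_one]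
      intro e he e' he'
      obtain ⟨heX, g1, g2, g3⟩ := Finset.mem_filter.mp he
      obtain ⟨heX', g1', g2', g3'⟩ := Finset.mem_filter.mp he'
      have g3n := g3.ne'
      have tri : ∃ r, ({e.1, e.2, r} : Finset E3) ∈ B := by
        rcases hstr e heX with ⟨_, _, _, _, hr⟩ | ⟨_, _, _, _, hr⟩ <;> exact hr
      have tri' : ∃ r, ({e'.1, e'.2, r} : Finset E3) ∈ B := by
        rcases hstr e' heX' with ⟨_, _, _, _, hr⟩ | ⟨_, _, _, _, hr⟩ <;> exact hr
      obtain ⟨r, hr⟩ := tri
      obtain ⟨r', hr'⟩ := tri'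
      rw [g1] at hr
      rw [g1'] at hr'
      have key : e.2 = e'.2 := by
        refine hF.corner_unique hr hr' (l := φ3 e'.2 - φ1 e'.2 / φ1 e.2 * φ3 e.2)
          (m := φ1 e'.2 / φ1 e.2) (by positivity) ?_
        have x1 := h.ext e.2
        have x2 := h.ext e'.2
        rw [g2, zero_smul, add_zero] at x1
        rw [g2', zero_smul, add_zero] at x2
        exact ray_comb g3n x1 x2
      exact Prod.ext (g1.trans g1'.symm) key
    have c2 : (X.filter (fun e => e.2 = a1 - v ∧ φ3 e.1 = 0 ∧ 0 < φ2 e.1)).card ≤ 1 := by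
      rw [Finset.card_le_one]
      intro e he e' he'
      obtain ⟨heX, g1, g2, g3⟩ := Finset.mem_filter.mp he
      obtain ⟨heX', g1', g2', g3'⟩ := Finset.mem_filter.mp he'
      have g3n := g3.ne'
      have tri : ∃ r, ({e.1, e.2, r} : Finset E3) ∈ B := by
        rcases hstr e heX with ⟨_, _, _, _, hr⟩ | ⟨_, _, _, _, hr⟩ <;> exact hr
      have tri' : ∃ r, ({e'.1, e'.2, r} : Finset E3) ∈ B := by
        rcases hstr e' heX' with ⟨_, _, _, _, hr⟩ | ⟨_, _, _, _, hr⟩ <;> exact hr
      obtain ⟨r, hr⟩ := tri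
      obtain ⟨r', hr'⟩ := tri'
      rw [g1, swap12] at hr
      rw [g1', swap12] at hr'
      have key : e.1 = e'.1 := by
        refine hF.corner_unique (a := a1 - v) hr hr'
          (l := φ1 e'.1 - φ2 e'.1 / φ2 e.1 * φ1 e.1)
          (m := φ2 e'.1 / φ2 e.1) (by positivity) ?_
        have x1 := h.ext e.1
        have x2 := h.ext e'.1
        rw [g2, zero_smul, add_zero, add_comm] at x1
        rw [g2', zero_smul, add_zero, add_comm] at x2
        exact ray_comb g3n x1 x2
      exact Prod.ext key (g1.trans g1'.symm)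
    calc X.card ≤ _ := Finset.card_le_card hsub
      _ ≤ _ := Finset.card_union_le _ _
      _ ≤ 1 + 1 := Nat.add_le_add c1 c2

/-- Every simple polytope has a Hamiltonian tetrahedralization. -/
theorem simple_hasHamTet (hspan : affineSpan ℝ (S : Set E3) = ⊤) (hS : ConvPos S)
    (hsimple : ∀ x ∈ S, SimpleVertex S x) : HasHamTet S := by
  have hne : S.Nonempty := by
    by_contra h
    rw [Finset.not_nonempty_iff_eq_empty] at h
    rw [h] at hspan
    simp at hspan
  obtain ⟨v, a1, a2, a3, φ1, φ2, φ3, h, hgood⟩ := exists_good_frame hS hne hsimple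
  obtain ⟨χ, hχ⟩ := exists_col hS hsimple h hgood
  exact hasHamTet_of_rel h.hv (hasHamTet_of_col (cfg_rel hS hspan h.hv) hχ)

end

end Run7.h169
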