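import Pool.Agent.Run7.h169.Stack4
import Pool.Agent.Run7.h169.SimplePoly

set_option autoImplicit false
open scoped Classical Topology
open Filter

namespace Run7.h169

section

variable {S : Finset E3} {v a1 a2 a3 : E3} {φ1 φ2 φ3 : E3 →ₗ[ℝ] ℝ}

theorem Frm.nice (h : Frm S v a1 a2 a3 φ1 φ2 φ3) : Nice {a1 - v, a2 - v, a3 - v} := by
  have d12 : a1 - v ≠ a2 - v := by
    intro hh
    have := h.d12
    rw [← hh, h.d11] at this
    exact one_ne_zero this
  have d13 : a1 - v ≠ a3 - v := by
    intro hh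
    have := h.d13
    rw [← hh, h.d11] at this
    exact one_ne_zero this
  have d23 : a2 - v ≠ a3 - v := by
    intro hh
    have := h.d23
    rw [← hh, h.d22] at this
    exact one_ne_zero this
  constructor
  · rw [Finset.card_eq_three]
    exact ⟨_, _, _, d12, d13, d23, rfl⟩
  · rw [linearIndepOn_finset_iff]
    intro c hc
    rw [Finset.sum_insert (by simp [d12, d13]), Finset.sum_insert (by simp [d23]),
      Finset.sum_singleton] at hc
    simp only [id] at hc
    have e1 := congrArg φ1 hc
    have e2 := congrArg φ2 hc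
    have e3 := congrArg φ3 hc
    simp only [map_add, map_smul, h.d11, h.d12, h.d13, h.d21, h.d22, h.d23, h.d31, h.d32, h.d33,
      smul_eq_mul, mul_one, mul_zero, add_zero, zero_add, map_zero] at e1 e2 e3
    intro i hi
    simp only [Finset.mem_insert, Finset.mem_singleton] at hi
    rcases hi with rfl | rfl | rfl
    · exact e1
    · exact e2
    · exact e3

theorem Frm.crd_eq (h : Frm S v a1 a2 a3 φ1 φ2 φ3) (z : E3) :
    crd {a1 - v, a2 - v, a3 - v} (a1 - v) z = φ1 z ∧
    crd {a1 - v, a2 - v, a3 - v} (a2 - v) z = φ2 z ∧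
    crd {a1 - v, a2 - v, a3 - v} (a3 - v) z = φ3 z :=
  crd3_unique h.nice (h.ext z)

theorem ne_zero_of_one {f : E3 →ₗ[ℝ] ℝ} {x : E3} (h : f x = 1) : x ≠ 0 := by
  rintro rfl
  rw [map_zero] at h
  exact zero_ne_one h

theorem Frm.sv (hS : ConvPos S) (h : Frm S v a1 a2 a3 φ1 φ2 φ3) :
    SV (rel S v) {a1 - v, a2 - v, a3 - v} := by
  have hN := h.nice
  have m1 : a1 - v ∈ rel S v := mem_rel.mpr ⟨by rw [sub_add_cancel]; exact h.h1, ne_zero_of_one h.d11⟩
  have m2 : a2 - v ∈ rel S v := mem_rel.mpr ⟨by rw [sub_add_cancel]; exact h.h2, ne_zero_of_one h.d22⟩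
  have m3 : a3 - v ∈ rel S v := mem_rel.mpr ⟨by rw [sub_add_cancel]; exact h.h3, ne_zero_of_one h.d33⟩
  have hsub : ({a1 - v, a2 - v, a3 - v} : Finset E3) ⊆ rel S v := by
    intro x hx
    simp only [Finset.mem_insert, Finset.mem_singleton] at hx
    rcases hx with rfl | rfl | rfl
    · exact m1
    · exact m2
    · exact m3
  have hpos : ∀ w ∈ rel S v, 0 ≤ φ1 w ∧ 0 ≤ φ2 w ∧ 0 ≤ φ3 w := fun w hw => h.pos_rel hw
  have hout : ∀ w ∈ rel S v, w ∉ ({a1 - v, a2 - v, a3 - v} : Finset E3) →
      1 < psi {a1 - v, a2 - v, a3 - v} w := by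
    intro w hw hwτ
    by_contra hle
    push Not at hle
    obtain ⟨w1, w2⟩ := mem_rel.mp hw
    apply hS (w + v) w1
    refine rel_sum ({a1 - v, a2 - v, a3 - v} : Finset E3)
      (fun x => crd {a1 - v, a2 - v, a3 - v} x w) (crd_sum hN w) ?_ ?_ _ ?_ ?_
    · intro z hz
      beta_reduce
      obtain ⟨p1, p2, p3⟩ := hpos w hw
      obtain ⟨q1, q2, q3⟩ := h.crd_eq w
      simp only [Finset.mem_insert, Finset.mem_singleton] at hz
      rcases hz with rfl | rfl | rfl
      · rw [q1]; exact p1
      · rw [q2]; exact p2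
      · rw [q3]; exact p3
    · rw [← psi_apply]; exact hle
    · rw [Finset.mem_coe, Finset.mem_erase]
      exact ⟨fun hh => w2 (by simpa using hh), h.hv⟩
    · intro z hz
      rw [Finset.mem_coe, Finset.mem_erase]
      refine ⟨fun hh => hwτ ?_, (mem_rel.mp (hsub hz)).1⟩
      rw [← add_right_cancel hh]; exact hz
  refine ⟨hN, hsub, ?_, hout, ?_⟩
  · intro w hw k hk
    obtain ⟨p1, p2, p3⟩ := hpos w hw
    obtain ⟨q1, q2, q3⟩ := h.crd_eq w
    simp only [Finset.mem_insert, Finset.mem_singleton] at hk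
    rcases hk with rfl | rfl | rfl
    · rw [q1]; exact p1
    · rw [q2]; exact p2
    · rw [q3]; exact p3
  · intro w hw hwτ k hk
    obtain ⟨p1, p2, p3⟩ := hpos w hw
    obtain ⟨q1, q2, q3⟩ := h.crd_eq w
    obtain ⟨w1, w2⟩ := mem_rel.mp hw
    obtain ⟨d1, d2, d3⟩ := hN.distinct
    have hwv : w + v ≠ v := fun hh => w2 (by simpa using hh)
    simp only [Finset.mem_insert, Finset.mem_singleton, not_or] at hwτ
    have ray1 : φ2 w = 0 → φ3 w = 0 → False := by
      intro g1 g2
      have := h.swap12.swap23.ray hS w1 hwv (by rw [add_sub_cancel_right]; exact g1)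
        (by rw [add_sub_cancel_right]; exact g2)
      apply hwτ.1
      rw [← this]; abel
    have ray2 : φ1 w = 0 → φ3 w = 0 → False := by
      intro g1 g2
      have := h.swap23.ray hS w1 hwv (by rw [add_sub_cancel_right]; exact g1)
        (by rw [add_sub_cancel_right]; exact g2)
      apply hwτ.2.1
      rw [← this]; abel
    have ray3 : φ1 w = 0 → φ2 w = 0 → False := by
      intro g1 g2
      have := h.ray hS w1 hwv (by rw [add_sub_cancel_right]; exact g1)
        (by rw [add_sub_cancel_right]; exact g2)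
      apply hwτ.2.2
      rw [← this]; abel
    simp only [Finset.mem_insert, Finset.mem_singleton] at hk
    rcases hk with rfl | rfl | rfl
    · by_cases g : φ2 w = 0
      · refine ⟨a3 - v, by simp, d2.symm, ?_⟩
        rw [q3]
        exact lt_of_le_of_ne p3 (fun hh => ray1 g hh.symm)
      · refine ⟨a2 - v, by simp, d1.symm, ?_⟩
        rw [q2]
        exact lt_of_le_of_ne p2 (Ne.symm g)
    · by_cases g : φ1 w = 0
      · refine ⟨a3 - v, by simp, d3.symm, ?_⟩
        rw [q3]
        exact lt_of_le_of_ne p3 (fun hh => ray2 g hh.symm)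
      · refine ⟨a1 - v, by simp, d1, ?_⟩
        rw [q1]
        exact lt_of_le_of_ne p1 (Ne.symm g)
    · by_cases g : φ1 w = 0
      · refine ⟨a2 - v, by simp, d3, ?_⟩
        rw [q2]
        exact lt_of_le_of_ne p2 (fun hh => ray3 g hh.symm)
      · refine ⟨a1 - v, by simp, d2, ?_⟩
        rw [q1]
        exact lt_of_le_of_ne p1 (Ne.symm g)

theorem rel_eq_image (S : Finset E3) (v : E3) : (S.erase v).image (trs (-v)) = rel S v := by
  unfold rel
  apply Finset.image_congr
  intro y _
  beta_reduce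
  rw [trs_apply]; abel

/-- Inserting a simple vertex preserves the existence of a Hamiltonian tetrahedralization. -/
theorem insert_simple (hS : ConvPos S) (hv : v ∈ S) (hs : SimpleVertex S v)
    (hH : HasHamTet (S.erase v)) : HasHamTet S := by
  obtain ⟨a1, a2, a3, φ1, φ2, φ3, h⟩ := hs.frame hv
  have h1 := hH.translate (-v)
  rw [rel_eq_image] at h1
  exact hasHamTet_of_rel hv ((h.sv hS).hasHamTet h1)

theorem hasHamTet_tetra {τ : Finset E3} (h : Nice τ) : HasHamTet (insert 0 τ) := by
  rw [hasHamTet_iff_list]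
  refine ⟨{insert 0 τ}, ⟨?_, ?_, ?_⟩, [insert 0 τ], by simp, by simp, by simp⟩
  · intro t ht
    rw [Finset.mem_singleton] at ht
    subst ht
    refine ⟨subset_rfl, ?_, affineIndependent_insert_zero h⟩
    rw [Finset.card_insert_of_notMem (nice_zero_notMem h), h.1]
  · simp
  · intro t ht u hu
    rw [Finset.mem_singleton] at ht hu
    subst ht; subst hu
    simp

/-- Deleting a simple vertex from a polytope that is not a tetrahedron. -/
theorem erase_simple (hS : ConvPos S) (hv : v ∈ S) (hs : SimpleVertex S v) :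
    HasHamTet S ∨ affineSpan ℝ ((S.erase v : Finset E3) : Set E3) = ⊤ := by
  obtain ⟨a1, a2, a3, φ1, φ2, φ3, h⟩ := hs.frame hv
  have hsv := h.sv hS
  by_cases hall : ∀ w ∈ rel S v, w ∈ ({a1 - v, a2 - v, a3 - v} : Finset E3)
  · left
    have : rel S v = {a1 - v, a2 - v, a3 - v} := Finset.Subset.antisymm hall hsv.sub
    apply hasHamTet_of_rel hv
    rw [this]
    exact hasHamTet_tetra h.nice
  · right
    push Not at hall
    obtain ⟨y, hy, hyτ⟩ := hall
    have hmem : ∀ w ∈ rel S v, w + v ∈ S.erase v := by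
      intro w hw
      obtain ⟨w1, w2⟩ := mem_rel.mp hw
      rw [Finset.mem_erase]
      exact ⟨fun hh => w2 (by simpa using hh), w1⟩
    have hne : ((S.erase v : Finset E3) : Set E3).Nonempty := ⟨y + v, hmem y hy⟩
    rw [AffineSubspace.affineSpan_eq_top_iff_vectorSpan_eq_top_of_nonempty ℝ E3 E3 hne]
    by_contra htop
    obtain ⟨f, hf0, hf⟩ := Submodule.exists_le_ker_of_lt_top _ (lt_top_iff_ne_top.mpr htop)
    have hconst : ∀ w ∈ rel S v, f w = f y := by
      intro w hw
      have := hf (vsub_mem_vectorSpan ℝ (hmem w hw) (hmem y hy))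
      rw [LinearMap.mem_ker, vsub_eq_sub, add_sub_add_right_eq_sub, map_sub] at this
      linarith
    have e1 : f y = f y * psi {a1 - v, a2 - v, a3 - v} y := by
      conv_lhs => rw [← crd_sum h.nice y]
      rw [map_sum, psi_apply, Finset.mul_sum]
      apply Finset.sum_congr rfl
      intro k hk
      rw [map_smul, smul_eq_mul, hconst k (hsv.sub hk)]
      ring
    have p1 := hsv.out y hy hyτ
    have e2 : f y = 0 := by
      have : f y * (psi {a1 - v, a2 - v, a3 - v} y - 1) = 0 := by linarith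
      rcases mul_eq_zero.mp this with h1 | h1
      · exact h1
      · linarith
    apply hf0
    apply nice_ext h.nice
    intro x hx
    rw [hconst x (hsv.sub hx), e2]; rfl

theorem ConvPos.mono {S' : Finset E3} (hS : ConvPos S) (h : S' ⊆ S) : ConvPos S' := by
  intro p hp hmem
  apply hS p (h hp)
  refine convexHull_mono ?_ hmem
  exact Finset.coe_subset.mpr (Finset.erase_subset_erase _ h)

/-- Every counterexample contains one without simple vertices. -/
theorem reduce_simple : ∀ (n : ℕ) (S : Finset E3), S.card = n →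
    affineSpan ℝ (S : Set E3) = ⊤ → ConvPos S → ¬ HasHamTet S →
    ∃ S0, S0 ⊆ S ∧ affineSpan ℝ (S0 : Set E3) = ⊤ ∧ ConvPos S0 ∧
      (∀ x ∈ S0, ¬ SimpleVertex S0 x) ∧ ¬ HasHamTet S0 := by
  intro n
  induction n with
  | zero =>
    intro S hn hspan hS hbad
    refine ⟨S, subset_rfl, hspan, hS, ?_, hbad⟩
    intro x hx
    rw [Finset.card_eq_zero] at hn
    rw [hn] at hx
    exact absurd hx (Finset.notMem_empty x)
  | succ n ih =>
    intro S hn hspan hS hbad
    by_cases hall : ∀ x ∈ S, ¬ SimpleVertex S x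
    · exact ⟨S, subset_rfl, hspan, hS, hall, hbad⟩
    · push Not at hall
      obtain ⟨x, hx, hxs⟩ := hall
      have hbad' : ¬ HasHamTet (S.erase x) := fun hh => hbad (insert_simple hS hx hxs hh)
      have hspan' : affineSpan ℝ ((S.erase x : Finset E3) : Set E3) = ⊤ := by
        rcases erase_simple hS hx hxs with h | h
        · exact absurd h hbad
        · exact h
      obtain ⟨S0, h1, h2, h3, h4, h5⟩ := ih (S.erase x)
        (by rw [Finset.card_erase_of_mem hx, hn]; rfl) hspan'
        (hS.mono (Finset.erase_subset _ _)) hbad'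
      exact ⟨S0, h1.trans (Finset.erase_subset _ _), h2, h3, h4, h5⟩

end

end Run7.h169
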