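import Pool.Agent.Run7.h169.Zono2
import Pool.Agent.Run7.h169.Stack5

set_option autoImplicit false
open scoped Classical Topology
open Filter

namespace Run7.h169

section

variable {S : Finset E3}

/-- Two vertices on a common supporting plane. -/
def Cof (S : Finset E3) (v x : E3) : Prop :=
  ∃ f : E3 →ₗ[ℝ] ℝ, f ≠ 0 ∧ (∀ z ∈ S, f v ≤ f z) ∧ f x = f v

/-- Three vertices on a common supporting plane. -/
def Cof3 (S : Finset E3) (v x y : E3) : Prop :=
  ∃ f : E3 →ₗ[ℝ] ℝ, f ≠ 0 ∧ (∀ z ∈ S, f v ≤ f z) ∧ f x = f v ∧ f y = f v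

/-- A bad chord at `v`: an edge `xy` of the polytope such that `v` shares a facet with `x` and
with `y`, but no facet contains all three. -/
structure Bad (S : Finset E3) (v x y : E3) : Prop where
  hv : v ∈ S
  hx : x ∈ S
  hy : y ∈ S
  vx : v ≠ x
  vy : v ≠ y
  edge : IsEdgeS S x y
  cx : Cof S v x
  cy : Cof S v y
  no : ¬ Cof3 S v x y

theorem Bad.symm {v x y : E3} (b : Bad S v x y) : Bad S v y x :=
  ⟨b.hv, b.hy, b.hx, b.vy, b.vx, b.edge.symm, b.cy, b.cx, by
    rintro ⟨f, h1, h2, h3, h4⟩; exact b.no ⟨f, h1, h2, h4, h3⟩⟩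

theorem IsEdgeS.le {p q : E3} (h : IsEdgeS S p q) : ∃ f : E3 →ₗ[ℝ] ℝ, f p = f q ∧
    (∀ x ∈ S, f x ≤ f p) ∧ ∀ x ∈ S, x ≠ p → x ≠ q → f x < f p := by
  obtain ⟨_, f, h1, h2⟩ := h
  refine ⟨f, h1, ?_, h2⟩
  intro x hx
  by_cases hp : x = p
  · rw [hp]
  · by_cases hq : x = q
    · rw [hq, h1]
    · exact (h2 x hx hp hq).le

theorem hull_ge {f : E3 →ₗ[ℝ] ℝ} {m : ℝ} (h : ∀ z ∈ S, m ≤ f z) {z : E3}
    (hz : z ∈ convexHull ℝ (S : Set E3)) : m ≤ f z := by
  have := (hull_face (A := S) (h := -f) (M := -m) (by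
    intro x hx
    show -(f x) ≤ -m
    have := h x hx
    linarith) hz).1
  have h2 : -(f z) ≤ -m := this
  linarith

theorem hull_le {f : E3 →ₗ[ℝ] ℝ} {m : ℝ} (h : ∀ z ∈ S, f z ≤ m) {z : E3}
    (hz : z ∈ convexHull ℝ (S : Set E3)) : f z ≤ m := (hull_face h hz).1

theorem seg_mem_hull {x y : E3} (hx : x ∈ convexHull ℝ (S : Set E3))
    (hy : y ∈ convexHull ℝ (S : Set E3)) {t : ℝ} (h0 : 0 ≤ t) (h1 : t ≤ 1) :
    (1 - t) • x + t • y ∈ convexHull ℝ (S : Set E3) :=
  (convex_convexHull ℝ _) hx hy (by linarith) h0 (by ring)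

/-- The section of the polytope by the plane of a bad chord is a triangle. -/
theorem Bad.section {v x y : E3} (b : Bad S v x y) {h : E3 →ₗ[ℝ] ℝ} (h0 : h ≠ 0)
    (hx : h x = h v) (hy : h y = h v) {z : E3} (hz : z ∈ convexHull ℝ (S : Set E3))
    (hzv : h z = h v) : ∃ α β γ : ℝ, 0 ≤ α ∧ 0 ≤ β ∧ 0 ≤ γ ∧ α + β + γ = 1 ∧
      z = α • v + β • x + γ • y := by
  obtain ⟨fx, fx0, fx1, fx2⟩ := b.cx
  obtain ⟨fy, fy0, fy1, fy2⟩ := b.cy
  obtain ⟨ee, e1, e2, e3⟩ := b.edge.le
  have k1 : 0 < fx (y - v) := by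
    have h1 := fx1 y b.hy
    rw [map_sub]
    refine lt_of_le_of_ne (by linarith) (fun hh => b.no ⟨fx, fx0, fx1, fx2, by linarith⟩)
  have k2 : 0 < fy (x - v) := by
    have h1 := fy1 x b.hx
    rw [map_sub]
    refine lt_of_le_of_ne (by linarith) (fun hh => b.no ⟨fy, fy0, fy1, by linarith, fy2⟩)
  obtain ⟨r, hr⟩ : ∃ r, h r ≠ 0 := by
    by_contra hcon
    push Not at hcon
    apply h0
    ext r
    exact hcon r
  have hN : Nice {r, y - v, x - v} := nice_of_functionals (f1 := h) (f2 := fx) (f3 := fy) hr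
    (by rw [map_sub, hy, sub_self]) (by rw [map_sub, hx, sub_self]) k1.ne'
    (by rw [map_sub, fx2, sub_self]) k2.ne'
  have e := crd_sum3 hN (z - v)
  set a := crd {r, y - v, x - v} r (z - v)
  set β := crd {r, y - v, x - v} (y - v) (z - v)
  set γ := crd {r, y - v, x - v} (x - v) (z - v)
  have ha : a = 0 := by
    have := congrArg h e
    simp only [map_add, map_smul, map_sub, hx, hy, hzv, sub_self, smul_eq_mul, mul_zero,
      add_zero] at this
    exact (mul_eq_zero.mp this).resolve_right hr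
  rw [ha, zero_smul, zero_add] at e
  have hβ : 0 ≤ β := by
    have g1 := congrArg fx e
    rw [map_add, map_smul, map_smul, map_sub fx x v, fx2, sub_self, smul_zero, add_zero,
      smul_eq_mul, map_sub fx z v] at g1
    have g2 := hull_ge fx1 hz
    have g3 : 0 ≤ β * fx (y - v) := by linarith
    exact nonneg_of_mul_nonneg_left g3 k1
  have hγ : 0 ≤ γ := by
    have g1 := congrArg fy e
    rw [map_add, map_smul, map_smul, map_sub fy y v, fy2, sub_self, smul_zero, zero_add,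
      smul_eq_mul, map_sub fy z v] at g1
    have g2 := hull_ge fy1 hz
    have g3 : 0 ≤ γ * fy (x - v) := by linarith
    exact nonneg_of_mul_nonneg_left g3 k2
  refine ⟨1 - β - γ, γ, β, ?_, hγ, hβ, by ring, ?_⟩
  · have g1 := congrArg ee e
    have g2 := hull_le e2 hz
    have g3 := e3 v b.hv b.vx b.vy
    rw [map_add, map_smul, map_smul, map_sub, map_sub, map_sub, ← e1, smul_eq_mul,
      smul_eq_mul] at g1
    by_contra hneg
    push Not at hneg
    nlinarith
  · have : z = v + (β • (y - v) + γ • (x - v)) := by rw [e]; abel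
    rw [this]; module

theorem exists_plane (v x y : E3) : ∃ h : E3 →ₗ[ℝ] ℝ, h ≠ 0 ∧ h x = h v ∧ h y = h v := by
  obtain ⟨h, h0, h1, h2⟩ := exists_functional (x - v) (y - v)
  rw [map_sub] at h1 h2
  exact ⟨h, h0, by linarith, by linarith⟩

/-- There are vertices strictly above the plane of a bad chord. -/
theorem Bad.exists_above {v x y : E3} (b : Bad S v x y) {h : E3 →ₗ[ℝ] ℝ} (h0 : h ≠ 0)
    (hx : h x = h v) (hy : h y = h v) : ∃ z ∈ S, h v < h z := by
  by_contra hcon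
  push Not at hcon
  apply b.no
  refine ⟨-h, neg_ne_zero.mpr h0, ?_, ?_, ?_⟩
  · intro z hz
    show -(h v) ≤ -(h z)
    have := hcon z hz
    linarith
  · show -(h x) = -(h v); rw [hx]
  · show -(h y) = -(h v); rw [hy]

/-- The chord `xy` at `v` cuts off a single simple vertex. -/
def Triv (S : Finset E3) (v x y : E3) : Prop :=
  ∃ (w : E3) (φ1 φ2 φ3 : E3 →ₗ[ℝ] ℝ), Frm S w v x y φ1 φ2 φ3

theorem frm_of_nice {w a b c : E3} (hw : w ∈ S) (ha : a ∈ S) (hb : b ∈ S) (hc : c ∈ S)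
    (hN : Nice {a - w, b - w, c - w})
    (hpos : ∀ z ∈ S, ∃ α β γ : ℝ, 0 ≤ α ∧ 0 ≤ β ∧ 0 ≤ γ ∧
      α • (a - w) + β • (b - w) + γ • (c - w) = z - w) :
    Frm S w a b c (crd {a - w, b - w, c - w} (a - w)) (crd {a - w, b - w, c - w} (b - w))
      (crd {a - w, b - w, c - w} (c - w)) := by
  obtain ⟨d1, d2, d3⟩ := hN.distinct
  refine ⟨hw, ha, hb, hc, crd_self hN (by simp), crd_ne hN (by simp) (by simp) d1,
    crd_ne hN (by simp) (by simp) d2, crd_ne hN (by simp) (by simp) d1.symm,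
    crd_self hN (by simp), crd_ne hN (by simp) (by simp) d3,
    crd_ne hN (by simp) (by simp) d2.symm, crd_ne hN (by simp) (by simp) d3.symm,
    crd_self hN (by simp), fun z => crd_sum3 hN z, ?_⟩
  intro z hz
  obtain ⟨α, β, γ, h1, h2, h3, h4⟩ := hpos z hz
  obtain ⟨g1, g2, g3⟩ := crd3_unique hN h4
  rw [g1, g2, g3]
  exact ⟨h1, h2, h3⟩

theorem Bad.triv_of_single {v x y : E3} (b : Bad S v x y) {h : E3 →ₗ[ℝ] ℝ} (h0 : h ≠ 0)
    (hx : h x = h v) (hy : h y = h v) {w : E3} (hw : w ∈ S) (hwv : h v < h w)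
    (hall : ∀ z ∈ S, h v < h z → z = w) : Triv S v x y := by
  obtain ⟨fx, fx0, fx1, fx2⟩ := b.cx
  obtain ⟨ee, e1, e2, e3⟩ := b.edge.le
  have k1 : 0 < fx (y - v) := by
    have h1 := fx1 y b.hy
    rw [map_sub]
    refine lt_of_le_of_ne (by linarith) (fun hh => b.no ⟨fx, fx0, fx1, fx2, by linarith⟩)
  rw [map_sub] at k1
  have hk : h v - h w ≠ 0 := by linarith
  have hN : Nice {v - w, x - w, y - w} := by
    refine nice_of_functionals (f1 := ee - (ee (x - w) / (h v - h w)) • h)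
      (f2 := fx - (fx (y - w) / (h v - h w)) • h) (f3 := h) ?_ ?_ ?_ ?_ ?_ ?_
    · show ee (v - w) - ee (x - w) / (h v - h w) * h (v - w) ≠ 0
      rw [map_sub h, div_mul_cancel₀ _ hk, map_sub, map_sub]
      have := e3 v b.hv b.vx b.vy
      linarith
    · show ee (x - w) - ee (x - w) / (h v - h w) * h (x - w) = 0
      rw [map_sub h, hx, div_mul_cancel₀ _ hk, sub_self]
    · show ee (y - w) - ee (x - w) / (h v - h w) * h (y - w) = 0
      rw [map_sub h, hy, div_mul_cancel₀ _ hk, map_sub, map_sub]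
      linarith
    · show fx (x - w) - fx (y - w) / (h v - h w) * h (x - w) ≠ 0
      rw [map_sub h, hx, div_mul_cancel₀ _ hk, map_sub, map_sub]
      linarith
    · show fx (y - w) - fx (y - w) / (h v - h w) * h (y - w) = 0
      rw [map_sub h, hy, div_mul_cancel₀ _ hk, sub_self]
    · rw [map_sub, hy]; exact hk
  refine ⟨w, _, _, _, frm_of_nice hw b.hv b.hx b.hy hN ?_⟩
  intro z hz
  rcases lt_or_ge (h v) (h z) with hz1 | hz1
  · rw [hall z hz hz1]
    exact ⟨0, 0, 0, le_rfl, le_rfl, le_rfl, by simp⟩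
  · have hd : 0 < h w - h z := by linarith
    set t := (h w - h v) / (h w - h z) with ht
    have ht0 : 0 < t := div_pos (by linarith) hd
    have ht1 : t ≤ 1 := by rw [ht, div_le_one hd]; linarith
    have hm : (1 - t) • w + t • z ∈ convexHull ℝ (S : Set E3) :=
      seg_mem_hull (subset_convexHull ℝ _ hw) (subset_convexHull ℝ _ hz) ht0.le ht1
    have hmv : h ((1 - t) • w + t • z) = h v := by
      rw [map_add, map_smul, map_smul, smul_eq_mul, smul_eq_mul]
      have : t * (h w - h z) = h w - h v := by rw [ht]; field_simp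
      linarith
    obtain ⟨α, β, γ, p1, p2, p3, p4, p5⟩ := b.section h0 hx hy hm hmv
    refine ⟨α / t, β / t, γ / t, div_nonneg p1 ht0.le, div_nonneg p2 ht0.le,
      div_nonneg p3 ht0.le, ?_⟩
    have e4 : t • (z - w) = α • (v - w) + β • (x - w) + γ • (y - w) := by
      have e5 : t • (z - w) = ((1 - t) • w + t • z) - w := by module
      rw [e5, p5]
      have : w = (α + β + γ) • w := by rw [p4, one_smul]
      conv_lhs => rw [this]
      module
    have e6 : z - w = (1 / t) • (t • (z - w)) := by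
      rw [smul_smul, one_div_mul_cancel ht0.ne', one_smul]
    rw [e6, e4]
    match_scalars <;> field_simp

end

end Run7.h169
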