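import Pool.Agent.Run7.h169.Good

set_option autoImplicit false
open scoped Classical Topology
open Filter

namespace Run7.h169

section

variable {S : Finset E3}

/-- The vertices strictly above a plane. -/
noncomputable def up (S : Finset E3) (h : E3 →ₗ[ℝ] ℝ) (v : E3) : Finset E3 :=
  S.filter (fun z => h v < h z)

theorem mem_up {h : E3 →ₗ[ℝ] ℝ} {v z : E3} : z ∈ up S h v ↔ z ∈ S ∧ h v < h z :=
  Finset.mem_filter

theorem tri_zero {h fx fy : E3 →ₗ[ℝ] ℝ} {X Y u : E3} (h0 : h ≠ 0) (hX : h X = 0) (hY : h Y = 0)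
    (x1 : fx X = 0) (x2 : fx Y ≠ 0) (y2 : fy X ≠ 0) (u1 : h u = 0)
    (u2 : fx u = 0) (u3 : fy u = 0) : u = 0 := by
  obtain ⟨r, hr⟩ : ∃ r, h r ≠ 0 := by
    by_contra hcon
    push Not at hcon
    apply h0
    ext r
    exact hcon r
  have hN : Nice {r, Y, X} := nice_of_functionals (f1 := h) (f2 := fx) (f3 := fy) hr hY hX x2 x1 y2
  have e := crd_sum3 hN u
  have a1 := congrArg h e
  simp only [map_add, map_smul, hX, hY, u1, smul_eq_mul, mul_zero, add_zero] at a1
  have a2 := (mul_eq_zero.mp a1).resolve_right hr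
  rw [a2, zero_smul, zero_add] at e
  have b1 := congrArg fx e
  simp only [map_add, map_smul, x1, u2, smul_eq_mul, mul_zero, add_zero] at b1
  have b2 := (mul_eq_zero.mp b1).resolve_right x2
  rw [b2, zero_smul, zero_add] at e
  have c1 := congrArg fy e
  simp only [map_smul, u3, smul_eq_mul] at c1
  have c2 := (mul_eq_zero.mp c1).resolve_right y2
  rw [c2, zero_smul] at e
  exact e.symm

/-- A vertex in a triangle of vertices is one of them. -/
theorem ConvPos.mem_triangle (hS : ConvPos S) {c v x y : E3} (hc : c ∈ S) (hv : v ∈ S)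
    (hx : x ∈ S) (hy : y ∈ S) {α β γ : ℝ} (h1 : 0 ≤ α) (h2 : 0 ≤ β) (h3 : 0 ≤ γ)
    (hs : α + β + γ = 1) (he : c = α • v + β • x + γ • y) : c = v ∨ c = x ∨ c = y := by
  by_contra hcon
  push Not at hcon
  apply hS c hc
  have m : ∀ z ∈ S, c ≠ z → z ∈ convexHull ℝ ((S.erase c : Finset E3) : Set E3) := by
    intro z hz hne
    apply subset_convexHull ℝ _
    rw [Finset.mem_coe, Finset.mem_erase]
    exact ⟨hne.symm, hz⟩
  have hconv := convex_convexHull ℝ ((S.erase c : Finset E3) : Set E3)
  have key : α • v + β • x + γ • y ∈ convexHull ℝ ((S.erase c : Finset E3) : Set E3) := by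
    have hf := hconv.sum_mem (t := (Finset.univ : Finset (Fin 3))) (w := ![α, β, γ])
      (z := ![v, x, y]) (by intro i _; fin_cases i <;> simp [h1, h2, h3])
      (by rw [Fin.sum_univ_three]; simpa using hs)
      (by
        intro i _
        fin_cases i
        · exact m v hv hcon.1
        · exact m x hx hcon.2.1
        · exact m y hy hcon.2.2)
    rw [Fin.sum_univ_three] at hf
    simpa using hf
  rw [← he] at key
  exact key

theorem Bad.tri_mem (hS : ConvPos S) {v x y : E3} (b : Bad S v x y) {h : E3 →ₗ[ℝ] ℝ}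
    (h0 : h ≠ 0) (hx : h x = h v) (hy : h y = h v) {c : E3} (hc : c ∈ S) (hcv : h c = h v) :
    c = v ∨ c = x ∨ c = y := by
  obtain ⟨α, β, γ, p1, p2, p3, p4, p5⟩ := b.section h0 hx hy (subset_convexHull ℝ _ hc) hcv
  exact hS.mem_triangle hc b.hv b.hx b.hy p1 p2 p3 p4 p5

/-- The crossing point of a segment with a plane. -/
theorem cross {h : E3 →ₗ[ℝ] ℝ} {m : ℝ} {a c : E3} (ha : h a < m) (hc : m < h c)
    (haS : a ∈ S) (hcS : c ∈ S) : ∃ t : ℝ, 0 < t ∧ t < 1 ∧
      h ((1 - t) • a + t • c) = m ∧ (1 - t) • a + t • c ∈ convexHull ℝ (S : Set E3) := by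
  have hd : 0 < h c - h a := by linarith
  refine ⟨(m - h a) / (h c - h a), div_pos (by linarith) hd, ?_, ?_, ?_⟩
  · rw [div_lt_one hd]; linarith
  · rw [map_add, map_smul, map_smul, smul_eq_mul, smul_eq_mul]
    field_simp
    ring
  · apply seg_mem_hull (subset_convexHull ℝ _ haS) (subset_convexHull ℝ _ hcS)
    · exact (div_pos (by linarith) hd).le
    · rw [div_le_one hd]; linarith

theorem map_seg (f : E3 →ₗ[ℝ] ℝ) (t : ℝ) (a c : E3) :
    f ((1 - t) • a + t • c) = (1 - t) * f a + t * f c := by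
  rw [map_add, map_smul, map_smul, smul_eq_mul, smul_eq_mul]

theorem map_tri (f : E3 →ₗ[ℝ] ℝ) (α β γ : ℝ) (a b c : E3) :
    f (α • a + β • b + γ • c) = α * f a + β * f b + γ * f c := by
  rw [map_add, map_add, map_smul, map_smul, map_smul, smul_eq_mul, smul_eq_mul, smul_eq_mul]

/-- A mean of two numbers at least `m` is `m` only if both are. -/
theorem seg_eq {t a c m : ℝ} (h0 : 0 < t) (h1 : t < 1) (ha : m ≤ a) (hc : m ≤ c)
    (h : (1 - t) * a + t * c = m) : a = m ∧ c = m := by
  constructor <;> nlinarith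

/-- A vertex above the plane that shares a facet with a vertex below it. -/
theorem Bad.below {v x y : E3} (b : Bad S v x y) {h : E3 →ₗ[ℝ] ℝ} (h0 : h ≠ 0)
    (hx : h x = h v) (hy : h y = h v) {fx fy : E3 →ₗ[ℝ] ℝ}
    (fx1 : ∀ z ∈ S, fx v ≤ fx z) (fx2 : fx x = fx v) (fy1 : ∀ z ∈ S, fy v ≤ fy z)
    (fy2 : fy y = fy v) {w a : E3} (hw : w ∈ S) (hwv : h v < h w) (hwy : fy v < fy w)
    (ha : a ∈ S) (hav : h a < h v) (hc : Cof S w a) : fx w = fx v ∧ fx a = fx v := by
  obtain ⟨fa, fa0, fa1, fa2⟩ := hc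
  obtain ⟨ee, e1, e2, e3⟩ := b.edge.le
  obtain ⟨t, t0, t1, tm, tS⟩ := cross hav hwv ha hw
  obtain ⟨α, β, γ, p1, p2, p3, p4, p5⟩ := b.section h0 hx hy tS tm
  have key : ∀ f : E3 →ₗ[ℝ] ℝ, (1 - t) * f a + t * f w = α * f v + β * f x + γ * f y := by
    intro f
    rw [← map_seg, p5, map_tri]
  rcases eq_or_lt_of_le p3 with g | g
  · -- on the side `vx`
    have k := key fx
    rw [← g, zero_mul, add_zero, fx2] at k
    have hαβ : α + β = 1 := by linarith
    have k2 : (1 - t) * fx a + t * fx w = fx v := by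
      rw [k, ← add_mul, hαβ, one_mul]
    have := seg_eq t0 t1 (fx1 a ha) (fx1 w hw) k2
    exact ⟨this.2, this.1⟩
  · exfalso
    rcases eq_or_lt_of_le p2 with g2 | g2
    · have k := key fy
      rw [← g2, zero_mul, add_zero, fy2] at k
      have hαγ : α + γ = 1 := by linarith
      have k2 : (1 - t) * fy a + t * fy w = fy v := by
        rw [k, ← add_mul, hαγ, one_mul]
      have := seg_eq t0 t1 (fy1 a ha) (fy1 w hw) k2
      linarith [this.2]
    · rcases eq_or_lt_of_le p1 with g1 | g1
      · -- on the edge `xy`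
        have k := key ee
        rw [← g1, zero_mul, zero_add, ← e1] at k
        have hβγ : β + γ = 1 := by linarith
        have k2 : (1 - t) * ee a + t * ee w = ee x := by
          rw [k, ← add_mul, hβγ, one_mul]
        have hwx : w ≠ x := by rintro rfl; linarith
        have hwy' : w ≠ y := by rintro rfl; linarith
        have g3 := e3 w hw hwx hwy'
        have g4 := e2 a ha
        nlinarith
      · -- in the interior
        have k := key fa
        rw [fa2] at k
        have hv1 := fa1 v b.hv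
        have hx1 := fa1 x b.hx
        have hy1 := fa1 y b.hy
        have k2 : α * (fa v - fa w) + β * (fa x - fa w) + γ * (fa y - fa w) = 0 := by
          have : α * fa w + β * fa w + γ * fa w = fa w := by
            rw [← add_mul, ← add_mul, p4, one_mul]
          linarith
        have q1 : 0 ≤ α * (fa v - fa w) := mul_nonneg p1 (by linarith)
        have q2 : 0 ≤ β * (fa x - fa w) := mul_nonneg p2 (by linarith)
        have q3 : 0 ≤ γ * (fa y - fa w) := mul_nonneg p3 (by linarith)
        have r1 : fa v - fa w = 0 := by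
          have : α * (fa v - fa w) = 0 := by linarith
          exact (mul_eq_zero.mp this).resolve_left g1.ne'
        have r2 : fa x - fa w = 0 := by
          have : β * (fa x - fa w) = 0 := by linarith
          exact (mul_eq_zero.mp this).resolve_left g2.ne'
        have r3 : fa y - fa w = 0 := by
          have : γ * (fa y - fa w) = 0 := by linarith
          exact (mul_eq_zero.mp this).resolve_left g.ne'
        exact b.no ⟨fa, fa0, fun z hz => by linarith [fa1 z hz], by linarith, by linarith⟩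

/-- Chords reaching below the plane of a bad chord. -/
theorem Bad.chord_below (hS : ConvPos S) {v x y : E3} (b : Bad S v x y) {h : E3 →ₗ[ℝ] ℝ}
    (h0 : h ≠ 0) (hx : h x = h v) (hy : h y = h v) {fx fy : E3 →ₗ[ℝ] ℝ} (fx0 : fx ≠ 0)
    (fx1 : ∀ z ∈ S, fx v ≤ fx z) (fx2 : fx x = fx v) (fy1 : ∀ z ∈ S, fy v ≤ fy z)
    (fy2 : fy y = fy v) {w a c : E3} (hwv : h v < h w) (hwy : fy v < fy w)
    (b' : Bad S w a c) (hav : h a < h v) : c = y := by
  obtain ⟨g1, g2⟩ := b.below h0 hx hy fx1 fx2 fy1 fy2 b'.hv hwv hwy b'.hx hav b'.cx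
  have no3 : fx c ≠ fx v := by
    intro hc
    exact b'.no ⟨fx, fx0, fun z hz => by rw [g1]; exact fx1 z hz, by rw [g1, g2],
      by rw [g1, hc]⟩
  rcases lt_trichotomy (h c) (h v) with hc | hc | hc
  · exact absurd (b.below h0 hx hy fx1 fx2 fy1 fy2 b'.hv hwv hwy b'.hy hc b'.cy).2 no3
  · rcases b.tri_mem hS h0 hx hy b'.hy hc with rfl | rfl | rfl
    · exact absurd rfl no3
    · exact absurd fx2 no3
    · rfl
  · exfalso
    obtain ⟨ea, e1, e2, e3⟩ := b'.edge.le
    obtain ⟨t, t0, t1, tm, tS⟩ := cross hav hc b'.hx b'.hy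
    obtain ⟨α, β, γ, p1, p2, p3, p4, p5⟩ := b.section h0 hx hy tS tm
    have k : α * ea v + β * ea x + γ * ea y = ea a := by
      rw [← map_tri, ← p5, map_seg, ← e1]; ring
    have lt : ∀ z ∈ S, h z = h v → ea z < ea a := by
      intro z hz hzv
      exact e3 z hz (by rintro rfl; linarith) (by rintro rfl; linarith)
    have l1 := lt v b.hv rfl
    have l2 := lt x b.hx hx
    have l3 := lt y b.hy hy
    have k2 : α * (ea a - ea v) + β * (ea a - ea x) + γ * (ea a - ea y) = 0 := by
      have : α * ea a + β * ea a + γ * ea a = ea a := by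
        rw [← add_mul, ← add_mul, p4, one_mul]
      linarith
    have q1 : 0 ≤ α * (ea a - ea v) := mul_nonneg p1 (by linarith)
    have q2 : 0 ≤ β * (ea a - ea x) := mul_nonneg p2 (by linarith)
    have q3 : 0 ≤ γ * (ea a - ea y) := mul_nonneg p3 (by linarith)
    have r1 : α = 0 := by
      have : α * (ea a - ea v) = 0 := by linarith
      exact (mul_eq_zero.mp this).resolve_right (by linarith)
    have r2 : β = 0 := by
      have : β * (ea a - ea x) = 0 := by linarith
      exact (mul_eq_zero.mp this).resolve_right (by linarith)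
    have r3 : γ = 0 := by
      have : γ * (ea a - ea y) = 0 := by linarith
      exact (mul_eq_zero.mp this).resolve_right (by linarith)
    linarith

theorem triv_of_card_one {v x y : E3} (b : Bad S v x y) {h : E3 →ₗ[ℝ] ℝ} (h0 : h ≠ 0)
    (hx : h x = h v) (hy : h y = h v) (hc : (up S h v).card < 2) : Triv S v x y := by
  obtain ⟨w, hw, hwv⟩ := b.exists_above h0 hx hy
  refine b.triv_of_single h0 hx hy hw hwv ?_
  intro z hz hzv
  have : (up S h v).card ≤ 1 := by omega
  rw [Finset.card_le_one] at this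
  exact this z (mem_up.mpr ⟨hz, hzv⟩) w (mem_up.mpr ⟨hw, hwv⟩)

/-- Chords staying above the plane of a minimal bad chord are trivial. -/
theorem Bad.chord_above {v x y : E3} (b : Bad S v x y) {h : E3 →ₗ[ℝ] ℝ} (h0 : h ≠ 0)
    (hx : h x = h v) (hy : h y = h v)
    (hmin : ∀ (v' x' y' : E3) (h' : E3 →ₗ[ℝ] ℝ), Bad S v' x' y' → h' ≠ 0 → h' x' = h' v' →
      h' y' = h' v' → 2 ≤ (up S h' v').card → (up S h v).card ≤ (up S h' v').card)
    {w a c : E3} (hwv : h v < h w) (b' : Bad S w a c) (ha : h v ≤ h a) (hc : h v ≤ h c) :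
    Triv S w a c := by
  obtain ⟨s0, hs0, hs0'⟩ := b.exists_above (neg_ne_zero.mpr h0)
    (by show -(h x) = -(h v); rw [hx]) (by show -(h y) = -(h v); rw [hy])
  have hs1 : h s0 < h v := by
    have : -(h v) < -(h s0) := hs0'
    linarith
  obtain ⟨h', h'0, h'a, h'c⟩ := exists_plane w a c
  have hne : h' s0 ≠ h' w := by
    intro hh
    obtain ⟨α, β, γ, p1, p2, p3, p4, p5⟩ := b'.section h'0 h'a h'c (subset_convexHull ℝ _ hs0) hh
    have e : h s0 = α * h w + β * h a + γ * h c := by rw [p5, map_tri]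
    have : h v ≤ h s0 := by
      have e2 : h v = α * h v + β * h v + γ * h v := by
        rw [← add_mul, ← add_mul, p4, one_mul]
      rw [e, e2]
      have := mul_le_mul_of_nonneg_left hwv.le p1
      have := mul_le_mul_of_nonneg_left ha p2
      have := mul_le_mul_of_nonneg_left hc p3
      linarith
    linarith
  -- choose the sign
  obtain ⟨g, g0, ga, gc, gs⟩ : ∃ g : E3 →ₗ[ℝ] ℝ, g ≠ 0 ∧ g a = g w ∧ g c = g w ∧ g s0 < g w := by
    rcases lt_or_gt_of_ne hne with hlt | hgt
    · exact ⟨h', h'0, h'a, h'c, hlt⟩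
    · refine ⟨-h', neg_ne_zero.mpr h'0, ?_, ?_, ?_⟩
      · show -(h' a) = -(h' w); rw [h'a]
      · show -(h' c) = -(h' w); rw [h'c]
      · show -(h' s0) < -(h' w); linarith
  have hsub : up S g w ⊂ up S h v := by
    rw [Finset.ssubset_iff_of_subset]
    · exact ⟨w, mem_up.mpr ⟨b'.hv, hwv⟩, fun hh => lt_irrefl _ (mem_up.mp hh).2⟩
    · intro s hs
      rw [mem_up] at hs ⊢
      refine ⟨hs.1, ?_⟩
      by_contra hle
      push Not at hle
      obtain ⟨t, t0, t1, tm, tS⟩ := cross gs hs.2 hs0 hs.1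
      obtain ⟨α, β, γ, p1, p2, p3, p4, p5⟩ := b'.section g0 ga gc tS tm
      have e : (1 - t) * h s0 + t * h s = α * h w + β * h a + γ * h c := by
        rw [← map_seg, p5, map_tri]
      have e2 : h v = α * h v + β * h v + γ * h v := by
        rw [← add_mul, ← add_mul, p4, one_mul]
      have := mul_le_mul_of_nonneg_left hwv.le p1
      have := mul_le_mul_of_nonneg_left ha p2
      have := mul_le_mul_of_nonneg_left hc p3
      have : (1 - t) * h s0 + t * h s < h v := by nlinarith
      linarith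
  have hlt := Finset.card_lt_card hsub
  apply triv_of_card_one b' g0 ga gc
  by_contra hge
  push Not at hge
  have := hmin w a c g b' g0 ga gc hge
  omega

/-- The good apex lemma. -/
theorem good_apex (hS : ConvPos S) (hne : S.Nonempty) :
    ∃ v ∈ S, ∃ q : E3, ∀ x y, Bad S v x y → x = q ∨ y = q ∨ Triv S v x y := by
  by_cases hex : ∃ n : ℕ, ∃ (v x y : E3) (h : E3 →ₗ[ℝ] ℝ), Bad S v x y ∧ h ≠ 0 ∧ h x = h v ∧
      h y = h v ∧ (up S h v).card = n ∧ 2 ≤ n
  · obtain ⟨v, x, y, h, b, h0, hx, hy, hn, h2⟩ := Nat.find_spec hex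
    have hmin : ∀ (v' x' y' : E3) (h' : E3 →ₗ[ℝ] ℝ), Bad S v' x' y' → h' ≠ 0 → h' x' = h' v' →
        h' y' = h' v' → 2 ≤ (up S h' v').card → (up S h v).card ≤ (up S h' v').card := by
      intro v' x' y' h' b' h'0 h'x h'y h'2
      rw [hn]
      exact Nat.find_min' hex ⟨v', x', y', h', b', h'0, h'x, h'y, rfl, h'2⟩
    obtain ⟨fx, fx0, fx1, fx2⟩ := b.cx
    obtain ⟨fy, fy0, fy1, fy2⟩ := b.cy
    have kx : fx (y - v) ≠ 0 := by
      intro hh
      rw [map_sub] at hh
      exact b.no ⟨fx, fx0, fx1, fx2, by linarith⟩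
    have ky : fy (x - v) ≠ 0 := by
      intro hh
      rw [map_sub] at hh
      exact b.no ⟨fy, fy0, fy1, by linarith, fy2⟩
    -- a vertex above the plane not on both supporting planes
    obtain ⟨w, hw, hwv, hwf⟩ : ∃ w ∈ S, h v < h w ∧ ¬ (fx w = fx v ∧ fy w = fy v) := by
      by_contra hcon
      push Not at hcon
      have hcard : 1 < (up S h v).card := by omega
      obtain ⟨z1, hz1, z2, hz2, hne12⟩ := Finset.one_lt_card.mp hcard
      rw [mem_up] at hz1 hz2
      have c1 := hcon z1 hz1.1 hz1.2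
      have c2 := hcon z2 hz2.1 hz2.2
      set u := (h z2 - h v) • (z1 - v) - (h z1 - h v) • (z2 - v) with hu
      have hu0 : u = 0 := by
        refine tri_zero (X := x - v) (Y := y - v) h0 (by rw [map_sub, hx, sub_self])
          (by rw [map_sub, hy, sub_self]) (by rw [map_sub, fx2, sub_self]) kx
          ky ?_ ?_ ?_
        · rw [hu]; simp only [map_sub, map_smul, smul_eq_mul]; ring
        · rw [hu]; simp only [map_sub, map_smul, smul_eq_mul, c1.1, c2.1]; ring
        · rw [hu]; simp only [map_sub, map_smul, smul_eq_mul, c1.2, c2.2]; ring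
      have d1 : 0 < h z1 - h v := by linarith [hz1.2]
      have d2 : 0 < h z2 - h v := by linarith [hz2.2]
      have nv1 : v ≠ z1 := by rintro rfl; linarith
      have nv2 : v ≠ z2 := by rintro rfl; linarith
      have hu1 : (h z2 - h v) • (z1 - v) = (h z1 - h v) • (z2 - v) := sub_eq_zero.mp hu0
      rcases le_total (h z1 - h v) (h z2 - h v) with hle | hle
      · refine hS.not_between (x := z1) (y := v) (z := z2)
          (t := (h z1 - h v) / (h z2 - h v)) hz1.1 b.hv hz2.1 nv1 hne12.symm
          (div_nonneg d1.le d2.le) (by rw [div_le_one d2]; exact hle) ?_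
        have e1 : z1 - v = ((h z1 - h v) / (h z2 - h v)) • (z2 - v) := by
          have : z1 - v = (1 / (h z2 - h v)) • ((h z2 - h v) • (z1 - v)) := by
            rw [smul_smul, one_div_mul_cancel d2.ne', one_smul]
          rw [this, hu1, smul_smul]
          congr 1
          field_simp
        have e2 : z1 = v + (z1 - v) := by abel
        conv_lhs => rw [e2, e1]
        module
      · refine hS.not_between (x := z2) (y := v) (z := z1)
          (t := (h z2 - h v) / (h z1 - h v)) hz2.1 b.hv hz1.1 nv2 hne12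
          (div_nonneg d2.le d1.le) (by rw [div_le_one d1]; exact hle) ?_
        have e1 : z2 - v = ((h z2 - h v) / (h z1 - h v)) • (z1 - v) := by
          have : z2 - v = (1 / (h z1 - h v)) • ((h z1 - h v) • (z2 - v)) := by
            rw [smul_smul, one_div_mul_cancel d1.ne', one_smul]
          rw [this, ← hu1, smul_smul]
          congr 1
          field_simp
        have e2 : z2 = v + (z2 - v) := by abel
        conv_lhs => rw [e2, e1]
        module
    -- the key claim for one side
    have claim : ∀ {x y : E3} {fx fy : E3 →ₗ[ℝ] ℝ}, Bad S v x y → h x = h v → h y = h v →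
        fx ≠ 0 → (∀ z ∈ S, fx v ≤ fx z) → fx x = fx v → (∀ z ∈ S, fy v ≤ fy z) → fy y = fy v →
        fy v < fy w → ∀ a c, Bad S w a c → a = y ∨ c = y ∨ Triv S w a c := by
      intro x y fx fy b hx hy fx0 fx1 fx2 fy1 fy2 hwy a c b'
      rcases lt_or_ge (h a) (h v) with ha | ha
      · right; left
        exact b.chord_below hS h0 hx hy fx0 fx1 fx2 fy1 fy2 hwv hwy b' ha
      · rcases lt_or_ge (h c) (h v) with hc | hc
        · left
          exact b.chord_below hS h0 hx hy fx0 fx1 fx2 fy1 fy2 hwv hwy b'.symm hc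
        · right; right
          exact b.chord_above h0 hx hy hmin hwv b' ha hc
    refine ⟨w, hw, ?_⟩
    by_cases hfy : fy w = fy v
    · have hfx : fx v < fx w := lt_of_le_of_ne (fx1 w hw) (fun hh => hwf ⟨hh.symm, hfy⟩)
      exact ⟨x, claim b.symm hy hx fy0 fy1 fy2 fx1 fx2 hfx⟩
    · have hfy' : fy v < fy w := lt_of_le_of_ne (fy1 w hw) (fun hh => hfy hh.symm)
      exact ⟨y, claim b hx hy fx0 fx1 fx2 fy1 fy2 hfy'⟩
  · obtain ⟨v, hv⟩ := hne
    refine ⟨v, hv, v, ?_⟩
    intro x y b
    right; right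
    obtain ⟨h, h0, hx, hy⟩ := exists_plane v x y
    apply triv_of_card_one b h0 hx hy
    by_contra hge
    push Not at hge
    exact hex ⟨_, v, x, y, h, b, h0, hx, hy, rfl, hge⟩

end

end Run7.h169
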