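import Pool.Agent.Run7.h169.Ux1

set_option autoImplicit false
open scoped Classical Topology
open Filter

namespace Run7.h169

/-- Each colour class induces a forest: every nonempty set of vertices of one colour has a member
with at most one neighbour in the set. -/
def ForCol (W : Finset E3) (χ : E3 → Bool) : Prop :=
  ∀ M ⊆ W, M.Nonempty → (∀ x ∈ M, ∀ y ∈ M, χ x = χ y) →
    ∃ x ∈ M, ∀ y ∈ M, ∀ t ∈ M, IsEdge0 W x y → IsEdge0 W x t → y = t

/-- The number of neighbours in a set. -/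
noncomputable def nb (W X : Finset E3) (p : E3) : ℕ := (X.filter (fun q => IsEdge0 W p q)).card

section

variable {W : Finset E3} {B : Finset (Finset E3)} {χ : E3 → Bool}

theorem nb_eq (X : Finset E3) (p : E3) :
    nb W X p = ∑ q ∈ X, (if IsEdge0 W p q then 1 else 0) := Finset.card_filter _ _

theorem nb_le_one {X : Finset E3} {x : E3}
    (h : ∀ y ∈ X, ∀ t ∈ X, IsEdge0 W x y → IsEdge0 W x t → y = t) : nb W X x ≤ 1 := by
  unfold nb
  rw [Finset.card_le_one]
  intro a ha b hb
  rw [Finset.mem_filter] at ha hb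
  exact h a ha.1 b hb.1 ha.2 hb.2

/-- A forest on `n + 1` vertices has at most `n` edges. -/
theorem ForCol.sum_le (h : ForCol W χ) : ∀ (n : ℕ) (X : Finset E3), X.card = n + 1 → X ⊆ W →
    (∀ x ∈ X, ∀ y ∈ X, χ x = χ y) → ∑ p ∈ X, nb W X p ≤ 2 * n := by
  intro n
  induction n with
  | zero =>
    intro X hX _ _
    obtain ⟨a, rfl⟩ := Finset.card_eq_one.mp (by rw [hX])
    rw [Finset.sum_singleton]
    have : nb W {a} a = 0 := by
      unfold nb
      rw [Finset.card_eq_zero, Finset.filter_eq_empty_iff]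
      intro x hx he
      rw [Finset.mem_singleton] at hx
      rw [hx] at he
      exact he.1 rfl
    omega
  | succ n ih =>
    intro X hX hXW hmono
    obtain ⟨x, hx, hleaf⟩ := h X hXW (Finset.card_pos.mp (by omega)) hmono
    have h1 := nb_le_one hleaf
    have key : ∀ p, nb W X p = nb W (X.erase x) p + (if IsEdge0 W p x then 1 else 0) := by
      intro p
      rw [nb_eq, nb_eq, ← Finset.add_sum_erase _ _ hx, add_comm]
    have hxx : nb W X x = nb W (X.erase x) x := by
      rw [key x, if_neg (fun he : IsEdge0 W x x => he.1 rfl), add_zero]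
    have hs : ∑ p ∈ X.erase x, (if IsEdge0 W p x then 1 else 0) = nb W (X.erase x) x := by
      rw [nb_eq]
      apply Finset.sum_congr rfl
      intro q _
      by_cases he : IsEdge0 W q x
      · rw [if_pos he, if_pos he.symm]
      · rw [if_neg he, if_neg (fun hh => he hh.symm)]
    have h2 := ih (X.erase x) (by rw [Finset.card_erase_of_mem hx, hX]; rfl)
      ((Finset.erase_subset _ _).trans hXW)
      (fun a ha b hb => hmono a (Finset.mem_of_mem_erase ha) b (Finset.mem_of_mem_erase hb))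
    rw [← Finset.add_sum_erase _ _ hx, Finset.sum_congr rfl (fun p _ => key p),
      Finset.sum_add_distrib, hs]
    omega

/-- A boundary pair of a set of triangles without flippable crossing edges is an edge. -/
theorem pair_edge (hC : Cfg W) (hF : Fan W B) {Q : Finset (Finset E3)} (hQ : Q ⊆ B)
    (hedge : ∀ p q r s : E3, p ≠ q → r ≠ s → ({p, q, r} : Finset E3) ∈ Q →
      ({p, q, s} : Finset E3) ∈ B \ Q → IsEdge0 W p q)
    {x y : E3} (hx : x ∈ W) (hy : y ∈ W) (hxy : x ≠ y) (hc : cnt Q x y = 1) : IsEdge0 W x y := by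
  by_cases hin : Inner W (x + y)
  · obtain ⟨r, s, hrs, h1, h2⟩ := hF.boundary_of_cnt hQ hxy hc hin
    exact hedge x y r s hxy hrs h1 h2
  · have hle := hF.cnt_le hxy
    have hge : 1 ≤ cnt B x y := by rw [← hc]; exact cnt_mono hQ x y
    have h1 : cnt B x y = 1 := by
      by_contra hne
      obtain ⟨r, s, hrs, g1, g2⟩ := two_of_cnt hF hxy (by omega : 2 ≤ cnt B x y)
      exact hin (hF.two_inner g1 g2 hrs)
    exact hF.boundary_edge hC hx hy hxy h1

/-- Sets of monochromatic triangles can be left through a flippable edge. -/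
theorem ForCol.flippable (h : ForCol W χ) (hC : Cfg W) (hF : Fan W B)
    {Q : Finset (Finset E3)} (hQ : Q ⊆ B) (hne : Q.Nonempty) (hne' : (B \ Q).Nonempty)
    (hmono : ∀ τ ∈ Q, Mono χ τ) :
    ∃ p q r s : E3, p ≠ q ∧ r ≠ s ∧ ({p, q, r} : Finset E3) ∈ Q ∧
      ({p, q, s} : Finset E3) ∈ B \ Q ∧ gfun {p, q, r} (fun _ => 1) s = 1 := by
  by_contra hcon
  push Not at hcon
  have hedge : ∀ p q r s : E3, p ≠ q → r ≠ s → ({p, q, r} : Finset E3) ∈ Q →
      ({p, q, s} : Finset E3) ∈ B \ Q → IsEdge0 W p q := by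
    intro p q r s h1 h2 h3 h4
    exact hF.ridge hC (hQ h3) (Finset.mem_sdiff.mp h4).1 (hcon p q r s h1 h2 h3 h4)
  have hQ3 : ∀ τ ∈ Q, τ ⊆ W ∧ τ.card = 3 := fun τ hτ =>
    ⟨hF.sub τ (hQ hτ), (hF.nice τ (hQ hτ)).1⟩
  obtain ⟨p, q, r, s, hpq, hrs, h1, h2⟩ := hF.connected hQ hne hne'
  have hc1 := hF.cnt_boundary hQ hrs h1 h2
  -- vertices on the boundary with the colour of `p`
  set M := W.filter (fun x => χ x = χ p ∧ ∃ y ∈ W.erase x, cnt Q x y = 1) with hM
  have hpW : p ∈ W := (hQ3 _ h1).1 (by simp)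
  have hqW : q ∈ W := (hQ3 _ h1).1 (by simp)
  have hpM : p ∈ M := Finset.mem_filter.mpr
    ⟨hpW, rfl, q, Finset.mem_erase.mpr ⟨hpq.symm, hqW⟩, hc1⟩
  obtain ⟨x, hx, hleaf⟩ := h M (Finset.filter_subset _ _) ⟨p, hpM⟩ (by
    intro a ha b hb
    exact (Finset.mem_filter.mp ha).2.1.trans (Finset.mem_filter.mp hb).2.1.symm)
  obtain ⟨hxW, hxc, y, hy, hxy⟩ := Finset.mem_filter.mp hx
  obtain ⟨t, ht, hty, hxt⟩ := exists_second Q hQ3 hy hxy
    (fun z hz => (cnt_mono hQ x z).trans (hF.cnt_le (Ne.symm (Finset.mem_erase.mp hz).1)))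
  have mem : ∀ y ∈ W.erase x, cnt Q x y = 1 → y ∈ M ∧ IsEdge0 W x y := by
    intro y hy hc
    obtain ⟨hyx, hyW⟩ := Finset.mem_erase.mp hy
    refine ⟨?_, pair_edge hC hF hQ hedge hxW hyW hyx.symm hc⟩
    have hpos : 0 < (Q.filter (fun τ => x ∈ τ ∧ y ∈ τ)).card := by
      have : cnt Q x y = (Q.filter (fun τ => x ∈ τ ∧ y ∈ τ)).card := rfl
      omega
    obtain ⟨τ, hτ⟩ := Finset.card_pos.mp hpos
    obtain ⟨hτQ, hxτ, hyτ⟩ := Finset.mem_filter.mp hτ
    refine Finset.mem_filter.mpr ⟨hyW, ?_, x, Finset.mem_erase.mpr ⟨hyx.symm, hxW⟩, ?_⟩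
    · rw [hmono τ hτQ y hyτ x hxτ]; exact hxc
    · rw [cnt_comm]; exact hc
  obtain ⟨y1, y2⟩ := mem y hy hxy
  obtain ⟨t1, t2⟩ := mem t ht hxt
  exact hty (hleaf t t1 y y1 t2 y2)

/-- Not all triangles are monochromatic. -/
theorem exists_nonmono' (hC : Cfg W) (hF : Fan W B) (htwo : ∃ x ∈ W, ∃ y ∈ W, χ x ≠ χ y) :
    ∃ τ ∈ B, ¬ Mono χ τ := by
  by_contra hcon
  push Not at hcon
  obtain ⟨x, hx, y, hy, hxy⟩ := htwo
  obtain ⟨τx, hτx, hxτ⟩ := hF.exists_mem hC hx
  obtain ⟨τy, hτy, hyτ⟩ := hF.exists_mem hC hy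
  set Q := B.filter (fun τ => ∀ z ∈ τ, χ z = χ x) with hQ
  have hQB : Q ⊆ B := Finset.filter_subset _ _
  have h1 : τx ∈ Q := Finset.mem_filter.mpr ⟨hτx, fun z hz => hcon τx hτx z hz x hxτ⟩
  have h2 : τy ∈ B \ Q := by
    rw [Finset.mem_sdiff]
    refine ⟨hτy, fun h => ?_⟩
    exact hxy ((Finset.mem_filter.mp h).2 y hyτ).symm
  obtain ⟨p, q, r, s, hpq, hrs, g1, g2⟩ := hF.connected hQB ⟨τx, h1⟩ ⟨τy, h2⟩
  rw [Finset.mem_sdiff] at g2
  apply g2.2
  rw [hQ, Finset.mem_filter] at g1 ⊢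
  refine ⟨g2.1, fun z hz => ?_⟩
  rw [← g1.2 p (by simp)]
  exact hcon _ g2.1 z hz p (by simp)

/-- There is a fan without monochromatic triangles. -/
theorem ForCol.exists_fan (h : ForCol W χ) (hC : Cfg W) (htwo : ∃ x ∈ W, ∃ y ∈ W, χ x ≠ χ y) :
    ∃ B, Fan W B ∧ ∀ τ ∈ B, ¬ Mono χ τ := by
  have key : ∀ n, ∀ B, Fan W B → (B.filter (Mono χ)).card = n →
      ∃ B, Fan W B ∧ ∀ τ ∈ B, ¬ Mono χ τ := by
    intro n
    induction n using Nat.strong_induction_on with
    | _ n ih =>
      intro B hF hn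
      by_cases h0 : (B.filter (Mono χ)).Nonempty
      · obtain ⟨τ0, hτ0, hm0⟩ := exists_nonmono' hC hF htwo
        have hne' : (B \ B.filter (Mono χ)).Nonempty :=
          ⟨τ0, Finset.mem_sdiff.mpr ⟨hτ0, fun h => hm0 (Finset.mem_filter.mp h).2⟩⟩
        obtain ⟨p, q, r, s, hpq, hrs, h1, h2, hcop⟩ := h.flippable hC hF
          (Finset.filter_subset _ _) h0 hne' (fun τ hτ => (Finset.mem_filter.mp hτ).2)
        rw [Finset.mem_filter] at h1
        rw [Finset.mem_sdiff] at h2
        have hsm : ¬ Mono χ {p, q, s} := fun h => h2.2 (Finset.mem_filter.mpr ⟨h2.1, h⟩)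
        have hpq' : χ p = χ q := h1.2 p (by simp) q (by simp)
        have hpr' : χ p = χ r := h1.2 p (by simp) r (by simp)
        have hsr : χ s ≠ χ p := by
          intro h
          apply hsm
          intro x hx y hy
          simp only [Finset.mem_insert, Finset.mem_singleton] at hx hy
          rcases hx with rfl | rfl | rfl <;> rcases hy with rfl | rfl | rfl <;> simp_all
        have hF' := hF.flip hC h1.1 h2.1 hrs hcop
        refine ih _ ?_ (flipSet B p q r s) hF' rfl
        rw [← hn]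
        apply Finset.card_lt_card
        rw [Finset.ssubset_iff_of_subset]
        · refine ⟨{p, q, r}, Finset.mem_filter.mpr h1, ?_⟩
          intro hmem
          rw [Finset.mem_filter, mem_flipSet] at hmem
          have hN1 := (hF.nice _ h1.1).distinct
          have hN2 := (hF.nice _ h2.1).distinct
          rcases hmem.1 with h | h | h
          · have : q ∈ ({p, r, s} : Finset E3) := by rw [← h]; simp
            simp only [Finset.mem_insert, Finset.mem_singleton] at this
            rcases this with h | h | h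
            · exact hpq h.symm
            · exact hN1.2.2 h
            · exact hN2.2.2 h
          · have : p ∈ ({q, r, s} : Finset E3) := by rw [← h]; simp
            simp only [Finset.mem_insert, Finset.mem_singleton] at this
            rcases this with h | h | h
            · exact hpq h
            · exact hN1.2.1 h
            · exact hN2.2.1 h
          · exact h.2.1 rfl
        · intro τ hτ
          rw [Finset.mem_filter, mem_flipSet] at hτ
          rw [Finset.mem_filter]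
          rcases hτ.1 with rfl | rfl | h
          · exact absurd (hτ.2 s (by simp) p (by simp)) hsr
          · exact absurd ((hτ.2 s (by simp) q (by simp)).trans hpq'.symm) hsr
          · exact ⟨h.2.2, hτ.2⟩
      · refine ⟨B, hF, fun τ hτ hm => h0 ⟨τ, Finset.mem_filter.mpr ⟨hτ, hm⟩⟩⟩
  obtain ⟨B, hB⟩ := fan_exists hC
  exact key _ B hB rfl

end

end Run7.h169
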