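import Pool.Agent.Run7.h169.Ht1

set_option autoImplicit false
open scoped Classical Topology
open Filter

namespace Run7.h169

/-- Boundary neighbours of the same colour. -/
noncomputable def sm (W : Finset E3) (B : Finset (Finset E3)) (χ : E3 → Bool) (o : E3) : ℕ :=
  (W.filter (fun x => (x ≠ o ∧ cnt B o x = 1) ∧ χ x = χ o)).card

/-- Boundary neighbours of the other colour. -/
noncomputable def df (W : Finset E3) (B : Finset (Finset E3)) (χ : E3 → Bool) (o : E3) : ℕ :=
  (W.filter (fun x => (x ≠ o ∧ cnt B o x = 1) ∧ ¬ χ x = χ o)).card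

/-- The outer vertices of one colour. -/
noncomputable def Ao (W : Finset E3) (χ : E3 → Bool) (c : Bool) : Finset E3 :=
  W.filter (fun o => ¬ Inner W o ∧ χ o = c)

/-- Colour changes on the boundary. -/
noncomputable def bc (W : Finset E3) (B : Finset (Finset E3)) (χ : E3 → Bool) (c : Bool) : ℕ :=
  ((W ×ˢ W).filter (fun e => χ e.1 = c ∧ ¬ χ e.2 = c ∧ cnt B e.1 e.2 = 1)).card

section

variable {W : Finset E3} {B : Finset (Finset E3)} {χ : E3 → Bool}

theorem mem_Ao {c : Bool} {o : E3} : o ∈ Ao W χ c ↔ o ∈ W ∧ ¬ Inner W o ∧ χ o = c :=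
  Finset.mem_filter

theorem card_pairs (R : E3 → E3 → Prop) :
    ((W ×ˢ W).filter (fun e => R e.1 e.2)).card = ∑ o ∈ W, (W.filter (fun x => R o x)).card := by
  rw [Finset.card_filter, Finset.sum_product]
  apply Finset.sum_congr rfl
  intro o _
  rw [Finset.card_filter]

theorem bd_outer_left (hC : Cfg W) (hF : Fan W B) {x y : E3} (hx : x ∈ W) (hy : y ∈ W)
    (hxy : x ≠ y) (hc : cnt B x y = 1) : ¬ Inner W x ∧ ¬ Inner W y := by
  obtain ⟨_, f, f0, f1, f2, f3⟩ := hF.boundary_data hC hx hy hxy hc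
  exact ⟨not_inner_of_support f0 f1 f2, not_inner_of_support f0 f1 f3⟩

/-- Outer vertices have at least two boundary neighbours. -/
theorem two_bd (hC : Cfg W) (hF : Fan W B) {a : E3} (ha : a ∈ W) (na : ¬ Inner W a) :
    2 ≤ (W.filter (fun x => x ≠ a ∧ cnt B a x = 1)).card := by
  obtain ⟨g, g0, g1, g2, w0, w1, w2, w3⟩ : ∃ g : E3 →ₗ[ℝ] ℝ, g ≠ 0 ∧ (∀ w ∈ W, 0 ≤ g w) ∧
      g a = 0 ∧ ∃ w0 ∈ W, w0 ≠ a ∧ g w0 = 0 := by
    obtain ⟨f, f0, f1, f2⟩ := exists_support hC (mem_cone_self ha) na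
    by_cases h : ∃ w0 ∈ W, w0 ≠ a ∧ f w0 = 0
    · exact ⟨f, f0, f1, f2, h⟩
    · push Not at h
      exact exists_rot hC ha f2 (fun w hw hwa => lt_of_le_of_ne (f1 w hw) (h w hw hwa).symm)
  obtain ⟨u, hu, cu⟩ := hF.boundary_nbr hC g0 g1 ha w1 w2 g2 w3
  obtain ⟨x, hx, hxu, cx⟩ := exists_second B
    (fun τ hτ => ⟨hF.sub τ hτ, (hF.nice τ hτ).1⟩) hu cu
    (fun x hx => hF.cnt_le (Ne.symm (Finset.mem_erase.mp hx).1))
  obtain ⟨ua, uW⟩ := Finset.mem_erase.mp hu
  obtain ⟨xa, xW⟩ := Finset.mem_erase.mp hx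
  rw [← Finset.card_pair hxu]
  apply Finset.card_le_card
  intro t ht
  rw [Finset.mem_insert, Finset.mem_singleton] at ht
  rw [Finset.mem_filter]
  rcases ht with rfl | rfl
  · exact ⟨xW, xa, cx⟩
  · exact ⟨uW, ua, cu⟩

theorem sm_add_df (hC : Cfg W) (hF : Fan W B) {o : E3} (ho : o ∈ W) (no : ¬ Inner W o) :
    sm W B χ o + df W B χ o = 2 := by
  have h1 := two_bd hC hF ho no
  have h2 := hF.boundary_le_two hC ho
  have h3 := Finset.card_filter_add_card_filter_not
    (s := W.filter (fun x => x ≠ o ∧ cnt B o x = 1)) (fun x => χ x = χ o)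
  rw [Finset.filter_filter, Finset.filter_filter] at h3
  unfold sm df
  omega

theorem sm_inner (hC : Cfg W) (hF : Fan W B) {o : E3} (ho : o ∈ W) (io : Inner W o) :
    sm W B χ o = 0 := by
  unfold sm
  rw [Finset.card_eq_zero, Finset.filter_eq_empty_iff]
  rintro x hx ⟨⟨h1, h2⟩, _⟩
  exact (bd_outer_left hC hF ho hx h1.symm h2).1 io

theorem bc_eq (hC : Cfg W) (hF : Fan W B) (c : Bool) :
    bc W B χ c = ∑ o ∈ Ao W χ c, df W B χ o := by
  have hcp : bc W B χ c =
      ∑ o ∈ W, (W.filter (fun x => χ o = c ∧ ¬ χ x = c ∧ cnt B o x = 1)).card := by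
    unfold bc
    convert card_pairs (W := W) (fun x y => χ x = c ∧ ¬ χ y = c ∧ cnt B x y = 1)
  rw [hcp]
  have hsub : Ao W χ c ⊆ W := Finset.filter_subset _ _
  rw [← Finset.sum_subset hsub]
  · apply Finset.sum_congr rfl
    intro o ho
    obtain ⟨_, _, hc⟩ := mem_Ao.mp ho
    unfold df
    congr 1
    apply Finset.filter_congr
    intro x _
    rw [hc]
    constructor
    · rintro ⟨_, h2, h3⟩
      exact ⟨⟨fun hh => h2 (by rw [hh]; exact hc), h3⟩, h2⟩
    · rintro ⟨⟨_, h3⟩, h2⟩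
      exact ⟨rfl, h2, h3⟩
  · intro o ho hno
    rw [Finset.card_eq_zero, Finset.filter_eq_empty_iff]
    rintro x hx ⟨h1, h2, h3⟩
    have hne : o ≠ x := by rintro rfl; exact h2 h1
    exact hno (mem_Ao.mpr ⟨ho, (bd_outer_left hC hF ho hx hne h3).1, h1⟩)

theorem sum_sm (hC : Cfg W) (hF : Fan W B) (c : Bool) :
    ∑ o ∈ Ao W χ c, sm W B χ o + bc W B χ c = 2 * (Ao W χ c).card := by
  rw [bc_eq hC hF c, ← Finset.sum_add_distrib, Finset.sum_congr rfl (g := fun _ => 2)]
  · rw [Finset.sum_const, smul_eq_mul, mul_comm]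
  · intro o ho
    obtain ⟨h1, h2, _⟩ := mem_Ao.mp ho
    exact sm_add_df hC hF h1 h2

theorem bc_swap : bc W B χ true = bc W B χ false := by
  unfold bc
  apply Finset.card_bij (fun e _ => (e.2, e.1))
  · rintro ⟨x, y⟩ he
    rw [Finset.mem_filter, Finset.mem_product] at he ⊢
    obtain ⟨⟨h1, h2⟩, h3, h4, h5⟩ := he
    refine ⟨⟨h2, h1⟩, ?_, ?_, ?_⟩
    · simpa using h4
    · show ¬ χ x = false
      have h3' : χ x = true := h3
      rw [h3']; simp
    · show cnt B y x = 1
      rw [cnt_comm]; exact h5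
  · rintro ⟨x, y⟩ _ ⟨x', y'⟩ _ h
    simp only [Prod.mk.injEq] at h ⊢
    exact ⟨h.2, h.1⟩
  · rintro ⟨x, y⟩ he
    rw [Finset.mem_filter, Finset.mem_product] at he
    obtain ⟨⟨h1, h2⟩, h3, h4, h5⟩ := he
    refine ⟨(y, x), ?_, rfl⟩
    rw [Finset.mem_filter, Finset.mem_product]
    refine ⟨⟨h2, h1⟩, ?_, ?_, ?_⟩
    · show χ y = true
      have h4' : ¬ χ y = false := h4
      simpa using h4'
    · show ¬ χ x = true
      have h3' : χ x = false := h3
      rw [h3']; simp
    · show cnt B y x = 1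
      rw [cnt_comm]; exact h5

/-- The monochromatic pairs are covered twice the number of triangles. -/
theorem mono_sum (hF : Fan W B) (hm : ∀ τ ∈ B, ¬ Mono χ τ) :
    ∑ p ∈ W, ∑ q ∈ W.filter (fun q => q ≠ p ∧ χ q = χ p), cnt B p q = 2 * B.card := by
  have hQ : ∀ τ ∈ B, τ ⊆ W ∧ τ.card = 3 := fun τ hτ => ⟨hF.sub τ hτ, (hF.nice τ hτ).1⟩
  have htot := total_cnt (W := W) B hQ
  have hp1 := par (W := W) (χ := χ) B (fun τ hτ => ⟨(hQ τ hτ).1, (hQ τ hτ).2, hm τ hτ⟩)
  have hp2 := par (W := W) (χ := fun x => !(χ x)) B (fun τ hτ => ⟨(hQ τ hτ).1, (hQ τ hτ).2, by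
    intro hh
    apply hm τ hτ
    intro x hx y hy
    have := hh x hx y hy
    simpa using this⟩)
  rw [← Finset.sum_filter_add_sum_filter_not _ (fun e : E3 × E3 => χ e.1 = χ e.2)] at htot
  have h2 : ∑ e ∈ ((W ×ˢ W).filter (fun e => e.1 ≠ e.2)).filter (fun e => ¬ χ e.1 = χ e.2),
      cnt B e.1 e.2 = 4 * B.card := by
    rw [← Finset.sum_filter_add_sum_filter_not _ (fun e : E3 × E3 => χ e.1 = true)]
    have e1 : (((W ×ˢ W).filter (fun e => e.1 ≠ e.2)).filter
        (fun e => ¬ χ e.1 = χ e.2)).filter (fun e => χ e.1 = true) = bip W χ := by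
      ext e
      simp only [Finset.mem_filter, mem_bip, Finset.mem_product]
      constructor
      · rintro ⟨⟨⟨⟨a, b⟩, _⟩, c⟩, d⟩
        rw [d] at c
        exact ⟨a, b, d, by simpa using Ne.symm c⟩
      · rintro ⟨a, b, c, d⟩
        refine ⟨⟨⟨⟨a, b⟩, ?_⟩, ?_⟩, c⟩
        · intro hh
          rw [hh, d] at c
          simp at c
        · rw [c, d]; simp
    have e2 : (((W ×ˢ W).filter (fun e => e.1 ≠ e.2)).filter
        (fun e => ¬ χ e.1 = χ e.2)).filter (fun e => ¬ χ e.1 = true) =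
        bip W (fun x => !(χ x)) := by
      ext e
      simp only [Finset.mem_filter, mem_bip, Finset.mem_product]
      constructor
      · rintro ⟨⟨⟨⟨a, b⟩, _⟩, c⟩, d⟩
        have d' : χ e.1 = false := by simpa using d
        rw [d'] at c
        refine ⟨a, b, by rw [d']; rfl, ?_⟩
        have : χ e.2 = true := by simpa using Ne.symm c
        rw [this]; rfl
      · rintro ⟨a, b, c, d⟩
        have c' : χ e.1 = false := by simpa using c
        have d' : χ e.2 = true := by simpa using d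
        refine ⟨⟨⟨⟨a, b⟩, ?_⟩, ?_⟩, ?_⟩
        · intro hh
          rw [hh, d'] at c'
          simp at c'
        · rw [c', d']; simp
        · rw [c']; simp
    rw [e1, e2, hp1, hp2]
    ring
  have h3 : ∑ e ∈ ((W ×ˢ W).filter (fun e => e.1 ≠ e.2)).filter (fun e => χ e.1 = χ e.2),
      cnt B e.1 e.2 = ∑ p ∈ W, ∑ q ∈ W.filter (fun q => q ≠ p ∧ χ q = χ p), cnt B p q := by
    rw [Finset.filter_filter, Finset.sum_filter, Finset.sum_product]
    apply Finset.sum_congr rfl
    intro p _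
    rw [Finset.sum_filter]
    apply Finset.sum_congr rfl
    intro q _
    by_cases h : q ≠ p ∧ χ q = χ p
    · rw [if_pos h, if_pos ⟨Ne.symm h.1, h.2.symm⟩]
    · rw [if_neg h, if_neg (fun hh => h ⟨Ne.symm hh.1, hh.2.symm⟩)]
  omega

/-- Two fans have the same boundary pairs. -/
theorem same_bd (hC : Cfg W) (hF : Fan W B) {B' : Finset (Finset E3)} (hF' : Fan W B')
    {x y : E3} (hx : x ∈ W) (hy : y ∈ W) (hxy : x ≠ y) (hc : cnt B' x y = 1) :
    cnt B x y = 1 := by
  obtain ⟨_, f, f0, f1, f2, f3⟩ := hF'.boundary_data hC hx hy hxy hc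
  have he := hF'.boundary_edge hC hx hy hxy hc
  obtain ⟨r, hr⟩ := hF.edge_cover hC hx hy he
  have h1 : 0 < cnt B x y := cnt_pos hr (by simp) (by simp)
  by_contra hne
  obtain ⟨r, s, hrs, g1, g2⟩ := two_of_cnt hF hxy (by omega : 2 ≤ cnt B x y)
  exact not_inner_of_support f0 f1 (by rw [map_add, f2, f3, add_zero])
    (hF.two_inner g1 g2 hrs)

/-- Euler count: few colour changes on the boundary. -/
theorem bc_le (hC : Cfg W) (hF : Fan W B) (hm : ∀ τ ∈ B, ¬ Mono χ τ)
    (hcard : 2 * W.card ≤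
      ∑ p ∈ W, (W.filter (fun q => χ q = χ p ∧ IsEdge0 W p q)).card + 4) :
    bc W B χ true ≤ 2 := by
  have heu := hF.euler hC
  have hms := mono_sum hF hm
  -- edges are covered twice or are boundary pairs
  have hper : ∀ p ∈ W, 2 * (W.filter (fun q => χ q = χ p ∧ IsEdge0 W p q)).card ≤
      ∑ q ∈ W.filter (fun q => q ≠ p ∧ χ q = χ p), cnt B p q + sm W B χ p := by
    intro p hp
    set E := W.filter (fun q => χ q = χ p ∧ IsEdge0 W p q) with hE
    have hsub : E ⊆ W.filter (fun q => q ≠ p ∧ χ q = χ p) := by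
      intro q hq
      obtain ⟨h1, h2, h3⟩ := Finset.mem_filter.mp hq
      exact Finset.mem_filter.mpr ⟨h1, h3.1.symm, h2⟩
    have h1 : ∑ q ∈ E, cnt B p q ≤
        ∑ q ∈ W.filter (fun q => q ≠ p ∧ χ q = χ p), cnt B p q :=
      Finset.sum_le_sum_of_subset hsub
    have h2 : (E.filter (fun q => cnt B p q = 1)).card ≤ sm W B χ p := by
      apply Finset.card_le_card
      intro q hq
      obtain ⟨h3, h4⟩ := Finset.mem_filter.mp hq
      obtain ⟨h5, h6, h7⟩ := Finset.mem_filter.mp h3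
      exact Finset.mem_filter.mpr ⟨h5, ⟨h7.1.symm, h4⟩, h6⟩
    have h3 : ∑ q ∈ E, 2 ≤ ∑ q ∈ E, (cnt B p q + (if cnt B p q = 1 then 1 else 0)) := by
      apply Finset.sum_le_sum
      intro q hq
      obtain ⟨h5, h6, h7⟩ := Finset.mem_filter.mp hq
      obtain ⟨r, hr⟩ := hF.edge_cover hC hp h5 h7
      have h8 : 0 < cnt B p q := cnt_pos hr (by simp) (by simp)
      split_ifs with h9
      · omega
      · omega
    rw [Finset.sum_const, smul_eq_mul, Finset.sum_add_distrib, ← Finset.card_filter] at h3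
    omega
  have hsum := Finset.sum_le_sum hper
  rw [← Finset.mul_sum, Finset.sum_add_distrib, hms] at hsum
  -- the total of the boundary numbers
  have hsm : ∑ p ∈ W, sm W B χ p =
      ∑ o ∈ Ao W χ true, sm W B χ o + ∑ o ∈ Ao W χ false, sm W B χ o := by
    have hd : Disjoint (Ao W χ true) (Ao W χ false) := by
      rw [Finset.disjoint_left]
      intro o h1 h2
      have := (mem_Ao.mp h1).2.2
      rw [(mem_Ao.mp h2).2.2] at this
      simp at this
    rw [← Finset.sum_union hd]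
    symm
    apply Finset.sum_subset
    · intro o ho
      rcases Finset.mem_union.mp ho with h | h
      · exact (mem_Ao.mp h).1
      · exact (mem_Ao.mp h).1
    · intro o ho hno
      by_cases hi : Inner W o
      · exact sm_inner hC hF ho hi
      · exfalso
        apply hno
        rw [Finset.mem_union]
        cases hc : χ o
        · right; exact mem_Ao.mpr ⟨ho, hi, hc⟩
        · left; exact mem_Ao.mpr ⟨ho, hi, hc⟩
  have hA : (Ao W χ true).card + (Ao W χ false).card =
      (W.filter (fun w => ¬ Inner W w)).card := by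
    rw [← Finset.card_filter_add_card_filter_not (s := W.filter (fun w => ¬ Inner W w))
      (fun w => χ w = true), Finset.filter_filter, Finset.filter_filter]
    unfold Ao
    congr 2
    apply Finset.filter_congr
    intro x _
    simp
  have hW : (W.filter (Inner W)).card + (W.filter (fun w => ¬ Inner W w)).card = W.card :=
    Finset.card_filter_add_card_filter_not _
  have s1 := sum_sm (χ := χ) hC hF true
  have s2 := sum_sm (χ := χ) hC hF false
  have hsw := bc_swap (W := W) (B := B) (χ := χ)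
  rw [hsm] at hsum
  omega

end

end Run7.h169
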