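import Pool.Agent.Run7.h169.Ht2

set_option autoImplicit false
open scoped Classical Topology
open Filter

namespace Run7.h169

/-- A ranking from a leaf property relative to a fixed set. -/
theorem rank_of_leaf (N : E3 → E3 → Prop) (A : Finset E3) :
    ∀ (n : ℕ) (I : Finset E3), I.card = n →
    (∀ M ⊆ I, M.Nonempty → ∃ p ∈ M, ∀ x ∈ M ∪ A, ∀ y ∈ M ∪ A, N p x → N p y → x = y) →
    ∃ ρ : E3 → ℕ, ∀ p ∈ I, ∀ x ∈ I ∪ A, ∀ y ∈ I ∪ A, N p x → N p y → (x ∈ I → ρ x ≤ ρ p) →
      (y ∈ I → ρ y ≤ ρ p) → x = y := by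
  intro n
  induction n with
  | zero =>
    intro I hI _
    rw [Finset.card_eq_zero] at hI
    refine ⟨fun _ => 0, ?_⟩
    intro p hp
    rw [hI] at hp
    exact absurd hp (Finset.notMem_empty p)
  | succ n ih =>
    intro I hI hleaf
    obtain ⟨p0, hp0, h0⟩ := hleaf I subset_rfl (Finset.card_pos.mp (by omega))
    obtain ⟨ρ, hρ⟩ := ih (I.erase p0) (by rw [Finset.card_erase_of_mem hp0, hI]; rfl)
      (fun M hM => hleaf M (hM.trans (Finset.erase_subset _ _)))
    refine ⟨Function.update ρ p0 (I.sup ρ + 1), ?_⟩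
    intro p hp x hx y hy nx ny rx ry
    by_cases hpp : p = p0
    · subst hpp
      exact h0 x hx y hy nx ny
    · have hρp : ρ p ≤ I.sup ρ := Finset.le_sup (f := ρ) hp
      have ne : ∀ x, (x ∈ I → Function.update ρ p0 (I.sup ρ + 1) x ≤
          Function.update ρ p0 (I.sup ρ + 1) p) → x ≠ p0 := by
        rintro x rx rfl
        have := rx hp0
        rw [Function.update_self, Function.update_of_ne hpp] at this
        omega
      have x0 := ne x rx
      have y0 := ne y ry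
      have mem : ∀ x ∈ I ∪ A, x ≠ p0 → x ∈ I.erase p0 ∪ A := by
        intro x hx hne
        rcases Finset.mem_union.mp hx with h | h
        · exact Finset.mem_union_left _ (Finset.mem_erase.mpr ⟨hne, h⟩)
        · exact Finset.mem_union_right _ h
      refine hρ p (Finset.mem_erase.mpr ⟨hpp, hp⟩) x (mem x hx x0) y (mem y hy y0) nx ny ?_ ?_
      · intro hh
        have := rx (Finset.mem_of_mem_erase hh)
        rwa [Function.update_of_ne x0, Function.update_of_ne hpp] at this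
      · intro hh
        have := ry (Finset.mem_of_mem_erase hh)
        rwa [Function.update_of_ne y0, Function.update_of_ne hpp] at this

section

variable {W : Finset E3} {B : Finset (Finset E3)} {χ : E3 → Bool}

theorem sm_sub (hC : Cfg W) (hF : Fan W B) {c : Bool} {X : Finset E3} (hX : Ao W χ c ⊆ X)
    {o : E3} (ho : o ∈ Ao W χ c) :
    W.filter (fun x => (x ≠ o ∧ cnt B o x = 1) ∧ χ x = χ o) ⊆
      X.filter (fun q => IsEdge0 W o q) := by
  intro x hx
  obtain ⟨h1, ⟨h2, h3⟩, h4⟩ := Finset.mem_filter.mp hx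
  obtain ⟨o1, o2, o3⟩ := mem_Ao.mp ho
  refine Finset.mem_filter.mpr ⟨hX (mem_Ao.mpr ⟨h1, ?_, h4.trans o3⟩), ?_⟩
  · exact (bd_outer_left hC hF o1 h1 h2.symm h3).2
  · exact hF.boundary_edge hC o1 h1 h2.symm h3

theorem sm_le_nb (hC : Cfg W) (hF : Fan W B) {c : Bool} {X : Finset E3} (hX : Ao W χ c ⊆ X)
    {o : E3} (ho : o ∈ Ao W χ c) : sm W B χ o ≤ nb W X o :=
  Finset.card_le_card (sm_sub hC hF hX ho)

theorem sm_lt_nb (hC : Cfg W) (hF : Fan W B) {c : Bool} {X : Finset E3} (hX : Ao W χ c ⊆ X)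
    {o : E3} (ho : o ∈ Ao W χ c) {t : E3} (ht : t ∈ X) (he : IsEdge0 W o t)
    (hne : cnt B o t ≠ 1) : sm W B χ o < nb W X o := by
  apply Finset.card_lt_card
  rw [Finset.ssubset_iff_of_subset (sm_sub hC hF hX ho)]
  refine ⟨t, Finset.mem_filter.mpr ⟨ht, he⟩, ?_⟩
  intro hh
  exact hne (Finset.mem_filter.mp hh).2.1.2

/-- Two colour classes inducing forests with at most two colour changes on the boundary give a
suitable colouring. -/
theorem ForCol.col' (h : ForCol W χ) (hC : Cfg W) (htwo : ∃ x ∈ W, ∃ y ∈ W, χ x ≠ χ y)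
    (hF : Fan W B) (hb1 : bc W B χ true ≤ 2) : Col W χ := by
  have hb : ∀ c, bc W B χ c ≤ 2 := by
    intro c
    cases c
    · rw [← bc_swap]; exact hb1
    · exact hb1
  have hsm : ∀ c, 2 * (Ao W χ c).card ≤ ∑ o ∈ Ao W χ c, sm W B χ o + 2 := by
    intro c
    have := sum_sm (χ := χ) hC hF c
    have := hb c
    omega
  have AoW : ∀ c, Ao W χ c ⊆ W := fun c => Finset.filter_subset _ _
  have Aomono : ∀ c, ∀ x ∈ Ao W χ c, ∀ y ∈ Ao W χ c, χ x = χ y := fun c x hx y hy =>
    (mem_Ao.mp hx).2.2.trans (mem_Ao.mp hy).2.2.symm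
  -- the leaf property relative to the outer vertices
  have hleaf : ∀ c, ∀ M ⊆ W, (∀ x ∈ M, Inner W x ∧ χ x = c) → M.Nonempty →
      ∃ p ∈ M, ∀ x ∈ M ∪ Ao W χ c, ∀ y ∈ M ∪ Ao W χ c, IsEdge0 W p x → IsEdge0 W p y →
        x = y := by
    intro c M hMW hMc hMne
    by_contra hcon
    push Not at hcon
    set X := M ∪ Ao W χ c with hX
    have hXW : X ⊆ W := Finset.union_subset hMW (AoW c)
    have hXc : ∀ x ∈ X, χ x = c := by
      intro x hx
      rcases Finset.mem_union.mp hx with hh | hh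
      · exact (hMc x hh).2
      · exact (mem_Ao.mp hh).2.2
    have hdisj : Disjoint M (Ao W χ c) := by
      rw [Finset.disjoint_left]
      intro x h1 h2
      exact (mem_Ao.mp h2).2.1 (hMc x h1).1
    have h2nb : ∀ p ∈ M, 2 ≤ nb W X p := by
      intro p hp
      obtain ⟨x, hx, y, hy, ex, ey, hxy⟩ := hcon p hp
      unfold nb
      rw [← Finset.card_pair hxy]
      apply Finset.card_le_card
      intro t ht
      rw [Finset.mem_insert, Finset.mem_singleton] at ht
      rcases ht with rfl | rfl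
      · exact Finset.mem_filter.mpr ⟨hx, ex⟩
      · exact Finset.mem_filter.mpr ⟨hy, ey⟩
    obtain ⟨p0, hp0, hl⟩ := h M hMW hMne
      (fun x hx y hy => (hMc x hx).2.trans (hMc y hy).2.symm)
    obtain ⟨o, ho, eo⟩ : ∃ o ∈ Ao W χ c, IsEdge0 W p0 o := by
      obtain ⟨x, hx, y, hy, ex, ey, hxy⟩ := hcon p0 hp0
      rcases Finset.mem_union.mp hx with h1 | h1
      · rcases Finset.mem_union.mp hy with h2 | h2
        · exact absurd (hl x h1 y h2 ex ey) hxy
        · exact ⟨y, h2, ey⟩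
      · exact ⟨x, h1, ex⟩
    have hsubX : Ao W χ c ⊆ X := Finset.subset_union_right
    have hstrict : ∑ o ∈ Ao W χ c, sm W B χ o < ∑ o ∈ Ao W χ c, nb W X o := by
      apply Finset.sum_lt_sum
      · intro o ho
        exact sm_le_nb hC hF hsubX ho
      · refine ⟨o, ho, sm_lt_nb hC hF hsubX ho (Finset.mem_union_left _ hp0) eo.symm ?_⟩
        intro hc
        exact (bd_outer_left hC hF (AoW c ho) (hMW hp0) eo.1.symm hc).2 (hMc p0 hp0).1
    have hM2 : ∑ p ∈ M, 2 ≤ ∑ p ∈ M, nb W X p := Finset.sum_le_sum h2nb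
    rw [Finset.sum_const, smul_eq_mul] at hM2
    have hXcard : X.card = M.card + (Ao W χ c).card := Finset.card_union_of_disjoint hdisj
    have hMpos : 0 < M.card := Finset.card_pos.mpr hMne
    have hle := h.sum_le (X.card - 1) X (by omega) hXW
      (fun x hx y hy => (hXc x hx).trans (hXc y hy).symm)
    have hsplit : ∑ p ∈ X, nb W X p = ∑ p ∈ M, nb W X p + ∑ p ∈ Ao W χ c, nb W X p :=
      Finset.sum_union hdisj
    have := hsm c
    omega
  refine ⟨htwo, ?_, ?_, ?_⟩
  · -- no monochromatic chords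
    intro p hp q hq np nq he hc hin
    have hpA : p ∈ Ao W χ (χ p) := mem_Ao.mpr ⟨hp, np, rfl⟩
    have hqA : q ∈ Ao W χ (χ p) := mem_Ao.mpr ⟨hq, nq, hc.symm⟩
    have hstrict : ∑ o ∈ Ao W χ (χ p), sm W B χ o <
        ∑ o ∈ Ao W χ (χ p), nb W (Ao W χ (χ p)) o := by
      apply Finset.sum_lt_sum
      · intro o ho
        exact sm_le_nb hC hF subset_rfl ho
      · refine ⟨p, hpA, sm_lt_nb hC hF subset_rfl hpA hqA he ?_⟩
        intro hcnt
        obtain ⟨_, f, f0, f1, f2, f3⟩ := hF.boundary_data hC hp hq he.1 hcnt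
        exact not_inner_of_support f0 f1 (by rw [map_add, f2, f3, add_zero]) hin
    have hpos : 0 < (Ao W χ (χ p)).card := Finset.card_pos.mpr ⟨p, hpA⟩
    have hle := h.sum_le ((Ao W χ (χ p)).card - 1) (Ao W χ (χ p)) (by omega) (AoW _)
      (Aomono _)
    have := hsm (χ p)
    omega
  · -- the ranking
    set I := W.filter (Inner W) with hI
    set A := W.filter (fun w => ¬ Inner W w) with hA
    have hIA : ∀ x ∈ W, x ∈ I ∪ A := by
      intro x hx
      by_cases hi : Inner W x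
      · exact Finset.mem_union_left _ (Finset.mem_filter.mpr ⟨hx, hi⟩)
      · exact Finset.mem_union_right _ (Finset.mem_filter.mpr ⟨hx, hi⟩)
    obtain ⟨ρ, hρ⟩ := rank_of_leaf (fun p x => IsEdge0 W p x ∧ χ x = χ p) A I.card I rfl (by
      intro M hM hMne
      obtain ⟨x0, hx0⟩ := hMne
      obtain ⟨p, hp, hpl⟩ := hleaf (χ x0) (M.filter (fun x => χ x = χ x0))
        ((Finset.filter_subset _ _).trans (hM.trans (Finset.filter_subset _ _)))
        (by
          intro x hx
          obtain ⟨h1, h2⟩ := Finset.mem_filter.mp hx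
          exact ⟨(Finset.mem_filter.mp (hM h1)).2, h2⟩)
        ⟨x0, Finset.mem_filter.mpr ⟨hx0, rfl⟩⟩
      obtain ⟨p1, p2⟩ := Finset.mem_filter.mp hp
      refine ⟨p, p1, ?_⟩
      have mem : ∀ x ∈ M ∪ A, χ x = χ p →
          x ∈ M.filter (fun x => χ x = χ x0) ∪ Ao W χ (χ x0) := by
        intro x hx hc
        rcases Finset.mem_union.mp hx with h1 | h1
        · exact Finset.mem_union_left _ (Finset.mem_filter.mpr ⟨h1, hc.trans p2⟩)
        · obtain ⟨h2, h3⟩ := Finset.mem_filter.mp h1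
          exact Finset.mem_union_right _ (mem_Ao.mpr ⟨h2, h3, hc.trans p2⟩)
      rintro x hx y hy ⟨ex, cx⟩ ⟨ey, cy⟩
      exact hpl x (mem x hx cx) y (mem y hy cy) ex ey)
    refine ⟨ρ, ?_⟩
    intro p hp ip x hx y hy ex ey cx cy rx ry
    exact hρ p (Finset.mem_filter.mpr ⟨hp, ip⟩) x (hIA x hx) y (hIA y hy) ⟨ex, cx⟩ ⟨ey, cy⟩
      (fun hh => rx (Finset.mem_filter.mp hh).2) (fun hh => ry (Finset.mem_filter.mp hh).2)
  · -- colour changes
    intro B' hF'
    refine le_trans (Finset.card_le_card ?_) hb1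
    intro e he
    obtain ⟨h1, h2, h3, h4⟩ := Finset.mem_filter.mp he
    rw [Finset.mem_product] at h1
    refine Finset.mem_filter.mpr ⟨Finset.mem_product.mpr h1, h2, ?_, ?_⟩
    · rw [h3]; simp
    · refine same_bd hC hF hF' h1.1 h1.2 ?_ h4
      intro hh
      rw [hh, h3] at h2
      simp at h2

/-- Two colour classes inducing forests with at least `|W| - 2` edges in all give a suitable
colouring. -/
theorem ForCol.col (h : ForCol W χ) (hC : Cfg W) (htwo : ∃ x ∈ W, ∃ y ∈ W, χ x ≠ χ y)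
    (hcard : 2 * W.card ≤
      ∑ p ∈ W, (W.filter (fun q => χ q = χ p ∧ IsEdge0 W p q)).card + 4) : Col W χ := by
  obtain ⟨B, hF, hm⟩ := h.exists_fan hC htwo
  exact h.col' hC htwo hF (bc_le hC hF hm hcard)

end

/-- Apex version. -/
theorem forCol_hasHamTet {S : Finset E3} {z : E3} (hS : ConvPos S)
    (hspan : affineSpan ℝ (S : Set E3) = ⊤) (hz : z ∈ S) {χ : E3 → Bool}
    (h : ForCol (rel S z) χ) (htwo : ∃ x ∈ rel S z, ∃ y ∈ rel S z, χ x ≠ χ y)
    (hcard : 2 * (rel S z).card ≤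
      ∑ p ∈ rel S z, ((rel S z).filter (fun q => χ q = χ p ∧ IsEdge0 (rel S z) p q)).card + 4) :
    HasHamTet S := by
  have hC : Cfg (rel S z) := cfg_rel hS hspan hz
  exact hasHamTet_of_rel hz (hasHamTet_of_col hC (h.col hC htwo hcard))

end Run7.h169
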