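import Pool.Agent.Run7.h169.Ht3

set_option autoImplicit false
open scoped Classical Topology
open Filter

namespace Run7.h169

/-- A finite nonempty acyclic graph has a vertex with at most one neighbour. -/
theorem acyclic_leaf_fin {V : Type*} [Finite V] [Nonempty V] {G : SimpleGraph V}
    (h : G.IsAcyclic) : ∃ u, ∀ y t, G.Adj u y → G.Adj u t → y = t := by
  have ⟨u, v, p, hp, hmax⟩ := SimpleGraph.Walk.exists_isPath_forall_isPath_length_le_length G
  refine ⟨u, ?_⟩
  have key : ∀ w, G.Adj u w → w = p.snd := by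
    intro w hadj
    apply h.eq_snd_of_adj_start hp hadj
    by_contra hns
    have := hmax _ _ (p.cons hadj.symm) (hp.cons hns)
    rw [SimpleGraph.Walk.length_cons] at this
    omega
  intro y t hy ht
  rw [key y hy, key t ht]

theorem acyclic_leaf {V : Type*} {G : SimpleGraph V} {A : Set V}
    (h : (G.induce A).IsAcyclic) {M : Finset V} (hM : (M : Set V) ⊆ A) (hne : M.Nonempty) :
    ∃ x ∈ M, ∀ y ∈ M, ∀ t ∈ M, G.Adj x y → G.Adj x t → y = t := by
  have h1 : (G.induce (M : Set V)).IsAcyclic := h.embedding (SimpleGraph.induceHomOfLE G hM)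
  have : Nonempty (M : Set V) := hne.to_subtype
  obtain ⟨u, hu⟩ := acyclic_leaf_fin h1
  refine ⟨u.1, u.2, ?_⟩
  intro y hy t ht ey et
  have := hu ⟨y, hy⟩ ⟨t, ht⟩ ey et
  exact congrArg Subtype.val this

section

variable {S : Finset E3} {z : E3}

/-- The colouring given by a partition of the other vertices. -/
theorem partition_forCol {A B : Finset E3} (hU : A ∪ B = S.erase z)
    (lA : ∀ M ⊆ A, M.Nonempty → ∃ x ∈ M, ∀ y ∈ M, ∀ t ∈ M,
      IsEdgeS S x y → IsEdgeS S x t → y = t)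
    (lB : ∀ M ⊆ B, M.Nonempty → ∃ x ∈ M, ∀ y ∈ M, ∀ t ∈ M,
      IsEdgeS S x y → IsEdgeS S x t → y = t) :
    ForCol (rel S z) (fun x => decide (x + z ∈ A)) := by
  intro M hMW hne hmono
  have key : ∀ C : Finset E3, (∀ M ⊆ C, M.Nonempty → ∃ x ∈ M, ∀ y ∈ M, ∀ t ∈ M,
      IsEdgeS S x y → IsEdgeS S x t → y = t) → (∀ x ∈ M, x + z ∈ C) →
      ∃ x ∈ M, ∀ y ∈ M, ∀ t ∈ M, IsEdge0 (rel S z) x y → IsEdge0 (rel S z) x t → y = t := by
    intro C lC hMC
    obtain ⟨x', hx', hl⟩ := lC (M.image (fun x => x + z)) (by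
      intro w hw
      obtain ⟨x, hx, rfl⟩ := Finset.mem_image.mp hw
      exact hMC x hx) (hne.image _)
    obtain ⟨x, hx, rfl⟩ := Finset.mem_image.mp hx'
    refine ⟨x, hx, ?_⟩
    intro y hy t ht ey et
    exact add_right_cancel (hl (y + z) (Finset.mem_image_of_mem _ hy) (t + z)
      (Finset.mem_image_of_mem _ ht) (Frm.edge_rel ey) (Frm.edge_rel et))
  obtain ⟨x0, hx0⟩ := hne
  by_cases hc : x0 + z ∈ A
  · apply key A lA
    intro x hx
    have := hmono x hx x0 hx0
    simpa [hc] using this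
  · apply key B lB
    intro x hx
    have h1 := hmono x hx x0 hx0
    have h2 : x + z ∉ A := by simpa [hc] using h1
    obtain ⟨h3, h4⟩ := mem_rel.mp (hMW hx)
    have h5 : x + z ∈ A ∪ B := by
      rw [hU]
      refine Finset.mem_erase.mpr ⟨?_, h3⟩
      intro hh
      exact h4 (by simpa using hh)
    rcases Finset.mem_union.mp h5 with h | h
    · exact absurd h h2
    · exact h

theorem partition_two {A B : Finset E3} (hU : A ∪ B = S.erase z) (hdisj : Disjoint A B)
    (hA : A.Nonempty) (hB : B.Nonempty) :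
    ∃ x ∈ rel S z, ∃ y ∈ rel S z, decide (x + z ∈ A) ≠ decide (y + z ∈ A) := by
  obtain ⟨a, ha⟩ := hA
  obtain ⟨b, hb⟩ := hB
  have mem : ∀ w ∈ A ∪ B, w - z ∈ rel S z := by
    intro w hw
    rw [hU] at hw
    obtain ⟨h1, h2⟩ := Finset.mem_erase.mp hw
    exact sub_mem_rel h2 h1
  have hbA : b ∉ A := fun hh => Finset.disjoint_left.mp hdisj hh hb
  refine ⟨a - z, mem a (Finset.mem_union_left _ ha), b - z,
    mem b (Finset.mem_union_right _ hb), ?_⟩
  rw [sub_add_cancel, sub_add_cancel]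
  simp [ha, hbA]

/-- The criterion: a partition of the vertices other than an apex into two sets inducing forests
with at most two joining edges on facets containing the apex. -/
theorem forest_partition_hasHamTet (hS : ConvPos S) (hspan : affineSpan ℝ (S : Set E3) = ⊤)
    (hz : z ∈ S) {A B : Finset E3} (hA : A.Nonempty) (hB : B.Nonempty) (hdisj : Disjoint A B)
    (hU : A ∪ B = S.erase z)
    (lA : ∀ M ⊆ A, M.Nonempty → ∃ x ∈ M, ∀ y ∈ M, ∀ t ∈ M,
      IsEdgeS S x y → IsEdgeS S x t → y = t)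
    (lB : ∀ M ⊆ B, M.Nonempty → ∃ x ∈ M, ∀ y ∈ M, ∀ t ∈ M,
      IsEdgeS S x y → IsEdgeS S x t → y = t)
    (hb : ((A ×ˢ B).filter (fun e => IsEdgeS S e.1 e.2 ∧ ∃ f : E3 →ₗ[ℝ] ℝ, f ≠ 0 ∧
      f e.1 = f z ∧ f e.2 = f z ∧ ∀ x ∈ S, f x ≤ f z)).card ≤ 2) : HasHamTet S := by
  have hC : Cfg (rel S z) := cfg_rel hS hspan hz
  obtain ⟨B0, hF⟩ := fan_exists hC
  refine hasHamTet_of_rel hz (hasHamTet_of_col hC
    ((partition_forCol hU lA lB).col' hC (partition_two hU hdisj hA hB) hF ?_))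
  refine le_trans ?_ hb
  unfold bc
  apply Finset.card_le_card_of_injOn (fun e : E3 × E3 => (e.1 + z, e.2 + z))
  · rintro ⟨x, y⟩ he
    rw [Finset.mem_coe, Finset.mem_filter, Finset.mem_product] at he
    obtain ⟨⟨hx, hy⟩, h1, h2, h3⟩ := he
    have hx' : x ∈ rel S z := hx
    have hy' : y ∈ rel S z := hy
    have h1' : x + z ∈ A := by simpa using h1
    have h2' : y + z ∉ A := by simpa using h2
    have h3' : cnt B0 x y = 1 := h3
    have hxy : x ≠ y := by rintro rfl; exact h2' h1'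
    obtain ⟨s1, s2⟩ := mem_rel.mp hy'
    have h4 : y + z ∈ B := by
      have h5 : y + z ∈ A ∪ B := by
        rw [hU]
        exact Finset.mem_erase.mpr ⟨fun hh => s2 (by simpa using hh), s1⟩
      rcases Finset.mem_union.mp h5 with h | h
      · exact absurd h h2'
      · exact h
    obtain ⟨_, f, f0, f1, f2, f3⟩ := hF.boundary_data hC hx' hy' hxy h3'
    have he := hF.boundary_edge hC hx' hy' hxy h3'
    rw [Finset.mem_coe, Finset.mem_filter, Finset.mem_product]
    refine ⟨⟨h1', h4⟩, Frm.edge_rel he, -f, neg_ne_zero.mpr f0, ?_, ?_, ?_⟩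
    · show -(f (x + z)) = -(f z)
      rw [map_add, f2, zero_add]
    · show -(f (y + z)) = -(f z)
      rw [map_add, f3, zero_add]
    · intro w hw
      show -(f w) ≤ -(f z)
      by_cases hwz : w = z
      · rw [hwz]
      · have := f1 (w - z) (sub_mem_rel hw hwz)
        rw [map_sub] at this
        linarith
  · rintro ⟨x, y⟩ _ ⟨x', y'⟩ _ h
    simp only [Prod.mk.injEq, add_left_inj] at h ⊢
    exact h

/-- The case of two trees: here the condition at the apex holds automatically. -/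
theorem tree_partition_hasHamTet (hS : ConvPos S) (hspan : affineSpan ℝ (S : Set E3) = ⊤)
    (hz : z ∈ S) {A B : Finset E3} (hA : A.Nonempty) (hB : B.Nonempty) (hdisj : Disjoint A B)
    (hU : A ∪ B = S.erase z)
    (lA : ∀ M ⊆ A, M.Nonempty → ∃ x ∈ M, ∀ y ∈ M, ∀ t ∈ M,
      IsEdgeS S x y → IsEdgeS S x t → y = t)
    (lB : ∀ M ⊆ B, M.Nonempty → ∃ x ∈ M, ∀ y ∈ M, ∀ t ∈ M,
      IsEdgeS S x y → IsEdgeS S x t → y = t)
    (cA : 2 * A.card ≤ ∑ p ∈ A, (A.filter (fun q => IsEdgeS S p q)).card + 2)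
    (cB : 2 * B.card ≤ ∑ p ∈ B, (B.filter (fun q => IsEdgeS S p q)).card + 2) :
    HasHamTet S := by
  refine forCol_hasHamTet hS hspan hz (partition_forCol hU lA lB) (partition_two hU hdisj hA hB)
    ?_
  have hBA : ∀ b ∈ B, b ∉ A := fun b hb hh => Finset.disjoint_left.mp hdisj hh hb
  have hsum : ∑ p ∈ rel S z, ((rel S z).filter (fun q => decide (q + z ∈ A) =
      decide (p + z ∈ A) ∧ IsEdge0 (rel S z) p q)).card =
      ∑ p ∈ S.erase z, ((S.erase z).filter (fun q => (q ∈ A ↔ p ∈ A) ∧ IsEdgeS S p q)).card := by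
    have himg : S.erase z = (rel S z).image (fun x => x + z) := by
      ext w
      rw [Finset.mem_image]
      constructor
      · intro hw
        obtain ⟨h1, h2⟩ := Finset.mem_erase.mp hw
        exact ⟨w - z, sub_mem_rel h2 h1, by abel⟩
      · rintro ⟨x, hx, rfl⟩
        obtain ⟨h1, h2⟩ := mem_rel.mp hx
        exact Finset.mem_erase.mpr ⟨fun hh => h2 (by simpa using hh), h1⟩
    rw [himg, Finset.sum_image (fun a _ b _ hab => add_right_cancel hab)]
    apply Finset.sum_congr rfl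
    intro p hp
    rw [Finset.filter_image, Finset.card_image_of_injective _ (add_left_injective z)]
    congr 1
    apply Finset.filter_congr
    intro q hq
    obtain ⟨p1, p2⟩ := mem_rel.mp hp
    obtain ⟨q1, q2⟩ := mem_rel.mp hq
    rw [decide_eq_decide]
    constructor
    · rintro ⟨h1, h2⟩
      exact ⟨h1, Frm.edge_rel h2⟩
    · rintro ⟨h1, h2⟩
      refine ⟨h1, ?_⟩
      have := h2.rel hz (fun hh => p2 (add_eq_right.mp hh.symm))
        (fun hh => q2 (add_eq_right.mp hh.symm))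
      simpa using this
  rw [hsum, ← hU, Finset.sum_union hdisj]
  have hcW : (rel S z).card = A.card + B.card := by
    rw [← Finset.card_union_of_disjoint hdisj, hU]
    unfold rel
    exact Finset.card_image_of_injective _ sub_left_injective
  have h1 : ∑ p ∈ A, (A.filter (fun q => IsEdgeS S p q)).card ≤
      ∑ p ∈ A, ((A ∪ B).filter (fun q => (q ∈ A ↔ p ∈ A) ∧ IsEdgeS S p q)).card := by
    apply Finset.sum_le_sum
    intro p hp
    apply Finset.card_le_card
    intro q hq
    obtain ⟨q1, q2⟩ := Finset.mem_filter.mp hq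
    exact Finset.mem_filter.mpr ⟨Finset.mem_union_left _ q1, ⟨fun _ => hp, fun _ => q1⟩, q2⟩
  have h2 : ∑ p ∈ B, (B.filter (fun q => IsEdgeS S p q)).card ≤
      ∑ p ∈ B, ((A ∪ B).filter (fun q => (q ∈ A ↔ p ∈ A) ∧ IsEdgeS S p q)).card := by
    apply Finset.sum_le_sum
    intro p hp
    apply Finset.card_le_card
    intro q hq
    obtain ⟨q1, q2⟩ := Finset.mem_filter.mp hq
    exact Finset.mem_filter.mpr ⟨Finset.mem_union_right _ q1,
      ⟨fun hh => absurd hh (hBA q q1), fun hh => absurd hh (hBA p hp)⟩, q2⟩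
  omega

end

end Run7.h169
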