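import Pool.Agent.Run7.h169.Ht4

set_option autoImplicit false
open scoped Classical Topology

namespace Run7.h169

/-- In a finite set inducing a tree the degrees add up to twice the number of vertices minus
two. -/
theorem tree_count {V : Type*} {G : SimpleGraph V} {A : Finset V}
    (h : (G.induce (A : Set V)).IsTree) :
    2 * A.card ≤ ∑ p ∈ A, (A.filter (fun q => G.Adj p q)).card + 2 := by
  have h1 : (G.induce (A : Set V)).edgeFinset.card + 1 = Fintype.card (A : Set V) :=
    h.card_edgeFinset
  have h2 := (G.induce (A : Set V)).sum_degrees_eq_twice_card_edges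
  have h3 : Fintype.card (A : Set V) = A.card := by simp
  have h4 : ∑ p ∈ A, (A.filter (fun q => G.Adj p q)).card =
      ∑ v : (A : Set V), (G.induce (A : Set V)).degree v := by
    rw [← Finset.sum_coe_sort]
    apply Finset.sum_congr rfl
    intro v _
    rw [← SimpleGraph.card_neighborFinset_eq_degree]
    symm
    apply Finset.card_bij (fun q _ => q.1)
    · intro q hq
      rw [SimpleGraph.mem_neighborFinset] at hq
      exact Finset.mem_filter.mpr ⟨q.2, hq⟩
    · intro q _ q' _ hqq
      exact Subtype.ext hqq
    · intro q hq
      obtain ⟨q1, q2⟩ := Finset.mem_filter.mp hq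
      refine ⟨⟨q, q1⟩, ?_, rfl⟩
      rw [SimpleGraph.mem_neighborFinset]
      exact q2
  omega

end Run7.h169
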