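import Pool.Agent.Run7.h169.Ht5

set_option autoImplicit false
open scoped Classical Topology
open Filter

namespace Run7.h169

/-- A vertex `x` of the large configuration `W` all of whose neighbours `m + x`, `m ∈ M`, belong
to the small configuration `W'`. -/
structure Apx (W W' : Finset E3) (x : E3) (M : Finset E3) : Prop where
  xW : x ∈ W
  xW' : x ∉ W'
  gen : ∀ w ∈ W, w ≠ x → w - x ∈ cone M
  gen0 : -x ∈ cone M
  big : ∀ w ∈ W, w ≠ x → w - x ∉ M → ∀ c : E3 → ℝ, (∀ m ∈ M, 0 ≤ c m) →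
    ∑ m ∈ M, c m • m = w - x → 1 < ∑ m ∈ M, c m
  big0 : ∀ c : E3 → ℝ, (∀ m ∈ M, 0 ≤ c m) → ∑ m ∈ M, c m • m = -x → 1 < ∑ m ∈ M, c m
  low : ∀ m ∈ M, m + x ∈ W'
  edge : ∀ m ∈ M, ∃ f : E3 →ₗ[ℝ] ℝ, f m = 0 ∧ 0 < f x ∧ ∀ w ∈ W, w ≠ x → w ≠ m + x → f w < f x

theorem Cfg.sum_gt {W : Finset E3} (hC : Cfg W) {w : E3} (hw : w ∈ W) {M : Finset E3}
    (hM : M ⊆ W) (hwM : w ∉ M) {c : E3 → ℝ} (hc : ∀ m ∈ M, 0 ≤ c m)
    (hs : ∑ m ∈ M, c m • m = w) : 1 < ∑ m ∈ M, c m := by
  have hsub : M ⊆ W.erase w := fun m hm =>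
    Finset.mem_erase.mpr ⟨fun hh => hwM (hh ▸ hm), hM hm⟩
  have h1 : ∑ y ∈ W.erase w, (if y ∈ M then c y else 0) = ∑ m ∈ M, c m := by
    rw [← Finset.sum_filter]
    apply Finset.sum_congr _ (fun _ _ => rfl)
    ext y
    rw [Finset.mem_filter]
    exact ⟨fun h => h.2, fun h => ⟨hsub h, h⟩⟩
  have h2 : ∑ y ∈ W.erase w, (if y ∈ M then c y else 0) • y = ∑ m ∈ M, c m • m := by
    rw [← Finset.sum_subset hsub]
    · apply Finset.sum_congr rfl
      intro y hy
      rw [if_pos hy]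
    · intro y _ hy
      rw [if_neg hy, zero_smul]
  rw [← h1]
  refine hC.cvx w hw _ ?_ (h2.trans hs)
  intro y _
  split_ifs with hy
  · exact hc y hy
  · exact le_rfl

theorem apx_of {S S' : Finset E3} {z x : E3} (hS : ConvPos S)
    (hspan : affineSpan ℝ (S : Set E3) = ⊤) (hz : z ∈ S) (hx : x ∈ S) (hxz : x ≠ z)
    (hxS' : x ∉ S') (hlow : ∀ y, IsEdgeS S x y → y ∈ S → y ∈ S' ∧ y ≠ z) :
    ∃ M, Apx (rel S z) (rel S' z) (x - z) M ∧ ∀ m ∈ M, IsEdgeS S x (m + x) := by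
  obtain ⟨M, m1, m2, m3⟩ := exists_gens hS hspan hx
  have hCx : Cfg (rel S x) := cfg_rel hS hspan hx
  have key : ∀ w ∈ rel S z, w ≠ x - z → w - (x - z) ∈ rel S x := by
    intro w hw hne
    obtain ⟨w1, w2⟩ := mem_rel.mp hw
    have : w - (x - z) = (w + z) - x := by abel
    rw [this]
    exact sub_mem_rel w1 (fun hh => hne (by rw [← hh]; abel))
  have key0 : -(x - z) ∈ rel S x := by
    have : -(x - z) = z - x := by abel
    rw [this]
    exact sub_mem_rel hz (Ne.symm hxz)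
  have hmS : ∀ m ∈ M, m + x ∈ S := fun m hm => (mem_rel.mp (m1 hm)).1
  refine ⟨M, ⟨sub_mem_rel hx hxz, ?_, ?_, ?_, ?_, ?_, ?_, ?_⟩, m3⟩
  · intro hh
    have := (mem_rel.mp hh).1
    rw [sub_add_cancel] at this
    exact hxS' this
  · intro w hw hne
    exact m2 _ (key w hw hne)
  · exact m2 _ key0
  · intro w hw hne hwM c hc hs
    exact hCx.sum_gt (key w hw hne) m1 hwM hc hs
  · intro c hc hs
    refine hCx.sum_gt key0 m1 ?_ hc hs
    intro hh
    have h1 := (hlow _ (m3 _ hh) (hmS _ hh)).2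
    apply h1
    abel
  · intro m hm
    obtain ⟨h1, h2⟩ := hlow _ (m3 m hm) (hmS m hm)
    have : m + (x - z) = (m + x) - z := by abel
    rw [this]
    exact sub_mem_rel h1 h2
  · intro m hm
    obtain ⟨e0, f, f1, f2⟩ := m3 m hm
    have hmz := (hlow _ (m3 m hm) (hmS m hm)).2
    rw [map_add] at f1
    refine ⟨f, by linarith, ?_, ?_⟩
    · have := f2 z hz (Ne.symm hxz) (Ne.symm hmz)
      rw [map_sub]
      linarith
    · intro w hw h1 h2
      have := f2 (w + z) (mem_rel.mp hw).1 (fun hh => h1 (by rw [← hh]; abel))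
        (fun hh => h2 (by
          have h3 : w = (w + z) - z := by abel
          rw [h3, hh]
          abel))
      rw [map_add] at this
      rw [map_sub]
      linarith

section

variable {W W' : Finset E3} {x : E3} {M : Finset E3} {B : Finset (Finset E3)}

/-- The values of a supporting functional at the neighbours. -/
theorem Apx.nb_le (h : Apx W W' x M) {π : E3 →ₗ[ℝ] ℝ} (hπ : ∀ w ∈ W', π w ≤ 1) {m : E3}
    (hm : m ∈ M) : π m ≤ 1 - π x := by
  have := hπ _ (h.low m hm)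
  rw [map_add] at this
  linarith

/-- Combinations of total weight larger than one fall below a visible plane. -/
theorem Apx.sum_lt (h : Apx W W' x M) {π : E3 →ₗ[ℝ] ℝ} (hπ : ∀ w ∈ W', π w ≤ 1)
    (hx : 1 < π x) {c : E3 → ℝ} (hc : ∀ m ∈ M, 0 ≤ c m) {y : E3}
    (hs : ∑ m ∈ M, c m • m = y - x) (h1 : 1 < ∑ m ∈ M, c m) : π y < 1 := by
  have e : π y = π x + ∑ m ∈ M, c m * π m := by
    have : y = x + ∑ m ∈ M, c m • m := by rw [hs]; abel
    conv_lhs => rw [this]
    rw [map_add, map_sum]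
    simp only [map_smul, smul_eq_mul]
  have h2 : ∑ m ∈ M, c m * π m ≤ ∑ m ∈ M, c m * (1 - π x) := by
    apply Finset.sum_le_sum
    intro m hm
    exact mul_le_mul_of_nonneg_left (h.nb_le hπ hm) (hc m hm)
  rw [← Finset.sum_mul] at h2
  nlinarith

theorem Apx.vis (h : Apx W W' x M) {π : E3 →ₗ[ℝ] ℝ} (hπ : ∀ w ∈ W', π w ≤ 1)
    (hx : 1 < π x) {w : E3} (hw : w ∈ W) (hne : w ≠ x) (hwM : w - x ∉ M) : π w < 1 := by
  obtain ⟨c, hc, hs⟩ := h.gen w hw hne
  exact h.sum_lt hπ hx hc hs (h.big w hw hne hwM c hc hs)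

theorem cone_lin {σ τ : Finset E3} {g : E3 → E3} {c : E3 → ℝ} (hc : ∀ m ∈ σ, 0 ≤ c m)
    (hg : ∀ m ∈ σ, g m ∈ cone τ) : ∑ m ∈ σ, c m • g m ∈ cone τ := by
  induction σ using Finset.induction_on with
  | empty => simpa using zero_mem_cone
  | insert a s ha ih =>
    rw [Finset.sum_insert ha]
    apply cone_add
    · exact cone_smul (hc a (Finset.mem_insert_self _ _)) (hg a (Finset.mem_insert_self _ _))
    · exact ih (fun m hm => hc m (Finset.mem_insert_of_mem hm))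
        (fun m hm => hg m (Finset.mem_insert_of_mem hm))

theorem Apx.mem_cone (h : Apx W W' x M) : x ∈ cone W' := by
  obtain ⟨c, hc, hs⟩ := h.gen0
  have h1 := h.big0 c hc hs
  set L := ∑ m ∈ M, c m with hL
  have h2 : (∑ m ∈ M, c m • (m + x)) = (L - 1) • x := by
    simp only [smul_add]
    rw [Finset.sum_add_distrib, hs, ← Finset.sum_smul, ← hL, sub_smul, one_smul]
    abel
  have h3 : (L - 1) • x ∈ cone W' := by
    rw [← h2]
    exact cone_lin hc (fun m hm => mem_cone_self (h.low m hm))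
  have h4 := cone_smul (a := 1 / (L - 1)) (by
    apply div_nonneg zero_le_one; linarith) h3
  rwa [smul_smul, one_div_mul_cancel (by linarith), one_smul] at h4

theorem Apx.beyond (h : Apx W W' x M) (hC : Cfg W) (hsub : W' ⊆ W) (hF : Fan W' B)
    {σ : Finset E3} (hσ : σ ∈ B) (hx : x ∈ cone σ) : 1 < gfun σ (fun _ => 1) x := by
  have hN := hF.nice σ hσ
  have hcr := (mem_cone_iff_crd hN).mp hx
  have := hC.sum_gt h.xW ((hF.sub σ hσ).trans hsub) (fun hh => h.xW' (hF.sub σ hσ hh)) hcr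
    (crd_sum hN x)
  rw [gfun_apply]
  simpa using this

/-- Every neighbour lies on a visible triangle. -/
theorem Apx.exists_vis (h : Apx W W' x M) (hsub : W' ⊆ W) (hC' : Cfg W') (hF : Fan W' B)
    {m : E3} (hm : m ∈ M) : ∃ τ ∈ B, m + x ∈ τ ∧ 1 < gfun τ (fun _ => 1) x := by
  have hn := h.low m hm
  have hpos : ∀ᶠ δ in 𝓝[>] (0 : ℝ), 0 < δ := self_mem_nhdsWithin
  have hlt : ∀ᶠ δ in 𝓝[>] (0 : ℝ), δ < 1 :=
    (eventually_lt_nhds zero_lt_one).filter_mono nhdsWithin_le_nhds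
  have hev : ∀ᶠ δ in 𝓝[>] (0 : ℝ), ∃ τ ∈ B, (m + x) + δ • (-m) ∈ cone τ := by
    filter_upwards [hpos, hlt] with δ h1 h2
    apply hF.cover
    have : (m + x) + δ • (-m) = (1 - δ) • (m + x) + δ • x := by module
    rw [this]
    exact cone_add (cone_smul (by linarith) (mem_cone_self hn)) (cone_smul h1.le h.mem_cone)
  obtain ⟨τ, hτ, hnτ, hfr⟩ := cone_limit hF.nice hev.frequently
  have hmem := hF.vertex_mem hC' hτ hn hnτ
  refine ⟨τ, hτ, hmem, ?_⟩
  by_contra hle
  push Not at hle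
  obtain ⟨δ, ⟨hy, h1⟩, h2⟩ := ((hfr.and_eventually hpos).and_eventually hlt).exists
  obtain ⟨f, f1, f2, f3⟩ := h.edge m hm
  have hN := hF.nice τ hτ
  set y := (m + x) + δ • (-m) with hy'
  have hcr := (mem_cone_iff_crd hN).mp hy
  have hs := crd_sum hN y
  have hπ : ∑ t ∈ τ, crd τ t y ≤ 1 := by
    have e1 : gfun τ (fun _ => 1) y = ∑ t ∈ τ, crd τ t y := by
      rw [gfun_apply]; simp
    rw [← e1, hy', map_add, map_smul, map_neg, smul_eq_mul]
    have e2 : gfun τ (fun _ => 1) (m + x) = 1 := gfun_mem hN _ hmem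
    rw [map_add] at e2 ⊢
    nlinarith
  have hfy : f y = f x := by
    rw [hy', map_add, map_add, map_smul, map_neg, f1]
    simp
  have hτW : ∀ t ∈ τ, t ∈ W' := fun t ht => hF.sub τ hτ ht
  have fle : ∀ t ∈ τ, f t ≤ f x := by
    intro t ht
    by_cases hte : t = m + x
    · rw [hte, map_add, f1, zero_add]
    · exact (f3 t (hsub (hτW t ht)) (fun hh => h.xW' (hh ▸ hτW t ht)) hte).le
  have hsum : f x = ∑ t ∈ τ, crd τ t y * f t := by
    rw [← hfy]
    conv_lhs => rw [← hs]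
    rw [map_sum]
    simp only [map_smul, smul_eq_mul]
  have hzero : ∑ t ∈ τ, crd τ t y * (f x - f t) = 0 ∧ ∑ t ∈ τ, crd τ t y = 1 := by
    have e1 : ∑ t ∈ τ, crd τ t y * (f x - f t) = (∑ t ∈ τ, crd τ t y) * f x - f x := by
      have e3 : ∑ t ∈ τ, crd τ t y * (f x - f t) =
          (∑ t ∈ τ, crd τ t y) * f x - ∑ t ∈ τ, crd τ t y * f t := by
        rw [Finset.sum_mul, ← Finset.sum_sub_distrib]
        apply Finset.sum_congr rfl
        intro t _
        ring
      rw [e3, ← hsum]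
    have e2 : 0 ≤ ∑ t ∈ τ, crd τ t y * (f x - f t) :=
      Finset.sum_nonneg (fun t ht => mul_nonneg (hcr t ht) (by linarith [fle t ht]))
    constructor
    · nlinarith
    · nlinarith
  have hz : ∀ t ∈ τ, t ≠ m + x → crd τ t y = 0 := by
    intro t ht hte
    have h3 := (Finset.sum_eq_zero_iff_of_nonneg (fun t ht =>
      mul_nonneg (hcr t ht) (by linarith [fle t ht]))).mp hzero.1 t ht
    rcases mul_eq_zero.mp h3 with h4 | h4
    · exact h4
    · exfalso
      have := f3 t (hsub (hτW t ht)) (fun hh => h.xW' (hh ▸ hτW t ht)) hte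
      linarith
  have h5 : crd τ (m + x) y = 1 := by
    rw [← hzero.2]
    symm
    exact Finset.sum_eq_single _ (fun t ht hne => hz t ht hne) (fun hh => absurd hmem hh)
  have h6 : y = m + x := by
    rw [← hs, Finset.sum_eq_single (m + x) (fun t ht hne => by rw [hz t ht hne, zero_smul])
      (fun hh => absurd hmem hh), h5, one_smul]
  rw [hy'] at h6
  have h7 : δ • (-m) = 0 := by simpa using h6
  rcases smul_eq_zero.mp h7 with h8 | h8
  · linarith
  · have hm0 : m = 0 := neg_eq_zero.mp h8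
    rw [hm0, zero_add] at hn
    exact h.xW' hn

end

end Run7.h169
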