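import Pool.Agent.Run7.h169.Iv9

set_option autoImplicit false
open scoped Classical Topology
open Filter

namespace Run7.h169

section

variable {S : Finset E3} {z : E3}

/-- The criterion with inserted vertices of degree four. -/
theorem free_partition_hasHamTet (hS : ConvPos S) (hspan : affineSpan ℝ (S : Set E3) = ⊤)
    (hz : z ∈ S) {A B I : Finset E3} (hI : I ⊆ S) (hzI : z ∉ I) (hA : A.Nonempty)
    (hB : B.Nonempty) (hdisj : Disjoint A B) (hU : A ∪ B = (S \ I).erase z)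
    (lA : ∀ M ⊆ A, M.Nonempty → ∃ x ∈ M, ∀ y ∈ M, ∀ t ∈ M,
      IsEdgeS (S \ I) x y → IsEdgeS (S \ I) x t → y = t)
    (lB : ∀ M ⊆ B, M.Nonempty → ∃ x ∈ M, ∀ y ∈ M, ∀ t ∈ M,
      IsEdgeS (S \ I) x y → IsEdgeS (S \ I) x t → y = t)
    (hb : ((A ×ˢ B).filter (fun e => IsEdgeS (S \ I) e.1 e.2 ∧ ∃ f : E3 →ₗ[ℝ] ℝ, f ≠ 0 ∧
      f e.1 = f z ∧ f e.2 = f z ∧ ∀ x ∈ S \ I, f x ≤ f z)).card ≤ 2)
    (hd : ∀ x ∈ I, (S.filter (fun y => IsEdgeS S x y)).card = 4 ∧
      (∀ y ∈ I, ¬ IsEdgeS S x y) ∧ ¬ IsEdgeS S x z) :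
    HasHamTet S := by
  have hC : Cfg (rel S z) := cfg_rel hS hspan hz
  have hsub : rel (S \ I) z ⊆ rel S z := by
    intro w hw
    obtain ⟨h1, h2⟩ := mem_rel.mp hw
    exact mem_rel.mpr ⟨(Finset.mem_sdiff.mp h1).1, h2⟩
  have hAB : ∀ w, w ∈ A ∪ B → w ∈ S \ I ∧ w ≠ z := by
    intro w hw
    rw [hU] at hw
    obtain ⟨h1, h2⟩ := Finset.mem_erase.mp hw
    exact ⟨h2, h1⟩
  have hapx : ∀ x ∈ I, ∃ M, Apx (rel S z) (rel (S \ I) z) (x - z) M ∧
      ∀ m ∈ M, IsEdgeS S x (m + x) := by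
    intro x hx
    obtain ⟨_, h2, h3⟩ := hd x hx
    refine apx_of hS hspan hz (hI hx) (fun hh => hzI (hh ▸ hx))
      (fun hh => (Finset.mem_sdiff.mp hh).2 hx) ?_
    intro y hy hyS
    exact ⟨Finset.mem_sdiff.mpr ⟨hyS, fun hh => h2 y hh hy⟩, fun hh => h3 (hh ▸ hy)⟩
  have hWJ : rel S z = rel (S \ I) z ∪ I.image (fun x => x - z) := by
    ext w
    rw [Finset.mem_union, Finset.mem_image]
    constructor
    · intro hw
      obtain ⟨h1, h2⟩ := mem_rel.mp hw
      by_cases hwI : w + z ∈ I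
      · right; exact ⟨w + z, hwI, by abel⟩
      · left; exact mem_rel.mpr ⟨Finset.mem_sdiff.mpr ⟨h1, hwI⟩, h2⟩
    · rintro (hw | ⟨x, hx, rfl⟩)
      · exact hsub hw
      · exact sub_mem_rel (hI hx) (fun hh => hzI (hh ▸ hx))
  have hC' : Cfg (rel (S \ I) z) := by
    refine hC.mono hsub (full_of_span (span_of_cone hC ?_))
    intro w hw
    rw [hWJ] at hw
    rcases Finset.mem_union.mp hw with h | h
    · exact mem_cone_self h
    · obtain ⟨x, hx, rfl⟩ := Finset.mem_image.mp h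
      obtain ⟨M, hM, _⟩ := hapx x hx
      exact hM.mem_cone
  have hcol := partition_col hC' hA hB hdisj hU lA lB hb
  obtain ⟨B0, hF, hm, L, hnd, hL, hch⟩ := exists_ham_fan' hC' hcol
  refine hasHamTet_of_rel hz (hasHamTet_insert hC _ _ _ B0 _ L rfl hWJ hF hm hnd hL hch ?_)
  intro x' hx'
  obtain ⟨x, hx, rfl⟩ := Finset.mem_image.mp hx'
  obtain ⟨M, hM, hMe⟩ := hapx x hx
  obtain ⟨hcard, _, hxz'⟩ := hd x hx
  have memM : ∀ y ∈ S, IsEdgeS S x y → y - x ∈ M := by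
    intro y hy hxy
    have hyz : y ≠ z := fun hh => hxz' (hh ▸ hxy)
    obtain ⟨e0, k, k1, k2⟩ := hxy
    have h1 : (y - z) - (x - z) ∈ M := by
      refine hM.nbr_mem hsub (sub_mem_rel hy hyz) (fun hh => e0 (sub_left_injective hh).symm)
        (g := k) ?_ ?_
      · rw [map_sub, map_sub, k1]
      · intro w hw h1 h2
        have := k2 (w + z) (mem_rel.mp hw).1 (fun hh => h1 (by rw [← hh]; abel))
          (fun hh => h2 (by rw [← hh]; abel))
        rw [map_add] at this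
        rw [map_sub]
        linarith
    rwa [sub_sub_sub_cancel_right] at h1
  have eM : M = (S.filter (fun y => IsEdgeS S x y)).image (fun y => y - x) := by
    ext m
    rw [Finset.mem_image]
    constructor
    · intro hm
      have h1 : m + x ∈ S := by
        have := (Finset.mem_sdiff.mp (mem_rel.mp (hM.low m hm)).1).1
        rwa [add_assoc, sub_add_cancel] at this
      exact ⟨m + x, Finset.mem_filter.mpr ⟨h1, hMe m hm⟩, by abel⟩
    · rintro ⟨y, hy, rfl⟩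
      obtain ⟨h1, h2⟩ := Finset.mem_filter.mp hy
      exact memM y h1 h2
  refine ⟨M, hM, ?_⟩
  rw [eM, Finset.card_image_of_injective _ sub_left_injective, hcard]

end

end Run7.h169
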