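import Pool.Agent.Run7.h169.Iv10

set_option autoImplicit false
open scoped Classical Topology
open Filter

namespace Run7.h169

section

variable {S : Finset E3} {z : E3}

/-- Removing a vertex creates no edges at the vertices not adjacent to it. -/
theorem edge_of_erase (hS : ConvPos S) (hspan : affineSpan ℝ (S : Set E3) = ⊤) {x y w : E3}
    (hy : y ∈ S) (hyx : ¬ IsEdgeS S y x) (hw : w ∈ S)
    (he : IsEdgeS (S.erase x) y w) : IsEdgeS S y w := by
  by_contra hno
  obtain ⟨M, m1, m2, m3⟩ := exists_gens hS hspan hy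
  obtain ⟨hne, g, g1, g2⟩ := he
  obtain ⟨c, hc, hs⟩ := m2 (w - y) (sub_mem_rel hw hne.symm)
  have key : ∀ m ∈ M, g m < 0 := by
    intro m hm
    obtain ⟨k1, k2⟩ := mem_rel.mp (m1 hm)
    have e := m3 m hm
    have h1 : m + y ≠ x := fun hh => hyx (hh ▸ e)
    have h2 : m + y ≠ w := fun hh => hno (hh ▸ e)
    have h3 : m + y ≠ y := fun hh => k2 (by simpa using hh)
    have := g2 (m + y) (Finset.mem_erase.mpr ⟨h1, k1⟩) h3 h2
    rw [map_add] at this
    linarith
  have e : ∑ m ∈ M, c m * g m = 0 := by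
    have := congrArg g hs
    rw [map_sum, map_sub, g1, sub_self] at this
    simpa using this
  have hz : ∀ m ∈ M, c m = 0 := by
    intro m hm
    have h3 : ∑ m ∈ M, c m * -(g m) = 0 := by
      simp only [mul_neg]
      rw [Finset.sum_neg_distrib, e, neg_zero]
    have h4 := (Finset.sum_eq_zero_iff_of_nonneg (fun m hm =>
      mul_nonneg (hc m hm) (by linarith [key m hm]))).mp h3 m hm
    rcases mul_eq_zero.mp h4 with h5 | h5
    · exact h5
    · exfalso
      have := key m hm
      linarith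
  have : ∑ m ∈ M, c m • m = 0 := by
    apply Finset.sum_eq_zero
    intro m hm
    rw [hz m hm, zero_smul]
  rw [this] at hs
  exact hne (sub_eq_zero.mp hs.symm).symm

/-- The criterion: the vertices other than `z` split into two sets inducing forests in the hull
of the rest and an independent set of vertices of degree at most four. -/
theorem indep_partition_hasHamTet {A B : Finset E3} (hA : A.Nonempty) (hB : B.Nonempty)
    (hdisj : Disjoint A B) : ∀ (n : ℕ) (S I : Finset E3), I.card = n → ConvPos S →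
    affineSpan ℝ (S : Set E3) = ⊤ → z ∈ S → I ⊆ S → z ∉ I → A ∪ B = (S \ I).erase z →
    (∀ M ⊆ A, M.Nonempty → ∃ x ∈ M, ∀ y ∈ M, ∀ t ∈ M,
      IsEdgeS (S \ I) x y → IsEdgeS (S \ I) x t → y = t) →
    (∀ M ⊆ B, M.Nonempty → ∃ x ∈ M, ∀ y ∈ M, ∀ t ∈ M,
      IsEdgeS (S \ I) x y → IsEdgeS (S \ I) x t → y = t) →
    (((A ×ˢ B).filter (fun e => IsEdgeS (S \ I) e.1 e.2 ∧ ∃ f : E3 →ₗ[ℝ] ℝ, f ≠ 0 ∧
      f e.1 = f z ∧ f e.2 = f z ∧ ∀ x ∈ S \ I, f x ≤ f z)).card ≤ 2) →
    (∀ x ∈ I, sdeg S x ≤ 4 ∧ (∀ y ∈ I, ¬ IsEdgeS S x y) ∧ ¬ IsEdgeS S x z) →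
    HasHamTet S := by
  intro n
  induction n with
  | zero =>
    intro S I hn hS hspan hz hI hzI hU lA lB hb hd
    refine free_partition_hasHamTet hS hspan hz hI hzI hA hB hdisj hU lA lB hb ?_
    intro x hx
    rw [Finset.card_eq_zero] at hn
    rw [hn] at hx
    simp at hx
  | succ n ih =>
    intro S I hn hS hspan hz hI hzI hU lA lB hb hd
    by_cases hall : ∀ x ∈ I, 4 ≤ sdeg S x
    · refine free_partition_hasHamTet hS hspan hz hI hzI hA hB hdisj hU lA lB hb ?_
      intro x hx
      exact ⟨le_antisymm (hd x hx).1 (hall x hx), (hd x hx).2⟩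
    · push Not at hall
      obtain ⟨x, hx, hlt⟩ := hall
      have hf := hasFrm_of_sdeg hS hspan (hI hx) (by omega)
      rcases (Red.one hf).hasHamTet hS hspan with h1 | ⟨hspan', himp⟩
      · exact h1
      apply himp
      have e : (S.erase x) \ (I.erase x) = S \ I := by
        ext y
        simp only [Finset.mem_sdiff, Finset.mem_erase, not_and]
        constructor
        · rintro ⟨⟨k1, k2⟩, k3⟩
          exact ⟨k2, k3 k1⟩
        · rintro ⟨k1, k2⟩
          exact ⟨⟨fun hh => k2 (hh ▸ hx), k1⟩, fun _ => k2⟩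
      have hxz : z ≠ x := fun hh => hzI (hh ▸ hx)
      refine ih (S.erase x) (I.erase x) (by rw [Finset.card_erase_of_mem hx]; omega)
        (hS.mono (Finset.erase_subset _ _)) hspan' (Finset.mem_erase.mpr ⟨hxz, hz⟩)
        (Finset.erase_subset_erase _ hI) (fun hh => hzI (Finset.mem_of_mem_erase hh))
        (by rw [e]; exact hU) (by rw [e]; exact lA) (by rw [e]; exact lB) (by rw [e]; exact hb)
        ?_
      intro y hy
      obtain ⟨hyx, hyI⟩ := Finset.mem_erase.mp hy
      obtain ⟨d1, d2, d3⟩ := hd y hyI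
      refine ⟨?_, ?_, ?_⟩
      · refine le_trans (Finset.card_le_card ?_) d1
        intro w hw
        obtain ⟨w1, w2⟩ := Finset.mem_filter.mp hw
        have w3 := Finset.mem_of_mem_erase w1
        exact Finset.mem_filter.mpr ⟨w3, edge_of_erase hS hspan (hI hyI) (d2 x hx) w3 w2⟩
      · intro w hw hew
        have w3 := Finset.mem_of_mem_erase hw
        exact d2 w w3 (edge_of_erase hS hspan (hI hyI) (d2 x hx) (hI w3) hew)
      · intro hew
        exact d3 (edge_of_erase hS hspan (hI hyI) (d2 x hx) hz hew)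

end

end Run7.h169
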