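import Pool.Agent.Run7.h169.Iv1

set_option autoImplicit false
open scoped Classical Topology
open Filter

namespace Run7.h169

section

variable {W W' : Finset E3} {x : E3} {M : Finset E3} {B : Finset (Finset E3)}

theorem Apx.ne_low (h : Apx W W' x M) {w : E3} (hw : w ∈ W') : w ≠ x :=
  fun hh => h.xW' (hh ▸ hw)

/-- The linear relation between the edge vectors of two visible triangles with a common side. -/
theorem Apx.relation (hF : Fan W' B) {u v w t : E3}
    (h1 : ({u, v, w} : Finset E3) ∈ B) (h2 : ({u, v, t} : Finset E3) ∈ B) (hwt : w ≠ t)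
    (v1 : 1 < gfun {u, v, w} (fun _ => 1) x) (v2 : 1 < gfun {u, v, t} (fun _ => 1) x) :
    ∃ α β γ : ℝ, 0 < γ ∧ (t - x) + γ • (w - x) = α • (u - x) + β • (v - x) := by
  have hN := hF.nice _ h1
  have hN2 := hF.nice _ h2
  have hneg := hF.side_neg h1 h2 hwt
  set α := crd {u, v, w} u t with hα
  set β := crd {u, v, w} v t with hβ
  set γ' := crd {u, v, w} w t with hγ
  have ht : α • u + β • v + γ' • w = t := crd_sum3 hN t
  set p := crd {u, v, w} u x with hp
  set r := crd {u, v, w} v x with hr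
  set q := crd {u, v, w} w x with hq
  have hx : p • u + r • v + q • w = x := crd_sum3 hN x
  set π0 := gfun {u, v, w} (fun _ => 1) with hπ0
  set π1 := gfun {u, v, t} (fun _ => 1) with hπ1
  have a1 : π0 u = 1 := gfun_mem hN _ (by simp)
  have a2 : π0 v = 1 := gfun_mem hN _ (by simp)
  have a3 : π0 w = 1 := gfun_mem hN _ (by simp)
  have b1 : π1 u = 1 := gfun_mem hN2 _ (by simp)
  have b2 : π1 v = 1 := gfun_mem hN2 _ (by simp)
  have b3 : π1 t = 1 := gfun_mem hN2 _ (by simp)
  have c0 : π0 x = p + r + q := by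
    rw [← hx, map_add, map_add, map_smul, map_smul, map_smul, a1, a2, a3]
    simp
  have c1 : π1 x = p + r + q * π1 w := by
    conv_lhs => rw [← hx]
    rw [map_add, map_add, map_smul, map_smul, map_smul, b1, b2]
    simp
  have c2 : 1 = α + β + γ' * π1 w := by
    rw [← b3]
    conv_lhs => rw [← ht]
    rw [map_add, map_add, map_smul, map_smul, map_smul, b1, b2]
    simp
  set s := p + r + q - 1 with hs
  have hs0 : 0 < s := by rw [hs]; linarith
  set κ := (1 - γ' - α - β) / s with hκ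
  have hκs : κ * s = 1 - γ' - α - β := by rw [hκ]; field_simp
  refine ⟨α + κ * p, β + κ * r, -γ' - κ * q, ?_, ?_⟩
  · -- the sign
    have e1 : (-γ') * (p + r + q * π1 w - 1) = (-γ') * (p + r - 1) + q * (α + β - 1) := by
      have : γ' * π1 w = 1 - α - β := by linarith
      calc (-γ') * (p + r + q * π1 w - 1) = (-γ') * (p + r - 1) - q * (γ' * π1 w) := by ring
        _ = _ := by rw [this]; ring
    have e2 : 0 < (-γ') * (p + r + q * π1 w - 1) :=
      mul_pos (by linarith) (by linarith)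
    rw [e1] at e2
    have e3 : (-γ') * (p + r - 1) + q * (α + β - 1) = s * (-γ' - κ * q) := by
      have : α + β - 1 = -γ' - κ * s := by linarith
      rw [this, hs]
      ring
    rw [e3] at e2
    exact (mul_pos_iff_of_pos_left hs0).mp e2
  · have e1 : t + (-γ' - κ * q) • w - (α + κ * p) • u - (β + κ * r) • v = -(κ • x) := by
      rw [← ht, ← hx]
      module
    have e2 : (1 + (-γ' - κ * q) - (α + κ * p) - (β + κ * r)) = -κ := by
      have : κ * s = κ * p + κ * r + κ * q - κ := by rw [hs]; ring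
      linarith
    have e3 : (t - x) + (-γ' - κ * q) • (w - x) - ((α + κ * p) • (u - x) + (β + κ * r) • (v - x))
        = (t + (-γ' - κ * q) • w - (α + κ * p) • u - (β + κ * r) • v) -
          (1 + (-γ' - κ * q) - (α + κ * p) - (β + κ * r)) • x := by
      module
    rw [e1, e2] at e3
    have e4 : -(κ • x) - -κ • x = 0 := by module
    rw [e4] at e3
    exact sub_eq_zero.mp e3

/-- The data of an insertable vertex: two visible triangles with a common side. -/
structure Pair (W W' : Finset E3) (B : Finset (Finset E3)) (x : E3) (M : Finset E3)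
    (u v w t : E3) : Prop where
  apx : Apx W W' x M
  hM : M = {u - x, v - x, w - x, t - x}
  wt : w ≠ t
  m1 : ({u, v, w} : Finset E3) ∈ B
  m2 : ({u, v, t} : Finset E3) ∈ B
  v1 : 1 < gfun {u, v, w} (fun _ => 1) x
  v2 : 1 < gfun {u, v, t} (fun _ => 1) x

theorem Pair.swap {u v w t : E3} (h : Pair W W' B x M u v w t) : Pair W W' B x M u v t w :=
  ⟨h.apx, by rw [h.hM]; ext y; simp only [Finset.mem_insert, Finset.mem_singleton]; tauto,
    h.wt.symm, h.m2, h.m1, h.v2, h.v1⟩

theorem Pair.dist {u v w t : E3} (h : Pair W W' B x M u v w t) (hF : Fan W' B) :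
    u ≠ v ∧ u ≠ w ∧ v ≠ w ∧ u ≠ t ∧ v ≠ t := by
  obtain ⟨a1, a2, a3⟩ := (hF.nice _ h.m1).distinct
  obtain ⟨_, b2, b3⟩ := (hF.nice _ h.m2).distinct
  exact ⟨a1, a2, a3, b2, b3⟩

/-- The relation with its signs. -/
theorem Pair.rel4 {u v w t : E3} (h : Pair W W' B x M u v w t) (hsub : W' ⊆ W)
    (hF : Fan W' B) : ∃ α β γ : ℝ, 0 < α ∧ 0 < β ∧ 0 < γ ∧
      (t - x) + γ • (w - x) = α • (u - x) + β • (v - x) := by
  obtain ⟨α, β, γ, hγ, hr⟩ := Apx.relation hF h.m1 h.m2 h.wt h.v1 h.v2
  obtain ⟨d1, d2, d3, d4, d5⟩ := h.dist hF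
  have mW : ∀ {y : E3}, y ∈ ({u, v, w} : Finset E3) ∨ y ∈ ({u, v, t} : Finset E3) →
      y ∈ W ∧ y ≠ x := by
    rintro y (hy | hy)
    · exact ⟨hsub (hF.sub _ h.m1 hy), h.apx.ne_low (hF.sub _ h.m1 hy)⟩
    · exact ⟨hsub (hF.sub _ h.m2 hy), h.apx.ne_low (hF.sub _ h.m2 hy)⟩
  have mu := mW (y := u) (Or.inl (by simp))
  have mv := mW (y := v) (Or.inl (by simp))
  have mw := mW (y := w) (Or.inl (by simp))
  have mt := mW (y := t) (Or.inr (by simp))
  have key : ∀ y ∈ M, ∃ f : E3 →ₗ[ℝ] ℝ, f y = 0 ∧ ∀ p ∈ W, p ≠ x → p ≠ y + x →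
      f (p - x) < 0 := by
    intro y hy
    obtain ⟨f, f1, _, f3⟩ := h.apx.edge y hy
    refine ⟨f, f1, ?_⟩
    intro p hp h1 h2
    have := f3 p hp h1 h2
    rw [map_sub]
    linarith
  have hu : u - x ∈ M := by rw [h.hM]; simp
  have hv : v - x ∈ M := by rw [h.hM]; simp
  refine ⟨α, β, γ, ?_, ?_, hγ, hr⟩
  · obtain ⟨f, f1, f2⟩ := key _ hv
    rw [sub_add_cancel] at f2
    have e := congrArg f hr
    rw [map_add, map_add, map_smul, map_smul, map_smul, f1, smul_zero, add_zero, smul_eq_mul,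
      smul_eq_mul] at e
    have g1 := f2 t mt.1 mt.2 d5.symm
    have g2 := f2 w mw.1 mw.2 d3.symm
    have g3 := f2 u mu.1 mu.2 d1
    have g4 := mul_neg_of_pos_of_neg hγ g2
    by_contra hcon
    push Not at hcon
    have := mul_nonneg_of_nonpos_of_nonpos hcon g3.le
    linarith
  · obtain ⟨f, f1, f2⟩ := key _ hu
    rw [sub_add_cancel] at f2
    have e := congrArg f hr
    rw [map_add, map_add, map_smul, map_smul, map_smul, f1, smul_zero, zero_add, smul_eq_mul,
      smul_eq_mul] at e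
    have g1 := f2 t mt.1 mt.2 d4.symm
    have g2 := f2 w mw.1 mw.2 d2.symm
    have g3 := f2 v mv.1 mv.2 d1.symm
    have g4 := mul_neg_of_pos_of_neg hγ g2
    by_contra hcon
    push Not at hcon
    have := mul_nonneg_of_nonpos_of_nonpos hcon g3.le
    linarith

/-- Four edge vectors reduce to three. -/
theorem split4 {u v w t : E3} {α β γ : ℝ} (hα : 0 < α) (hβ : 0 < β) (hγ : 0 < γ)
    (hr : t + γ • w = α • u + β • v) {a b c d : ℝ} (ha : 0 ≤ a) (hb : 0 ≤ b) (hc : 0 ≤ c)
    (hd : 0 ≤ d) :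
    (∃ a' b' c' : ℝ, 0 ≤ a' ∧ 0 ≤ b' ∧ 0 ≤ c' ∧
      a' • u + b' • v + c' • w = a • u + b • v + c • w + d • t) ∨
    (∃ a' b' c' : ℝ, 0 ≤ a' ∧ 0 ≤ b' ∧ 0 ≤ c' ∧
      a' • u + b' • v + c' • t = a • u + b • v + c • w + d • t) := by
  have ht : t = α • u + β • v - γ • w := by rw [← hr]; abel
  rcases le_total (d * γ) c with h | h
  · left
    refine ⟨a + d * α, b + d * β, c - d * γ, by positivity, by positivity, by linarith, ?_⟩
    rw [ht]
    module
  · right
    have hw : w = (1 / γ) • (α • u + β • v - t) := by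
      rw [ht, sub_sub_cancel, smul_smul, one_div_mul_cancel hγ.ne', one_smul]
    refine ⟨a + c / γ * α, b + c / γ * β, d - c / γ, by positivity, by positivity, ?_, ?_⟩
    · rw [sub_nonneg, div_le_iff₀ hγ]
      exact h
    · have e : c • w = (c / γ) • (α • u + β • v - t) := by
        conv_lhs => rw [hw]
        rw [smul_smul]
        congr 1
        ring
      rw [e]
      module

end

end Run7.h169
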