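import Pool.Agent.Run7.h169.Iv2

set_option autoImplicit false
open scoped Classical Topology
open Filter

namespace Run7.h169

theorem hull_ins {x : E3} {τ : Finset E3} (hx : x ∉ τ) {y : E3} :
    y ∈ convexHull ℝ ((insert x τ : Finset E3) : Set E3) ↔
      ∃ (l : ℝ) (c : E3 → ℝ), 0 ≤ l ∧ (∀ t ∈ τ, 0 ≤ c t) ∧ l + ∑ t ∈ τ, c t = 1 ∧
        l • x + ∑ t ∈ τ, c t • t = y := by
  rw [Finset.mem_convexHull']
  constructor
  · rintro ⟨w, h1, h2, h3⟩
    rw [Finset.sum_insert hx] at h2 h3
    exact ⟨w x, w, h1 x (Finset.mem_insert_self _ _),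
      fun t ht => h1 t (Finset.mem_insert_of_mem ht), h2, h3⟩
  · rintro ⟨l, c, h1, h2, h3, h4⟩
    refine ⟨fun y => if y = x then l else c y, ?_, ?_, ?_⟩
    · intro y hy
      beta_reduce
      split_ifs with hh
      · exact h1
      · rcases Finset.mem_insert.mp hy with h | h
        · exact absurd h hh
        · exact h2 y h
    · rw [Finset.sum_insert hx, if_pos rfl, ← h3]
      congr 1
      apply Finset.sum_congr rfl
      intro t ht
      rw [if_neg (by rintro rfl; exact hx ht)]
    · rw [Finset.sum_insert hx]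
      beta_reduce
      rw [if_pos rfl, ← h4]
      congr 1
      apply Finset.sum_congr rfl
      intro t ht
      rw [if_neg (by rintro rfl; exact hx ht)]

theorem hull_of_cone_inter {W' : Finset E3} {B : Finset (Finset E3)} (hF : Fan W' B)
    {σ τ : Finset E3} (hσ : σ ∈ B) (hτ : τ ∈ B) {y : E3} (h1 : y ∈ cone σ) (h2 : y ∈ cone τ)
    (h3 : gfun τ (fun _ => 1) y = 1) :
    y ∈ convexHull ℝ ((σ ∩ τ : Finset E3) : Set E3) := by
  obtain ⟨c, c1, c2⟩ := hF.inter σ hσ τ hτ y h1 h2
  rw [Finset.mem_convexHull']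
  refine ⟨c, c1, ?_, c2⟩
  rw [← h3, ← c2, gfun_sum]
  apply Finset.sum_congr rfl
  intro t ht
  rw [gfun_mem (hF.nice τ hτ) _ (Finset.mem_inter.mp ht).2, mul_one]

section

variable {W W' : Finset E3} {x : E3} {M : Finset E3} {B : Finset (Finset E3)}

theorem Apx.notMem_tri (h : Apx W W' x M) (hF : Fan W' B) {τ : Finset E3} (hτ : τ ∈ B) :
    x ∉ τ := fun hh => h.xW' (hF.sub τ hτ hh)

theorem gfun_cap {τ : Finset E3} (hN : Nice τ) (l : ℝ) (c : E3 → ℝ) (x : E3) :
    gfun τ (fun _ => 1) (l • x + ∑ t ∈ τ, c t • t) =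
      l * gfun τ (fun _ => 1) x + ∑ t ∈ τ, c t := by
  rw [map_add, map_smul, smul_eq_mul, gfun_sum]
  congr 1
  apply Finset.sum_congr rfl
  intro t ht
  rw [gfun_mem hN _ ht, mul_one]

/-- A cap meets a cone over a triangle in a common face. -/
theorem Apx.inter_base (h : Apx W W' x M) (hF : Fan W' B) {σ τ : Finset E3}
    (hσ : σ ∈ B) (hτ : τ ∈ B) (hv : 1 < gfun τ (fun _ => 1) x) :
    convexHull ℝ ((insert 0 σ : Finset E3) : Set E3) ∩
      convexHull ℝ ((insert x τ : Finset E3) : Set E3) =
    convexHull ℝ (((insert 0 σ) ∩ (insert x τ) : Finset E3) : Set E3) := by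
  have hN := hF.nice τ hτ
  have h0 : (0 : E3) ∉ σ := nice_zero_notMem (hF.nice σ hσ)
  apply Set.Subset.antisymm
  · rintro y ⟨hy1, hy2⟩
    rw [hull_iff h0] at hy1
    rw [hull_ins (h.notMem_tri hF hτ)] at hy2
    obtain ⟨c, c1, c2, c3⟩ := hy1
    obtain ⟨l, d, d1, d2, d3, d4⟩ := hy2
    have e1 : gfun τ (fun _ => 1) y ≤ 1 := by
      rw [← c3, gfun_sum]
      calc ∑ t ∈ σ, c t * gfun τ (fun _ => 1) t ≤ ∑ t ∈ σ, c t * 1 := by
            apply Finset.sum_le_sum
            intro t ht
            exact mul_le_mul_of_nonneg_left (hF.supp τ hτ t (hF.sub σ hσ ht)) (c1 t ht)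
        _ ≤ 1 := by simpa using c2
    have e2 : gfun τ (fun _ => 1) y = l * gfun τ (fun _ => 1) x + ∑ t ∈ τ, d t := by
      rw [← d4, gfun_cap hN]
    have hl : l = 0 := by
      by_contra hne
      have : 0 < l := lt_of_le_of_ne d1 (Ne.symm hne)
      nlinarith
    rw [hl, zero_smul, zero_add] at d4
    rw [hl, zero_mul, zero_add] at e2
    rw [hl, zero_add] at d3
    have e3 := hull_of_cone_inter hF hσ hτ ⟨c, c1, c3⟩ ⟨d, d2, d4⟩ (e2.trans d3)
    refine convexHull_mono ?_ e3
    intro t ht
    have ht' := Finset.mem_inter.mp (Finset.mem_coe.mp ht)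
    exact Finset.mem_coe.mpr (Finset.mem_inter.mpr ⟨Finset.mem_insert_of_mem ht'.1,
      Finset.mem_insert_of_mem ht'.2⟩)
  · apply Set.subset_inter
    · exact convexHull_mono (Finset.coe_subset.mpr Finset.inter_subset_left)
    · exact convexHull_mono (Finset.coe_subset.mpr Finset.inter_subset_right)

/-- Caps of different vertices meet in a common face. -/
theorem Apx.inter_caps {x' : E3} {M' : Finset E3} (h : Apx W W' x M) (h' : Apx W W' x' M')
    (hne : x' ≠ x) (hF : Fan W' B) {τ τ' : Finset E3} (hτ : τ ∈ B) (hτ' : τ' ∈ B)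
    (hv : 1 < gfun τ (fun _ => 1) x) :
    convexHull ℝ ((insert x τ : Finset E3) : Set E3) ∩
      convexHull ℝ ((insert x' τ' : Finset E3) : Set E3) =
    convexHull ℝ (((insert x τ) ∩ (insert x' τ') : Finset E3) : Set E3) := by
  have hN := hF.nice τ hτ
  have hlt : gfun τ (fun _ => 1) x' < 1 := by
    refine h.vis (hF.supp τ hτ) hv h'.xW hne ?_
    intro hm
    have := h.low _ hm
    rw [sub_add_cancel] at this
    exact h'.xW' this
  apply Set.Subset.antisymm
  · rintro y ⟨hy1, hy2⟩
    rw [hull_ins (h.notMem_tri hF hτ)] at hy1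
    rw [hull_ins (h'.notMem_tri hF hτ')] at hy2
    obtain ⟨l, c, c1, c2, c3, c4⟩ := hy1
    obtain ⟨k, d, d1, d2, d3, d4⟩ := hy2
    have e1 : gfun τ (fun _ => 1) y = l * gfun τ (fun _ => 1) x + ∑ t ∈ τ, c t := by
      rw [← c4, gfun_cap hN]
    have e2 : gfun τ (fun _ => 1) y ≤ k * gfun τ (fun _ => 1) x' + ∑ t ∈ τ', d t := by
      rw [← d4, map_add, map_smul, smul_eq_mul, gfun_sum]
      have : ∑ t ∈ τ', d t * gfun τ (fun _ => 1) t ≤ ∑ t ∈ τ', d t := by
        apply Finset.sum_le_sum
        intro t ht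
        have := mul_le_mul_of_nonneg_left (hF.supp τ hτ t (hF.sub τ' hτ' ht)) (d2 t ht)
        linarith
      linarith
    have hl : l = 0 := by
      by_contra hh
      have : 0 < l := lt_of_le_of_ne c1 (Ne.symm hh)
      nlinarith
    have hk : k = 0 := by
      by_contra hh
      have : 0 < k := lt_of_le_of_ne d1 (Ne.symm hh)
      nlinarith
    rw [hl, zero_smul, zero_add] at c4
    rw [hl, zero_mul, zero_add] at e1
    rw [hl, zero_add] at c3
    rw [hk, zero_smul, zero_add] at d4
    have e3 := hull_of_cone_inter hF hτ' hτ ⟨d, d2, d4⟩ ⟨c, c2, c4⟩ (e1.trans c3)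
    refine convexHull_mono ?_ e3
    intro t ht
    have ht' := Finset.mem_inter.mp (Finset.mem_coe.mp ht)
    exact Finset.mem_coe.mpr (Finset.mem_inter.mpr ⟨Finset.mem_insert_of_mem ht'.2,
      Finset.mem_insert_of_mem ht'.1⟩)
  · apply Set.subset_inter
    · exact convexHull_mono (Finset.coe_subset.mpr Finset.inter_subset_left)
    · exact convexHull_mono (Finset.coe_subset.mpr Finset.inter_subset_right)

theorem sum3 {V : Type*} [AddCommMonoid V] {u v w : E3} (d1 : u ≠ v) (d2 : u ≠ w)
    (d3 : v ≠ w) (g : E3 → V) :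
    ∑ t ∈ ({u, v, w} : Finset E3), g t = g u + (g v + g w) := by
  rw [Finset.sum_insert (by simp [d1, d2]), Finset.sum_insert (by simp [d3]),
    Finset.sum_singleton]

/-- The two caps of a vertex meet in a common face. -/
theorem Pair.inter {u v w t : E3} (h : Pair W W' B x M u v w t) (hsub : W' ⊆ W)
    (hF : Fan W' B) :
    convexHull ℝ ((insert x {u, v, w} : Finset E3) : Set E3) ∩
      convexHull ℝ ((insert x {u, v, t} : Finset E3) : Set E3) =
    convexHull ℝ (((insert x {u, v, w}) ∩ (insert x {u, v, t}) : Finset E3) : Set E3) := by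
  obtain ⟨d1, d2, d3, d4, d5⟩ := h.dist hF
  obtain ⟨α, β, γ, hα, hβ, hγ, hr⟩ := h.rel4 hsub hF
  have hN := hF.nice _ h.m1
  apply Set.Subset.antisymm
  · rintro y ⟨hy1, hy2⟩
    rw [hull_ins (h.apx.notMem_tri hF h.m1)] at hy1
    rw [hull_ins (h.apx.notMem_tri hF h.m2)] at hy2
    obtain ⟨l, c, c1, c2, c3, c4⟩ := hy1
    obtain ⟨k, d, e1, e2, e3, e4⟩ := hy2
    rw [sum3 d1 d2 d3] at c3 c4
    rw [sum3 d1 d4 d5] at e3 e4
    have hcw := c2 w (by simp)
    have hdt := e2 t (by simp)
    have ht : t = x + (α • (u - x) + β • (v - x) - γ • (w - x)) := by rw [← hr]; abel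
    have hdiff : (c u - d u - d t * α) • (u - x) + (c v - d v - d t * β) • (v - x) +
        (c w + d t * γ) • (w - x) = 0 := by
      have f1 : y - x = c u • (u - x) + c v • (v - x) + c w • (w - x) := by
        have : l = 1 - (c u + (c v + c w)) := by linarith
        rw [← c4, this]
        module
      have f2 : y - x = d u • (u - x) + d v • (v - x) + d t • (t - x) := by
        have : k = 1 - (d u + (d v + d t)) := by linarith
        rw [← e4, this]
        module
      have f3 : t - x = α • (u - x) + β • (v - x) - γ • (w - x) := by rw [← hr]; abel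
      rw [f3] at f2
      have f4 := f1.symm.trans f2
      have f5 := sub_eq_zero.mpr f4
      rw [← f5]
      module
    set k1 := c u - d u - d t * α with hk1
    set k2 := c v - d v - d t * β with hk2
    set k3 := c w + d t * γ with hk3
    have hsum : k1 + k2 + k3 = 0 := by
      have f1 := congrArg (gfun {u, v, w} (fun _ => 1)) hdiff
      have a1 : gfun {u, v, w} (fun _ => 1) u = 1 := gfun_mem hN _ (by simp)
      have a2 : gfun {u, v, w} (fun _ => 1) v = 1 := gfun_mem hN _ (by simp)
      have a3 : gfun {u, v, w} (fun _ => 1) w = 1 := gfun_mem hN _ (by simp)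
      simp only [map_add, map_smul, map_sub, map_zero, a1, a2, a3, smul_eq_mul] at f1
      have hv := h.v1
      have f2 : (k1 + k2 + k3) * (1 - gfun {u, v, w} (fun _ => 1) x) = 0 := by linarith
      rcases mul_eq_zero.mp f2 with f3 | f3
      · exact f3
      · linarith
    have hlin : k1 • u + k2 • v + k3 • w = 0 := by
      have : k1 • (u - x) + k2 • (v - x) + k3 • (w - x) =
          k1 • u + k2 • v + k3 • w - (k1 + k2 + k3) • x := by module
      rw [this, hsum, zero_smul, sub_zero] at hdiff
      exact hdiff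
    have hk0 : k3 = 0 := by
      have := (crd3_unique hN hlin).2.2
      rw [map_zero] at this
      exact this.symm
    have hcw0 : c w = 0 := by
      have := mul_nonneg hdt hγ.le
      linarith
    rw [Finset.mem_convexHull']
    have hinter : ((insert x {u, v, w}) ∩ (insert x {u, v, t}) : Finset E3) = {x, u, v} := by
      ext z
      simp only [Finset.mem_inter, Finset.mem_insert, Finset.mem_singleton]
      constructor
      · rintro ⟨h1 | h1 | h1 | h1, h2⟩
        · exact Or.inl h1
        · exact Or.inr (Or.inl h1)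
        · exact Or.inr (Or.inr h1)
        · rcases h2 with h2 | h2 | h2 | h2
          · exact Or.inl h2
          · exact Or.inr (Or.inl h2)
          · exact Or.inr (Or.inr h2)
          · exact absurd (h1.symm.trans h2) h.wt
      · rintro (h1 | h1 | h1)
        · exact ⟨Or.inl h1, Or.inl h1⟩
        · exact ⟨Or.inr (Or.inl h1), Or.inr (Or.inl h1)⟩
        · exact ⟨Or.inr (Or.inr (Or.inl h1)), Or.inr (Or.inr (Or.inl h1))⟩
    have hxu : x ≠ u := fun hh => h.apx.notMem_tri hF h.m1 (by rw [hh]; simp)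
    have hxv : x ≠ v := fun hh => h.apx.notMem_tri hF h.m1 (by rw [hh]; simp)
    rw [hinter]
    refine ⟨fun z => if z = x then l else c z, ?_, ?_, ?_⟩
    · intro z hz
      beta_reduce
      split_ifs with hh
      · exact c1
      · simp only [Finset.mem_insert, Finset.mem_singleton] at hz
        rcases hz with h1 | h1 | h1
        · exact absurd h1 hh
        · exact c2 z (by rw [h1]; simp)
        · exact c2 z (by rw [h1]; simp)
    · rw [sum3 hxu hxv d1, if_pos rfl, if_neg hxu.symm, if_neg hxv.symm]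
      linarith
    · rw [sum3 hxu hxv d1]
      beta_reduce
      rw [if_pos rfl, if_neg hxu.symm, if_neg hxv.symm, ← c4, hcw0, zero_smul, add_zero]
  · apply Set.subset_inter
    · exact convexHull_mono (Finset.coe_subset.mpr Finset.inter_subset_left)
    · exact convexHull_mono (Finset.coe_subset.mpr Finset.inter_subset_right)

/-- A point above a visible plane lies in one of the two caps. -/
theorem Pair.cover {u v w t : E3} (h : Pair W W' B x M u v w t) (hsub : W' ⊆ W)
    (hF : Fan W' B) {y : E3} (hy : y - x ∈ cone M) {σ : Finset E3} (hσ : σ ∈ B)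
    (hσx : 1 < gfun σ (fun _ => 1) x) (hσy : 1 < gfun σ (fun _ => 1) y) :
    y ∈ convexHull ℝ ((insert x {u, v, w} : Finset E3) : Set E3) ∨
      y ∈ convexHull ℝ ((insert x {u, v, t} : Finset E3) : Set E3) := by
  obtain ⟨d1, d2, d3, d4, d5⟩ := h.dist hF
  obtain ⟨α, β, γ, hα, hβ, hγ, hr⟩ := h.rel4 hsub hF
  obtain ⟨c, c1, c2⟩ := hy
  have e : ∑ m ∈ M, c m • m = c (u - x) • (u - x) + c (v - x) • (v - x) +
      c (w - x) • (w - x) + c (t - x) • (t - x) := by
    rw [h.hM, Finset.sum_insert, Finset.sum_insert, Finset.sum_insert, Finset.sum_singleton]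
    · abel
    · simp only [Finset.mem_singleton, sub_left_inj]; exact h.wt
    · simp only [Finset.mem_insert, Finset.mem_singleton, sub_left_inj, not_or]
      exact ⟨d3, d5⟩
    · simp only [Finset.mem_insert, Finset.mem_singleton, sub_left_inj, not_or]
      exact ⟨d1, d2, d4⟩
  have hm : ∀ p, p = u ∨ p = v ∨ p = w ∨ p = t → p - x ∈ M := by
    intro p hp
    rw [h.hM]
    simp only [Finset.mem_insert, Finset.mem_singleton, sub_left_inj]
    exact hp
  -- combinations of total weight larger than one are below the plane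
  have key : ∀ p q r : E3, p ≠ q → p ≠ r → q ≠ r → p - x ∈ M → q - x ∈ M → r - x ∈ M →
      x ∉ ({p, q, r} : Finset E3) → ∀ a b k : ℝ, 0 ≤ a → 0 ≤ b → 0 ≤ k →
      a • (p - x) + b • (q - x) + k • (r - x) = y - x →
      y ∈ convexHull ℝ ((insert x {p, q, r} : Finset E3) : Set E3) := by
    intro p q r pq pr qr mp mq mr hx a b k ha hb hk hs
    have hle : a + b + k ≤ 1 := by
      by_contra hlt
      push Not at hlt
      have n1 := h.apx.nb_le (hF.supp σ hσ) mp
      have n2 := h.apx.nb_le (hF.supp σ hσ) mq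
      have n3 := h.apx.nb_le (hF.supp σ hσ) mr
      have e2 := congrArg (gfun σ (fun _ => 1)) hs
      rw [map_add, map_add, map_smul, map_smul, map_smul, map_sub _ y, smul_eq_mul,
        smul_eq_mul, smul_eq_mul] at e2
      have g1 := mul_le_mul_of_nonneg_left n1 ha
      have g2 := mul_le_mul_of_nonneg_left n2 hb
      have g3 := mul_le_mul_of_nonneg_left n3 hk
      have g4 : (a + b + k) * (1 - gfun σ (fun _ => 1) x) <
          1 * (1 - gfun σ (fun _ => 1) x) := mul_lt_mul_of_neg_right hlt (by linarith)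
      linarith
    rw [hull_ins hx]
    refine ⟨1 - (a + b + k), fun z => if z = p then a else if z = q then b else k, by linarith,
      ?_, ?_, ?_⟩
    · intro z _
      beta_reduce
      split_ifs <;> assumption
    · rw [sum3 pq pr qr, if_pos rfl, if_neg pq.symm, if_pos rfl, if_neg pr.symm,
        if_neg qr.symm]
      ring
    · rw [sum3 pq pr qr]
      beta_reduce
      rw [if_pos rfl, if_neg pq.symm, if_pos rfl, if_neg pr.symm, if_neg qr.symm]
      have : y = x + (a • (p - x) + b • (q - x) + k • (r - x)) := by rw [hs]; abel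
      rw [this]
      module
  rcases split4 hα hβ hγ hr (c1 _ (hm u (by simp))) (c1 _ (hm v (by simp)))
    (c1 _ (hm w (by simp))) (c1 _ (hm t (by simp))) with hh | hh
  · left
    obtain ⟨a, b, k, ha, hb, hk, hs⟩ := hh
    exact key u v w d1 d2 d3 (hm u (by simp)) (hm v (by simp)) (hm w (by simp))
      (h.apx.notMem_tri hF h.m1) a b k ha hb hk (hs.trans (e.symm.trans c2))
  · right
    obtain ⟨a, b, k, ha, hb, hk, hs⟩ := hh
    exact key u v t d1 d4 d5 (hm u (by simp)) (hm v (by simp)) (hm t (by simp))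
      (h.apx.notMem_tri hF h.m2) a b k ha hb hk (hs.trans (e.symm.trans c2))

theorem affineIndependent_cap {τ : Finset E3} (h : Nice τ) {x : E3} (hx : x ∉ τ)
    (hv : gfun τ (fun _ => 1) x ≠ 1) :
    AffineIndependent ℝ (fun p : (insert x τ : Finset E3) => (p.1 : E3)) := by
  rw [affineIndependent_iff]
  intro s w h1 h2
  -- extend the weights by zero
  set g : E3 → ℝ := fun p => if hp : p ∈ (insert x τ : Finset E3) then
    (if (⟨p, hp⟩ : (insert x τ : Finset E3)) ∈ s then w ⟨p, hp⟩ else 0) else 0 with hg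
  have hgs : ∀ i : (insert x τ : Finset E3), i ∈ s → g i.1 = w i := by
    intro i hi
    rw [hg]
    beta_reduce
    rw [dif_pos i.2, if_pos hi]
  have e1 : ∑ p ∈ insert x τ, g p = 0 := by
    rw [← Finset.sum_coe_sort (insert x τ) g, ← h1, ← Finset.sum_subset (Finset.subset_univ s)]
    · exact Finset.sum_congr rfl hgs
    · intro i _ hi
      rw [hg]
      beta_reduce
      rw [dif_pos i.2, if_neg hi]
  have e2 : ∑ p ∈ insert x τ, g p • p = 0 := by
    rw [← Finset.sum_coe_sort (insert x τ) (fun p => g p • p), ← h2,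
      ← Finset.sum_subset (Finset.subset_univ s)]
    · exact Finset.sum_congr rfl (fun i hi => by rw [hgs i hi])
    · intro i _ hi
      rw [hg]
      beta_reduce
      rw [dif_pos i.2, if_neg hi, zero_smul]
  rw [Finset.sum_insert hx] at e1 e2
  have e3 := gfun_cap h (g x) g x
  rw [e2, map_zero] at e3
  have gx : g x = 0 := by
    have : g x * (gfun τ (fun _ => 1) x - 1) = 0 := by linarith
    rcases mul_eq_zero.mp this with h3 | h3
    · exact h3
    · exact absurd (by linarith) hv
  rw [gx, zero_smul, zero_add] at e2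
  have gt : ∀ t ∈ τ, g t = 0 := by
    intro t ht
    rw [← crd_unique h e2 ht, map_zero]
  intro i hi
  rw [← hgs i hi]
  rcases Finset.mem_insert.mp i.2 with h3 | h3
  · rw [h3, gx]
  · exact gt _ h3

end

end Run7.h169
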