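import Pool.Agent.Run7.h169.Iv3

set_option autoImplicit false
open scoped Classical Topology
open Filter

namespace Run7.h169

section

variable {α : Type*}

/-- Two members of a list in consecutive positions. -/
def Consec (s t : α) (l : List α) : Prop := ∃ l1 l2, l = l1 ++ s :: t :: l2

theorem Consec.cons {s t a : α} {l : List α} (h : Consec s t l) : Consec s t (a :: l) := by
  obtain ⟨l1, l2, rfl⟩ := h
  exact ⟨a :: l1, l2, rfl⟩

theorem Consec.mem {s t : α} {l : List α} (h : Consec s t l) : s ∈ l ∧ t ∈ l := by
  obtain ⟨l1, l2, rfl⟩ := h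
  simp

theorem consec_cons {s t a b : α} {l : List α} :
    Consec s t (a :: b :: l) ↔ (s = a ∧ t = b) ∨ Consec s t (b :: l) := by
  constructor
  · rintro ⟨l1, l2, h⟩
    cases l1 with
    | nil =>
      left
      rw [List.nil_append] at h
      injection h with h1 h2
      injection h2 with h3 h4
      exact ⟨h1.symm, h3.symm⟩
    | cons c l1 =>
      right
      rw [List.cons_append] at h
      injection h with h1 h2
      exact ⟨l1, l2, h2⟩
  · rintro (⟨rfl, rfl⟩ | h)
    · exact ⟨[], l, rfl⟩
    · exact h.cons

theorem not_consec_one {s t a : α} : ¬ Consec s t [a] := by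
  rintro ⟨l1, l2, h⟩
  have := congrArg List.length h
  simp at this
  omega

theorem not_consec_nil {s t : α} : ¬ Consec s t ([] : List α) := by
  rintro ⟨l1, l2, h⟩
  simp at h

/-- Insertion of lists between consecutive members. -/
def insl (g : α → α → List α) : List α → List α
  | [] => []
  | [a] => [a]
  | a :: b :: l => a :: (g a b ++ insl g (b :: l))

theorem mem_insl {g : α → α → List α} {p : α} : ∀ l : List α,
    p ∈ insl g l ↔ p ∈ l ∨ ∃ s t, Consec s t l ∧ p ∈ g s t
  | [] => by
    simp only [insl, List.not_mem_nil, false_or, false_iff, not_exists, not_and]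
    intro s t h
    exact absurd h not_consec_nil
  | [a] => by
    simp only [insl, List.mem_singleton]
    constructor
    · exact Or.inl
    · rintro (h | ⟨s, t, h, _⟩)
      · exact h
      · exact absurd h not_consec_one
  | a :: b :: l => by
    have ih := mem_insl (g := g) (p := p) (b :: l)
    rw [insl, List.mem_cons, List.mem_append, ih]
    constructor
    · rintro (h | h | h | ⟨s, t, h, hp⟩)
      · left; rw [h]; exact List.mem_cons_self
      · right; exact ⟨a, b, ⟨[], l, rfl⟩, h⟩
      · left; exact List.mem_cons_of_mem _ h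
      · right; exact ⟨s, t, h.cons, hp⟩
    · rintro (h | ⟨s, t, h, hp⟩)
      · rcases List.mem_cons.mp h with h | h
        · exact Or.inl h
        · exact Or.inr (Or.inr (Or.inl h))
      · rcases consec_cons.mp h with ⟨rfl, rfl⟩ | h
        · exact Or.inr (Or.inl hp)
        · exact Or.inr (Or.inr (Or.inr ⟨s, t, h, hp⟩))

theorem insl_cons_form (g : α → α → List α) (a : α) (l : List α) :
    ∃ r, insl g (a :: l) = a :: r := by
  cases l with
  | nil => exact ⟨[], rfl⟩
  | cons b l => exact ⟨_, rfl⟩

theorem insl_chain {R : α → α → Prop} {g : α → α → List α} : ∀ l : List α,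
    (∀ s t, Consec s t l → List.IsChain R (s :: (g s t ++ [t]))) → List.IsChain R (insl g l)
  | [], _ => List.IsChain.nil
  | [a], _ => List.IsChain.singleton a
  | a :: b :: l, h => by
    have ih := insl_chain (R := R) (g := g) (b :: l) (fun s t hst => h s t hst.cons)
    obtain ⟨r, hr⟩ := insl_cons_form g b l
    rw [insl, hr]
    rw [hr] at ih
    have h1 := h a b ⟨[], l, rfl⟩
    have h2 : a :: (g a b ++ b :: r) = (a :: g a b) ++ b :: r := rfl
    rw [h2, List.isChain_split]
    exact ⟨h1, ih⟩

theorem insl_nodup {g : α → α → List α} : ∀ l : List α, l.Nodup →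
    (∀ s t, Consec s t l → (g s t).Nodup) → (∀ s t, Consec s t l → ∀ p ∈ g s t, p ∉ l) →
    (∀ p s t s' t', Consec s t l → Consec s' t' l → p ∈ g s t → p ∈ g s' t' →
      (s = s' ∧ t = t') ∨ (s = t' ∧ t = s')) → (insl g l).Nodup
  | [], _, _, _, _ => List.nodup_nil
  | [a], _, _, _, _ => List.nodup_singleton a
  | a :: b :: l, hnd, h1, h2, h3 => by
    have hnd' := List.nodup_cons.mp hnd
    have ih := insl_nodup (g := g) (b :: l) hnd'.2 (fun s t hst => h1 s t hst.cons)
      (fun s t hst p hp hh => h2 s t hst.cons p hp (List.mem_cons_of_mem _ hh))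
      (fun p s t s' t' c c' hp hp' => h3 p s t s' t' c.cons c'.cons hp hp')
    have c0 : Consec a b (a :: b :: l) := ⟨[], l, rfl⟩
    rw [insl, List.nodup_cons, List.nodup_append]
    refine ⟨?_, h1 a b c0, ih, ?_⟩
    · rw [List.mem_append, mem_insl]
      rintro (h | h | ⟨s, t, h, hp⟩)
      · exact h2 a b c0 a h List.mem_cons_self
      · exact hnd'.1 h
      · exact h2 s t h.cons a hp List.mem_cons_self
    · intro p hp q hq hpq
      subst hpq
      rw [mem_insl] at hq
      rcases hq with h | ⟨s, t, h, hq⟩
      · exact h2 a b c0 p hp (List.mem_cons_of_mem _ h)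
      · rcases h3 p a b s t c0 h.cons hp hq with ⟨e, _⟩ | ⟨e, _⟩
        · exact hnd'.1 (e ▸ h.mem.1)
        · exact hnd'.1 (e ▸ h.mem.2)

/-- In a chain without further relations the related members are consecutive or the two ends. -/
theorem consec_or_ends {R : α → α → Prop} {l : List α} (hnd : l.Nodup) (hch : l.IsChain R)
    (hsym : ∀ x y, R x y → R y x)
    (hdeg : ∀ x ∈ l, ∀ a ∈ l, ∀ b ∈ l, ∀ c ∈ l, a ≠ x → b ≠ x → c ≠ x → R x a → R x b → R x c →
      a = b ∨ a = c ∨ b = c) {i j : ℕ} (hi : i < l.length) (hj : j < l.length) (hij : i < j)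
    (hR : R l[i] l[j]) : j = i + 1 ∨ (i = 0 ∧ j + 1 = l.length ∧ 3 ≤ l.length) := by
  have hne : ∀ {m n : ℕ} (hm : m < l.length) (hn : n < l.length), m ≠ n → l[m] ≠ l[n] :=
    fun hm hn h e => h (hnd.getElem_inj_iff.mp e)
  by_contra hcon
  push Not at hcon
  obtain ⟨h1, h2⟩ := hcon
  have hi1 : i + 1 < l.length := by omega
  have r1 : R l[i] l[i + 1] := hch.getElem i hi1
  by_cases h0 : i = 0
  · have h3 := h2 h0
    have hj1 : j + 1 < l.length := by
      by_contra hh
      have : j + 1 = l.length := by omega
      have := h3 this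
      omega
    have r2 : R l[j] l[j + 1] := hch.getElem j hj1
    have hjm : j - 1 + 1 < l.length := by omega
    have r3 : R l[j - 1] l[j - 1 + 1] := hch.getElem (j - 1) hjm
    have e : j - 1 + 1 = j := by omega
    have r3' : R l[j] l[j - 1] := by
      apply hsym
      have e2 : l[j - 1 + 1] = l[j] := by congr 1
      rw [e2] at r3
      exact r3
    rcases hdeg l[j] (List.getElem_mem hj) l[i] (List.getElem_mem hi) l[j + 1]
      (List.getElem_mem hj1) l[j - 1] (List.getElem_mem (by omega)) (hne hi hj (by omega))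
      (hne hj1 hj (by omega)) (hne (by omega) hj (by omega)) (hsym _ _ hR) r2 r3' with h | h | h
    · exact hne hi hj1 (by omega) h
    · exact hne hi (by omega) (by omega) h
    · exact hne hj1 (by omega) (by omega) h
  · have him : i - 1 + 1 < l.length := by omega
    have r3 : R l[i - 1] l[i - 1 + 1] := hch.getElem (i - 1) him
    have r3' : R l[i] l[i - 1] := by
      apply hsym
      have e : i - 1 + 1 = i := by omega
      have e2 : l[i - 1 + 1] = l[i] := by congr 1
      rw [e2] at r3
      exact r3
    rcases hdeg l[i] (List.getElem_mem hi) l[j] (List.getElem_mem hj) l[i + 1]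
      (List.getElem_mem hi1) l[i - 1] (List.getElem_mem (by omega)) (hne hj hi (by omega))
      (hne hi1 hi (by omega)) (hne (by omega) hi (by omega)) hR r1 r3' with h | h | h
    · exact hne hj hi1 (by omega) h
    · exact hne hj (by omega) (by omega) h
    · exact hne hi1 (by omega) (by omega) h

theorem consec_of_getElem {l : List α} {i : ℕ} (h : i + 1 < l.length) :
    Consec l[i] l[i + 1] l := by
  refine ⟨l.take i, l.drop (i + 2), ?_⟩
  conv_lhs => rw [← List.take_append_drop i l]
  congr 1
  rw [List.drop_eq_getElem_cons (by omega), List.drop_eq_getElem_cons h]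

theorem Consec.getElem {s t : α} {l : List α} (h : Consec s t l) :
    ∃ (i : ℕ) (hi : i + 1 < l.length), l[i] = s ∧ l[i + 1] = t := by
  obtain ⟨l1, l2, rfl⟩ := h
  refine ⟨l1.length, by simp, ?_, ?_⟩
  · simp
  · simp

end

end Run7.h169
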