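import Pool.Agent.Run7.h169.Iv4

set_option autoImplicit false
open scoped Classical Topology
open Filter

namespace Run7.h169

theorem hasHamTet_of_flist {S : Finset E3} {F : List (Finset E3)} (hnd : F.Nodup)
    (h1 : ∀ t ∈ F, t ⊆ S ∧ t.card = 4 ∧ AffineIndependent ℝ (fun x : t => (x.1 : E3)))
    (h2 : (⋃ t ∈ F.toFinset, convexHull ℝ (t : Set E3)) = convexHull ℝ (S : Set E3))
    (h3 : ∀ t ∈ F, ∀ u ∈ F, convexHull ℝ (t : Set E3) ∩ convexHull ℝ (u : Set E3) =
      convexHull ℝ ((t ∩ u : Finset E3) : Set E3))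
    (hch : F.IsChain (fun t u => (t ∩ u).card = 3)) : HasHamTet S := by
  refine ⟨F.toFinset, fun t ht => h1 t (List.mem_toFinset.mp ht), h2,
    fun t ht u hu => h3 t (List.mem_toFinset.mp ht) u (List.mem_toFinset.mp hu),
    fun i => F.getD i ∅, ?_, ?_, ?_⟩
  · intro i hi
    rw [List.toFinset_card_of_nodup hnd] at hi
    beta_reduce
    rw [List.getD_eq_getElem _ _ hi, List.mem_toFinset]
    exact List.getElem_mem hi
  · intro i hi j hj heq
    rw [List.toFinset_card_of_nodup hnd] at hi hj
    beta_reduce at heq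
    rw [List.getD_eq_getElem _ _ hi, List.getD_eq_getElem _ _ hj] at heq
    exact (hnd.getElem_inj_iff).mp heq
  · intro i hi
    rw [List.toFinset_card_of_nodup hnd] at hi
    beta_reduce
    rw [List.getD_eq_getElem _ _ (by omega), List.getD_eq_getElem _ _ hi]
    exact hch.getElem i hi

section

variable {W : Finset E3} {B : Finset (Finset E3)} {χ : E3 → Bool}

/-- Two tetrahedra over triangles of a fan meet in a common face. -/
theorem Fan.inter_apex (hF : Fan W B) {σ σ' : Finset E3} (hσ : σ ∈ B) (hσ' : σ' ∈ B) :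
    convexHull ℝ ((insert 0 σ : Finset E3) : Set E3) ∩
      convexHull ℝ ((insert 0 σ' : Finset E3) : Set E3) =
    convexHull ℝ (((insert 0 σ) ∩ (insert 0 σ') : Finset E3) : Set E3) := by
  have h0 : (0 : E3) ∉ σ := nice_zero_notMem (hF.nice σ hσ)
  have h0' : (0 : E3) ∉ σ' := nice_zero_notMem (hF.nice σ' hσ')
  have hint : (insert (0 : E3) σ) ∩ (insert (0 : E3) σ') = insert 0 (σ ∩ σ') := by
    ext z
    simp only [Finset.mem_inter, Finset.mem_insert]
    tauto
  rw [hint]
  apply Set.Subset.antisymm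
  · rintro y ⟨hy1, hy2⟩
    rw [hull_iff h0] at hy1
    rw [hull_iff h0'] at hy2
    obtain ⟨c, c1, c2, c3⟩ := hy1
    obtain ⟨d, d1, d2, d3⟩ := hy2
    obtain ⟨e, e1, e2⟩ := hF.inter σ hσ σ' hσ' y ⟨c, c1, c3⟩ ⟨d, d1, d3⟩
    rw [hull_iff (fun h => h0 (Finset.mem_inter.mp h).1)]
    refine ⟨e, e1, ?_, e2⟩
    have k1 : gfun σ (fun _ => 1) y = ∑ t ∈ σ, c t := by
      rw [← c3, gfun_sum]
      apply Finset.sum_congr rfl
      intro t ht
      rw [gfun_mem (hF.nice σ hσ) _ ht, mul_one]
    have k2 : gfun σ (fun _ => 1) y = ∑ t ∈ σ ∩ σ', e t := by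
      rw [← e2, gfun_sum]
      apply Finset.sum_congr rfl
      intro t ht
      rw [gfun_mem (hF.nice σ hσ) _ (Finset.mem_inter.mp ht).1, mul_one]
    rw [← k2, k1]
    exact c2
  · apply Set.subset_inter
    · exact convexHull_mono (Finset.coe_subset.mpr
        (Finset.insert_subset_insert _ Finset.inter_subset_left))
    · exact convexHull_mono (Finset.coe_subset.mpr
        (Finset.insert_subset_insert _ Finset.inter_subset_right))

theorem badj_deg (hF : Fan W B) (hm : ∀ τ ∈ B, ¬ Mono χ τ) : ∀ τ ∈ B, ∀ a ∈ B, ∀ b ∈ B,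
    ∀ c ∈ B, a ≠ τ → b ≠ τ → c ≠ τ → BAdj χ τ a → BAdj χ τ b → BAdj χ τ c →
    a = b ∨ a = c ∨ b = c := by
  intro τ hτ a ha b hb c hc hane hbne hcne hRa hRb hRc
  obtain ⟨p, q, r, rfl, hpq, hpr, hqr, cpq, cr⟩ := nonmono_form (hF.nice τ hτ).1 (hm τ hτ)
  have split : ∀ σ, BAdj χ {p, q, r} σ → (p ∈ σ ∧ r ∈ σ) ∨ (q ∈ σ ∧ r ∈ σ) := by
    rintro σ ⟨x, y, h1, h2, h3, h4, h5⟩
    simp only [Finset.mem_insert, Finset.mem_singleton] at h1 h3
    rcases h1 with rfl | rfl | rfl
    · rcases h3 with rfl | rfl | rfl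
      · exact absurd rfl h5
      · exact absurd cpq h5
      · left; exact ⟨h2, h4⟩
    · rcases h3 with rfl | rfl | rfl
      · exact absurd cpq.symm h5
      · exact absurd rfl h5
      · right; exact ⟨h2, h4⟩
    · rcases h3 with rfl | rfl | rfl
      · left; exact ⟨h4, h2⟩
      · right; exact ⟨h4, h2⟩
      · exact absurd rfl h5
  have uniq : ∀ x y : E3, x ∈ ({p, q, r} : Finset E3) → y ∈ ({p, q, r} : Finset E3) → x ≠ y →
      ∀ σ ∈ B, ∀ σ' ∈ B, σ ≠ {p, q, r} → σ' ≠ {p, q, r} → (x ∈ σ ∧ y ∈ σ) →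
      (x ∈ σ' ∧ y ∈ σ') → σ = σ' := by
    intro x y hx hy hxy σ hσ σ' hσ' hne hne' h1 h2
    by_contra hcon
    have hle := hF.cnt_le hxy
    have h3 : ({({p, q, r} : Finset E3), σ, σ'} : Finset (Finset E3)) ⊆
        B.filter (fun τ => x ∈ τ ∧ y ∈ τ) := by
      intro ρ hρ
      simp only [Finset.mem_insert, Finset.mem_singleton] at hρ
      rw [Finset.mem_filter]
      rcases hρ with rfl | rfl | rfl
      · exact ⟨hτ, hx, hy⟩
      · exact ⟨hσ, h1⟩
      · exact ⟨hσ', h2⟩
    have h4 := Finset.card_le_card h3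
    have h5 : ({({p, q, r} : Finset E3), σ, σ'} : Finset (Finset E3)).card = 3 :=
      Finset.card_eq_three.mpr ⟨_, _, _, Ne.symm hne, Ne.symm hne', hcon, rfl⟩
    rw [h5] at h4
    have h6 : cnt B x y = (B.filter (fun τ => x ∈ τ ∧ y ∈ τ)).card := rfl
    omega
  have up := uniq p r (by simp) (by simp) hpr
  have uq := uniq q r (by simp) (by simp) hqr
  rcases split a hRa with ha' | ha' <;> rcases split b hRb with hb' | hb' <;>
    rcases split c hRc with hc' | hc'
  · left; exact up a ha b hb hane hbne ha' hb'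
  · left; exact up a ha b hb hane hbne ha' hb'
  · right; left; exact up a ha c hc hane hcne ha' hc'
  · right; right; exact uq b hb c hc hbne hcne hb' hc'
  · right; right; exact up b hb c hc hbne hcne hb' hc'
  · right; left; exact uq a ha c hc hane hcne ha' hc'
  · left; exact uq a ha b hb hane hbne ha' hb'
  · left; exact uq a ha b hb hane hbne ha' hb'

theorem exists_ham_fan' (hC : Cfg W) (hχ : Col W χ) :
    ∃ B, Fan W B ∧ (∀ τ ∈ B, ¬ Mono χ τ) ∧
      ∃ L : List (Finset E3), L.Nodup ∧ L.toFinset = B ∧ L.IsChain (BAdj χ) := by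
  obtain ⟨B, hF, hm, hcl⟩ := exists_fan_connected hC hχ
  refine ⟨B, hF, hm, ?_⟩
  apply ham_list B (BAdj χ) (fun _ _ h => h.symm) (badj_deg hF hm)
  · intro K hKB hKc
    exact hcl K ⟨hKB, hKc⟩
  · obtain ⟨x, hx, _⟩ := hχ.two
    obtain ⟨τ, hτ, _⟩ := hF.exists_mem hC hx
    exact ⟨τ, hτ⟩

end

theorem insl_last {α : Type*} (g : α → α → List α) (a : α) : ∀ l : List α,
    ∃ r, insl g (l ++ [a]) = r ++ [a]
  | [] => ⟨[], rfl⟩
  | [b] => ⟨b :: g b a, by simp [insl]⟩
  | b :: c :: l => by
    obtain ⟨r, hr⟩ := insl_last g a (c :: l)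
    refine ⟨b :: (g b c ++ r), ?_⟩
    have : b :: c :: l ++ [a] = b :: c :: (l ++ [a]) := rfl
    rw [this, insl]
    have h2 : c :: (l ++ [a]) = (c :: l) ++ [a] := rfl
    rw [h2, hr]
    simp

section

variable {W W' J : Finset E3} {B : Finset (Finset E3)} {χ : E3 → Bool}

/-- Insertion of vertices of degree four into a tetrahedralization seen from an apex. -/
theorem hasHamTet_of_pairs (hC : Cfg W) (hW : W = W' ∪ J) (hF : Fan W' B)
    (hm : ∀ τ ∈ B, ¬ Mono χ τ) {L : List (Finset E3)} (hnd : L.Nodup) (hL : L.toFinset = B)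
    (hch : L.IsChain (BAdj χ))
    (hP : ∀ x ∈ J, ∃ M u v w t, Pair W W' B x M u v w t ∧ χ u ≠ χ v) :
    HasHamTet (insert 0 W) := by
  have hsub : W' ⊆ W := by rw [hW]; exact Finset.subset_union_left
  have hP' : ∀ x : E3, ∃ (M : Finset E3) (u v w t : E3), x ∈ J →
      Pair W W' B x M u v w t ∧ χ u ≠ χ v := by
    intro x
    by_cases hx : x ∈ J
    · obtain ⟨M, u, v, w, t, h⟩ := hP x hx
      exact ⟨M, u, v, w, t, fun _ => h⟩
    · exact ⟨∅, 0, 0, 0, 0, fun h => absurd h hx⟩
  choose M u v w t hQ using hP'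
  have h0W : (0 : E3) ∉ W := hC.zero_notMem
  have h0 : ∀ τ ∈ B, (0 : E3) ∉ τ := fun τ hτ => nice_zero_notMem (hF.nice τ hτ)
  have hJ0 : ∀ x ∈ J, x ≠ 0 := fun x hx hh => h0W (hh ▸ (hQ x hx).1.apx.xW)
  set τ0 : E3 → Finset E3 := fun x => {u x, v x, w x} with hτ0
  set τ1 : E3 → Finset E3 := fun x => {u x, v x, t x} with hτ1
  have m0 : ∀ x ∈ J, τ0 x ∈ B := fun x hx => (hQ x hx).1.m1
  have m1 : ∀ x ∈ J, τ1 x ∈ B := fun x hx => (hQ x hx).1.m2
  have n01 : ∀ x ∈ J, τ0 x ≠ τ1 x := by
    intro x hx he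
    have h1 : w x ∈ τ1 x := by rw [← he, hτ0]; simp
    obtain ⟨d1, d2, d3, d4, d5⟩ := (hQ x hx).1.dist hF
    rw [hτ1] at h1
    simp only [Finset.mem_insert, Finset.mem_singleton] at h1
    rcases h1 with h1 | h1 | h1
    · exact d2 h1.symm
    · exact d3 h1.symm
    · exact (hQ x hx).1.wt h1
  -- a triangle is visible from at most one inserted vertex
  have vuniq : ∀ σ ∈ B, ∀ x ∈ J, ∀ y ∈ J, 1 < gfun σ (fun _ => 1) x →
      1 < gfun σ (fun _ => 1) y → x = y := by
    intro σ hσ x hx y hy hvx hvy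
    by_contra hne
    have hlt := (hQ x hx).1.apx.vis (hF.supp σ hσ) hvx (hQ y hy).1.apx.xW (Ne.symm hne) (by
      intro hmem
      have := (hQ x hx).1.apx.low _ hmem
      rw [sub_add_cancel] at this
      exact (hQ y hy).1.apx.xW' this)
    linarith
  have v0 : ∀ x ∈ J, 1 < gfun (τ0 x) (fun _ => 1) x := fun x hx => (hQ x hx).1.v1
  have v1 : ∀ x ∈ J, 1 < gfun (τ1 x) (fun _ => 1) x := fun x hx => (hQ x hx).1.v2
  have inj0 : ∀ σ ∈ B, ∀ σ' ∈ B, (insert 0 σ : Finset E3) = insert 0 σ' → σ = σ' := by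
    intro σ hσ σ' hσ' heq
    have h3 : (insert (0 : E3) σ).erase 0 = (insert (0 : E3) σ').erase 0 := by rw [heq]
    rwa [Finset.erase_insert (h0 σ hσ), Finset.erase_insert (h0 σ' hσ')] at h3
  -- the inserted lists
  set C : Finset E3 → Finset E3 → E3 → Prop := fun s t x =>
    x ∈ J ∧ s = insert 0 (τ0 x) ∧ t = insert 0 (τ1 x) with hCdef
  set g : Finset E3 → Finset E3 → List (Finset E3) := fun s t =>
    if h : ∃ x, C s t x then [insert h.choose (τ0 h.choose), insert h.choose (τ1 h.choose)]
    else if h : ∃ x, C t s x then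
      [insert h.choose (τ1 h.choose), insert h.choose (τ0 h.choose)] else [] with hg
  have gcases : ∀ s t, (∃ x, C s t x ∧ g s t = [insert x (τ0 x), insert x (τ1 x)]) ∨
      (∃ x, C t s x ∧ g s t = [insert x (τ1 x), insert x (τ0 x)]) ∨ g s t = [] := by
    intro s t
    by_cases h : ∃ x, C s t x
    · left
      refine ⟨h.choose, h.choose_spec, ?_⟩
      rw [hg]; beta_reduce; rw [dif_pos h]
    · by_cases h' : ∃ x, C t s x
      · right; left
        refine ⟨h'.choose, h'.choose_spec, ?_⟩
        rw [hg]; beta_reduce; rw [dif_neg h, dif_pos h']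
      · right; right
        rw [hg]; beta_reduce; rw [dif_neg h, dif_neg h']
  have Cuniq : ∀ s t x y, C s t x → C s t y → x = y := by
    rintro s t x y ⟨hx, e1, _⟩ ⟨hy, f1, _⟩
    have := inj0 _ (m0 x hx) _ (m0 y hy) (e1.symm.trans f1)
    exact vuniq _ (m0 x hx) x hx y hy (v0 x hx) (by rw [this]; exact v0 y hy)
  have Cboth : ∀ s t x y, C s t x → C t s y → False := by
    rintro s t x y ⟨hx, e1, e2⟩ ⟨hy, f1, f2⟩
    have g1 := inj0 _ (m0 x hx) _ (m1 y hy) (e1.symm.trans f2)
    have hxy : x = y := vuniq _ (m0 x hx) x hx y hy (v0 x hx) (by rw [g1]; exact v1 y hy)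
    subst hxy
    exact n01 x hx g1
  have gpos : ∀ s t x, C s t x → g s t = [insert x (τ0 x), insert x (τ1 x)] := by
    intro s t x h
    rcases gcases s t with ⟨y, h1, h2⟩ | ⟨y, h1, h2⟩ | h2
    · rw [Cuniq s t x y h h1]; exact h2
    · exact absurd h1 (Cboth s t x y h)
    · exfalso
      have : ∃ x, C s t x := ⟨x, h⟩
      rw [hg] at h2; beta_reduce at h2; rw [dif_pos this] at h2
      simp at h2
  have gneg : ∀ s t x, C t s x → g s t = [insert x (τ1 x), insert x (τ0 x)] := by
    intro s t x h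
    rcases gcases s t with ⟨y, h1, h2⟩ | ⟨y, h1, h2⟩ | h2
    · exact absurd h (Cboth s t y x h1)
    · rw [Cuniq t s x y h h1]; exact h2
    · exfalso
      have h3 : ¬ ∃ x, C s t x := fun ⟨y, hy⟩ => Cboth s t y x hy h
      have h4 : ∃ x, C t s x := ⟨x, h⟩
      rw [hg] at h2; beta_reduce at h2; rw [dif_neg h3, dif_pos h4] at h2
      simp at h2
  -- members of the inserted lists
  have gmem : ∀ s t p, p ∈ g s t → ∃ x, (C s t x ∨ C t s x) ∧
      (p = insert x (τ0 x) ∨ p = insert x (τ1 x)) := by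
    intro s t p hp
    rcases gcases s t with ⟨y, h1, h2⟩ | ⟨y, h1, h2⟩ | h2
    · rw [h2] at hp
      refine ⟨y, Or.inl h1, ?_⟩
      simpa using hp
    · rw [h2] at hp
      refine ⟨y, Or.inr h1, ?_⟩
      have : p = insert y (τ1 y) ∨ p = insert y (τ0 y) := by simpa using hp
      exact this.symm
    · rw [h2] at hp
      simp at hp
  have nt0 : ∀ x ∈ J, x ∉ τ0 x := fun x hx => (hQ x hx).1.apx.notMem_tri hF (m0 x hx)
  have nt1 : ∀ x ∈ J, x ∉ τ1 x := fun x hx => (hQ x hx).1.apx.notMem_tri hF (m1 x hx)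
  have ntB : ∀ x ∈ J, ∀ σ ∈ B, x ∉ σ := fun x hx σ hσ => (hQ x hx).1.apx.notMem_tri hF hσ
  have capx : ∀ x ∈ J, ∀ y ∈ J, ∀ σ ∈ B, ∀ σ' ∈ B, (insert x σ : Finset E3) = insert y σ' →
      x = y := by
    intro x hx y hy σ hσ σ' hσ' he
    have : x ∈ (insert y σ' : Finset E3) := by rw [← he]; exact Finset.mem_insert_self _ _
    rcases Finset.mem_insert.mp this with h | h
    · exact h
    · exact absurd h (ntB x hx σ' hσ')
  set Lh : List (Finset E3) := L.map (fun τ => insert 0 τ) with hLh
  have hLB : ∀ τ, τ ∈ L ↔ τ ∈ B := fun τ => by rw [← hL, List.mem_toFinset]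
  have memLh : ∀ s, s ∈ Lh ↔ ∃ τ ∈ B, s = insert 0 τ := by
    intro s
    rw [hLh, List.mem_map]
    constructor
    · rintro ⟨τ, h1, h2⟩
      exact ⟨τ, (hLB τ).mp h1, h2.symm⟩
    · rintro ⟨τ, h1, h2⟩
      exact ⟨τ, (hLB τ).mpr h1, h2.symm⟩
  have hndh : Lh.Nodup := by
    rw [hLh]
    exact hnd.map_on (fun σ hσ σ' hσ' he => inj0 σ ((hLB σ).mp hσ) σ' ((hLB σ').mp hσ') he)
  have gnotL : ∀ s t p, p ∈ g s t → p ∉ Lh := by
    intro s t p hp hpL
    obtain ⟨x, hx, hpx⟩ := gmem s t p hp
    obtain ⟨τ, hτ, hpτ⟩ := (memLh p).mp hpL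
    have hxJ : x ∈ J := by rcases hx with h | h <;> exact h.1
    have hz : (0 : E3) ∈ p := by rw [hpτ]; exact Finset.mem_insert_self _ _
    rcases hpx with h | h
    · rw [h] at hz
      rcases Finset.mem_insert.mp hz with h' | h'
      · exact hJ0 x hxJ h'.symm
      · exact h0 _ (m0 x hxJ) h'
    · rw [h] at hz
      rcases Finset.mem_insert.mp hz with h' | h'
      · exact hJ0 x hxJ h'.symm
      · exact h0 _ (m1 x hxJ) h'
  have gpair : ∀ p s t s' t', p ∈ g s t → p ∈ g s' t' →
      (s = s' ∧ t = t') ∨ (s = t' ∧ t = s') := by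
    intro p s t s' t' hp hp'
    obtain ⟨x, hx, hpx⟩ := gmem s t p hp
    obtain ⟨y, hy, hpy⟩ := gmem s' t' p hp'
    have hxJ : x ∈ J := by rcases hx with h | h <;> exact h.1
    have hyJ : y ∈ J := by rcases hy with h | h <;> exact h.1
    have hxy : x = y := by
      rcases hpx with h | h <;> rcases hpy with h' | h'
      · exact capx x hxJ y hyJ _ (m0 x hxJ) _ (m0 y hyJ) (h.symm.trans h')
      · exact capx x hxJ y hyJ _ (m0 x hxJ) _ (m1 y hyJ) (h.symm.trans h')
      · exact capx x hxJ y hyJ _ (m1 x hxJ) _ (m0 y hyJ) (h.symm.trans h')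
      · exact capx x hxJ y hyJ _ (m1 x hxJ) _ (m1 y hyJ) (h.symm.trans h')
    subst hxy
    rcases hx with ⟨_, a1, a2⟩ | ⟨_, a1, a2⟩ <;> rcases hy with ⟨_, b1, b2⟩ | ⟨_, b1, b2⟩
    · exact Or.inl ⟨a1.trans b1.symm, a2.trans b2.symm⟩
    · exact Or.inr ⟨a1.trans b1.symm, a2.trans b2.symm⟩
    · exact Or.inr ⟨a2.trans b2.symm, a1.trans b1.symm⟩
    · exact Or.inl ⟨a2.trans b2.symm, a1.trans b1.symm⟩
  have capne : ∀ x ∈ J, (insert x (τ0 x) : Finset E3) ≠ insert x (τ1 x) := by
    intro x hx he
    have h3 : (insert x (τ0 x) : Finset E3).erase x = (insert x (τ1 x)).erase x := by rw [he]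
    rw [Finset.erase_insert (nt0 x hx), Finset.erase_insert (nt1 x hx)] at h3
    exact n01 x hx h3
  have gnodup : ∀ s t, (g s t).Nodup := by
    intro s t
    rcases gcases s t with ⟨y, h1, h2⟩ | ⟨y, h1, h2⟩ | h2
    · rw [h2]; simpa using capne y h1.1
    · rw [h2]; simpa using (capne y h1.1).symm
    · rw [h2]; exact List.nodup_nil
  -- adjacency of the members
  set R : Finset E3 → Finset E3 → Prop := fun t u => (t ∩ u).card = 3 with hR
  have Rsymm : ∀ t u, R t u → R u t := by
    intro t u h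
    rw [hR] at h ⊢
    beta_reduce at h ⊢
    rw [Finset.inter_comm]; exact h
  have Rbase : ∀ x ∈ J, ∀ τ ∈ B, R (insert 0 τ) (insert x τ) := by
    intro x hx τ hτ
    rw [hR]
    beta_reduce
    have : (insert 0 τ : Finset E3) ∩ insert x τ = τ := by
      ext z
      simp only [Finset.mem_inter, Finset.mem_insert]
      constructor
      · rintro ⟨h1 | h1, h2 | h2⟩
        · exact absurd (h2.symm.trans h1) (hJ0 x hx)
        · exact h2
        · exact h1
        · exact h1
      · intro h; exact ⟨Or.inr h, Or.inr h⟩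
    rw [this, (hF.nice τ hτ).1]
  have Rcap : ∀ x ∈ J, R (insert x (τ0 x)) (insert x (τ1 x)) := by
    intro x hx
    rw [hR]
    beta_reduce
    obtain ⟨d1, d2, d3, d4, d5⟩ := (hQ x hx).1.dist hF
    have hwt := (hQ x hx).1.wt
    have hxu : x ≠ u x := fun hh => nt0 x hx (by rw [hτ0]; beta_reduce; simp [← hh])
    have hxv : x ≠ v x := fun hh => nt0 x hx (by rw [hτ0]; beta_reduce; simp [← hh])
    have : (insert x (τ0 x) : Finset E3) ∩ insert x (τ1 x) = {x, u x, v x} := by
      rw [hτ0, hτ1]
      ext z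
      simp only [Finset.mem_inter, Finset.mem_insert, Finset.mem_singleton]
      constructor
      · rintro ⟨h1 | h1 | h1 | h1, h2⟩
        · exact Or.inl h1
        · exact Or.inr (Or.inl h1)
        · exact Or.inr (Or.inr h1)
        · rcases h2 with h2 | h2 | h2 | h2
          · exact Or.inl h2
          · exact Or.inr (Or.inl h2)
          · exact Or.inr (Or.inr h2)
          · exact absurd (h1.symm.trans h2) hwt
      · rintro (h1 | h1 | h1)
        · exact ⟨Or.inl h1, Or.inl h1⟩
        · exact ⟨Or.inr (Or.inl h1), Or.inr (Or.inl h1)⟩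
        · exact ⟨Or.inr (Or.inr (Or.inl h1)), Or.inr (Or.inr (Or.inl h1))⟩
    rw [this]
    exact Finset.card_eq_three.mpr ⟨_, _, _, hxu, hxv, d1, rfl⟩
  have hchh : Lh.IsChain R := by
    rw [hLh, List.isChain_map]
    rw [List.isChain_iff_getElem] at hch ⊢
    intro i hi
    have hi0 : i < L.length := by omega
    have hadj := hch i hi
    have hi' : L[i] ∈ B := (hLB _).mp (List.getElem_mem hi0)
    have hj' : L[i + 1] ∈ B := (hLB _).mp (List.getElem_mem hi)
    have hne : L[i] ≠ L[i + 1] := by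
      intro h
      have := (hnd.getElem_inj_iff).mp h
      omega
    obtain ⟨a, b, a1, a2, b1, b2, hab⟩ := hadj
    have hab' : a ≠ b := fun h => hab (by rw [h])
    rw [hR]
    beta_reduce
    have hint : (insert (0 : E3) L[i]) ∩ (insert (0 : E3) L[i + 1]) =
        insert 0 (L[i] ∩ L[i + 1]) := by
      ext z
      simp only [Finset.mem_inter, Finset.mem_insert]
      tauto
    rw [hint, Finset.card_insert_of_notMem (fun h => h0 _ hi' (Finset.mem_inter.mp h).1)]
    have h2 : 2 ≤ (L[i] ∩ L[i + 1]).card := by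
      rw [← Finset.card_pair hab']
      apply Finset.card_le_card
      intro z hz
      simp only [Finset.mem_insert, Finset.mem_singleton] at hz
      rcases hz with rfl | rfl
      · exact Finset.mem_inter.mpr ⟨a1, a2⟩
      · exact Finset.mem_inter.mpr ⟨b1, b2⟩
    have h3 : (L[i] ∩ L[i + 1]).card < 3 := by
      have c1 := (hF.nice _ hi').1
      have c2 := (hF.nice _ hj').1
      refine lt_of_lt_of_eq ?_ c1
      apply Finset.card_lt_card
      rw [Finset.ssubset_iff_subset_ne]
      refine ⟨Finset.inter_subset_left, ?_⟩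
      intro h
      apply hne
      rw [Finset.inter_eq_left] at h
      exact Finset.eq_of_subset_of_card_le h (by rw [c1, c2])
    omega
  have gchain : ∀ s t, List.IsChain R (s :: g s t) ∧
      (g s t ≠ [] → List.IsChain R (s :: (g s t ++ [t]))) := by
    intro s t
    rcases gcases s t with ⟨y, ⟨h1, h2, h3⟩, h4⟩ | ⟨y, ⟨h1, h2, h3⟩, h4⟩ | h4
    · have a1 : R s (insert y (τ0 y)) := by rw [h2]; exact Rbase y h1 _ (m0 y h1)
      have a2 := Rcap y h1
      have a3 : R (insert y (τ1 y)) t := by rw [h3]; exact Rsymm _ _ (Rbase y h1 _ (m1 y h1))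
      rw [h4]
      constructor
      · simp [List.isChain_cons_cons, a1, a2]
      · intro _
        simp [List.isChain_cons_cons, a1, a2, a3]
    · have a1 : R s (insert y (τ1 y)) := by rw [h3]; exact Rbase y h1 _ (m1 y h1)
      have a2 := Rsymm _ _ (Rcap y h1)
      have a3 : R (insert y (τ0 y)) t := by rw [h2]; exact Rsymm _ _ (Rbase y h1 _ (m0 y h1))
      rw [h4]
      constructor
      · simp [List.isChain_cons_cons, a1, a2]
      · intro _
        simp [List.isChain_cons_cons, a1, a2, a3]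
    · rw [h4]
      exact ⟨List.IsChain.singleton s, fun h => absurd rfl h⟩
  have hcons : ∀ s t, Consec s t Lh → List.IsChain R (s :: (g s t ++ [t])) := by
    intro s t hst
    by_cases h : g s t = []
    · rw [h]
      obtain ⟨i, hi, e1, e2⟩ := hst.getElem
      have := hchh.getElem i hi
      rw [e1, e2] at this
      simp [List.isChain_cons_cons, this]
    · exact (gchain s t).2 h
  -- the list of all tetrahedra
  set tl : List (Finset E3) := if h : 3 ≤ Lh.length then
    g (Lh[Lh.length - 1]'(by omega)) (Lh[0]'(by omega)) else [] with htl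
  set F : List (Finset E3) := insl g Lh ++ tl with hFd
  have tlmem : ∀ p ∈ tl, ∃ (h : 3 ≤ Lh.length),
      p ∈ g (Lh[Lh.length - 1]'(by omega)) (Lh[0]'(by omega)) := by
    intro p hp
    by_cases h : 3 ≤ Lh.length
    · rw [htl, dif_pos h] at hp
      exact ⟨h, hp⟩
    · rw [htl, dif_neg h] at hp
      simp at hp
  have hFnd : F.Nodup := by
    rw [hFd, List.nodup_append]
    refine ⟨insl_nodup Lh hndh (fun s t _ => gnodup s t) (fun s t _ p hp => gnotL s t p hp)
      (fun p s t s' t' _ _ hp hp' => gpair p s t s' t' hp hp'), ?_, ?_⟩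
    · by_cases h : 3 ≤ Lh.length
      · rw [htl, dif_pos h]; exact gnodup _ _
      · rw [htl, dif_neg h]; exact List.nodup_nil
    · intro p hp q hq hpq
      subst hpq
      obtain ⟨h, hq'⟩ := tlmem p hq
      rcases (mem_insl Lh).mp hp with h1 | ⟨s, t, hst, h1⟩
      · exact gnotL _ _ p hq' h1
      · obtain ⟨i, hi, e1, e2⟩ := hst.getElem
        rcases gpair p _ _ _ _ h1 hq' with ⟨f1, f2⟩ | ⟨f1, f2⟩
        · have k1 := hndh.getElem_inj_iff.mp (e1.trans f1)
          have k2 := hndh.getElem_inj_iff.mp (e2.trans f2)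
          omega
        · have k1 := hndh.getElem_inj_iff.mp (e1.trans f1)
          have k2 := hndh.getElem_inj_iff.mp (e2.trans f2)
          omega
  have hFch : F.IsChain R := by
    have h1 := insl_chain Lh hcons
    by_cases h : 3 ≤ Lh.length
    · have hne : Lh ≠ [] := by
        intro hh
        rw [hh] at h
        simp at h
      have h2 : Lh.dropLast ++ [Lh.getLast hne] = Lh := List.dropLast_append_getLast hne
      obtain ⟨r, hr⟩ := insl_last g (Lh.getLast hne) Lh.dropLast
      rw [h2] at hr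
      rw [hFd, hr, List.append_assoc, List.singleton_append, List.isChain_split]
      rw [hr] at h1
      refine ⟨h1, ?_⟩
      rw [htl, dif_pos h, List.getLast_eq_getElem]
      exact (gchain _ _).1
    · rw [hFd, htl, dif_neg h, List.append_nil]
      exact h1
  have hmemF : ∀ p, p ∈ F ↔ (∃ τ ∈ B, p = insert 0 τ) ∨
      (∃ x ∈ J, p = insert x (τ0 x) ∨ p = insert x (τ1 x)) := by
    intro p
    constructor
    · intro hp
      rcases List.mem_append.mp hp with h1 | h1
      · rcases (mem_insl Lh).mp h1 with h2 | ⟨s, t, _, h2⟩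
        · exact Or.inl ((memLh p).mp h2)
        · obtain ⟨x, hx, hpx⟩ := gmem s t p h2
          have hxJ : x ∈ J := by rcases hx with h | h <;> exact h.1
          exact Or.inr ⟨x, hxJ, hpx⟩
      · obtain ⟨h, h2⟩ := tlmem p h1
        obtain ⟨x, hx, hpx⟩ := gmem _ _ p h2
        have hxJ : x ∈ J := by rcases hx with h | h <;> exact h.1
        exact Or.inr ⟨x, hxJ, hpx⟩
    · rintro (h1 | ⟨x, hx, h1⟩)
      · exact List.mem_append.mpr (Or.inl ((mem_insl Lh).mpr (Or.inl ((memLh p).mpr h1))))
      · -- the two triangles of `x` are related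
        obtain ⟨i, hi, ei⟩ := List.getElem_of_mem ((hLB _).mpr (m0 x hx))
        obtain ⟨j, hj, ej⟩ := List.getElem_of_mem ((hLB _).mpr (m1 x hx))
        have hij : i ≠ j := by
          rintro rfl
          exact n01 x hx (ei.symm.trans ej)
        have hadj : BAdj χ (τ0 x) (τ1 x) := by
          refine ⟨u x, v x, ?_, ?_, ?_, ?_, (hQ x hx).2⟩
          · rw [hτ0]; simp
          · rw [hτ1]; simp
          · rw [hτ0]; simp
          · rw [hτ1]; simp
        have hdeg := badj_deg hF hm
        have hdeg' : ∀ y ∈ L, ∀ a ∈ L, ∀ b ∈ L, ∀ c ∈ L, a ≠ y → b ≠ y → c ≠ y →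
            BAdj χ y a → BAdj χ y b → BAdj χ y c → a = b ∨ a = c ∨ b = c :=
          fun y hy a ha b hb c hc => hdeg y ((hLB y).mp hy) a ((hLB a).mp ha) b
            ((hLB b).mp hb) c ((hLB c).mp hc)
        have hlen : Lh.length = L.length := by rw [hLh, List.length_map]
        have getLh : ∀ (k : ℕ) (hk : k < L.length), Lh[k]'(by omega) = insert 0 L[k] := by
          intro k hk
          simp [hLh]
        have inG : ∀ s t, (C s t x ∨ C t s x) → p ∈ g s t := by
          rintro s t (h | h)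
          · rw [gpos s t x h]
            rcases h1 with h1 | h1 <;> simp [h1]
          · rw [gneg s t x h]
            rcases h1 with h1 | h1 <;> simp [h1]
        rcases lt_or_gt_of_ne hij with hlt | hlt
        · rcases consec_or_ends hnd hch (fun _ _ h => h.symm) hdeg' hi hj hlt
            (by rw [ei, ej]; exact hadj) with h2 | ⟨h2, h3, h4⟩
          · apply List.mem_append.mpr
            left
            apply (mem_insl Lh).mpr
            right
            subst h2
            have hc := consec_of_getElem (l := Lh) (i := i) (by omega)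
            refine ⟨_, _, hc, inG _ _ (Or.inl ⟨hx, ?_, ?_⟩)⟩
            · rw [getLh i hi, ei]
            · rw [getLh (i + 1) hj, ej]
          · apply List.mem_append.mpr
            right
            subst h2
            rw [htl, dif_pos (by omega)]
            apply inG
            right
            refine ⟨hx, ?_, ?_⟩
            · rw [getLh 0 hi, ei]
            · have e : Lh.length - 1 = j := by omega
              have e2 : Lh[Lh.length - 1]'(by omega) = Lh[j]'(by omega) := by congr 1
              rw [e2, getLh j hj, ej]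
        · rcases consec_or_ends hnd hch (fun _ _ h => h.symm) hdeg' hj hi hlt
            (by rw [ei, ej]; exact hadj.symm) with h2 | ⟨h2, h3, h4⟩
          · apply List.mem_append.mpr
            left
            apply (mem_insl Lh).mpr
            right
            subst h2
            have hc := consec_of_getElem (l := Lh) (i := j) (by omega)
            refine ⟨_, _, hc, inG _ _ (Or.inr ⟨hx, ?_, ?_⟩)⟩
            · rw [getLh (j + 1) hi, ei]
            · rw [getLh j hj, ej]
          · apply List.mem_append.mpr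
            right
            subst h2
            rw [htl, dif_pos (by omega)]
            apply inG
            left
            refine ⟨hx, ?_, ?_⟩
            · have e : Lh.length - 1 = i := by omega
              have e2 : Lh[Lh.length - 1]'(by omega) = Lh[i]'(by omega) := by congr 1
              rw [e2, getLh i hi, ei]
            · rw [getLh 0 hj, ej]
  -- the tetrahedralization
  refine hasHamTet_of_flist hFnd ?_ ?_ ?_ hFch
  · intro p hp
    rcases (hmemF p).mp hp with ⟨τ, hτ, rfl⟩ | ⟨x, hx, rfl | rfl⟩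
    · refine ⟨Finset.insert_subset_insert _ ((hF.sub τ hτ).trans hsub), ?_,
        affineIndependent_insert_zero (hF.nice τ hτ)⟩
      rw [Finset.card_insert_of_notMem (h0 τ hτ), (hF.nice τ hτ).1]
    · refine ⟨?_, ?_, affineIndependent_cap (hF.nice _ (m0 x hx)) (nt0 x hx) (v0 x hx).ne'⟩
      · apply Finset.insert_subset
        · exact Finset.mem_insert_of_mem (hQ x hx).1.apx.xW
        · exact ((hF.sub _ (m0 x hx)).trans hsub).trans (Finset.subset_insert _ _)
      · rw [Finset.card_insert_of_notMem (nt0 x hx), (hF.nice _ (m0 x hx)).1]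
    · refine ⟨?_, ?_, affineIndependent_cap (hF.nice _ (m1 x hx)) (nt1 x hx) (v1 x hx).ne'⟩
      · apply Finset.insert_subset
        · exact Finset.mem_insert_of_mem (hQ x hx).1.apx.xW
        · exact ((hF.sub _ (m1 x hx)).trans hsub).trans (Finset.subset_insert _ _)
      · rw [Finset.card_insert_of_notMem (nt1 x hx), (hF.nice _ (m1 x hx)).1]
  · apply Set.Subset.antisymm
    · apply Set.iUnion₂_subset
      intro p hp
      rw [List.mem_toFinset] at hp
      apply convexHull_mono
      apply Finset.coe_subset.mpr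
      rcases (hmemF p).mp hp with ⟨τ, hτ, rfl⟩ | ⟨x, hx, rfl | rfl⟩
      · exact Finset.insert_subset_insert _ ((hF.sub τ hτ).trans hsub)
      · apply Finset.insert_subset
        · exact Finset.mem_insert_of_mem (hQ x hx).1.apx.xW
        · exact ((hF.sub _ (m0 x hx)).trans hsub).trans (Finset.subset_insert _ _)
      · apply Finset.insert_subset
        · exact Finset.mem_insert_of_mem (hQ x hx).1.apx.xW
        · exact ((hF.sub _ (m1 x hx)).trans hsub).trans (Finset.subset_insert _ _)
    · intro y hy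
      rw [Set.mem_iUnion₂]
      rw [hull_iff h0W] at hy
      obtain ⟨c, c1, c2, c3⟩ := hy
      have hyW' : y ∈ cone W' := by
        refine cone_trans (W := W) ?_ ⟨c, c1, c3⟩
        intro p hp
        rw [hW] at hp
        rcases Finset.mem_union.mp hp with h | h
        · exact mem_cone_self h
        · exact (hQ p h).1.apx.mem_cone
      obtain ⟨σ, hσ, hyσ⟩ := hF.cover y hyW'
      by_cases hle : gfun σ (fun _ => 1) y ≤ 1
      · refine ⟨insert 0 σ, List.mem_toFinset.mpr ((hmemF _).mpr (Or.inl ⟨σ, hσ, rfl⟩)), ?_⟩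
        rw [hull_iff (h0 σ hσ)]
        have hcr := (mem_cone_iff_crd (hF.nice σ hσ)).mp hyσ
        refine ⟨fun p => crd σ p y, hcr, ?_, crd_sum (hF.nice σ hσ) y⟩
        rw [gfun_apply] at hle
        simpa using hle
      · push Not at hle
        obtain ⟨x, hxW, hx1⟩ : ∃ x ∈ W, 1 < gfun σ (fun _ => 1) x := by
          by_contra hcon
          push Not at hcon
          have : gfun σ (fun _ => 1) y ≤ 1 := by
            rw [← c3, gfun_sum]
            calc ∑ p ∈ W, c p * gfun σ (fun _ => 1) p ≤ ∑ p ∈ W, c p * 1 := by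
                  apply Finset.sum_le_sum
                  intro p hp
                  exact mul_le_mul_of_nonneg_left (hcon p hp) (c1 p hp)
              _ ≤ 1 := by simpa using c2
          linarith
        have hxJ : x ∈ J := by
          rw [hW] at hxW
          rcases Finset.mem_union.mp hxW with h | h
          · exfalso
            have := hF.supp σ hσ x h
            linarith
          · exact h
        have hyM : y - x ∈ cone (M x) := by
          have e : y - x = ∑ p ∈ W, c p • (p - x) + (1 - ∑ p ∈ W, c p) • (-x) := by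
            simp only [smul_sub]
            rw [Finset.sum_sub_distrib, c3, ← Finset.sum_smul, sub_smul, one_smul, smul_neg]
            abel
          rw [e]
          apply cone_add
          · apply cone_lin c1
            intro p hp
            by_cases hpx : p = x
            · rw [hpx, sub_self]; exact zero_mem_cone
            · exact (hQ x hxJ).1.apx.gen p hp hpx
          · exact cone_smul (by linarith) (hQ x hxJ).1.apx.gen0
        rcases (hQ x hxJ).1.cover hsub hF hyM hσ hx1 hle with h | h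
        · exact ⟨insert x (τ0 x), List.mem_toFinset.mpr ((hmemF _).mpr
            (Or.inr ⟨x, hxJ, Or.inl rfl⟩)), h⟩
        · exact ⟨insert x (τ1 x), List.mem_toFinset.mpr ((hmemF _).mpr
            (Or.inr ⟨x, hxJ, Or.inr rfl⟩)), h⟩
  · -- pairs of tetrahedra
    have base : ∀ x ∈ J, ∀ τ ∈ B, 1 < gfun τ (fun _ => 1) x → ∀ σ ∈ B,
        convexHull ℝ ((insert x τ : Finset E3) : Set E3) ∩
          convexHull ℝ ((insert 0 σ : Finset E3) : Set E3) =
        convexHull ℝ (((insert x τ) ∩ (insert 0 σ) : Finset E3) : Set E3) := by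
      intro x hx τ hτ hv σ hσ
      rw [Set.inter_comm, Finset.inter_comm]
      exact (hQ x hx).1.apx.inter_base hF hσ hτ hv
    intro p hp q hq
    rcases (hmemF p).mp hp with ⟨τ, hτ, rfl⟩ | ⟨x, hx, hpx⟩
    · rcases (hmemF q).mp hq with ⟨σ, hσ, rfl⟩ | ⟨y, hy, rfl | rfl⟩
      · exact hF.inter_apex hτ hσ
      · exact (hQ y hy).1.apx.inter_base hF hτ (m0 y hy) (v0 y hy)
      · exact (hQ y hy).1.apx.inter_base hF hτ (m1 y hy) (v1 y hy)
    · rcases (hmemF q).mp hq with ⟨σ, hσ, rfl⟩ | ⟨y, hy, hqy⟩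
      · rcases hpx with rfl | rfl
        · exact base x hx _ (m0 x hx) (v0 x hx) σ hσ
        · exact base x hx _ (m1 x hx) (v1 x hx) σ hσ
      · by_cases hxy : y = x
        · subst hxy
          rcases hpx with rfl | rfl <;> rcases hqy with rfl | rfl
          · rw [Set.inter_self, Finset.inter_self]
          · exact (hQ y hy).1.inter hsub hF
          · exact (hQ y hy).1.swap.inter hsub hF
          · rw [Set.inter_self, Finset.inter_self]
        · rcases hpx with rfl | rfl <;> rcases hqy with rfl | rfl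
          · exact (hQ x hx).1.apx.inter_caps (hQ y hy).1.apx hxy hF (m0 x hx) (m0 y hy) (v0 x hx)
          · exact (hQ x hx).1.apx.inter_caps (hQ y hy).1.apx hxy hF (m0 x hx) (m1 y hy) (v0 x hx)
          · exact (hQ x hx).1.apx.inter_caps (hQ y hy).1.apx hxy hF (m1 x hx) (m0 y hy) (v1 x hx)
          · exact (hQ x hx).1.apx.inter_caps (hQ y hy).1.apx hxy hF (m1 x hx) (m1 y hy) (v1 x hx)

end

end Run7.h169
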