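import Pool.Agent.Run7.h169.Iv5

set_option autoImplicit false
open scoped Classical Topology
open Filter

namespace Run7.h169

theorem perm3 (u v s : E3) : ({s, u, v} : Finset E3) = {u, v, s} := by
  ext y
  simp only [Finset.mem_insert, Finset.mem_singleton]
  tauto

theorem perm4 (u v s t : E3) : ({t, u, v, s} : Finset E3) = {u, v, s, t} := by
  ext y
  simp only [Finset.mem_insert, Finset.mem_singleton]
  tauto

theorem full_of_span {W : Finset E3} (h : Submodule.span ℝ (W : Set E3) = ⊤) :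
    ∃ A, A ⊆ W ∧ Nice A := by
  obtain ⟨b, hb1, hb2, hb3, hb4⟩ := exists_linearIndepOn_extension (K := ℝ) (v := id)
    (s := (∅ : Set E3)) (t := (W : Set E3)) (linearIndepOn_empty ℝ id) (Set.empty_subset _)
  have hfin : b.Finite := W.finite_toSet.subset hb1
  refine ⟨hfin.toFinset, ?_, ?_, ?_⟩
  · intro x hx
    rw [Set.Finite.mem_toFinset] at hx
    exact_mod_cast hb1 hx
  · have hspan : Submodule.span ℝ (id '' b) = ⊤ := by
      rw [eq_top_iff, ← h, Submodule.span_le]
      intro x hx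
      exact hb3 ⟨x, hx, rfl⟩
    have hli' : LinearIndependent ℝ (fun x : b => id (x : E3)) := hb4
    have hcard : Module.finrank ℝ E3 = hfin.toFinset.card := by
      have : Fintype b := hfin.fintype
      have h1 : Submodule.span ℝ (Set.range (fun x : b => id (x : E3))) = ⊤ := by
        rw [← hspan]
        congr 1
        ext z; simp
      have bb := Module.Basis.mk hli' (by rw [h1])
      rw [Module.finrank_eq_card_basis bb]
      rw [Set.Finite.card_toFinset]
    rw [← hcard]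
    simp
  · rw [Set.Finite.coe_toFinset]
    exact hb4

section

variable {W W' : Finset E3} {x : E3} {M : Finset E3} {B : Finset (Finset E3)} {χ : E3 → Bool}

theorem Apx.nbr_mem (h : Apx W W' x M) (hsub : W' ⊆ W) {a : E3} (ha : a ∈ W) (hax : a ≠ x)
    {g : E3 →ₗ[ℝ] ℝ} (g1 : g x = g a) (g2 : ∀ w ∈ W, w ≠ x → w ≠ a → g w < g x) :
    a - x ∈ M := by
  by_contra hcon
  obtain ⟨c, hc, hs⟩ := h.gen a ha hax
  have key : ∀ m ∈ M, g m < 0 := by
    intro m hm
    have hmW := h.low m hm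
    have h1 : m + x ≠ x := h.ne_low hmW
    have h2 : m + x ≠ a := fun hh => hcon (by rw [← hh, add_sub_cancel_right]; exact hm)
    have := g2 _ (hsub hmW) h1 h2
    rw [map_add] at this
    linarith
  have e : ∑ m ∈ M, c m * g m = 0 := by
    have := congrArg g hs
    rw [map_sum, map_sub, g1, sub_self] at this
    simpa using this
  have hz : ∀ m ∈ M, c m = 0 := by
    intro m hm
    have h3 : ∑ m ∈ M, c m * -(g m) = 0 := by
      simp only [mul_neg]
      rw [Finset.sum_neg_distrib, e, neg_zero]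
    have h4 := (Finset.sum_eq_zero_iff_of_nonneg (fun m hm =>
      mul_nonneg (hc m hm) (by linarith [key m hm]))).mp h3 m hm
    rcases mul_eq_zero.mp h4 with h5 | h5
    · exact h5
    · exfalso
      have := key m hm
      linarith
  apply hax
  have : ∑ m ∈ M, c m • m = 0 := by
    apply Finset.sum_eq_zero
    intro m hm
    rw [hz m hm, zero_smul]
  rw [this] at hs
  exact (sub_eq_zero.mp hs.symm)

theorem exists_pair (hC : Cfg W) (hsub : W' ⊆ W) (hC' : Cfg W') (hF : Fan W' B)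
    (h : Apx W W' x M) {a b c d : E3} (hM : M = {a - x, b - x, c - x, d - x})
    (hab : a ≠ b) (hcd : c ≠ d) (cab : χ a = χ b) (ccd : χ c = χ d) (cac : χ a ≠ χ c)
    (F1 : ∃ f : E3 →ₗ[ℝ] ℝ, f ≠ 0 ∧ f a = f x ∧ f b = f x ∧ (∀ w ∈ W, f w ≤ f x) ∧ 0 ≤ f x)
    (F2 : ∃ f : E3 →ₗ[ℝ] ℝ, f ≠ 0 ∧ f c = f x ∧ f d = f x ∧ (∀ w ∈ W, f w ≤ f x) ∧ 0 ≤ f x) :
    ∃ u v w t, Pair W W' B x M u v w t ∧ χ u ≠ χ v := by
  obtain ⟨σ, hσ, hxσ⟩ := hF.cover x h.mem_cone
  have vσ := h.beyond hC hsub hF hσ hxσ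
  have hac : a ≠ c := fun hh => cac (by rw [hh])
  have had : a ≠ d := fun hh => cac (by rw [hh, ccd])
  have hbc : b ≠ c := fun hh => cac (by rw [cab, hh])
  have hbd : b ≠ d := fun hh => cac (by rw [cab, hh, ccd])
  set N : Finset E3 := {a, b, c, d} with hN
  have hNc : N.card = 4 := by
    rw [hN, Finset.card_insert_of_notMem, Finset.card_insert_of_notMem, Finset.card_pair hcd]
    · simp only [Finset.mem_insert, Finset.mem_singleton]
      push Not
      exact ⟨hbc, hbd⟩
    · simp only [Finset.mem_insert, Finset.mem_singleton]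
      push Not
      exact ⟨hab, hac, had⟩
  have hMN : M = N.image (fun y => y - x) := by
    rw [hM, hN, Finset.image_insert, Finset.image_insert, Finset.image_insert,
      Finset.image_singleton]
  have visN : ∀ τ ∈ B, 1 < gfun τ (fun _ => 1) x → τ ⊆ N := by
    intro τ hτ hv y hy
    by_contra hcon
    have hyW := hF.sub τ hτ hy
    have h1 : y - x ∉ M := by
      intro hh
      rw [hMN] at hh
      obtain ⟨y', hy', he⟩ := Finset.mem_image.mp hh
      exact hcon (sub_left_injective he ▸ hy')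
    have h2 := h.vis (hF.supp τ hτ) hv (hsub hyW) (h.ne_low hyW) h1
    rw [gfun_mem (hF.nice τ hτ) _ hy] at h2
    exact lt_irrefl _ h2
  have miss : ∀ τ ∈ B, 1 < gfun τ (fun _ => 1) x → ∃ s ∈ N, s ∉ τ ∧ τ = N.erase s := by
    intro τ hτ hv
    have h1 := visN τ hτ hv
    have h2 := (hF.nice τ hτ).1
    obtain ⟨s, hs, hsτ⟩ := Finset.exists_mem_notMem_of_card_lt_card
      (show τ.card < N.card by omega)
    refine ⟨s, hs, hsτ, ?_⟩
    apply Finset.eq_of_subset_of_card_le
    · intro y hy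
      exact Finset.mem_erase.mpr ⟨fun hh => hsτ (hh ▸ hy), h1 hy⟩
    · rw [Finset.card_erase_of_mem hs]
      omega
  obtain ⟨s, hs, hsσ, eσ⟩ := miss σ hσ vσ
  obtain ⟨τ, hτ, hsτ, vτ⟩ := h.exists_vis hsub hC' hF (m := s - x) (by
    rw [hMN]; exact Finset.mem_image_of_mem _ hs)
  rw [sub_add_cancel] at hsτ
  obtain ⟨s', hs', hsτ', eτ⟩ := miss τ hτ vτ
  have hss : s ≠ s' := fun hh => hsτ' (hh ▸ hsτ)
  have hs'2 : s' ∈ N.erase s := Finset.mem_erase.mpr ⟨hss.symm, hs'⟩
  have c2 : ((N.erase s).erase s').card = 2 := by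
    rw [Finset.card_erase_of_mem hs'2, Finset.card_erase_of_mem hs]
    omega
  obtain ⟨u, v, huv, euv⟩ := Finset.card_eq_two.mp c2
  have e1 : σ = {u, v, s'} := by
    rw [eσ, ← Finset.insert_erase hs'2, euv]
    exact perm3 u v s'
  have e2 : τ = {u, v, s} := by
    have h3 : s ∈ N.erase s' := Finset.mem_erase.mpr ⟨hss, hs⟩
    rw [eτ, ← Finset.insert_erase h3, Finset.erase_right_comm, euv]
    exact perm3 u v s
  have eN : N = {u, v, s', s} := by
    rw [← Finset.insert_erase hs, ← eσ, e1]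
    exact perm4 u v s' s
  have eM : M = {u - x, v - x, s' - x, s - x} := by
    rw [hMN, eN, Finset.image_insert, Finset.image_insert, Finset.image_insert,
      Finset.image_singleton]
  rw [e1] at hσ vσ
  rw [e2] at hτ vτ
  refine ⟨u, v, s', s, ⟨h, eM, hss.symm, hσ, hτ, vσ, vτ⟩, ?_⟩
  intro hχ
  obtain ⟨α, β, γ, hγ, hr⟩ := Apx.relation hF hσ hτ hss.symm vσ vτ
  have huN : u ∈ N := by rw [eN]; simp
  have hvN : v ∈ N := by rw [eN]; simp
  have hsW : ∀ y ∈ N, y ∈ W := by
    intro y hy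
    have := h.low (y - x) (by rw [hMN]; exact Finset.mem_image_of_mem _ hy)
    rw [sub_add_cancel] at this
    exact hsub this
  have main : ∀ f : E3 →ₗ[ℝ] ℝ, f ≠ 0 → f u = f x → f v = f x → (∀ w ∈ W, f w ≤ f x) →
      0 ≤ f x → False := by
    intro f f0 fu fv fW fx
    have h1 := fW s' (hsW s' hs')
    have h2 := fW s (hsW s hs)
    have h3 := congrArg f hr
    simp only [map_add, map_sub, map_smul, smul_eq_mul, fu, fv, sub_self, mul_zero,
      add_zero] at h3
    have h4 : γ * (f s' - f x) ≤ 0 := mul_nonpos_of_nonneg_of_nonpos hγ.le (by linarith)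
    have h5 : f s - f x = 0 := by linarith
    have h6 : γ * (f s' - f x) = 0 := by linarith
    have h7 : f s' - f x = 0 := by
      rcases mul_eq_zero.mp h6 with h | h
      · exact absurd h hγ.ne'
      · exact h
    have hM0 : ∀ m ∈ M, f m = 0 := by
      intro m hm
      rw [eM] at hm
      simp only [Finset.mem_insert, Finset.mem_singleton] at hm
      rcases hm with rfl | rfl | rfl | rfl
      · rw [map_sub, fu, sub_self]
      · rw [map_sub, fv, sub_self]
      · rw [map_sub]; exact h7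
      · rw [map_sub]; exact h5
    have hcone : ∀ y, y ∈ cone M → f y = 0 := by
      rintro y ⟨c, _, hs⟩
      rw [← hs, map_sum]
      apply Finset.sum_eq_zero
      intro m hm
      rw [map_smul, hM0 m hm, smul_zero]
    have hx0 : f x = 0 := by
      have := hcone _ h.gen0
      rw [map_neg] at this
      linarith
    have hW0 : ∀ w ∈ W, f w = 0 := by
      intro w hw
      by_cases hwx : w = x
      · rw [hwx, hx0]
      · have := hcone _ (h.gen w hw hwx)
        rw [map_sub] at this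
        linarith
    obtain ⟨A, hA, hAn⟩ := hC.full
    apply f0
    ext y
    rw [← crd_sum hAn y, map_sum, LinearMap.zero_apply]
    apply Finset.sum_eq_zero
    intro p hp
    rw [map_smul, hW0 p (hA hp), smul_zero]
  have cls : ∀ y ∈ N, (χ y = χ a → y = a ∨ y = b) ∧ (χ y = χ c → y = c ∨ y = d) := by
    intro y hy
    rw [hN] at hy
    simp only [Finset.mem_insert, Finset.mem_singleton] at hy
    rcases hy with rfl | rfl | rfl | rfl
    · exact ⟨fun _ => Or.inl rfl, fun hh => absurd hh cac⟩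
    · exact ⟨fun _ => Or.inr rfl, fun hh => absurd (cab.trans hh) cac⟩
    · exact ⟨fun hh => absurd hh.symm cac, fun _ => Or.inl rfl⟩
    · exact ⟨fun hh => absurd (hh.symm.trans ccd.symm) cac, fun _ => Or.inr rfl⟩
  by_cases hua : χ u = χ a
  · obtain ⟨f, f0, fa, fb, fW, fx⟩ := F1
    have k1 := (cls u huN).1 hua
    have k2 := (cls v hvN).1 (hχ ▸ hua)
    refine main f f0 ?_ ?_ fW fx
    · rcases k1 with h | h <;> rw [h] <;> assumption
    · rcases k2 with h | h <;> rw [h] <;> assumption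
  · have huc : χ u = χ c := by
      revert hua cac
      cases χ u <;> cases χ a <;> cases χ c <;> simp
    obtain ⟨f, f0, fa, fb, fW, fx⟩ := F2
    have k1 := (cls u huN).2 huc
    have k2 := (cls v hvN).2 (hχ ▸ huc)
    refine main f f0 ?_ ?_ fW fx
    · rcases k1 with h | h <;> rw [h] <;> assumption
    · rcases k2 with h | h <;> rw [h] <;> assumption

end

section

variable {S : Finset E3} {z : E3}

theorem partition_col (hC : Cfg (rel S z)) {A B : Finset E3}
    (hA : A.Nonempty) (hB : B.Nonempty) (hdisj : Disjoint A B)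
    (hU : A ∪ B = S.erase z)
    (lA : ∀ M ⊆ A, M.Nonempty → ∃ x ∈ M, ∀ y ∈ M, ∀ t ∈ M,
      IsEdgeS S x y → IsEdgeS S x t → y = t)
    (lB : ∀ M ⊆ B, M.Nonempty → ∃ x ∈ M, ∀ y ∈ M, ∀ t ∈ M,
      IsEdgeS S x y → IsEdgeS S x t → y = t)
    (hb : ((A ×ˢ B).filter (fun e => IsEdgeS S e.1 e.2 ∧ ∃ f : E3 →ₗ[ℝ] ℝ, f ≠ 0 ∧
      f e.1 = f z ∧ f e.2 = f z ∧ ∀ x ∈ S, f x ≤ f z)).card ≤ 2) :
    Col (rel S z) (fun x => decide (x + z ∈ A)) := by
  obtain ⟨B0, hF⟩ := fan_exists hC
  refine (partition_forCol hU lA lB).col' hC (partition_two hU hdisj hA hB) hF ?_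
  refine le_trans ?_ hb
  unfold bc
  apply Finset.card_le_card_of_injOn (fun e : E3 × E3 => (e.1 + z, e.2 + z))
  · rintro ⟨x, y⟩ he
    rw [Finset.mem_coe, Finset.mem_filter, Finset.mem_product] at he
    obtain ⟨⟨hx, hy⟩, h1, h2, h3⟩ := he
    have hx' : x ∈ rel S z := hx
    have hy' : y ∈ rel S z := hy
    have h1' : x + z ∈ A := by simpa using h1
    have h2' : y + z ∉ A := by simpa using h2
    have h3' : cnt B0 x y = 1 := h3
    have hxy : x ≠ y := by rintro rfl; exact h2' h1'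
    obtain ⟨s1, s2⟩ := mem_rel.mp hy'
    have h4 : y + z ∈ B := by
      have h5 : y + z ∈ A ∪ B := by
        rw [hU]
        exact Finset.mem_erase.mpr ⟨fun hh => s2 (by simpa using hh), s1⟩
      rcases Finset.mem_union.mp h5 with h | h
      · exact absurd h h2'
      · exact h
    obtain ⟨_, f, f0, f1, f2, f3⟩ := hF.boundary_data hC hx' hy' hxy h3'
    have he := hF.boundary_edge hC hx' hy' hxy h3'
    rw [Finset.mem_coe, Finset.mem_filter, Finset.mem_product]
    refine ⟨⟨h1', h4⟩, Frm.edge_rel he, -f, neg_ne_zero.mpr f0, ?_, ?_, ?_⟩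
    · show -(f (x + z)) = -(f z)
      rw [map_add, f2, zero_add]
    · show -(f (y + z)) = -(f z)
      rw [map_add, f3, zero_add]
    · intro w hw
      show -(f w) ≤ -(f z)
      by_cases hwz : w = z
      · rw [hwz]
      · have := f1 (w - z) (sub_mem_rel hw hwz)
        rw [map_sub] at this
        linarith
  · rintro ⟨x, y⟩ _ ⟨x', y'⟩ _ h
    simp only [Prod.mk.injEq, add_left_inj] at h ⊢
    exact h

/-- The criterion with inserted vertices: the vertices other than the apex `z` and those of a set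
`I` of vertices of degree four split into two sets inducing forests in the hull of `S \ I`. -/
theorem inserted_partition_hasHamTet (hS : ConvPos S) (hspan : affineSpan ℝ (S : Set E3) = ⊤)
    (hz : z ∈ S) {A B I : Finset E3} (hI : I ⊆ S) (hzI : z ∉ I) (hA : A.Nonempty)
    (hB : B.Nonempty) (hdisj : Disjoint A B) (hU : A ∪ B = (S \ I).erase z)
    (lA : ∀ M ⊆ A, M.Nonempty → ∃ x ∈ M, ∀ y ∈ M, ∀ t ∈ M,
      IsEdgeS (S \ I) x y → IsEdgeS (S \ I) x t → y = t)
    (lB : ∀ M ⊆ B, M.Nonempty → ∃ x ∈ M, ∀ y ∈ M, ∀ t ∈ M,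
      IsEdgeS (S \ I) x y → IsEdgeS (S \ I) x t → y = t)
    (hb : ((A ×ˢ B).filter (fun e => IsEdgeS (S \ I) e.1 e.2 ∧ ∃ f : E3 →ₗ[ℝ] ℝ, f ≠ 0 ∧
      f e.1 = f z ∧ f e.2 = f z ∧ ∀ x ∈ S \ I, f x ≤ f z)).card ≤ 2)
    (hd : ∀ x ∈ I, ∃ a ∈ A, ∃ b ∈ A, ∃ c ∈ B, ∃ d ∈ B, a ≠ b ∧ c ≠ d ∧
      (∀ y ∈ S, IsEdgeS S x y ↔ (y = a ∨ y = b ∨ y = c ∨ y = d)) ∧
      (∃ f : E3 →ₗ[ℝ] ℝ, f ≠ 0 ∧ f a = f x ∧ f b = f x ∧ ∀ y ∈ S, f y ≤ f x) ∧
      (∃ f : E3 →ₗ[ℝ] ℝ, f ≠ 0 ∧ f c = f x ∧ f d = f x ∧ ∀ y ∈ S, f y ≤ f x)) :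
    HasHamTet S := by
  have hC : Cfg (rel S z) := cfg_rel hS hspan hz
  have hsub : rel (S \ I) z ⊆ rel S z := by
    intro w hw
    obtain ⟨h1, h2⟩ := mem_rel.mp hw
    exact mem_rel.mpr ⟨(Finset.mem_sdiff.mp h1).1, h2⟩
  have hAB : ∀ w, w ∈ A ∪ B → w ∈ S \ I ∧ w ≠ z := by
    intro w hw
    rw [hU] at hw
    obtain ⟨h1, h2⟩ := Finset.mem_erase.mp hw
    exact ⟨h2, h1⟩
  have hapx : ∀ x ∈ I, ∃ M, Apx (rel S z) (rel (S \ I) z) (x - z) M ∧
      ∀ m ∈ M, IsEdgeS S x (m + x) := by
    intro x hx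
    obtain ⟨a, ha, b, hb', c, hc, d, hd', _, _, hnb, _, _⟩ := hd x hx
    refine apx_of hS hspan hz (hI hx) (fun hh => hzI (hh ▸ hx))
      (fun hh => (Finset.mem_sdiff.mp hh).2 hx) ?_
    intro y hy hyS
    apply hAB
    rcases (hnb y hyS).mp hy with rfl | rfl | rfl | rfl
    · exact Finset.mem_union_left _ ha
    · exact Finset.mem_union_left _ hb'
    · exact Finset.mem_union_right _ hc
    · exact Finset.mem_union_right _ hd'
  have hWJ : rel S z = rel (S \ I) z ∪ I.image (fun x => x - z) := by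
    ext w
    rw [Finset.mem_union, Finset.mem_image]
    constructor
    · intro hw
      obtain ⟨h1, h2⟩ := mem_rel.mp hw
      by_cases hwI : w + z ∈ I
      · right; exact ⟨w + z, hwI, by abel⟩
      · left; exact mem_rel.mpr ⟨Finset.mem_sdiff.mpr ⟨h1, hwI⟩, h2⟩
    · rintro (hw | ⟨x, hx, rfl⟩)
      · exact hsub hw
      · exact sub_mem_rel (hI hx) (fun hh => hzI (hh ▸ hx))
  have hC' : Cfg (rel (S \ I) z) := by
    refine hC.mono hsub (full_of_span (span_of_cone hC ?_))
    intro w hw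
    rw [hWJ] at hw
    rcases Finset.mem_union.mp hw with h | h
    · exact mem_cone_self h
    · obtain ⟨x, hx, rfl⟩ := Finset.mem_image.mp h
      obtain ⟨M, hM, _⟩ := hapx x hx
      exact hM.mem_cone
  have hcol := partition_col hC' hA hB hdisj hU lA lB hb
  obtain ⟨B0, hF, hm, L, hnd, hL, hch⟩ := exists_ham_fan' hC' hcol
  refine hasHamTet_of_rel hz (hasHamTet_of_pairs hC hWJ hF hm hnd hL hch ?_)
  intro x' hx'
  obtain ⟨x, hx, rfl⟩ := Finset.mem_image.mp hx'
  obtain ⟨M, hM, hMe⟩ := hapx x hx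
  obtain ⟨a, ha, b, hb', c, hc, d, hd', hab, hcd, hnb, ⟨f, f0, fa, fb, fS⟩,
    ⟨g, g0, gc, gd, gS⟩⟩ := hd x hx
  have inS : ∀ w, w ∈ A ∪ B → w ∈ S := fun w hw => (Finset.mem_sdiff.mp (hAB w hw).1).1
  have haS := inS a (Finset.mem_union_left _ ha)
  have hbS := inS b (Finset.mem_union_left _ hb')
  have hcS := inS c (Finset.mem_union_right _ hc)
  have hdS := inS d (Finset.mem_union_right _ hd')
  have hxz : x ≠ z := fun hh => hzI (hh ▸ hx)
  have memM : ∀ y ∈ S, y ≠ z → IsEdgeS S x y → y - x ∈ M := by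
    intro y hy hyz hxy
    obtain ⟨e0, k, k1, k2⟩ := hxy
    have h1 : (y - z) - (x - z) ∈ M := by
      refine hM.nbr_mem hsub (sub_mem_rel hy hyz) (fun hh => e0 (sub_left_injective hh).symm)
        (g := k) ?_ ?_
      · rw [map_sub, map_sub, k1]
      · intro w hw h1 h2
        have := k2 (w + z) (mem_rel.mp hw).1 (fun hh => h1 (by rw [← hh]; abel))
          (fun hh => h2 (by rw [← hh]; abel))
        rw [map_add] at this
        rw [map_sub]
        linarith
    rwa [sub_sub_sub_cancel_right] at h1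
  have eM : M = {(a - z) - (x - z), (b - z) - (x - z), (c - z) - (x - z),
      (d - z) - (x - z)} := by
    simp only [sub_sub_sub_cancel_right]
    ext m
    simp only [Finset.mem_insert, Finset.mem_singleton]
    constructor
    · intro hm
      have h1 : m + x ∈ S := by
        have := (Finset.mem_sdiff.mp (mem_rel.mp (hM.low m hm)).1).1
        rwa [add_assoc, sub_add_cancel] at this
      rcases (hnb _ h1).mp (hMe m hm) with h | h | h | h
      · left; rw [← h]; abel
      · right; left; rw [← h]; abel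
      · right; right; left; rw [← h]; abel
      · right; right; right; rw [← h]; abel
    · rintro (rfl | rfl | rfl | rfl)
      · exact memM a haS (hAB a (Finset.mem_union_left _ ha)).2 ((hnb a haS).mpr (by simp))
      · exact memM b hbS (hAB b (Finset.mem_union_left _ hb')).2 ((hnb b hbS).mpr (by simp))
      · exact memM c hcS (hAB c (Finset.mem_union_right _ hc)).2 ((hnb c hcS).mpr (by simp))
      · exact memM d hdS (hAB d (Finset.mem_union_right _ hd')).2 ((hnb d hdS).mpr (by simp))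
  have hcA : c ∉ A := fun hh => Finset.disjoint_left.mp hdisj hh hc
  have hdA : d ∉ A := fun hh => Finset.disjoint_left.mp hdisj hh hd'
  have supp : ∀ (k : E3 →ₗ[ℝ] ℝ), (∀ y ∈ S, k y ≤ k x) →
      (∀ w ∈ rel S z, k w ≤ k (x - z)) ∧ 0 ≤ k (x - z) := by
    intro k kS
    constructor
    · intro w hw
      have := kS (w + z) (mem_rel.mp hw).1
      rw [map_add] at this
      rw [map_sub]
      linarith
    · have := kS z hz
      rw [map_sub]
      linarith
  obtain ⟨u, v, w, t, hp, hχ⟩ := exists_pair (χ := fun x => decide (x + z ∈ A)) hC hsub hC' hF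
    hM eM (fun hh => hab (sub_left_injective hh)) (fun hh => hcd (sub_left_injective hh))
    (by simp [ha, hb']) (by simp [hcA, hdA]) (by simp [ha, hcA])
    ⟨f, f0, by rw [map_sub, map_sub, fa], by rw [map_sub, map_sub, fb], (supp f fS).1,
      (supp f fS).2⟩
    ⟨g, g0, by rw [map_sub, map_sub, gc], by rw [map_sub, map_sub, gd], (supp g gS).1,
      (supp g gS).2⟩
  exact ⟨M, u, v, w, t, hp, hχ⟩

end

end Run7.h169
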