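import Pool.Agent.Run7.h169.Iv6

set_option autoImplicit false
open scoped Classical Topology
open Filter

namespace Run7.h169

theorem mem_tri3 {p q r : E3} {a b c : ℝ} (ha : 0 ≤ a) (hb : 0 ≤ b) (hc : 0 ≤ c) :
    a • p + b • q + c • r ∈ cone {p, q, r} :=
  cone_add (cone_add (cone_smul ha (mem_cone_self (by simp)))
    (cone_smul hb (mem_cone_self (by simp)))) (cone_smul hc (mem_cone_self (by simp)))

theorem cone_inter_nice {τ α β : Finset E3} (h : Nice τ) (hα : α ⊆ τ) (hβ : β ⊆ τ) {y : E3}
    (hy : y ∈ cone α) (hy' : y ∈ cone β) : y ∈ cone (α ∩ β) := by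
  have hcr := (mem_cone_iff_crd h).mp (cone_mono hα hy)
  refine ⟨fun s => crd τ s y, fun s hs => hcr s (hα (Finset.mem_inter.mp hs).1), ?_⟩
  have hsub : α ∩ β ⊆ τ := fun s hs => hα (Finset.mem_inter.mp hs).1
  rw [Finset.sum_subset hsub]
  · exact crd_sum h y
  · intro s hs hn
    by_cases h1 : s ∈ α
    · have h2 : s ∉ β := fun h2 => hn (Finset.mem_inter.mpr ⟨h1, h2⟩)
      beta_reduce
      rw [crd_eq_zero_of_mem_cone h hβ hy' hs h2, zero_smul]
    · beta_reduce
      rw [crd_eq_zero_of_mem_cone h hα hy hs h1, zero_smul]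

theorem gfun_one (σ : Finset E3) (y : E3) : gfun σ (fun _ => 1) y = ∑ s ∈ σ, crd σ s y := by
  rw [gfun_apply]; simp

theorem lin_crd {σ : Finset E3} (hN : Nice σ) (f : E3 →ₗ[ℝ] ℝ) (y : E3) :
    f y = ∑ s ∈ σ, crd σ s y * f s := by
  conv_lhs => rw [← crd_sum hN y]
  rw [map_sum]
  simp

theorem inter_strict {σ σ' : Finset E3} (hN : Nice σ) (hN' : Nice σ')
    (h1 : ∀ s ∈ σ', s ∉ σ → gfun σ (fun _ => 1) s < 1)
    (h2 : ∀ s ∈ σ, s ∉ σ' → gfun σ' (fun _ => 1) s < 1) {y : E3} (hy : y ∈ cone σ)
    (hy' : y ∈ cone σ') : y ∈ cone (σ ∩ σ') := by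
  have hc := (mem_cone_iff_crd hN).mp hy
  have hd := (mem_cone_iff_crd hN').mp hy'
  have l1 : ∀ s ∈ σ', gfun σ (fun _ => 1) s ≤ 1 := by
    intro s hs
    by_cases h : s ∈ σ
    · rw [gfun_mem hN _ h]
    · exact (h1 s hs h).le
  have l2 : ∀ s ∈ σ, gfun σ' (fun _ => 1) s ≤ 1 := by
    intro s hs
    by_cases h : s ∈ σ'
    · rw [gfun_mem hN' _ h]
    · exact (h2 s hs h).le
  have e1 := lin_crd hN' (gfun σ (fun _ => 1)) y
  have e2 := lin_crd hN (gfun σ' (fun _ => 1)) y
  have e3 := gfun_one σ y
  have e4 := gfun_one σ' y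
  have f2 : ∑ s ∈ σ, crd σ s y * gfun σ' (fun _ => 1) s ≤ ∑ s ∈ σ, crd σ s y := by
    apply Finset.sum_le_sum
    intro s hs
    exact mul_le_of_le_one_right (hc s hs) (l2 s hs)
  have f3 : ∑ s ∈ σ', crd σ' s y * (1 - gfun σ (fun _ => 1) s) =
      ∑ s ∈ σ', crd σ' s y - ∑ s ∈ σ', crd σ' s y * gfun σ (fun _ => 1) s := by
    rw [← Finset.sum_sub_distrib]
    apply Finset.sum_congr rfl
    intro s _
    ring
  have nn : ∀ s ∈ σ', 0 ≤ crd σ' s y * (1 - gfun σ (fun _ => 1) s) := fun s hs =>
    mul_nonneg (hd s hs) (by linarith [l1 s hs])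
  have f4 : ∑ s ∈ σ', crd σ' s y * (1 - gfun σ (fun _ => 1) s) = 0 := by
    apply le_antisymm _ (Finset.sum_nonneg nn)
    rw [f3]
    linarith
  have f5 := (Finset.sum_eq_zero_iff_of_nonneg nn).mp f4
  have hsub : σ ∩ σ' ⊆ σ' := Finset.inter_subset_right
  refine ⟨fun s => crd σ' s y, fun s hs => hd s (hsub hs), ?_⟩
  rw [Finset.sum_subset hsub]
  · exact crd_sum hN' y
  · intro s hs hn
    have h3 : s ∉ σ := fun h3 => hn (Finset.mem_inter.mpr ⟨h3, hs⟩)
    rcases mul_eq_zero.mp (f5 s hs) with h4 | h4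
    · beta_reduce
      rw [h4, zero_smul]
    · exfalso
      have := h1 s hs h3
      linarith

/-- An old triangle meets a new one in the old side. -/
theorem inter_old {x u w : E3} {σ : Finset E3} (hN : Nice {x, u, w}) (hN' : Nice σ)
    (hg : ∀ s ∈ σ, gfun {x, u, w} (fun _ => 1) s ≤ 1) (gx : gfun σ (fun _ => 1) x ≤ 1)
    (gu : gfun σ (fun _ => 1) u ≤ 1) (gw : gfun σ (fun _ => 1) w ≤ 1) {π : E3 →ₗ[ℝ] ℝ}
    (πu : π u = 1) (πw : π w = 1) (πx : 1 < π x) (πσ : ∀ s ∈ σ, π s ≤ 1) {y : E3}
    (hy : y ∈ cone {x, u, w}) (hy' : y ∈ cone σ) : y ∈ cone {u, w} := by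
  have hc := (mem_cone_iff_crd hN).mp hy
  have hd := (mem_cone_iff_crd hN').mp hy'
  set a := crd {x, u, w} x y with ha
  set b := crd {x, u, w} u y with hb
  set c := crd {x, u, w} w y with hc'
  have ha0 : 0 ≤ a := hc x (by simp)
  have hb0 : 0 ≤ b := hc u (by simp)
  have hc0 : 0 ≤ c := hc w (by simp)
  have hs : a • x + b • u + c • w = y := crd_sum3 hN y
  have G : ∀ f : E3 →ₗ[ℝ] ℝ, f y = a * f x + b * f u + c * f w := by
    intro f
    conv_lhs => rw [← hs]
    simp only [map_add, map_smul, smul_eq_mul]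
  have e1 := G (gfun {x, u, w} (fun _ => 1))
  rw [gfun_mem hN _ (by simp : x ∈ ({x, u, w} : Finset E3)),
    gfun_mem hN _ (by simp : u ∈ ({x, u, w} : Finset E3)),
    gfun_mem hN _ (by simp : w ∈ ({x, u, w} : Finset E3))] at e1
  have e2 := lin_crd hN' (gfun {x, u, w} (fun _ => 1)) y
  have e3 : ∑ s ∈ σ, crd σ s y * gfun {x, u, w} (fun _ => 1) s ≤ ∑ s ∈ σ, crd σ s y := by
    apply Finset.sum_le_sum
    intro s hs
    exact mul_le_of_le_one_right (hd s hs) (hg s hs)
  have e4 := gfun_one σ y
  have e5 := G (gfun σ (fun _ => 1))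
  have e6 : a * gfun σ (fun _ => 1) x ≤ a := mul_le_of_le_one_right ha0 gx
  have e7 : b * gfun σ (fun _ => 1) u ≤ b := mul_le_of_le_one_right hb0 gu
  have e8 : c * gfun σ (fun _ => 1) w ≤ c := mul_le_of_le_one_right hc0 gw
  have p1 := G π
  rw [πu, πw] at p1
  have p2 := lin_crd hN' π y
  have p3 : ∑ s ∈ σ, crd σ s y * π s ≤ ∑ s ∈ σ, crd σ s y := by
    apply Finset.sum_le_sum
    intro s hs
    exact mul_le_of_le_one_right (hd s hs) (πσ s hs)
  have a0 : a = 0 := by
    by_contra hne
    have hpos : 0 < a := lt_of_le_of_ne ha0 (Ne.symm hne)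
    have : a * 1 < a * π x := mul_lt_mul_of_pos_left πx hpos
    linarith
  rw [← hs, a0, zero_smul, zero_add]
  exact cone_add (cone_smul hb0 (mem_cone_self (by simp)))
    (cone_smul hc0 (mem_cone_self (by simp)))

section

variable {W W' : Finset E3} {x : E3} {M : Finset E3} {B : Finset (Finset E3)} {u v w t : E3}

theorem Pair.flip (h : Pair W W' B x M u v w t) : Pair W W' B x M v u w t := by
  have e1 : ({v, u, w} : Finset E3) = {u, v, w} := Finset.insert_comm v u {w}
  have e2 : ({v, u, t} : Finset E3) = {u, v, t} := Finset.insert_comm v u {t}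
  refine ⟨h.apx, ?_, h.wt, by rw [e1]; exact h.m1, by rw [e2]; exact h.m2, by rw [e1]; exact h.v1,
    by rw [e2]; exact h.v2⟩
  rw [h.hM]
  exact Finset.insert_comm _ _ _

theorem Pair.notMem (h : Pair W W' B x M u v w t) (hF : Fan W' B) :
    x ≠ u ∧ x ≠ v ∧ x ≠ w ∧ x ≠ t := by
  have h1 := h.apx.notMem_tri hF h.m1
  have h2 := h.apx.notMem_tri hF h.m2
  simp only [Finset.mem_insert, Finset.mem_singleton, not_or] at h1 h2
  exact ⟨h1.1, h1.2.1, h1.2.2, h2.2.2⟩

/-- The facet through the inserted vertex and a side. -/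
theorem Pair.face (h : Pair W W' B x M u v w t) (hsub : W' ⊆ W) (hF : Fan W' B) :
    ∃ (φ : E3 →ₗ[ℝ] ℝ) (m : ℝ), φ x = m ∧ φ u = m ∧ φ w = m ∧ φ v = m - 1 ∧ φ t < m ∧
      (∀ y ∈ W, φ y ≤ m) ∧ 0 ≤ m ∧ m * (gfun {u, v, w} (fun _ => 1) x - 1) =
        crd {u, v, w} v x := by
  obtain ⟨α, β, γ, hα, hβ, hγ, hr⟩ := h.rel4 hsub hF
  obtain ⟨d1, d2, d3, d4, d5⟩ := h.dist hF
  obtain ⟨n1, n2, n3, n4⟩ := h.notMem hF
  have hN := hF.nice _ h.m1
  set π := gfun {u, v, w} (fun _ => 1) with hπ
  set cv := crd {u, v, w} v with hcv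
  have πu : π u = 1 := gfun_mem hN _ (by simp)
  have πv : π v = 1 := gfun_mem hN _ (by simp)
  have πw : π w = 1 := gfun_mem hN _ (by simp)
  have cu : cv u = 0 := crd_ne hN (by simp) (by simp) d1.symm
  have cvv : cv v = 1 := crd_self hN (by simp)
  have cw : cv w = 0 := crd_ne hN (by simp) (by simp) d3
  have hx : 1 < π x := h.v1
  have hx' : 0 < π x - 1 := by linarith
  set m := cv x / (π x - 1) with hm
  have hmm : m * (π x - 1) = cv x := by rw [hm]; field_simp
  set φ : E3 →ₗ[ℝ] ℝ := m • π - cv with hφ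
  have φa : ∀ y, φ y = m * π y - cv y := fun y => by
    rw [hφ, LinearMap.sub_apply, LinearMap.smul_apply, smul_eq_mul]
  have φx : φ x = m := by rw [φa]; linarith
  have φu : φ u = m := by rw [φa, πu, cu]; ring
  have φw : φ w = m := by rw [φa, πw, cw]; ring
  have φv : φ v = m - 1 := by rw [φa, πv, cvv]; ring
  have φt : φ t = m - β := by
    have := congrArg φ hr
    simp only [map_add, map_sub, map_smul, smul_eq_mul, φx, φu, φv, φw] at this
    linarith
  have hM0 : ∀ k ∈ M, φ k ≤ 0 := by
    intro k hk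
    rw [h.hM] at hk
    simp only [Finset.mem_insert, Finset.mem_singleton] at hk
    rcases hk with rfl | rfl | rfl | rfl
    · rw [map_sub, φu, φx, sub_self]
    · rw [map_sub, φv, φx]; linarith
    · rw [map_sub, φw, φx, sub_self]
    · rw [map_sub, φt, φx]; linarith
  have hcone : ∀ y, y ∈ cone M → φ y ≤ 0 := by
    rintro y ⟨c, c1, c2⟩
    rw [← c2, map_sum]
    apply Finset.sum_nonpos
    intro k hk
    rw [map_smul, smul_eq_mul]
    exact mul_nonpos_of_nonneg_of_nonpos (c1 k hk) (hM0 k hk)
  have hW : ∀ y ∈ W, φ y ≤ φ x := by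
    intro y hy
    by_cases hyx : y = x
    · rw [hyx]
    · have := hcone _ (h.apx.gen y hy hyx)
      rw [map_sub] at this
      linarith
  have hx0 : 0 ≤ φ x := by
    have := hcone _ h.apx.gen0
    rw [map_neg] at this
    linarith
  rw [φx] at hW hx0
  exact ⟨φ, m, φx, φu, φw, φv, by rw [φt]; linarith, hW, hx0, hmm⟩

theorem Pair.nonneg (h : Pair W W' B x M u v w t) (hsub : W' ⊆ W) (hF : Fan W' B) :
    0 ≤ crd {u, v, w} v x := by
  obtain ⟨φ, m, _, _, _, _, _, _, h1, h2⟩ := h.face hsub hF
  rw [← h2]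
  exact mul_nonneg h1 (by linarith [h.v1])

theorem Pair.side (h : Pair W W' B x M u v w t) (hsub : W' ⊆ W) (hF : Fan W' B)
    (hs : 0 < crd {u, v, w} v x) : Nice {x, u, w} ∧
      gfun {x, u, w} (fun _ => 1) v < 1 ∧ gfun {x, u, w} (fun _ => 1) t < 1 ∧
      ∀ y ∈ W, gfun {x, u, w} (fun _ => 1) y ≤ 1 := by
  obtain ⟨d1, d2, d3, d4, d5⟩ := h.dist hF
  have hN := hF.nice _ h.m1
  obtain ⟨φ, m, φx, φu, φw, φv, φt, hW, hm0, hmm⟩ := h.face hsub hF
  have hpos : 0 < m := by
    rcases lt_or_eq_of_le hm0 with h1 | h1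
    · exact h1
    · rw [← h1, zero_mul] at hmm
      linarith
  have hNx : Nice {x, u, w} := by
    have h1 := nice_pivot hN (x1 := v) (x0 := x) (by simp) (h.apx.notMem_tri hF h.m1) hs.ne'
    have h2 : ({u, v, w} : Finset E3).erase v = {u, w} := by
      ext y
      simp only [Finset.mem_erase, Finset.mem_insert, Finset.mem_singleton]
      constructor
      · rintro ⟨k1, k2 | k2 | k2⟩
        · exact Or.inl k2
        · exact absurd k2 k1
        · exact Or.inr k2
      · rintro (rfl | rfl)
        · exact ⟨d1, Or.inl rfl⟩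
        · exact ⟨d3.symm, Or.inr (Or.inr rfl)⟩
    rwa [h2] at h1
  have hgf : gfun {x, u, w} (fun _ => 1) = (1 / m) • φ := by
    apply nice_ext hNx
    intro y hy
    rw [gfun_mem hNx _ hy, LinearMap.smul_apply, smul_eq_mul]
    simp only [Finset.mem_insert, Finset.mem_singleton] at hy
    rcases hy with rfl | rfl | rfl
    · rw [φx, one_div_mul_cancel hpos.ne']
    · rw [φu, one_div_mul_cancel hpos.ne']
    · rw [φw, one_div_mul_cancel hpos.ne']
  have key : ∀ y, φ y ≤ m → gfun {x, u, w} (fun _ => 1) y ≤ 1 := by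
    intro y hy
    rw [hgf, LinearMap.smul_apply, smul_eq_mul, one_div, inv_mul_le_iff₀ hpos, mul_one]
    exact hy
  have key' : ∀ y, φ y < m → gfun {x, u, w} (fun _ => 1) y < 1 := by
    intro y hy
    rw [hgf, LinearMap.smul_apply, smul_eq_mul, one_div, inv_mul_lt_iff₀ hpos, mul_one]
    exact hy
  exact ⟨hNx, key' v (by rw [φv]; linarith), key' t φt, fun y hy => key y (hW y hy)⟩

/-- If the side plane contains the apex, the side lies on the boundary. -/
theorem Pair.no_other (h : Pair W W' B x M u v w t) (hsub : W' ⊆ W) (hF : Fan W' B)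
    (hs : crd {u, v, w} v x = 0) {σ : Finset E3} (hσ : σ ∈ B) (hne : σ ≠ {u, v, w})
    (hu : u ∈ σ) (hw : w ∈ σ) : False := by
  obtain ⟨d1, d2, d3, d4, d5⟩ := h.dist hF
  obtain ⟨φ, m, φx, φu, φw, φv, φt, hW, hm0, hmm⟩ := h.face hsub hF
  have hm : m = 0 := by
    rw [hs] at hmm
    rcases mul_eq_zero.mp hmm with h1 | h1
    · exact h1
    · have := h.v1
      linarith
  rw [hm] at φu φw φv hW
  have e0 : ({u, w, v} : Finset E3) = {u, v, w} := by
    ext y
    simp only [Finset.mem_insert, Finset.mem_singleton]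
    tauto
  have c1 : ((σ.erase u).erase w).card = 1 := by
    rw [Finset.card_erase_of_mem (Finset.mem_erase.mpr ⟨d2.symm, hw⟩),
      Finset.card_erase_of_mem hu, (hF.nice σ hσ).1]
  obtain ⟨s, hs'⟩ := Finset.card_eq_one.mp c1
  have eσ : σ = {u, w, s} := by
    rw [← Finset.insert_erase hu, ← Finset.insert_erase (Finset.mem_erase.mpr ⟨d2.symm, hw⟩),
      hs']
  have hsv : v ≠ s := by
    rintro rfl
    exact hne (eσ.trans e0)
  have h1 : ({u, w, v} : Finset E3) ∈ B := by rw [e0]; exact h.m1
  rw [eσ] at hσ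
  have hneg := hF.side_neg h1 hσ hsv
  have hN1 := hF.nice _ h1
  have hφs : φ s = crd {u, w, v} v s * φ v := by
    conv_lhs => rw [← crd_sum3 hN1 s]
    rw [map_add, map_add, map_smul, map_smul, map_smul, φu, φw]
    simp
  have h2 := hW s (hsub (hF.sub _ hσ (by simp)))
  have h3 : 0 < crd {u, w, v} v s * φ v := mul_pos_of_neg_of_neg hneg (by rw [φv]; norm_num)
  linarith

/-- Only two triangles are visible. -/
theorem Pair.not_third (h : Pair W W' B x M u v w t) (hsub : W' ⊆ W) (hF : Fan W' B)
    (h3 : ({u, w, t} : Finset E3) ∈ B) (hv : 1 < gfun {u, w, t} (fun _ => 1) x) : False := by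
  obtain ⟨α, β, γ, hα, hβ, hγ, hr⟩ := h.rel4 hsub hF
  obtain ⟨d1, d2, d3, d4, d5⟩ := h.dist hF
  have hN := hF.nice _ h.m1
  have hN3 := hF.nice _ h3
  set π := gfun {u, w, t} (fun _ => 1) with hπ
  set π0 := gfun {u, v, w} (fun _ => 1) with hπ0
  have a1 : π u = 1 := gfun_mem hN3 _ (by simp)
  have a2 : π w = 1 := gfun_mem hN3 _ (by simp)
  have a3 : π t = 1 := gfun_mem hN3 _ (by simp)
  have a4 : π v ≤ 1 := hF.supp _ h3 v (hF.sub _ h.m1 (by simp))
  have b1 : π0 u = 1 := gfun_mem hN _ (by simp)
  have b2 : π0 v = 1 := gfun_mem hN _ (by simp)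
  have b3 : π0 w = 1 := gfun_mem hN _ (by simp)
  have b4 : π0 t ≤ 1 := hF.supp _ h.m1 t (hF.sub _ h.m2 (by simp))
  have hv0 : 1 < π0 x := h.v1
  have e1 := congrArg π hr
  have e2 := congrArg π0 hr
  simp only [map_add, map_sub, map_smul, smul_eq_mul, a1, a2, a3] at e1
  simp only [map_add, map_sub, map_smul, smul_eq_mul, b1, b2, b3] at e2
  have k1 : α + β ≤ 1 + γ := by
    by_contra hcon
    push Not at hcon
    have h1 : β * (π v - π x) ≤ β * (1 - π x) := mul_le_mul_of_nonneg_left (by linarith) hβ.le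
    have h2 : 0 < (α + β - 1 - γ) * (π x - 1) := mul_pos (by linarith) (by linarith)
    nlinarith
  have k2 : 1 + γ ≤ α + β := by
    by_contra hcon
    push Not at hcon
    have h2 : 0 < (1 + γ - α - β) * (π0 x - 1) := mul_pos (by linarith) (by linarith)
    nlinarith
  have k3 : α + β = 1 + γ := le_antisymm k1 k2
  have e3 : t + γ • w = α • u + β • v := by
    have h1 : t + γ • w - (α • u + β • v) = ((t - x) + γ • (w - x)) -
        (α • (u - x) + β • (v - x)) + (1 + γ - α - β) • x := by module
    rw [hr, sub_self, zero_add] at h1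
    have h2 : 1 + γ - α - β = 0 := by linarith
    rw [h2, zero_smul] at h1
    exact sub_eq_zero.mp h1
  have y1 : t + γ • w ∈ cone {u, w, t} :=
    cone_add (mem_cone_self (by simp)) (cone_smul hγ.le (mem_cone_self (by simp)))
  have y2 : t + γ • w ∈ cone {u, v, w} := by
    rw [e3]
    exact cone_add (cone_smul hα.le (mem_cone_self (by simp)))
      (cone_smul hβ.le (mem_cone_self (by simp)))
  have y3 := hF.inter _ h.m1 _ h3 _ y2 y1
  have hvn : v ∉ ({u, v, w} : Finset E3) ∩ {u, w, t} := by
    simp only [Finset.mem_inter, Finset.mem_insert, Finset.mem_singleton]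
    rintro ⟨_, k | k | k⟩
    · exact d1 k.symm
    · exact d3 k
    · exact d5 k
  have y4 := crd_eq_zero_of_mem_cone hN Finset.inter_subset_left y3
    (by simp : v ∈ ({u, v, w} : Finset E3)) hvn
  rw [e3, map_add, map_smul, map_smul, crd_self hN (by simp), crd_ne hN (by simp) (by simp)
    d1.symm] at y4
  simp only [smul_eq_mul, mul_zero, mul_one, zero_add] at y4
  linarith

theorem Pair.vis2 (h : Pair W W' B x M u v w t) (hsub : W' ⊆ W) (hF : Fan W' B)
    {σ : Finset E3} (hσ : σ ∈ B) (hv : 1 < gfun σ (fun _ => 1) x) :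
    σ = {u, v, w} ∨ σ = {u, v, t} := by
  obtain ⟨d1, d2, d3, d4, d5⟩ := h.dist hF
  have hwt := h.wt
  set N : Finset E3 := {u, v, w, t} with hN
  have hMN : M = N.image (fun y => y - x) := by
    rw [h.hM, hN, Finset.image_insert, Finset.image_insert, Finset.image_insert,
      Finset.image_singleton]
  have hNc : N.card = 4 := by
    rw [hN, Finset.card_insert_of_notMem, Finset.card_insert_of_notMem, Finset.card_pair hwt]
    · simp only [Finset.mem_insert, Finset.mem_singleton]
      push Not
      exact ⟨d3, d5⟩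
    · simp only [Finset.mem_insert, Finset.mem_singleton]
      push Not
      exact ⟨d1, d2, d4⟩
  have h1 : σ ⊆ N := by
    intro y hy
    by_contra hcon
    have hyW := hF.sub σ hσ hy
    have h1 : y - x ∉ M := by
      intro hh
      rw [hMN] at hh
      obtain ⟨y', hy', he⟩ := Finset.mem_image.mp hh
      exact hcon (sub_left_injective he ▸ hy')
    have h2 := h.apx.vis (hF.supp σ hσ) hv (hsub hyW) (h.apx.ne_low hyW) h1
    rw [gfun_mem (hF.nice σ hσ) _ hy] at h2
    exact lt_irrefl _ h2
  have h2 := (hF.nice σ hσ).1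
  obtain ⟨s, hs, hsσ⟩ := Finset.exists_mem_notMem_of_card_lt_card
    (show σ.card < N.card by omega)
  have h3 : ∀ ρ : Finset E3, ρ.card = 3 → (∀ y ∈ N, y ≠ s → y ∈ ρ) → σ = ρ := by
    intro ρ hρ hh
    apply Finset.eq_of_subset_of_card_le
    · intro y hy
      exact hh y (h1 hy) (fun e => hsσ (e ▸ hy))
    · omega
  have card3 : ∀ a b c : E3, a ≠ b → a ≠ c → b ≠ c → ({a, b, c} : Finset E3).card = 3 :=
    fun a b c h1 h2 h3 => Finset.card_eq_three.mpr ⟨a, b, c, h1, h2, h3, rfl⟩
  rw [hN] at hs
  simp only [Finset.mem_insert, Finset.mem_singleton] at hs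
  rcases hs with rfl | rfl | rfl | rfl
  · exfalso
    have e : σ = {v, w, t} := by
      apply h3 _ (card3 _ _ _ d3 d5 hwt)
      intro y hy hne
      rw [hN] at hy
      simp only [Finset.mem_insert, Finset.mem_singleton] at hy ⊢
      rcases hy with h | h | h | h
      · exact absurd h hne
      · exact Or.inl h
      · exact Or.inr (Or.inl h)
      · exact Or.inr (Or.inr h)
    rw [e] at hσ hv
    exact h.flip.not_third hsub hF hσ hv
  · exfalso
    have e : σ = {u, w, t} := by
      apply h3 _ (card3 _ _ _ d2 d4 hwt)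
      intro y hy hne
      rw [hN] at hy
      simp only [Finset.mem_insert, Finset.mem_singleton] at hy ⊢
      rcases hy with h | h | h | h
      · exact Or.inl h
      · exact absurd h hne
      · exact Or.inr (Or.inl h)
      · exact Or.inr (Or.inr h)
    rw [e] at hσ hv
    exact h.not_third hsub hF hσ hv
  · right
    apply h3 _ (card3 _ _ _ d1 d4 d5)
    intro y hy hne
    rw [hN] at hy
    simp only [Finset.mem_insert, Finset.mem_singleton] at hy ⊢
    rcases hy with h | h | h | h
    · exact Or.inl h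
    · exact Or.inr (Or.inl h)
    · exact absurd h hne
    · exact Or.inr (Or.inr h)
  · left
    apply h3 _ (card3 _ _ _ d1 d2 d3)
    intro y hy hne
    rw [hN] at hy
    simp only [Finset.mem_insert, Finset.mem_singleton] at hy ⊢
    rcases hy with h | h | h | h
    · exact Or.inl h
    · exact Or.inr (Or.inl h)
    · exact Or.inr (Or.inr h)
    · exact absurd h hne

theorem Pair.star_cover0 (h : Pair W W' B x M u v w t) (hsub : W' ⊆ W) (hF : Fan W' B)
    (hr0 : 0 < crd {u, v, w} v x) (hq : 0 ≤ crd {u, v, w} w x)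
    (hpq : 0 < crd {u, v, w} u x ∨ 0 < crd {u, v, w} w x) :
    (∀ y, (y ∈ cone {u, v, w} ∨ y ∈ cone {u, v, t}) →
      (y ∈ cone {x, u, w} ∨ (0 < crd {u, v, w} u x ∧ y ∈ cone {x, v, w})) ∨
        y ∈ cone {x, u, t} ∨ y ∈ cone {x, v, t}) ∧
    0 < crd {u, v, t} u x ∧ 0 < crd {u, v, t} v x := by
  obtain ⟨α, β, γ, hα, hβ, hγ, hr⟩ := h.rel4 hsub hF
  obtain ⟨d1, d2, d3, d4, d5⟩ := h.dist hF
  have hN := hF.nice _ h.m1
  have hN2 := hF.nice _ h.m2
  have hp0 : 0 ≤ crd {u, v, w} u x := by
    have := h.flip.nonneg hsub hF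
    rwa [Finset.insert_comm v u {w}] at this
  have hneg := hF.side_neg h.m1 h.m2 h.wt
  set p := crd {u, v, w} u x with hp
  set r := crd {u, v, w} v x with hr'
  set q := crd {u, v, w} w x with hq'
  have hx : p • u + r • v + q • w = x := crd_sum3 hN x
  set κ := α + β - γ - 1 with hκ
  have ht : t + κ • x = α • u + β • v - γ • w := by
    have h1 : t + κ • x - (α • u + β • v - γ • w) = ((t - x) + γ • (w - x)) -
        (α • (u - x) + β • (v - x)) := by
      rw [hκ]; module
    rw [hr, sub_self] at h1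
    exact sub_eq_zero.mp h1
  have hct : crd {u, v, w} w t = -γ - κ * q := by
    have := congrArg (crd {u, v, w} w) ht
    rw [map_add, map_sub, map_add, map_smul, map_smul, map_smul, map_smul,
      crd_ne hN (by simp) (by simp) d2.symm, crd_ne hN (by simp) (by simp) d3.symm,
      crd_self hN (by simp), ← hq'] at this
    simp only [smul_eq_mul, mul_zero, mul_one] at this
    linarith
  set ρ := γ + κ * q with hρ
  have hρ0 : 0 < ρ := by rw [hρ]; linarith
  have E : q • t + ρ • x = (α * q + γ * p) • u + (β * q + γ * r) • v := by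
    have h1 : q • t + ρ • x = q • (t + κ • x) + γ • x := by rw [hρ]; module
    rw [h1, ht]
    conv_lhs => rw [← hx]
    module
  have ha0 : 0 < α * q + γ * p := by
    rcases hpq with h1 | h1
    · have h2 : 0 < γ * p := mul_pos hγ h1
      have h3 : 0 ≤ α * q := mul_nonneg hα.le hq
      linarith
    · have h2 : 0 < α * q := mul_pos hα h1
      have h3 : 0 ≤ γ * p := mul_nonneg hγ.le hp0
      linarith
  have hb0 : 0 < β * q + γ * r := by positivity
  set a0 := α * q + γ * p with ha0'
  set b0 := β * q + γ * r with hb0'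
  have key : ∀ (y : E3) (a b c s : ℝ), 0 ≤ a → 0 ≤ b → 0 ≤ c → 0 ≤ s →
      y = s • x + a • u + b • v + c • t → y ∈ cone {x, u, t} ∨ y ∈ cone {x, v, t} := by
    intro y a b c s ha hb hc hs hy
    rcases le_total (a * b0) (b * a0) with hle | hle
    · right
      have h1 : y = (s + a / a0 * ρ) • x + (b - a / a0 * b0) • v + (c + a / a0 * q) • t := by
        have h2 : a • u = (a / a0) • (q • t + ρ • x) - (a / a0 * b0) • v := by
          rw [E]
          have : a / a0 * a0 = a := div_mul_cancel₀ _ ha0.ne'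
          conv_lhs => rw [← this]
          module
        rw [hy, h2]
        module
      rw [h1]
      refine mem_tri3 (by positivity) ?_ (by positivity)
      rw [sub_nonneg, div_mul_eq_mul_div, div_le_iff₀ ha0]
      exact hle
    · left
      have h1 : y = (s + b / b0 * ρ) • x + (a - b / b0 * a0) • u + (c + b / b0 * q) • t := by
        have h2 : b • v = (b / b0) • (q • t + ρ • x) - (b / b0 * a0) • u := by
          rw [E]
          have : b / b0 * b0 = b := div_mul_cancel₀ _ hb0.ne'
          conv_lhs => rw [← this]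
          module
        rw [hy, h2]
        module
      rw [h1]
      refine mem_tri3 (by positivity) ?_ (by positivity)
      rw [sub_nonneg, div_mul_eq_mul_div, div_le_iff₀ hb0]
      exact hle
  refine ⟨?_, ?_⟩
  · intro y hy
    rcases hy with hy | hy
    · have hc := (mem_cone_iff_crd hN).mp hy
      have hs := crd_sum3 hN y
      set a := crd {u, v, w} u y with ha
      set b := crd {u, v, w} v y with hb
      set c := crd {u, v, w} w y with hc'
      have a1 : 0 ≤ a := hc u (by simp)
      have b1 : 0 ≤ b := hc v (by simp)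
      have c1 : 0 ≤ c := hc w (by simp)
      by_cases h1 : 0 < p ∧ a * r ≤ b * p ∧ a * q ≤ c * p
      · left; right
        obtain ⟨hp1, h11, h12⟩ := h1
        refine ⟨hp1, ?_⟩
        have h2 : y = (a / p) • x + (b - a / p * r) • v + (c - a / p * q) • w := by
          rw [← hx, ← hs]
          have : a / p * p = a := div_mul_cancel₀ _ hp1.ne'
          conv_lhs => rw [← this]
          module
        rw [h2]
        refine mem_tri3 (by positivity) ?_ ?_
        · rw [sub_nonneg, div_mul_eq_mul_div, div_le_iff₀ hp1]; exact h11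
        · rw [sub_nonneg, div_mul_eq_mul_div, div_le_iff₀ hp1]; exact h12
      · by_cases h2 : b * p ≤ a * r ∧ b * q ≤ c * r
        · left; left
          have h3 : y = (b / r) • x + (a - b / r * p) • u + (c - b / r * q) • w := by
            rw [← hx, ← hs]
            have : b / r * r = b := div_mul_cancel₀ _ hr0.ne'
            conv_lhs => rw [← this]
            module
          rw [h3]
          refine mem_tri3 (by positivity) ?_ ?_
          · rw [sub_nonneg, div_mul_eq_mul_div, div_le_iff₀ hr0]; exact h2.1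
          · rw [sub_nonneg, div_mul_eq_mul_div, div_le_iff₀ hr0]; exact h2.2
        · right
          -- here the third coordinate is the smallest one
          have hlt : 0 < q ∧ c * p ≤ a * q ∧ c * r ≤ b * q := by
            rcases lt_or_eq_of_le hp0 with hp1 | hp1
            · have hq1 : c * p < a * q ∧ c * r < b * q := by
                rcases le_total (a * r) (b * p) with h3 | h3
                · have h4 : c * p < a * q := by
                    by_contra hcon
                    push Not at hcon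
                    exact h1 ⟨hp1, h3, hcon⟩
                  refine ⟨h4, ?_⟩
                  have h5 : c * p * r < a * q * r := mul_lt_mul_of_pos_right h4 hr0
                  have h6 : a * r * q ≤ b * p * q := mul_le_mul_of_nonneg_right h3 hq
                  by_contra hcon
                  push Not at hcon
                  have h7 : b * q * p ≤ c * r * p := mul_le_mul_of_nonneg_right hcon hp0
                  nlinarith
                · have h4 : c * r < b * q := by
                    by_contra hcon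
                    push Not at hcon
                    exact h2 ⟨h3, hcon⟩
                  refine ⟨?_, h4⟩
                  have h5 : c * r * p < b * q * p := mul_lt_mul_of_pos_right h4 hp1
                  have h6 : b * p * q ≤ a * r * q := mul_le_mul_of_nonneg_right h3 hq
                  by_contra hcon
                  push Not at hcon
                  have h7 : a * q * r ≤ c * p * r := mul_le_mul_of_nonneg_right hcon hr0.le
                  nlinarith
              refine ⟨?_, hq1.1.le, hq1.2.le⟩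
              rcases lt_or_eq_of_le hq with h5 | h5
              · exact h5
              · exfalso
                have h6 := hq1.1
                rw [← h5, mul_zero] at h6
                have : 0 ≤ c * p := mul_nonneg c1 hp0
                linarith
            · have hq1 : 0 < q := by
                rcases hpq with h5 | h5
                · rw [← hp1] at h5; exact absurd h5 (lt_irrefl _)
                · exact h5
              have h4 : c * r < b * q := by
                by_contra hcon
                push Not at hcon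
                refine h2 ⟨?_, hcon⟩
                rw [← hp1, mul_zero]
                exact mul_nonneg a1 hr0.le
              refine ⟨hq1, ?_, h4.le⟩
              rw [← hp1, mul_zero]
              exact mul_nonneg a1 hq
          obtain ⟨hq1, hl1, hl2⟩ := hlt
          apply key y (a - c / q * p) (b - c / q * r) 0 (c / q) _ _ le_rfl (by positivity)
          · have : c / q * q = c := div_mul_cancel₀ _ hq1.ne'
            rw [← hx, ← hs]
            conv_lhs => rw [← this]
            module
          · rw [sub_nonneg, div_mul_eq_mul_div, div_le_iff₀ hq1]; exact hl1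
          · rw [sub_nonneg, div_mul_eq_mul_div, div_le_iff₀ hq1]; exact hl2
    · have hc := (mem_cone_iff_crd hN2).mp hy
      have hs := crd_sum3 hN2 y
      right
      refine key y (crd {u, v, t} u y) (crd {u, v, t} v y) (crd {u, v, t} t y) 0
        (hc u (by simp)) (hc v (by simp)) (hc t (by simp)) le_rfl ?_
      rw [zero_smul, zero_add]
      exact hs.symm
  · -- the coordinates with respect to the other triangle
    have cc : ∀ k : E3 →ₗ[ℝ] ℝ, q * k t + ρ * k x = a0 * k u + b0 * k v := by
      intro k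
      have := congrArg k E
      simpa only [map_add, map_smul, smul_eq_mul] using this
    constructor
    · have h1 := cc (crd {u, v, t} u)
      rw [crd_ne hN2 (by simp) (by simp) d4, crd_self hN2 (by simp),
        crd_ne hN2 (by simp) (by simp) d1] at h1
      have h2 : ρ * crd {u, v, t} u x = a0 := by linarith
      rw [← h2] at ha0
      exact (mul_pos_iff_of_pos_left hρ0).mp ha0
    · have h1 := cc (crd {u, v, t} v)
      rw [crd_ne hN2 (by simp) (by simp) d5, crd_self hN2 (by simp),
        crd_ne hN2 (by simp) (by simp) d1.symm] at h1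
      have h2 : ρ * crd {u, v, t} v x = b0 := by linarith
      rw [← h2] at hb0
      exact (mul_pos_iff_of_pos_left hρ0).mp hb0

end

end Run7.h169
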