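import Pool.Agent.Run7.h169.Iv7

set_option autoImplicit false
open scoped Classical Topology
open Filter

namespace Run7.h169

theorem replace_chain {α : Type*} {R : α → α → Prop} (hsymm : ∀ a b, R a b → R b a)
    {L : List α} (hnd : L.Nodup) (hL : L.IsChain R) {τ n1 n2 : α} (hτ : τ ∈ L) (hn : R n1 n2)
    {A1 A2 : α → Prop} (hA : ∀ y ∈ L, y ≠ τ → R τ y → A1 y ∨ A2 y) (h1 : ∀ y, A1 y → R n1 y)
    (h2 : ∀ y, A2 y → R n2 y)
    (u1 : ∀ y ∈ L, ∀ y' ∈ L, y ≠ τ → y' ≠ τ → A1 y → A1 y' → y = y')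
    (u2 : ∀ y ∈ L, ∀ y' ∈ L, y ≠ τ → y' ≠ τ → A2 y → A2 y' → y = y') :
    ∃ L1 L2 a b, L = L1 ++ τ :: L2 ∧ ((a = n1 ∧ b = n2) ∨ (a = n2 ∧ b = n1)) ∧
      (L1 ++ a :: b :: L2).IsChain R := by
  obtain ⟨L1, L2, rfl⟩ := List.append_of_mem hτ
  rw [List.isChain_split] at hL
  obtain ⟨c1, c2⟩ := hL
  have hn' := hsymm _ _ hn
  -- the left part
  have left : ∀ a, (∀ y, y ∈ L1.getLast? → R y a) → (L1 ++ [a]).IsChain R := by
    intro a ha
    rcases List.eq_nil_or_concat' L1 with h | ⟨P, y, h⟩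
    · rw [h]; simp
    · subst h
      rw [List.append_assoc, List.singleton_append, List.isChain_split] at c1 ⊢
      refine ⟨c1.1, ?_⟩
      have := ha y (by simp)
      simp [List.isChain_cons_cons, this]
  have right : ∀ b, (∀ y, y ∈ L2.head? → R b y) → (b :: L2).IsChain R := by
    intro b hb
    cases L2 with
    | nil => simp
    | cons y Q =>
      rw [List.isChain_cons_cons] at c2 ⊢
      exact ⟨hb y (by simp), c2.2⟩
  have fin : ∀ a b, R a b → (∀ y, y ∈ L1.getLast? → R y a) → (∀ y, y ∈ L2.head? → R b y) →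
      (L1 ++ a :: b :: L2).IsChain R := by
    intro a b hab ha hb
    rw [List.isChain_split]
    refine ⟨left a ha, ?_⟩
    rw [List.isChain_cons_cons]
    exact ⟨hab, right b hb⟩
  have hnd' := List.nodup_append.mp hnd
  have hτ1 : ∀ y ∈ L1, y ≠ τ := fun y hy h => hnd'.2.2 y hy τ (by simp) h
  have hτ2 : ∀ y ∈ L2, y ≠ τ := fun y hy h => (List.nodup_cons.mp hnd'.2.1).1 (h ▸ hy)
  have m1 : ∀ y, y ∈ L1.getLast? → y ∈ L1 ∧ (A1 y ∨ A2 y) := by
    intro y hy
    rcases List.eq_nil_or_concat' L1 with h | ⟨P, y', h⟩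
    · rw [h] at hy; simp at hy
    · subst h
      simp at hy
      subst hy
      rw [List.append_assoc, List.singleton_append, List.isChain_split] at c1
      have h3 : R y' τ := by
        have := c1.2
        rw [List.isChain_cons_cons] at this
        exact this.1
      exact ⟨by simp, hA y' (by simp) (hτ1 y' (by simp)) (hsymm _ _ h3)⟩
  have m2 : ∀ y, y ∈ L2.head? → y ∈ L2 ∧ (A1 y ∨ A2 y) := by
    intro y hy
    cases L2 with
    | nil => simp at hy
    | cons y' Q =>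
      simp at hy
      subst hy
      rw [List.isChain_cons_cons] at c2
      exact ⟨by simp, hA y' (by simp) (hτ2 y' (by simp)) c2.1⟩
  have one : ∀ y, y ∈ L1.getLast? → ∀ y', y' ∈ L1.getLast? → y = y' := by
    intro y hy y' hy'
    have e1 : L1.getLast? = some y := hy
    have e2 : L1.getLast? = some y' := hy'
    rw [e1] at e2
    exact Option.some.inj e2
  have one2 : ∀ y, y ∈ L2.head? → ∀ y', y' ∈ L2.head? → y = y' := by
    intro y hy y' hy'
    have e1 : L2.head? = some y := hy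
    have e2 : L2.head? = some y' := hy'
    rw [e1] at e2
    exact Option.some.inj e2
  have hne : ∀ y ∈ L1, ∀ y' ∈ L2, y ≠ y' := fun y hy y' hy' =>
    hnd'.2.2 y hy y' (List.mem_cons_of_mem _ hy')
  have mem1 : ∀ y ∈ L1, y ∈ L1 ++ τ :: L2 := fun y hy => List.mem_append.mpr (Or.inl hy)
  have mem2 : ∀ y ∈ L2, y ∈ L1 ++ τ :: L2 := fun y hy =>
    List.mem_append.mpr (Or.inr (List.mem_cons_of_mem _ hy))
  by_cases hl : (∀ y, y ∈ L1.getLast? → A1 y) ∧ (∀ y, y ∈ L2.head? → A2 y)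
  · exact ⟨L1, L2, n1, n2, rfl, Or.inl ⟨rfl, rfl⟩,
      fin n1 n2 hn (fun y hy => hsymm _ _ (h1 y (hl.1 y hy))) (fun y hy => h2 y (hl.2 y hy))⟩
  · refine ⟨L1, L2, n2, n1, rfl, Or.inr ⟨rfl, rfl⟩, fin n2 n1 hn' ?_ ?_⟩
    · intro y hy
      apply hsymm
      apply h2
      obtain ⟨y1, y2⟩ := m1 y hy
      rcases y2 with y2 | y2
      · exfalso
        apply hl
        refine ⟨fun y' hy' => (one y hy y' hy') ▸ y2, fun z hz => ?_⟩
        obtain ⟨z1, z2⟩ := m2 z hz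
        rcases z2 with z2 | z2
        · exact absurd (u1 y (mem1 y y1) z (mem2 z z1) (hτ1 y y1) (hτ2 z z1) y2 z2)
            (hne y y1 z z1)
        · exact z2
      · exact y2
    · intro z hz
      apply h1
      obtain ⟨z1, z2⟩ := m2 z hz
      rcases z2 with z2 | z2
      · exact z2
      · exfalso
        apply hl
        refine ⟨fun y hy => ?_, fun z' hz' => (one2 z hz z' hz') ▸ z2⟩
        obtain ⟨y1, y2⟩ := m1 y hy
        rcases y2 with y2 | y2
        · exact y2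
        · exact absurd (u2 y (mem1 y y1) z (mem2 z z1) (hτ1 y y1) (hτ2 z z1) y2 z2)
            (hne y y1 z z1)

section

variable {W W' : Finset E3} {x : E3} {M : Finset E3} {B : Finset (Finset E3)} {u v w t : E3}
  {χ : E3 → Bool}

theorem Fan.uniq3 (hF : Fan W B) {a b : E3} (hab : a ≠ b) {τ σ σ' : Finset E3} (hτ : τ ∈ B)
    (hσ : σ ∈ B) (hσ' : σ' ∈ B) (hne : σ ≠ τ) (hne' : σ' ≠ τ) (ha : a ∈ τ ∧ b ∈ τ)
    (h1 : a ∈ σ ∧ b ∈ σ) (h2 : a ∈ σ' ∧ b ∈ σ') : σ = σ' := by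
  by_contra hcon
  have hle := hF.cnt_le hab
  have h3 : ({τ, σ, σ'} : Finset (Finset E3)) ⊆ B.filter (fun τ => a ∈ τ ∧ b ∈ τ) := by
    intro ρ hρ
    simp only [Finset.mem_insert, Finset.mem_singleton] at hρ
    rw [Finset.mem_filter]
    rcases hρ with rfl | rfl | rfl
    · exact ⟨hτ, ha⟩
    · exact ⟨hσ, h1⟩
    · exact ⟨hσ', h2⟩
  have h4 := Finset.card_le_card h3
  have h5 : ({τ, σ, σ'} : Finset (Finset E3)).card = 3 :=
    Finset.card_eq_three.mpr ⟨_, _, _, Ne.symm hne, Ne.symm hne', hcon, rfl⟩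
  rw [h5] at h4
  have h6 : cnt B a b = (B.filter (fun τ => a ∈ τ ∧ b ∈ τ)).card := rfl
  omega

theorem Pair.normal0 (h : Pair W W' B x M u v w t) (hC : Cfg W) (hsub : W' ⊆ W)
    (hF : Fan W' B) (hχ : χ u = χ v) (hx : x ∈ cone {u, v, w}) :
    ∃ u v w t, Pair W W' B x M u v w t ∧ χ u = χ v ∧ 0 < crd {u, v, w} v x ∧
      0 ≤ crd {u, v, w} w x ∧ (0 < crd {u, v, w} u x ∨ 0 < crd {u, v, w} w x) := by
  have hN := hF.nice _ h.m1
  obtain ⟨n1, n2, n3, n4⟩ := h.notMem hF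
  have hxW := h.apx.xW
  have mW : ∀ y ∈ ({u, v, w} : Finset E3), y ∈ W := fun y hy => hsub (hF.sub _ h.m1 hy)
  have hcr := (mem_cone_iff_crd hN).mp hx
  have hs := crd_sum3 hN x
  have p0 := hcr u (by simp)
  have r0 := hcr v (by simp)
  have q0 := hcr w (by simp)
  have e1 : ({v, u, w} : Finset E3) = {u, v, w} := Finset.insert_comm v u {w}
  rcases lt_or_eq_of_le r0 with hr | hr
  · refine ⟨u, v, w, t, h, hχ, hr, q0, ?_⟩
    by_contra hcon
    push Not at hcon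
    have hp : crd {u, v, w} u x = 0 := le_antisymm hcon.1 p0
    have hq : crd {u, v, w} w x = 0 := le_antisymm hcon.2 q0
    rw [hp, hq, zero_smul, zero_smul, zero_add, add_zero] at hs
    exact hC.ray_ne hxW (mW v (by simp)) n2 hs.symm
  · rw [← hr, zero_smul, add_zero] at hs
    refine ⟨v, u, w, t, h.flip, hχ.symm, ?_, ?_, ?_⟩
    · rw [e1]
      rcases lt_or_eq_of_le p0 with hp | hp
      · exact hp
      · exfalso
        rw [← hp, zero_smul, zero_add] at hs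
        exact hC.ray_ne hxW (mW w (by simp)) n3 hs.symm
    · rw [e1]; exact q0
    · right
      rw [e1]
      rcases lt_or_eq_of_le q0 with hq | hq
      · exact hq
      · exfalso
        rw [← hq, zero_smul, add_zero] at hs
        exact hC.ray_ne hxW (mW u (by simp)) n1 hs.symm

theorem Pair.normal (h : Pair W W' B x M u v w t) (hC : Cfg W) (hsub : W' ⊆ W)
    (hF : Fan W' B) (hχ : χ u = χ v) :
    ∃ u v w t, Pair W W' B x M u v w t ∧ χ u = χ v ∧ 0 < crd {u, v, w} v x ∧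
      0 ≤ crd {u, v, w} w x ∧ (0 < crd {u, v, w} u x ∨ 0 < crd {u, v, w} w x) := by
  obtain ⟨σ, hσ, hx⟩ := hF.cover x h.apx.mem_cone
  have hv := h.apx.beyond hC hsub hF hσ hx
  rcases h.vis2 hsub hF hσ hv with rfl | rfl
  · exact h.normal0 hC hsub hF hχ hx
  · exact h.swap.normal0 hC hsub hF hχ hx

theorem Pair.star_tri (h : Pair W W' B x M u v w t) (hsub : W' ⊆ W)
    (hF : Fan W' B) (hs : 0 < crd {u, v, w} v x) : Nice {x, u, w} ∧
      (∀ s ∈ ({x, u, v, w, t} : Finset E3), s ∉ ({x, u, w} : Finset E3) →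
        gfun {x, u, w} (fun _ => 1) s < 1) ∧
      (∀ y ∈ W, gfun {x, u, w} (fun _ => 1) y ≤ 1) ∧
      (∀ σ ∈ B, gfun σ (fun _ => 1) x ≤ 1 → ∀ y, y ∈ cone {x, u, w} → y ∈ cone σ →
        y ∈ cone ({x, u, w} ∩ σ)) := by
  obtain ⟨s1, s3, s4, s5⟩ := h.side hsub hF hs
  have hN := hF.nice _ h.m1
  refine ⟨s1, ?_, s5, ?_⟩
  · intro s hs hn
    simp only [Finset.mem_insert, Finset.mem_singleton, not_or] at hs hn
    rcases hs with rfl | rfl | rfl | rfl | rfl
    · exact absurd rfl hn.1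
    · exact absurd rfl hn.2.1
    · exact s3
    · exact absurd rfl hn.2.2
    · exact s4
  · intro σ hσ hx y hy hy'
    have hu : u ∈ W' := hF.sub _ h.m1 (by simp)
    have hw : w ∈ W' := hF.sub _ h.m1 (by simp)
    have h1 : y ∈ cone {u, w} := inter_old s1 (hF.nice σ hσ)
      (fun s hs => s5 s (hsub (hF.sub σ hσ hs))) hx (hF.supp σ hσ u hu) (hF.supp σ hσ w hw)
      (π := gfun {u, v, w} (fun _ => 1)) (gfun_mem hN _ (by simp)) (gfun_mem hN _ (by simp))
      h.v1 (fun s hs => hF.supp _ h.m1 s (hF.sub σ hσ hs)) hy hy'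
    have h2 : ({u, w} : Finset E3) ⊆ {u, v, w} := by
      intro s hs
      simp only [Finset.mem_insert, Finset.mem_singleton] at hs ⊢
      rcases hs with h | h
      · exact Or.inl h
      · exact Or.inr (Or.inr h)
    have h3 := hF.inter _ h.m1 _ hσ y (cone_mono h2 h1) hy'
    have h4 := cone_inter_nice hN h2 Finset.inter_subset_left h1 h3
    refine cone_mono ?_ h4
    intro s hs
    obtain ⟨k1, k2⟩ := Finset.mem_inter.mp hs
    refine Finset.mem_inter.mpr ⟨?_, (Finset.mem_inter.mp k2).2⟩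
    exact Finset.mem_insert_of_mem k1

theorem Pair.star_fan (h : Pair W W' B x M u v w t) (hsub : W' ⊆ W)
    (hF : Fan W' B) (hr : 0 < crd {u, v, w} v x) (hq : 0 ≤ crd {u, v, w} w x)
    (hpq : 0 < crd {u, v, w} u x ∨ 0 < crd {u, v, w} w x) {B' : Finset (Finset E3)}
    (hB' : ∀ τ, τ ∈ B' ↔ (τ ∈ B ∧ τ ≠ {u, v, w} ∧ τ ≠ {u, v, t}) ∨
      (τ = {x, u, w} ∨ (0 < crd {u, v, w} u x ∧ τ = {x, v, w}) ∨ τ = {x, u, t} ∨
        τ = {x, v, t})) :
    Fan (insert x W') B' := by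
  obtain ⟨hcov, hpu, hpv⟩ := h.star_cover0 hsub hF hr hq hpq
  have hN5 : ∀ τ : Finset E3, (τ = {x, u, w} ∨ (0 < crd {u, v, w} u x ∧ τ = {x, v, w}) ∨
      τ = {x, u, t} ∨ τ = {x, v, t}) → τ ⊆ {x, u, v, w, t} := by
    rintro τ (rfl | ⟨_, rfl⟩ | rfl | rfl) <;> intro s hs <;>
      simp only [Finset.mem_insert, Finset.mem_singleton] at hs ⊢ <;>
      rcases hs with h | h | h <;> simp [h]
  have new : ∀ τ : Finset E3, (τ = {x, u, w} ∨ (0 < crd {u, v, w} u x ∧ τ = {x, v, w}) ∨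
      τ = {x, u, t} ∨ τ = {x, v, t}) → Nice τ ∧
      (∀ s ∈ ({x, u, v, w, t} : Finset E3), s ∉ τ → gfun τ (fun _ => 1) s < 1) ∧
      (∀ y ∈ W, gfun τ (fun _ => 1) y ≤ 1) ∧
      (∀ σ ∈ B, gfun σ (fun _ => 1) x ≤ 1 → ∀ y, y ∈ cone τ → y ∈ cone σ →
        y ∈ cone (τ ∩ σ)) := by
    have e1 : ({v, u, w} : Finset E3) = {u, v, w} := Finset.insert_comm v u {w}
    have e2 : ({v, u, t} : Finset E3) = {u, v, t} := Finset.insert_comm v u {t}
    rintro τ (rfl | ⟨hp, rfl⟩ | rfl | rfl)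
    · exact h.star_tri hsub hF hr
    · obtain ⟨a1, a2, a3, a4⟩ := h.flip.star_tri hsub hF (by rw [e1]; exact hp)
      refine ⟨a1, fun s hs => a2 s ?_, a3, a4⟩
      simp only [Finset.mem_insert, Finset.mem_singleton] at hs ⊢
      rcases hs with h | h | h | h | h <;> simp [h]
    · obtain ⟨a1, a2, a3, a4⟩ := h.swap.star_tri hsub hF hpv
      refine ⟨a1, fun s hs => a2 s ?_, a3, a4⟩
      simp only [Finset.mem_insert, Finset.mem_singleton] at hs ⊢
      rcases hs with h | h | h | h | h <;> simp [h]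
    · obtain ⟨a1, a2, a3, a4⟩ := h.swap.flip.star_tri hsub hF (by rw [e2]; exact hpu)
      refine ⟨a1, fun s hs => a2 s ?_, a3, a4⟩
      simp only [Finset.mem_insert, Finset.mem_singleton] at hs ⊢
      rcases hs with h | h | h | h | h <;> simp [h]
  have old : ∀ τ : Finset E3, (τ ∈ B ∧ τ ≠ {u, v, w} ∧ τ ≠ {u, v, t}) →
      gfun τ (fun _ => 1) x ≤ 1 := by
    rintro τ ⟨h1, h2, h3⟩
    by_contra hcon
    push Not at hcon
    rcases h.vis2 hsub hF h1 hcon with h4 | h4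
    · exact h2 h4
    · exact h3 h4
  have hsub' : insert x W' ⊆ W := Finset.insert_subset h.apx.xW hsub
  have hu : u ∈ W' := hF.sub _ h.m1 (by simp)
  have hv : v ∈ W' := hF.sub _ h.m1 (by simp)
  have hw : w ∈ W' := hF.sub _ h.m1 (by simp)
  have ht : t ∈ W' := hF.sub _ h.m2 (by simp)
  refine ⟨?_, ?_, ?_, ?_, ?_⟩
  · intro τ hτ
    rcases (hB' τ).mp hτ with h1 | h1
    · exact (hF.sub τ h1.1).trans (Finset.subset_insert _ _)
    · refine (hN5 τ h1).trans ?_
      intro s hs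
      simp only [Finset.mem_insert, Finset.mem_singleton] at hs ⊢
      rcases hs with h | h | h | h | h
      · exact Or.inl h
      · right; rw [h]; exact hu
      · right; rw [h]; exact hv
      · right; rw [h]; exact hw
      · right; rw [h]; exact ht
  · intro τ hτ
    rcases (hB' τ).mp hτ with h1 | h1
    · exact hF.nice τ h1.1
    · exact (new τ h1).1
  · intro τ hτ y hy
    rcases (hB' τ).mp hτ with h1 | h1
    · rcases Finset.mem_insert.mp hy with h2 | h2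
      · rw [h2]; exact old τ h1
      · exact hF.supp τ h1.1 y h2
    · exact (new τ h1).2.2.1 y (hsub' hy)
  · intro τ hτ τ' hτ' y hy hy'
    rcases (hB' τ).mp hτ with h1 | h1 <;> rcases (hB' τ').mp hτ' with h2 | h2
    · exact hF.inter τ h1.1 τ' h2.1 y hy hy'
    · rw [Finset.inter_comm]
      exact (new τ' h2).2.2.2 τ h1.1 (old τ h1) y hy' hy
    · exact (new τ h1).2.2.2 τ' h2.1 (old τ' h2) y hy hy'
    · exact inter_strict (new τ h1).1 (new τ' h2).1
        (fun s hs hn => (new τ h1).2.1 s (hN5 τ' h2 hs) hn)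
        (fun s hs hn => (new τ' h2).2.1 s (hN5 τ h1 hs) hn) hy hy'
  · intro y hy
    have hy' : y ∈ cone W' := by
      refine cone_trans ?_ hy
      intro p hp
      rcases Finset.mem_insert.mp hp with h1 | h1
      · rw [h1]; exact h.apx.mem_cone
      · exact mem_cone_self h1
    obtain ⟨σ, hσ, hyσ⟩ := hF.cover y hy'
    by_cases h1 : σ ≠ {u, v, w} ∧ σ ≠ {u, v, t}
    · exact ⟨σ, (hB' σ).mpr (Or.inl ⟨hσ, h1⟩), hyσ⟩
    · have h2 : y ∈ cone {u, v, w} ∨ y ∈ cone {u, v, t} := by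
        by_cases h3 : σ = {u, v, w}
        · left; rw [← h3]; exact hyσ
        · right
          have h4 : σ = {u, v, t} := by
            by_contra h4
            exact h1 ⟨h3, h4⟩
          rw [← h4]; exact hyσ
      rcases hcov y h2 with (h3 | ⟨hp, h3⟩) | h3 | h3
      · exact ⟨_, (hB' _).mpr (Or.inr (Or.inl rfl)), h3⟩
      · exact ⟨_, (hB' _).mpr (Or.inr (Or.inr (Or.inl ⟨hp, rfl⟩))), h3⟩
      · exact ⟨_, (hB' _).mpr (Or.inr (Or.inr (Or.inr (Or.inl rfl)))), h3⟩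
      · exact ⟨_, (hB' _).mpr (Or.inr (Or.inr (Or.inr (Or.inr rfl)))), h3⟩

end

end Run7.h169
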