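import Pool.Agent.Run7.h169.Iv8

set_option autoImplicit false
open scoped Classical Topology
open Filter

namespace Run7.h169

section

variable {W W' : Finset E3} {x : E3} {M : Finset E3} {B : Finset (Finset E3)} {u v w t : E3}
  {χ : E3 → Bool}

theorem mem_mid {α : Type*} {L1 L2 : List α} {a b y : α} :
    y ∈ L1 ++ a :: b :: L2 ↔ (y ∈ L1 ∨ y ∈ L2) ∨ (y = a ∨ y = b) := by
  simp only [List.mem_append, List.mem_cons]
  tauto

theorem bool_third {a b c : Bool} (h1 : a ≠ b) (h2 : a ≠ c) : b = c := by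
  cases a <;> cases b <;> cases c <;> simp_all

theorem not_mono_tri {χ : E3 → Bool} {a b c : E3} (h : χ b ≠ χ c) : ¬ Mono χ {a, b, c} :=
  fun hm => h (hm b (by simp) c (by simp))

theorem replace_one {α : Type*} {R : α → α → Prop} (hsymm : ∀ a b, R a b → R b a)
    {L : List α} (hnd : L.Nodup) (hL : L.IsChain R) {τ n1 : α} (hn1 : n1 ∉ L)
    (hA : ∀ y ∈ L, y ≠ τ → R τ y → R n1 y) :
    (L.map (fun y => if y = τ then n1 else y)).Nodup ∧
      (L.map (fun y => if y = τ then n1 else y)).IsChain R ∧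
      (τ ∈ L → ∀ y, y ∈ L.map (fun y => if y = τ then n1 else y) ↔
        (y ∈ L ∧ y ≠ τ) ∨ y = n1) := by
  refine ⟨?_, ?_, ?_⟩
  · apply List.Nodup.map_on _ hnd
    intro a ha b hb hab
    by_cases h1 : a = τ <;> by_cases h2 : b = τ
    · rw [h1, h2]
    · rw [if_pos h1, if_neg h2] at hab
      exact absurd (hab ▸ hb) hn1
    · rw [if_neg h1, if_pos h2] at hab
      exact absurd (hab ▸ ha) hn1
    · rwa [if_neg h1, if_neg h2] at hab
  · rw [List.isChain_map]
    rw [List.isChain_iff_getElem] at hL ⊢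
    intro i hi
    have hR := hL i hi
    have hne : L[i] ≠ L[i + 1] := by
      intro h
      have := (hnd.getElem_inj_iff).mp h
      omega
    have m1 : L[i] ∈ L := List.getElem_mem _
    have m2 : L[i + 1] ∈ L := List.getElem_mem _
    by_cases h1 : L[i] = τ
    · have h2 : L[i + 1] ≠ τ := fun hh => hne (h1.trans hh.symm)
      rw [if_pos h1, if_neg h2]
      exact hA _ m2 h2 (h1 ▸ hR)
    · by_cases h2 : L[i + 1] = τ
      · rw [if_neg h1, if_pos h2]
        exact hsymm _ _ (hA _ m1 h1 (h2 ▸ hsymm _ _ hR))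
      · rw [if_neg h1, if_neg h2]
        exact hR
  · intro hτ y
    rw [List.mem_map]
    constructor
    · rintro ⟨a, ha, rfl⟩
      by_cases h1 : a = τ
      · rw [if_pos h1]; exact Or.inr rfl
      · rw [if_neg h1]; exact Or.inl ⟨ha, h1⟩
    · rintro (⟨h1, h2⟩ | h1)
      · exact ⟨y, h1, if_neg h2⟩
      · exact ⟨τ, hτ, by rw [if_pos rfl, h1]⟩

/-- Starring a vertex with a monochromatic diagonal. -/
theorem Pair.star_step0 (h : Pair W W' B x M u v w t) (hsub : W' ⊆ W)
    (hF : Fan W' B) (hr : 0 < crd {u, v, w} v x) (hq : 0 ≤ crd {u, v, w} w x)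
    (hpq : 0 < crd {u, v, w} u x ∨ 0 < crd {u, v, w} w x)
    (hm : ∀ τ ∈ B, ¬ Mono χ τ) {L : List (Finset E3)}
    (hnd : L.Nodup) (hL : L.toFinset = B) (hch : L.IsChain (BAdj χ)) (hχ : χ u = χ v) :
    ∃ B' L', Fan (insert x W') B' ∧ (∀ τ ∈ B', ¬ Mono (Function.update χ x (χ u)) τ) ∧
      List.Nodup L' ∧ L'.toFinset = B' ∧ L'.IsChain (BAdj (Function.update χ x (χ u))) := by
  obtain ⟨d1, d2, d3, d4, d5⟩ := h.dist hF
  have hwt := h.wt
  obtain ⟨n1, n2, n3, n4⟩ := h.notMem hF
  set χ' := Function.update χ x (χ u) with hχ'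
  have hLB : ∀ τ, τ ∈ L ↔ τ ∈ B := fun τ => by rw [← hL, List.mem_toFinset]
  have cx : χ' x = χ u := by rw [hχ']; simp
  have co : ∀ y, y ≠ x → χ' y = χ y := by
    intro y hy
    rw [hχ', Function.update_of_ne hy]
  have cu : χ' u = χ u := co u n1.symm
  have cv : χ' v = χ u := (co v n2.symm).trans hχ.symm
  have hw : χ w ≠ χ u := by
    intro hh
    apply hm _ h.m1
    intro a ha b hb
    simp only [Finset.mem_insert, Finset.mem_singleton] at ha hb
    have key : ∀ a, (a = u ∨ a = v ∨ a = w) → χ a = χ u := by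
      rintro a (rfl | rfl | rfl)
      · rfl
      · exact hχ.symm
      · exact hh
    rw [key a ha, key b hb]
  have ht : χ t ≠ χ u := by
    intro hh
    apply hm _ h.m2
    intro a ha b hb
    simp only [Finset.mem_insert, Finset.mem_singleton] at ha hb
    have key : ∀ a, (a = u ∨ a = v ∨ a = t) → χ a = χ u := by
      rintro a (rfl | rfl | rfl)
      · rfl
      · exact hχ.symm
      · exact hh
    rw [key a ha, key b hb]
  have cw : χ' w ≠ χ u := by rw [co w n3.symm]; exact hw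
  have ct : χ' t ≠ χ u := by rw [co t n4.symm]; exact ht
  have hxB : ∀ τ ∈ B, x ∉ τ := fun τ hτ => h.apx.notMem_tri hF hτ
  -- the chain with the new colouring
  have hch' : L.IsChain (BAdj χ') := by
    rw [List.isChain_iff_getElem] at hch ⊢
    intro i hi
    obtain ⟨a, b, a1, a2, b1, b2, hab⟩ := hch i hi
    have h1 := hxB _ ((hLB _).mp (List.getElem_mem (show i < L.length by omega)))
    refine ⟨a, b, a1, a2, b1, b2, ?_⟩
    rw [co a (fun hh => h1 (hh ▸ a1)), co b (fun hh => h1 (hh ▸ b1))]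
    exact hab
  have hsymm : ∀ a b, BAdj χ' a b → BAdj χ' b a := fun _ _ h => h.symm
  have t01 : ({u, v, w} : Finset E3) ≠ {u, v, t} := by
    intro e
    have h1 : w ∈ ({u, v, t} : Finset E3) := by rw [← e]; simp
    simp only [Finset.mem_insert, Finset.mem_singleton] at h1
    rcases h1 with h1 | h1 | h1
    · exact d2 h1.symm
    · exact d3 h1.symm
    · exact hwt h1
  -- neighbours across a bichromatic side
  have split : ∀ c, χ' c ≠ χ u → ∀ y : Finset E3, BAdj χ' {u, v, c} y →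
      (u ∈ y ∧ c ∈ y) ∨ (v ∈ y ∧ c ∈ y) := by
    rintro c hc y ⟨a, b, a1, a2, b1, b2, hab⟩
    simp only [Finset.mem_insert, Finset.mem_singleton] at a1 b1
    rcases a1 with rfl | rfl | rfl
    · rcases b1 with rfl | rfl | rfl
      · exact absurd rfl hab
      · exact absurd (cu.trans cv.symm) hab
      · exact Or.inl ⟨a2, b2⟩
    · rcases b1 with rfl | rfl | rfl
      · exact absurd (cv.trans cu.symm) hab
      · exact absurd rfl hab
      · exact Or.inr ⟨a2, b2⟩
    · rcases b1 with rfl | rfl | rfl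
      · exact Or.inl ⟨b2, a2⟩
      · exact Or.inr ⟨b2, a2⟩
      · exact absurd rfl hab
  have nt : ∀ y : Finset E3, (y = {x, u, w} ∨ (0 < crd {u, v, w} u x ∧ y = {x, v, w})) →
      t ∉ y ∧ x ∈ y := by
    rintro y (rfl | ⟨_, rfl⟩)
    · simp only [Finset.mem_insert, Finset.mem_singleton, not_or]
      exact ⟨⟨n4.symm, d4.symm, hwt.symm⟩, by simp⟩
    · simp only [Finset.mem_insert, Finset.mem_singleton, not_or]
      exact ⟨⟨n4.symm, d5.symm, hwt.symm⟩, by simp⟩
  obtain ⟨L', hndL', memL', e3⟩ : ∃ L' : List (Finset E3), L'.Nodup ∧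
      (∀ y, y ∈ L' ↔ (y ∈ B ∧ y ≠ {u, v, w}) ∨
        (y = {x, u, w} ∨ (0 < crd {u, v, w} u x ∧ y = {x, v, w}))) ∧
      L'.IsChain (BAdj χ') := by
    by_cases hp : 0 < crd {u, v, w} u x
    · obtain ⟨L1, L2, a, b, e1, e2, e3⟩ := replace_chain (R := BAdj χ') hsymm hnd hch'
        (τ := {u, v, w}) (n1 := {x, u, w}) (n2 := {x, v, w}) ((hLB _).mpr h.m1)
        ⟨x, w, by simp, by simp, by simp, by simp, by rw [cx]; exact cw.symm⟩
        (A1 := fun y => u ∈ y ∧ w ∈ y) (A2 := fun y => v ∈ y ∧ w ∈ y)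
        (fun y _ _ hR => split w cw y hR)
        (fun y hy => ⟨u, w, by simp, hy.1, by simp, hy.2, by rw [cu]; exact cw.symm⟩)
        (fun y hy => ⟨v, w, by simp, hy.1, by simp, hy.2, by rw [cv]; exact cw.symm⟩)
        (fun y hy y' hy' k k' c c' => hF.uniq3 d2 h.m1 ((hLB y).mp hy) ((hLB y').mp hy') k k'
          ⟨by simp, by simp⟩ c c')
        (fun y hy y' hy' k k' c c' => hF.uniq3 d3 h.m1 ((hLB y).mp hy) ((hLB y').mp hy') k k'
          ⟨by simp, by simp⟩ c c')
      have hab : (a = {x, u, w} ∨ a = {x, v, w}) ∧ (b = {x, u, w} ∨ b = {x, v, w}) ∧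
          a ≠ b := by
        have hne : ({x, u, w} : Finset E3) ≠ {x, v, w} := by
          intro e
          have h1 : u ∈ ({x, v, w} : Finset E3) := by rw [← e]; simp
          simp only [Finset.mem_insert, Finset.mem_singleton] at h1
          rcases h1 with h1 | h1 | h1
          · exact n1 h1.symm
          · exact d1 h1
          · exact d2 h1
        rcases e2 with ⟨rfl, rfl⟩ | ⟨rfl, rfl⟩
        · exact ⟨Or.inl rfl, Or.inr rfl, hne⟩
        · exact ⟨Or.inr rfl, Or.inl rfl, hne.symm⟩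
      have nx : ∀ y : Finset E3, (y = {x, u, w} ∨ y = {x, v, w}) → x ∈ y := by
        rintro y (rfl | rfl) <;> simp
      have hL1 : ∀ y ∈ L1, y ∈ L := fun y hy => by rw [e1]; simp [hy]
      have hL2 : ∀ y ∈ L2, y ∈ L := fun y hy => by rw [e1]; simp [hy]
      have hax : x ∈ a := nx a hab.1
      have hbx : x ∈ b := nx b hab.2.1
      have hnd2 : L1.Nodup ∧ L2.Nodup ∧ (∀ y ∈ L1, ∀ z ∈ L2, y ≠ z) ∧
          ({u, v, w} : Finset E3) ∉ L1 ∧ ({u, v, w} : Finset E3) ∉ L2 := by
        rw [e1] at hnd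
        obtain ⟨k1, k2, k3⟩ := List.nodup_append.mp hnd
        obtain ⟨k4, k5⟩ := List.nodup_cons.mp k2
        refine ⟨k1, k5, fun y hy z hz => k3 y hy z (List.mem_cons_of_mem _ hz), ?_, k4⟩
        intro hh
        exact k3 _ hh _ List.mem_cons_self rfl
      refine ⟨L1 ++ a :: b :: L2, ?_, ?_, e3⟩
      · rw [List.nodup_append]
        refine ⟨hnd2.1, ?_, ?_⟩
        · rw [List.nodup_cons, List.nodup_cons]
          refine ⟨?_, ?_, hnd2.2.1⟩
          · intro hh
            rcases List.mem_cons.mp hh with k | k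
            · exact hab.2.2 k
            · exact hxB _ ((hLB _).mp (hL2 _ k)) hax
          · intro k
            exact hxB _ ((hLB _).mp (hL2 _ k)) hbx
        · intro y hy z hz hyz
          subst hyz
          rcases List.mem_cons.mp hz with k | hz
          · exact hxB _ ((hLB _).mp (hL1 _ hy)) (k ▸ hax)
          · rcases List.mem_cons.mp hz with k | k
            · exact hxB _ ((hLB _).mp (hL1 _ hy)) (k ▸ hbx)
            · exact hnd2.2.2.1 y hy y k rfl
      · intro y
        have hab2 : (y = a ∨ y = b) ↔ (y = {x, u, w} ∨ (0 < crd {u, v, w} u x ∧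
            y = {x, v, w})) := by
          rcases e2 with ⟨rfl, rfl⟩ | ⟨rfl, rfl⟩
          · exact or_congr Iff.rfl (and_iff_right hp).symm
          · exact or_comm.trans (or_congr Iff.rfl (and_iff_right hp).symm)
        have h1 : y ∈ L1 ++ a :: b :: L2 ↔ (y ∈ L1 ∨ y ∈ L2) ∨ (y = a ∨ y = b) := mem_mid
        have h2 : (y ∈ L1 ∨ y ∈ L2) ↔ (y ∈ B ∧ y ≠ {u, v, w}) := by
          rw [← hLB, e1]
          simp only [List.mem_append, List.mem_cons]
          constructor
          · rintro (k | k)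
            · exact ⟨Or.inl k, fun hh => hnd2.2.2.2.1 (hh ▸ k)⟩
            · exact ⟨Or.inr (Or.inr k), fun hh => hnd2.2.2.2.2 (hh ▸ k)⟩
          · rintro ⟨k | k | k, k'⟩
            · exact Or.inl k
            · exact absurd k k'
            · exact Or.inr k
        rw [h1, h2, hab2]
    · have hp0 : crd {u, v, w} u x = 0 := by
        have h1 := h.flip.nonneg hsub hF
        rw [Finset.insert_comm v u {w}] at h1
        push Not at hp
        exact le_antisymm hp h1
      obtain ⟨k1, k2, k3⟩ := replace_one (R := BAdj χ') hsymm hnd hch'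
        (τ := {u, v, w}) (n1 := {x, u, w})
        (fun hh => hxB _ ((hLB _).mp hh) (by simp)) (by
          intro y hy hne hR
          rcases split w cw y hR with k | k
          · exact ⟨u, w, by simp, k.1, by simp, k.2, by rw [cu]; exact cw.symm⟩
          · exfalso
            have e1 : ({v, u, w} : Finset E3) = {u, v, w} := Finset.insert_comm v u {w}
            exact h.flip.no_other hsub hF (by rw [e1]; exact hp0) ((hLB y).mp hy)
              (by rw [e1]; exact hne) k.1 k.2)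
      refine ⟨_, k1, ?_, k2⟩
      intro y
      rw [k3 ((hLB _).mpr h.m1) y, hLB]
      constructor
      · rintro (k | k)
        · exact Or.inl k
        · exact Or.inr (Or.inl k)
      · rintro (k | k | k)
        · exact Or.inl k
        · exact Or.inr k
        · exact absurd k.1 hp
  have oldB : ∀ y ∈ L', t ∈ y → y ∈ B := by
    intro y hy hty
    rcases (memL' y).mp hy with k | k
    · exact k.1
    · exact absurd hty (nt y k).1
  obtain ⟨K1, K2, a', b', f1, f2, f3⟩ := replace_chain (R := BAdj χ') hsymm hndL' e3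
    (τ := {u, v, t}) (n1 := {x, u, t}) (n2 := {x, v, t})
    ((memL' _).mpr (Or.inl ⟨h.m2, t01.symm⟩))
    ⟨x, t, by simp, by simp, by simp, by simp, by rw [cx]; exact ct.symm⟩
    (A1 := fun y => u ∈ y ∧ t ∈ y) (A2 := fun y => v ∈ y ∧ t ∈ y)
    (fun y _ _ hR => split t ct y hR)
    (fun y hy => ⟨u, t, by simp, hy.1, by simp, hy.2, by rw [cu]; exact ct.symm⟩)
    (fun y hy => ⟨v, t, by simp, hy.1, by simp, hy.2, by rw [cv]; exact ct.symm⟩)
    (fun y hy y' hy' k k' c c' => hF.uniq3 d4 h.m2 (oldB y hy c.2) (oldB y' hy' c'.2) k k'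
      ⟨by simp, by simp⟩ c c')
    (fun y hy y' hy' k k' c c' => hF.uniq3 d5 h.m2 (oldB y hy c.2) (oldB y' hy' c'.2) k k'
      ⟨by simp, by simp⟩ c c')
  have hab' : (a' = {x, u, t} ∨ a' = {x, v, t}) ∧ (b' = {x, u, t} ∨ b' = {x, v, t}) ∧
      a' ≠ b' := by
    have hne : ({x, u, t} : Finset E3) ≠ {x, v, t} := by
      intro e
      have h1 : u ∈ ({x, v, t} : Finset E3) := by rw [← e]; simp
      simp only [Finset.mem_insert, Finset.mem_singleton] at h1
      rcases h1 with h1 | h1 | h1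
      · exact n1 h1.symm
      · exact d1 h1
      · exact d4 h1
    rcases f2 with ⟨rfl, rfl⟩ | ⟨rfl, rfl⟩
    · exact ⟨Or.inl rfl, Or.inr rfl, hne⟩
    · exact ⟨Or.inr rfl, Or.inl rfl, hne.symm⟩
  have nxt : ∀ y : Finset E3, (y = {x, u, t} ∨ y = {x, v, t}) → t ∈ y ∧ x ∈ y := by
    rintro y (rfl | rfl)
    · simp
    · simp
  have newnot : ∀ y : Finset E3, (y = {x, u, t} ∨ y = {x, v, t}) → y ∉ L' := by
    intro y hy hyL
    rcases (memL' y).mp hyL with k | k
    · exact hxB _ k.1 (nxt y hy).2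
    · exact (nt y k).1 (nxt y hy).1
  have hK1 : ∀ y ∈ K1, y ∈ L' := fun y hy => by rw [f1]; simp [hy]
  have hK2 : ∀ y ∈ K2, y ∈ L' := fun y hy => by rw [f1]; simp [hy]
  have hnd3 : K1.Nodup ∧ K2.Nodup ∧ (∀ y ∈ K1, ∀ z ∈ K2, y ≠ z) ∧ ({u, v, t} : Finset E3) ∉ K1 ∧
      ({u, v, t} : Finset E3) ∉ K2 := by
    rw [f1] at hndL'
    obtain ⟨k1, k2, k3⟩ := List.nodup_append.mp hndL'
    obtain ⟨k4, k5⟩ := List.nodup_cons.mp k2
    refine ⟨k1, k5, fun y hy z hz => k3 y hy z (List.mem_cons_of_mem _ hz), ?_, k4⟩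
    intro hh
    exact k3 _ hh _ List.mem_cons_self rfl
  set K := K1 ++ a' :: b' :: K2 with hK
  have t1not : ∀ y : Finset E3, (y = {x, u, w} ∨ (0 < crd {u, v, w} u x ∧ y = {x, v, w})) →
      y ≠ {u, v, t} := by
    rintro y hy rfl
    exact (nt _ hy).1 (by simp)
  have memK : ∀ y, y ∈ K.toFinset ↔ (y ∈ B ∧ y ≠ {u, v, w} ∧ y ≠ {u, v, t}) ∨
      (y = {x, u, w} ∨ (0 < crd {u, v, w} u x ∧ y = {x, v, w}) ∨ y = {x, u, t} ∨
        y = {x, v, t}) := by
    intro y
    rw [List.mem_toFinset]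
    have hab2 : (y = a' ∨ y = b') ↔ (y = {x, u, t} ∨ y = {x, v, t}) := by
      rcases f2 with ⟨rfl, rfl⟩ | ⟨rfl, rfl⟩
      · exact Iff.rfl
      · exact or_comm
    have h1 : y ∈ K ↔ (y ∈ K1 ∨ y ∈ K2) ∨ (y = a' ∨ y = b') := mem_mid
    have h2 : (y ∈ K1 ∨ y ∈ K2) ↔ (y ∈ L' ∧ y ≠ {u, v, t}) := by
      rw [f1]
      simp only [List.mem_append, List.mem_cons]
      constructor
      · rintro (k | k)
        · exact ⟨Or.inl k, fun hh => hnd3.2.2.2.1 (hh ▸ k)⟩
        · exact ⟨Or.inr (Or.inr k), fun hh => hnd3.2.2.2.2 (hh ▸ k)⟩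
      · rintro ⟨k | k | k, k'⟩
        · exact Or.inl k
        · exact absurd k k'
        · exact Or.inr k
    rw [h1, h2, hab2, memL']
    constructor
    · rintro (⟨(⟨k1, k2⟩ | k | k), k3⟩ | k | k)
      · exact Or.inl ⟨k1, k2, k3⟩
      · exact Or.inr (Or.inl k)
      · exact Or.inr (Or.inr (Or.inl k))
      · exact Or.inr (Or.inr (Or.inr (Or.inl k)))
      · exact Or.inr (Or.inr (Or.inr (Or.inr k)))
    · rintro (⟨k1, k2, k3⟩ | k | k | k | k)
      · exact Or.inl ⟨Or.inl ⟨k1, k2⟩, k3⟩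
      · exact Or.inl ⟨Or.inr (Or.inl k), t1not y (Or.inl k)⟩
      · exact Or.inl ⟨Or.inr (Or.inr k), t1not y (Or.inr k)⟩
      · exact Or.inr (Or.inl k)
      · exact Or.inr (Or.inr k)
  refine ⟨K.toFinset, K, h.star_fan hsub hF hr hq hpq memK, ?_, ?_, rfl, f3⟩
  · intro τ hτ
    rcases (memK τ).mp hτ with k | k | k | k | k
    · intro hmono
      apply hm τ k.1
      intro p hp q hq
      have := hmono p hp q hq
      rwa [co p (fun hh => hxB τ k.1 (hh ▸ hp)), co q (fun hh => hxB τ k.1 (hh ▸ hq))] at this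
    · rw [k]; exact not_mono_tri (by rw [cu]; exact cw.symm)
    · rw [k.2]; exact not_mono_tri (by rw [cv]; exact cw.symm)
    · rw [k]; exact not_mono_tri (by rw [cu]; exact ct.symm)
    · rw [k]; exact not_mono_tri (by rw [cv]; exact ct.symm)
  · rw [hK, List.nodup_append]
    refine ⟨hnd3.1, ?_, ?_⟩
    · rw [List.nodup_cons, List.nodup_cons]
      refine ⟨?_, ?_, hnd3.2.1⟩
      · intro hh
        rcases List.mem_cons.mp hh with k | k
        · exact hab'.2.2 k
        · exact newnot _ hab'.1 (hK2 _ k)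
      · intro k
        exact newnot _ hab'.2.1 (hK2 _ k)
    · intro y hy z hz hyz
      subst hyz
      rcases List.mem_cons.mp hz with k | hz
      · exact newnot _ hab'.1 (k ▸ hK1 _ hy)
      · rcases List.mem_cons.mp hz with k | k
        · exact newnot _ hab'.2.1 (k ▸ hK1 _ hy)
        · exact hnd3.2.2.1 y hy y k rfl

theorem Pair.star_step (h : Pair W W' B x M u v w t) (hC : Cfg W) (hsub : W' ⊆ W)
    (hF : Fan W' B) (hm : ∀ τ ∈ B, ¬ Mono χ τ) {L : List (Finset E3)}
    (hnd : L.Nodup) (hL : L.toFinset = B) (hch : L.IsChain (BAdj χ)) (hχ : χ u = χ v) :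
    ∃ χ' B' L', Fan (insert x W') B' ∧ (∀ τ ∈ B', ¬ Mono χ' τ) ∧
      List.Nodup L' ∧ L'.toFinset = B' ∧ L'.IsChain (BAdj χ') := by
  obtain ⟨u, v, w, t, h', c, hr, hq, hpq⟩ := h.normal hC hsub hF hχ
  obtain ⟨B', L', k⟩ := h'.star_step0 hsub hF hr hq hpq hm hnd hL hch c
  exact ⟨_, B', L', k⟩

theorem exists_pair' (hC : Cfg W) (hsub : W' ⊆ W) (hC' : Cfg W') (hF : Fan W' B)
    (h : Apx W W' x M) (hM4 : M.card = 4) : ∃ u v w t, Pair W W' B x M u v w t := by
  obtain ⟨σ, hσ, hxσ⟩ := hF.cover x h.mem_cone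
  have vσ := h.beyond hC hsub hF hσ hxσ
  set N : Finset E3 := M.image (fun y => y + x) with hN
  have hNc : N.card = 4 := by
    rw [hN, Finset.card_image_of_injective _ (add_left_injective x), hM4]
  have hMN : M = N.image (fun y => y - x) := by
    rw [hN, Finset.image_image]
    have : (fun y : E3 => y - x) ∘ (fun y => y + x) = id := by
      funext y; simp
    rw [this, Finset.image_id]
  have visN : ∀ τ ∈ B, 1 < gfun τ (fun _ => 1) x → τ ⊆ N := by
    intro τ hτ hv y hy
    by_contra hcon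
    have hyW := hF.sub τ hτ hy
    have h1 : y - x ∉ M := by
      intro hh
      rw [hMN] at hh
      obtain ⟨y', hy', he⟩ := Finset.mem_image.mp hh
      exact hcon (sub_left_injective he ▸ hy')
    have h2 := h.vis (hF.supp τ hτ) hv (hsub hyW) (h.ne_low hyW) h1
    rw [gfun_mem (hF.nice τ hτ) _ hy] at h2
    exact lt_irrefl _ h2
  have miss : ∀ τ ∈ B, 1 < gfun τ (fun _ => 1) x → ∃ s ∈ N, s ∉ τ ∧ τ = N.erase s := by
    intro τ hτ hv
    have h1 := visN τ hτ hv
    have h2 := (hF.nice τ hτ).1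
    obtain ⟨s, hs, hsτ⟩ := Finset.exists_mem_notMem_of_card_lt_card
      (show τ.card < N.card by omega)
    refine ⟨s, hs, hsτ, ?_⟩
    apply Finset.eq_of_subset_of_card_le
    · intro y hy
      exact Finset.mem_erase.mpr ⟨fun hh => hsτ (hh ▸ hy), h1 hy⟩
    · rw [Finset.card_erase_of_mem hs]
      omega
  obtain ⟨s, hs, hsσ, eσ⟩ := miss σ hσ vσ
  obtain ⟨τ, hτ, hsτ, vτ⟩ := h.exists_vis hsub hC' hF (m := s - x) (by
    rw [hMN]; exact Finset.mem_image_of_mem _ hs)
  rw [sub_add_cancel] at hsτ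
  obtain ⟨s', hs', hsτ', eτ⟩ := miss τ hτ vτ
  have hss : s ≠ s' := fun hh => hsτ' (hh ▸ hsτ)
  have hs'2 : s' ∈ N.erase s := Finset.mem_erase.mpr ⟨hss.symm, hs'⟩
  have c2 : ((N.erase s).erase s').card = 2 := by
    rw [Finset.card_erase_of_mem hs'2, Finset.card_erase_of_mem hs]
    omega
  obtain ⟨u, v, huv, euv⟩ := Finset.card_eq_two.mp c2
  have e1 : σ = {u, v, s'} := by
    rw [eσ, ← Finset.insert_erase hs'2, euv]
    exact perm3 u v s'
  have e2 : τ = {u, v, s} := by
    have h3 : s ∈ N.erase s' := Finset.mem_erase.mpr ⟨hss, hs⟩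
    rw [eτ, ← Finset.insert_erase h3, Finset.erase_right_comm, euv]
    exact perm3 u v s
  have eN : N = {u, v, s', s} := by
    rw [← Finset.insert_erase hs, ← eσ, e1]
    exact perm4 u v s' s
  have eM : M = {u - x, v - x, s' - x, s - x} := by
    rw [hMN, eN, Finset.image_insert, Finset.image_insert, Finset.image_insert,
      Finset.image_singleton]
  rw [e1] at hσ vσ
  rw [e2] at hτ vτ
  exact ⟨u, v, s', s, ⟨h, eM, hss.symm, hσ, hτ, vσ, vτ⟩⟩

theorem Apx.mono {W'' : Finset E3} (h : Apx W W' x M) (hx : x ∉ W'') (hs : W' ⊆ W'') :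
    Apx W W'' x M :=
  ⟨h.xW, hx, h.gen, h.gen0, h.big, h.big0, fun m hm => hs (h.low m hm), h.edge⟩

/-- Insertion of vertices of degree four. -/
theorem hasHamTet_insert (hC : Cfg W) : ∀ (n : ℕ) (J W' : Finset E3)
    (B : Finset (Finset E3)) (χ : E3 → Bool) (L : List (Finset E3)), J.card = n →
    W = W' ∪ J → Fan W' B → (∀ τ ∈ B, ¬ Mono χ τ) → L.Nodup → L.toFinset = B →
    L.IsChain (BAdj χ) → (∀ x ∈ J, ∃ M, Apx W W' x M ∧ M.card = 4) →
    HasHamTet (insert 0 W) := by
  intro n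
  induction n with
  | zero =>
    intro J W' B χ L hJ hW hF hm hnd hL hch hP
    refine hasHamTet_of_pairs hC hW hF hm hnd hL hch ?_
    intro x hx
    rw [Finset.card_eq_zero] at hJ
    rw [hJ] at hx
    simp at hx
  | succ n ih =>
    intro J W' B χ L hJ hW hF hm hnd hL hch hP
    have hsub : W' ⊆ W := by rw [hW]; exact Finset.subset_union_left
    have hC' : Cfg W' := by
      obtain ⟨σ, hσ, _⟩ := hF.cover 0 zero_mem_cone
      exact hC.mono hsub ⟨σ, hF.sub σ hσ, hF.nice σ hσ⟩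
    by_cases hall : ∀ x ∈ J, ∃ M u v w t, Pair W W' B x M u v w t ∧ χ u ≠ χ v
    · exact hasHamTet_of_pairs hC hW hF hm hnd hL hch hall
    · push Not at hall
      obtain ⟨x, hx, hall⟩ := hall
      obtain ⟨M, hA, hM4⟩ := hP x hx
      obtain ⟨u, v, w, t, hp⟩ := exists_pair' hC hsub hC' hF hA hM4
      obtain ⟨χ', B', L', k1, k2, k3, k4, k5⟩ := hp.star_step hC hsub hF hm hnd hL hch
        (hall M u v w t hp)
      refine ih (J.erase x) (insert x W') B' χ' L' (by rw [Finset.card_erase_of_mem hx]; omega)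
        ?_ k1 k2 k3 k4 k5 ?_
      · rw [hW]
        ext y
        simp only [Finset.mem_union, Finset.mem_insert, Finset.mem_erase]
        by_cases hy : y = x
        · simp [hy, hx]
        · simp [hy]
      · intro y hy
        obtain ⟨hyx, hyJ⟩ := Finset.mem_erase.mp hy
        obtain ⟨M', hA', hM'⟩ := hP y hyJ
        refine ⟨M', hA'.mono ?_ (Finset.subset_insert _ _), hM'⟩
        intro hh
        rcases Finset.mem_insert.mp hh with h | h
        · exact hyx h
        · exact hA'.xW' h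

end

end Run7.h169
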