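import Mathlib

set_option autoImplicit false
open scoped Classical

namespace Run7.h169

theorem extend_list {α : Type*} [DecidableEq α] (B : Finset α) (R : α → α → Prop)
    (hsym : ∀ x y, R x y → R y x)
    (hdeg : ∀ x ∈ B, ∀ a ∈ B, ∀ b ∈ B, ∀ c ∈ B, a ≠ x → b ≠ x → c ≠ x → R x a → R x b → R x c →
      a = b ∨ a = c ∨ b = c)
    (hconn : ∀ K, K ⊆ B → (∀ x ∈ K, ∀ y ∈ B, R x y → y ∈ K) → K = ∅ ∨ K = B)
    (L : List α) (hne : L ≠ []) (hnd : L.Nodup) (hsub : ∀ x ∈ L, x ∈ B) (hch : L.IsChain R)
    (hneq : L.toFinset ≠ B) :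
    ∃ L' : List α, L'.length = L.length + 1 ∧ L' ≠ [] ∧ L'.Nodup ∧ (∀ x ∈ L', x ∈ B) ∧
      L'.IsChain R := by
  have h1 : ¬ (∀ x ∈ L.toFinset, ∀ y ∈ B, R x y → y ∈ L.toFinset) := by
    intro h
    rcases hconn L.toFinset (by intro x hx; exact hsub x (List.mem_toFinset.mp hx)) h with h2 | h2
    · rw [List.toFinset_eq_empty_iff] at h2
      exact hne h2
    · exact hneq h2
  push Not at h1
  obtain ⟨x, hx, y, hy, hR, hyL⟩ := h1
  rw [List.mem_toFinset] at hx hyL
  obtain ⟨l1, l2, rfl⟩ := List.append_of_mem hx
  rcases List.eq_nil_or_concat l1 with rfl | ⟨l1', a, rfl⟩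
  · refine ⟨y :: (x :: l2), by simp, by simp, ?_, ?_, ?_⟩
    · rw [List.nodup_cons]
      exact ⟨by simpa using hyL, by simpa using hnd⟩
    · intro z hz
      rw [List.mem_cons] at hz
      rcases hz with rfl | hz
      · exact hy
      · exact hsub z (by simpa using hz)
    · rw [List.isChain_cons_cons]
      exact ⟨hsym _ _ hR, by simpa using hch⟩
  · simp only [List.concat_eq_append] at hnd hsub hch hyL
    rcases l2 with _ | ⟨b, l2'⟩
    · refine ⟨(l1' ++ [a] ++ [x]) ++ [y], by simp [List.concat_eq_append], by simp, ?_, ?_, ?_⟩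
      · rw [List.nodup_append]
        refine ⟨hnd, by simp, ?_⟩
        intro u hu v hv
        simp only [List.mem_singleton] at hv
        subst hv
        rintro rfl
        exact hyL hu
      · intro z hz
        rw [List.mem_append] at hz
        rcases hz with hz | hz
        · exact hsub z hz
        · rw [List.mem_singleton] at hz
          subst hz; exact hy
      · rw [List.isChain_append]
        refine ⟨hch, by simp, ?_⟩
        intro u hu v hv
        simp only [List.head?_cons, Option.mem_def, Option.some.injEq] at hv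
        subst hv
        have : u = x := by
          rw [List.getLast?_append] at hu
          simpa using hu.symm
        subst this
        exact hR
    · exfalso
      have hch' : (l1' ++ (a :: x :: b :: l2')).IsChain R := by
        simpa using hch
      have h2 := (List.isChain_append.mp hch').2.1
      rw [List.isChain_cons_cons, List.isChain_cons_cons] at h2
      obtain ⟨hax, hxb, _⟩ := h2
      have hnd' : (l1' ++ (a :: x :: b :: l2')).Nodup := by simpa using hnd
      have h3 := (List.nodup_append.mp hnd').2.1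
      simp only [List.nodup_cons, List.mem_cons, not_or] at h3
      have haB : a ∈ B := hsub a (by simp)
      have hbB : b ∈ B := hsub b (by simp)
      have hxB : x ∈ B := hsub x (by simp)
      have hya : y ≠ a := by rintro rfl; exact hyL (by simp)
      have hyb : y ≠ b := by rintro rfl; exact hyL (by simp)
      have hyx : y ≠ x := by rintro rfl; exact hyL (by simp)
      rcases hdeg x hxB a haB b hbB y hy h3.1.1 (Ne.symm h3.2.1.1) hyx (hsym _ _ hax) hxb hR
        with h | h | h
      · exact h3.1.2.1 h
      · exact hya h.symm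
      · exact hyb h.symm

/-- A finite connected graph with all degrees at most two has a Hamiltonian path. -/
theorem ham_list {α : Type*} [DecidableEq α] (B : Finset α) (R : α → α → Prop)
    (hsym : ∀ x y, R x y → R y x)
    (hdeg : ∀ x ∈ B, ∀ a ∈ B, ∀ b ∈ B, ∀ c ∈ B, a ≠ x → b ≠ x → c ≠ x → R x a → R x b → R x c →
      a = b ∨ a = c ∨ b = c)
    (hconn : ∀ K, K ⊆ B → (∀ x ∈ K, ∀ y ∈ B, R x y → y ∈ K) → K = ∅ ∨ K = B)
    (hB : B.Nonempty) :
    ∃ L : List α, L.Nodup ∧ L.toFinset = B ∧ L.IsChain R := by
  have key : ∀ n, ∀ L : List α, L ≠ [] → L.Nodup → (∀ x ∈ L, x ∈ B) → L.IsChain R →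
      B.card - L.length = n → ∃ L : List α, L.Nodup ∧ L.toFinset = B ∧ L.IsChain R := by
    intro n
    induction n with
    | zero =>
      intro L hne hnd hsub hch hlen
      by_cases h : L.toFinset = B
      · exact ⟨L, hnd, h, hch⟩
      · exfalso
        obtain ⟨L', h1, h2, h3, h4, h5⟩ := extend_list B R hsym hdeg hconn L hne hnd hsub hch h
        have h6 : L'.toFinset.card ≤ B.card := Finset.card_le_card (by
          intro x hx; exact h4 x (List.mem_toFinset.mp hx))
        rw [List.toFinset_card_of_nodup h3] at h6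
        omega
    | succ n ih =>
      intro L hne hnd hsub hch hlen
      by_cases h : L.toFinset = B
      · exact ⟨L, hnd, h, hch⟩
      · obtain ⟨L', h1, h2, h3, h4, h5⟩ := extend_list B R hsym hdeg hconn L hne hnd hsub hch h
        exact ih L' h2 h3 h4 h5 (by omega)
  obtain ⟨x, hx⟩ := hB
  exact key _ [x] (by simp) (by simp) (by simpa using hx) (by simp) rfl

end Run7.h169
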