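import Pool.Agent.Run7.h169.Colour
import Pool.Agent.Run7.h169.Path

set_option autoImplicit false
open scoped Classical Topology
open Filter

namespace Run7.h169

section

variable {W : Finset E3} {B : Finset (Finset E3)} {χ : E3 → Bool}

theorem bool_eq_of_ne {a b c : Bool} (h1 : a ≠ c) (h2 : b ≠ c) : a = b := by
  cases a <;> cases b <;> cases c <;> simp_all

/-- Normal form of a non-monochromatic triangle. -/
theorem nonmono_form {τ : Finset E3} (h3 : τ.card = 3) (hm : ¬ Mono χ τ) :
    ∃ p q r, τ = {p, q, r} ∧ p ≠ q ∧ p ≠ r ∧ q ≠ r ∧ χ p = χ q ∧ χ r ≠ χ p := by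
  obtain ⟨a, b, c, hab, hac, hbc, rfl⟩ := Finset.card_eq_three.mp h3
  by_cases h1 : χ a = χ b
  · refine ⟨a, b, c, rfl, hab, hac, hbc, h1, ?_⟩
    intro h2
    apply hm
    intro x hx y hy
    simp only [Finset.mem_insert, Finset.mem_singleton] at hx hy
    rcases hx with rfl | rfl | rfl <;> rcases hy with rfl | rfl | rfl <;> simp_all
  · by_cases h2 : χ a = χ c
    · refine ⟨a, c, b, ?_, hac, hab, hbc.symm, h2, ?_⟩
      · ext z; simp only [Finset.mem_insert, Finset.mem_singleton]; tauto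
      · exact fun h => h1 h.symm
    · refine ⟨b, c, a, ?_, hbc, hab.symm, hac.symm, ?_, h1⟩
      · ext z; simp only [Finset.mem_insert, Finset.mem_singleton]; tauto
      · exact bool_eq_of_ne (Ne.symm h1) (Ne.symm h2)

theorem exists_nonmono (hC : Cfg W) (hF : Fan W B) (hχ : Col W χ) : ∃ τ ∈ B, ¬ Mono χ τ := by
  by_contra hcon
  push Not at hcon
  obtain ⟨x, hx, y, hy, hxy⟩ := hχ.two
  obtain ⟨τx, hτx, hxτ⟩ := hF.exists_mem hC hx
  obtain ⟨τy, hτy, hyτ⟩ := hF.exists_mem hC hy
  set Q := B.filter (fun τ => ∀ z ∈ τ, χ z = χ x) with hQ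
  have hQB : Q ⊆ B := Finset.filter_subset _ _
  have h1 : τx ∈ Q := Finset.mem_filter.mpr ⟨hτx, fun z hz => hcon τx hτx z hz x hxτ⟩
  have h2 : τy ∈ B \ Q := by
    rw [Finset.mem_sdiff]
    refine ⟨hτy, fun h => ?_⟩
    exact hxy ((Finset.mem_filter.mp h).2 y hyτ).symm
  obtain ⟨p, q, r, s, hpq, hrs, g1, g2⟩ := hF.connected hQB ⟨τx, h1⟩ ⟨τy, h2⟩
  rw [Finset.mem_sdiff] at g2
  apply g2.2
  rw [hQ, Finset.mem_filter] at g1 ⊢
  refine ⟨g2.1, fun z hz => ?_⟩
  rw [← g1.2 p (by simp)]
  exact hcon _ g2.1 z hz p (by simp)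

/-- First extremal step: there is a fan without monochromatic triangles. -/
theorem exists_fan_nomono (hC : Cfg W) (hχ : Col W χ) :
    ∃ B, Fan W B ∧ ∀ τ ∈ B, ¬ Mono χ τ := by
  have key : ∀ n, ∀ B, Fan W B → (B.filter (Mono χ)).card = n →
      ∃ B, Fan W B ∧ ∀ τ ∈ B, ¬ Mono χ τ := by
    intro n
    induction n using Nat.strong_induction_on with
    | _ n ih =>
      intro B hF hn
      by_cases h0 : (B.filter (Mono χ)).Nonempty
      · obtain ⟨τ0, hτ0, hm0⟩ := exists_nonmono hC hF hχ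
        have hne' : (B \ B.filter (Mono χ)).Nonempty :=
          ⟨τ0, Finset.mem_sdiff.mpr ⟨hτ0, fun h => hm0 (Finset.mem_filter.mp h).2⟩⟩
        obtain ⟨p, q, r, s, hpq, hrs, h1, h2, hcop⟩ := flippable hC hF hχ
          (Finset.filter_subset _ _) h0 hne' (by
            intro p q r s _ _ h1 _
            exact (Finset.mem_filter.mp h1).2 p (by simp) q (by simp))
        rw [Finset.mem_filter] at h1
        rw [Finset.mem_sdiff] at h2
        have hsm : ¬ Mono χ {p, q, s} := fun h => h2.2 (Finset.mem_filter.mpr ⟨h2.1, h⟩)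
        have hpq' : χ p = χ q := h1.2 p (by simp) q (by simp)
        have hpr' : χ p = χ r := h1.2 p (by simp) r (by simp)
        have hsr : χ s ≠ χ p := by
          intro h
          apply hsm
          intro x hx y hy
          simp only [Finset.mem_insert, Finset.mem_singleton] at hx hy
          rcases hx with rfl | rfl | rfl <;> rcases hy with rfl | rfl | rfl <;> simp_all
        have hF' := hF.flip hC h1.1 h2.1 hrs hcop
        refine ih _ ?_ (flipSet B p q r s) hF' rfl
        rw [← hn]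
        apply Finset.card_lt_card
        rw [Finset.ssubset_iff_of_subset]
        · refine ⟨{p, q, r}, Finset.mem_filter.mpr h1, ?_⟩
          intro hmem
          rw [Finset.mem_filter, mem_flipSet] at hmem
          have hN1 := (hF.nice _ h1.1).distinct
          have hN2 := (hF.nice _ h2.1).distinct
          rcases hmem.1 with h | h | h
          · have : q ∈ ({p, r, s} : Finset E3) := by rw [← h]; simp
            simp only [Finset.mem_insert, Finset.mem_singleton] at this
            rcases this with h | h | h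
            · exact hpq h.symm
            · exact hN1.2.2 h
            · exact hN2.2.2 h
          · have : p ∈ ({q, r, s} : Finset E3) := by rw [← h]; simp
            simp only [Finset.mem_insert, Finset.mem_singleton] at this
            rcases this with h | h | h
            · exact hpq h
            · exact hN1.2.1 h
            · exact hN2.2.1 h
          · exact h.2.1 rfl
        · intro τ hτ
          rw [Finset.mem_filter, mem_flipSet] at hτ
          rw [Finset.mem_filter]
          rcases hτ.1 with rfl | rfl | h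
          · exact absurd (hτ.2 s (by simp) p (by simp)) hsr
          · exact absurd ((hτ.2 s (by simp) q (by simp)).trans hpq'.symm) hsr
          · exact ⟨h.2.2, hτ.2⟩
      · refine ⟨B, hF, fun τ hτ hm => h0 ⟨τ, Finset.mem_filter.mpr ⟨hτ, hm⟩⟩⟩
  obtain ⟨B, hB⟩ := fan_exists hC
  exact key _ B hB rfl

/-- Sets of triangles closed under sharing a bichromatic edge. -/
def Closed (χ : E3 → Bool) (B K : Finset (Finset E3)) : Prop :=
  K ⊆ B ∧ ∀ τ ∈ K, ∀ τ' ∈ B, BAdj χ τ τ' → τ' ∈ K

theorem Closed.compl {K : Finset (Finset E3)} (h : Closed χ B K) : Closed χ B (B \ K) := by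
  refine ⟨Finset.sdiff_subset, ?_⟩
  intro τ hτ τ' hτ' hadj
  rw [Finset.mem_sdiff] at hτ ⊢
  exact ⟨hτ', fun hh => hτ.2 (h.2 τ' hh τ hτ.1 hadj.symm)⟩

/-- The bichromatic pairs of vertices. -/
noncomputable def bip (W : Finset E3) (χ : E3 → Bool) : Finset (E3 × E3) :=
  (W ×ˢ W).filter (fun e => χ e.1 = true ∧ χ e.2 = false)

theorem mem_bip {e : E3 × E3} :
    e ∈ bip W χ ↔ e.1 ∈ W ∧ e.2 ∈ W ∧ χ e.1 = true ∧ χ e.2 = false := by
  simp [bip, and_assoc]

/-- Double counting of bichromatic edges. -/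
theorem par (K : Finset (Finset E3)) (hK : ∀ τ ∈ K, τ ⊆ W ∧ τ.card = 3 ∧ ¬ Mono χ τ) :
    ∑ e ∈ bip W χ, cnt K e.1 e.2 = 2 * K.card := by
  have h1 : ∀ e ∈ bip W χ, cnt K e.1 e.2 =
      ∑ τ ∈ K, (if e.1 ∈ τ ∧ e.2 ∈ τ then 1 else 0) := by
    intro e _
    rw [← Finset.card_filter]; rfl
  rw [Finset.sum_congr rfl h1, Finset.sum_comm]
  have h2 : ∀ τ ∈ K, ∑ e ∈ bip W χ, (if e.1 ∈ τ ∧ e.2 ∈ τ then 1 else 0) = 2 := by
    intro τ hτ
    rw [← Finset.card_filter]
    obtain ⟨hW, h3, hm⟩ := hK τ hτ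
    have e1 : (bip W χ).filter (fun e => e.1 ∈ τ ∧ e.2 ∈ τ) =
        (τ.filter (fun x => χ x = true)) ×ˢ (τ.filter (fun x => χ x = false)) := by
      ext e
      rw [Finset.mem_filter, mem_bip, Finset.mem_product, Finset.mem_filter, Finset.mem_filter]
      constructor
      · rintro ⟨⟨_, _, a, b⟩, c, d⟩; exact ⟨⟨c, a⟩, d, b⟩
      · rintro ⟨⟨c, a⟩, d, b⟩; exact ⟨⟨hW c, hW d, a, b⟩, c, d⟩
    rw [e1, Finset.card_product]
    have e2 : (τ.filter (fun x => χ x = true)).card + (τ.filter (fun x => χ x = false)).card =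
        3 := by
      rw [← h3, ← Finset.card_filter_add_card_filter_not (s := τ) (fun x => χ x = true)]
      congr 2
      ext x; simp
    have e3 : (τ.filter (fun x => χ x = true)).card ≠ 0 := by
      intro h0
      rw [Finset.card_eq_zero, Finset.filter_eq_empty_iff] at h0
      apply hm
      intro x hx y hy
      have a := h0 hx
      have b := h0 hy
      simp only [Bool.not_eq_true] at a b
      rw [a, b]
    have e4 : (τ.filter (fun x => χ x = false)).card ≠ 0 := by
      intro h0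
      rw [Finset.card_eq_zero, Finset.filter_eq_empty_iff] at h0
      apply hm
      intro x hx y hy
      have a := h0 hx
      have b := h0 hy
      simp only [Bool.not_eq_false] at a b
      rw [a, b]
    set u := (τ.filter (fun x => χ x = true)).card
    set v := (τ.filter (fun x => χ x = false)).card
    have : (u = 1 ∧ v = 2) ∨ (u = 2 ∧ v = 1) := by omega
    rcases this with ⟨a, b⟩ | ⟨a, b⟩ <;> rw [a, b]
  rw [Finset.sum_congr rfl h2, Finset.sum_const, smul_eq_mul, mul_comm]

theorem bip_ne {e : E3 × E3} (he : e ∈ bip W χ) : e.1 ≠ e.2 := by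
  intro h
  rw [mem_bip] at he
  rw [h] at he
  simp [he.2.2.2] at he

/-- Parity: a closed set of triangles has an even number of bichromatic boundary edges. -/
theorem closed_even (hF : Fan W B) (hm : ∀ τ ∈ B, ¬ Mono χ τ) {K : Finset (Finset E3)}
    (hK : Closed χ B K) : Even ((bip W χ).filter (fun e => cnt K e.1 e.2 = 1)).card := by
  have hp := par (W := W) (χ := χ) K (fun τ hτ => ⟨hF.sub τ (hK.1 hτ),
    (hF.nice τ (hK.1 hτ)).1, hm τ (hK.1 hτ)⟩)
  have h1 : ∑ e ∈ bip W χ, cnt K e.1 e.2 =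
      ((bip W χ).filter (fun e => cnt K e.1 e.2 = 1)).card +
        ∑ e ∈ bip W χ, (if cnt K e.1 e.2 = 2 then 2 else 0) := by
    rw [Finset.card_filter, ← Finset.sum_add_distrib]
    apply Finset.sum_congr rfl
    intro e he
    have h2 : cnt K e.1 e.2 ≤ 2 := (cnt_mono hK.1 _ _).trans (hF.cnt_le (bip_ne he))
    have h3 : cnt K e.1 e.2 = 0 ∨ cnt K e.1 e.2 = 1 ∨ cnt K e.1 e.2 = 2 := by omega
    rcases h3 with h | h | h <;> simp [h]
  have h2 : Even (∑ e ∈ bip W χ, (if cnt K e.1 e.2 = 2 then 2 else 0)) := by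
    apply Finset.even_sum
    intro e _
    split_ifs <;> decide
  rw [h1] at hp
  have h4 : Even (((bip W χ).filter (fun e => cnt K e.1 e.2 = 1)).card +
      ∑ e ∈ bip W χ, (if cnt K e.1 e.2 = 2 then 2 else 0)) := by
    rw [hp]; exact even_two_mul _
  exact (Nat.even_add.mp h4).mpr h2

theorem closed_cnt {K : Finset (Finset E3)} (hK : Closed χ B K) {e : E3 × E3}
    (he : e ∈ bip W χ) (hpos : cnt K e.1 e.2 ≠ 0) : cnt K e.1 e.2 = cnt B e.1 e.2 := by
  have h0 : 0 < cnt K e.1 e.2 := Nat.pos_of_ne_zero hpos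
  obtain ⟨τ, hτ⟩ := Finset.card_pos.mp h0
  rw [Finset.mem_filter] at hτ
  unfold cnt
  congr 1
  ext σ
  rw [Finset.mem_filter, Finset.mem_filter]
  rw [mem_bip] at he
  constructor
  · rintro ⟨a, b, c⟩; exact ⟨hK.1 a, b, c⟩
  · rintro ⟨a, b, c⟩
    refine ⟨hK.2 τ hτ.1 σ a ⟨e.1, e.2, hτ.2.1, b, hτ.2.2, c, ?_⟩, b, c⟩
    rw [he.2.2.1, he.2.2.2]; decide

/-- One of a closed set and its complement has no bichromatic boundary edge. -/
theorem closed_choice (hF : Fan W B) (hχ : Col W χ) (hm : ∀ τ ∈ B, ¬ Mono χ τ)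
    {K : Finset (Finset E3)} (hK : Closed χ B K) :
    (∀ e ∈ bip W χ, cnt K e.1 e.2 ≠ 1) ∨ (∀ e ∈ bip W χ, cnt (B \ K) e.1 e.2 ≠ 1) := by
  by_contra hcon
  push Not at hcon
  obtain ⟨⟨e1, he1, hc1⟩, e2, he2, hc2⟩ := hcon
  set X1 := (bip W χ).filter (fun e => cnt K e.1 e.2 = 1) with hX1
  set X2 := (bip W χ).filter (fun e => cnt (B \ K) e.1 e.2 = 1) with hX2
  have k1 := closed_even hF hm hK
  have k2 := closed_even hF hm hK.compl
  rw [← hX1] at k1
  rw [← hX2] at k2
  have p1 : 0 < X1.card := Finset.card_pos.mpr ⟨e1, Finset.mem_filter.mpr ⟨he1, hc1⟩⟩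
  have p2 : 0 < X2.card := Finset.card_pos.mpr ⟨e2, Finset.mem_filter.mpr ⟨he2, hc2⟩⟩
  have hdis : Disjoint X1 X2 := by
    rw [Finset.disjoint_left]
    intro e h1 h2
    rw [hX1, Finset.mem_filter] at h1
    rw [hX2, Finset.mem_filter] at h2
    have a1 : 0 < cnt K e.1 e.2 := by rw [h1.2]; norm_num
    have a2 : 0 < cnt (B \ K) e.1 e.2 := by rw [h2.2]; norm_num
    obtain ⟨τ, hτ⟩ := Finset.card_pos.mp a1
    obtain ⟨σ, hσ⟩ := Finset.card_pos.mp a2
    rw [Finset.mem_filter] at hτ hσ
    rw [Finset.mem_sdiff] at hσ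
    apply hσ.1.2
    have hb := mem_bip.mp h1.1
    refine hK.2 τ hτ.1 σ hσ.1.1 ⟨e.1, e.2, hτ.2.1, hσ.2.1, hτ.2.2, hσ.2.2, ?_⟩
    rw [hb.2.2.1, hb.2.2.2]; decide
  have hsub : X1 ∪ X2 ⊆ (W ×ˢ W).filter
      (fun e => χ e.1 = true ∧ χ e.2 = false ∧ cnt B e.1 e.2 = 1) := by
    intro e he
    rw [Finset.mem_union] at he
    have hh : e ∈ bip W χ ∧ cnt B e.1 e.2 = 1 := by
      rcases he with he | he
      · rw [hX1, Finset.mem_filter] at he
        refine ⟨he.1, ?_⟩
        rw [← closed_cnt hK he.1 (by rw [he.2]; norm_num)]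
        exact he.2
      · rw [hX2, Finset.mem_filter] at he
        refine ⟨he.1, ?_⟩
        rw [← closed_cnt hK.compl he.1 (by rw [he.2]; norm_num)]
        exact he.2
    have hb := mem_bip.mp hh.1
    rw [Finset.mem_filter, Finset.mem_product]
    exact ⟨⟨hb.1, hb.2.1⟩, hb.2.2.1, hb.2.2.2, hh.2⟩
  have hle := (Finset.card_le_card hsub).trans (hχ.outer B hF)
  rw [Finset.card_union_of_disjoint hdis] at hle
  obtain ⟨a, ha⟩ := k1
  obtain ⟨b, hb⟩ := k2
  omega

theorem flipSet_swap (B : Finset (Finset E3)) (p q r s : E3) :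
    flipSet B q p r s = flipSet B p q r s := by
  ext τ
  have e1 : ({q, p, s} : Finset E3) = {p, q, s} := swap12 p q s
  have e2 : ({q, p, r} : Finset E3) = {p, q, r} := swap12 p q r
  rw [mem_flipSet, mem_flipSet, e1, e2]
  tauto

/-- The new triangles of a flip are new. -/
theorem Fan.new_notMem (hC : Cfg W) (hF : Fan W B) {p q r s : E3}
    (h1 : ({p, q, r} : Finset E3) ∈ B) (h2 : ({p, q, s} : Finset E3) ∈ B) (hrs : r ≠ s)
    (hcop : gfun {p, q, r} (fun _ => 1) s = 1) : ({p, r, s} : Finset E3) ∉ B := by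
  intro hmem
  obtain ⟨α, β, γ, hα, hβ, hγ, hs⟩ := hF.flip_rel hC h1 h2 hrs hcop
  have hN := hF.nice _ h1
  obtain ⟨hpq, hpr, hqr⟩ := hN.distinct
  obtain ⟨_, hps, hqs⟩ := (hF.nice _ h2).distinct
  have e1 : α • p + β • q + (0 : ℝ) • r = s + γ • r := by rw [hs]; module
  have m1 : s + γ • r ∈ cone {p, q, r} := mem_cone3 hα.le hβ.le le_rfl e1
  have m2 : s + γ • r ∈ cone {p, r, s} :=
    mem_cone3 (a := 0) (b := γ) (c := 1) le_rfl hγ.le zero_le_one (by module)
  have m3 := hF.inter _ h1 _ hmem _ m1 m2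
  have m4 : q ∈ ({p, r, s} : Finset E3) := by
    apply support_of_mem_cone_inter hN m3 (by simp)
    rw [(crd3_unique hN e1).2.1]; exact hβ.ne'
  simp only [Finset.mem_insert, Finset.mem_singleton] at m4
  rcases m4 with h | h | h
  · exact hpq h.symm
  · exact hqr h
  · exact hqs h

/-- Setting of a merging flip. -/
structure MFlip (W : Finset E3) (χ : E3 → Bool) (B Z : Finset (Finset E3)) (p q r s : E3) :
    Prop where
  cfg : Cfg W
  fan : Fan W B
  nomono : ∀ τ ∈ B, ¬ Mono χ τ
  closed : Closed χ B Z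
  nobd : ∀ e ∈ bip W χ, cnt Z e.1 e.2 ≠ 1
  pq : p ≠ q
  rs : r ≠ s
  mem1 : ({p, q, r} : Finset E3) ∈ Z
  mem2 : ({p, q, s} : Finset E3) ∈ B \ Z
  cop : gfun {p, q, r} (fun _ => 1) s = 1

theorem MFlip.colours {Z : Finset (Finset E3)} {p q r s : E3} (h : MFlip W χ B Z p q r s) :
    χ p = χ q ∧ χ r ≠ χ p ∧ χ s ≠ χ p := by
  have h2 := Finset.mem_sdiff.mp h.mem2
  have hpq : χ p = χ q := by
    by_contra hne
    exact h2.2 (h.closed.2 _ h.mem1 _ h2.1 ⟨p, q, by simp, by simp, by simp, by simp, hne⟩)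
  refine ⟨hpq, ?_, ?_⟩
  · intro hr
    apply h.nomono _ (h.closed.1 h.mem1)
    intro x hx y hy
    simp only [Finset.mem_insert, Finset.mem_singleton] at hx hy
    rcases hx with rfl | rfl | rfl <;> rcases hy with rfl | rfl | rfl <;> simp_all
  · intro hr
    apply h.nomono _ h2.1
    intro x hx y hy
    simp only [Finset.mem_insert, Finset.mem_singleton] at hx hy
    rcases hx with rfl | rfl | rfl <;> rcases hy with rfl | rfl | rfl <;> simp_all

theorem MFlip.swap {Z : Finset (Finset E3)} {p q r s : E3} (h : MFlip W χ B Z p q r s) :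
    MFlip W χ B Z q p r s where
  cfg := h.cfg
  fan := h.fan
  nomono := h.nomono
  closed := h.closed
  nobd := h.nobd
  pq := h.pq.symm
  rs := h.rs
  mem1 := by rw [swap12]; exact h.mem1
  mem2 := by rw [swap12]; exact h.mem2
  cop := by rw [swap12]; exact h.cop

theorem MFlip.old1 {Z : Finset (Finset E3)} {p q r s : E3} (h : MFlip W χ B Z p q r s) :
    ({p, q, r} : Finset E3) ∉ flipSet B p q r s := by
  intro hmem
  have hN1 := (h.fan.nice _ (h.closed.1 h.mem1)).distinct
  have hN2 := (h.fan.nice _ (Finset.mem_sdiff.mp h.mem2).1).distinct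
  rw [mem_flipSet] at hmem
  rcases hmem with h' | h' | h'
  · have : q ∈ ({p, r, s} : Finset E3) := by rw [← h']; simp
    simp only [Finset.mem_insert, Finset.mem_singleton] at this
    rcases this with h' | h' | h'
    · exact h.pq h'.symm
    · exact hN1.2.2 h'
    · exact hN2.2.2 h'
  · have : p ∈ ({q, r, s} : Finset E3) := by rw [← h']; simp
    simp only [Finset.mem_insert, Finset.mem_singleton] at this
    rcases this with h' | h' | h'
    · exact h.pq h'
    · exact hN1.2.1 h'
    · exact hN2.2.1 h'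
  · exact h'.2.1 rfl

theorem MFlip.old2 {Z : Finset (Finset E3)} {p q r s : E3} (h : MFlip W χ B Z p q r s) :
    ({p, q, s} : Finset E3) ∉ flipSet B p q r s := by
  intro hmem
  have hN1 := (h.fan.nice _ (h.closed.1 h.mem1)).distinct
  have hN2 := (h.fan.nice _ (Finset.mem_sdiff.mp h.mem2).1).distinct
  rw [mem_flipSet] at hmem
  rcases hmem with h' | h' | h'
  · have : q ∈ ({p, r, s} : Finset E3) := by rw [← h']; simp
    simp only [Finset.mem_insert, Finset.mem_singleton] at this
    rcases this with h' | h' | h'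
    · exact h.pq h'.symm
    · exact hN1.2.2 h'
    · exact hN2.2.2 h'
  · have : p ∈ ({q, r, s} : Finset E3) := by rw [← h']; simp
    simp only [Finset.mem_insert, Finset.mem_singleton] at this
    rcases this with h' | h' | h'
    · exact h.pq h'
    · exact hN1.2.1 h'
    · exact hN2.2.1 h'
  · exact h'.1 rfl

/-- The merging property: after the flip, a closed set containing one of the two new triangles
contains the other. -/
theorem MFlip.merge {Z : Finset (Finset E3)} {p q r s : E3} (h : MFlip W χ B Z p q r s)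
    {K : Finset (Finset E3)} (hK : Closed χ (flipSet B p q r s) K)
    (h1 : ({p, r, s} : Finset E3) ∈ K) : ({q, r, s} : Finset E3) ∈ K := by
  by_contra hcon
  obtain ⟨cpq, cr, cs⟩ := h.colours
  have hZB := h.closed.1
  have hN1 := (h.fan.nice _ (hZB h.mem1)).distinct
  have mem2 := Finset.mem_sdiff.mp h.mem2
  set K1 := K.filter (fun τ => τ ∈ Z) with hK1
  have hK1Z : K1 ⊆ Z := fun τ hτ => (Finset.mem_filter.mp hτ).2
  have hK1B : K1 ⊆ B := hK1Z.trans hZB
  have hK1n : ∀ τ ∈ K1, τ ≠ {p, q, r} := by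
    rintro τ hτ rfl
    exact h.old1 (hK.1 (Finset.mem_filter.mp hτ).1)
  have hpW : p ∈ W := h.fan.sub _ (hZB h.mem1) (by simp)
  have hqW : q ∈ W := h.fan.sub _ (hZB h.mem1) (by simp)
  have hrW : r ∈ W := h.fan.sub _ (hZB h.mem1) (by simp)
  have inB' : ∀ τ ∈ Z, τ ≠ {p, q, r} → τ ∈ flipSet B p q r s := by
    intro τ hτ hne
    rw [mem_flipSet]
    right; right
    refine ⟨?_, hne, hZB hτ⟩
    rintro rfl
    exact mem2.2 hτ
  have transfer : ∀ τ ∈ K1, ∀ σ ∈ Z, σ ≠ {p, q, r} → BAdj χ τ σ → σ ∈ K1 := by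
    intro τ hτ σ hσ hne hadj
    rw [hK1, Finset.mem_filter]
    exact ⟨hK.2 τ (Finset.mem_filter.mp hτ).1 σ (inB' σ hσ hne) hadj, hσ⟩
  have hpar := par (W := W) (χ := χ) K1 (fun τ hτ => ⟨h.fan.sub τ (hK1B hτ),
    (h.fan.nice τ (hK1B hτ)).1, h.nomono τ (hK1B hτ)⟩)
  -- the special edge
  have cntZ : ∀ e ∈ bip W χ, cnt Z e.1 e.2 = 0 ∨ cnt Z e.1 e.2 = 2 := by
    intro e he
    have a1 := h.nobd e he
    have a2 := (cnt_mono hZB e.1 e.2).trans (h.fan.cnt_le (bip_ne he))
    omega
  have hpr1 : cnt K1 p r = 1 := by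
    have hZ2 : cnt Z p r = 2 := by
      have hpos : 0 < cnt Z p r := cnt_pos h.mem1 (by simp) (by simp)
      by_cases hp : χ p = true
      · have := cntZ (p, r) (mem_bip.mpr ⟨hpW, hrW, hp, by
          rw [hp] at cr; simpa using cr⟩)
        simp only at this
        omega
      · have hp' : χ p = false := by simpa using hp
        have := cntZ (r, p) (mem_bip.mpr ⟨hrW, hpW, by rw [hp'] at cr; simpa using cr, hp'⟩)
        simp only at this
        rw [cnt_comm] at this
        omega
    have hmem : ({p, q, r} : Finset E3) ∈ Z.filter (fun τ => p ∈ τ ∧ r ∈ τ) :=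
      Finset.mem_filter.mpr ⟨h.mem1, by simp, by simp⟩
    have hc : ((Z.filter (fun τ => p ∈ τ ∧ r ∈ τ)).erase {p, q, r}).card = 1 := by
      rw [Finset.card_erase_of_mem hmem]
      have : (Z.filter (fun τ => p ∈ τ ∧ r ∈ τ)).card = 2 := hZ2
      omega
    have he : K1.filter (fun τ => p ∈ τ ∧ r ∈ τ) =
        (Z.filter (fun τ => p ∈ τ ∧ r ∈ τ)).erase {p, q, r} := by
      ext τ
      rw [Finset.mem_filter (s := K1), Finset.mem_erase, Finset.mem_filter (s := Z)]
      constructor
      · rintro ⟨a, b⟩; exact ⟨hK1n τ a, hK1Z a, b⟩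
      · rintro ⟨a, b, c⟩
        refine ⟨?_, c⟩
        rw [hK1, Finset.mem_filter]
        exact ⟨hK.2 _ h1 τ (inB' τ b a) ⟨p, r, by simp, c.1, by simp, c.2, fun hh => cr hh.symm⟩,
          b⟩
    unfold cnt
    rw [he, hc]
  have hqr0 : cnt K1 q r = 0 := by
    unfold cnt
    rw [Finset.card_eq_zero, Finset.filter_eq_empty_iff]
    rintro τ hτ ⟨hq, hr⟩
    apply hcon
    refine hK.2 τ (Finset.mem_filter.mp hτ).1 _ (mem_flipSet.mpr (Or.inr (Or.inl rfl)))
      ⟨q, r, hq, by simp, hr, by simp, ?_⟩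
    rw [← cpq]; exact fun hh => cr hh.symm
  -- the parity of all other edges
  set e0 : E3 × E3 := if χ p = true then (p, r) else (r, p) with he0
  have he0mem : e0 ∈ bip W χ := by
    rw [he0]
    split_ifs with hp
    · exact mem_bip.mpr ⟨hpW, hrW, hp, by rw [hp] at cr; simpa using cr⟩
    · have hp' : χ p = false := by simpa using hp
      exact mem_bip.mpr ⟨hrW, hpW, by rw [hp'] at cr; simpa using cr, hp'⟩
  have he0c : cnt K1 e0.1 e0.2 = 1 := by
    rw [he0]
    split_ifs with hp
    · exact hpr1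
    · rw [cnt_comm]; exact hpr1
  have hrest : Even (∑ e ∈ (bip W χ).erase e0, cnt K1 e.1 e.2) := by
    apply Finset.even_sum
    intro e he
    rw [Finset.mem_erase] at he
    have hb := mem_bip.mp he.2
    by_cases h0 : cnt K1 e.1 e.2 = 0
    · rw [h0]; decide
    · by_cases hsub : e.1 ∈ ({p, q, r} : Finset E3) ∧ e.2 ∈ ({p, q, r} : Finset E3)
      · exfalso
        obtain ⟨s1, s2⟩ := hsub
        simp only [Finset.mem_insert, Finset.mem_singleton] at s1 s2
        obtain ⟨x, y⟩ := e
        simp only at s1 s2 hb h0 he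
        rcases s1 with rfl | rfl | rfl
        · rcases s2 with rfl | rfl | rfl
          · rw [hb.2.2.1] at hb; simp at hb
          · rw [hb.2.2.1, hb.2.2.2] at cpq; simp at cpq
          · apply he.1
            rw [he0, if_pos hb.2.2.1]
        · rcases s2 with rfl | rfl | rfl
          · rw [hb.2.2.1, hb.2.2.2] at cpq; simp at cpq
          · rw [hb.2.2.1] at hb; simp at hb
          · exact h0 hqr0
        · rcases s2 with rfl | rfl | rfl
          · apply he.1
            rw [he0, if_neg (by rw [hb.2.2.2]; decide)]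
          · rw [cnt_comm] at h0; exact h0 hqr0
          · rw [hb.2.2.1] at hb; simp at hb
      · have hcz : cnt K1 e.1 e.2 = cnt Z e.1 e.2 := by
          obtain ⟨τ, hτ⟩ := Finset.card_pos.mp (Nat.pos_of_ne_zero h0)
          rw [Finset.mem_filter] at hτ
          unfold cnt
          congr 1
          ext σ
          rw [Finset.mem_filter (s := K1), Finset.mem_filter (s := Z)]
          constructor
          · rintro ⟨a, b⟩; exact ⟨hK1Z a, b⟩
          · rintro ⟨a, b⟩
            refine ⟨transfer τ hτ.1 σ a ?_ ⟨e.1, e.2, hτ.2.1, b.1, hτ.2.2, b.2, ?_⟩, b⟩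
            · rintro rfl
              exact hsub b
            · rw [hb.2.2.1, hb.2.2.2]; decide
        rw [hcz]
        rcases cntZ e he.2 with hh | hh <;> rw [hh] <;> decide
  rw [← Finset.add_sum_erase _ _ he0mem, he0c] at hpar
  obtain ⟨k, hk⟩ := hrest
  rw [hk] at hpar
  omega

theorem MFlip.merge_iff {Z : Finset (Finset E3)} {p q r s : E3} (h : MFlip W χ B Z p q r s)
    {K : Finset (Finset E3)} (hK : Closed χ (flipSet B p q r s) K) :
    ({p, r, s} : Finset E3) ∈ K ↔ ({q, r, s} : Finset E3) ∈ K := by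
  constructor
  · exact h.merge hK
  · apply h.swap.merge
    rw [flipSet_swap]; exact hK

/-- A bichromatic neighbour of an old triangle is a bichromatic neighbour of a new one. -/
theorem badj_new {p q r s t : E3} (cpq : χ p = χ q) (ht : t = r ∨ t = s)
    {τ : Finset E3} (hadj : BAdj χ τ {p, q, t}) :
    BAdj χ τ {p, r, s} ∨ BAdj χ τ {q, r, s} := by
  obtain ⟨x, y, h1, h2, h3, h4, h5⟩ := hadj
  have ht' : t ∈ ({p, r, s} : Finset E3) ∧ t ∈ ({q, r, s} : Finset E3) := by
    rcases ht with rfl | rfl <;> simp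
  simp only [Finset.mem_insert, Finset.mem_singleton] at h2 h4
  rcases h2 with rfl | rfl | rfl
  · rcases h4 with rfl | rfl | rfl
    · exact absurd rfl h5
    · exact absurd cpq h5
    · left; exact ⟨x, y, h1, by simp, h3, ht'.1, h5⟩
  · rcases h4 with rfl | rfl | rfl
    · exact absurd cpq.symm h5
    · exact absurd rfl h5
    · right; exact ⟨x, y, h1, by simp, h3, ht'.2, h5⟩
  · rcases h4 with rfl | rfl | rfl
    · left; exact ⟨x, y, h1, ht'.1, h3, by simp, h5⟩
    · right; exact ⟨x, y, h1, ht'.2, h3, by simp, h5⟩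
    · exact absurd rfl h5

/-- The number of closed sets. -/
noncomputable def ncl (χ : E3 → Bool) (B : Finset (Finset E3)) : ℕ :=
  (B.powerset.filter (Closed χ B)).card

theorem MFlip.ncl_lt {Z : Finset (Finset E3)} {p q r s : E3} (h : MFlip W χ B Z p q r s) :
    ncl χ (flipSet B p q r s) < ncl χ B := by
  obtain ⟨cpq, cr, cs⟩ := h.colours
  have hZB := h.closed.1
  have mem2 := Finset.mem_sdiff.mp h.mem2
  have n1 : ({p, r, s} : Finset E3) ∉ B := h.fan.new_notMem h.cfg (hZB h.mem1) mem2.1 h.rs h.cop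
  have n2 : ({q, r, s} : Finset E3) ∉ B := h.swap.fan.new_notMem h.cfg (hZB h.swap.mem1)
    (Finset.mem_sdiff.mp h.swap.mem2).1 h.rs h.swap.cop
  have o1 := h.old1
  have o2 := h.old2
  set Φ : Finset (Finset E3) → Finset (Finset E3) := fun K =>
    (B.filter (fun τ => τ ∈ K)) ∪
      (if ({p, r, s} : Finset E3) ∈ K then {{p, q, r}, {p, q, s}} else ∅) with hΦ
  have memΦ : ∀ K τ, τ ∈ Φ K ↔ (τ ∈ B ∧ τ ∈ K) ∨
      (({p, r, s} : Finset E3) ∈ K ∧ (τ = {p, q, r} ∨ τ = {p, q, s})) := by
    intro K τ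
    simp only [hΦ, Finset.mem_union, Finset.mem_filter]
    by_cases hh : ({p, r, s} : Finset E3) ∈ K
    · rw [if_pos hh]
      simp [hh]
    · rw [if_neg hh]
      simp [hh]
  have hZmem : Z ∈ B.powerset.filter (Closed χ B) :=
    Finset.mem_filter.mpr ⟨Finset.mem_powerset.mpr hZB, h.closed⟩
  have hle : ncl χ (flipSet B p q r s) ≤ ((B.powerset.filter (Closed χ B)).erase Z).card := by
    unfold ncl
    apply Finset.card_le_card_of_injOn Φ
    · intro K hK
      have hK' := Finset.mem_coe.mp hK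
      rw [Finset.mem_filter, Finset.mem_powerset] at hK'
      obtain ⟨hKs, hKc⟩ := hK'
      rw [Finset.mem_coe, Finset.mem_erase]
      constructor
      · intro heq
        have a1 : ({p, q, r} : Finset E3) ∈ Φ K := by rw [heq]; exact h.mem1
        have a2 : ({p, q, s} : Finset E3) ∉ Φ K := by rw [heq]; exact mem2.2
        rw [memΦ] at a1 a2
        rcases a1 with a1 | a1
        · exact o1 (hKs a1.2)
        · exact a2 (Or.inr ⟨a1.1, Or.inr rfl⟩)
      · rw [Finset.mem_filter, Finset.mem_powerset]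
        have hsubB : Φ K ⊆ B := by
          intro τ hτ
          rw [memΦ] at hτ
          rcases hτ with hτ | ⟨_, rfl | rfl⟩
          · exact hτ.1
          · exact hZB h.mem1
          · exact mem2.1
        refine ⟨hsubB, hsubB, ?_⟩
        intro τ hτ τ' hτ' hadj
        have toK : ∀ σ ∈ B, σ ≠ {p, q, r} → σ ≠ {p, q, s} → σ ∈ flipSet B p q r s := by
          intro σ hσ hh1 hh2
          exact mem_flipSet.mpr (Or.inr (Or.inr ⟨hh2, hh1, hσ⟩))
        have newadj : ∀ t, (t = r ∨ t = s) → ∀ σ, BAdj χ σ {p, q, t} →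
            (BAdj χ σ {p, r, s} ∨ BAdj χ σ {q, r, s}) := fun t ht σ hσ => badj_new cpq ht hσ
        rw [memΦ] at hτ ⊢
        by_cases ht1 : τ' = {p, q, r} ∨ τ' = {p, q, s}
        · -- the target is an old triangle
          right
          refine ⟨?_, ht1⟩
          rcases hτ with ⟨hτB, hτK⟩ | ⟨hτK, _⟩
          · have hadj2 : BAdj χ τ {p, r, s} ∨ BAdj χ τ {q, r, s} := by
              rcases ht1 with rfl | rfl
              · exact newadj r (Or.inl rfl) τ hadj
              · exact newadj s (Or.inr rfl) τ hadj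
            rcases hadj2 with ha | ha
            · exact hKc.2 τ hτK _ (mem_flipSet.mpr (Or.inl rfl)) ha
            · exact (h.merge_iff hKc).mpr
                (hKc.2 τ hτK _ (mem_flipSet.mpr (Or.inr (Or.inl rfl))) ha)
          · exact hτK
        · push Not at ht1
          left
          refine ⟨hτ', ?_⟩
          rcases hτ with ⟨hτB, hτK⟩ | ⟨hτK, hτe⟩
          · exact hKc.2 τ hτK τ' (toK τ' hτ' ht1.1 ht1.2) hadj
          · have hadj2 : BAdj χ τ' {p, r, s} ∨ BAdj χ τ' {q, r, s} := by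
              rcases hτe with rfl | rfl
              · exact newadj r (Or.inl rfl) τ' hadj.symm
              · exact newadj s (Or.inr rfl) τ' hadj.symm
            rcases hadj2 with ha | ha
            · exact hKc.2 _ hτK τ' (toK τ' hτ' ht1.1 ht1.2) ha.symm
            · exact hKc.2 _ ((h.merge_iff hKc).mp hτK) τ' (toK τ' hτ' ht1.1 ht1.2) ha.symm
    · intro K hK K' hK' heq
      have hK1 := Finset.mem_coe.mp hK
      have hK1' := Finset.mem_coe.mp hK'
      rw [Finset.mem_filter, Finset.mem_powerset] at hK1 hK1'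
      have half : ∀ K K' : Finset (Finset E3), K ⊆ flipSet B p q r s →
          Closed χ (flipSet B p q r s) K → K' ⊆ flipSet B p q r s →
          Closed χ (flipSet B p q r s) K' → Φ K = Φ K' → K ⊆ K' := by
        intro K K' hKs hKc hKs' hKc' heq τ hτ
        have new1 : ({p, r, s} : Finset E3) ∈ K → ({p, r, s} : Finset E3) ∈ K' := by
          intro hh
          have a1 : ({p, q, r} : Finset E3) ∈ Φ K := by
            rw [memΦ]; exact Or.inr ⟨hh, Or.inl rfl⟩
          rw [heq, memΦ] at a1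
          rcases a1 with a1 | a1
          · exact absurd (hKs' a1.2) o1
          · exact a1.1
        rcases mem_flipSet.mp (hKs hτ) with rfl | rfl | ⟨g1, g2, g3⟩
        · exact new1 hτ
        · exact (h.merge_iff hKc').mp (new1 ((h.merge_iff hKc).mpr hτ))
        · have a1 : τ ∈ Φ K := by rw [memΦ]; exact Or.inl ⟨g3, hτ⟩
          rw [heq, memΦ] at a1
          rcases a1 with a1 | ⟨_, a1 | a1⟩
          · exact a1.2
          · exact absurd a1 g2
          · exact absurd a1 g1
      exact Finset.Subset.antisymm (half K K' hK1.1 hK1.2 hK1'.1 hK1'.2 heq)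
        (half K' K hK1'.1 hK1'.2 hK1.1 hK1.2 heq.symm)
  have hlt : ((B.powerset.filter (Closed χ B)).erase Z).card <
      (B.powerset.filter (Closed χ B)).card := Finset.card_erase_lt_of_mem hZmem
  exact lt_of_le_of_lt hle hlt

/-- Second extremal step: there is a fan without monochromatic triangles whose bichromatic dual
graph is connected. -/
theorem exists_fan_connected (hC : Cfg W) (hχ : Col W χ) :
    ∃ B, Fan W B ∧ (∀ τ ∈ B, ¬ Mono χ τ) ∧ ∀ K, Closed χ B K → K = ∅ ∨ K = B := by
  have key : ∀ n, ∀ B, Fan W B → (∀ τ ∈ B, ¬ Mono χ τ) → ncl χ B = n →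
      ∃ B, Fan W B ∧ (∀ τ ∈ B, ¬ Mono χ τ) ∧ ∀ K, Closed χ B K → K = ∅ ∨ K = B := by
    intro n
    induction n using Nat.strong_induction_on with
    | _ n ih =>
      intro B hF hm hn
      by_cases hall : ∀ K, Closed χ B K → K = ∅ ∨ K = B
      · exact ⟨B, hF, hm, hall⟩
      · push Not at hall
        obtain ⟨K, hK, hKe, hKB⟩ := hall
        have hne : K.Nonempty := hKe
        have hne' : (B \ K).Nonempty := by
          rw [Finset.nonempty_iff_ne_empty]
          intro h
          rw [Finset.sdiff_eq_empty_iff_subset] at h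
          exact hKB (Finset.Subset.antisymm hK.1 h)
        obtain ⟨Z, hZc, hZne, hZne', hZbd⟩ : ∃ Z, Closed χ B Z ∧ Z.Nonempty ∧
            (B \ Z).Nonempty ∧ ∀ e ∈ bip W χ, cnt Z e.1 e.2 ≠ 1 := by
          rcases closed_choice hF hχ hm hK with h | h
          · exact ⟨K, hK, hne, hne', h⟩
          · refine ⟨B \ K, hK.compl, hne', ?_, h⟩
            rw [Finset.sdiff_sdiff_eq_self hK.1]
            exact hne
        obtain ⟨p, q, r, s, hpq, hrs, h1, h2, hcop⟩ := flippable hC hF hχ hZc.1 hZne hZne' (by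
          intro p q r s hpq hrs h1 h2
          rw [Finset.mem_sdiff] at h2
          by_contra hne
          exact h2.2 (hZc.2 _ h1 _ h2.1 ⟨p, q, by simp, by simp, by simp, by simp, hne⟩))
        have hM : MFlip W χ B Z p q r s := ⟨hC, hF, hm, hZc, hZbd, hpq, hrs, h1, h2, hcop⟩
        obtain ⟨cpq, cr, cs⟩ := hM.colours
        refine ih _ ?_ (flipSet B p q r s)
          (hF.flip hC (hZc.1 h1) (Finset.mem_sdiff.mp h2).1 hrs hcop) ?_ rfl
        · rw [← hn]; exact hM.ncl_lt
        · intro τ hτ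
          rw [mem_flipSet] at hτ
          rcases hτ with rfl | rfl | ⟨_, _, hτ⟩
          · exact fun hh => cr (hh r (by simp) p (by simp))
          · exact fun hh => cr ((hh r (by simp) q (by simp)).trans cpq.symm)
          · exact hm τ hτ
  obtain ⟨B, hB, hm⟩ := exists_fan_nomono hC hχ
  exact key _ B hB hm rfl

/-- The combinatorial core: a Hamiltonian ordering of a fan. -/
theorem exists_ham_fan (hC : Cfg W) (hχ : Col W χ) :
    ∃ B, Fan W B ∧ ∃ L : List (Finset E3), L.Nodup ∧ L.toFinset = B ∧ L.IsChain (BAdj χ) := by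
  obtain ⟨B, hF, hm, hcl⟩ := exists_fan_connected hC hχ
  refine ⟨B, hF, ?_⟩
  apply ham_list B (BAdj χ) (fun _ _ h => h.symm)
  · intro τ hτ a ha b hb c hc hane hbne hcne hRa hRb hRc
    obtain ⟨p, q, r, rfl, hpq, hpr, hqr, cpq, cr⟩ := nonmono_form (hF.nice τ hτ).1 (hm τ hτ)
    have split : ∀ σ, BAdj χ {p, q, r} σ → (p ∈ σ ∧ r ∈ σ) ∨ (q ∈ σ ∧ r ∈ σ) := by
      rintro σ ⟨x, y, h1, h2, h3, h4, h5⟩
      simp only [Finset.mem_insert, Finset.mem_singleton] at h1 h3
      rcases h1 with rfl | rfl | rfl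
      · rcases h3 with rfl | rfl | rfl
        · exact absurd rfl h5
        · exact absurd cpq h5
        · left; exact ⟨h2, h4⟩
      · rcases h3 with rfl | rfl | rfl
        · exact absurd cpq.symm h5
        · exact absurd rfl h5
        · right; exact ⟨h2, h4⟩
      · rcases h3 with rfl | rfl | rfl
        · left; exact ⟨h4, h2⟩
        · right; exact ⟨h4, h2⟩
        · exact absurd rfl h5
    have uniq : ∀ x y : E3, x ∈ ({p, q, r} : Finset E3) → y ∈ ({p, q, r} : Finset E3) → x ≠ y →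
        ∀ σ ∈ B, ∀ σ' ∈ B, σ ≠ {p, q, r} → σ' ≠ {p, q, r} → (x ∈ σ ∧ y ∈ σ) →
        (x ∈ σ' ∧ y ∈ σ') → σ = σ' := by
      intro x y hx hy hxy σ hσ σ' hσ' hne hne' h1 h2
      by_contra hcon
      have hle := hF.cnt_le hxy
      have h3 : ({({p, q, r} : Finset E3), σ, σ'} : Finset (Finset E3)) ⊆
          B.filter (fun τ => x ∈ τ ∧ y ∈ τ) := by
        intro ρ hρ
        simp only [Finset.mem_insert, Finset.mem_singleton] at hρ
        rw [Finset.mem_filter]
        rcases hρ with rfl | rfl | rfl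
        · exact ⟨hτ, hx, hy⟩
        · exact ⟨hσ, h1⟩
        · exact ⟨hσ', h2⟩
      have h4 := Finset.card_le_card h3
      have h5 : ({({p, q, r} : Finset E3), σ, σ'} : Finset (Finset E3)).card = 3 :=
        Finset.card_eq_three.mpr ⟨_, _, _, Ne.symm hne, Ne.symm hne', hcon, rfl⟩
      rw [h5] at h4
      have h6 : cnt B x y = (B.filter (fun τ => x ∈ τ ∧ y ∈ τ)).card := rfl
      omega
    have up := uniq p r (by simp) (by simp) hpr
    have uq := uniq q r (by simp) (by simp) hqr
    rcases split a hRa with ha' | ha' <;> rcases split b hRb with hb' | hb' <;>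
      rcases split c hRc with hc' | hc'
    · left; exact up a ha b hb hane hbne ha' hb'
    · left; exact up a ha b hb hane hbne ha' hb'
    · right; left; exact up a ha c hc hane hcne ha' hc'
    · right; right; exact uq b hb c hc hbne hcne hb' hc'
    · right; right; exact up b hb c hc hbne hcne hb' hc'
    · right; left; exact uq a ha c hc hane hcne ha' hc'
    · left; exact uq a ha b hb hane hbne ha' hb'
    · left; exact uq a ha b hb hane hbne ha' hb'
  · intro K hKB hKc
    exact hcl K ⟨hKB, hKc⟩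
  · obtain ⟨x, hx, _⟩ := hχ.two
    obtain ⟨τ, hτ, _⟩ := hF.exists_mem hC hx
    exact ⟨τ, hτ⟩

end

end Run7.h169
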