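import Pool.Agent.Run7.h169.Qv3

set_option autoImplicit false
open scoped Classical Topology
open Filter

namespace Run7.h169

section

variable {S : Finset E3} {z : E3}

/-- A vertex on three supporting planes in general position has a frame. -/
theorem frm_of_planes {t s r : E3} (hz : z ∈ S) (ht : t ∈ S) (hs : s ∈ S) (hr : r ∈ S)
    {f g k : E3 →ₗ[ℝ] ℝ} (f1 : ∀ y ∈ S, f z ≤ f y) (g1 : ∀ y ∈ S, g z ≤ g y)
    (k1 : ∀ y ∈ S, k z ≤ k y) (f2 : f t = f z) (f3 : f s = f z) (g2 : g s = g z)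
    (g3 : g r = g z) (k2 : k t = k z) (k3 : k r = k z) (fr : f r ≠ f z) (gt : g t ≠ g z)
    (ks : k s ≠ k z) : ∃ φ1 φ2 φ3, Frm S z t s r φ1 φ2 φ3 := by
  have e1 : f z < f r := lt_of_le_of_ne (f1 r hr) (Ne.symm fr)
  have e2 : g z < g t := lt_of_le_of_ne (g1 t ht) (Ne.symm gt)
  have e3 : k z < k s := lt_of_le_of_ne (k1 s hs) (Ne.symm ks)
  have hN : Nice {t - z, s - z, r - z} := nice_of_functionals (f1 := g) (f2 := k) (f3 := f)
    (by rw [map_sub]; linarith) (by rw [map_sub, g2, sub_self]) (by rw [map_sub, g3, sub_self])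
    (by rw [map_sub]; linarith) (by rw [map_sub, k3, sub_self]) (by rw [map_sub]; linarith)
  refine ⟨_, _, _, frm_of_nice hz ht hs hr hN ?_⟩
  intro y hy
  have e := crd_sum3 hN (y - z)
  refine ⟨_, _, _, ?_, ?_, ?_, e⟩
  · have l1 := congrArg g e
    simp only [map_add, map_smul, map_sub g, g2, g3, sub_self, smul_eq_mul, mul_zero,
      add_zero] at l1
    have l2 := g1 y hy
    exact nonneg_of_mul_nonneg_left (by rw [l1]; linarith) (sub_pos.mpr e2)
  · have l1 := congrArg k e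
    simp only [map_add, map_smul, map_sub k, k2, k3, sub_self, smul_eq_mul, mul_zero,
      add_zero, zero_add] at l1
    have l2 := k1 y hy
    exact nonneg_of_mul_nonneg_left (by rw [l1]; linarith) (sub_pos.mpr e3)
  · have l1 := congrArg f e
    simp only [map_add, map_smul, map_sub f, f2, f3, sub_self, smul_eq_mul, mul_zero,
      zero_add] at l1
    have l2 := f1 y hy
    exact nonneg_of_mul_nonneg_left (by rw [l1]; linarith) (sub_pos.mpr e1)

/-- The functional vanishing exactly at the outer vertices of a facet. -/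
theorem face_fun (hS : ConvPos S) (hC : Cfg (rel S z)) (hz : z ∈ S)
    (hin : ∃ y ∈ rel S z, Inner (rel S z) y)
    (hsep : ∀ a c, ¬ Sep S z a c) {π : E3 →ₗ[ℝ] ℝ} (hπ : ∀ w ∈ rel S z, π w ≤ 1)
    (hπ1 : ∃ w ∈ rel S z, π w = 1) :
    ∃ f : E3 →ₗ[ℝ] ℝ, f ≠ 0 ∧ ∀ w ∈ rel S z, π w = 1 →
      (¬ Inner (rel S z) w → f w = 0) ∧ (Inner (rel S z) w → 0 < f w) := by
  set W := rel S z with hW
  have mS : ∀ {w : E3}, w ∈ W → w + z ∈ S := fun hw => (mem_rel.mp hw).1
  have two : ∀ o ∈ W, ∀ o' ∈ W, π o = 1 → π o' = 1 → ¬ Inner W o → ¬ Inner W o' →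
      ∃ f : E3 →ₗ[ℝ] ℝ, f ≠ 0 ∧ (∀ u ∈ S, f z ≤ f u) ∧ f o = 0 ∧ f o' = 0 := by
    intro o ho o' ho' πo πo' no no'
    have h3 : Cof3 S z (o + z) (o' + z) := by
      by_contra hcon
      exact hsep _ _ ⟨hz, mS ho, mS ho', cof_of_not_inner hC ho no, cof_of_not_inner hC ho' no',
        cof_of_plane hπ πo πo', hcon⟩
    obtain ⟨f, f0, f1, f2, f3⟩ := h3
    rw [map_add] at f2 f3
    exact ⟨f, f0, f1, by linarith, by linarith⟩
  by_cases ho : ∃ o ∈ W, π o = 1 ∧ ¬ Inner W o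
  · obtain ⟨o, ho, πo, no⟩ := ho
    by_cases ho' : ∃ o' ∈ W, π o' = 1 ∧ ¬ Inner W o' ∧ o' ≠ o
    · obtain ⟨o', ho', πo', no', hne⟩ := ho'
      obtain ⟨f, f0, f1, fo, fo'⟩ := two o ho o' ho' πo πo' no no'
      refine ⟨f, f0, ?_⟩
      intro w hw πw
      constructor
      · intro nw
        by_contra fw
        obtain ⟨g, g0, g1, go', gw⟩ := two o' ho' w hw πo' πw no' nw
        obtain ⟨k, k0, k1, ko, kw⟩ := two o ho w hw πo πw no nw
        have go : g o ≠ 0 := fun go => hC.two_planes ho ho' hne fo fo' fw g0 go go' gw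
        have ko' : k o' ≠ 0 := fun ko' => hC.two_planes ho ho' hne fo fo' fw k0 ko ko' kw
        have ad : ∀ (φ : E3 →ₗ[ℝ] ℝ) (p : E3), φ p = 0 → φ (p + z) = φ z := by
          intro φ p hp; rw [map_add, hp, zero_add]
        have nd : ∀ (φ : E3 →ₗ[ℝ] ℝ) (p : E3), φ p ≠ 0 → φ (p + z) ≠ φ z := by
          intro φ p hp hh
          rw [map_add] at hh
          exact hp (by linarith)
        obtain ⟨φ1, φ2, φ3, hf⟩ := frm_of_planes hz (mS ho) (mS ho') (mS hw) f1 g1 k1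
          (ad f _ fo) (ad f _ fo') (ad g _ go') (ad g _ gw) (ad k _ ko) (ad k _ kw)
          (nd f _ fw) (nd g _ go) (nd k _ ko')
        obtain ⟨y, hy, iy⟩ := hin
        have hyz : y + z ≠ z := by
          intro hh
          exact (mem_rel.mp hy).2 (by simpa using hh)
        have hout := hf.out hS (mS hy) hyz
          (fun hh => no (by rwa [add_right_cancel hh] at iy))
          (fun hh => no' (by rwa [add_right_cancel hh] at iy))
          (fun hh => nw (by rwa [add_right_cancel hh] at iy))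
        have e := congrArg π (hf.ext (y + z - z))
        simp only [map_add, map_smul, add_sub_cancel_right, πo, πo', πw, smul_eq_mul,
          mul_one] at e hout
        have := hπ y hy
        linarith
      · intro iw
        refine Inner.pos_of_support f0 ?_ (mem_cone_self hw) iw
        intro x hx
        have := f1 _ (mS hx)
        rw [map_add] at this
        linarith
    · push Not at ho'
      obtain ⟨f, f0, f1, f2⟩ := exists_support hC (mem_cone_self ho) no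
      refine ⟨f, f0, ?_⟩
      intro w hw πw
      constructor
      · intro nw
        rw [ho' w hw πw nw, f2]
      · intro iw
        exact Inner.pos_of_support f0 f1 (mem_cone_self hw) iw
  · push Not at ho
    refine ⟨π, ?_, ?_⟩
    · obtain ⟨w, _, hw1⟩ := hπ1
      intro h0
      rw [h0] at hw1
      simp at hw1
    · intro w hw πw
      constructor
      · intro nw
        exact absurd (ho w hw πw) nw
      · intro _
        rw [πw]; exact one_pos

/-- An injective functional on a facet with the outer vertices on top. -/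
theorem face_inj (hS : ConvPos S) (hC : Cfg (rel S z)) (hz : z ∈ S)
    (hin : ∃ y ∈ rel S z, Inner (rel S z) y)
    (hsep : ∀ a c, ¬ Sep S z a c) {π : E3 →ₗ[ℝ] ℝ} (hπ : ∀ w ∈ rel S z, π w ≤ 1)
    (hπ1 : ∃ w ∈ rel S z, π w = 1) :
    ∃ e : E3 →ₗ[ℝ] ℝ, (∀ w ∈ rel S z, ∀ o ∈ rel S z, π w = 1 → π o = 1 →
      Inner (rel S z) w → ¬ Inner (rel S z) o → e w < e o) ∧
      ∀ w ∈ rel S z, ∀ w' ∈ rel S z, π w = 1 → π w' = 1 → e w = e w' → w = w' := by
  obtain ⟨f, _, hf⟩ := face_fun hS hC hz hin hsep hπ hπ1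
  set W := rel S z with hW
  obtain ⟨n, hn⟩ := exists_generic_fun
    (((W ×ˢ W).filter (fun e => e.1 ≠ e.2)).image (fun e => e.1 - e.2)) (by
      intro u hu
      obtain ⟨e, he, rfl⟩ := Finset.mem_image.mp hu
      exact sub_ne_zero.mpr (Finset.mem_filter.mp he).2)
  have hev1 : ∀ᶠ δ in 𝓝[>] (0 : ℝ), ∀ e ∈ (W ×ˢ W).filter (fun e : E3 × E3 => e.1 ≠ e.2),
      -(f (e.1 - e.2)) + δ * n (e.1 - e.2) ≠ 0 := by
    rw [Filter.eventually_all_finset]
    intro e he
    exact gen2 (Or.inr (hn _ (Finset.mem_image_of_mem _ he)))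
  have hev2 : ∀ᶠ δ in 𝓝[>] (0 : ℝ), ∀ e ∈ (W ×ˢ W).filter (fun e : E3 × E3 =>
      (π e.1 = 1 ∧ π e.2 = 1) ∧ Inner W e.1 ∧ ¬ Inner W e.2),
      -(f e.1) + δ * (n e.1 - n e.2) < 0 := by
    rw [Filter.eventually_all_finset]
    intro e he
    rw [Finset.mem_filter, Finset.mem_product] at he
    obtain ⟨⟨h1, h2⟩, ⟨h3, h4⟩, h5, h6⟩ := he
    apply ev_neg
    have := (hf _ h1 h3).2 h5
    linarith
  obtain ⟨δ, h1, h2⟩ := (hev1.and hev2).exists
  refine ⟨-f + δ • n, ?_, ?_⟩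
  · intro w hw o ho πw πo iw no
    have := h2 (w, o) (by
      rw [Finset.mem_filter, Finset.mem_product]
      exact ⟨⟨hw, ho⟩, ⟨πw, πo⟩, iw, no⟩)
    have fo := (hf o ho πo).1 no
    show -(f w) + δ * n w < -(f o) + δ * n o
    rw [fo]
    have this' : -(f w) + δ * (n w - n o) < 0 := this
    rw [mul_sub] at this'
    linarith
  · intro w hw w' hw' πw πw' he
    by_contra hne
    have := h1 (w, w') (by
      rw [Finset.mem_filter, Finset.mem_product]
      exact ⟨⟨hw, hw'⟩, hne⟩)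
    apply this
    have he' : -(f w) + δ * n w = -(f w') + δ * n w' := he
    show -(f (w - w')) + δ * n (w - w') = 0
    rw [map_sub, map_sub, mul_sub]
    linarith

/-- The inner vertices of a facet belong to one component. -/
theorem face_conn (hS : ConvPos S) (hspan : affineSpan ℝ (S : Set E3) = ⊤) (hz : z ∈ S)
    (hsep : ∀ a c, ¬ Sep S z a c) {X : Finset E3}
    (hX : X ⊆ (rel S z).filter (Inner (rel S z)))
    (hcl : ∀ p ∈ X, ∀ q ∈ rel S z, Inner (rel S z) q → IsEdge0 (rel S z) p q → q ∈ X)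
    {π : E3 →ₗ[ℝ] ℝ} (hπ : ∀ w ∈ rel S z, π w ≤ 1) {x y : E3} (hx : x ∈ X) (πx : π x = 1)
    (hy : y ∈ rel S z) (iy : Inner (rel S z) y) (πy : π y = 1) : y ∈ X := by
  by_contra hyX
  have hC : Cfg (rel S z) := cfg_rel hS hspan hz
  obtain ⟨e, htop, hinj⟩ := face_inj hS hC hz ⟨y, hy, iy⟩ hsep hπ ⟨y, hy, πy⟩
  set W := rel S z with hW
  have hXin : ∀ {p : E3}, p ∈ X → p ∈ W ∧ Inner W p := fun hp => Finset.mem_filter.mp (hX hp)
  obtain ⟨wX, hwX, minX⟩ := Finset.exists_min_image (X.filter (fun w => π w = 1)) (fun w => e w)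
    ⟨x, Finset.mem_filter.mpr ⟨hx, πx⟩⟩
  obtain ⟨wY, hwY, minY⟩ := Finset.exists_min_image
    (W.filter (fun w => π w = 1 ∧ Inner W w ∧ w ∉ X)) (fun w => e w)
    ⟨y, Finset.mem_filter.mpr ⟨hy, πy, iy, hyX⟩⟩
  obtain ⟨x1, x2⟩ := Finset.mem_filter.mp hwX
  obtain ⟨x3, x4⟩ := hXin x1
  obtain ⟨y1, y2, y3, y4⟩ := Finset.mem_filter.mp hwY
  have hne : e wX ≠ e wY := by
    intro hh
    have := hinj wX x3 wY y1 x2 y2 hh
    exact y4 (this ▸ x1)
  rcases lt_or_gt_of_ne hne with hlt | hlt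
  · obtain ⟨u, u1, u2, u3, u4, u5⟩ := face_descend hS hspan hz hπ htop y1 x3 y2 x2 y3 hlt
    by_cases huX : u ∈ X
    · exact y4 (hcl u huX wY y1 y3 u4.symm)
    · have : e wY ≤ e u := minY u (Finset.mem_filter.mpr ⟨u1, u2, u3, huX⟩)
      linarith
  · obtain ⟨u, u1, u2, u3, u4, u5⟩ := face_descend hS hspan hz hπ htop x3 y1 x2 y2 x4 hlt
    have huX := hcl wX x1 u u1 u3 u4
    have : e wX ≤ e u := minX u (Finset.mem_filter.mpr ⟨huX, u2⟩)
    linarith

/-- The inner vertices are connected. -/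
theorem inner_conn (hS : ConvPos S) (hspan : affineSpan ℝ (S : Set E3) = ⊤) (hz : z ∈ S)
    (hsep : ∀ a c, ¬ Sep S z a c) {X : Finset E3}
    (hX : X ⊆ (rel S z).filter (Inner (rel S z))) (hne : X.Nonempty)
    (hcl : ∀ p ∈ X, ∀ q ∈ rel S z, Inner (rel S z) q → IsEdge0 (rel S z) p q → q ∈ X)
    {y : E3} (hy : y ∈ rel S z) (iy : Inner (rel S z) y) : y ∈ X := by
  by_contra hyX
  have hC : Cfg (rel S z) := cfg_rel hS hspan hz
  obtain ⟨B, hF⟩ := fan_exists hC
  have key : ∀ τ ∈ B, ∀ x ∈ τ, x ∈ X → ∀ q ∈ τ, Inner (rel S z) q → q ∈ X := by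
    intro τ hτ x hx hxX q hq iq
    have hN := hF.nice τ hτ
    exact face_conn hS hspan hz hsep hX hcl (π := gfun τ (fun _ => 1)) (hF.supp τ hτ) hxX
      (gfun_mem hN _ hx) (hF.sub τ hτ hq) iq (gfun_mem hN _ hq)
  set W := rel S z with hW
  have hXW : ∀ {p : E3}, p ∈ X → p ∈ W := fun hp => (Finset.mem_filter.mp (hX hp)).1
  obtain ⟨x0, hx0⟩ := hne
  obtain ⟨τ0, hτ0, hx0τ⟩ := hF.exists_mem hC (hXW hx0)
  obtain ⟨τ1, hτ1, hyτ⟩ := hF.exists_mem hC hy
  obtain ⟨p, q, r, s, hpq, hrs, g1, g2⟩ := hF.connected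
    (Q := B.filter (fun τ => ∃ x ∈ τ, x ∈ X)) (Finset.filter_subset _ _)
    ⟨τ0, Finset.mem_filter.mpr ⟨hτ0, x0, hx0τ, hx0⟩⟩
    ⟨τ1, Finset.mem_sdiff.mpr ⟨hτ1, by
      intro hh
      obtain ⟨_, x, hx, hxX⟩ := Finset.mem_filter.mp hh
      exact hyX (key τ1 hτ1 x hx hxX y hyτ iy)⟩⟩
  obtain ⟨h1, x, hx, hxX⟩ := Finset.mem_filter.mp g1
  obtain ⟨h2, h3⟩ := Finset.mem_sdiff.mp g2
  have np : p ∉ X := fun hh => h3 (Finset.mem_filter.mpr ⟨h2, p, by simp, hh⟩)
  have nq : q ∉ X := fun hh => h3 (Finset.mem_filter.mpr ⟨h2, q, by simp, hh⟩)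
  have op : ¬ Inner W p := fun hh => np (key _ h1 x hx hxX p (by simp) hh)
  have oq : ¬ Inner W q := fun hh => nq (key _ h1 x hx hxX q (by simp) hh)
  have hpW : p ∈ W := hF.sub _ h1 (by simp)
  have hqW : q ∈ W := hF.sub _ h1 (by simp)
  have hN := hF.nice _ h1
  exact hsep _ _ ⟨hz, (mem_rel.mp hpW).1, (mem_rel.mp hqW).1, cof_of_not_inner hC hpW op,
    cof_of_not_inner hC hqW oq, cof_of_plane (hF.supp _ h1) (gfun_mem hN _ (by simp))
    (gfun_mem hN _ (by simp)), fun hc => not_inner_of_cof3 hc (hF.two_inner h1 h2 hrs)⟩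

/-- Every outer vertex has an inner neighbour, if there are inner vertices. -/
theorem outer_has_inner (hS : ConvPos S) (hspan : affineSpan ℝ (S : Set E3) = ⊤) (hz : z ∈ S)
    (hsep : ∀ a c, ¬ Sep S z a c) (hin : ∃ y ∈ rel S z, Inner (rel S z) y) {o : E3}
    (ho : o ∈ rel S z) (hio : ¬ Inner (rel S z) o) :
    ∃ n ∈ rel S z, Inner (rel S z) n ∧ IsEdge0 (rel S z) o n := by
  have hC : Cfg (rel S z) := cfg_rel hS hspan hz
  obtain ⟨B, hF⟩ := fan_exists hC
  obtain ⟨τ, hτ, hoτ⟩ := hF.exists_mem hC ho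
  have hN := hF.nice τ hτ
  have hsupp := hF.supp τ hτ
  have πo : gfun τ (fun _ => 1) o = 1 := gfun_mem hN _ hoτ
  obtain ⟨f, f0, hf⟩ := face_fun hS hC hz hin hsep hsupp ⟨o, ho, πo⟩
  set W := rel S z with hW
  set π := gfun τ (fun _ => 1) with hπ
  obtain ⟨n, hn, fn⟩ : ∃ n ∈ τ, f n ≠ 0 := by
    by_contra hcon
    push Not at hcon
    apply f0
    apply nice_ext hN
    intro x hx
    rw [hcon x hx]; rfl
  have hnW := hF.sub τ hτ hn
  have πn : π n = 1 := gfun_mem hN _ hn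
  have fn' : 0 < f n := by
    by_cases hi : Inner W n
    · exact (hf n hnW πn).2 hi
    · exact absurd ((hf n hnW πn).1 hi) fn
  have fo : f o = 0 := (hf o ho πo).1 hio
  obtain ⟨o1, o2⟩ := mem_rel.mp ho
  obtain ⟨u, hu, he, hF', hg⟩ := improve_face hS hspan o1 (F := -π) (g := f) (by
    intro y hy
    show -(π (o + z)) ≤ -(π y)
    rw [map_add, πo]
    by_cases hyz : y = z
    · rw [hyz]; linarith
    · have := hsupp _ (sub_mem_rel hy hyz)
      rw [map_sub] at this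
      linarith) ⟨n + z, (mem_rel.mp hnW).1, by
        show -(π (n + z)) = -(π (o + z))
        rw [map_add, map_add, πn, πo], by
        rw [map_add, map_add]
        linarith⟩
  have hF'' : -(π u) = -(π (o + z)) := hF'
  rw [map_add, πo] at hF''
  rw [map_add] at hg
  have huz : u ≠ z := by
    rintro rfl
    linarith
  have hm := sub_mem_rel hu huz
  have πu : π (u - z) = 1 := by rw [map_sub]; linarith
  have fu : 0 < f (u - z) := by rw [map_sub]; linarith
  refine ⟨u - z, hm, ?_, ?_⟩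
  · by_contra hn
    have := (hf _ hm πu).1 hn
    linarith
  · have := he.rel hz (fun hh => o2 (by
      have h3 : (0 : E3) + z = o + z := by rw [zero_add]; exact hh
      exact (add_right_cancel h3).symm)) huz.symm
    rwa [add_sub_cancel_right] at this

end

end Run7.h169
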