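import Pool.Agent.Run7.h169.Mx1

set_option autoImplicit false
open scoped Classical Topology
open Filter

namespace Run7.h169

section

variable {S : Finset E3} {z : E3}

/-- The chord condition is vacuous at an apex in no separating triple. -/
theorem preCol_of {χ : E3 → Bool} {q : E3} (hC : Cfg (rel S z)) (hz : z ∈ S)
    (hsep : ∀ a c, ¬ Sep S z a c)
    (hfor : ∃ ρ : E3 → ℕ, ∀ p ∈ rel S z, Inner (rel S z) p → ∀ x ∈ rel S z, ∀ y ∈ rel S z,
      IsEdge0 (rel S z) p x → IsEdge0 (rel S z) p y → χ x = χ p → χ y = χ p →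
      (Inner (rel S z) x → ρ x ≤ ρ p) → (Inner (rel S z) y → ρ y ≤ ρ p) → x = y)
    (hout : ∀ x ∈ rel S z, ¬ Inner (rel S z) x → χ x = false → x = q) : PreCol S z χ q :=
  ⟨hfor, hout, fun _ hp _ hr np nr he _ hin =>
    absurd (bad_of_chord hC hz hp hr np nr he hin).sep (hsep _ _)⟩

/-- The case without inner vertices. -/
theorem colour_none (hS : ConvPos S) (hspan : affineSpan ℝ (S : Set E3) = ⊤) (hz : z ∈ S)
    (hsep : ∀ a c, ¬ Sep S z a c) (hin : ∀ p ∈ rel S z, ¬ Inner (rel S z) p) : HasHamTet S := by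
  have hC : Cfg (rel S z) := cfg_rel hS hspan hz
  refine PreCol.hasHamTet (χ := fun _ => true) (q := z) _ S rfl hS hspan hz
    (preCol_of hC hz hsep ⟨fun _ => 0, ?_⟩ ?_)
  · intro p hp ip
    exact absurd ip (hin p hp)
  · intro x _ _ hc
    simp at hc

/-- A stuck set is closed. -/
theorem stuck_closed {W X R : Finset E3} {p0 : E3}
    (hdeg : ∀ p ∈ W, Inner W p → deg W p ≤ 4) (hXI : X ⊆ W.filter (Inner W))
    (hcon : ∀ p ∈ X, 3 < ((W.erase p0).filter (fun q => IsEdge0 W p q ∧ (q ∈ X ∨ q ∉ R))).card)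
    (hR : ∀ q ∈ W.filter (Inner W), q ≠ p0 → q ∈ R) :
    ∀ p ∈ X, ∀ q ∈ W, Inner W q → IsEdge0 W p q → q ∈ X := by
  intro p hp q hq iq he
  obtain ⟨hpW, ip⟩ := Finset.mem_filter.mp (hXI hp)
  have h4 := hcon p hp
  have hsub : (W.erase p0).filter (fun q => IsEdge0 W p q ∧ (q ∈ X ∨ q ∉ R)) ⊆
      W.filter (fun q => IsEdge0 W p q) := by
    intro y hy
    obtain ⟨y1, y2, _⟩ := Finset.mem_filter.mp hy
    exact Finset.mem_filter.mpr ⟨Finset.mem_of_mem_erase y1, y2⟩
  have heq := Finset.eq_of_subset_of_card_le hsub (by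
    have : (W.filter (fun q => IsEdge0 W p q)).card ≤ 4 := hdeg p hpW ip
    omega)
  have hqm : q ∈ W.filter (fun q => IsEdge0 W p q) := Finset.mem_filter.mpr ⟨hq, he⟩
  rw [← heq, Finset.mem_filter] at hqm
  obtain ⟨q1, _, q3⟩ := hqm
  rcases q3 with h | h
  · exact h
  · exact absurd (hR q (Finset.mem_filter.mpr ⟨hq, iq⟩) (Finset.mem_erase.mp q1).1) h

/-- The case of an inner vertex of degree at most three. -/
theorem colour_simple (hS : ConvPos S) (hspan : affineSpan ℝ (S : Set E3) = ⊤) (hz : z ∈ S)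
    (hsep : ∀ a c, ¬ Sep S z a c)
    (hdeg : ∀ p ∈ rel S z, Inner (rel S z) p → deg (rel S z) p ≤ 4) {p0 : E3}
    (hp0 : p0 ∈ rel S z) (ip0 : Inner (rel S z) p0) (hd0 : deg (rel S z) p0 ≤ 3) :
    HasHamTet S := by
  have hC : Cfg (rel S z) := cfg_rel hS hspan hz
  set W := rel S z with hW
  have h0W : (0 : E3) ∉ W := zero_notMem_rel
  have herase : W.erase 0 = W := Finset.erase_eq_of_notMem h0W
  obtain ⟨χ, ρ, hχ0, hχ⟩ := greedy_deg (IsEdge0 W) (fun x hx => hx.1 rfl) (fun _ => true)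
    (W.filter (Inner W)).card W (W.filter (Inner W)) rfl (Finset.filter_subset _ _) (by
      intro X hX hXne
      by_contra hcon
      push Not at hcon
      have hcl := stuck_closed (p0 := 0) (R := W.filter (Inner W)) hdeg hX
        (by rw [herase]; exact hcon) (fun q hq _ => hq)
      have hmem := inner_conn hS hspan hz hsep hX hXne hcl hp0 ip0
      have h1 := hcon p0 hmem
      have h2 : (W.filter (fun q => IsEdge0 W p0 q ∧ (q ∈ X ∨ q ∉ W.filter (Inner W)))).card ≤
          (W.filter (fun q => IsEdge0 W p0 q)).card := by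
        apply Finset.card_le_card
        intro y hy
        obtain ⟨y1, y2, _⟩ := Finset.mem_filter.mp hy
        exact Finset.mem_filter.mpr ⟨y1, y2⟩
      have h3 : (W.filter (fun q => IsEdge0 W p0 q)).card ≤ 3 := hd0
      omega)
  refine PreCol.hasHamTet (χ := χ) (q := z) _ S rfl hS hspan hz
    (preCol_of hC hz hsep ⟨ρ, ?_⟩ ?_)
  · intro p hp ip x hx y hy ex ey cx cy rx ry
    exact hχ p (Finset.mem_filter.mpr ⟨hp, ip⟩) x hx y hy ex ey cx cy
      (fun hh => rx (Finset.mem_filter.mp hh).2) (fun hh => ry (Finset.mem_filter.mp hh).2)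
  · intro x _ nx hc
    rw [hχ0 x (fun hh => nx (Finset.mem_filter.mp hh).2)] at hc
    simp at hc

/-- The case of an outer vertex with exactly one inner neighbour. -/
theorem colour_root (hS : ConvPos S) (hspan : affineSpan ℝ (S : Set E3) = ⊤) (hz : z ∈ S)
    (hsep : ∀ a c, ¬ Sep S z a c)
    (hdeg : ∀ p ∈ rel S z, Inner (rel S z) p → deg (rel S z) p ≤ 4) {a p0 : E3}
    (ha : a ∈ rel S z) (na : ¬ Inner (rel S z) a) (hp0 : p0 ∈ rel S z)
    (ip0 : Inner (rel S z) p0) (hea : IsEdge0 (rel S z) p0 a)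
    (huniq : ∀ q ∈ rel S z, Inner (rel S z) q → IsEdge0 (rel S z) a q → q = p0) :
    HasHamTet S := by
  have hC : Cfg (rel S z) := cfg_rel hS hspan hz
  set W := rel S z with hW
  set I := W.filter (Inner W) with hI
  obtain ⟨χ, ρ, hχ0, hχ⟩ := greedy_deg (IsEdge0 W) (fun x hx => hx.1 rfl) (fun _ => true)
    (I.erase p0).card (W.erase p0) (I.erase p0) rfl
    (Finset.erase_subset_erase _ (Finset.filter_subset _ _)) (by
      intro X hX hXne
      by_contra hcon
      push Not at hcon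
      have hXI : X ⊆ I := hX.trans (Finset.erase_subset _ _)
      have hcl := stuck_closed (p0 := p0) (R := I.erase p0) hdeg hXI hcon
        (fun q hq hne => Finset.mem_erase.mpr ⟨hne, hq⟩)
      have := inner_conn hS hspan hz hsep hXI hXne hcl hp0 ip0
      exact (Finset.mem_erase.mp (hX this)).1 rfl)
  have hap : a ≠ p0 := by rintro rfl; exact na ip0
  obtain ⟨c, hc⟩ : ∃ c : Bool, ∀ x ∈ W, ∀ y ∈ W, x ≠ a → y ≠ a → IsEdge0 W p0 x →
      IsEdge0 W p0 y → χ x = c → χ y = c → x = y := by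
    by_cases ht : ∀ x ∈ W, ∀ y ∈ W, x ≠ a → y ≠ a → IsEdge0 W p0 x →
        IsEdge0 W p0 y → χ x = true → χ y = true → x = y
    · exact ⟨true, ht⟩
    · push Not at ht
      obtain ⟨x0, hx0, y0, hy0, x0a, y0a, ex0, ey0, cx0, cy0, hxy⟩ := ht
      refine ⟨false, ?_⟩
      intro x hx y hy xa ya ex ey cx cy
      have d1 : x ≠ x0 := by rintro rfl; rw [cx0] at cx; simp at cx
      have d2 : x ≠ y0 := by rintro rfl; rw [cy0] at cx; simp at cx
      have d3 : y ≠ x0 := by rintro rfl; rw [cx0] at cy; simp at cy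
      have d4 : y ≠ y0 := by rintro rfl; rw [cy0] at cy; simp at cy
      by_contra hne'
      have hsub : ({a, x0, y0, x, y} : Finset E3) ⊆ W.filter (fun q => IsEdge0 W p0 q) := by
        intro t ht
        rw [Finset.mem_filter]
        simp only [Finset.mem_insert, Finset.mem_singleton] at ht
        rcases ht with rfl | rfl | rfl | rfl | rfl
        · exact ⟨ha, hea⟩
        · exact ⟨hx0, ex0⟩
        · exact ⟨hy0, ey0⟩
        · exact ⟨hx, ex⟩
        · exact ⟨hy, ey⟩
      have h5 : ({a, x0, y0, x, y} : Finset E3).card = 5 := by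
        rw [Finset.card_insert_of_notMem, Finset.card_insert_of_notMem,
          Finset.card_insert_of_notMem, Finset.card_pair hne']
        · simp only [Finset.mem_insert, Finset.mem_singleton, not_or]
          exact ⟨Ne.symm d2, Ne.symm d4⟩
        · simp only [Finset.mem_insert, Finset.mem_singleton, not_or]
          exact ⟨hxy, Ne.symm d1, Ne.symm d3⟩
        · simp only [Finset.mem_insert, Finset.mem_singleton, not_or]
          exact ⟨x0a.symm, y0a.symm, xa.symm, ya.symm⟩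
      have h6 := Finset.card_le_card hsub
      rw [h5] at h6
      have h7 : (W.filter (fun q => IsEdge0 W p0 q)).card ≤ 4 := hdeg p0 hp0 ip0
      omega
  set M := I.sup ρ with hM
  set χ' : E3 → Bool := fun x => if x = p0 then c else if x = a then !c else χ x with hχ'
  set ρ' : E3 → ℕ := fun x => if x = p0 then M + 1 else ρ x with hρ'
  have χp : χ' p0 = c := by rw [hχ']; beta_reduce; rw [if_pos rfl]
  have χa : χ' a = !c := by rw [hχ']; beta_reduce; rw [if_neg hap, if_pos rfl]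
  have χo : ∀ x, x ≠ p0 → x ≠ a → χ' x = χ x := by
    intro x h1 h2; rw [hχ']; beta_reduce; rw [if_neg h1, if_neg h2]
  have ρp : ρ' p0 = M + 1 := by rw [hρ']; beta_reduce; rw [if_pos rfl]
  have ρo : ∀ x, x ≠ p0 → ρ' x = ρ x := by
    intro x h1; rw [hρ']; beta_reduce; rw [if_neg h1]
  refine PreCol.hasHamTet (χ := χ') (q := a) _ S rfl hS hspan hz
    (preCol_of hC hz hsep ⟨ρ', ?_⟩ ?_)
  · intro p hp ip x hx y hy ex ey cx cy rx ry
    by_cases hpp : p = p0
    · subst hpp
      have hxp : x ≠ p := ex.1.symm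
      have hyp : y ≠ p := ey.1.symm
      have hxa : x ≠ a := by
        rintro rfl
        rw [χa, χp] at cx
        cases c <;> simp at cx
      have hya : y ≠ a := by
        rintro rfl
        rw [χa, χp] at cy
        cases c <;> simp at cy
      rw [χo x hxp hxa, χp] at cx
      rw [χo y hyp hya, χp] at cy
      exact hc x hx y hy hxa hya ex ey cx cy
    · have pa : p ≠ a := by rintro rfl; exact na ip
      have hρp : ρ p ≤ M := Finset.le_sup (f := ρ) (Finset.mem_filter.mpr ⟨hp, ip⟩)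
      have key : ∀ x ∈ W, IsEdge0 W p x → (Inner W x → ρ' x ≤ ρ' p) → x ≠ p0 ∧ x ≠ a := by
        intro x hx ex rx
        constructor
        · rintro rfl
          have := rx ip0
          rw [ρp, ρo p hpp] at this
          omega
        · rintro rfl
          exact hpp (huniq p hp ip ex.symm)
      obtain ⟨x1, x2⟩ := key x hx ex rx
      obtain ⟨y1, y2⟩ := key y hy ey ry
      rw [χo x x1 x2, χo p hpp pa] at cx
      rw [χo y y1 y2, χo p hpp pa] at cy
      refine hχ p (Finset.mem_erase.mpr ⟨hpp, Finset.mem_filter.mpr ⟨hp, ip⟩⟩) x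
        (Finset.mem_erase.mpr ⟨x1, hx⟩) y (Finset.mem_erase.mpr ⟨y1, hy⟩) ex ey cx cy ?_ ?_
      · intro hxI
        have := rx (Finset.mem_filter.mp (Finset.mem_of_mem_erase hxI)).2
        rwa [ρo x x1, ρo p hpp] at this
      · intro hyI
        have := ry (Finset.mem_filter.mp (Finset.mem_of_mem_erase hyI)).2
        rwa [ρo y y1, ρo p hpp] at this
  · intro x hx nx cx
    by_contra hxa
    have hxp : x ≠ p0 := by rintro rfl; exact nx ip0
    rw [χo x hxp hxa, hχ0 x (fun hh =>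
      nx (Finset.mem_filter.mp (Finset.mem_of_mem_erase hh)).2)] at cx
    simp at cx

/-- Two outer neighbours of an outer vertex. -/
theorem two_outer_nbrs (hS : ConvPos S) (hspan : affineSpan ℝ (S : Set E3) = ⊤) (hz : z ∈ S)
    {a : E3} (ha : a ∈ rel S z) (na : ¬ Inner (rel S z) a) :
    ∃ u ∈ rel S z, ∃ x ∈ rel S z, u ≠ x ∧ ¬ Inner (rel S z) u ∧ ¬ Inner (rel S z) x ∧
      IsEdge0 (rel S z) a u ∧ IsEdge0 (rel S z) a x := by
  have hC : Cfg (rel S z) := cfg_rel hS hspan hz
  obtain ⟨B, hF⟩ := fan_exists hC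
  set W := rel S z with hW
  obtain ⟨g, g0, g1, g2, w0, w1, w2, w3⟩ : ∃ g : E3 →ₗ[ℝ] ℝ, g ≠ 0 ∧ (∀ w ∈ W, 0 ≤ g w) ∧
      g a = 0 ∧ ∃ w0 ∈ W, w0 ≠ a ∧ g w0 = 0 := by
    obtain ⟨f, f0, f1, f2⟩ := exists_support hC (mem_cone_self ha) na
    by_cases h : ∃ w0 ∈ W, w0 ≠ a ∧ f w0 = 0
    · exact ⟨f, f0, f1, f2, h⟩
    · push Not at h
      exact exists_rot hC ha f2 (fun w hw hwa => lt_of_le_of_ne (f1 w hw) (h w hw hwa).symm)
  obtain ⟨u, hu, cu⟩ := hF.boundary_nbr hC g0 g1 ha w1 w2 g2 w3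
  obtain ⟨x, hx, hxu, cx⟩ := exists_second B
    (fun τ hτ => ⟨hF.sub τ hτ, (hF.nice τ hτ).1⟩) hu cu
    (fun x hx => hF.cnt_le (Ne.symm (Finset.mem_erase.mp hx).1))
  obtain ⟨ua, uW⟩ := Finset.mem_erase.mp hu
  obtain ⟨xa, xW⟩ := Finset.mem_erase.mp hx
  have eu := hF.boundary_edge hC ha uW ua.symm cu
  have ex := hF.boundary_edge hC ha xW xa.symm cx
  have nu : ¬ Inner W u := by
    obtain ⟨_, f, f0, f1, f2, f3⟩ := hF.boundary_data hC ha uW ua.symm cu
    exact not_inner_of_support f0 f1 f3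
  have nx : ¬ Inner W x := by
    obtain ⟨_, f, f0, f1, f2, f3⟩ := hF.boundary_data hC ha xW xa.symm cx
    exact not_inner_of_support f0 f1 f3
  exact ⟨u, uW, x, xW, hxu.symm, nu, nx, eu, ex⟩

end

end Run7.h169
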