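import Pool.Agent.Run7.h169.Mx2

set_option autoImplicit false
open scoped Classical Topology
open Filter

namespace Run7.h169

/-- Successive removal of simple vertices. -/
inductive Red : Finset E3 → Finset E3 → Prop
  | refl (S : Finset E3) : Red S S
  | step (S : Finset E3) (v : E3) (S' : Finset E3) : HasFrm S v → Red (S.erase v) S' → Red S S'

theorem Red.trans {A B C : Finset E3} (h : Red A B) (h' : Red B C) : Red A C := by
  induction h with
  | refl _ => exact h'
  | step S v S' hf _ ih => exact Red.step S v C hf (ih h')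

theorem Red.subset {A B : Finset E3} (h : Red A B) : B ⊆ A := by
  induction h with
  | refl _ => exact subset_rfl
  | step S v S' _ _ ih => exact ih.trans (Finset.erase_subset _ _)

theorem HasFrm.mem {S : Finset E3} {v : E3} (h : HasFrm S v) : v ∈ S := by
  obtain ⟨_, _, _, _, _, _, h⟩ := h
  exact h.hv

theorem Red.one {S : Finset E3} {v : E3} (h : HasFrm S v) : Red S (S.erase v) :=
  Red.step S v _ h (Red.refl _)

theorem Red.simple {A B : Finset E3} (h : Red A B) (hne : B ≠ A) :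
    ∃ u ∈ A, u ∉ B ∧ HasFrm A u := by
  cases h with
  | refl _ => exact absurd rfl hne
  | step _ v _ hf hr =>
    exact ⟨v, hf.mem, fun hh => (Finset.mem_erase.mp (hr.subset hh)).1 rfl, hf⟩

theorem Red.hasHamTet {A B : Finset E3} (h : Red A B) : ConvPos A →
    affineSpan ℝ (A : Set E3) = ⊤ →
    HasHamTet A ∨ (affineSpan ℝ (B : Set E3) = ⊤ ∧ (HasHamTet B → HasHamTet A)) := by
  induction h with
  | refl A => exact fun _ hspan => Or.inr ⟨hspan, id⟩
  | step A v B hf _ ih =>
    intro hS hspan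
    obtain ⟨a1, a2, a3, φ1, φ2, φ3, hf⟩ := hf
    rcases erase_frm hS hf with h1 | h1
    · exact Or.inl h1
    · rcases ih (hS.mono (Finset.erase_subset _ _)) h1 with h2 | ⟨h2, h3⟩
      · exact Or.inl (insert_frm hS hf h2)
      · exact Or.inr ⟨h2, fun hB => insert_frm hS hf (h3 hB)⟩

/-- The set `D` can be removed by removing simple vertices, from every set between
`D ∪ K` and `S`. -/
def RedT (S D K : Finset E3) : Prop := ∀ T, T ⊆ S → D ⊆ T → K ⊆ T → Red T (T \ D)

section

variable {S : Finset E3}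

theorem Sep.ne12 {v x y : E3} (s : Sep S v x y) : v ≠ x := by
  rintro rfl
  obtain ⟨f, f0, f1, f2⟩ := s.cvy
  exact s.no ⟨f, f0, f1, rfl, f2⟩

theorem Sep.ne13 {v x y : E3} (s : Sep S v x y) : v ≠ y := s.perm23.ne12

theorem Sep.ne23 {v x y : E3} (s : Sep S v x y) : x ≠ y := s.perm12.ne13

theorem Cof.self {p q : E3} (h : Cof S p q) : Cof S p p := by
  obtain ⟨f, f0, f1, _⟩ := h
  exact ⟨f, f0, f1, rfl⟩

theorem Cof.sub {S' : Finset E3} {p q : E3} (h : Cof S p q) (hsub : S' ⊆ S) : Cof S' p q := by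
  obtain ⟨f, f0, f1, f2⟩ := h
  exact ⟨f, f0, fun z hz => f1 z (hsub hz), f2⟩

theorem Cof3.sub {S' : Finset E3} {p q r : E3} (h : Cof3 S p q r) (hsub : S' ⊆ S) :
    Cof3 S' p q r := by
  obtain ⟨f, f0, f1, f2, f3⟩ := h
  exact ⟨f, f0, fun z hz => f1 z (hsub hz), f2, f3⟩

theorem mem_low {g : E3 →ₗ[ℝ] ℝ} {z u : E3} : u ∈ S \ up S g z ↔ u ∈ S ∧ g u ≤ g z := by
  rw [Finset.mem_sdiff, mem_up]
  constructor
  · rintro ⟨h1, h2⟩
    refine ⟨h1, ?_⟩
    by_contra hcon
    push Not at hcon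
    exact h2 ⟨h1, hcon⟩
  · rintro ⟨h1, h2⟩
    exact ⟨h1, fun h => absurd h.2 (not_lt.mpr h2)⟩

variable {z a c : E3} {g : E3 →ₗ[ℝ] ℝ}

/-- Supporting planes at a vertex strictly below. -/
theorem Sep.supp_back (s : Sep S z a c) (g0 : g ≠ 0) (ga : g a = g z) (gc : g c = g z)
    {p : E3} (hp : p ∈ S) (hpz : g p < g z) {F : E3 →ₗ[ℝ] ℝ}
    (hF : ∀ u ∈ S \ up S g z, F p ≤ F u) : ∀ u ∈ S, F p ≤ F u := by
  intro u hu
  rcases le_or_gt (g u) (g z) with h | h
  · exact hF u (mem_low.mpr ⟨hu, h⟩)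
  · obtain ⟨t, t0, t1, tm, tS⟩ := cross hpz h hp hu
    obtain ⟨α, β, γ, p1, p2, p3, p4, p5⟩ := s.section g0 ga gc tS tm
    have e : (1 - t) * F p + t * F u = α * F z + β * F a + γ * F c := by
      rw [← map_seg, p5, map_tri]
    have l1 := mul_le_mul_of_nonneg_left (hF z (mem_low.mpr ⟨s.hv, le_rfl⟩)) p1
    have l2 := mul_le_mul_of_nonneg_left (hF a (mem_low.mpr ⟨s.hx, ga.le⟩)) p2
    have l3 := mul_le_mul_of_nonneg_left (hF c (mem_low.mpr ⟨s.hy, gc.le⟩)) p3
    have e2 : F p = α * F p + β * F p + γ * F p := by rw [← add_mul, ← add_mul, p4, one_mul]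
    have l4 : t * F p ≤ t * F u := by linarith
    exact le_of_mul_le_mul_left l4 t0

theorem Sep.cof_mem (s : Sep S z a c) {p q : E3} (hp : p = z ∨ p = a ∨ p = c)
    (hq : q = z ∨ q = a ∨ q = c) : Cof S p q := by
  rcases hp with rfl | rfl | rfl <;> rcases hq with rfl | rfl | rfl
  · exact s.cvx.self
  · exact s.cvx
  · exact s.cvy
  · exact s.cvx.symm
  · exact s.cxy.self
  · exact s.cxy
  · exact s.cvy.symm
  · exact s.cxy.symm
  · exact s.cvy.symm.self

theorem Sep.cof_back (hS : ConvPos S) (s : Sep S z a c) (g0 : g ≠ 0) (ga : g a = g z)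
    (gc : g c = g z) {p q : E3} (hp : p ∈ S \ up S g z) (hq : q ∈ S \ up S g z)
    (h : Cof (S \ up S g z) p q) : Cof S p q := by
  obtain ⟨hpS, hpz⟩ := mem_low.mp hp
  obtain ⟨hqS, hqz⟩ := mem_low.mp hq
  rcases lt_or_eq_of_le hpz with h1 | h1
  · obtain ⟨F, F0, F1, F2⟩ := h
    exact ⟨F, F0, s.supp_back g0 ga gc hpS h1 F1, F2⟩
  · rcases lt_or_eq_of_le hqz with h2 | h2
    · obtain ⟨F, F0, F1, F2⟩ := h.symm
      exact Cof.symm ⟨F, F0, s.supp_back g0 ga gc hqS h2 F1, F2⟩
    · exact s.cof_mem (s.tri_mem hS g0 ga gc hpS h1) (s.tri_mem hS g0 ga gc hqS h2)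

/-- Edges at a vertex strictly below. -/
theorem Sep.edge_back (hS : ConvPos S) (s : Sep S z a c) (g0 : g ≠ 0) (ga : g a = g z)
    (gc : g c = g z) {p r : E3} (hp : p ∈ S) (hpz : g p < g z) (hr : r ∈ S)
    (h : IsEdgeS (S \ up S g z) p r) : IsEdgeS S p r := by
  obtain ⟨hpr, e, e1, e2⟩ := h
  refine ⟨hpr, e, e1, ?_⟩
  intro u hu hup hur
  rcases le_or_gt (g u) (g z) with h | h
  · exact e2 u (mem_low.mpr ⟨hu, h⟩) hup hur
  · obtain ⟨t, t0, t1, tm, tS⟩ := cross hpz h hp hu
    obtain ⟨α, β, γ, p1, p2, p3, p4, p5⟩ := s.section g0 ga gc tS tm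
    have k : (1 - t) * e p + t * e u = α * e z + β * e a + γ * e c := by
      rw [← map_seg, p5, map_tri]
    have str : ∀ w ∈ S, g w = g z → w ≠ r → e w < e p := by
      intro w hw hwz hwr
      exact e2 w (mem_low.mpr ⟨hw, hwz.le⟩) (by rintro rfl; linarith) hwr
    have le : ∀ w ∈ S, g w = g z → e w ≤ e p := by
      intro w hw hwz
      by_cases hwr : w = r
      · rw [hwr, e1]
      · exact (str w hw hwz hwr).le
    by_contra hcon
    push Not at hcon
    have q1 := mul_nonneg p1 (sub_nonneg.mpr (le z s.hv rfl))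
    have q2 := mul_nonneg p2 (sub_nonneg.mpr (le a s.hx ga))
    have q3 := mul_nonneg p3 (sub_nonneg.mpr (le c s.hy gc))
    have q4 := mul_nonneg t0.le (sub_nonneg.mpr hcon)
    have k2 : e p = α * e p + β * e p + γ * e p := by rw [← add_mul, ← add_mul, p4, one_mul]
    have r1 : α * (e p - e z) = 0 := by linarith
    have r2 : β * (e p - e a) = 0 := by linarith
    have r3 : γ * (e p - e c) = 0 := by linarith
    have z1 : z ≠ r → α = 0 := fun hh =>
      (mul_eq_zero.mp r1).resolve_right (by have := str z s.hv rfl hh; linarith)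
    have z2 : a ≠ r → β = 0 := fun hh =>
      (mul_eq_zero.mp r2).resolve_right (by have := str a s.hx ga hh; linarith)
    have z3 : c ≠ r → γ = 0 := fun hh =>
      (mul_eq_zero.mp r3).resolve_right (by have := str c s.hy gc hh; linarith)
    have hrp : r = (1 - t) • p + t • u := by
      by_cases h1 : z = r
      · have b := z2 (fun hh => s.ne12 (h1.trans hh.symm))
        have d := z3 (fun hh => s.ne13 (h1.trans hh.symm))
        have a1 : α = 1 := by linarith
        rw [p5, a1, b, d, one_smul, zero_smul, zero_smul, add_zero, add_zero, h1]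
      · have b := z1 h1
        by_cases h2 : a = r
        · have d := z3 (fun hh => s.ne23 (h2.trans hh.symm))
          have a1 : β = 1 := by linarith
          rw [p5, a1, b, d, one_smul, zero_smul, zero_smul, add_zero, zero_add, h2]
        · have d := z2 h2
          have a1 : γ = 1 := by linarith
          by_cases h3 : c = r
          · rw [p5, a1, b, d, one_smul, zero_smul, zero_smul, zero_add, zero_add, h3]
          · have := z3 h3
            linarith
    exact hS.not_between hr hp hu hpr hur t0.le t1.le hrp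

theorem Sep.sep_back (hS : ConvPos S) (s : Sep S z a c) (g0 : g ≠ 0) (ga : g a = g z)
    (gc : g c = g z) {p q r : E3} (h : Sep (S \ up S g z) p q r) : Sep S p q r :=
  ⟨(Finset.mem_sdiff.mp h.hv).1, (Finset.mem_sdiff.mp h.hx).1, (Finset.mem_sdiff.mp h.hy).1,
    s.cof_back hS g0 ga gc h.hv h.hx h.cvx, s.cof_back hS g0 ga gc h.hv h.hy h.cvy,
    s.cof_back hS g0 ga gc h.hx h.hy h.cxy, fun hc => h.no (hc.sub Finset.sdiff_subset)⟩

/-- Overlapping caps are nested. -/
theorem Sep.nested (hS : ConvPos S) (s : Sep S z a c) (g0 : g ≠ 0) (ga : g a = g z)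
    (gc : g c = g z) {a' c' : E3} {g' : E3 →ₗ[ℝ] ℝ} (s' : Sep (S \ up S g z) z a' c')
    (g0' : g' ≠ 0) (ga' : g' a' = g' z) (gc' : g' c' = g' z) {u : E3} (hu : u ∈ up S g z)
    (hu' : u ∈ up S g' z) : (up S g z).card < (up S g' z).card := by
  have t' := s.sep_back hS g0 ga gc s'
  have la := (mem_low.mp s'.hx).2
  have lc := (mem_low.mp s'.hy).2
  obtain ⟨u1, u2⟩ := mem_up.mp hu
  obtain ⟨_, u3⟩ := mem_up.mp hu'
  -- a vertex on or above the first plane is not strictly below the second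
  have key : ∀ w ∈ S, g z ≤ g w → g' z ≤ g' w := by
    intro w hw hwz
    by_contra hcon
    push Not at hcon
    obtain ⟨t, t0, t1, tm, tS⟩ := cross hcon u3 hw u1
    obtain ⟨α, β, γ, p1, p2, p3, p4, p5⟩ := t'.section g0' ga' gc' tS tm
    have e : (1 - t) * g w + t * g u = α * g z + β * g a' + γ * g c' := by
      rw [← map_seg, p5, map_tri]
    have l2 := mul_le_mul_of_nonneg_left la p2
    have l3 := mul_le_mul_of_nonneg_left lc p3
    have e2 : g z = α * g z + β * g z + γ * g z := by rw [← add_mul, ← add_mul, p4, one_mul]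
    have l4 := mul_le_mul_of_nonneg_left hwz (show 0 ≤ 1 - t by linarith)
    have l5 := mul_lt_mul_of_pos_left u2 t0
    linarith
  have hsub : up S g z ⊆ up S g' z := by
    intro w hw
    obtain ⟨w1, w2⟩ := mem_up.mp hw
    refine mem_up.mpr ⟨w1, lt_of_le_of_ne (key w w1 w2.le) (fun hh => ?_)⟩
    rcases t'.tri_mem hS g0' ga' gc' w1 hh.symm with rfl | rfl | rfl
    · exact lt_irrefl _ w2
    · linarith
    · linarith
  have ne_a : ∃ w ∈ S, g w = g z ∧ g' w ≠ g' z := by
    by_contra hcon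
    push Not at hcon
    have h1 := t'.tri_mem hS g0' ga' gc' s.hx (hcon a s.hx ga)
    have h2 := t'.tri_mem hS g0' ga' gc' s.hy (hcon c s.hy gc)
    have hC : Cof3 (S \ up S g z) z a c := by
      refine ⟨-g, neg_ne_zero.mpr g0, ?_, ?_, ?_⟩
      · intro w hw
        show -(g z) ≤ -(g w)
        have := (mem_low.mp hw).2
        linarith
      · show -(g a) = -(g z); rw [ga]
      · show -(g c) = -(g z); rw [gc]
    apply s'.no
    rcases h1 with h1 | h1 | h1
    · exact absurd h1.symm s.ne12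
    · rcases h2 with h2 | h2 | h2
      · exact absurd h2.symm s.ne13
      · exact absurd (h1.trans h2.symm) s.ne23
      · rw [← h1, ← h2]; exact hC
    · rcases h2 with h2 | h2 | h2
      · exact absurd h2.symm s.ne13
      · rw [← h1, ← h2]; exact hC.perm23
      · exact absurd (h1.trans h2.symm) s.ne23
  obtain ⟨w, w1, w2, w3⟩ := ne_a
  apply Finset.card_lt_card
  rw [Finset.ssubset_iff_of_subset hsub]
  refine ⟨w, mem_up.mpr ⟨w1, lt_of_le_of_ne (key w w1 w2.ge) (Ne.symm w3)⟩, ?_⟩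
  intro hh
  have := (mem_up.mp hh).2
  linarith

/-- Removing all caps at an apex. -/
theorem erase_all {H : E3 → Prop} : ∀ (n : ℕ) (S : Finset E3), S.card = n → ConvPos S → z ∈ S →
    (∀ a c, Sep S z a c → ∃ g : E3 →ₗ[ℝ] ℝ, g ≠ 0 ∧ g a = g z ∧ g c = g z ∧
      (∀ u ∈ up S g z, H u) ∧ RedT S (up S g z) {z, a, c}) →
    ∃ S', S' ⊆ S ∧ z ∈ S' ∧ Red S S' ∧ (∀ a c, ¬ Sep S' z a c) ∧ (∀ u ∈ S, u ∉ S' → H u) ∧
      (∀ p ∈ S', ∀ q ∈ S', Cof S' p q → Cof S p q) ∧
      (∀ p ∈ S', ¬ Cof S' z p → ∀ r ∈ S', IsEdgeS S' p r → IsEdgeS S p r) := by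
  intro n
  induction n using Nat.strong_induction_on with
  | _ n ih =>
    intro S hn hS hz hred
    by_cases hex : ∃ m : ℕ, ∃ (a c : E3) (g : E3 →ₗ[ℝ] ℝ), Sep S z a c ∧ g ≠ 0 ∧ g a = g z ∧
        g c = g z ∧ (∀ u ∈ up S g z, H u) ∧ RedT S (up S g z) {z, a, c} ∧ (up S g z).card = m
    · obtain ⟨m0, hm0⟩ := hex
      obtain ⟨m, ⟨a, c, g, s, g0, ga, gc, hH, hR, hm⟩, hmax⟩ := exists_max_of_bdd
        (Q := fun m => ∃ (a c : E3) (g : E3 →ₗ[ℝ] ℝ), Sep S z a c ∧ g ≠ 0 ∧ g a = g z ∧
        g c = g z ∧ (∀ u ∈ up S g z, H u) ∧ RedT S (up S g z) {z, a, c} ∧ (up S g z).card = m)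
        (b := S.card) hm0 (by
          rintro k ⟨a, c, g, _, _, _, _, _, _, hk⟩
          rw [← hk]
          exact Finset.card_le_card (Finset.filter_subset _ _))
      obtain ⟨w, hw, hwz⟩ := s.exists_above g0 ga gc
      have hlt : (S \ up S g z).card < n := by
        rw [← hn]
        apply Finset.card_lt_card
        rw [Finset.ssubset_iff_of_subset Finset.sdiff_subset]
        exact ⟨w, hw, fun hh => (Finset.mem_sdiff.mp hh).2 (mem_up.mpr ⟨hw, hwz⟩)⟩
      obtain ⟨S', k1, k2, k3, k4, k5, k6, k7⟩ := ih _ hlt (S \ up S g z) rfl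
        (hS.mono Finset.sdiff_subset) (mem_low.mpr ⟨hz, le_rfl⟩) (by
          intro a' c' s'
          obtain ⟨g', g0', ga', gc', hH', hR'⟩ := hred a' c' (s.sep_back hS g0 ga gc s')
          have hdis : ∀ u ∈ up S g' z, u ∉ up S g z := by
            intro u hu' hu
            have h1 := s.nested hS g0 ga gc s' g0' ga' gc' hu hu'
            have h2 := hmax _ ⟨a', c', g', s.sep_back hS g0 ga gc s', g0', ga', gc', hH', hR', rfl⟩
            omega
          have heq : up (S \ up S g z) g' z = up S g' z := by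
            ext u
            rw [mem_up, mem_up, Finset.mem_sdiff]
            constructor
            · rintro ⟨⟨h1, _⟩, h2⟩
              exact ⟨h1, h2⟩
            · rintro ⟨h1, h2⟩
              exact ⟨⟨h1, hdis u (mem_up.mpr ⟨h1, h2⟩)⟩, h2⟩
          refine ⟨g', g0', ga', gc', ?_, ?_⟩
          · rw [heq]; exact hH'
          · rw [heq]
            intro T hT hD hK
            exact hR' T (hT.trans Finset.sdiff_subset) hD hK)
      refine ⟨S', k1.trans Finset.sdiff_subset, k2, ?_, k4, ?_, ?_, ?_⟩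
      · refine Red.trans (hR S subset_rfl (Finset.filter_subset _ _) ?_) k3
        intro u hu
        simp only [Finset.mem_insert, Finset.mem_singleton] at hu
        rcases hu with rfl | rfl | rfl
        · exact s.hv
        · exact s.hx
        · exact s.hy
      · intro u hu hu'
        by_cases h1 : u ∈ up S g z
        · exact hH u h1
        · exact k5 u (Finset.mem_sdiff.mpr ⟨hu, h1⟩) hu'
      · intro p hp q hq h
        exact s.cof_back hS g0 ga gc (k1 hp) (k1 hq) (k6 p hp q hq h)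
      · intro p hp hnc r hr he
        have h1 := k7 p hp hnc r hr he
        obtain ⟨p1, p2⟩ := mem_low.mp (k1 hp)
        refine s.edge_back hS g0 ga gc p1 (lt_of_le_of_ne p2 (fun hh => hnc ?_))
          (Finset.mem_sdiff.mp (k1 hr)).1 h1
        exact (s.cof_mem (Or.inl rfl) (s.tri_mem hS g0 ga gc p1 hh)).sub
          (k1.trans Finset.sdiff_subset)
    · refine ⟨S, subset_rfl, hz, Red.refl S, ?_, ?_, ?_, ?_⟩
      · intro a c s
        obtain ⟨g, g0, ga, gc, hH, hR⟩ := hred a c s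
        exact hex ⟨_, a, c, g, s, g0, ga, gc, hH, hR, rfl⟩
      · intro u hu hu'
        exact absurd hu hu'
      · intro p _ q _ h
        exact h
      · intro p _ _ r _ h
        exact h

end

end Run7.h169
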