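import Pool.Agent.Run7.h169.Mx3

set_option autoImplicit false
open scoped Classical Topology
open Filter

namespace Run7.h169

section

variable {S : Finset E3}

/-- A triple above the plane of a triple has a smaller cap. -/
theorem Sep.up_ssub {v x y : E3} {h : E3 →ₗ[ℝ] ℝ} (s : Sep S v x y) (h0 : h ≠ 0)
    (hx : h x = h v) (hy : h y = h v)
    {w a c : E3} (hwv : h v < h w) (s' : Sep S w a c) (ha : h v ≤ h a) (hc : h v ≤ h c) :
    ∃ g : E3 →ₗ[ℝ] ℝ, g ≠ 0 ∧ g a = g w ∧ g c = g w ∧ up S g w ⊂ up S h v := by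
  obtain ⟨s0, hs0, hs0'⟩ := s.exists_above (neg_ne_zero.mpr h0)
    (by show -(h x) = -(h v); rw [hx]) (by show -(h y) = -(h v); rw [hy])
  have hs1 : h s0 < h v := by
    have : -(h v) < -(h s0) := hs0'
    linarith
  obtain ⟨h', h'0, h'a, h'c⟩ := exists_plane w a c
  have hne : h' s0 ≠ h' w := by
    intro hh
    obtain ⟨α, β, γ, p1, p2, p3, p4, p5⟩ := s'.section h'0 h'a h'c (subset_convexHull ℝ _ hs0) hh
    have e : h s0 = α * h w + β * h a + γ * h c := by rw [p5, map_tri]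
    have : h v ≤ h s0 := by
      have e2 : h v = α * h v + β * h v + γ * h v := by
        rw [← add_mul, ← add_mul, p4, one_mul]
      rw [e, e2]
      have := mul_le_mul_of_nonneg_left hwv.le p1
      have := mul_le_mul_of_nonneg_left ha p2
      have := mul_le_mul_of_nonneg_left hc p3
      linarith
    linarith
  obtain ⟨g, g0, ga, gc, gs⟩ : ∃ g : E3 →ₗ[ℝ] ℝ, g ≠ 0 ∧ g a = g w ∧ g c = g w ∧ g s0 < g w := by
    rcases lt_or_gt_of_ne hne with hlt | hgt
    · exact ⟨h', h'0, h'a, h'c, hlt⟩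
    · refine ⟨-h', neg_ne_zero.mpr h'0, ?_, ?_, ?_⟩
      · show -(h' a) = -(h' w); rw [h'a]
      · show -(h' c) = -(h' w); rw [h'c]
      · show -(h' s0) < -(h' w); linarith
  refine ⟨g, g0, ga, gc, ?_⟩
  rw [Finset.ssubset_iff_of_subset]
  · exact ⟨w, mem_up.mpr ⟨s'.hv, hwv⟩, fun hh => lt_irrefl _ (mem_up.mp hh).2⟩
  · intro u hu
    rw [mem_up] at hu ⊢
    refine ⟨hu.1, ?_⟩
    by_contra hle
    push Not at hle
    obtain ⟨t, t0, t1, tm, tS⟩ := cross gs hu.2 hs0 hu.1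
    obtain ⟨α, β, γ, p1, p2, p3, p4, p5⟩ := s'.section g0 ga gc tS tm
    have e : (1 - t) * h s0 + t * h u = α * h w + β * h a + γ * h c := by
      rw [← map_seg, p5, map_tri]
    have e2 : h v = α * h v + β * h v + γ * h v := by
      rw [← add_mul, ← add_mul, p4, one_mul]
    have := mul_le_mul_of_nonneg_left hwv.le p1
    have := mul_le_mul_of_nonneg_left ha p2
    have := mul_le_mul_of_nonneg_left hc p3
    have : (1 - t) * h s0 + t * h u < h v := by nlinarith
    linarith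

/-- A cap that cannot be removed, while all smaller caps can. -/
structure MinCap (S : Finset E3) (v x y : E3) (h : E3 →ₗ[ℝ] ℝ) : Prop where
  sep : Sep S v x y
  h0 : h ≠ 0
  hx : h x = h v
  hy : h y = h v
  irr : ¬ RedT S (up S h v) {v, x, y}
  min : ∀ (w b d : E3) (g : E3 →ₗ[ℝ] ℝ), Sep S w b d → g ≠ 0 → g b = g w → g d = g w →
    up S g w ⊂ up S h v → RedT S (up S g w) {w, b, d}

variable {v x y : E3} {h : E3 →ₗ[ℝ] ℝ}

theorem MinCap.perm23 (C : MinCap S v x y h) : MinCap S v y x h :=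
  ⟨C.sep.perm23, C.h0, C.hy, C.hx, by rw [Finset.pair_comm]; exact C.irr, C.min⟩

theorem MinCap.rot (C : MinCap S v x y h) : MinCap S x y v h := by
  have e : up S h x = up S h v := by unfold up; rw [C.hx]
  refine ⟨C.sep.perm12.perm23, C.h0, by rw [C.hy, C.hx], C.hx.symm, ?_, ?_⟩
  · rw [e, rot_b]; exact C.irr
  · rw [e]; exact C.min

/-- A pairwise cofacial triple in the closed cap, with apex above the plane. -/
theorem MinCap.small (hS : ConvPos S) (C : MinCap S v x y h) {w b d o : E3} (hw : w ∈ S)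
    (hb : b ∈ S) (hd : d ∈ S) (hwv : h v < h w) (hbv : h v ≤ h b) (hdv : h v ≤ h d)
    (cb : Cof S w b) (cd : Cof S w d) (cbd : Cof S b d) (ho : o ∈ S) (hov : h o ≤ h v)
    (ob : o ≠ b) (od : o ≠ d)
    (hno : ∀ F : E3 →ₗ[ℝ] ℝ, F ≠ 0 → (∀ u ∈ S, F w ≤ F u) → F b = F w → F d = F w →
      F o ≠ F w) :
    ∃ g : E3 →ₗ[ℝ] ℝ, g ≠ 0 ∧ g b = g w ∧ g d = g w ∧ up S g w ⊆ up S h v ∧
      RedT S (up S g w) {w, b, d} ∧ g o < g w ∧ (up S g w = ∅ ∨ Sep S w b d) := by
  by_cases h3 : Cof3 S w b d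
  · obtain ⟨F, F0, F1, F2, F3⟩ := h3
    have hemp : up S (-F) w = ∅ := by
      rw [Finset.eq_empty_iff_forall_notMem]
      intro u hu
      obtain ⟨u1, u2⟩ := mem_up.mp hu
      have u3 : -(F w) < -(F u) := u2
      linarith [F1 u u1]
    refine ⟨-F, neg_ne_zero.mpr F0, ?_, ?_, ?_, ?_, ?_, Or.inl hemp⟩
    · show -(F b) = -(F w); rw [F2]
    · show -(F d) = -(F w); rw [F3]
    · rw [hemp]; exact Finset.empty_subset _
    · rw [hemp]
      intro T _ _ _
      rw [Finset.sdiff_empty]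
      exact Red.refl T
    · have := lt_of_le_of_ne (F1 o ho) (hno F F0 F1 F2 F3).symm
      show -(F o) < -(F w)
      linarith
  · have s' : Sep S w b d := ⟨hw, hb, hd, cb, cd, cbd, h3⟩
    obtain ⟨g, g0, gb, gd, hss⟩ := C.sep.up_ssub C.h0 C.hx C.hy hwv s' hbv hdv
    refine ⟨g, g0, gb, gd, hss.1, C.min w b d g s' g0 gb gd hss, ?_, Or.inr s'⟩
    have hle : g o ≤ g w := by
      by_contra hcon
      push Not at hcon
      have := (mem_up.mp (hss.1 (mem_up.mpr ⟨ho, hcon⟩))).2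
      linarith
    refine lt_of_le_of_ne hle (fun hh => ?_)
    rcases s'.tri_mem hS g0 gb gd ho hh with h1 | h1 | h1
    · rw [h1] at hov
      linarith
    · exact ob h1
    · exact od h1

/-- No vertex above the plane is cofacial with all three. -/
theorem MinCap.claimA (hS : ConvPos S) (C : MinCap S v x y h) {z : E3} (hz : z ∈ S)
    (hzv : h v < h z) {f : E3 →ₗ[ℝ] ℝ} (f0 : f ≠ 0) (f1 : ∀ u ∈ S, f z ≤ f u)
    (fv : f v = f z) (fx : f x = f z) (hcy : Cof S z y) : False := by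
  have s := C.sep
  have hx := C.hx
  have hy := C.hy
  have fy : f y ≠ f z := fun hh => s.no ⟨f, f0, fun u hu => by rw [fv]; exact f1 u hu,
    by rw [fx, fv], by rw [hh, fv]⟩
  obtain ⟨g1, g10, g1x, g1y, sub1, R1, g1v, al1⟩ := C.small hS hz s.hx s.hy hzv hx.ge hy.ge
    ⟨f, f0, f1, fx⟩ hcy s.cxy s.hv le_rfl s.ne12 s.ne13 (fun F F0 F1 F2 F3 F4 =>
      s.no ⟨F, F0, fun u hu => by rw [F4]; exact F1 u hu, by rw [F2, F4], by rw [F3, F4]⟩)
  obtain ⟨g2, g20, g2v, g2y, sub2, R2, g2x, al2⟩ := C.small hS hz s.hv s.hy hzv le_rfl hy.ge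
    ⟨f, f0, f1, fv⟩ hcy s.cvy s.hx hx.le s.ne12.symm s.ne23 (fun F F0 F1 F2 F3 F4 =>
      s.no ⟨F, F0, fun u hu => by rw [F2]; exact F1 u hu, by rw [F4, F2], by rw [F3, F2]⟩)
  -- the two smaller caps are disjoint
  have disj : ∀ u, u ∈ up S g1 z → u ∉ up S g2 z := by
    intro u hu1 hu2
    obtain ⟨u1, u2⟩ := mem_up.mp hu1
    obtain ⟨_, u3⟩ := mem_up.mp hu2
    rcases al1 with hemp | s1
    · rw [hemp] at hu1
      exact Finset.notMem_empty _ hu1
    · obtain ⟨t, t0, t1, tm, tS⟩ := cross g1v u2 s.hv u1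
      obtain ⟨α, β, γ, p1, p2, p3, p4, p5⟩ := s1.section g10 g1x g1y tS tm
      have e : (1 - t) * g2 v + t * g2 u = α * g2 z + β * g2 x + γ * g2 y := by
        rw [← map_seg, p5, map_tri]
      rw [g2v, g2y] at e
      have l1 := mul_le_mul_of_nonneg_left g2x.le p2
      have l2 := mul_lt_mul_of_pos_left u3 t0
      have e2 : g2 z = α * g2 z + β * g2 z + γ * g2 z := by rw [← add_mul, ← add_mul, p4, one_mul]
      linarith
  -- the frame
  have frm : ∀ T' : Finset E3, T' ⊆ S → z ∈ T' → v ∈ T' → x ∈ T' → y ∈ T' →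
      (∀ u ∈ T', g1 u ≤ g1 z) → (∀ u ∈ T', g2 u ≤ g2 z) →
      ∃ φ1 φ2 φ3, Frm T' z v x y φ1 φ2 φ3 := by
    intro T' hT' mz mv mx my le1 le2
    refine frm_of_planes mz mv mx my (f := f) (g := -g1) (k := -g2) (fun u hu => f1 u (hT' hu))
      ?_ ?_ fv fx ?_ ?_ ?_ ?_ fy ?_ ?_
    · intro u hu
      show -(g1 z) ≤ -(g1 u)
      linarith [le1 u hu]
    · intro u hu
      show -(g2 z) ≤ -(g2 u)
      linarith [le2 u hu]
    · show -(g1 x) = -(g1 z); rw [g1x]
    · show -(g1 y) = -(g1 z); rw [g1y]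
    · show -(g2 v) = -(g2 z); rw [g2v]
    · show -(g2 y) = -(g2 z); rw [g2y]
    · intro hh
      have hh' : -(g1 v) = -(g1 z) := hh
      linarith
    · intro hh
      have hh' : -(g2 x) = -(g2 z) := hh
      linarith
  have nz1 : z ∉ up S g1 z := fun hh => lt_irrefl _ (mem_up.mp hh).2
  have nz2 : z ∉ up S g2 z := fun hh => lt_irrefl _ (mem_up.mp hh).2
  have nv1 : v ∉ up S g1 z := fun hh => absurd (mem_up.mp hh).2 (not_lt.mpr g1v.le)
  have nv2 : v ∉ up S g2 z := fun hh => absurd (mem_up.mp hh).2 (not_lt.mpr g2v.le)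
  have nx1 : x ∉ up S g1 z := fun hh => absurd (mem_up.mp hh).2 (not_lt.mpr g1x.le)
  have nx2 : x ∉ up S g2 z := fun hh => absurd (mem_up.mp hh).2 (not_lt.mpr g2x.le)
  have ny1 : y ∉ up S g1 z := fun hh => absurd (mem_up.mp hh).2 (not_lt.mpr g1y.le)
  have ny2 : y ∉ up S g2 z := fun hh => absurd (mem_up.mp hh).2 (not_lt.mpr g2y.le)
  have le_of : ∀ T' : Finset E3, T' ⊆ S → ∀ g : E3 →ₗ[ℝ] ℝ, (∀ u ∈ T', u ∉ up S g z) →
      ∀ u ∈ T', g u ≤ g z := by
    intro T' hT' g hn u hu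
    by_contra hcon
    push Not at hcon
    exact hn u hu (mem_up.mpr ⟨hT' hu, hcon⟩)
  -- the cap is the union
  have cover : ∀ u ∈ up S h v, u = z ∨ u ∈ up S g1 z ∨ u ∈ up S g2 z := by
    intro u hu
    by_contra hcon
    push Not at hcon
    obtain ⟨c1, c2, c3⟩ := hcon
    obtain ⟨u1, u2⟩ := mem_up.mp hu
    have hsub : (S \ up S g1 z) \ up S g2 z ⊆ S :=
      Finset.sdiff_subset.trans Finset.sdiff_subset
    have mem : ∀ w ∈ S, w ∉ up S g1 z → w ∉ up S g2 z → w ∈ (S \ up S g1 z) \ up S g2 z :=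
      fun w h1 h2 h3 => Finset.mem_sdiff.mpr ⟨Finset.mem_sdiff.mpr ⟨h1, h2⟩, h3⟩
    obtain ⟨φ1, φ2, φ3, hf⟩ := frm _ hsub (mem z hz nz1 nz2) (mem v s.hv nv1 nv2)
      (mem x s.hx nx1 nx2) (mem y s.hy ny1 ny2)
      (le_of _ hsub g1 (fun w hw => (Finset.mem_sdiff.mp (Finset.mem_sdiff.mp hw).1).2))
      (le_of _ hsub g2 (fun w hw => (Finset.mem_sdiff.mp hw).2))
    have hout := hf.out (hS.mono hsub) (mem u u1 c2 c3) c1 (by rintro rfl; linarith)
      (by rintro rfl; linarith) (by rintro rfl; linarith)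
    have e := congrArg h (hf.ext (u - z))
    rw [map_add, map_add, map_smul, map_smul, map_smul, map_sub h v z, map_sub h x z,
      map_sub h y z, map_sub h u z, hx, hy] at e
    simp only [smul_eq_mul] at e
    have hneg : h v - h z < 0 := by linarith
    have := mul_lt_mul_of_neg_right hout hneg
    linarith
  apply C.irr
  intro T hT hD hK
  have mv : v ∈ T := hK (by simp)
  have mx : x ∈ T := hK (by simp)
  have my : y ∈ T := hK (by simp)
  have mz : z ∈ T := hD (mem_up.mpr ⟨hz, hzv⟩)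
  have r1 := R1 T hT (sub1.trans hD) (by
    intro u hu
    simp only [Finset.mem_insert, Finset.mem_singleton] at hu
    rcases hu with rfl | rfl | rfl
    · exact mz
    · exact mx
    · exact my)
  have r2 := R2 (T \ up S g1 z) (Finset.sdiff_subset.trans hT)
    (fun u hu => Finset.mem_sdiff.mpr ⟨hD (sub2 hu), fun hh => disj u hh hu⟩) (by
    intro u hu
    simp only [Finset.mem_insert, Finset.mem_singleton] at hu
    rcases hu with rfl | rfl | rfl
    · exact Finset.mem_sdiff.mpr ⟨mz, nz1⟩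
    · exact Finset.mem_sdiff.mpr ⟨mv, nv1⟩
    · exact Finset.mem_sdiff.mpr ⟨my, ny1⟩)
  have hsub : (T \ up S g1 z) \ up S g2 z ⊆ S :=
    (Finset.sdiff_subset.trans Finset.sdiff_subset).trans hT
  have mem : ∀ w ∈ T, w ∉ up S g1 z → w ∉ up S g2 z → w ∈ (T \ up S g1 z) \ up S g2 z :=
    fun w h1 h2 h3 => Finset.mem_sdiff.mpr ⟨Finset.mem_sdiff.mpr ⟨h1, h2⟩, h3⟩
  obtain ⟨φ1, φ2, φ3, hf⟩ := frm _ hsub (mem z mz nz1 nz2) (mem v mv nv1 nv2)
    (mem x mx nx1 nx2) (mem y my ny1 ny2)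
    (le_of _ hsub g1 (fun w hw => (Finset.mem_sdiff.mp (Finset.mem_sdiff.mp hw).1).2))
    (le_of _ hsub g2 (fun w hw => (Finset.mem_sdiff.mp hw).2))
  have r3 := Red.one (S := (T \ up S g1 z) \ up S g2 z) (v := z) ⟨_, _, _, _, _, _, hf⟩
  have heq : ((T \ up S g1 z) \ up S g2 z).erase z = T \ up S h v := by
    ext u
    rw [Finset.mem_erase, Finset.mem_sdiff, Finset.mem_sdiff, Finset.mem_sdiff]
    constructor
    · rintro ⟨h1, ⟨h2, h3⟩, h4⟩
      refine ⟨h2, fun hh => ?_⟩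
      rcases cover u hh with h5 | h5 | h5
      · exact h1 h5
      · exact h3 h5
      · exact h4 h5
    · rintro ⟨h1, h2⟩
      exact ⟨fun hh => h2 (by rw [hh]; exact mem_up.mpr ⟨hz, hzv⟩),
        ⟨h1, fun hh => h2 (sub1 hh)⟩, fun hh => h2 (sub2 hh)⟩
  rw [heq] at r3
  exact r1.trans (r2.trans r3)

/-- A removable side of the plane of a triple. -/
def GoodSide (S : Finset E3) (h : E3 →ₗ[ℝ] ℝ) (m : ℝ) (z a c : E3) : Prop :=
  ∃ k : E3 →ₗ[ℝ] ℝ, k ≠ 0 ∧ k a = k z ∧ k c = k z ∧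
    (∀ u ∈ up S k z, h u = m ∨ ∃ D0 : Finset E3, u ∈ D0 ∧ (∀ w ∈ D0, w ∈ S ∧ m < h w) ∧
      Red S (S \ D0)) ∧ (∀ u ∈ up S k z, m ≤ h u) ∧ RedT S (up S k z) {z, a, c}

theorem GoodSide.symm {m : ℝ} {z a c : E3} (hg : GoodSide S h m z a c) :
    GoodSide S h m z c a := by
  obtain ⟨k, k0, ka, kc, k1, k2, k3⟩ := hg
  exact ⟨k, k0, kc, ka, k1, k2, by rw [Finset.pair_comm]; exact k3⟩

theorem MinCap.claimB (hS : ConvPos S) (C : MinCap S v x y h) {z a c τ : E3}
    (s' : Sep S z a c) (hzv : h v < h z) (ha : h a < h v) (hc : h v < h c) (hτ : τ ∈ S)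
    (hτh : h τ = h v) {f F : E3 →ₗ[ℝ] ℝ} (f0 : f ≠ 0) (f1 : ∀ u ∈ S, f z ≤ f u)
    (fτ : f τ = f z) (fa : f a = f z) (F0 : F ≠ 0) (F1 : ∀ u ∈ S, F τ ≤ F u)
    (Fa : F a = F τ) (Fc : F c = F τ) : GoodSide S h (h v) z a c := by
  have nc : f c ≠ f z := fun hh => s'.no ⟨f, f0, f1, fa, hh⟩
  have nz : F z ≠ F τ := fun hh => s'.no ⟨F, F0, fun u hu => by rw [hh]; exact F1 u hu,
    by rw [Fa, hh], by rw [Fc, hh]⟩
  obtain ⟨g, g0, gτ, gc, sub0, R0, gat, al⟩ := C.small hS s'.hv hτ s'.hy hzv hτh.ge hc.le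
    ⟨f, f0, f1, fτ⟩ s'.cvy ⟨F, F0, F1, Fc⟩ s'.hx ha.le (by rintro rfl; linarith)
    (by rintro rfl; linarith) (fun G G0 G1 _ G3 G4 => s'.no ⟨G, G0, G1, G4, G3⟩)
  obtain ⟨k', k'0, k'a, k'c⟩ := exists_plane z a c
  have hne : k' τ ≠ k' z := by
    intro hh
    rcases s'.tri_mem hS k'0 k'a k'c hτ hh with h1 | h1 | h1
    · rw [h1] at hτh; linarith
    · rw [h1] at hτh; linarith
    · rw [h1] at hτh; linarith
  obtain ⟨k, k0, ka, kc, kτ⟩ : ∃ k : E3 →ₗ[ℝ] ℝ, k ≠ 0 ∧ k a = k z ∧ k c = k z ∧ k z < k τ := by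
    rcases lt_or_gt_of_ne hne with hlt | hgt
    · refine ⟨-k', neg_ne_zero.mpr k'0, ?_, ?_, ?_⟩
      · show -(k' a) = -(k' z); rw [k'a]
      · show -(k' c) = -(k' z); rw [k'c]
      · show -(k' z) < -(k' τ); linarith
    · exact ⟨k', k'0, k'a, k'c, hgt⟩
  have frm : ∀ T' : Finset E3, T' ⊆ S → τ ∈ T' → z ∈ T' → a ∈ T' → c ∈ T' →
      (∀ u ∈ T', g u ≤ g z) → ∃ φ1 φ2 φ3, Frm T' τ z a c φ1 φ2 φ3 := by
    intro T' hT' mτ mz ma mc le
    refine frm_of_planes mτ mz ma mc (f := f) (g := F) (k := -g)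
      (fun u hu => by rw [fτ]; exact f1 u (hT' hu)) (fun u hu => F1 u (hT' hu)) ?_ fτ.symm
      (by rw [fa, fτ]) Fa Fc ?_ ?_ (by rw [fτ]; exact nc) nz ?_
    · intro u hu
      show -(g τ) ≤ -(g u)
      rw [gτ]
      linarith [le u hu]
    · show -(g z) = -(g τ); rw [gτ]
    · show -(g c) = -(g τ); rw [gc, gτ]
    · intro hh
      have hh' : -(g a) = -(g τ) := hh
      rw [gτ] at hh'
      linarith
  have nτ : τ ∉ up S g z := fun hh => absurd (mem_up.mp hh).2 (not_lt.mpr gτ.le)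
  have nz0 : z ∉ up S g z := fun hh => lt_irrefl _ (mem_up.mp hh).2
  have na : a ∉ up S g z := fun hh => absurd (mem_up.mp hh).2 (not_lt.mpr gat.le)
  have nc0 : c ∉ up S g z := fun hh => absurd (mem_up.mp hh).2 (not_lt.mpr gc.le)
  have le_of : ∀ T' : Finset E3, T' ⊆ S → (∀ u ∈ T', u ∉ up S g z) →
      ∀ u ∈ T', g u ≤ g z := by
    intro T' hT' hn u hu
    by_contra hcon
    push Not at hcon
    exact hn u hu (mem_up.mpr ⟨hT' hu, hcon⟩)
  have heq : up S k z = insert τ (up S g z) := by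
    ext u
    rw [Finset.mem_insert]
    constructor
    · intro hu
      by_contra hcon
      push Not at hcon
      obtain ⟨c1, c2⟩ := hcon
      obtain ⟨u1, u2⟩ := mem_up.mp hu
      have mem : ∀ w ∈ S, w ∉ up S g z → w ∈ S \ up S g z :=
        fun w h1 h2 => Finset.mem_sdiff.mpr ⟨h1, h2⟩
      obtain ⟨φ1, φ2, φ3, hf⟩ := frm _ Finset.sdiff_subset (mem τ hτ nτ) (mem z s'.hv nz0)
        (mem a s'.hx na) (mem c s'.hy nc0)
        (le_of _ Finset.sdiff_subset (fun w hw => (Finset.mem_sdiff.mp hw).2))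
      have hout := hf.out (hS.mono Finset.sdiff_subset) (mem u u1 c2) c1
        (by rintro rfl; exact lt_irrefl _ u2) (by rintro rfl; linarith)
        (by rintro rfl; linarith)
      have e := congrArg k (hf.ext (u - τ))
      rw [map_add, map_add, map_smul, map_smul, map_smul, map_sub k z τ, map_sub k a τ,
        map_sub k c τ, map_sub k u τ, ka, kc] at e
      simp only [smul_eq_mul] at e
      have hneg : k z - k τ < 0 := by linarith
      have := mul_lt_mul_of_neg_right hout hneg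
      linarith
    · rintro (rfl | hu)
      · exact mem_up.mpr ⟨hτ, kτ⟩
      · obtain ⟨u1, u2⟩ := mem_up.mp hu
        refine mem_up.mpr ⟨u1, ?_⟩
        rcases al with hemp | s0
        · rw [hemp] at hu
          exact absurd hu (Finset.notMem_empty _)
        · obtain ⟨t, t0, t1, tm, tS⟩ := cross gat u2 s'.hx u1
          obtain ⟨α, β, γ, p1, p2, p3, p4, p5⟩ := s0.section g0 gτ gc tS tm
          have e : (1 - t) * k a + t * k u = α * k z + β * k τ + γ * k c := by
            rw [← map_seg, p5, map_tri]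
          rw [ka, kc] at e
          have l1 := mul_le_mul_of_nonneg_left kτ.le p2
          have e2 : k z = α * k z + β * k z + γ * k z := by
            rw [← add_mul, ← add_mul, p4, one_mul]
          have l2 : t * k z ≤ t * k u := by linarith
          refine lt_of_le_of_ne (le_of_mul_le_mul_left l2 t0) (fun hh => ?_)
          rcases s'.tri_mem hS k0 ka kc u1 hh.symm with h1 | h1 | h1
          · rw [h1] at u2; exact lt_irrefl _ u2
          · rw [h1] at u2; linarith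
          · rw [h1] at u2; linarith
  refine ⟨k, k0, ka, kc, ?_, ?_, ?_⟩
  · intro u hu
    rw [heq, Finset.mem_insert] at hu
    rcases hu with rfl | hu
    · left; exact hτh
    · right
      refine ⟨up S g z, hu, fun w hw => ?_, R0 S subset_rfl (Finset.filter_subset _ _) ?_⟩
      · exact mem_up.mp (sub0 hw)
      · intro w hw
        simp only [Finset.mem_insert, Finset.mem_singleton] at hw
        rcases hw with rfl | rfl | rfl
        · exact s'.hv
        · exact hτ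
        · exact s'.hy
  · intro u hu
    rw [heq, Finset.mem_insert] at hu
    rcases hu with rfl | hu
    · exact hτh.ge
    · exact (mem_up.mp (sub0 hu)).2.le
  · rw [heq]
    intro T hT hD hK
    have mz : z ∈ T := hK (by simp)
    have ma : a ∈ T := hK (by simp)
    have mc : c ∈ T := hK (by simp)
    have mτ : τ ∈ T := hD (Finset.mem_insert_self _ _)
    have r1 := R0 T hT (fun u hu => hD (Finset.mem_insert_of_mem hu)) (by
      intro u hu
      simp only [Finset.mem_insert, Finset.mem_singleton] at hu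
      rcases hu with rfl | rfl | rfl
      · exact mz
      · exact mτ
      · exact mc)
    have hsub : T \ up S g z ⊆ S := Finset.sdiff_subset.trans hT
    have mem : ∀ w ∈ T, w ∉ up S g z → w ∈ T \ up S g z :=
      fun w h1 h2 => Finset.mem_sdiff.mpr ⟨h1, h2⟩
    obtain ⟨φ1, φ2, φ3, hf⟩ := frm _ hsub (mem τ mτ nτ) (mem z mz nz0)
      (mem a ma na) (mem c mc nc0) (le_of _ hsub (fun w hw => (Finset.mem_sdiff.mp hw).2))
    have r2 := Red.one (S := T \ up S g z) (v := τ) ⟨_, _, _, _, _, _, hf⟩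
    have heq2 : (T \ up S g z).erase τ = T \ insert τ (up S g z) := by
      ext u
      rw [Finset.mem_erase, Finset.mem_sdiff, Finset.mem_sdiff, Finset.mem_insert, not_or]
      constructor
      · rintro ⟨h1, h2, h3⟩
        exact ⟨h2, h1, h3⟩
      · rintro ⟨h1, h2, h3⟩
        exact ⟨h2, h1, h3⟩
    rw [heq2] at r2
    exact r1.trans r2

theorem MinCap.step (hS : ConvPos S) (C : MinCap S v x y h) {z a c : E3} (hzv : h v < h z)
    (ha : h a < h v) (s' : Sep S z a c) (side : Side S v x z a) :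
    GoodSide S h (h v) z a c := by
  have s := C.sep
  obtain ⟨f, f0, f1, f2⟩ := s.cvx
  obtain ⟨fz, fa⟩ := side f f1 f2
  have fz1 : ∀ u ∈ S, f z ≤ f u := fun u hu => by rw [fz]; exact f1 u hu
  have nc : f c ≠ f v := fun hh => s'.no ⟨f, f0, fz1, by rw [fa, fz], by rw [hh, fz]⟩
  have claimA : Cof S z y → False := fun hcy =>
    C.claimA hS s'.hv hzv f0 fz1 fz.symm (by rw [f2, fz]) hcy
  obtain ⟨fy, fy0, fy1, fy2⟩ := s.cvy
  obtain ⟨g, g0, g1, g2⟩ := s.cxy
  rcases lt_trichotomy (h c) (h v) with hc | hc | hc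
  · exfalso
    rcases s.below C.h0 C.hx C.hy s'.hv hzv s'.hy hc s'.cvy with sd | sd | sd
    · exact nc (sd f f1 f2).2
    · have k := (sd fy fy1 fy2).1
      exact claimA ⟨fy, fy0, fun u hu => by rw [k]; exact fy1 u hu, by rw [fy2, k]⟩
    · have k := (sd g g1 g2).1
      exact claimA ⟨g, g0, fun u hu => by rw [k]; exact g1 u hu, by rw [g2, k]⟩
  · exfalso
    rcases s.tri_mem hS C.h0 C.hx C.hy s'.hy hc with rfl | rfl | rfl
    · exact nc rfl
    · exact nc f2
    · exact claimA s'.cvy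
  · rcases s.below C.h0 C.hx C.hy s'.hy hc s'.hx ha s'.cxy.symm with sd | sd | sd
    · exact absurd (sd f f1 f2).1 nc
    · have k := sd fy fy1 fy2
      exact C.claimB hS s' hzv ha hc s.hv rfl f0 fz1 fz.symm (by rw [fa, fz]) fy0 fy1 k.2 k.1
    · have k := sd g g1 g2
      exact C.claimB hS s' hzv ha hc s.hx C.hx f0 fz1 (by rw [f2, fz]) (by rw [fa, fz]) g0 g1
        k.2 k.1

/-- Every triple at a vertex above a minimal plane has a removable side. -/
theorem MinCap.good (hS : ConvPos S) (C : MinCap S v x y h) {z : E3} (hz : z ∈ S)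
    (hzv : h v < h z) {a c : E3} (s' : Sep S z a c) : GoodSide S h (h v) z a c := by
  have s := C.sep
  have main : ∀ a c, Sep S z a c → h a < h v → GoodSide S h (h v) z a c := by
    intro a c s' ha
    rcases s.below C.h0 C.hx C.hy hz hzv s'.hx ha s'.cvx with sd | sd | sd
    · exact C.step hS hzv ha s' sd
    · exact C.perm23.step hS hzv ha s' sd
    · have := C.rot.step hS (by rw [C.hx]; exact hzv) (by rw [C.hx]; exact ha) s' sd
      rwa [C.hx] at this
  rcases lt_or_ge (h a) (h v) with ha | ha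
  · exact main a c s' ha
  · rcases lt_or_ge (h c) (h v) with hc | hc
    · exact (main c a s'.perm23 hc).symm
    · obtain ⟨g, g0, ga, gc, hss⟩ := s.up_ssub C.h0 C.hx C.hy hzv s' ha hc
      have hR := C.min z a c g s' g0 ga gc hss
      refine ⟨g, g0, ga, gc, ?_, ?_, hR⟩
      · intro u hu
        right
        refine ⟨up S g z, hu, fun w hw => mem_up.mp (hss.1 hw),
          hR S subset_rfl (Finset.filter_subset _ _) ?_⟩
        intro w hw
        simp only [Finset.mem_insert, Finset.mem_singleton] at hw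
        rcases hw with rfl | rfl | rfl
        · exact s'.hv
        · exact s'.hx
        · exact s'.hy
      · intro u hu
        exact (mem_up.mp (hss.1 hu)).2.le

end

end Run7.h169
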