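import Pool.Agent.Run7.h169.Mx4

set_option autoImplicit false
open scoped Classical Topology
open Filter

namespace Run7.h169

theorem not_span_plane {T : Finset E3} {h : E3 →ₗ[ℝ] ℝ} {m : ℝ} (h0 : h ≠ 0)
    (hT : ∀ u ∈ T, h u = m) : affineSpan ℝ (T : Set E3) ≠ ⊤ := by
  intro htop
  have key : ∀ r : E3, h r = m := by
    intro r
    have hr : r ∈ affineSpan ℝ (T : Set E3) := by rw [htop]; exact AffineSubspace.mem_top ℝ E3 r
    refine affineSpan_induction (p := fun r => h r = m) hr (fun x hx => hT x hx) ?_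
    intro c u v w hu hv hw
    rw [vsub_eq_sub, vadd_eq_add, map_add, map_smul, map_sub, hu, hv, hw, sub_self, smul_zero,
      zero_add]
  apply h0
  ext r
  have h1 := key 0
  rw [map_zero] at h1
  rw [key r, ← h1]
  rfl

section

variable {S : Finset E3} {v x y : E3} {h : E3 →ₗ[ℝ] ℝ}

theorem Sep.sub_three (s : Sep S v x y) : ({v, x, y} : Finset E3) ⊆ S := by
  intro u hu
  simp only [Finset.mem_insert, Finset.mem_singleton] at hu
  rcases hu with rfl | rfl | rfl
  · exact s.hv
  · exact s.hx
  · exact s.hy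

/-- If both sides can be removed, the polytope is handled. -/
theorem both_red (hS : ConvPos S) (hspan : affineSpan ℝ (S : Set E3) = ⊤) (s : Sep S v x y)
    (h0 : h ≠ 0) (hx : h x = h v) (hy : h y = h v) (R1 : RedT S (up S h v) {v, x, y})
    (R2 : RedT S (up S (-h) v) {v, x, y}) : HasHamTet S := by
  have r1 := R1 S subset_rfl (Finset.filter_subset _ _) s.sub_three
  have hm : ∀ u, u ∈ S → h u ≤ h v → u ∈ S \ up S h v := fun u hu hh => mem_low.mpr ⟨hu, hh⟩
  have r2 := R2 (S \ up S h v) Finset.sdiff_subset (by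
    intro u hu
    obtain ⟨u1, u2⟩ := mem_up.mp hu
    have u3 : -(h v) < -(h u) := u2
    exact hm u u1 (by linarith)) (by
    intro u hu
    simp only [Finset.mem_insert, Finset.mem_singleton] at hu
    rcases hu with rfl | rfl | rfl
    · exact hm _ s.hv le_rfl
    · exact hm _ s.hx hx.le
    · exact hm _ s.hy hy.le)
  rcases (r1.trans r2).hasHamTet hS hspan with h1 | ⟨h1, _⟩
  · exact h1
  · exfalso
    refine not_span_plane h0 (m := h v) ?_ h1
    intro u hu
    obtain ⟨h2, h3⟩ := Finset.mem_sdiff.mp hu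
    obtain ⟨h4, h5⟩ := mem_low.mp h2
    refine le_antisymm h5 ?_
    by_contra hcon
    push Not at hcon
    exact h3 (mem_up.mpr ⟨h4, by show -(h v) < -(h u); linarith⟩)

/-- A removable nonempty set contains a simple vertex. -/
theorem exists_simple_of_red {D : Finset E3} (hR : Red S (S \ D)) {u : E3} (hu : u ∈ D)
    (huS : u ∈ S) : ∃ w ∈ D, HasFrm S w := by
  obtain ⟨w, w1, w2, w3⟩ := hR.simple (by
    intro hh
    have : u ∈ S \ D := by rw [hh]; exact huS
    exact (Finset.mem_sdiff.mp this).2 hu)
  refine ⟨w, ?_, w3⟩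
  by_contra hcon
  exact w2 (Finset.mem_sdiff.mpr ⟨w1, hcon⟩)

/-- The apex. -/
theorem exists_apex (hS : ConvPos S) (hspan : affineSpan ℝ (S : Set E3) = ⊤)
    (hno : ¬ HasHamTet S) : ∃ z ∈ S, ∃ H : E3 → Prop,
      (∀ a c, Sep S z a c → ∃ g : E3 →ₗ[ℝ] ℝ, g ≠ 0 ∧ g a = g z ∧ g c = g z ∧
        (∀ u ∈ up S g z, H u) ∧ RedT S (up S g z) {z, a, c}) ∧
      ((∀ w ∈ S, IsEdgeS S z w → H w) → (∀ p ∈ S, p ≠ z → HasFrm S p → H p) → False) := by
  by_cases hc1 : ∃ n : ℕ, ∃ (v x y : E3) (h : E3 →ₗ[ℝ] ℝ), Sep S v x y ∧ h ≠ 0 ∧ h x = h v ∧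
      h y = h v ∧ (∀ u ∈ up S h v, ¬ HasFrm S u) ∧ (up S h v).card = n
  · -- a side without simple vertices
    obtain ⟨v, x, y, h, s, h0, hx, hy, hns, hn⟩ := Nat.find_spec hc1
    have C : MinCap S v x y h := by
      refine ⟨s, h0, hx, hy, ?_, ?_⟩
      · intro hR
        obtain ⟨u, hu, huv⟩ := s.exists_above h0 hx hy
        obtain ⟨w, w1, w2⟩ := exists_simple_of_red
          (hR S subset_rfl (Finset.filter_subset _ _) s.sub_three) (mem_up.mpr ⟨hu, huv⟩) hu
        exact hns w w1 w2
      · intro w b d g s' g0 gb gd hss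
        exfalso
        have hlt := Finset.card_lt_card hss
        rw [hn] at hlt
        exact Nat.find_min hc1 hlt ⟨w, b, d, g, s', g0, gb, gd, fun u hu => hns u (hss.1 hu), rfl⟩
    obtain ⟨z, hz, hzv⟩ := s.exists_above h0 hx hy
    refine ⟨z, hz, fun u => h u = h v, ?_, ?_⟩
    · intro a c s'
      obtain ⟨k, k0, ka, kc, k1, _, k3⟩ := C.good hS hz hzv s'
      refine ⟨k, k0, ka, kc, ?_, k3⟩
      intro u hu
      rcases k1 u hu with h1 | ⟨D0, h1, h2, h3⟩
      · exact h1
      · exfalso
        obtain ⟨w, w1, w2⟩ := exists_simple_of_red h3 h1 (h2 u h1).1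
        exact hns w (mem_up.mpr (h2 w w1)) w2
    · intro b1 _
      apply hns z (mem_up.mpr ⟨hz, hzv⟩)
      apply hasFrm_of_sdeg hS hspan hz
      intro h4
      have h3 : sdeg S z ≤ ({v, x, y} : Finset E3).card := by
        apply Finset.card_le_card
        intro w hw
        obtain ⟨w1, w2⟩ := Finset.mem_filter.mp hw
        simp only [Finset.mem_insert, Finset.mem_singleton]
        exact s.tri_mem hS h0 hx hy w1 (b1 w w1 w2)
      have h5 : ({v, x, y} : Finset E3).card ≤ 3 := Finset.card_le_three
      omega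
  · by_cases hc2 : ∃ n : ℕ, ∃ (v x y : E3) (h : E3 →ₗ[ℝ] ℝ), Sep S v x y ∧ h ≠ 0 ∧ h x = h v ∧
        h y = h v ∧ ¬ RedT S (up S h v) {v, x, y} ∧ (up S h v).card = n
    · -- a side that cannot be removed
      obtain ⟨v, x, y, h, s, h0, hx, hy, hns, hn⟩ := Nat.find_spec hc2
      have C : MinCap S v x y h := by
        refine ⟨s, h0, hx, hy, hns, ?_⟩
        intro w b d g s' g0 gb gd hss
        by_contra hR
        have hlt := Finset.card_lt_card hss
        rw [hn] at hlt
        exact Nat.find_min hc2 hlt ⟨w, b, d, g, s', g0, gb, gd, hR, rfl⟩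
      obtain ⟨z, hz, hzv⟩ := s.exists_above h0 hx hy
      refine ⟨z, hz, fun u => h v ≤ h u, ?_, ?_⟩
      · intro a c s'
        obtain ⟨k, k0, ka, kc, _, k2, k3⟩ := C.good hS hz hzv s'
        exact ⟨k, k0, ka, kc, k2, k3⟩
      · intro _ b2
        apply hc1
        refine ⟨_, v, x, y, -h, s, neg_ne_zero.mpr h0, ?_, ?_, ?_, rfl⟩
        · show -(h x) = -(h v); rw [hx]
        · show -(h y) = -(h v); rw [hy]
        · intro u hu hf
          obtain ⟨u1, u2⟩ := mem_up.mp hu
          have u3 : -(h v) < -(h u) := u2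
          have := b2 u u1 (by rintro rfl; linarith) hf
          linarith
    · by_cases hc3 : ∃ v x y, Sep S v x y
      · exfalso
        obtain ⟨v, x, y, s⟩ := hc3
        obtain ⟨h, h0, hx, hy⟩ := exists_plane v x y
        apply hno
        refine both_red hS hspan s h0 hx hy ?_ ?_
        · by_contra hR
          exact hc2 ⟨_, v, x, y, h, s, h0, hx, hy, hR, rfl⟩
        · by_contra hR
          exact hc2 ⟨_, v, x, y, -h, s, neg_ne_zero.mpr h0,
            by show -(h x) = -(h v); rw [hx], by show -(h y) = -(h v); rw [hy], hR, rfl⟩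
      · push Not at hc3
        obtain ⟨z, hz⟩ : S.Nonempty := by
          by_contra h
          rw [Finset.not_nonempty_iff_eq_empty] at h
          rw [h] at hspan
          simp at hspan
        refine ⟨z, hz, fun _ => False, fun a c s => absurd s (hc3 z a c), ?_⟩
        intro b1 _
        obtain ⟨M, m1, m2, m3, _⟩ := exists_nbrs hS hspan hz
        obtain ⟨m, hm⟩ : M.Nonempty := Finset.card_pos.mp (by omega)
        exact b1 _ (mem_rel.mp (m1 hm)).1 (m2 m hm)

theorem cof_inner_iff {z p : E3} (hC : Cfg (rel S z)) (hp : p ∈ rel S z) :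
    Cof S z (p + z) ↔ ¬ Inner (rel S z) p := by
  constructor
  · rintro ⟨f, f0, f1, f2⟩
    rw [map_add] at f2
    refine not_inner_of_support f0 ?_ (y := p) (by linarith)
    intro w hw
    have := f1 _ (mem_rel.mp hw).1
    rw [map_add] at this
    linarith
  · exact cof_of_not_inner hC hp

/-- Convex polytopes all of whose vertices have at most four neighbours have Hamiltonian
tetrahedralizations. -/
theorem deg4_hasHamTet (hS : ConvPos S) (hspan : affineSpan ℝ (S : Set E3) = ⊤)
    (hd : ∀ p ∈ S, sdeg S p ≤ 4) : HasHamTet S := by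
  by_contra hno
  obtain ⟨z, hz, H, hred, hbad⟩ := exists_apex hS hspan hno
  obtain ⟨S', hsub, hz', hR, hsep, hH, hcof, hedge⟩ := erase_all (z := z) (H := H) _ S rfl hS hz
    hred
  rcases hR.hasHamTet hS hspan with h1 | ⟨hspan', himp⟩
  · exact hno h1
  have hno' : ¬ HasHamTet S' := fun hh => hno (himp hh)
  have hS' : ConvPos S' := hS.mono hsub
  have hC : Cfg (rel S z) := cfg_rel hS hspan hz
  have hC' : Cfg (rel S' z) := cfg_rel hS' hspan' hz'
  set W' := rel S' z with hW'
  have mS : ∀ {w : E3}, w ∈ W' → w + z ∈ S' := fun hw => (mem_rel.mp hw).1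
  have mW : ∀ {w : E3}, w ∈ W' → w ∈ rel S z := fun hw =>
    mem_rel.mpr ⟨hsub (mem_rel.mp hw).1, (mem_rel.mp hw).2⟩
  -- inner vertices of the small polytope are inner vertices of the large one
  have hinn : ∀ {w : E3}, w ∈ W' → Inner W' w → Inner (rel S z) w := by
    intro w hw hi
    by_contra hn
    exact (cof_inner_iff hC' hw).mp (((cof_inner_iff hC (mW hw)).mpr hn).sub hsub) hi
  have hout : ∀ {w : E3}, w ∈ W' → ¬ Inner W' w → ¬ Inner (rel S z) w := by
    intro w hw hn
    exact (cof_inner_iff hC (mW hw)).mp (hcof z hz' _ (mS hw) ((cof_inner_iff hC' hw).mpr hn))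
  -- edges at inner vertices
  have hed : ∀ {p q : E3}, p ∈ W' → Inner W' p → q ∈ W' → IsEdge0 W' p q →
      IsEdgeS S (p + z) (q + z) := by
    intro p q hp ip hq he
    exact hedge _ (mS hp) (fun hc => (cof_inner_iff hC' hp).mp hc ip) _ (mS hq) (Frm.edge_rel he)
  have hdegle : ∀ {p : E3}, p ∈ W' → Inner W' p → deg W' p ≤ sdeg S (p + z) := by
    intro p hp ip
    apply Finset.card_le_card_of_injOn (fun q => q + z)
    · intro q hq
      rw [Finset.mem_coe, Finset.mem_filter] at hq
      rw [Finset.mem_coe]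
      exact Finset.mem_filter.mpr ⟨hsub (mS hq.1), hed hp ip hq.1 hq.2⟩
    · intro a _ b _ hab
      exact add_right_cancel hab
  have hdeg : ∀ p ∈ W', Inner W' p → deg W' p ≤ 4 := fun p hp ip =>
    (hdegle hp ip).trans (hd _ (hsub (mS hp)))
  -- there are inner vertices
  have hin : ∃ y ∈ W', Inner W' y := by
    by_contra hcon
    push Not at hcon
    exact hno' (colour_none hS' hspan' hz' hsep hcon)
  -- inner vertices have degree four
  have hin4 : ∀ p ∈ W', Inner W' p → 4 ≤ sdeg S (p + z) := by
    intro p hp ip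
    by_contra hcon
    have h1 := hdegle hp ip
    have h3 : deg W' p ≤ 3 := by omega
    exact hno' (colour_simple hS' hspan' hz' hsep hdeg hp ip h3)
  -- outer vertices have two inner neighbours
  have hout4 : ∀ o ∈ W', ¬ Inner W' o → ∃ N : Finset E3, N.card = 4 ∧
      ∀ q ∈ N, q ∈ rel S z ∧ IsEdgeS S (o + z) (q + z) := by
    intro o ho no
    obtain ⟨n1, n1W, i1, e1⟩ := outer_has_inner hS' hspan' hz' hsep hin ho no
    obtain ⟨n2, n2W, i2, e2, hne⟩ : ∃ n2 ∈ W', Inner W' n2 ∧ IsEdge0 W' o n2 ∧ n2 ≠ n1 := by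
      by_contra hcon
      push Not at hcon
      exact hno' (colour_root hS' hspan' hz' hsep hdeg ho no n1W i1 e1.symm hcon)
    obtain ⟨u, uW, x, xW, hux, nu, nx, eu, ex⟩ :=
      two_outer_nbrs hS hspan hz (mW ho) (hout ho no)
    have j1 := hinn n1W i1
    have j2 := hinn n2W i2
    refine ⟨{n1, n2, u, x}, ?_, ?_⟩
    · rw [Finset.card_insert_of_notMem, Finset.card_insert_of_notMem, Finset.card_pair hux]
      · simp only [Finset.mem_insert, Finset.mem_singleton, not_or]
        exact ⟨by rintro rfl; exact nu j2, by rintro rfl; exact nx j2⟩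
      · simp only [Finset.mem_insert, Finset.mem_singleton, not_or]
        exact ⟨hne.symm, by rintro rfl; exact nu j1, by rintro rfl; exact nx j1⟩
    · intro q hq
      simp only [Finset.mem_insert, Finset.mem_singleton] at hq
      rcases hq with rfl | rfl | rfl | rfl
      · exact ⟨mW n1W, (hed n1W i1 ho e1.symm).symm⟩
      · exact ⟨mW n2W, (hed n2W i2 ho e2.symm).symm⟩
      · exact ⟨uW, Frm.edge_rel eu⟩
      · exact ⟨xW, Frm.edge_rel ex⟩
  have hcount : ∀ o ∈ W', ¬ Inner W' o → 4 ≤ sdeg S (o + z) ∧ ¬ IsEdgeS S z (o + z) := by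
    intro o ho no
    obtain ⟨N, hN, hNe⟩ := hout4 o ho no
    have hsubN : N.image (fun q => q + z) ⊆ S.filter (fun q => IsEdgeS S (o + z) q) := by
      intro w hw
      obtain ⟨q, hq, rfl⟩ := Finset.mem_image.mp hw
      exact Finset.mem_filter.mpr ⟨(mem_rel.mp (hNe q hq).1).1, (hNe q hq).2⟩
    have hcard : (N.image (fun q => q + z)).card = 4 := by
      rw [Finset.card_image_of_injective _ (add_left_injective z), hN]
    constructor
    · rw [← hcard]
      exact Finset.card_le_card hsubN
    · intro he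
      have hznot : z ∉ N.image (fun q => q + z) := by
        intro hh
        obtain ⟨q, hq, hqz⟩ := Finset.mem_image.mp hh
        exact (mem_rel.mp (hNe q hq).1).2 (by simpa using hqz)
      have h5 : (insert z (N.image (fun q => q + z))).card ≤ sdeg S (o + z) := by
        apply Finset.card_le_card
        intro w hw
        rcases Finset.mem_insert.mp hw with rfl | hw
        · exact Finset.mem_filter.mpr ⟨hz, he.symm⟩
        · exact hsubN hw
      rw [Finset.card_insert_of_notMem hznot, hcard] at h5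
      have := hd _ (hsub (mS ho))
      omega
  apply hbad
  · intro w hw he
    by_contra hHw
    have hwS' : w ∈ S' := by
      by_contra hn
      exact hHw (hH w hw hn)
    have hwz : w ≠ z := he.1.symm
    have hm := sub_mem_rel hwS' hwz
    have hce : Cof S z w := by
      obtain ⟨e, e1, e2, e3⟩ := he.le
      obtain ⟨y, hy, iy⟩ := hin
      refine ⟨-e, ?_, ?_, ?_⟩
      · intro h0
        have h1 : e = 0 := neg_eq_zero.mp h0
        have hyw : y + z ≠ w := by
          rintro rfl
          rw [add_sub_cancel_right] at hm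
          refine not_inner_of_support (W := W') (f := -e) ?_ ?_ (y := y) ?_ iy
          · intro h2
            obtain ⟨A, hA, hAn⟩ := hC.full
            have h3 : A ⊆ {y} := by
              intro w hw
              rw [Finset.mem_singleton]
              by_contra hwy
              have := e3 _ (mem_rel.mp (hA hw)).1 (fun hh => (mem_rel.mp (hA hw)).2
                (by simpa using hh)) (fun hh => hwy (add_right_cancel hh))
              rw [h1] at this
              simp at this
            have h4 := Finset.card_le_card h3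
            rw [hAn.1, Finset.card_singleton] at h4
            omega
          · intro x hx
            show 0 ≤ -(e x)
            rw [h1]; simp
          · show -(e y) = 0
            rw [h1]; simp
        have := e3 _ (hsub (mS hy)) (fun hh => (mem_rel.mp hy).2 (by simpa using hh)) hyw
        rw [h1] at this
        simp at this
      · intro u hu
        show -(e z) ≤ -(e u)
        linarith [e2 u hu]
      · show -(e w) = -(e z)
        rw [e1]
    have hno2 : ¬ Inner W' (w - z) := by
      refine (cof_inner_iff hC' hm).mp ?_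
      rw [sub_add_cancel]
      exact hce.sub hsub
    have := (hcount _ hm hno2).2
    rw [sub_add_cancel] at this
    exact this he
  · intro p hp hpz hf
    by_contra hHp
    have hpS' : p ∈ S' := by
      by_contra hn
      exact hHp (hH p hp hn)
    have hm := sub_mem_rel hpS' hpz
    have h4 : 4 ≤ sdeg S (p - z + z) := by
      by_cases hi : Inner W' (p - z)
      · exact hin4 _ hm hi
      · exact (hcount _ hm hi).1
    rw [sub_add_cancel] at h4
    exact not_hasFrm_of_sdeg h4 hf

end

end Run7.h169
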