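import Pool.Agent.Run7.h169.Tf6

set_option autoImplicit false
open scoped Classical Topology
open Filter

namespace Run7.h169

section

variable {S : Finset E3}

theorem Cof3.perm12 {v x y : E3} (h : Cof3 S v x y) : Cof3 S x v y := by
  obtain ⟨f, f0, f1, f2, f3⟩ := h
  exact ⟨f, f0, fun z hz => by rw [f2]; exact f1 z hz, f2.symm, by rw [f3, f2]⟩

theorem Cof3.perm23 {v x y : E3} (h : Cof3 S v x y) : Cof3 S v y x := by
  obtain ⟨f, f0, f1, f2, f3⟩ := h
  exact ⟨f, f0, f1, f3, f2⟩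

/-- Three vertices that pairwise share a facet but do not share a common facet. -/
structure Sep (S : Finset E3) (v x y : E3) : Prop where
  hv : v ∈ S
  hx : x ∈ S
  hy : y ∈ S
  cvx : Cof S v x
  cvy : Cof S v y
  cxy : Cof S x y
  no : ¬ Cof3 S v x y

theorem Sep.perm12 {v x y : E3} (s : Sep S v x y) : Sep S x v y :=
  ⟨s.hx, s.hv, s.hy, s.cvx.symm, s.cxy, s.cvy, fun h => s.no h.perm12⟩

theorem Sep.perm23 {v x y : E3} (s : Sep S v x y) : Sep S v y x :=
  ⟨s.hv, s.hy, s.hx, s.cvy, s.cvx, s.cxy.symm, fun h => s.no h.perm23⟩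

theorem Bad.sep {v x y : E3} (b : Bad S v x y) : Sep S v x y :=
  ⟨b.hv, b.hx, b.hy, b.cx, b.cy, b.edge.cof b.hv b.vx b.vy, b.no⟩

/-- The section of the polytope by the plane of such a triple is a triangle. -/
theorem Sep.section {v x y : E3} (s : Sep S v x y) {h : E3 →ₗ[ℝ] ℝ} (h0 : h ≠ 0)
    (hx : h x = h v) (hy : h y = h v) {z : E3} (hz : z ∈ convexHull ℝ (S : Set E3))
    (hzv : h z = h v) : ∃ α β γ : ℝ, 0 ≤ α ∧ 0 ≤ β ∧ 0 ≤ γ ∧ α + β + γ = 1 ∧
      z = α • v + β • x + γ • y := by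
  obtain ⟨fx, fx0, fx1, fx2⟩ := s.cvx
  obtain ⟨fy, fy0, fy1, fy2⟩ := s.cvy
  obtain ⟨g, g0, g1, g2⟩ := s.cxy
  have k1 : 0 < fx (y - v) := by
    have h1 := fx1 y s.hy
    rw [map_sub]
    refine lt_of_le_of_ne (by linarith) (fun hh => s.no ⟨fx, fx0, fx1, fx2, by linarith⟩)
  have k2 : 0 < fy (x - v) := by
    have h1 := fy1 x s.hx
    rw [map_sub]
    refine lt_of_le_of_ne (by linarith) (fun hh => s.no ⟨fy, fy0, fy1, by linarith, fy2⟩)
  have k3 : g x < g v := by
    refine lt_of_le_of_ne (g1 v s.hv) (fun hh => s.no ⟨g, g0, ?_, hh, by rw [g2, hh]⟩)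
    intro z hz
    rw [← hh]
    exact g1 z hz
  obtain ⟨r, hr⟩ : ∃ r, h r ≠ 0 := by
    by_contra hcon
    push Not at hcon
    apply h0
    ext r
    exact hcon r
  have hN : Nice {r, y - v, x - v} := nice_of_functionals (f1 := h) (f2 := fx) (f3 := fy) hr
    (by rw [map_sub, hy, sub_self]) (by rw [map_sub, hx, sub_self]) k1.ne'
    (by rw [map_sub, fx2, sub_self]) k2.ne'
  have e := crd_sum3 hN (z - v)
  set a := crd {r, y - v, x - v} r (z - v)
  set β := crd {r, y - v, x - v} (y - v) (z - v)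
  set γ := crd {r, y - v, x - v} (x - v) (z - v)
  have ha : a = 0 := by
    have := congrArg h e
    simp only [map_add, map_smul, map_sub, hx, hy, hzv, sub_self, smul_eq_mul, mul_zero,
      add_zero] at this
    exact (mul_eq_zero.mp this).resolve_right hr
  rw [ha, zero_smul, zero_add] at e
  have hβ : 0 ≤ β := by
    have g1 := congrArg fx e
    rw [map_add, map_smul, map_smul, map_sub fx x v, fx2, sub_self, smul_zero, add_zero,
      smul_eq_mul, map_sub fx z v] at g1
    have g2 := hull_ge fx1 hz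
    have g3 : 0 ≤ β * fx (y - v) := by linarith
    exact nonneg_of_mul_nonneg_left g3 k1
  have hγ : 0 ≤ γ := by
    have g1 := congrArg fy e
    rw [map_add, map_smul, map_smul, map_sub fy y v, fy2, sub_self, smul_zero, zero_add,
      smul_eq_mul, map_sub fy z v] at g1
    have g2 := hull_ge fy1 hz
    have g3 : 0 ≤ γ * fy (x - v) := by linarith
    exact nonneg_of_mul_nonneg_left g3 k2
  refine ⟨1 - β - γ, γ, β, ?_, hγ, hβ, by ring, ?_⟩
  · have l1 := congrArg g e
    have l2 := hull_ge g1 hz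
    rw [map_add, map_smul, map_smul, map_sub, map_sub, map_sub, g2, smul_eq_mul,
      smul_eq_mul] at l1
    by_contra hneg
    push Not at hneg
    nlinarith
  · have : z = v + (β • (y - v) + γ • (x - v)) := by rw [e]; abel
    rw [this]; module

theorem Sep.exists_above {v x y : E3} (s : Sep S v x y) {h : E3 →ₗ[ℝ] ℝ} (h0 : h ≠ 0)
    (hx : h x = h v) (hy : h y = h v) : ∃ z ∈ S, h v < h z := by
  by_contra hcon
  push Not at hcon
  apply s.no
  refine ⟨-h, neg_ne_zero.mpr h0, ?_, ?_, ?_⟩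
  · intro z hz
    show -(h v) ≤ -(h z)
    have := hcon z hz
    linarith
  · show -(h x) = -(h v); rw [hx]
  · show -(h y) = -(h v); rw [hy]

theorem Sep.tri_mem (hS : ConvPos S) {v x y : E3} (s : Sep S v x y) {h : E3 →ₗ[ℝ] ℝ}
    (h0 : h ≠ 0) (hx : h x = h v) (hy : h y = h v) {c : E3} (hc : c ∈ S) (hcv : h c = h v) :
    c = v ∨ c = x ∨ c = y := by
  obtain ⟨α, β, γ, p1, p2, p3, p4, p5⟩ := s.section h0 hx hy (subset_convexHull ℝ _ hc) hcv
  exact hS.mem_triangle hc s.hv s.hx s.hy p1 p2 p3 p4 p5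

/-- A triple above the plane of a triple has a smaller cap. -/
theorem Sep.up_sub {v x y : E3} {h : E3 →ₗ[ℝ] ℝ} (s : Sep S v x y) (h0 : h ≠ 0)
    (hx : h x = h v) (hy : h y = h v)
    {w a c : E3} (hwv : h v < h w) (s' : Sep S w a c) (ha : h v ≤ h a) (hc : h v ≤ h c) :
    ∃ g : E3 →ₗ[ℝ] ℝ, g ≠ 0 ∧ g a = g w ∧ g c = g w ∧ (up S g w).card < (up S h v).card := by
  obtain ⟨s0, hs0, hs0'⟩ := s.exists_above (neg_ne_zero.mpr h0)
    (by show -(h x) = -(h v); rw [hx]) (by show -(h y) = -(h v); rw [hy])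
  have hs1 : h s0 < h v := by
    have : -(h v) < -(h s0) := hs0'
    linarith
  obtain ⟨h', h'0, h'a, h'c⟩ := exists_plane w a c
  have hne : h' s0 ≠ h' w := by
    intro hh
    obtain ⟨α, β, γ, p1, p2, p3, p4, p5⟩ := s'.section h'0 h'a h'c (subset_convexHull ℝ _ hs0) hh
    have e : h s0 = α * h w + β * h a + γ * h c := by rw [p5, map_tri]
    have : h v ≤ h s0 := by
      have e2 : h v = α * h v + β * h v + γ * h v := by
        rw [← add_mul, ← add_mul, p4, one_mul]
      rw [e, e2]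
      have := mul_le_mul_of_nonneg_left hwv.le p1
      have := mul_le_mul_of_nonneg_left ha p2
      have := mul_le_mul_of_nonneg_left hc p3
      linarith
    linarith
  obtain ⟨g, g0, ga, gc, gs⟩ : ∃ g : E3 →ₗ[ℝ] ℝ, g ≠ 0 ∧ g a = g w ∧ g c = g w ∧ g s0 < g w := by
    rcases lt_or_gt_of_ne hne with hlt | hgt
    · exact ⟨h', h'0, h'a, h'c, hlt⟩
    · refine ⟨-h', neg_ne_zero.mpr h'0, ?_, ?_, ?_⟩
      · show -(h' a) = -(h' w); rw [h'a]
      · show -(h' c) = -(h' w); rw [h'c]
      · show -(h' s0) < -(h' w); linarith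
  refine ⟨g, g0, ga, gc, Finset.card_lt_card ?_⟩
  rw [Finset.ssubset_iff_of_subset]
  · exact ⟨w, mem_up.mpr ⟨s'.hv, hwv⟩, fun hh => lt_irrefl _ (mem_up.mp hh).2⟩
  · intro u hu
    rw [mem_up] at hu ⊢
    refine ⟨hu.1, ?_⟩
    by_contra hle
    push Not at hle
    obtain ⟨t, t0, t1, tm, tS⟩ := cross gs hu.2 hs0 hu.1
    obtain ⟨α, β, γ, p1, p2, p3, p4, p5⟩ := s'.section g0 ga gc tS tm
    have e : (1 - t) * h s0 + t * h u = α * h w + β * h a + γ * h c := by
      rw [← map_seg, p5, map_tri]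
    have e2 : h v = α * h v + β * h v + γ * h v := by
      rw [← add_mul, ← add_mul, p4, one_mul]
    have := mul_le_mul_of_nonneg_left hwv.le p1
    have := mul_le_mul_of_nonneg_left ha p2
    have := mul_le_mul_of_nonneg_left hc p3
    have : (1 - t) * h s0 + t * h u < h v := by nlinarith
    linarith

/-- The segment `wa` meets the segment `vx`. -/
def Side (S : Finset E3) (v x w a : E3) : Prop :=
  ∀ f : E3 →ₗ[ℝ] ℝ, (∀ z ∈ S, f v ≤ f z) → f x = f v → f w = f v ∧ f a = f v

theorem Side.perm {v x w a : E3} (s : Side S v x w a) : Side S x v w a := by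
  intro f f1 f2
  obtain ⟨g1, g2⟩ := s f (fun z hz => by rw [f2]; exact f1 z hz) f2.symm
  exact ⟨by rw [g1, f2], by rw [g2, f2]⟩

/-- A vertex above the plane that shares a facet with a vertex below it. -/
theorem Sep.below {v x y : E3} (s : Sep S v x y) {h : E3 →ₗ[ℝ] ℝ} (h0 : h ≠ 0)
    (hx : h x = h v) (hy : h y = h v) {w a : E3} (hw : w ∈ S) (hwv : h v < h w)
    (ha : a ∈ S) (hav : h a < h v) (hc : Cof S w a) :
    Side S v x w a ∨ Side S v y w a ∨ Side S x y w a := by
  obtain ⟨fa, fa0, fa1, fa2⟩ := hc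
  obtain ⟨t, t0, t1, tm, tS⟩ := cross hav hwv ha hw
  obtain ⟨α, β, γ, p1, p2, p3, p4, p5⟩ := s.section h0 hx hy tS tm
  have key : ∀ f : E3 →ₗ[ℝ] ℝ, (1 - t) * f a + t * f w = α * f v + β * f x + γ * f y := by
    intro f
    rw [← map_seg, p5, map_tri]
  rcases eq_or_lt_of_le p3 with g | g
  · left
    intro f f1 f2
    have k := key f
    rw [← g, zero_mul, add_zero, f2, ← add_mul] at k
    have hs : α + β = 1 := by linarith
    rw [hs, one_mul] at k
    have := seg_eq t0 t1 (f1 a ha) (f1 w hw) k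
    exact ⟨this.2, this.1⟩
  · rcases eq_or_lt_of_le p2 with g2 | g2
    · right; left
      intro f f1 f2
      have k := key f
      rw [← g2, zero_mul, add_zero, f2, ← add_mul] at k
      have hs : α + γ = 1 := by linarith
      rw [hs, one_mul] at k
      have := seg_eq t0 t1 (f1 a ha) (f1 w hw) k
      exact ⟨this.2, this.1⟩
    · rcases eq_or_lt_of_le p1 with g1 | g1
      · right; right
        intro f f1 f2
        have k := key f
        rw [← g1, zero_mul, zero_add, f2, ← add_mul] at k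
        have hs : β + γ = 1 := by linarith
        rw [hs, one_mul] at k
        have := seg_eq t0 t1 (f1 a ha) (f1 w hw) k
        exact ⟨this.2, this.1⟩
      · exfalso
        have k := key fa
        rw [fa2] at k
        have hv1 := fa1 v s.hv
        have hx1 := fa1 x s.hx
        have hy1 := fa1 y s.hy
        have k2 : α * (fa v - fa w) + β * (fa x - fa w) + γ * (fa y - fa w) = 0 := by
          have : α * fa w + β * fa w + γ * fa w = fa w := by
            rw [← add_mul, ← add_mul, p4, one_mul]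
          linarith
        have q1 : 0 ≤ α * (fa v - fa w) := mul_nonneg p1 (by linarith)
        have q2 : 0 ≤ β * (fa x - fa w) := mul_nonneg p2 (by linarith)
        have q3 : 0 ≤ γ * (fa y - fa w) := mul_nonneg p3 (by linarith)
        have r1 : fa v - fa w = 0 := by
          have : α * (fa v - fa w) = 0 := by linarith
          exact (mul_eq_zero.mp this).resolve_left g1.ne'
        have r2 : fa x - fa w = 0 := by
          have : β * (fa x - fa w) = 0 := by linarith
          exact (mul_eq_zero.mp this).resolve_left g2.ne'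
        have r3 : fa y - fa w = 0 := by
          have : γ * (fa y - fa w) = 0 := by linarith
          exact (mul_eq_zero.mp this).resolve_left g.ne'
        exact s.no ⟨fa, fa0, fun z hz => by linarith [fa1 z hz], by linarith, by linarith⟩

/-- A vertex on three facets that contain the three pairs of a triple is simple. -/
theorem hasFrm_of_three {z t s r : E3} (hz : z ∈ S) (ht : t ∈ S) (hs : s ∈ S) (hr : r ∈ S)
    (h1 : Cof3 S z t s) (h2 : Cof3 S z s r) (h3 : Cof3 S z t r) (hno : ¬ Cof3 S t s r) :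
    HasFrm S z := by
  obtain ⟨f, f0, f1, f2, f3⟩ := h1
  obtain ⟨g, g0, g1, g2, g3⟩ := h2
  obtain ⟨k, k0, k1, k2, k3⟩ := h3
  have e1 : f z < f r := lt_of_le_of_ne (f1 r hr) (fun hh => hno ⟨f, f0,
    fun y hy => by rw [f2]; exact f1 y hy, by rw [f3, f2], by rw [← hh, f2]⟩)
  have e2 : g z < g t := lt_of_le_of_ne (g1 t ht) (fun hh => hno ⟨g, g0,
    fun y hy => by rw [← hh]; exact g1 y hy, by rw [g2, hh], by rw [g3, hh]⟩)
  have e3 : k z < k s := lt_of_le_of_ne (k1 s hs) (fun hh => hno ⟨k, k0,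
    fun y hy => by rw [k2]; exact k1 y hy, by rw [← hh, k2], by rw [k3, k2]⟩)
  have hN : Nice {t - z, s - z, r - z} := nice_of_functionals (f1 := g) (f2 := k) (f3 := f)
    (by rw [map_sub]; linarith) (by rw [map_sub, g2, sub_self]) (by rw [map_sub, g3, sub_self])
    (by rw [map_sub]; linarith) (by rw [map_sub, k3, sub_self]) (by rw [map_sub]; linarith)
  refine ⟨t, s, r, _, _, _, frm_of_nice hz ht hs hr hN ?_⟩
  intro y hy
  have e := crd_sum3 hN (y - z)
  refine ⟨_, _, _, ?_, ?_, ?_, e⟩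
  · have l1 := congrArg g e
    simp only [map_add, map_smul, map_sub g, g2, g3, sub_self, smul_eq_mul, mul_zero,
      add_zero] at l1
    have l2 := g1 y hy
    exact nonneg_of_mul_nonneg_left (by rw [l1]; linarith) (sub_pos.mpr e2)
  · have l1 := congrArg k e
    simp only [map_add, map_smul, map_sub k, k2, k3, sub_self, smul_eq_mul, mul_zero,
      add_zero, zero_add] at l1
    have l2 := k1 y hy
    exact nonneg_of_mul_nonneg_left (by rw [l1]; linarith) (sub_pos.mpr e3)
  · have l1 := congrArg f e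
    simp only [map_add, map_smul, map_sub f, f2, f3, sub_self, smul_eq_mul, mul_zero,
      zero_add] at l1
    have l2 := f1 y hy
    exact nonneg_of_mul_nonneg_left (by rw [l1]; linarith) (sub_pos.mpr e1)

/-- The main step: a triple reaching below the plane of a minimal triple. -/
theorem Sep.step (hS : ConvPos S) (hno : ∀ z ∈ S, ¬ HasFrm S z) {v x y : E3}
    (s : Sep S v x y) {h : E3 →ₗ[ℝ] ℝ} (h0 : h ≠ 0) (hx : h x = h v) (hy : h y = h v)
    (small : ∀ w b d : E3, Sep S w b d → h v < h w → h v ≤ h b → h v ≤ h d → False)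
    {z a c : E3} (hz : h v < h z) (ha : h a < h v) (s' : Sep S z a c) (side : Side S v x z a) :
    False := by
  obtain ⟨f, f0, f1, f2⟩ := s.cvx
  obtain ⟨fz, fa⟩ := side f f1 f2
  have fz1 : ∀ u ∈ S, f z ≤ f u := fun u hu => by rw [fz]; exact f1 u hu
  have nc : f c ≠ f v := fun hh => s'.no ⟨f, f0, fz1, by rw [fa, fz], by rw [hh, fz]⟩
  have c3 : ∀ b d : E3, b ∈ S → d ∈ S → h v ≤ h b → h v ≤ h d → Cof S z b → Cof S z d →
      Cof S b d → Cof3 S z b d := by
    intro b d hb hd hbh hdh cb cd cbd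
    by_contra hcon
    exact small z b d ⟨s'.hv, hb, hd, cb, cd, cbd, hcon⟩ hz hbh hdh
  have claimA : Cof S z y → False := by
    intro hcy
    have czv : Cof S z v := ⟨f, f0, fz1, fz.symm⟩
    have czx : Cof S z x := ⟨f, f0, fz1, by rw [f2, fz]⟩
    exact hno z s'.hv (hasFrm_of_three s'.hv s.hv s.hx s.hy
      (c3 v x s.hv s.hx le_rfl hx.ge czv czx s.cvx)
      (c3 x y s.hx s.hy hx.ge hy.ge czx hcy s.cxy)
      (c3 v y s.hv s.hy le_rfl hy.ge czv hcy s.cvy) s.no)
  have claimB : ∀ τ : E3, τ ∈ S → h τ = h v → f τ = f v → ∀ F : E3 →ₗ[ℝ] ℝ, F ≠ 0 →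
      (∀ u ∈ S, F τ ≤ F u) → F a = F τ → F c = F τ → h v < h c → False := by
    intro τ hτ hτh fτ F F0 F1 Fa Fc hch
    have fτ1 : ∀ u ∈ S, f τ ≤ f u := fun u hu => by rw [fτ]; exact f1 u hu
    have cτc : Cof S τ c := ⟨F, F0, F1, Fc⟩
    have czτ : Cof S z τ := ⟨f, f0, fz1, by rw [fτ, fz]⟩
    have h3 := c3 τ c hτ s'.hy hτh.ge hch.le czτ s'.cvy cτc
    exact hno τ hτ (hasFrm_of_three hτ s'.hv s'.hx s'.hy
      ⟨f, f0, fτ1, by rw [fz, fτ], by rw [fa, fτ]⟩ ⟨F, F0, F1, Fa, Fc⟩ h3.perm12 s'.no)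
  obtain ⟨fy, fy0, fy1, fy2⟩ := s.cvy
  obtain ⟨g, g0, g1, g2⟩ := s.cxy
  rcases lt_trichotomy (h c) (h v) with hc | hc | hc
  · rcases s.below h0 hx hy s'.hv hz s'.hy hc s'.cvy with sd | sd | sd
    · exact nc (sd f f1 f2).2
    · have k := (sd fy fy1 fy2).1
      exact claimA ⟨fy, fy0, fun u hu => by rw [k]; exact fy1 u hu, by rw [fy2, k]⟩
    · have k := (sd g g1 g2).1
      exact claimA ⟨g, g0, fun u hu => by rw [k]; exact g1 u hu, by rw [g2, k]⟩
  · rcases s.tri_mem hS h0 hx hy s'.hy hc with rfl | rfl | rfl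
    · exact nc rfl
    · exact nc f2
    · exact claimA s'.cvy
  · rcases s.below h0 hx hy s'.hy hc s'.hx ha s'.cxy.symm with sd | sd | sd
    · exact nc (sd f f1 f2).1
    · have k := sd fy fy1 fy2
      exact claimB v s.hv rfl rfl fy fy0 fy1 k.2 k.1 hc
    · have k := sd g g1 g2
      exact claimB x s.hx hx f2 g g0 g1 k.2 k.1 hc

/-- A vertex in no such triple exists if there is no simple vertex. -/
theorem exists_noSep (hS : ConvPos S) (hne : S.Nonempty) (hno : ∀ z ∈ S, ¬ HasFrm S z) :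
    ∃ z ∈ S, ∀ a c, ¬ Sep S z a c := by
  by_cases hex : ∃ n : ℕ, ∃ (v x y : E3) (h : E3 →ₗ[ℝ] ℝ), Sep S v x y ∧ h ≠ 0 ∧ h x = h v ∧
      h y = h v ∧ (up S h v).card = n
  · obtain ⟨v, x, y, h, s, h0, hx, hy, hn⟩ := Nat.find_spec hex
    have small : ∀ w b d : E3, Sep S w b d → h v < h w → h v ≤ h b → h v ≤ h d → False := by
      intro w b d s' hw hb hd
      obtain ⟨g, g0, gb, gd, hlt⟩ := s.up_sub h0 hx hy hw s' hb hd
      rw [hn] at hlt
      exact Nat.find_min hex hlt ⟨w, b, d, g, s', g0, gb, gd, rfl⟩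
    obtain ⟨z, hz, hzv⟩ := s.exists_above h0 hx hy
    refine ⟨z, hz, ?_⟩
    have main : ∀ a c, Sep S z a c → h a < h v → False := by
      intro a c s' ha
      rcases s.below h0 hx hy hz hzv s'.hx ha s'.cvx with sd | sd | sd
      · exact s.step hS hno h0 hx hy small hzv ha s' sd
      · exact s.perm23.step hS hno h0 hy hx small hzv ha s' sd
      · refine s.perm12.perm23.step hS hno (h := h) h0 (by rw [hy, hx]) hx.symm ?_ ?_ ?_ s' sd
        · rw [hx]; exact small
        · rw [hx]; exact hzv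
        · rw [hx]; exact ha
    intro a c s'
    rcases lt_or_ge (h a) (h v) with ha | ha
    · exact main a c s' ha
    · rcases lt_or_ge (h c) (h v) with hc | hc
      · exact main c a s'.perm23 hc
      · exact small z a c s' hzv ha hc
  · obtain ⟨z, hz⟩ := hne
    refine ⟨z, hz, ?_⟩
    intro a c s
    obtain ⟨h, h0, hx, hy⟩ := exists_plane z a c
    exact hex ⟨_, z, a, c, h, s, h0, hx, hy, rfl⟩

end

end Run7.h169
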