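import Pool.Agent.Run7.h169.Qv2

set_option autoImplicit false
open scoped Classical Topology
open Filter

namespace Run7.h169

section

variable {S : Finset E3} {z : E3}

/-- A boundary edge of the fan is an edge. -/
theorem Fan.boundary_edge {W : Finset E3} {B : Finset (Finset E3)} (hC : Cfg W) (hF : Fan W B)
    {p q : E3} (hp : p ∈ W) (hq : q ∈ W) (hpq : p ≠ q) (hcnt : cnt B p q = 1) :
    IsEdge0 W p q := by
  obtain ⟨⟨r, hr⟩, _⟩ := hF.boundary_data hC hp hq hpq hcnt
  apply hF.edge_of_face hC (π := gfun {p, q, r} (fun _ => 1)) hpq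
  have h1 : 0 < cnt (bp B (gfun {p, q, r} (fun _ => 1))) p q :=
    cnt_pos (mem_bp.mpr ⟨hr, rfl⟩) (by simp) (by simp)
  have h2 : cnt (bp B (gfun {p, q, r} (fun _ => 1))) p q ≤ cnt B p q :=
    cnt_mono (fun τ hτ => (mem_bp.mp hτ).1) p q
  omega

/-- A vertex with more than three neighbours is not simple. -/
theorem not_hasFrm_of_sdeg (hd : 4 ≤ sdeg S z) : ¬ HasFrm S z := by
  rintro ⟨a1, a2, a3, φ1, φ2, φ3, hf⟩
  have : (S.filter (fun q => IsEdgeS S z q)).card ≤ ({a1, a2, a3} : Finset E3).card := by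
    apply Finset.card_le_card
    intro q hq
    obtain ⟨h1, h2⟩ := Finset.mem_filter.mp hq
    simp only [Finset.mem_insert, Finset.mem_singleton]
    exact hf.neighbour h1 h2
  have h3 : ({a1, a2, a3} : Finset E3).card ≤ 3 := Finset.card_le_three
  unfold sdeg at hd
  omega

/-- A facet plane through an edge at the apex. -/
theorem exists_rot {W : Finset E3} (hC : Cfg W) {a : E3} (ha : a ∈ W) {E : E3 →ₗ[ℝ] ℝ}
    (Ea : E a = 0) (Epos : ∀ w ∈ W, w ≠ a → 0 < E w) :
    ∃ g : E3 →ₗ[ℝ] ℝ, g ≠ 0 ∧ (∀ w ∈ W, 0 ≤ g w) ∧ g a = 0 ∧ ∃ w0 ∈ W, w0 ≠ a ∧ g w0 = 0 := by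
  obtain ⟨r, hr⟩ : (W.erase a).Nonempty := by
    obtain ⟨A, hA, hAn⟩ := hC.full
    have h3 := Finset.card_le_card hA
    rw [hAn.1] at h3
    apply Finset.card_pos.mp
    rw [Finset.card_erase_of_mem ha]
    omega
  obtain ⟨f, f0, fa, fr⟩ := exists_functional a r
  obtain ⟨w0, hw0, hmin⟩ := Finset.exists_min_image (W.erase a) (fun w => f w / E w) ⟨r, hr⟩
  obtain ⟨w0a, w0W⟩ := Finset.mem_erase.mp hw0
  obtain ⟨ra, rW⟩ := Finset.mem_erase.mp hr
  have E0 := Epos w0 w0W w0a
  have Er := Epos r rW ra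
  set m := f w0 / E w0 with hm
  have gw0 : f w0 - m * E w0 = 0 := by rw [hm]; field_simp; ring
  refine ⟨f - m • E, ?_, ?_, ?_, w0, w0W, w0a, gw0⟩
  · intro h0
    have h1 : f r - m * E r = 0 := by
      have : (f - m • E) r = 0 := by rw [h0]; rfl
      exact this
    rw [fr, zero_sub, neg_eq_zero] at h1
    have m0 : m = 0 := (mul_eq_zero.mp h1).resolve_right Er.ne'
    rw [m0, zero_smul, sub_zero] at h0
    exact f0 h0
  · intro w hw
    show 0 ≤ f w - m * E w
    by_cases hwa : w = a
    · rw [hwa, fa, Ea]; simp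
    · have h1 : m ≤ f w / E w := hmin w (Finset.mem_erase.mpr ⟨hwa, hw⟩)
      rw [le_div_iff₀ (Epos w hw hwa)] at h1
      linarith
  · show f a - m * E a = 0
    rw [fa, Ea]; simp

/-- Every vertex has degree four. -/
def Val4 (S : Finset E3) : Prop := ∀ p ∈ S, sdeg S p = 4

theorem Val4.no_frm (hd : Val4 S) : ∀ p ∈ S, ¬ HasFrm S p :=
  fun p hp => not_hasFrm_of_sdeg (hd p hp).ge

/-- The neighbours seen from the apex. -/
theorem deg_le_sdeg {p : E3} : deg (rel S z) p ≤ sdeg S (p + z) := by
  apply Finset.card_le_card_of_injOn (fun q => q + z)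
  · intro q hq
    rw [Finset.mem_coe, Finset.mem_filter] at hq
    rw [Finset.mem_coe]
    exact Finset.mem_filter.mpr ⟨(mem_rel.mp hq.1).1, Frm.edge_rel hq.2⟩
  · intro a _ b _ hab
    exact add_right_cancel hab

theorem deg_succ_le_sdeg (hz : z ∈ S) {p : E3} (he : IsEdgeS S (p + z) z) :
    deg (rel S z) p + 1 ≤ sdeg S (p + z) := by
  have h1 : ((rel S z).filter (fun q => IsEdge0 (rel S z) p q)).card ≤
      ((S.filter (fun q => IsEdgeS S (p + z) q)).erase z).card := by
    apply Finset.card_le_card_of_injOn (fun q => q + z)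
    · intro q hq
      rw [Finset.mem_coe, Finset.mem_filter] at hq
      obtain ⟨q1, q2⟩ := mem_rel.mp hq.1
      rw [Finset.mem_coe, Finset.mem_erase]
      refine ⟨fun hh => q2 ?_, Finset.mem_filter.mpr ⟨q1, Frm.edge_rel hq.2⟩⟩
      have : q + z = 0 + z := by rw [zero_add]; exact hh
      exact add_right_cancel this
    · intro a _ b _ hab
      exact add_right_cancel hab
  have h2 : z ∈ S.filter (fun q => IsEdgeS S (p + z) q) := Finset.mem_filter.mpr ⟨hz, he⟩
  rw [Finset.card_erase_of_mem h2] at h1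
  have h3 := Finset.card_pos.mpr ⟨z, h2⟩
  unfold deg sdeg
  omega

/-- The corner: an outer vertex with exactly one inner neighbour. -/
theorem exists_root (hS : ConvPos S) (hspan : affineSpan ℝ (S : Set E3) = ⊤) (hd : Val4 S)
    (hz : z ∈ S) (hsep : ∀ a c, ¬ Sep S z a c) :
    ∃ a ∈ rel S z, ¬ Inner (rel S z) a ∧ ∃ p ∈ rel S z, Inner (rel S z) p ∧
      IsEdge0 (rel S z) a p ∧
      ∀ q ∈ rel S z, Inner (rel S z) q → IsEdge0 (rel S z) a q → q = p := by
  have hC : Cfg (rel S z) := cfg_rel hS hspan hz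
  obtain ⟨B, hF⟩ := fan_exists hC
  obtain ⟨M, m1, m2, m3, _⟩ := exists_nbrs hS hspan hz
  obtain ⟨a, haM⟩ : M.Nonempty := Finset.card_pos.mp (by omega)
  have ha := m1 haM
  have hea := m2 a haM
  obtain ⟨ha1, ha2⟩ := mem_rel.mp ha
  obtain ⟨e, e1, e2, e3⟩ := hea.le
  set W := rel S z with hW
  have mS : ∀ {w : E3}, w ∈ W → w + z ∈ S := fun hw => (mem_rel.mp hw).1
  have Ea : (-e) a = 0 := by
    show -(e a) = 0
    rw [map_add] at e1
    linarith
  have Epos : ∀ w ∈ W, w ≠ a → 0 < (-e) w := by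
    intro w hw hwa
    have h1 := e3 _ (mS hw) (fun hh => (mem_rel.mp hw).2 (by
      have : w + z = 0 + z := by rw [zero_add]; exact hh
      exact add_right_cancel this)) (fun hh => hwa (add_right_cancel hh))
    rw [map_add] at h1
    show 0 < -(e w)
    linarith
  obtain ⟨g, g0, g1, g2, w0, w1, w2, w3⟩ := exists_rot hC ha Ea Epos
  have na : ¬ Inner W a := not_inner_of_support g0 g1 g2
  obtain ⟨u, hu, cu⟩ := hF.boundary_nbr hC g0 g1 ha w1 w2 g2 w3
  obtain ⟨x, hx, hxu, cx⟩ := exists_second B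
    (fun τ hτ => ⟨hF.sub τ hτ, (hF.nice τ hτ).1⟩) hu cu
    (fun x hx => hF.cnt_le (Ne.symm (Finset.mem_erase.mp hx).1))
  obtain ⟨ua, uW⟩ := Finset.mem_erase.mp hu
  obtain ⟨xa, xW⟩ := Finset.mem_erase.mp hx
  have eu := hF.boundary_edge hC ha uW ua.symm cu
  have ex := hF.boundary_edge hC ha xW xa.symm cx
  have nu : ¬ Inner W u := by
    obtain ⟨_, f, f0, f1, f2, f3⟩ := hF.boundary_data hC ha uW ua.symm cu
    exact not_inner_of_support f0 f1 f3
  have nx : ¬ Inner W x := by
    obtain ⟨_, f, f0, f1, f2, f3⟩ := hF.boundary_data hC ha xW xa.symm cx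
    exact not_inner_of_support f0 f1 f3
  have hdeg : deg W a = 3 := by
    have h1 := deg_succ_le_sdeg hz hea.symm
    obtain ⟨k, _, k2, k3, _⟩ := deg_ge hS hspan hz ha
    have h4 := k2 (hd.no_frm _ ha1)
    have h5 := hd _ ha1
    rw [← hW] at h1 k3
    omega
  set N := W.filter (fun q => IsEdge0 W a q) with hN
  have hN3 : N.card = 3 := hdeg
  have huN : u ∈ N := Finset.mem_filter.mpr ⟨uW, eu⟩
  have hxN : x ∈ N := Finset.mem_filter.mpr ⟨xW, ex⟩
  have hsub : ({u, x} : Finset E3) ⊆ N := by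
    intro y hy
    rw [Finset.mem_insert, Finset.mem_singleton] at hy
    rcases hy with rfl | rfl
    · exact huN
    · exact hxN
  have h1 : (N \ {u, x}).card = 1 := by
    rw [Finset.card_sdiff_of_subset hsub, hN3, Finset.card_pair hxu.symm]
  obtain ⟨p, hp⟩ := Finset.card_eq_one.mp h1
  have hpm : p ∈ N \ {u, x} := by rw [hp]; simp
  obtain ⟨hpN, hpn⟩ := Finset.mem_sdiff.mp hpm
  rw [Finset.mem_insert, Finset.mem_singleton, not_or] at hpn
  obtain ⟨pW, ep⟩ := Finset.mem_filter.mp hpN
  have ip : Inner W p := by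
    by_contra np
    obtain ⟨r, hr⟩ := hF.edge_cover hC ha pW ep
    have c1 := cnt_pos hr (show a ∈ ({a, p, r} : Finset E3) by simp)
      (show p ∈ ({a, p, r} : Finset E3) by simp)
    have c2 : ¬ 2 ≤ cnt B a p := by
      intro hc
      obtain ⟨r1, r2, hrr, b1, b2⟩ := two_of_cnt hF ep.1 hc
      exact hsep _ _ (bad_of_chord hC hz ha pW na np ep (hF.two_inner b1 b2 hrr)).sep
    have c3 : cnt B a p = 1 := by omega
    have h2 := hF.boundary_le_two hC ha
    have h3 : ({u, x, p} : Finset E3).card ≤ (W.filter (fun x => x ≠ a ∧ cnt B a x = 1)).card := by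
      apply Finset.card_le_card
      intro y hy
      rw [Finset.mem_insert, Finset.mem_insert, Finset.mem_singleton] at hy
      rw [Finset.mem_filter]
      rcases hy with rfl | rfl | rfl
      · exact ⟨uW, ua, cu⟩
      · exact ⟨xW, xa, cx⟩
      · exact ⟨pW, ep.1.symm, c3⟩
    rw [Finset.card_eq_three.mpr ⟨u, x, p, hxu.symm, Ne.symm hpn.1, Ne.symm hpn.2, rfl⟩] at h3
    omega
  refine ⟨a, ha, na, p, pW, ip, ep, ?_⟩
  intro q hq iq eq
  have : q ∈ N \ {u, x} := by
    rw [Finset.mem_sdiff]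
    refine ⟨Finset.mem_filter.mpr ⟨hq, eq⟩, ?_⟩
    rw [Finset.mem_insert, Finset.mem_singleton, not_or]
    exact ⟨by rintro rfl; exact nu iq, by rintro rfl; exact nx iq⟩
  rw [hp, Finset.mem_singleton] at this
  exact this

/-- Polytopes in which every vertex has degree four have Hamiltonian tetrahedralizations. -/
theorem val4_hasHamTet (hS : ConvPos S) (hspan : affineSpan ℝ (S : Set E3) = ⊤) (hd : Val4 S) :
    HasHamTet S := by
  have hne : S.Nonempty := by
    by_contra h
    rw [Finset.not_nonempty_iff_eq_empty] at h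
    rw [h] at hspan
    simp at hspan
  obtain ⟨z, hz, hsep⟩ := exists_noSep hS hne hd.no_frm
  have hC : Cfg (rel S z) := cfg_rel hS hspan hz
  obtain ⟨a, ha, na, p0, hp0, ip0, _, huniq⟩ := exists_root hS hspan hd hz hsep
  set W := rel S z with hW
  set I := W.filter (Inner W) with hI
  have hdeg : ∀ p ∈ W, (W.filter (fun q => IsEdge0 W p q)).card ≤ 4 := by
    intro p hp
    have h1 : deg W p ≤ sdeg S (p + z) := deg_le_sdeg
    rw [hd _ (mem_rel.mp hp).1] at h1
    exact h1
  have hirr : ∀ x, ¬ IsEdge0 W x x := fun x hx => hx.1 rfl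
  -- colour everything except the root
  obtain ⟨χ, ρ, hχ0, hχ⟩ := greedy_deg (IsEdge0 W) hirr (fun _ => true) (I.erase p0).card
    (W.erase p0) (I.erase p0) rfl (Finset.erase_subset_erase _ (Finset.filter_subset _ _)) (by
      intro X hX hXne
      by_contra hcon
      push Not at hcon
      have hXI : X ⊆ I := hX.trans (Finset.erase_subset _ _)
      have hcl : ∀ p ∈ X, ∀ q ∈ W, Inner W q → IsEdge0 W p q → q ∈ X := by
        intro p hp q hq iq he
        have hpW := (Finset.mem_filter.mp (hXI hp)).1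
        have h4 := hcon p hp
        have hsub : (W.erase p0).filter (fun q => IsEdge0 W p q ∧ (q ∈ X ∨ q ∉ I.erase p0)) ⊆
            W.filter (fun q => IsEdge0 W p q) := by
          intro y hy
          obtain ⟨y1, y2, _⟩ := Finset.mem_filter.mp hy
          exact Finset.mem_filter.mpr ⟨Finset.mem_of_mem_erase y1, y2⟩
        have heq := Finset.eq_of_subset_of_card_le hsub (by
          have := hdeg p hpW
          omega)
        have hqm : q ∈ W.filter (fun q => IsEdge0 W p q) := Finset.mem_filter.mpr ⟨hq, he⟩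
        rw [← heq, Finset.mem_filter] at hqm
        obtain ⟨q1, _, q3⟩ := hqm
        rcases q3 with h | h
        · exact h
        · exact absurd (Finset.mem_erase.mpr ⟨(Finset.mem_erase.mp q1).1,
            Finset.mem_filter.mpr ⟨hq, iq⟩⟩) h
      have := inner_connected hS hspan hz (hd.no_frm z hz) hsep hXI hXne hcl hp0 ip0
      exact (Finset.mem_erase.mp (hX this)).1 rfl)
  have hap : a ≠ p0 := by rintro rfl; exact na ip0
  -- the colour of the root
  obtain ⟨c, hc⟩ : ∃ c : Bool, ∀ x ∈ W, ∀ y ∈ W, x ≠ a → y ≠ a → IsEdge0 W p0 x →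
      IsEdge0 W p0 y → χ x = c → χ y = c → x = y := by
    by_cases hea : IsEdge0 W p0 a
    · by_cases ht : ∀ x ∈ W, ∀ y ∈ W, x ≠ a → y ≠ a → IsEdge0 W p0 x →
          IsEdge0 W p0 y → χ x = true → χ y = true → x = y
      · exact ⟨true, ht⟩
      · push Not at ht
        obtain ⟨x0, hx0, y0, hy0, x0a, y0a, ex0, ey0, cx0, cy0, hxy⟩ := ht
        refine ⟨false, ?_⟩
        intro x hx y hy xa ya ex ey cx cy
        have d1 : x ≠ x0 := by rintro rfl; rw [cx0] at cx; simp at cx
        have d2 : x ≠ y0 := by rintro rfl; rw [cy0] at cx; simp at cx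
        have d3 : y ≠ x0 := by rintro rfl; rw [cx0] at cy; simp at cy
        have d4 : y ≠ y0 := by rintro rfl; rw [cy0] at cy; simp at cy
        by_contra hne'
        have hsub : ({a, x0, y0, x, y} : Finset E3) ⊆ W.filter (fun q => IsEdge0 W p0 q) := by
          intro t ht
          rw [Finset.mem_filter]
          simp only [Finset.mem_insert, Finset.mem_singleton] at ht
          rcases ht with rfl | rfl | rfl | rfl | rfl
          · exact ⟨ha, hea⟩
          · exact ⟨hx0, ex0⟩
          · exact ⟨hy0, ey0⟩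
          · exact ⟨hx, ex⟩
          · exact ⟨hy, ey⟩
        have h5 : ({a, x0, y0, x, y} : Finset E3).card = 5 := by
          rw [Finset.card_insert_of_notMem, Finset.card_insert_of_notMem,
            Finset.card_insert_of_notMem, Finset.card_pair hne']
          · simp only [Finset.mem_insert, Finset.mem_singleton, not_or]
            exact ⟨Ne.symm d2, Ne.symm d4⟩
          · simp only [Finset.mem_insert, Finset.mem_singleton, not_or]
            exact ⟨hxy, Ne.symm d1, Ne.symm d3⟩
          · simp only [Finset.mem_insert, Finset.mem_singleton, not_or]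
            exact ⟨x0a.symm, y0a.symm, xa.symm, ya.symm⟩
        have h6 := Finset.card_le_card hsub
        rw [h5] at h6
        have := hdeg p0 hp0
        omega
    · exact absurd (by assumption : IsEdge0 W a p0).symm hea
  set M := I.sup ρ with hM
  set χ' : E3 → Bool := fun x => if x = p0 then c else if x = a then !c else χ x with hχ'
  set ρ' : E3 → ℕ := fun x => if x = p0 then M + 1 else ρ x with hρ'
  have χp : χ' p0 = c := by rw [hχ']; beta_reduce; rw [if_pos rfl]
  have χa : χ' a = !c := by rw [hχ']; beta_reduce; rw [if_neg hap, if_pos rfl]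
  have χo : ∀ x, x ≠ p0 → x ≠ a → χ' x = χ x := by
    intro x h1 h2; rw [hχ']; beta_reduce; rw [if_neg h1, if_neg h2]
  have ρp : ρ' p0 = M + 1 := by rw [hρ']; beta_reduce; rw [if_pos rfl]
  have ρo : ∀ x, x ≠ p0 → ρ' x = ρ x := by
    intro x h1; rw [hρ']; beta_reduce; rw [if_neg h1]
  have hpre : PreCol S z χ' a := by
    refine ⟨⟨ρ', ?_⟩, ?_, ?_⟩
    · intro p hp ip x hx y hy ex ey cx cy rx ry
      by_cases hpp : p = p0
      · subst hpp
        have hxp : x ≠ p := ex.1.symm
        have hyp : y ≠ p := ey.1.symm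
        have hxa : x ≠ a := by
          rintro rfl
          rw [χa, χp] at cx
          cases c <;> simp at cx
        have hya : y ≠ a := by
          rintro rfl
          rw [χa, χp] at cy
          cases c <;> simp at cy
        rw [χo x hxp hxa, χp] at cx
        rw [χo y hyp hya, χp] at cy
        exact hc x hx y hy hxa hya ex ey cx cy
      · have pa : p ≠ a := by rintro rfl; exact na ip
        have hρp : ρ p ≤ M := Finset.le_sup (f := ρ) (Finset.mem_filter.mpr ⟨hp, ip⟩)
        have key : ∀ x ∈ W, IsEdge0 W p x → (Inner W x → ρ' x ≤ ρ' p) → x ≠ p0 ∧ x ≠ a := by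
          intro x hx ex rx
          constructor
          · rintro rfl
            have := rx ip0
            rw [ρp, ρo p hpp] at this
            omega
          · rintro rfl
            exact hpp (huniq p hp ip ex.symm)
        obtain ⟨x1, x2⟩ := key x hx ex rx
        obtain ⟨y1, y2⟩ := key y hy ey ry
        rw [χo x x1 x2, χo p hpp pa] at cx
        rw [χo y y1 y2, χo p hpp pa] at cy
        refine hχ p (Finset.mem_erase.mpr ⟨hpp, Finset.mem_filter.mpr ⟨hp, ip⟩⟩) x
          (Finset.mem_erase.mpr ⟨x1, hx⟩) y (Finset.mem_erase.mpr ⟨y1, hy⟩) ex ey cx cy ?_ ?_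
        · intro hxI
          have := rx (Finset.mem_filter.mp (Finset.mem_of_mem_erase hxI)).2
          rwa [ρo x x1, ρo p hpp] at this
        · intro hyI
          have := ry (Finset.mem_filter.mp (Finset.mem_of_mem_erase hyI)).2
          rwa [ρo y y1, ρo p hpp] at this
    · intro x hx nx cx
      by_contra hxa
      have hxp : x ≠ p0 := by rintro rfl; exact nx ip0
      rw [χo x hxp hxa, hχ0 x (fun hh =>
        nx (Finset.mem_filter.mp (Finset.mem_of_mem_erase hh)).2)] at cx
      simp at cx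
    · intro p hp r hr np nr he _ hin
      exact absurd (bad_of_chord hC hz hp hr np nr he hin).sep (hsep _ _)
  exact PreCol.hasHamTet _ S rfl hS hspan hz hpre

end

end Run7.h169
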