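import Pool.Agent.Run7.h169.Trans

set_option autoImplicit false
open scoped Classical Topology
open Filter

namespace Run7.h169

/-- Membership in the hull of a finite set. -/
theorem mem_hull {t : Finset E3} {z : E3} :
    z ∈ convexHull ℝ (t : Set E3) ↔
      ∃ c : E3 → ℝ, (∀ x ∈ t, 0 ≤ c x) ∧ ∑ x ∈ t, c x = 1 ∧ ∑ x ∈ t, c x • x = z := by
  rw [Finset.mem_convexHull']

/-- Uniqueness of barycentric coordinates. -/
theorem bary_unique {t : Finset E3} (h : AffineIndependent ℝ (fun x : t => (x.1 : E3)))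
    {c d : E3 → ℝ} (h1 : ∑ x ∈ t, c x = ∑ x ∈ t, d x)
    (h2 : ∑ x ∈ t, c x • x = ∑ x ∈ t, d x • x) {x : E3} (hx : x ∈ t) : c x = d x := by
  rw [affineIndependent_iff] at h
  have := h Finset.univ (fun x => c x.1 - d x.1) (by
    rw [Finset.sum_coe_sort t (fun x => c x - d x), Finset.sum_sub_distrib, h1, sub_self]) (by
    rw [Finset.sum_coe_sort t (fun x => (c x - d x) • x)]
    simp only [sub_smul, Finset.sum_sub_distrib, h2, sub_self]) ⟨x, hx⟩ (Finset.mem_univ _)
  have h3 : c x - d x = 0 := this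
  linarith

/-- The support of a point of a face. -/
theorem support_face {t s : Finset E3} (h : AffineIndependent ℝ (fun x : t => (x.1 : E3)))
    (hs : s ⊆ t) {z : E3} (hz : z ∈ convexHull ℝ (s : Set E3)) {c : E3 → ℝ}
    (h1 : ∑ x ∈ t, c x = 1) (h2 : ∑ x ∈ t, c x • x = z) {x : E3} (hx : x ∈ t) (hxs : x ∉ s) :
    c x = 0 := by
  obtain ⟨d, hd0, hd1, hd2⟩ := mem_hull.mp hz
  have e1 : ∑ x ∈ t, (if x ∈ s then d x else 0) = 1 := by
    rw [← Finset.sum_subset hs (f := fun x => if x ∈ s then d x else 0)]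
    · rw [← hd1]
      apply Finset.sum_congr rfl
      intro x hx; simp [hx]
    · intro x _ hx; simp [hx]
  have e2 : ∑ x ∈ t, (if x ∈ s then d x else 0) • x = z := by
    rw [← Finset.sum_subset hs (f := fun x => (if x ∈ s then d x else 0) • x)]
    · rw [← hd2]
      apply Finset.sum_congr rfl
      intro x hx; simp [hx]
    · intro x _ hx; simp [hx]
  have := bary_unique h (c := c) (d := fun x => if x ∈ s then d x else 0) (by rw [h1, e1])
    (by rw [h2, e2]) hx
  rw [this, if_neg hxs]

/-- A point with barycentric coordinates supported on a subset. -/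
theorem mem_hull_of_support {t s : Finset E3} {z : E3} {c : E3 → ℝ} (h0 : ∀ x ∈ t, 0 ≤ c x)
    (h1 : ∑ x ∈ t, c x = 1) (h2 : ∑ x ∈ t, c x • x = z) (hs : ∀ x ∈ t, c x ≠ 0 → x ∈ s) :
    z ∈ convexHull ℝ (s : Set E3) := by
  have e1 : ∑ x ∈ t.filter (fun x => x ∈ s), c x = 1 := by
    rw [Finset.sum_filter, ← h1]
    apply Finset.sum_congr rfl
    intro x hx
    by_cases hxs : x ∈ s
    · simp [hxs]
    · have : c x = 0 := by
        by_contra hne
        exact hxs (hs x hx hne)
      simp [this]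
  have e2 : ∑ x ∈ t.filter (fun x => x ∈ s), c x • x = z := by
    rw [Finset.sum_filter, ← h2]
    apply Finset.sum_congr rfl
    intro x hx
    by_cases hxs : x ∈ s
    · simp [hxs]
    · have : c x = 0 := by
        by_contra hne
        exact hxs (hs x hx hne)
      simp [this]
  have : z ∈ convexHull ℝ ((t.filter (fun x => x ∈ s) : Finset E3) : Set E3) :=
    mem_hull.mpr ⟨c, fun x hx => h0 x (Finset.mem_filter.mp hx).1, e1, e2⟩
  refine convexHull_mono ?_ this
  intro x hx
  exact (Finset.mem_filter.mp (Finset.mem_coe.mp hx)).2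

/-- Two tetrahedra on the same side of a common triangle overlap. -/
theorem overlap {Φ : Finset E3} (hΦ : Φ.Nonempty) {u w : E3} (hu : u ∉ Φ) (hw : w ∉ Φ)
    (huw : u ≠ w)
    (hai : AffineIndependent ℝ (fun x : (insert u Φ : Finset E3) => (x.1 : E3)))
    (hint : convexHull ℝ ((insert u Φ : Finset E3) : Set E3) ∩
      convexHull ℝ ((insert w Φ : Finset E3) : Set E3) =
        convexHull ℝ ((insert u Φ ∩ insert w Φ : Finset E3) : Set E3))
    {ρ : ℝ} {e : E3 → ℝ} (hρ : 0 < ρ) (hs : ρ + ∑ x ∈ Φ, e x = 1)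
    (hsum : ρ • w + ∑ x ∈ Φ, e x • x = u) : False := by
  set N : ℝ := (Φ.card : ℝ) with hN
  have hNpos : 0 < N := by
    rw [hN]; exact_mod_cast Finset.card_pos.mpr hΦ
  -- choose a small parameter
  obtain ⟨ε, hε0, hε1, hε⟩ : ∃ ε : ℝ, 0 < ε ∧ ε < 1 ∧ ∀ x ∈ Φ, 0 ≤ (1 - ε) / N + ε * e x := by
    have h1 : ∀ᶠ ε in 𝓝[>] (0 : ℝ), ∀ x ∈ Φ, 0 < 1 / N + ε * (e x - 1 / N) := by
      rw [Filter.eventually_all_finset]
      intro x _
      exact ev_pos (by positivity)
    have h2 : ∀ᶠ ε in 𝓝[>] (0 : ℝ), 0 < 1 + ε * (-1) := ev_pos one_pos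
    have h3 : ∀ᶠ ε in 𝓝[>] (0 : ℝ), 0 < ε := self_mem_nhdsWithin
    obtain ⟨ε, a1, a2, a3⟩ := (h1.and (h2.and h3)).exists
    refine ⟨ε, a3, by linarith, fun x hx => ?_⟩
    have := a1 x hx
    have e' : (1 - ε) / N + ε * e x = 1 / N + ε * (e x - 1 / N) := by ring
    rw [e']; exact this.le
  have hcs : ∑ x ∈ Φ, (1 - ε) / N = 1 - ε := by
    rw [Finset.sum_const, nsmul_eq_mul, ← hN]; field_simp
  set z : E3 := ε • u + ∑ x ∈ Φ, ((1 - ε) / N) • x with hz
  have hz1 : z ∈ convexHull ℝ ((insert u Φ : Finset E3) : Set E3) := by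
    rw [mem_hull]
    refine ⟨fun x => if x = u then ε else (1 - ε) / N, ?_, ?_, ?_⟩
    · intro x _
      beta_reduce
      split_ifs
      · exact hε0.le
      · apply div_nonneg _ hNpos.le; linarith
    · rw [Finset.sum_insert hu, if_pos rfl]
      rw [Finset.sum_congr rfl (g := fun _ => (1 - ε) / N)
        (fun x hx => if_neg (fun h : x = u => hu (h ▸ hx))), hcs]
      ring
    · beta_reduce
      rw [Finset.sum_insert hu, if_pos rfl, hz]
      congr 1
      apply Finset.sum_congr rfl
      intro x hx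
      rw [if_neg (fun h : x = u => hu (h ▸ hx))]
  have hz2 : z ∈ convexHull ℝ ((insert w Φ : Finset E3) : Set E3) := by
    rw [mem_hull]
    refine ⟨fun x => if x = w then ε * ρ else (1 - ε) / N + ε * e x, ?_, ?_, ?_⟩
    · intro x hx
      beta_reduce
      split_ifs with h
      · positivity
      · rcases Finset.mem_insert.mp hx with h' | h'
        · exact absurd h' h
        · exact hε x h'
    · rw [Finset.sum_insert hw, if_pos rfl]
      rw [Finset.sum_congr rfl (g := fun x => (1 - ε) / N + ε * e x)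
        (fun x hx => if_neg (fun h : x = w => hw (h ▸ hx))), Finset.sum_add_distrib, hcs,
        ← Finset.mul_sum]
      linear_combination ε * hs
    · beta_reduce
      rw [Finset.sum_insert hw, if_pos rfl]
      rw [Finset.sum_congr rfl (g := fun x => ((1 - ε) / N + ε * e x) • x)
        (fun x hx => by rw [if_neg (fun h : x = w => hw (h ▸ hx))])]
      simp only [add_smul, Finset.sum_add_distrib, mul_smul, ← Finset.smul_sum]
      rw [hz, ← hsum]
      simp only [smul_add, ← Finset.smul_sum]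
      abel
  have hz3 : z ∈ convexHull ℝ ((insert u Φ ∩ insert w Φ : Finset E3) : Set E3) := by
    rw [← hint]; exact ⟨hz1, hz2⟩
  have hsub : (insert u Φ ∩ insert w Φ : Finset E3) ⊆ insert u Φ := Finset.inter_subset_left
  have hnot : u ∉ (insert u Φ ∩ insert w Φ : Finset E3) := by
    rw [Finset.mem_inter, not_and]
    intro _ h
    rcases Finset.mem_insert.mp h with h | h
    · exact huw h
    · exact hu h
  have := support_face hai hsub hz3 (c := fun x => if x = u then ε else (1 - ε) / N) (by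
      rw [Finset.sum_insert hu, if_pos rfl]
      rw [Finset.sum_congr rfl (g := fun _ => (1 - ε) / N)
        (fun x hx => if_neg (fun h : x = u => hu (h ▸ hx))), hcs]
      ring) (by
      rw [Finset.sum_insert hu, if_pos rfl, hz]
      congr 1
      apply Finset.sum_congr rfl
      intro x hx
      rw [if_neg (fun h : x = u => hu (h ▸ hx))]) (Finset.mem_insert_self u Φ) hnot
  rw [if_pos rfl] at this
  linarith

end Run7.h169
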