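import Pool.Agent.Run7.h169.Stack

set_option autoImplicit false
open scoped Classical Topology
open Filter

namespace Run7.h169

/-- Tetrahedralizations. -/
def IsTet (S : Finset E3) (T : Finset (Finset E3)) : Prop :=
  (∀ t ∈ T, t ⊆ S ∧ t.card = 4 ∧ AffineIndependent ℝ (fun x : t => (x.1 : E3))) ∧
    (⋃ t ∈ T, convexHull ℝ (t : Set E3)) = convexHull ℝ (S : Set E3) ∧
    (∀ t ∈ T, ∀ u ∈ T, convexHull ℝ (t : Set E3) ∩ convexHull ℝ (u : Set E3) =
        convexHull ℝ ((t ∩ u : Finset E3) : Set E3))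

/-- The sum of the coordinates. -/
noncomputable def psi (τ : Finset E3) : E3 →ₗ[ℝ] ℝ := gfun τ (fun _ => 1)

theorem psi_apply (τ : Finset E3) (z : E3) : psi τ z = ∑ k ∈ τ, crd τ k z := by
  unfold psi
  rw [gfun_apply]; simp

theorem psi_mem {τ : Finset E3} (h : Nice τ) {x : E3} (hx : x ∈ τ) : psi τ x = 1 :=
  gfun_mem h _ hx

/-- The situation at a simple vertex, placed at the origin. -/
structure SV (W τ : Finset E3) : Prop where
  nice : Nice τ
  sub : τ ⊆ W
  pos : ∀ w ∈ W, ∀ k ∈ τ, 0 ≤ crd τ k w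
  out : ∀ w ∈ W, w ∉ τ → 1 < psi τ w
  two : ∀ w ∈ W, w ∉ τ → ∀ k ∈ τ, ∃ l ∈ τ, l ≠ k ∧ 0 < crd τ l w

section

variable {W τ : Finset E3} {T : Finset (Finset E3)} {y : E3}

theorem SV.psi_ge (h : SV W τ) {w : E3} (hw : w ∈ W) : 1 ≤ psi τ w := by
  by_cases hτ : w ∈ τ
  · exact (psi_mem h.nice hτ).ge
  · exact (h.out w hw hτ).le

theorem SV.psi_hull (h : SV W τ) {t : Finset E3} (ht : t ⊆ W) {z : E3}
    (hz : z ∈ convexHull ℝ (t : Set E3)) : 1 ≤ psi τ z := by
  obtain ⟨c, h0, h1, rfl⟩ := mem_hull.mp hz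
  rw [map_sum, ← h1]
  apply Finset.sum_le_sum
  intro x hx
  rw [map_smul, smul_eq_mul]
  exact le_mul_of_one_le_right (h0 x hx) (h.psi_ge (ht hx))

theorem third_insert {t : Finset E3} (hτ3 : τ.card = 3) (ht : t.card = 4) (hsub : τ ⊆ t) :
    ∃ y, y ∉ τ ∧ t = insert y τ := by
  have h1 : (t \ τ).card = 1 := by
    rw [Finset.card_sdiff_of_subset hsub, ht, hτ3]
  obtain ⟨y, hy⟩ := Finset.card_eq_one.mp h1
  have hy' : y ∈ t \ τ := by rw [hy]; simp
  rw [Finset.mem_sdiff] at hy'
  refine ⟨y, hy'.2, ?_⟩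
  rw [← Finset.sdiff_union_of_subset hsub, hy]
  rfl

theorem SV.exists_sigma (h : SV W τ) (hT : IsTet W T) :
    ∃ y ∈ W, y ∉ τ ∧ insert y τ ∈ T := by
  have h3 : (τ.card : ℝ) = 3 := by rw [h.nice.1]; norm_num
  set m : E3 := ∑ x ∈ τ, (1 / 3 : ℝ) • x with hm
  have hcm : ∀ k ∈ τ, crd τ k m = 1 / 3 := fun k hk =>
    crd_unique h.nice (c := fun _ => 1 / 3) rfl hk
  have hmW : m ∈ convexHull ℝ (W : Set E3) := by
    refine convexHull_mono (Finset.coe_subset.mpr h.sub) ?_
    rw [mem_hull]
    refine ⟨fun _ => 1 / 3, fun _ _ => by norm_num, ?_, rfl⟩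
    rw [Finset.sum_const, nsmul_eq_mul, h3]; norm_num
  have hpm : psi τ m = 1 := by
    rw [psi_apply, Finset.sum_congr rfl hcm, Finset.sum_const, nsmul_eq_mul, h3]; norm_num
  rw [← hT.2.1, Set.mem_iUnion₂] at hmW
  obtain ⟨t, ht, hmt⟩ := hmW
  obtain ⟨ht1, ht2, ht3⟩ := hT.1 t ht
  obtain ⟨c, h0, h1, h2⟩ := mem_hull.mp hmt
  have hzero : ∀ x ∈ t, x ∉ τ → c x = 0 := by
    have hs : ∑ x ∈ t, c x * (psi τ x - 1) = 0 := by
      have : ∑ x ∈ t, c x * psi τ x = 1 := by
        rw [← hpm, ← h2, map_sum]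
        apply Finset.sum_congr rfl
        intro x _
        rw [map_smul, smul_eq_mul]
      simp only [mul_sub, mul_one, Finset.sum_sub_distrib, this, h1, sub_self]
    rw [Finset.sum_eq_zero_iff_of_nonneg (fun x hx => mul_nonneg (h0 x hx)
      (by linarith [h.psi_ge (ht1 hx)]))] at hs
    intro x hx hxτ
    have h4 := hs x hx
    have h5 := h.out x (ht1 hx) hxτ
    rcases mul_eq_zero.mp h4 with h6 | h6
    · exact h6
    · linarith
  have hsub : τ ⊆ t := by
    intro k hk
    by_contra hkt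
    have h4 : crd τ k m = 0 := by
      rw [← h2, map_sum]
      apply Finset.sum_eq_zero
      intro x hx
      rw [map_smul, smul_eq_mul]
      by_cases hxτ : x ∈ τ
      · rw [crd_ne h.nice hk hxτ (fun hh => hkt (hh ▸ hx)), mul_zero]
      · rw [hzero x hx hxτ, zero_mul]
    rw [hcm k hk] at h4
    norm_num at h4
  obtain ⟨y, hy, rfl⟩ := third_insert h.nice.1 ht2 hsub
  exact ⟨y, ht1 (Finset.mem_insert_self _ _), hy, ht⟩

theorem SV.sigma_unique (h : SV W τ) (hT : IsTet W T) {y y' : E3} (hy : y ∉ τ) (hy' : y' ∉ τ)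
    (h1 : insert y τ ∈ T) (h2 : insert y' τ ∈ T) : y = y' := by
  by_contra hne
  have hyW := (hT.1 _ h1).1 (Finset.mem_insert_self _ _)
  have hyW' := (hT.1 _ h2).1 (Finset.mem_insert_self _ _)
  have p1 := h.out y hyW hy
  have p2 := h.out y' hyW' hy'
  have hτne : τ.Nonempty := Finset.card_pos.mp (by rw [h.nice.1]; norm_num)
  refine overlap hτne hy hy' hne (hT.1 _ h1).2.2 (hT.2.2 _ h1 _ h2)
    (ρ := (psi τ y - 1) / (psi τ y' - 1))
    (e := fun k => crd τ k y - (psi τ y - 1) / (psi τ y' - 1) * crd τ k y') ?_ ?_ ?_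
  · apply div_pos <;> linarith
  · rw [Finset.sum_sub_distrib, ← Finset.mul_sum, ← psi_apply, ← psi_apply]
    have : psi τ y' - 1 ≠ 0 := by linarith
    field_simp
    ring
  · simp only [sub_smul, Finset.sum_sub_distrib, mul_smul, ← Finset.smul_sum, crd_sum h.nice]
    abel

theorem SV.sigma_eq (h : SV W τ) (hT : IsTet W T) (hy : y ∉ τ) (hσ : insert y τ ∈ T)
    {t : Finset E3} (ht : t ∈ T) (hsub : τ ⊆ t) : t = insert y τ := by
  obtain ⟨y', hy', rfl⟩ := third_insert h.nice.1 (hT.1 t ht).2.1 hsub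
  rw [h.sigma_unique hT hy' hy ht hσ]

/-- Barycentric coordinates in the tetrahedron above the base. -/
theorem SV.bary (h : SV W τ) (hy : y ∉ τ) (hyW : y ∈ W) (z : E3) :
    ∑ x ∈ insert y τ, (if x = y then (psi τ z - 1) / (psi τ y - 1) else
      crd τ x z - (psi τ z - 1) / (psi τ y - 1) * crd τ x y) = 1 ∧
    ∑ x ∈ insert y τ, (if x = y then (psi τ z - 1) / (psi τ y - 1) else
      crd τ x z - (psi τ z - 1) / (psi τ y - 1) * crd τ x y) • x = z := by
  have p1 := h.out y hyW hy
  have p2 : psi τ y - 1 ≠ 0 := by linarith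
  constructor
  · rw [Finset.sum_insert hy, if_pos rfl]
    rw [Finset.sum_congr rfl (g := fun x => crd τ x z -
      (psi τ z - 1) / (psi τ y - 1) * crd τ x y)
      (fun x hx => if_neg (fun h : x = y => hy (h ▸ hx)))]
    rw [Finset.sum_sub_distrib, ← Finset.mul_sum, ← psi_apply, ← psi_apply]
    field_simp
    ring
  · rw [Finset.sum_insert hy, if_pos rfl]
    rw [Finset.sum_congr rfl (g := fun x => (crd τ x z -
      (psi τ z - 1) / (psi τ y - 1) * crd τ x y) • x)
      (fun x hx => by rw [if_neg (fun h : x = y => hy (h ▸ hx))])]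
    simp only [sub_smul, Finset.sum_sub_distrib, mul_smul, ← Finset.smul_sum, crd_sum h.nice]
    abel

/-- In the wall case only one tetrahedron contains the edge of the base in the wall. -/
theorem SV.wall (h : SV W τ) (hT : IsTet W T) (hy : y ∉ τ) (hσ : insert y τ ∈ T)
    {k : E3} (hk : k ∈ τ) (hk0 : crd τ k y = 0) {t : Finset E3} (ht : t ∈ T)
    (hsub : τ.erase k ⊆ t) : t = insert y τ := by
  have hyW := (hT.1 _ hσ).1 (Finset.mem_insert_self _ _)
  obtain ⟨ht1, ht2, ht3⟩ := hT.1 t ht
  have p1 := h.out y hyW hy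
  have hc2 : ((τ.erase k).card : ℝ) = 2 := by
    rw [Finset.card_erase_of_mem hk, h.nice.1]; norm_num
  have hc4 : (t.card : ℝ) = 4 := by rw [ht2]; norm_num
  set m : E3 := ∑ x ∈ τ.erase k, (1 / 2 : ℝ) • x with hm
  set g : E3 := ∑ x ∈ t, (1 / 4 : ℝ) • x with hg
  have hcm : ∀ l ∈ τ, crd τ l m = if l = k then 0 else 1 / 2 := by
    intro l hl
    apply crd_unique h.nice (c := fun l => if l = k then 0 else 1 / 2) _ hl
    rw [← Finset.add_sum_erase _ _ hk, if_pos rfl, zero_smul, zero_add, hm]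
    apply Finset.sum_congr rfl
    intro x hx
    rw [if_neg (Finset.mem_erase.mp hx).1]
  have hpm : psi τ m = 1 := by
    rw [psi_apply, ← Finset.add_sum_erase _ _ hk, hcm k hk, if_pos rfl, zero_add,
      Finset.sum_congr rfl (g := fun _ => (1 / 2 : ℝ))]
    · rw [Finset.sum_const, nsmul_eq_mul, hc2]; norm_num
    · intro x hx
      rw [hcm x (Finset.mem_erase.mp hx).2, if_neg (Finset.mem_erase.mp hx).1]
  have hghull : g ∈ convexHull ℝ (t : Set E3) := by
    rw [mem_hull]
    refine ⟨fun _ => 1 / 4, fun _ _ => by norm_num, ?_, rfl⟩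
    rw [Finset.sum_const, nsmul_eq_mul, hc4]; norm_num
  have hpg : 1 ≤ psi τ g := h.psi_hull ht1 hghull
  have hgk : ∀ l ∈ τ, 0 ≤ crd τ l g := by
    intro l hl
    rw [hg, map_sum]
    apply Finset.sum_nonneg
    intro x hx
    rw [map_smul, smul_eq_mul]
    exact mul_nonneg (by norm_num) (h.pos x (ht1 hx) l hl)
  set lg : ℝ := (psi τ g - 1) / (psi τ y - 1) with hlg
  have hlg0 : 0 ≤ lg := div_nonneg (by linarith) (by linarith)
  -- a small parameter
  obtain ⟨ε, hε0, hε1, hε⟩ : ∃ ε : ℝ, 0 < ε ∧ ε < 1 ∧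
      ∀ l ∈ τ, 0 ≤ 1 / 2 + ε * (crd τ l g - 1 / 2 - lg * crd τ l y) := by
    have h1 : ∀ᶠ ε in 𝓝[>] (0 : ℝ), ∀ l ∈ τ,
        0 < 1 / 2 + ε * (crd τ l g - 1 / 2 - lg * crd τ l y) := by
      rw [Filter.eventually_all_finset]
      intro x _
      exact ev_pos (by norm_num)
    have h2 : ∀ᶠ ε in 𝓝[>] (0 : ℝ), 0 < 1 + ε * (-1) := ev_pos one_pos
    have h3 : ∀ᶠ ε in 𝓝[>] (0 : ℝ), 0 < ε := self_mem_nhdsWithin
    obtain ⟨ε, a1, a2, a3⟩ := (h1.and (h2.and h3)).exists
    exact ⟨ε, a3, by linarith, fun l hl => (a1 l hl).le⟩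
  set z : E3 := (1 - ε) • m + ε • g with hz
  have hpz : psi τ z - 1 = ε * (psi τ g - 1) := by
    rw [hz, map_add, map_smul, map_smul, hpm, smul_eq_mul, smul_eq_mul]; ring
  -- it lies in the tetrahedron above the base
  have hz1 : z ∈ convexHull ℝ ((insert y τ : Finset E3) : Set E3) := by
    rw [mem_hull]
    obtain ⟨b1, b2⟩ := h.bary hy hyW z
    refine ⟨_, ?_, b1, b2⟩
    intro x hx
    beta_reduce
    have e0 : (psi τ z - 1) / (psi τ y - 1) = ε * lg := by
      rw [hpz, hlg]; ring
    split_ifs with hxy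
    · rw [e0]; positivity
    · have hxτ : x ∈ τ := (Finset.mem_insert.mp hx).resolve_left hxy
      rw [e0, hz, map_add, map_smul, map_smul, hcm x hxτ, smul_eq_mul, smul_eq_mul]
      by_cases hxk : x = k
      · rw [if_pos hxk, hxk, hk0]
        have := hgk k hk
        nlinarith
      · rw [if_neg hxk]
        have := hε x hxτ
        linarith
  -- explicit weights in t
  have hw1 : ∑ x ∈ t, ((if x ∈ τ.erase k then (1 - ε) / 2 else 0) + ε / 4) = 1 := by
    rw [Finset.sum_add_distrib, ← Finset.sum_filter, Finset.sum_const, Finset.sum_const,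
      nsmul_eq_mul, nsmul_eq_mul, hc4]
    have : t.filter (fun x => x ∈ τ.erase k) = τ.erase k := by
      ext x
      rw [Finset.mem_filter]
      exact ⟨fun h => h.2, fun h => ⟨hsub h, h⟩⟩
    rw [this, hc2]; ring
  have hw2 : ∑ x ∈ t, ((if x ∈ τ.erase k then (1 - ε) / 2 else 0) + ε / 4) • x = z := by
    simp only [add_smul, Finset.sum_add_distrib, ite_smul, zero_smul]
    rw [← Finset.sum_filter]
    have : t.filter (fun x => x ∈ τ.erase k) = τ.erase k := by
      ext x
      rw [Finset.mem_filter]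
      exact ⟨fun h => h.2, fun h => ⟨hsub h, h⟩⟩
    rw [this, hz, hm, hg, Finset.smul_sum, Finset.smul_sum]
    congr 1
    · apply Finset.sum_congr rfl
      intro x _
      rw [smul_smul]; congr 1; ring
    · apply Finset.sum_congr rfl
      intro x _
      rw [smul_smul]; congr 1; ring
  have hz2 : z ∈ convexHull ℝ (t : Set E3) := by
    rw [mem_hull]
    refine ⟨_, ?_, hw1, hw2⟩
    intro x _
    beta_reduce
    split_ifs
    · have : 0 ≤ (1 - ε) / 2 := by linarith
      positivity
    · positivity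
  have hz3 : z ∈ convexHull ℝ ((t ∩ insert y τ : Finset E3) : Set E3) := by
    rw [← hT.2.2 _ ht _ hσ]; exact ⟨hz2, hz1⟩
  have hts : t ⊆ insert y τ := by
    intro x hx
    by_contra hnot
    have := support_face ht3 Finset.inter_subset_left hz3 hw1 hw2 hx
      (fun hh => hnot (Finset.mem_inter.mp hh).2)
    split_ifs at this
    · have h5 : 0 ≤ (1 - ε) / 2 := by linarith
      have h6 : 0 < ε / 4 := by positivity
      linarith
    · have h6 : 0 < ε / 4 := by positivity
      linarith
  apply Finset.eq_of_subset_of_card_le hts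
  rw [ht2, (hT.1 _ hσ).2.1]

/-- The new tetrahedra. -/
noncomputable def nw (τ : Finset E3) (y k : E3) : Finset E3 := insert 0 (insert y (τ.erase k))

theorem SV.zero_notMem (h : SV W τ) : (0 : E3) ∉ W := by
  intro h0
  have := h.psi_ge h0
  rw [map_zero] at this
  linarith

/-- Intersection of a new tetrahedron with an old one. -/
theorem SV.inter_old (h : SV W τ) (hT : IsTet W T) (hy : y ∉ τ) (hσ : insert y τ ∈ T)
    {k : E3} (hk : k ∈ τ) (hk0 : 0 < crd τ k y) {t : Finset E3} (ht : t ∈ T)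
    (hne : t ≠ insert y τ) :
    convexHull ℝ ((nw τ y k : Finset E3) : Set E3) ∩ convexHull ℝ (t : Set E3) =
      convexHull ℝ ((nw τ y k ∩ t : Finset E3) : Set E3) := by
  have hyW := (hT.1 _ hσ).1 (Finset.mem_insert_self _ _)
  obtain ⟨ht1, ht2, ht3⟩ := hT.1 t ht
  have p1 := h.out y hyW hy
  apply Set.Subset.antisymm
  · rintro z ⟨hz1, hz2⟩
    have h0A : (0 : E3) ∉ insert y (τ.erase k) := by
      intro h0
      apply h.zero_notMem
      rcases Finset.mem_insert.mp h0 with e | e
      · rw [e]; exact hyW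
      · exact h.sub (Finset.mem_erase.mp e).2
    have hyk : y ∉ τ.erase k := fun hh => hy (Finset.mem_erase.mp hh).2
    unfold nw at hz1
    rw [hull_iff h0A] at hz1
    obtain ⟨c, hc0, hc1, hc2⟩ := hz1
    set s : ℝ := ∑ x ∈ insert y (τ.erase k), c x with hs
    have hs' : s = c y + ∑ x ∈ τ.erase k, c x := by rw [hs, Finset.sum_insert hyk]
    have hpz : psi τ z = c y * psi τ y + ∑ x ∈ τ.erase k, c x := by
      rw [← hc2, map_sum, Finset.sum_insert hyk, map_smul, smul_eq_mul]
      congr 1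
      apply Finset.sum_congr rfl
      intro x hx
      rw [map_smul, smul_eq_mul, psi_mem h.nice (Finset.mem_erase.mp hx).2, mul_one]
    have hpz1 := h.psi_hull ht1 hz2
    set θ : ℝ := (1 - s) / (psi τ y - 1) with hθ
    have hθ0 : 0 ≤ θ := div_nonneg (by linarith) (by linarith)
    have hθe : θ * (psi τ y - 1) = 1 - s := by
      rw [hθ]; field_simp [show psi τ y - 1 ≠ 0 by linarith]
    have hcy : 0 ≤ c y - θ := by
      have h1 : θ * (psi τ y - 1) ≤ c y * (psi τ y - 1) := by
        rw [hθe]; linarith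
      have := le_of_mul_le_mul_right h1 (by linarith : 0 < psi τ y - 1)
      linarith
    -- weights in σ
    set d : E3 → ℝ := fun x => if x = y then c y - θ else
      (if x = k then 0 else c x) + θ * crd τ x y with hd
    have hdτ : ∀ x ∈ τ, d x = (if x = k then 0 else c x) + θ * crd τ x y := by
      intro x hx
      rw [hd]; beta_reduce
      rw [if_neg (fun hh : x = y => hy (hh ▸ hx))]
    have hdy : d y = c y - θ := by rw [hd]; beta_reduce; rw [if_pos rfl]
    have hd0 : ∀ x ∈ insert y τ, 0 ≤ d x := by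
      intro x hx
      rcases Finset.mem_insert.mp hx with rfl | hx
      · rw [hdy]; exact hcy
      · rw [hdτ x hx]
        have h2 := mul_nonneg hθ0 (h.pos y hyW x hx)
        split_ifs with hxk
        · linarith
        · have := hc0 x (Finset.mem_insert_of_mem (Finset.mem_erase.mpr ⟨hxk, hx⟩))
          linarith
    have hd1 : ∑ x ∈ insert y τ, d x = 1 := by
      rw [Finset.sum_insert hy, hdy, Finset.sum_congr rfl hdτ, Finset.sum_add_distrib,
        ← Finset.mul_sum, ← psi_apply, ← Finset.add_sum_erase _ _ hk, if_pos rfl,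
        Finset.sum_congr rfl (g := c) (fun x hx => if_neg (Finset.mem_erase.mp hx).1)]
      linarith
    have hd2 : ∑ x ∈ insert y τ, d x • x = z := by
      rw [Finset.sum_insert hy, hdy, Finset.sum_congr rfl
        (g := fun x => ((if x = k then 0 else c x) + θ * crd τ x y) • x)
        (fun x hx => by rw [hdτ x hx])]
      simp only [add_smul, Finset.sum_add_distrib, mul_smul, ← Finset.smul_sum, crd_sum h.nice]
      rw [← Finset.add_sum_erase _ _ hk, if_pos rfl, zero_smul, zero_add,
        Finset.sum_congr rfl (g := fun x => c x • x)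
          (fun x hx => by rw [if_neg (Finset.mem_erase.mp hx).1]), ← hc2,
        Finset.sum_insert hyk, sub_smul]
      abel
    have hz3 : z ∈ convexHull ℝ ((insert y τ : Finset E3) : Set E3) :=
      mem_hull.mpr ⟨d, hd0, hd1, hd2⟩
    have hz4 : z ∈ convexHull ℝ ((insert y τ ∩ t : Finset E3) : Set E3) := by
      rw [← hT.2.2 _ hσ _ ht]; exact ⟨hz3, hz2⟩
    have hsupp : ∀ x ∈ insert y τ, d x ≠ 0 → x ∈ t := by
      intro x hx hdx
      by_contra hxt
      exact hdx (support_face (hT.1 _ hσ).2.2 Finset.inter_subset_left hz4 hd1 hd2 hx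
        (fun hh => hxt (Finset.mem_inter.mp hh).2))
    -- θ vanishes
    have hθz : θ = 0 := by
      by_contra hθne
      have hθpos : 0 < θ := lt_of_le_of_ne hθ0 (Ne.symm hθne)
      have hin : ∀ l ∈ τ, 0 < crd τ l y → l ∈ t := by
        intro l hl hly
        apply hsupp l (Finset.mem_insert_of_mem hl)
        rw [hdτ l hl]
        have h2 := mul_pos hθpos hly
        split_ifs with hlk
        · linarith
        · have := hc0 l (Finset.mem_insert_of_mem (Finset.mem_erase.mpr ⟨hlk, hl⟩))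
          linarith
      by_cases hall : ∀ l ∈ τ, 0 < crd τ l y
      · exact hne (h.sigma_eq hT hy hσ ht (fun l hl => hin l hl (hall l hl)))
      · push Not at hall
        obtain ⟨l0, hl0, hl0'⟩ := hall
        have hl0z : crd τ l0 y = 0 := le_antisymm hl0' (h.pos y hyW l0 hl0)
        apply hne
        apply h.wall hT hy hσ hl0 hl0z ht
        intro m hm
        rw [Finset.mem_erase] at hm
        apply hin m hm.2
        by_cases hmk : m = k
        · rw [hmk]; exact hk0
        · obtain ⟨l, hl, hlk, hly⟩ := h.two y hyW hy k hk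
          have hll0 : l ≠ l0 := by
            rintro rfl
            rw [hl0z] at hly
            exact lt_irrefl _ hly
          have hkl0 : k ≠ l0 := by
            rintro rfl
            rw [hl0z] at hk0
            exact lt_irrefl _ hk0
          obtain ⟨r, hr1, hr2, hr3⟩ := third h.nice.1 hk hl0 hkl0
          rw [hr3] at hl hm
          simp only [Finset.mem_insert, Finset.mem_singleton] at hl hm
          have e1 : l = r := by
            rcases hl with e | e | e
            · exact absurd e hlk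
            · exact absurd e hll0
            · exact e
          have e2 : m = r := by
            rcases hm.2 with e | e | e
            · exact absurd e hmk
            · exact absurd e hm.1
            · exact e
          rw [e2, ← e1]; exact hly
    have hs1 : s = 1 := by
      rw [hθz, zero_mul] at hθe
      linarith
    refine mem_hull_of_support (t := insert y (τ.erase k)) (c := c) hc0 hs1 hc2 ?_
    intro x hx hcx
    rw [Finset.mem_inter]
    refine ⟨Finset.mem_insert_of_mem hx, ?_⟩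
    rcases Finset.mem_insert.mp hx with rfl | hx'
    · apply hsupp x (Finset.mem_insert_self _ _)
      rw [hdy, hθz, sub_zero]; exact hcx
    · rw [Finset.mem_erase] at hx'
      apply hsupp x (Finset.mem_insert_of_mem hx'.2)
      rw [hdτ x hx'.2, hθz, zero_mul, add_zero, if_neg hx'.1]; exact hcx
  · apply Set.subset_inter
    · apply convexHull_mono
      intro z hz
      exact (Finset.mem_inter.mp (Finset.mem_coe.mp hz)).1
    · apply convexHull_mono
      intro z hz
      exact (Finset.mem_inter.mp (Finset.mem_coe.mp hz)).2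

end

end Run7.h169
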