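import Pool.Agent.Run7.h169.Stack2

set_option autoImplicit false
open scoped Classical Topology
open Filter

namespace Run7.h169

section

variable {W τ : Finset E3} {T : Finset (Finset E3)} {y : E3}

theorem SV.zero_notMem_nw (h : SV W τ) (hyW : y ∈ W) (k : E3) :
    (0 : E3) ∉ insert y (τ.erase k) := by
  intro h0
  apply h.zero_notMem
  rcases Finset.mem_insert.mp h0 with e | e
  · rw [e]; exact hyW
  · exact h.sub (Finset.mem_erase.mp e).2

/-- Two new tetrahedra meet in a common face. -/
theorem SV.inter_new (h : SV W τ) (hy : y ∉ τ) (hyW : y ∈ W) {k l : E3} (hk : k ∈ τ)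
    (hk0 : 0 < crd τ k y) (hl : l ∈ τ) (hl0 : 0 < crd τ l y) :
    convexHull ℝ ((nw τ y k : Finset E3) : Set E3) ∩ convexHull ℝ ((nw τ y l : Finset E3) : Set E3) =
      convexHull ℝ ((nw τ y k ∩ nw τ y l : Finset E3) : Set E3) := by
  by_cases hkl : k = l
  · subst hkl; simp
  have hint : nw τ y k ∩ nw τ y l = insert 0 (insert y ((τ.erase k).erase l)) := by
    ext x
    unfold nw
    simp only [Finset.mem_inter, Finset.mem_insert, Finset.mem_erase]
    constructor
    · rintro ⟨h1, h2⟩; tauto
    · rintro (h1 | h1 | h1) <;> tauto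
  apply Set.Subset.antisymm
  · rintro z ⟨hz1, hz2⟩
    have hyk : y ∉ τ.erase k := fun hh => hy (Finset.mem_erase.mp hh).2
    have hyl : y ∉ τ.erase l := fun hh => hy (Finset.mem_erase.mp hh).2
    unfold nw at hz1 hz2
    rw [hull_iff (h.zero_notMem_nw hyW k)] at hz1
    rw [hull_iff (h.zero_notMem_nw hyW l)] at hz2
    obtain ⟨c, hc0, hc1, hc2⟩ := hz1
    obtain ⟨d, hd0, hd1, hd2⟩ := hz2
    have cc : ∀ m ∈ τ, crd τ m z = c y * crd τ m y + (if m = k then 0 else c m) := by
      intro m hm
      rw [← hc2, Finset.sum_insert hyk, map_add, map_smul, smul_eq_mul]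
      congr 1
      apply crd_unique h.nice (c := fun m => if m = k then 0 else c m) _ hm
      rw [← Finset.add_sum_erase _ _ hk, if_pos rfl, zero_smul, zero_add]
      apply Finset.sum_congr rfl
      intro x hx
      rw [if_neg (Finset.mem_erase.mp hx).1]
    have dd : ∀ m ∈ τ, crd τ m z = d y * crd τ m y + (if m = l then 0 else d m) := by
      intro m hm
      rw [← hd2, Finset.sum_insert hyl, map_add, map_smul, smul_eq_mul]
      congr 1
      apply crd_unique h.nice (c := fun m => if m = l then 0 else d m) _ hm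
      rw [← Finset.add_sum_erase _ _ hl, if_pos rfl, zero_smul, zero_add]
      apply Finset.sum_congr rfl
      intro x hx
      rw [if_neg (Finset.mem_erase.mp hx).1]
    have e1 := cc k hk
    have e2 := cc l hl
    have e3 := dd k hk
    have e4 := dd l hl
    rw [if_pos rfl] at e1 e4
    rw [if_neg (Ne.symm hkl)] at e2
    rw [if_neg hkl] at e3
    have f1 : 0 ≤ d k := hd0 k (Finset.mem_insert_of_mem (Finset.mem_erase.mpr ⟨hkl, hk⟩))
    have f2 : 0 ≤ c l := hc0 l (Finset.mem_insert_of_mem (Finset.mem_erase.mpr ⟨Ne.symm hkl, hl⟩))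
    have g1 : d y * crd τ k y ≤ c y * crd τ k y := by linarith
    have g2 : c y * crd τ l y ≤ d y * crd τ l y := by linarith
    have g3 := le_of_mul_le_mul_right g1 hk0
    have g4 := le_of_mul_le_mul_right g2 hl0
    have g5 : c y = d y := le_antisymm g4 g3
    have g6 : c l = 0 := by rw [g5] at e2; linarith
    have hlk : l ∈ τ.erase k := Finset.mem_erase.mpr ⟨Ne.symm hkl, hl⟩
    rw [hint, hull_iff]
    · refine ⟨c, ?_, ?_, ?_⟩
      · intro x hx
        apply hc0
        rcases Finset.mem_insert.mp hx with e | e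
        · rw [e]; exact Finset.mem_insert_self _ _
        · exact Finset.mem_insert_of_mem (Finset.mem_erase.mp e).2
      · rw [Finset.sum_insert (fun hh => hyk (Finset.mem_erase.mp hh).2)]
        rw [Finset.sum_insert hyk, ← Finset.add_sum_erase _ _ hlk, g6] at hc1
        linarith
      · rw [Finset.sum_insert (fun hh => hyk (Finset.mem_erase.mp hh).2)]
        rw [Finset.sum_insert hyk, ← Finset.add_sum_erase _ _ hlk, g6, zero_smul, zero_add] at hc2
        exact hc2
    · intro h0
      apply h.zero_notMem_nw hyW k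
      rcases Finset.mem_insert.mp h0 with e | e
      · rw [← e]; exact Finset.mem_insert_self _ _
      · exact Finset.mem_insert_of_mem (Finset.mem_erase.mp e).2
  · apply Set.subset_inter
    · apply convexHull_mono
      intro z hz
      exact (Finset.mem_inter.mp (Finset.mem_coe.mp hz)).1
    · apply convexHull_mono
      intro z hz
      exact (Finset.mem_inter.mp (Finset.mem_coe.mp hz)).2

/-- The new tetrahedra cover the cone over the old one. -/
theorem SV.cover_new (h : SV W τ) (hy : y ∉ τ) (hyW : y ∈ W) {z : E3}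
    (hz : z ∈ convexHull ℝ ((insert 0 (insert y τ) : Finset E3) : Set E3)) :
    ∃ k ∈ τ, 0 < crd τ k y ∧ z ∈ convexHull ℝ ((nw τ y k : Finset E3) : Set E3) := by
  have h0 : (0 : E3) ∉ insert y τ := by
    intro h0
    apply h.zero_notMem
    rcases Finset.mem_insert.mp h0 with e | e
    · rw [e]; exact hyW
    · exact h.sub e
  rw [hull_iff h0] at hz
  obtain ⟨c, hc0, hc1, hc2⟩ := hz
  have p1 := h.out y hyW hy
  have hne : (τ.filter (fun k => 0 < crd τ k y)).Nonempty := by
    obtain ⟨k0, hk0⟩ : τ.Nonempty := Finset.card_pos.mp (by rw [h.nice.1]; norm_num)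
    obtain ⟨l, hl, _, hly⟩ := h.two y hyW hy k0 hk0
    exact ⟨l, Finset.mem_filter.mpr ⟨hl, hly⟩⟩
  obtain ⟨k, hk, hmin⟩ := Finset.exists_min_image _ (fun k => c k / crd τ k y) hne
  rw [Finset.mem_filter] at hk
  have hyk : y ∉ τ.erase k := fun hh => hy (Finset.mem_erase.mp hh).2
  refine ⟨k, hk.1, hk.2, ?_⟩
  set θ : ℝ := c k / crd τ k y with hθ
  have hθ0 : 0 ≤ θ := div_nonneg (hc0 k (Finset.mem_insert_of_mem hk.1)) hk.2.le
  have hθk : θ * crd τ k y = c k := by
    rw [hθ]; field_simp [hk.2.ne']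
  unfold nw
  rw [hull_iff (h.zero_notMem_nw hyW k)]
  refine ⟨fun x => if x = y then c y + θ else c x - θ * crd τ x y, ?_, ?_, ?_⟩
  · intro x hx
    beta_reduce
    rcases Finset.mem_insert.mp hx with rfl | hx
    · rw [if_pos rfl]
      have := hc0 x (Finset.mem_insert_self _ _)
      linarith
    · rw [Finset.mem_erase] at hx
      rw [if_neg (fun hh : x = y => hy (hh ▸ hx.2))]
      have h2 := hc0 x (Finset.mem_insert_of_mem hx.2)
      by_cases hxy : 0 < crd τ x y
      · have h3 := hmin x (Finset.mem_filter.mpr ⟨hx.2, hxy⟩)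
        beta_reduce at h3
        rw [le_div_iff₀ hxy] at h3
        linarith
      · have h4 : crd τ x y = 0 := le_antisymm (not_lt.mp hxy) (h.pos y hyW x hx.2)
        rw [h4]; linarith
  · beta_reduce
    rw [Finset.sum_insert hyk, if_pos rfl, Finset.sum_congr rfl
      (g := fun x => c x - θ * crd τ x y)
      (fun x hx => if_neg (fun hh : x = y => hyk (hh ▸ hx))), Finset.sum_sub_distrib,
      ← Finset.mul_sum]
    have e1 : ∑ x ∈ τ.erase k, c x = ∑ x ∈ τ, c x - c k := by
      rw [← Finset.add_sum_erase _ _ hk.1]; ring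
    have e2 : ∑ x ∈ τ.erase k, crd τ x y = psi τ y - crd τ k y := by
      rw [psi_apply, ← Finset.add_sum_erase _ _ hk.1]; ring
    rw [e1, e2]
    rw [Finset.sum_insert hy] at hc1
    have h5 : 0 ≤ θ * (psi τ y - 1) := mul_nonneg hθ0 (by linarith)
    nlinarith
  · beta_reduce
    rw [Finset.sum_insert hyk, if_pos rfl, Finset.sum_congr rfl
      (g := fun x => (c x - θ * crd τ x y) • x)
      (fun x hx => by rw [if_neg (fun hh : x = y => hyk (hh ▸ hx))])]
    have e3 : ∑ x ∈ τ.erase k, (c x - θ * crd τ x y) • x =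
        ∑ x ∈ τ, (c x - θ * crd τ x y) • x := by
      rw [← Finset.add_sum_erase _ _ hk.1, hθk, sub_self, zero_smul, zero_add]
    rw [e3]
    simp only [sub_smul, Finset.sum_sub_distrib, mul_smul, ← Finset.smul_sum, crd_sum h.nice]
    rw [← hc2, Finset.sum_insert hy, add_smul]
    abel

/-- Every point of the larger polytope lies in the old one or in the cone over the base. -/
theorem SV.split (h : SV W τ) {z : E3}
    (hz : z ∈ convexHull ℝ ((insert 0 W : Finset E3) : Set E3)) :
    z ∈ convexHull ℝ (W : Set E3) ∨ z ∈ convexHull ℝ ((insert 0 τ : Finset E3) : Set E3) := by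
  rw [hull_iff h.zero_notMem] at hz
  obtain ⟨c, hc0, hc1, hc2⟩ := hz
  have h0τ : (0 : E3) ∉ τ := fun hh => h.zero_notMem (h.sub hh)
  have hpos : ∀ k ∈ τ, 0 ≤ crd τ k z := by
    intro k hk
    rw [← hc2, map_sum]
    apply Finset.sum_nonneg
    intro x hx
    rw [map_smul, smul_eq_mul]
    exact mul_nonneg (hc0 x hx) (h.pos x hx k hk)
  by_cases hp : psi τ z ≤ 1
  · right
    rw [hull_iff h0τ]
    exact ⟨fun k => crd τ k z, hpos, by rw [← psi_apply]; exact hp, crd_sum h.nice z⟩
  · left
    push Not at hp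
    set s := ∑ x ∈ W, c x with hs
    have hspos : 0 < s := by
      rcases lt_or_ge 0 s with hh | hh
      · exact hh
      · exfalso
        have hs0 : s = 0 := le_antisymm hh (Finset.sum_nonneg hc0)
        have hall := (Finset.sum_eq_zero_iff_of_nonneg hc0).mp hs0
        have : z = 0 := by
          rw [← hc2]
          apply Finset.sum_eq_zero
          intro x hx
          rw [hall x hx, zero_smul]
        rw [this, map_zero] at hp
        linarith
    -- the point of the hull of W on the ray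
    set w : E3 := s⁻¹ • z with hw
    have hwW : w ∈ convexHull ℝ (W : Set E3) := by
      rw [mem_hull]
      refine ⟨fun x => s⁻¹ * c x, fun x hx => mul_nonneg (inv_nonneg.mpr hspos.le) (hc0 x hx),
        ?_, ?_⟩
      · rw [← Finset.mul_sum, ← hs]; exact inv_mul_cancel₀ hspos.ne'
      · simp only [mul_smul, ← Finset.smul_sum]; rw [hc2]
    -- the point of the base on the ray
    set b : E3 := (psi τ z)⁻¹ • z with hb
    have hpz : 0 < psi τ z := by linarith
    have hbW : b ∈ convexHull ℝ (W : Set E3) := by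
      refine convexHull_mono (Finset.coe_subset.mpr h.sub) ?_
      rw [mem_hull]
      refine ⟨fun k => (psi τ z)⁻¹ * crd τ k z,
        fun x hx => mul_nonneg (inv_nonneg.mpr hpz.le) (hpos x hx), ?_, ?_⟩
      · rw [← Finset.mul_sum, ← psi_apply]; exact inv_mul_cancel₀ hpz.ne'
      · simp only [mul_smul, ← Finset.smul_sum]; rw [crd_sum h.nice]
    -- z is between them
    have i1 : 1 ≤ s⁻¹ := one_le_inv_iff₀.mpr ⟨hspos, hc1⟩
    have i2 : (psi τ z)⁻¹ < 1 := inv_lt_one_of_one_lt₀ hp
    set α : ℝ := (1 - (psi τ z)⁻¹) / (s⁻¹ - (psi τ z)⁻¹) with hα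
    have hden : 0 < s⁻¹ - (psi τ z)⁻¹ := by linarith
    have hα0 : 0 ≤ α := div_nonneg (by linarith) hden.le
    have hα1 : α ≤ 1 := by rw [hα, div_le_one hden]; linarith
    have hcomb : α • w + (1 - α) • b = z := by
      rw [hw, hb, smul_smul, smul_smul, ← add_smul]
      have : α * s⁻¹ + (1 - α) * (psi τ z)⁻¹ = 1 := by
        have h6 : α * (s⁻¹ - (psi τ z)⁻¹) = 1 - (psi τ z)⁻¹ := by
          rw [hα]; exact div_mul_cancel₀ _ hden.ne'
        linarith
      rw [this, one_smul]
    rw [← hcomb]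
    exact (convex_convexHull ℝ _) hwW hbW hα0 (by linarith) (by ring)

/-- The new family of tetrahedra. -/
noncomputable def newT (T : Finset (Finset E3)) (τ : Finset E3) (y : E3) : Finset (Finset E3) :=
  T.erase (insert y τ) ∪ (τ.filter (fun k => 0 < crd τ k y)).image (nw τ y)

theorem mem_newT {t : Finset E3} : t ∈ newT T τ y ↔
    (t ≠ insert y τ ∧ t ∈ T) ∨ ∃ k ∈ τ, 0 < crd τ k y ∧ nw τ y k = t := by
  unfold newT
  rw [Finset.mem_union, Finset.mem_erase, Finset.mem_image]
  constructor
  · rintro (h | ⟨k, hk, h⟩)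
    · exact Or.inl h
    · rw [Finset.mem_filter] at hk
      exact Or.inr ⟨k, hk.1, hk.2, h⟩
  · rintro (h | ⟨k, hk, hk2, h⟩)
    · exact Or.inl h
    · exact Or.inr ⟨k, Finset.mem_filter.mpr ⟨hk, hk2⟩, h⟩

theorem SV.nw_nice (h : SV W τ) (hy : y ∉ τ) {k : E3} (hk : k ∈ τ) (hk0 : 0 < crd τ k y) :
    Nice (insert y (τ.erase k)) := nice_pivot h.nice hk hy hk0.ne'

theorem SV.isTet_new (h : SV W τ) (hT : IsTet W T) (hy : y ∉ τ) (hσ : insert y τ ∈ T) :
    IsTet (insert 0 W) (newT T τ y) := by
  have hyW := (hT.1 _ hσ).1 (Finset.mem_insert_self _ _)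
  have hsubnw : ∀ k, nw τ y k ⊆ insert 0 (insert y τ) := by
    intro k x hx
    unfold nw at hx
    simp only [Finset.mem_insert, Finset.mem_erase] at hx ⊢
    tauto
  have hsubW : insert y τ ⊆ W := (hT.1 _ hσ).1
  refine ⟨?_, ?_, ?_⟩
  · intro t ht
    rcases mem_newT.mp ht with ⟨_, h1⟩ | ⟨k, hk, hk0, rfl⟩
    · obtain ⟨a, b, c⟩ := hT.1 t h1
      exact ⟨a.trans (Finset.subset_insert _ _), b, c⟩
    · have hN := h.nw_nice hy hk hk0
      refine ⟨(hsubnw k).trans (Finset.insert_subset_insert _ hsubW), ?_, ?_⟩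
      · unfold nw
        rw [Finset.card_insert_of_notMem (h.zero_notMem_nw hyW k), hN.1]
      · exact affineIndependent_insert_zero hN
  · apply Set.Subset.antisymm
    · apply Set.iUnion₂_subset
      intro t ht
      apply convexHull_mono
      rcases mem_newT.mp ht with ⟨_, h1⟩ | ⟨k, hk, hk0, rfl⟩
      · exact Finset.coe_subset.mpr ((hT.1 t h1).1.trans (Finset.subset_insert _ _))
      · exact Finset.coe_subset.mpr ((hsubnw k).trans (Finset.insert_subset_insert _ hsubW))
    · intro z hz
      rw [Set.mem_iUnion₂]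
      have key : z ∈ convexHull ℝ ((insert 0 (insert y τ) : Finset E3) : Set E3) →
          ∃ t, ∃ _ : t ∈ newT T τ y, z ∈ convexHull ℝ (t : Set E3) := by
        intro hz'
        obtain ⟨k, hk, hk0, hzk⟩ := h.cover_new hy hyW hz'
        exact ⟨nw τ y k, mem_newT.mpr (Or.inr ⟨k, hk, hk0, rfl⟩), hzk⟩
      rcases h.split hz with h1 | h1
      · rw [← hT.2.1, Set.mem_iUnion₂] at h1
        obtain ⟨t, ht, hzt⟩ := h1
        by_cases hts : t = insert y τ
        · apply key
          rw [hts] at hzt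
          exact convexHull_mono (Finset.coe_subset.mpr (Finset.subset_insert _ _)) hzt
        · exact ⟨t, mem_newT.mpr (Or.inl ⟨hts, ht⟩), hzt⟩
      · apply key
        exact convexHull_mono (Finset.coe_subset.mpr
          (Finset.insert_subset_insert _ (Finset.subset_insert _ _))) h1
  · intro t ht u hu
    rcases mem_newT.mp ht with ⟨t1, t2⟩ | ⟨k, hk, hk0, rfl⟩
    · rcases mem_newT.mp hu with ⟨u1, u2⟩ | ⟨l, hl, hl0, rfl⟩
      · exact hT.2.2 t t2 u u2
      · rw [Set.inter_comm, h.inter_old hT hy hσ hl hl0 t2 t1, Finset.inter_comm]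
    · rcases mem_newT.mp hu with ⟨u1, u2⟩ | ⟨l, hl, hl0, rfl⟩
      · exact h.inter_old hT hy hσ hk hk0 u2 u1
      · exact h.inter_new hy hyW hk hk0 hl hl0

end

end Run7.h169
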