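import Pool.Agent.Run7.h169.Stack3

set_option autoImplicit false
open scoped Classical Topology
open Filter

namespace Run7.h169

theorem hasHamTet_iff_list {S : Finset E3} : HasHamTet S ↔
    ∃ T, IsTet S T ∧ ∃ L : List (Finset E3), L.Nodup ∧ L.toFinset = T ∧
      L.IsChain (fun t u => (t ∩ u).card = 3) := by
  constructor
  · rintro ⟨T, h1, h2, h3, f, f1, f2, f3⟩
    refine ⟨T, ⟨h1, h2, h3⟩, (List.range T.card).map f, ?_, ?_, ?_⟩
    · rw [List.nodup_map_iff_inj_on List.nodup_range]
      intro i hi j hj hij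
      rw [List.mem_range] at hi hj
      exact f2 i hi j hj hij
    · apply Finset.eq_of_subset_of_card_le
      · intro t ht
        rw [List.mem_toFinset, List.mem_map] at ht
        obtain ⟨i, hi, rfl⟩ := ht
        exact f1 i (List.mem_range.mp hi)
      · rw [List.toFinset_card_of_nodup]
        · simp
        · rw [List.nodup_map_iff_inj_on List.nodup_range]
          intro i hi j hj hij
          rw [List.mem_range] at hi hj
          exact f2 i hi j hj hij
    · rw [List.isChain_iff_getElem]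
      intro i hi
      simp only [List.length_map, List.length_range] at hi
      simp only [List.getElem_map, List.getElem_range]
      exact f3 i hi
  · rintro ⟨T, ⟨h1, h2, h3⟩, L, l1, l2, l3⟩
    have hTcard : T.card = L.length := by
      rw [← l2, List.toFinset_card_of_nodup l1]
    refine ⟨T, h1, h2, h3, fun i => L.getD i ∅, ?_, ?_, ?_⟩
    · intro i hi
      rw [hTcard] at hi
      beta_reduce
      rw [List.getD_eq_getElem _ _ hi, ← l2, List.mem_toFinset]
      exact List.getElem_mem hi
    · intro i hi j hj heq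
      rw [hTcard] at hi hj
      beta_reduce at heq
      rw [List.getD_eq_getElem _ _ hi, List.getD_eq_getElem _ _ hj] at heq
      exact (l1.getElem_inj_iff).mp heq
    · intro i hi
      rw [hTcard] at hi
      have hi0 : i < L.length := by omega
      beta_reduce
      rw [List.getD_eq_getElem _ _ hi0, List.getD_eq_getElem _ _ hi]
      exact l3.getElem i hi

section

variable {W τ : Finset E3} {T : Finset (Finset E3)} {y : E3}

theorem face_eq (_hy : y ∉ τ) {k : E3} (hk : k ∈ τ) :
    insert y τ = insert k (insert y (τ.erase k)) := by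
  ext x
  simp only [Finset.mem_insert, Finset.mem_erase]
  constructor
  · rintro (h | h)
    · exact Or.inr (Or.inl h)
    · by_cases hxk : x = k
      · exact Or.inl hxk
      · exact Or.inr (Or.inr ⟨hxk, h⟩)
  · rintro (h | h | h)
    · right; rw [h]; exact hk
    · exact Or.inl h
    · exact Or.inr h.2

/-- A neighbour of the tetrahedron above the base. -/
theorem SV.port (h : SV W τ) (hT : IsTet W T) (hy : y ∉ τ) (hσ : insert y τ ∈ T)
    {p : Finset E3} (hp : p ∈ T) (hne : p ≠ insert y τ) (h3 : (p ∩ insert y τ).card = 3) :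
    ∃ k ∈ τ, 0 < crd τ k y ∧ p ∩ insert y τ = insert y (τ.erase k) := by
  have hyW := (hT.1 _ hσ).1 (Finset.mem_insert_self _ _)
  have h4 := (hT.1 _ hσ).2.1
  have h1 : ((insert y τ) \ p).card = 1 := by
    have := Finset.card_sdiff_add_card_inter (insert y τ) p
    rw [Finset.inter_comm, h3, h4] at this
    omega
  obtain ⟨e, he⟩ := Finset.card_eq_one.mp h1
  have he' : e ∈ (insert y τ) \ p := by rw [he]; simp
  rw [Finset.mem_sdiff] at he'
  have hin : ∀ x ∈ insert y τ, x ≠ e → x ∈ p := by
    intro x hx hxe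
    by_contra hxp
    have : x ∈ (insert y τ) \ p := Finset.mem_sdiff.mpr ⟨hx, hxp⟩
    rw [he, Finset.mem_singleton] at this
    exact hxe this
  rcases Finset.mem_insert.mp he'.1 with rfl | heτ
  · exfalso
    apply hne
    apply h.sigma_eq hT hy hσ hp
    intro x hx
    exact hin x (Finset.mem_insert_of_mem hx) (fun hh => hy (hh ▸ hx))
  · refine ⟨e, heτ, ?_, ?_⟩
    · refine lt_of_le_of_ne (h.pos y hyW e heτ) (fun h0 => hne ?_)
      apply h.wall hT hy hσ heτ h0.symm hp
      intro x hx
      rw [Finset.mem_erase] at hx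
      exact hin x (Finset.mem_insert_of_mem hx.2) hx.1
    · ext x
      rw [Finset.mem_inter, Finset.mem_insert, Finset.mem_insert, Finset.mem_erase]
      constructor
      · rintro ⟨h5, h6 | h6⟩
        · exact Or.inl h6
        · refine Or.inr ⟨?_, h6⟩
          rintro rfl
          exact he'.2 h5
      · rintro (h5 | h5)
        · refine ⟨hin x (by rw [h5]; exact Finset.mem_insert_self _ _) ?_, Or.inl h5⟩
          rintro rfl
          exact hy (h5 ▸ heτ)
        · exact ⟨hin x (Finset.mem_insert_of_mem h5.2) h5.1, Or.inr h5.2⟩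

theorem SV.bary' (h : SV W τ) (hy : y ∉ τ) (hyW : y ∈ W) {k : E3} (hk : k ∈ τ) (z : E3) :
    ∃ e : E3 → ℝ, e k + ∑ x ∈ insert y (τ.erase k), e x = 1 ∧
      e k • k + ∑ x ∈ insert y (τ.erase k), e x • x = z := by
  obtain ⟨b1, b2⟩ := h.bary hy hyW z
  have hkn : k ∉ insert y (τ.erase k) := by
    rw [Finset.mem_insert, Finset.mem_erase]
    rintro (h1 | h1)
    · exact hy (h1 ▸ hk)
    · exact h1.1 rfl
  rw [face_eq hy hk, Finset.sum_insert hkn] at b1 b2
  exact ⟨fun x => if x = y then (psi τ z - 1) / (psi τ y - 1) else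
      crd τ x z - (psi τ z - 1) / (psi τ y - 1) * crd τ x y, b1, b2⟩

/-- A neighbour lies on the other side. -/
theorem SV.side (h : SV W τ) (hT : IsTet W T) (hy : y ∉ τ) (hσ : insert y τ ∈ T)
    {k : E3} (hk : k ∈ τ) {u : E3} (hu : u ∉ insert y τ)
    (hp : insert u (insert y (τ.erase k)) ∈ T) {e : E3 → ℝ}
    (e1 : e k + ∑ x ∈ insert y (τ.erase k), e x = 1)
    (e2 : e k • k + ∑ x ∈ insert y (τ.erase k), e x • x = u) : e k < 0 := by
  have hkn : k ∉ insert y (τ.erase k) := by
    rw [Finset.mem_insert, Finset.mem_erase]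
    rintro (h1 | h1)
    · exact hy (h1 ▸ hk)
    · exact h1.1 rfl
  have hun : u ∉ insert y (τ.erase k) := by
    intro hh
    apply hu
    rw [face_eq hy hk]
    exact Finset.mem_insert_of_mem hh
  have huk : u ≠ k := fun hh => hu (hh ▸ Finset.mem_insert_of_mem hk)
  by_contra hge
  push Not at hge
  rcases eq_or_lt_of_le hge with h0 | h0
  · -- degenerate
    have hai := (hT.1 _ hp).2.2
    rw [← h0, zero_add] at e1
    rw [← h0, zero_smul, zero_add] at e2
    have hg : ∀ x ∈ insert y (τ.erase k), x ≠ u := fun x hx hh => hun (hh ▸ hx)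
    have s1 : ∑ x ∈ insert u (insert y (τ.erase k)), (if x = u then (1 : ℝ) else 0) =
        ∑ x ∈ insert u (insert y (τ.erase k)), (if x = u then 0 else e x) := by
      rw [Finset.sum_insert hun, Finset.sum_insert hun, if_pos rfl, if_pos rfl, zero_add]
      have t1 : ∑ x ∈ insert y (τ.erase k), (if x = u then (1 : ℝ) else 0) = 0 :=
        Finset.sum_eq_zero (fun x hx => if_neg (hg x hx))
      have t2 : ∑ x ∈ insert y (τ.erase k), (if x = u then 0 else e x) = 1 := by
        rw [← e1]
        exact Finset.sum_congr rfl (fun x hx => if_neg (hg x hx))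
      rw [t1, t2]; norm_num
    have s2 : ∑ x ∈ insert u (insert y (τ.erase k)), (if x = u then (1 : ℝ) else 0) • x =
        ∑ x ∈ insert u (insert y (τ.erase k)), (if x = u then 0 else e x) • x := by
      rw [Finset.sum_insert hun, Finset.sum_insert hun, if_pos rfl, if_pos rfl, zero_smul,
        zero_add, one_smul]
      have t1 : ∑ x ∈ insert y (τ.erase k), (if x = u then (1 : ℝ) else 0) • x = 0 :=
        Finset.sum_eq_zero (fun x hx => by rw [if_neg (hg x hx), zero_smul])
      have t2 : ∑ x ∈ insert y (τ.erase k), (if x = u then 0 else e x) • x = u :=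
        (Finset.sum_congr rfl (fun x hx => by rw [if_neg (hg x hx)])).trans e2
      rw [t1, t2, add_zero]
    have := bary_unique hai (c := fun x => if x = u then 1 else 0)
      (d := fun x => if x = u then 0 else e x) s1 s2 (Finset.mem_insert_self u _)
    beta_reduce at this
    rw [if_pos rfl, if_pos rfl] at this
    exact one_ne_zero this
  · have hint := hT.2.2 _ hp _ hσ
    rw [face_eq hy hk] at hint
    exact overlap ⟨y, Finset.mem_insert_self _ _⟩ hun hkn huk (hT.1 _ hp).2.2 hint h0 e1 e2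

/-- Two different neighbours are attached to different faces. -/
theorem SV.ports_ne (h : SV W τ) (hT : IsTet W T) (hy : y ∉ τ) (hσ : insert y τ ∈ T)
    {p q : Finset E3} (hp : p ∈ T) (hq : q ∈ T) (hpne : p ≠ insert y τ) (hqne : q ≠ insert y τ)
    (hpq : p ≠ q) {k : E3} (hk : k ∈ τ) (h1 : p ∩ insert y τ = insert y (τ.erase k))
    (h2 : q ∩ insert y τ = insert y (τ.erase k)) : False := by
  have hyW := (hT.1 _ hσ).1 (Finset.mem_insert_self _ _)
  have hΦ3 : (insert y (τ.erase k)).card = 3 := by
    rw [Finset.card_insert_of_notMem (fun hh => hy (Finset.mem_erase.mp hh).2),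
      Finset.card_erase_of_mem hk, h.nice.1]
  have key : ∀ r ∈ T, r ≠ insert y τ → r ∩ insert y τ = insert y (τ.erase k) →
      ∃ u, u ∉ insert y τ ∧ u ∉ insert y (τ.erase k) ∧ r = insert u (insert y (τ.erase k)) := by
    intro r hr hrne hri
    have hsub : insert y (τ.erase k) ⊆ r := by rw [← hri]; exact Finset.inter_subset_left
    obtain ⟨u, hu, rfl⟩ := third_insert hΦ3 (hT.1 r hr).2.1 hsub
    refine ⟨u, ?_, hu, rfl⟩
    intro huσ
    apply hu
    rw [← hri, Finset.mem_inter]
    exact ⟨Finset.mem_insert_self _ _, huσ⟩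
  obtain ⟨u, hu, hun, rfl⟩ := key p hp hpne h1
  obtain ⟨w, hw, hwn, rfl⟩ := key q hq hqne h2
  have huw : u ≠ w := fun hh => hpq (by rw [hh])
  obtain ⟨e, e1, e2⟩ := h.bary' hy hyW hk u
  obtain ⟨f, f1, f2⟩ := h.bary' hy hyW hk w
  have hek := h.side hT hy hσ hk hu hp e1 e2
  have hfk := h.side hT hy hσ hk hw hq f1 f2
  refine overlap ⟨y, Finset.mem_insert_self _ _⟩ hun hwn huw (hT.1 _ hp).2.2
    (hT.2.2 _ hp _ hq) (ρ := e k / f k) (e := fun x => e x - e k / f k * f x)
    (div_pos_of_neg_of_neg hek hfk) ?_ ?_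
  · rw [Finset.sum_sub_distrib, ← Finset.mul_sum]
    have g1 : ∑ x ∈ insert y (τ.erase k), e x = 1 - e k := by linarith
    have g2 : ∑ x ∈ insert y (τ.erase k), f x = 1 - f k := by linarith
    rw [g1, g2]
    field_simp [hfk.ne]
    ring
  · simp only [sub_smul, Finset.sum_sub_distrib, mul_smul, ← Finset.smul_sum]
    have g1 : ∑ x ∈ insert y (τ.erase k), e x • x = u - e k • k := by rw [← e2]; abel
    have g2 : ∑ x ∈ insert y (τ.erase k), f x • x = w - f k • k := by rw [← f2]; abel
    rw [g1, g2, smul_sub, smul_smul, div_mul_cancel₀ _ hfk.ne]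
    abel

theorem SV.nw_inter (h : SV W τ) (hy : y ∉ τ) (hyW : y ∈ W) {k l : E3} (hk : k ∈ τ) (hl : l ∈ τ)
    (hkl : k ≠ l) : (nw τ y k ∩ nw τ y l).card = 3 := by
  have hint : nw τ y k ∩ nw τ y l = insert 0 (insert y ((τ.erase k).erase l)) := by
    ext x
    unfold nw
    simp only [Finset.mem_inter, Finset.mem_insert, Finset.mem_erase]
    constructor
    · rintro ⟨h1, h2⟩; tauto
    · rintro (h1 | h1 | h1) <;> tauto
  rw [hint, Finset.card_insert_of_notMem, Finset.card_insert_of_notMem,
    Finset.card_erase_of_mem, Finset.card_erase_of_mem hk, h.nice.1]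
  · exact Finset.mem_erase.mpr ⟨Ne.symm hkl, hl⟩
  · intro hh
    exact hy (Finset.mem_erase.mp (Finset.mem_erase.mp hh).2).2
  · intro hh
    apply h.zero_notMem_nw hyW k
    rcases Finset.mem_insert.mp hh with e | e
    · rw [← e]; exact Finset.mem_insert_self _ _
    · exact Finset.mem_insert_of_mem (Finset.mem_erase.mp e).2

theorem SV.nw_port (h : SV W τ) (hT : IsTet W T) (hy : y ∉ τ) (hyW : y ∈ W) {k : E3}
    (hk : k ∈ τ) {p : Finset E3} (hp : p ∈ T)
    (hpi : p ∩ insert y τ = insert y (τ.erase k)) : (nw τ y k ∩ p).card = 3 := by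
  have e : nw τ y k ∩ p = insert y (τ.erase k) := by
    ext x
    rw [Finset.mem_inter]
    unfold nw
    rw [Finset.mem_insert]
    constructor
    · rintro ⟨h1 | h1, h2⟩
      · exfalso
        apply h.zero_notMem
        rw [← h1]
        exact (hT.1 p hp).1 h2
      · exact h1
    · intro h1
      refine ⟨Or.inr h1, ?_⟩
      rw [← hpi] at h1
      exact (Finset.mem_inter.mp h1).1
  rw [e, Finset.card_insert_of_notMem (fun hh => hy (Finset.mem_erase.mp hh).2),
    Finset.card_erase_of_mem hk, h.nice.1]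

/-- Insertion of a simple vertex. -/
theorem SV.hasHamTet (h : SV W τ) (hW : HasHamTet W) : HasHamTet (insert 0 W) := by
  obtain ⟨T, hT, L, hnd, hLT, hch⟩ := hasHamTet_iff_list.mp hW
  obtain ⟨y, hyW, hy, hσ⟩ := h.exists_sigma hT
  rw [hasHamTet_iff_list]
  refine ⟨newT T τ y, h.isTet_new hT hy hσ, ?_⟩
  have hσL : insert y τ ∈ L := by rw [← List.mem_toFinset, hLT]; exact hσ
  obtain ⟨l1, l2, rfl⟩ := List.append_of_mem hσL
  have hmem : ∀ t, t ∈ T ↔ t ∈ l1 ∨ t = insert y τ ∨ t ∈ l2 := by
    intro t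
    rw [← hLT, List.mem_toFinset, List.mem_append, List.mem_cons]
  rw [List.nodup_append, List.nodup_cons] at hnd
  obtain ⟨n1, ⟨n2, n3⟩, n4⟩ := hnd
  have n5 : insert y τ ∉ l1 := fun hh => n4 _ hh _ List.mem_cons_self rfl
  rw [List.isChain_append, List.isChain_cons] at hch
  obtain ⟨c1, ⟨c2, c3⟩, c4⟩ := hch
  -- the two ports
  obtain ⟨kp, kn, hkp, hkn, hkp0, hkn0, hne, hportp, hportn⟩ : ∃ kp kn, kp ∈ τ ∧ kn ∈ τ ∧
      0 < crd τ kp y ∧ 0 < crd τ kn y ∧ kp ≠ kn ∧
      (∀ p ∈ l1.getLast?, (p ∩ nw τ y kp).card = 3) ∧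
      (∀ q ∈ l2.head?, (nw τ y kn ∩ q).card = 3) := by
    have fp : ∀ p ∈ l1.getLast?, ∃ k ∈ τ, 0 < crd τ k y ∧ p ∩ insert y τ = insert y (τ.erase k) ∧
        p ∈ T ∧ p ≠ insert y τ := by
      intro p hp
      have hpl : p ∈ l1 := List.mem_of_mem_getLast? hp
      have hpT : p ∈ T := (hmem p).mpr (Or.inl hpl)
      have hpne : p ≠ insert y τ := fun hh => n5 (hh ▸ hpl)
      obtain ⟨k, hk, hk0, hk1⟩ := h.port hT hy hσ hpT hpne (c4 p hp _ (by simp))
      exact ⟨k, hk, hk0, hk1, hpT, hpne⟩
    have fn : ∀ q ∈ l2.head?, ∃ k ∈ τ, 0 < crd τ k y ∧ q ∩ insert y τ = insert y (τ.erase k) ∧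
        q ∈ T ∧ q ≠ insert y τ := by
      intro q hq
      have hql : q ∈ l2 := List.mem_of_mem_head? hq
      have hqT : q ∈ T := (hmem q).mpr (Or.inr (Or.inr hql))
      have hqne : q ≠ insert y τ := fun hh => n2 (hh ▸ hql)
      have h3 := c2 q hq
      rw [Finset.inter_comm] at h3
      obtain ⟨k, hk, hk0, hk1⟩ := h.port hT hy hσ hqT hqne h3
      exact ⟨k, hk, hk0, hk1, hqT, hqne⟩
    rcases hl1 : l1.getLast? with _ | p
    · rcases hl2 : l2.head? with _ | q
      · obtain ⟨k0, hk0⟩ : τ.Nonempty := Finset.card_pos.mp (by rw [h.nice.1]; norm_num)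
        obtain ⟨l, hl, _, hly⟩ := h.two y hyW hy k0 hk0
        obtain ⟨m, hm, hml, hmy⟩ := h.two y hyW hy l hl
        exact ⟨m, l, hm, hl, hmy, hly, hml, by simp, by simp⟩
      · obtain ⟨k, hk, hk0, hk1, hqT, hqne⟩ := fn q hl2
        obtain ⟨m, hm, hml, hmy⟩ := h.two y hyW hy k hk
        refine ⟨m, k, hm, hk, hmy, hk0, hml, by simp, ?_⟩
        intro q' hq'
        simp only [Option.mem_def, Option.some.injEq] at hq'
        subst hq'
        exact h.nw_port hT hy hyW hk hqT hk1
    · rcases hl2 : l2.head? with _ | q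
      · obtain ⟨k, hk, hk0, hk1, hpT, hpne⟩ := fp p hl1
        obtain ⟨m, hm, hml, hmy⟩ := h.two y hyW hy k hk
        refine ⟨k, m, hk, hm, hk0, hmy, hml.symm, ?_, by simp⟩
        intro q' hq'
        simp only [Option.mem_def, Option.some.injEq] at hq'
        subst hq'
        rw [Finset.inter_comm]
        exact h.nw_port hT hy hyW hk hpT hk1
      · obtain ⟨k, hk, hk0, hk1, hpT, hpne⟩ := fp p hl1
        obtain ⟨m, hm, hm0, hm1, hqT, hqne⟩ := fn q hl2
        have hpl : p ∈ l1 := List.mem_of_mem_getLast? hl1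
        have hql : q ∈ l2 := List.mem_of_mem_head? hl2
        have hpq : p ≠ q := n4 p hpl q (List.mem_cons_of_mem _ hql)
        refine ⟨k, m, hk, hm, hk0, hm0, ?_, ?_, ?_⟩
        · rintro rfl
          exact h.ports_ne hT hy hσ hpT hqT hpne hqne hpq hk hk1 hm1
        · intro q' hq'
          simp only [Option.mem_def, Option.some.injEq] at hq'
          subst hq'
          rw [Finset.inter_comm]
          exact h.nw_port hT hy hyW hk hpT hk1
        · intro q' hq'
          simp only [Option.mem_def, Option.some.injEq] at hq'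
          subst hq'
          exact h.nw_port hT hy hyW hm hqT hm1
  -- the list of the new tetrahedra
  set K := τ.filter (fun k => 0 < crd τ k y) with hK
  have hkpK : kp ∈ K := Finset.mem_filter.mpr ⟨hkp, hkp0⟩
  have hknK : kn ∈ K := Finset.mem_filter.mpr ⟨hkn, hkn0⟩
  set M : List E3 := kp :: (((K.erase kp).erase kn).toList ++ [kn]) with hM
  have hMmem : ∀ x, x ∈ M ↔ x ∈ K := by
    intro x
    rw [hM]
    simp only [List.mem_cons, List.mem_append, Finset.mem_toList, Finset.mem_erase,
      List.not_mem_nil, or_false]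
    constructor
    · rintro (rfl | ⟨_, _, hx⟩ | rfl)
      · exact hkpK
      · exact hx
      · exact hknK
    · intro hx
      by_cases h1 : x = kp
      · exact Or.inl h1
      · by_cases h2 : x = kn
        · exact Or.inr (Or.inr h2)
        · exact Or.inr (Or.inl ⟨h2, h1, hx⟩)
  have hMnd : M.Nodup := by
    rw [hM, List.nodup_cons]
    refine ⟨?_, ?_⟩
    · simp only [List.mem_append, Finset.mem_toList, Finset.mem_erase, List.mem_cons,
        List.not_mem_nil, or_false, not_or]
      exact ⟨fun hh => hh.2.1 rfl, hne⟩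
    · rw [List.nodup_append]
      refine ⟨Finset.nodup_toList _, by simp, ?_⟩
      intro a ha b hb
      simp only [List.mem_singleton] at hb
      subst hb
      rw [Finset.mem_toList, Finset.mem_erase] at ha
      exact ha.1
  have hKτ : ∀ k ∈ K, k ∈ τ := fun k hk => (Finset.mem_filter.mp hk).1
  have hinj : ∀ k ∈ M, ∀ l ∈ M, nw τ y k = nw τ y l → k = l := by
    intro k hk l hl heq
    by_contra hkl
    have h1 := hKτ k ((hMmem k).mp hk)
    have h2 := hKτ l ((hMmem l).mp hl)
    have h3 := h.nw_inter hy hyW h1 h2 hkl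
    have h4 : (nw τ y k).card = 4 := by
      unfold nw
      rw [Finset.card_insert_of_notMem (h.zero_notMem_nw hyW k),
        Finset.card_insert_of_notMem (fun hh => hy (Finset.mem_erase.mp hh).2),
        Finset.card_erase_of_mem h1, h.nice.1]
    rw [← heq, Finset.inter_self, h4] at h3
    omega
  have hMch : (M.map (nw τ y)).IsChain (fun t u => (t ∩ u).card = 3) := by
    apply List.Pairwise.isChain
    rw [List.pairwise_map]
    refine hMnd.imp_of_mem ?_
    intro a b ha hb hab
    exact h.nw_inter hy hyW (hKτ a ((hMmem a).mp ha)) (hKτ b ((hMmem b).mp hb)) hab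
  have hMhead : (M.map (nw τ y)).head? = some (nw τ y kp) := by rw [hM]; simp
  have hMlast : (M.map (nw τ y)).getLast? = some (nw τ y kn) := by
    rw [hM, List.map_cons, List.map_append, ← List.cons_append]
    rw [List.getLast?_append]
    simp
  have h0nw : ∀ k, (0 : E3) ∈ nw τ y k := fun k => Finset.mem_insert_self _ _
  have h0T : ∀ t ∈ T, (0 : E3) ∉ t := fun t ht h0 => h.zero_notMem ((hT.1 t ht).1 h0)
  refine ⟨l1 ++ (M.map (nw τ y) ++ l2), ?_, ?_, ?_⟩
  · rw [List.nodup_append, List.nodup_append]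
    refine ⟨n1, ⟨?_, n3, ?_⟩, ?_⟩
    · rw [List.nodup_map_iff_inj_on hMnd]
      exact hinj
    · intro a ha b hb hab
      rw [List.mem_map] at ha
      obtain ⟨k, _, rfl⟩ := ha
      exact h0T b ((hmem b).mpr (Or.inr (Or.inr hb))) (hab ▸ h0nw k)
    · intro a ha b hb hab
      rw [List.mem_append] at hb
      rcases hb with hb | hb
      · rw [List.mem_map] at hb
        obtain ⟨k, _, rfl⟩ := hb
        exact h0T a ((hmem a).mpr (Or.inl ha)) (hab ▸ h0nw k)
      · exact n4 a ha b (List.mem_cons_of_mem _ hb) hab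
  · ext t
    rw [List.mem_toFinset, List.mem_append, List.mem_append, List.mem_map, mem_newT]
    constructor
    · rintro (h1 | ⟨k, hk, rfl⟩ | h1)
      · exact Or.inl ⟨fun hh => n5 (hh ▸ h1), (hmem t).mpr (Or.inl h1)⟩
      · have := (hMmem k).mp hk
        rw [hK, Finset.mem_filter] at this
        exact Or.inr ⟨k, this.1, this.2, rfl⟩
      · exact Or.inl ⟨fun hh => n2 (hh ▸ h1), (hmem t).mpr (Or.inr (Or.inr h1))⟩
    · rintro (⟨h1, h2⟩ | ⟨k, hk, hk0, rfl⟩)
      · rcases (hmem t).mp h2 with h3 | h3 | h3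
        · exact Or.inl h3
        · exact absurd h3 h1
        · exact Or.inr (Or.inr h3)
      · refine Or.inr (Or.inl ⟨k, (hMmem k).mpr ?_, rfl⟩)
        rw [hK, Finset.mem_filter]
        exact ⟨hk, hk0⟩
  · rw [List.isChain_append, List.isChain_append]
    refine ⟨c1, ⟨hMch, c3, ?_⟩, ?_⟩
    · intro a ha b hb
      rw [hMlast] at ha
      simp only [Option.mem_def, Option.some.injEq] at ha
      subst ha
      exact hportn b hb
    · intro a ha b hb
      rw [List.head?_append, hMhead] at hb
      simp only [Option.some_or, Option.mem_def, Option.some.injEq] at hb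
      subst hb
      exact hportp a ha

end

end Run7.h169
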