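import Pool.Agent.Run7.h169.SimplePoly

set_option autoImplicit false
open scoped Classical Topology
open Filter

namespace Run7.h169

section

variable {W : Finset E3} {B : Finset (Finset E3)}

theorem convex_cone (W : Finset E3) : Convex ℝ (cone W) := by
  intro x hx y hy a b ha hb _
  exact cone_add (cone_smul ha hx) (cone_smul hb hy)

theorem inner_of_interior {y : E3} (h : y ∈ interior (cone W)) : Inner W y := by
  intro r
  have hc : Continuous (fun δ : ℝ => y + δ • r) := by fun_prop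
  have ht : Tendsto (fun δ : ℝ => y + δ • r) (𝓝[>] 0) (𝓝 (y + (0 : ℝ) • r)) :=
    (hc.tendsto 0).mono_left nhdsWithin_le_nhds
  have h2 : interior (cone W) ∈ 𝓝 (y + (0 : ℝ) • r) := by
    rw [zero_smul, add_zero]
    exact isOpen_interior.mem_nhds h
  filter_upwards [ht h2] with δ hδ
  exact interior_subset hδ

theorem interior_cone_nonempty (hC : Cfg W) : (interior (cone W)).Nonempty := by
  obtain ⟨A, hA, hAn⟩ := hC.full
  refine ⟨∑ x ∈ A, (1 : ℝ) • x, ?_⟩
  rw [mem_interior]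
  refine ⟨⋂ x ∈ A, {z | 0 < crd A x z}, ?_, ?_, ?_⟩
  · intro z hz
    rw [Set.mem_iInter₂] at hz
    apply cone_mono hA
    rw [mem_cone_iff_crd hAn]
    intro x hx
    exact (hz x hx).le
  · apply isOpen_biInter_finset
    intro x _
    exact isOpen_lt continuous_const (crd A x).continuous_of_finiteDimensional
  · rw [Set.mem_iInter₂]
    intro x hx
    show 0 < crd A x (∑ x ∈ A, (1 : ℝ) • x)
    rw [crd_unique hAn (c := fun _ => 1) rfl hx]
    exact one_pos

/-- A supporting functional at a non-interior point of the cone. -/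
theorem exists_support (hC : Cfg W) {y : E3} (hy : y ∈ cone W) (hn : ¬ Inner W y) :
    ∃ f : E3 →ₗ[ℝ] ℝ, f ≠ 0 ∧ (∀ x ∈ W, 0 ≤ f x) ∧ f y = 0 := by
  have hyi : y ∉ interior (cone W) := fun h => hn (inner_of_interior h)
  obtain ⟨g, hg⟩ := geometric_hahn_banach_open_point (convex_cone W).interior isOpen_interior hyi
  have hle : ∀ z ∈ cone W, g z ≤ g y := by
    intro z hz
    have h1 : z ∈ closure (interior (cone W)) := by
      rw [(convex_cone W).closure_interior_eq_closure_of_nonempty_interior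
        (interior_cone_nonempty hC)]
      exact subset_closure hz
    have h2 : closure (interior (cone W)) ⊆ {z | g z ≤ g y} := by
      apply closure_minimal
      · intro z hz
        exact (hg z hz).le
      · exact isClosed_le g.continuous continuous_const
    exact h2 h1
  have h0 : 0 ≤ g y := by simpa using hle 0 zero_mem_cone
  have h1 : g y ≤ 0 := by
    have := hle ((2 : ℝ) • y) (cone_smul (by norm_num) hy)
    rw [map_smul, smul_eq_mul] at this
    linarith
  refine ⟨-g.toLinearMap, ?_, ?_, ?_⟩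
  · intro hz
    obtain ⟨u, hu⟩ := interior_cone_nonempty hC
    have h2 := hg u hu
    have h3 : (-g.toLinearMap) u = 0 := by rw [hz]; rfl
    have h4 : (-g.toLinearMap) y = 0 := by rw [hz]; rfl
    have h5 : g u = 0 := by
      have : -(g u) = 0 := h3
      linarith
    have h6 : g y = 0 := by
      have : -(g y) = 0 := h4
      linarith
    rw [h5, h6] at h2
    exact lt_irrefl _ h2
  · intro x hx
    have h2 := hle x (mem_cone_self hx)
    show 0 ≤ -(g x)
    linarith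
  · show -(g y) = 0
    linarith

theorem not_inner_of_support {f : E3 →ₗ[ℝ] ℝ} (h0 : f ≠ 0) (hf : ∀ x ∈ W, 0 ≤ f x) {y : E3}
    (hy : f y = 0) : ¬ Inner W y := by
  intro hin
  obtain ⟨r, hr⟩ : ∃ r, f r ≠ 0 := by
    by_contra hcon
    push Not at hcon
    apply h0
    ext r
    exact hcon r
  have hpos : ∀ z ∈ cone W, 0 ≤ f z := by
    rintro z ⟨c, hc, rfl⟩
    rw [map_sum]
    apply Finset.sum_nonneg
    intro x hx
    rw [map_smul, smul_eq_mul]
    exact mul_nonneg (hc x hx) (hf x hx)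
  have hδ : ∀ᶠ δ in 𝓝[>] (0 : ℝ), 0 < δ := self_mem_nhdsWithin
  obtain ⟨δ, h1, h2⟩ := ((hin (-(f r) • r)).and hδ).exists
  have h3 := hpos _ h1
  rw [map_add, map_smul, map_smul, hy, smul_eq_mul, smul_eq_mul, zero_add] at h3
  have h4 : 0 < f r * f r := mul_self_pos.mpr hr
  nlinarith

theorem Inner.pos_of_support {f : E3 →ₗ[ℝ] ℝ} (h0 : f ≠ 0) (hf : ∀ x ∈ W, 0 ≤ f x) {y : E3}
    (hy : y ∈ cone W) (hin : Inner W y) : 0 < f y := by
  have hpos : 0 ≤ f y := by
    obtain ⟨c, hc, rfl⟩ := hy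
    rw [map_sum]
    apply Finset.sum_nonneg
    intro x hx
    rw [map_smul, smul_eq_mul]
    exact mul_nonneg (hc x hx) (hf x hx)
  refine lt_of_le_of_ne hpos (fun h => ?_)
  exact not_inner_of_support h0 hf h.symm hin

/-- A triangle and a supporting functional at a boundary edge. -/
theorem Fan.boundary_data (hC : Cfg W) (hF : Fan W B) {q x : E3} (hq : q ∈ W) (hx : x ∈ W)
    (hqx : q ≠ x) (hcnt : cnt B q x = 1) :
    (∃ r, ({q, x, r} : Finset E3) ∈ B) ∧
      ∃ f : E3 →ₗ[ℝ] ℝ, f ≠ 0 ∧ (∀ x ∈ W, 0 ≤ f x) ∧ f q = 0 ∧ f x = 0 := by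
  have hpos : 0 < (B.filter (fun τ => q ∈ τ ∧ x ∈ τ)).card := by
    have : cnt B q x = (B.filter (fun τ => q ∈ τ ∧ x ∈ τ)).card := rfl
    omega
  obtain ⟨τ, hτ⟩ := Finset.card_pos.mp hpos
  rw [Finset.mem_filter] at hτ
  obtain ⟨r, hr1, hr2, hτe⟩ := third (hF.nice τ hτ.1).1 hτ.2.1 hτ.2.2 hqx
  refine ⟨⟨r, hτe ▸ hτ.1⟩, ?_⟩
  have hnin : ¬ Inner W (q + x) := by
    intro hin
    obtain ⟨_, _, _, _, h2⟩ := hF.boundary_of_cnt (Q := B) subset_rfl hqx hcnt hin
    rw [Finset.sdiff_self] at h2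
    exact Finset.notMem_empty _ h2
  obtain ⟨f, f0, f1, f2⟩ := exists_support hC
    (cone_add (mem_cone_self hq) (mem_cone_self hx)) hnin
  rw [map_add] at f2
  have g1 := f1 q hq
  have g2 := f1 x hx
  exact ⟨f, f0, f1, by linarith, by linarith⟩

theorem Fan.same_plane (hF : Fan W B) {q x1 x2 r1 r2 : E3} (h1 : ({q, x1, r1} : Finset E3) ∈ B)
    (h2 : ({q, x2, r2} : Finset E3) ∈ B) (hne : x1 ≠ x2) {f : E3 →ₗ[ℝ] ℝ} (hf : f ≠ 0)
    (fq : f q = 0) (f1 : f x1 = 0) (f2 : f x2 = 0) :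
    ∃ l m : ℝ, m < 0 ∧ x2 = l • q + m • x1 := by
  have hN := hF.nice _ h1
  have hN2 := hF.nice _ h2
  have e := crd_sum3 hN x2
  have hr : f r1 ≠ 0 := by
    intro h0
    apply hf
    apply nice_ext hN
    intro x hx
    simp only [Finset.mem_insert, Finset.mem_singleton] at hx
    rcases hx with rfl | rfl | rfl
    · rw [fq]; rfl
    · rw [f1]; rfl
    · rw [h0]; rfl
  have hc : crd {q, x1, r1} r1 x2 = 0 := by
    have := congrArg f e
    simp only [map_add, map_smul, fq, f1, f2, smul_eq_mul, mul_zero, zero_add] at this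
    rcases mul_eq_zero.mp this with h | h
    · exact h
    · exact absurd h hr
  rw [hc, zero_smul, add_zero] at e
  refine ⟨_, _, ?_, e.symm⟩
  by_contra hge
  push Not at hge
  rcases eq_or_lt_of_le hge with h0 | h0
  · rw [← h0, zero_smul, add_zero] at e
    have := congrArg (crd {q, x2, r2} x2) e
    rw [map_smul, crd_ne hN2 (by simp) (by simp) (Ne.symm hN2.distinct.1), smul_zero,
      crd_self hN2 (by simp)] at this
    exact zero_ne_one this
  · exact hne (hF.corner_unique h1 h2 h0 e.symm)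

/-- At most two boundary edges at a vertex. -/
theorem Fan.boundary_le_two (hC : Cfg W) (hF : Fan W B) {q : E3} (hq : q ∈ W) :
    (W.filter (fun x => x ≠ q ∧ cnt B q x = 1)).card ≤ 2 := by
  by_contra hcon
  push Not at hcon
  obtain ⟨x1, h1, x2, h2, x3, h3, d12, d13, d23⟩ := Finset.two_lt_card.mp hcon
  rw [Finset.mem_filter] at h1 h2 h3
  obtain ⟨⟨r1, b1⟩, f1, f10, f1p, f1q, f1x⟩ := hF.boundary_data hC hq h1.1 h1.2.1.symm h1.2.2
  obtain ⟨⟨r2, b2⟩, f2, f20, f2p, f2q, f2x⟩ := hF.boundary_data hC hq h2.1 h2.2.1.symm h2.2.2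
  obtain ⟨⟨r3, b3⟩, f3, f30, f3p, f3q, f3x⟩ := hF.boundary_data hC hq h3.1 h3.2.1.symm h3.2.2
  -- the degenerate case
  have deg : ∀ {x y z rx ry rz : E3} {fx fz : E3 →ₗ[ℝ] ℝ}, ({q, x, rx} : Finset E3) ∈ B →
      ({q, y, ry} : Finset E3) ∈ B → ({q, z, rz} : Finset E3) ∈ B → x ≠ y → x ≠ z → y ≠ z →
      x ∈ W → y ∈ W → fx ≠ 0 → fx q = 0 → fx x = 0 → fx y = 0 → fz ≠ 0 →
      (∀ x ∈ W, 0 ≤ fz x) → fz q = 0 → fz z = 0 → False := by
    intro x y z rx ry rz fx fz bx bY bz hxy hxz hyz hxW hyW fx0 fxq fxx fxy fz0 fzp fzq fzz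
    obtain ⟨l, m, hm, e⟩ := hF.same_plane bx bY hxy fx0 fxq fxx fxy
    have g1 := fzp x hxW
    have g2 := fzp y hyW
    rw [e, map_add, map_smul, map_smul, fzq, smul_zero, zero_add, smul_eq_mul] at g2
    have g3 : fz x = 0 := by nlinarith
    obtain ⟨l', m', hm', e'⟩ := hF.same_plane bz bx (Ne.symm hxz) fz0 fzq fzz g3
    have e2 : y = (l + m * l') • q + (m * m') • z := by
      rw [e, e']; module
    exact hyz (hF.corner_unique bz bY (mul_pos_of_neg_of_neg hm hm') e2).symm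
  have p12 : 0 < f1 x2 := lt_of_le_of_ne (f1p x2 h2.1)
    (fun hh => deg b1 b2 b3 d12 d13 d23 h1.1 h2.1 f10 f1q f1x hh.symm f30 f3p f3q f3x)
  have p13 : 0 < f1 x3 := lt_of_le_of_ne (f1p x3 h3.1)
    (fun hh => deg b1 b3 b2 d13 d12 d23.symm h1.1 h3.1 f10 f1q f1x hh.symm f20 f2p f2q f2x)
  have p21 : 0 < f2 x1 := lt_of_le_of_ne (f2p x1 h1.1)
    (fun hh => deg b2 b1 b3 d12.symm d23 d13 h2.1 h1.1 f20 f2q f2x hh.symm f30 f3p f3q f3x)
  have p23 : 0 < f2 x3 := lt_of_le_of_ne (f2p x3 h3.1)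
    (fun hh => deg b2 b3 b1 d23 d12.symm d13.symm h2.1 h3.1 f20 f2q f2x hh.symm f10 f1p f1q f1x)
  have p31 : 0 < f3 x1 := lt_of_le_of_ne (f3p x1 h1.1)
    (fun hh => deg b3 b1 b2 d13.symm d23.symm d12 h3.1 h1.1 f30 f3q f3x hh.symm f20 f2p f2q f2x)
  have p32 : 0 < f3 x2 := lt_of_le_of_ne (f3p x2 h2.1)
    (fun hh => deg b3 b2 b1 d23.symm d13.symm d12.symm h3.1 h2.1 f30 f3q f3x hh.symm f10 f1p f1q
      f1x)
  have hN := hF.nice _ b1
  have e2 := crd_sum3 hN x2
  have e3 := crd_sum3 hN x3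
  set a2 := crd {q, x1, r1} q x2
  set c2 := crd {q, x1, r1} x1 x2
  set k2 := crd {q, x1, r1} r1 x2
  set a3 := crd {q, x1, r1} q x3
  set c3 := crd {q, x1, r1} x1 x3
  set k3 := crd {q, x1, r1} r1 x3
  have g2 : k2 * f1 r1 = f1 x2 := by
    have := congrArg f1 e2
    simp only [map_add, map_smul, f1q, f1x, smul_eq_mul, mul_zero, zero_add] at this
    exact this
  have g3 : k3 * f1 r1 = f1 x3 := by
    have := congrArg f1 e3
    simp only [map_add, map_smul, f1q, f1x, smul_eq_mul, mul_zero, zero_add] at this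
    exact this
  have hk2 : k2 ≠ 0 := by
    intro h0
    rw [h0, zero_mul] at g2
    rw [← g2] at p12
    exact lt_irrefl _ p12
  set γ := k3 / k2 with hγ
  have hγpos : 0 < γ := by
    have h4 : γ = f1 x3 / f1 x2 := by
      rw [hγ, ← g2, ← g3]
      have hr : f1 r1 ≠ 0 := by
        intro h0
        rw [h0, mul_zero] at g2
        rw [← g2] at p12
        exact lt_irrefl _ p12
      field_simp
    rw [h4]
    exact div_pos p13 p12
  have e4 : x3 = (a3 - γ * a2) • q + (c3 - γ * c2) • x1 + γ • x2 := by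
    conv_rhs => rw [← e2]
    rw [← e3]
    have : k3 = γ * k2 := by rw [hγ]; field_simp
    rw [this]
    module
  have q2 := congrArg f2 e4
  have q3 := congrArg f3 e4
  simp only [map_add, map_smul, f2q, f2x, f3q, f3x, smul_eq_mul, mul_zero, zero_add,
    add_zero] at q2 q3
  have hβ : 0 < c3 - γ * c2 := by
    rw [q2] at p23
    exact (pos_iff_pos_of_mul_pos p23).mpr p21
  have := mul_pos hβ p31
  have := mul_pos hγpos p32
  linarith

end

end Run7.h169
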