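import Pool.Agent.Run7.h169.Bip3

set_option autoImplicit false
open scoped Classical Topology
open Filter

namespace Run7.h169

/-- Greedy colouring along a degeneracy order. -/
theorem greedy_deg (N : E3 → E3 → Prop) (hirr : ∀ x, ¬ N x x) (χ0 : E3 → Bool) :
    ∀ (n : ℕ) (W I : Finset E3), I.card = n → I ⊆ W →
    (∀ X, X ⊆ I → X.Nonempty → ∃ p ∈ X, (W.filter (fun q => N p q ∧ (q ∈ X ∨ q ∉ I))).card ≤ 3) →
    ∃ χ : E3 → Bool, ∃ ρ : E3 → ℕ, (∀ x, x ∉ I → χ x = χ0 x) ∧
      ∀ p ∈ I, ∀ x ∈ W, ∀ y ∈ W, N p x → N p y → χ x = χ p → χ y = χ p → (x ∈ I → ρ x ≤ ρ p) →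
        (y ∈ I → ρ y ≤ ρ p) → x = y := by
  intro n
  induction n with
  | zero =>
    intro W I hI _ _
    rw [Finset.card_eq_zero] at hI
    exact ⟨χ0, fun _ => 0, fun _ _ => rfl, fun p hp => absurd (hI ▸ hp) (Finset.notMem_empty p)⟩
  | succ n ih =>
    intro W I hI hIW hN
    have hne : I.Nonempty := Finset.card_pos.mp (by omega)
    obtain ⟨w, hw, hcard⟩ := hN I subset_rfl hne
    obtain ⟨χ, ρ, h1, h2⟩ := ih (W.erase w) (I.erase w)
      (by rw [Finset.card_erase_of_mem hw, hI]; rfl) (Finset.erase_subset_erase _ hIW) (by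
        intro X hX hXne
        obtain ⟨p, hp, hc⟩ := hN X (hX.trans (Finset.erase_subset _ _)) hXne
        refine ⟨p, hp, le_trans (Finset.card_le_card ?_) hc⟩
        intro q hq
        rw [Finset.mem_filter, Finset.mem_erase] at hq
        obtain ⟨⟨q1, q2⟩, q3, q4⟩ := hq
        rw [Finset.mem_filter]
        refine ⟨q2, q3, ?_⟩
        rcases q4 with h | h
        · exact Or.inl h
        · right
          intro hqI
          exact h (Finset.mem_erase.mpr ⟨q1, hqI⟩))
    -- choose the colour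
    obtain ⟨c, hc⟩ : ∃ c : Bool, ∀ x ∈ W, ∀ y ∈ W, N w x → N w y → χ x = c → χ y = c → x = y := by
      by_cases ht : ∀ x ∈ W, ∀ y ∈ W, N w x → N w y → χ x = true → χ y = true → x = y
      · exact ⟨true, ht⟩
      · push Not at ht
        obtain ⟨x0, hx0W, y0, hy0W, hx0, hy0, cx0, cy0, hxy⟩ := ht
        refine ⟨false, ?_⟩
        intro x hxW y hyW hx hy cx cy
        have d1 : x ≠ x0 := by rintro rfl; rw [cx0] at cx; simp at cx
        have d2 : x ≠ y0 := by rintro rfl; rw [cy0] at cx; simp at cx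
        have d3 : y ≠ x0 := by rintro rfl; rw [cx0] at cy; simp at cy
        have d4 : y ≠ y0 := by rintro rfl; rw [cy0] at cy; simp at cy
        by_contra hne'
        have hsub : ({x0, y0, x, y} : Finset E3) ⊆
            W.filter (fun q => N w q ∧ (q ∈ I ∨ q ∉ I)) := by
          intro z hz
          rw [Finset.mem_filter]
          simp only [Finset.mem_insert, Finset.mem_singleton] at hz
          rcases hz with rfl | rfl | rfl | rfl
          · exact ⟨hx0W, hx0, em _⟩
          · exact ⟨hy0W, hy0, em _⟩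
          · exact ⟨hxW, hx, em _⟩
          · exact ⟨hyW, hy, em _⟩
        have h4 : ({x0, y0, x, y} : Finset E3).card = 4 := by
          rw [Finset.card_insert_of_notMem, Finset.card_insert_of_notMem, Finset.card_pair hne']
          · simp only [Finset.mem_insert, Finset.mem_singleton, not_or]
            exact ⟨Ne.symm d2, Ne.symm d4⟩
          · simp only [Finset.mem_insert, Finset.mem_singleton, not_or]
            exact ⟨hxy, Ne.symm d1, Ne.symm d3⟩
        have h5 := Finset.card_le_card hsub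
        rw [h4] at h5
        omega
    set M := I.sup ρ with hM
    refine ⟨Function.update χ w c, Function.update ρ w (M + 1), ?_, ?_⟩
    · intro x hx
      have hxw : x ≠ w := by rintro rfl; exact hx hw
      rw [Function.update_of_ne hxw]
      exact h1 x (fun hh => hx (Finset.mem_of_mem_erase hh))
    · intro p hp x hxW y hyW hx hy cx cy rx ry
      by_cases hpw : p = w
      · subst hpw
        have hxp : x ≠ p := by rintro rfl; exact hirr _ hx
        have hyp : y ≠ p := by rintro rfl; exact hirr _ hy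
        rw [Function.update_self, Function.update_of_ne hxp] at cx
        rw [Function.update_self, Function.update_of_ne hyp] at cy
        exact hc x hxW y hyW hx hy cx cy
      · have hρp : ρ p ≤ M := Finset.le_sup (f := ρ) hp
        have hxw : x ≠ w := by
          rintro rfl
          have := rx hw
          rw [Function.update_self, Function.update_of_ne hpw] at this
          omega
        have hyw : y ≠ w := by
          rintro rfl
          have := ry hw
          rw [Function.update_self, Function.update_of_ne hpw] at this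
          omega
        rw [Function.update_of_ne hpw, Function.update_of_ne hxw] at cx
        rw [Function.update_of_ne hpw, Function.update_of_ne hyw] at cy
        apply h2 p (Finset.mem_erase.mpr ⟨hpw, hp⟩) x (Finset.mem_erase.mpr ⟨hxw, hxW⟩) y
          (Finset.mem_erase.mpr ⟨hyw, hyW⟩) hx hy cx cy
        · intro hxI
          have := rx (Finset.mem_of_mem_erase hxI)
          rwa [Function.update_of_ne hpw, Function.update_of_ne hxw] at this
        · intro hyI
          have := ry (Finset.mem_of_mem_erase hyI)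
          rwa [Function.update_of_ne hpw, Function.update_of_ne hyw] at this

section

variable {W : Finset E3} {B : Finset (Finset E3)}

/-- An edge with two triangles is in a pair of distinct triangles. -/
theorem two_of_cnt (hF : Fan W B) {p q : E3} (hpq : p ≠ q) (h : 2 ≤ cnt B p q) :
    ∃ r s, r ≠ s ∧ ({p, q, r} : Finset E3) ∈ B ∧ ({p, q, s} : Finset E3) ∈ B := by
  have h1 : 1 < (B.filter (fun τ => p ∈ τ ∧ q ∈ τ)).card := h
  obtain ⟨τ1, hτ1, τ2, hτ2, h12⟩ := Finset.one_lt_card.mp h1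
  rw [Finset.mem_filter] at hτ1 hτ2
  obtain ⟨r, _, _, e1⟩ := third (hF.nice τ1 hτ1.1).1 hτ1.2.1 hτ1.2.2 hpq
  obtain ⟨s, _, _, e2⟩ := third (hF.nice τ2 hτ2.1).1 hτ2.2.1 hτ2.2.2 hpq
  refine ⟨r, s, ?_, e1 ▸ hτ1.1, e2 ▸ hτ2.1⟩
  rintro rfl
  exact h12 (e1.trans e2.symm)

/-- A boundary neighbour in a supporting plane. -/
theorem Fan.boundary_nbr (hC : Cfg W) (hF : Fan W B) {f : E3 →ₗ[ℝ] ℝ} (f0 : f ≠ 0)
    (hf : ∀ x ∈ W, 0 ≤ f x) {o e : E3} (ho : o ∈ W) (he : e ∈ W) (hoe : e ≠ o) (fo : f o = 0)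
    (fe : f e = 0) : ∃ u ∈ W.erase o, cnt B o u = 1 := by
  have hpos : ∀ᶠ δ in 𝓝[>] (0 : ℝ), 0 < δ := self_mem_nhdsWithin
  have hev : ∀ᶠ δ in 𝓝[>] (0 : ℝ), ∃ τ ∈ B, o + δ • e ∈ cone τ := by
    filter_upwards [hpos] with δ hδ
    exact hF.cover _ (cone_add (mem_cone_self ho) (cone_smul hδ.le (mem_cone_self he)))
  obtain ⟨τ, hτ, hoτ, hfr⟩ := cone_limit hF.nice hev.frequently
  have hN := hF.nice τ hτ
  have hom := hF.vertex_mem hC hτ ho hoτ
  obtain ⟨δ, hδ1, hδ2⟩ := (hfr.and_eventually hpos).exists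
  have hc := (mem_cone_iff_crd hN).mp hδ1
  have hfy : f (o + δ • e) = ∑ x ∈ τ, crd τ x (o + δ • e) * f x := by
    conv_lhs => rw [← crd_sum hN (o + δ • e)]
    rw [map_sum]
    apply Finset.sum_congr rfl
    intro x _
    rw [map_smul, smul_eq_mul]
  have hf0 : f (o + δ • e) = 0 := by rw [map_add, map_smul, fo, fe, smul_zero, add_zero]
  rw [hf0] at hfy
  have hz := (Finset.sum_eq_zero_iff_of_nonneg (fun x hx =>
    mul_nonneg (hc x hx) (hf x (hF.sub τ hτ hx)))).mp hfy.symm
  obtain ⟨u, hu, huo, hcu⟩ : ∃ u ∈ τ, u ≠ o ∧ crd τ u (o + δ • e) ≠ 0 := by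
    by_contra hcon
    push Not at hcon
    have e1 := crd_sum hN (o + δ • e)
    rw [Finset.sum_eq_single o (fun x hx hxo => by rw [hcon x hx hxo, zero_smul])
      (fun hn => absurd hom hn)] at e1
    generalize crd τ o (o + δ • e) = κ at e1
    apply hC.ray_ne he ho hoe (t := (κ - 1) / δ)
    have e2 : δ • e = (κ - 1) • o := by
      rw [sub_smul, e1]; module
    calc e = (1 / δ) • (δ • e) := by
          rw [smul_smul, one_div_mul_cancel hδ2.ne', one_smul]
      _ = ((κ - 1) / δ) • o := by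
          rw [e2, smul_smul]
          congr 1
          ring
  have hfu : f u = 0 := (mul_eq_zero.mp (hz u hu)).resolve_left hcu
  have huW := hF.sub τ hτ hu
  refine ⟨u, Finset.mem_erase.mpr ⟨huo, huW⟩, ?_⟩
  have h1 := cnt_pos hτ hom hu
  have h2 : ¬ 2 ≤ cnt B o u := by
    intro h2
    obtain ⟨r, s, hrs, g1, g2⟩ := two_of_cnt hF huo.symm h2
    exact not_inner_of_support f0 hf (y := o + u) (by rw [map_add, fo, hfu, add_zero])
      (hF.two_inner g1 g2 hrs)
  omega

/-- A boundary edge has no inner endpoint. -/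
theorem Fan.inner_cnt (hF : Fan W B) {p q : E3} (hq : q ∈ W) (hin : Inner W p)
    {r : E3} (h : ({p, q, r} : Finset E3) ∈ B) : 2 ≤ cnt B p q := by
  obtain ⟨s, hrs, hs⟩ := hF.exists_other h (hin.add (mem_cone_self hq))
  obtain ⟨_, d2, d3⟩ := (hF.nice _ h).distinct
  exact cnt_two d2.symm d3.symm h hs hrs

theorem rot_a (p q r : E3) : ({p, r, q} : Finset E3) = {p, q, r} := by
  rw [Finset.pair_comm]

theorem rot_b (p q r : E3) : ({q, r, p} : Finset E3) = {p, q, r} := by
  rw [Finset.pair_comm r p, Finset.insert_comm]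

theorem rot_c (p q r : E3) : ({q, p, r} : Finset E3) = {p, q, r} :=
  Finset.insert_comm _ _ _

theorem rot_d (p q r : E3) : ({r, p, q} : Finset E3) = {p, q, r} := by
  rw [Finset.insert_comm, Finset.pair_comm r q]

/-- The marked pairs: edges with an inner endpoint and boundary edges. -/
def Mk (W : Finset E3) (B : Finset (Finset E3)) (N : E3 → E3 → Prop) (p q : E3) : Prop :=
  (N p q ∧ (Inner W p ∨ Inner W q)) ∨ cnt B p q = 1

theorem Mk.symm {N : E3 → E3 → Prop} (hsymm : ∀ p q, N p q → N q p) {p q : E3}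
    (h : Mk W B N p q) : Mk W B N q p := by
  rcases h with ⟨h1, h2⟩ | h
  · left; exact ⟨hsymm _ _ h1, h2.symm⟩
  · right; rw [cnt_comm]; exact h

theorem Mk.inner (hF : Fan W B) {N : E3 → E3 → Prop} {p q r : E3}
    (h : ({p, q, r} : Finset E3) ∈ B) (hin : Inner W p) (hm : Mk W B N p q) : N p q := by
  rcases hm with ⟨h1, _⟩ | h1
  · exact h1
  · have := hF.inner_cnt (hF.sub _ h (by simp)) hin h
    omega

theorem Mk.outer {N : E3 → E3 → Prop} {p q : E3} (hm : Mk W B N p q) (np : ¬ Inner W p)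
    (nq : ¬ Inner W q) : cnt B p q = 1 := by
  rcases hm with ⟨_, h | h⟩ | h
  · exact absurd h np
  · exact absurd h nq
  · exact h

/-- A triangle with an inner vertex has an unmarked side. -/
theorem mk_key (hC : Cfg W) (hF : Fan W B) {N : E3 → E3 → Prop}
    (htri : ∀ p ∈ W, ∀ q ∈ W, ∀ r ∈ W, Inner W p → N p q → N p r → N q r → False)
    (hout : ∀ p ∈ W, Inner W p → ∀ q ∈ W, ∀ r ∈ W, q ≠ r → N p q → N p r →
      ∀ f : E3 →ₗ[ℝ] ℝ, f ≠ 0 → (∀ x ∈ W, 0 ≤ f x) → f q = 0 → f r = 0 → False)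
    {p q r : E3} (h : ({p, q, r} : Finset E3) ∈ B) (hqr : q ≠ r)
    (m1 : Mk W B N p q) (m2 : Mk W B N p r) (m3 : Mk W B N q r) (hin : Inner W p) : False := by
  have hpW : p ∈ W := hF.sub _ h (by simp)
  have hqW : q ∈ W := hF.sub _ h (by simp)
  have hrW : r ∈ W := hF.sub _ h (by simp)
  have h' : ({p, r, q} : Finset E3) ∈ B := by rw [rot_a]; exact h
  have n1 := m1.inner hF h hin
  have n2 := m2.inner hF h' hin
  by_cases hN3 : N q r
  · exact htri p hpW q hqW r hrW hin n1 n2 hN3
  · rcases m3 with ⟨m3, _⟩ | m3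
    · exact hN3 m3
    · obtain ⟨_, f, f0, f1, f2, f3⟩ := hF.boundary_data hC hqW hrW hqr m3
      exact hout p hpW hin q hqW r hrW hqr n1 n2 f f0 f1 f2 f3

/-- In every triangle some side is not marked. -/
theorem mk_claim (hC : Cfg W) (hF : Fan W B) {N : E3 → E3 → Prop}
    (hsymm : ∀ p q, N p q → N q p)
    (htri : ∀ p ∈ W, ∀ q ∈ W, ∀ r ∈ W, Inner W p → N p q → N p r → N q r → False)
    (hout : ∀ p ∈ W, Inner W p → ∀ q ∈ W, ∀ r ∈ W, q ≠ r → N p q → N p r →
      ∀ f : E3 →ₗ[ℝ] ℝ, f ≠ 0 → (∀ x ∈ W, 0 ≤ f x) → f q = 0 → f r = 0 → False)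
    (hI : ∃ p ∈ W, Inner W p) {τ : Finset E3} (hτ : τ ∈ B) :
    ∃ p ∈ τ, ∃ q ∈ τ, p ≠ q ∧ ¬ Mk W B N p q := by
  by_contra hcon
  push Not at hcon
  obtain ⟨a, b, c, hab, hac, hbc, rfl⟩ := Finset.card_eq_three.mp (hF.nice τ hτ).1
  have mab := hcon a (by simp) b (by simp) hab
  have mac := hcon a (by simp) c (by simp) hac
  have mbc := hcon b (by simp) c (by simp) hbc
  by_cases ia : Inner W a
  · exact mk_key hC hF htri hout hτ hbc mab mac mbc ia
  · by_cases ib : Inner W b
    · exact mk_key hC hF htri hout (by rw [rot_c]; exact hτ) hac (mab.symm hsymm) mbc mac ib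
    · by_cases ic : Inner W c
      · exact mk_key hC hF htri hout (by rw [rot_d]; exact hτ) hab (mac.symm hsymm)
          (mbc.symm hsymm) mab ic
      · -- no inner vertex: the triangle is everything
        have c1 := mab.outer ia ib
        have c2 := mac.outer ia ic
        have c3 := mbc.outer ib ic
        obtain ⟨p0, hp0, hin0⟩ := hI
        obtain ⟨τ0, hτ0, hp0τ⟩ := hF.exists_mem hC hp0
        have hne : τ0 ≠ {a, b, c} := by
          rintro rfl
          simp only [Finset.mem_insert, Finset.mem_singleton] at hp0τ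
          rcases hp0τ with rfl | rfl | rfl
          · exact ia hin0
          · exact ib hin0
          · exact ic hin0
        obtain ⟨p, q, r, s, hpq, hrs, g1, g2⟩ := hF.connected
          (Q := {({a, b, c} : Finset E3)}) (Finset.singleton_subset_iff.mpr hτ)
          (Finset.singleton_nonempty _)
          ⟨τ0, Finset.mem_sdiff.mpr ⟨hτ0, by rw [Finset.mem_singleton]; exact hne⟩⟩
        rw [Finset.mem_singleton] at g1
        rw [Finset.mem_sdiff, Finset.mem_singleton] at g2
        have g1' : ({p, q, r} : Finset E3) ∈ B := by rw [g1]; exact hτ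
        have hp : p ∈ ({a, b, c} : Finset E3) := by rw [← g1]; simp
        have hq : q ∈ ({a, b, c} : Finset E3) := by rw [← g1]; simp
        have h2 : 2 ≤ cnt B p q := by
          obtain ⟨_, d2, d3⟩ := (hF.nice _ g1').distinct
          exact cnt_two d2.symm d3.symm g1' g2.1 hrs
        have h1 : cnt B p q = 1 := by
          simp only [Finset.mem_insert, Finset.mem_singleton] at hp hq
          rcases hp with hp | hp | hp <;> rcases hq with hq | hq | hq <;> rw [hp, hq]
          · exact absurd (hp.trans hq.symm) hpq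
          · exact c1
          · exact c2
          · rw [cnt_comm]; exact c1
          · exact absurd (hp.trans hq.symm) hpq
          · exact c3
          · rw [cnt_comm]; exact c2
          · rw [cnt_comm]; exact c3
          · exact absurd (hp.trans hq.symm) hpq
        omega

/-- The upper bound for the number of incidences with marked sides. -/
theorem mk_upper (hC : Cfg W) (hF : Fan W B) {N : E3 → E3 → Prop}
    (hsymm : ∀ p q, N p q → N q p)
    (htri : ∀ p ∈ W, ∀ q ∈ W, ∀ r ∈ W, Inner W p → N p q → N p r → N q r → False)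
    (hout : ∀ p ∈ W, Inner W p → ∀ q ∈ W, ∀ r ∈ W, q ≠ r → N p q → N p r →
      ∀ f : E3 →ₗ[ℝ] ℝ, f ≠ 0 → (∀ x ∈ W, 0 ≤ f x) → f q = 0 → f r = 0 → False)
    (hI : ∃ p ∈ W, Inner W p) :
    ∑ p ∈ W, ∑ q ∈ W.filter (fun q => p ≠ q ∧ Mk W B N p q), cnt B p q ≤ 4 * B.card := by
  set EM := (W ×ˢ W).filter (fun e : E3 × E3 => e.1 ≠ e.2 ∧ Mk W B N e.1 e.2) with hEM
  have hsplit : ∑ e ∈ EM, cnt B e.1 e.2 =
      ∑ p ∈ W, ∑ q ∈ W.filter (fun q => p ≠ q ∧ Mk W B N p q), cnt B p q := by
    rw [hEM, Finset.sum_filter, Finset.sum_product]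
    apply Finset.sum_congr rfl
    intro p _
    rw [Finset.sum_filter]
  rw [← hsplit]
  have h1 : ∀ e ∈ EM, cnt B e.1 e.2 = ∑ τ ∈ B, (if e.1 ∈ τ ∧ e.2 ∈ τ then 1 else 0) := by
    intro e _
    rw [← Finset.card_filter]; rfl
  rw [Finset.sum_congr rfl h1, Finset.sum_comm, mul_comm]
  refine le_trans (Finset.sum_le_card_nsmul _ _ 4 ?_) (by rw [smul_eq_mul])
  intro τ hτ
  rw [← Finset.card_filter]
  obtain ⟨p, hp, q, hq, hpq, hnM⟩ := mk_claim hC hF hsymm htri hout hI hτ
  have hsub : EM.filter (fun e => e.1 ∈ τ ∧ e.2 ∈ τ) ⊆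
      (τ.offDiag.erase (p, q)).erase (q, p) := by
    intro e he
    rw [Finset.mem_filter] at he
    obtain ⟨he1, he2, he3⟩ := he
    rw [hEM, Finset.mem_filter] at he1
    obtain ⟨_, he4, he5⟩ := he1
    rw [Finset.mem_erase, Finset.mem_erase, Finset.mem_offDiag]
    refine ⟨?_, ?_, he2, he3, he4⟩
    · rintro rfl
      exact hnM (he5.symm hsymm)
    · rintro rfl
      exact hnM he5
  refine le_trans (Finset.card_le_card hsub) ?_
  rw [Finset.card_erase_of_mem, Finset.card_erase_of_mem, Finset.offDiag_card,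
    (hF.nice τ hτ).1]
  · rw [Finset.mem_offDiag]; exact ⟨hp, hq, hpq⟩
  · rw [Finset.mem_erase, Finset.mem_offDiag]
    refine ⟨?_, hq, hp, hpq.symm⟩
    intro hh
    exact hpq (Prod.ext_iff.mp hh).2

/-- The weighted count of the marked edges. -/
theorem rel_count (hC : Cfg W) (hF : Fan W B) {N : E3 → E3 → Prop}
    (hsymm : ∀ p q, N p q → N q p) (hedge : ∀ p ∈ W, ∀ q ∈ W, N p q → IsEdge0 W p q)
    (htri : ∀ p ∈ W, ∀ q ∈ W, ∀ r ∈ W, Inner W p → N p q → N p r → N q r → False)
    (hout : ∀ p ∈ W, Inner W p → ∀ q ∈ W, ∀ r ∈ W, q ≠ r → N p q → N p r →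
      ∀ f : E3 →ₗ[ℝ] ℝ, f ≠ 0 → (∀ x ∈ W, 0 ≤ f x) → f q = 0 → f r = 0 → False)
    {K : Finset E3} (hK : K.card ≤ 3)
    (hOK : ∀ o ∈ W, ¬ Inner W o → o ∈ K ∨ ∃ p ∈ W, Inner W p ∧ N o p)
    (hbd : ∀ o ∈ W, ¬ Inner W o → ∃ u ∈ W.erase o, cnt B o u = 1)
    (hI : ∃ p ∈ W, Inner W p)
    (h4 : ∀ p ∈ W, Inner W p → 4 ≤ (W.filter (fun q => N p q)).card) : False := by
  have hB3 : ∀ τ ∈ B, τ ⊆ W ∧ τ.card = 3 := fun τ hτ => ⟨hF.sub τ hτ, (hF.nice τ hτ).1⟩
  have cnt2 : ∀ {p q : E3}, p ∈ W → q ∈ W → N p q → Inner W p → 2 ≤ cnt B p q := by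
    intro p q hp hq hN hin
    obtain ⟨r, hr⟩ := hF.edge_cover hC hp hq (hedge p hp q hq hN)
    exact hF.inner_cnt hq hin hr
  have hup := mk_upper hC hF hsymm htri hout hI
  have hlow : ∀ p ∈ W, (if Inner W p then 8 else 4) ≤
      ∑ q ∈ W.filter (fun q => p ≠ q ∧ Mk W B N p q), cnt B p q +
        (if ¬ Inner W p ∧ p ∈ K then 2 else 0) := by
    intro p hp
    by_cases hin : Inner W p
    · rw [if_pos hin]
      have h1 : (W.filter (fun q => N p q)).card • 2 ≤ ∑ q ∈ W.filter (fun q => N p q), cnt B p q :=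
        Finset.card_nsmul_le_sum _ _ _ (fun q hq => by
          obtain ⟨h1, h2⟩ := Finset.mem_filter.mp hq
          exact cnt2 hp h1 h2 hin)
      have h2 : ∑ q ∈ W.filter (fun q => N p q), cnt B p q ≤
          ∑ q ∈ W.filter (fun q => p ≠ q ∧ Mk W B N p q), cnt B p q := by
        apply Finset.sum_le_sum_of_subset
        intro q hq
        obtain ⟨h1, h2⟩ := Finset.mem_filter.mp hq
        exact Finset.mem_filter.mpr ⟨h1, (hedge p hp q h1 h2).1, Or.inl ⟨h2, Or.inl hin⟩⟩
      have h3 := h4 p hp hin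
      rw [smul_eq_mul] at h1
      omega
    · rw [if_neg hin]
      obtain ⟨u, hu, hcu⟩ := hbd p hp hin
      obtain ⟨u', hu', hne, hcu'⟩ := exists_second B hB3 hu hcu
        (fun x hx => hF.cnt_le (Ne.symm (Finset.mem_erase.mp hx).1))
      obtain ⟨u1, u2⟩ := Finset.mem_erase.mp hu
      obtain ⟨u1', u2'⟩ := Finset.mem_erase.mp hu'
      rcases hOK p hp hin with hk | ⟨w, hw, hwin, hNw⟩
      · rw [if_pos ⟨hin, hk⟩]
        have h1 : ∑ q ∈ ({u, u'} : Finset E3), cnt B p q ≤
            ∑ q ∈ W.filter (fun q => p ≠ q ∧ Mk W B N p q), cnt B p q := by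
          apply Finset.sum_le_sum_of_subset
          intro q hq
          rw [Finset.mem_insert, Finset.mem_singleton] at hq
          rw [Finset.mem_filter]
          rcases hq with rfl | rfl
          · exact ⟨u2, u1.symm, Or.inr hcu⟩
          · exact ⟨u2', u1'.symm, Or.inr hcu'⟩
        rw [Finset.sum_pair hne.symm, hcu, hcu'] at h1
        omega
      · have hw2 : 2 ≤ cnt B p w := by
          rw [cnt_comm]
          exact cnt2 hw hp (hsymm _ _ hNw) hwin
        have wu : w ≠ u := by rintro rfl; omega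
        have wu' : w ≠ u' := by rintro rfl; omega
        have h1 : ∑ q ∈ ({w, u, u'} : Finset E3), cnt B p q ≤
            ∑ q ∈ W.filter (fun q => p ≠ q ∧ Mk W B N p q), cnt B p q := by
          apply Finset.sum_le_sum_of_subset
          intro q hq
          rw [Finset.mem_insert, Finset.mem_insert, Finset.mem_singleton] at hq
          rw [Finset.mem_filter]
          rcases hq with rfl | rfl | rfl
          · exact ⟨hw, (hedge p hp _ hw hNw).1, Or.inl ⟨hNw, Or.inr hwin⟩⟩
          · exact ⟨u2, u1.symm, Or.inr hcu⟩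
          · exact ⟨u2', u1'.symm, Or.inr hcu'⟩
        rw [Finset.sum_insert (by simp [wu, wu']), Finset.sum_pair hne.symm, hcu, hcu'] at h1
        split_ifs <;> omega
  have hsum := Finset.sum_le_sum hlow
  rw [Finset.sum_add_distrib] at hsum
  have hE := hF.euler hC
  have k1 : ∑ p ∈ W, (if Inner W p then 8 else 4) =
      8 * (W.filter (Inner W)).card + 4 * (W.filter (fun w => ¬ Inner W w)).card := by
    rw [Finset.sum_ite, Finset.sum_const, Finset.sum_const, smul_eq_mul, smul_eq_mul]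
    ring
  have k2 : ∑ p ∈ W, (if ¬ Inner W p ∧ p ∈ K then 2 else 0) ≤ 6 := by
    rw [← Finset.sum_filter, Finset.sum_const, smul_eq_mul]
    have : (W.filter (fun p => ¬ Inner W p ∧ p ∈ K)).card ≤ K.card := by
      apply Finset.card_le_card
      intro z hz
      exact (Finset.mem_filter.mp hz).2.2
    omega
  omega

end

end Run7.h169
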