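import Pool.Agent.Run7.h169.Tf1

set_option autoImplicit false
open scoped Classical Topology
open Filter

namespace Run7.h169

theorem Cfg.mono {W W' : Finset E3} (hC : Cfg W) (hsub : W' ⊆ W) (hfull : ∃ A, A ⊆ W' ∧ Nice A) :
    Cfg W' := by
  refine ⟨?_, hfull, ?_⟩
  · obtain ⟨l, hl⟩ := hC.ell
    exact ⟨l, fun y hy => hl y (hsub hy)⟩
  · intro x hx c hc hsum
    have hsub' : W'.erase x ⊆ W.erase x := Finset.erase_subset_erase _ hsub
    have e1 : ∑ y ∈ W.erase x, (if y ∈ W'.erase x then c y else 0) • y = x := by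
      refine Eq.trans ?_ hsum
      rw [← Finset.sum_subset hsub' (f := fun y => (if y ∈ W'.erase x then c y else 0) • y)]
      · apply Finset.sum_congr rfl
        intro y hy
        rw [if_pos hy]
      · intro y _ hy
        rw [if_neg hy, zero_smul]
    have e2 : ∑ y ∈ W.erase x, (if y ∈ W'.erase x then c y else 0) = ∑ y ∈ W'.erase x, c y := by
      rw [← Finset.sum_subset hsub' (f := fun y => (if y ∈ W'.erase x then c y else 0))]
      · apply Finset.sum_congr rfl
        intro y hy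
        rw [if_pos hy]
      · intro y _ hy
        rw [if_neg hy]
    have := hC.cvx x (hsub hx) _ (by
      intro y _
      beta_reduce
      split_ifs with h
      · exact hc y h
      · exact le_rfl) e1
    rw [e2] at this
    exact this

/-- The number of neighbours of a vertex. -/
noncomputable def sdeg (S : Finset E3) (p : E3) : ℕ := (S.filter (fun q => IsEdgeS S p q)).card

section

variable {S : Finset E3} {v a1 a2 a3 : E3} {φ1 φ2 φ3 : E3 →ₗ[ℝ] ℝ}

theorem Frm.ne12 (h : Frm S v a1 a2 a3 φ1 φ2 φ3) : a1 - v ≠ a2 - v := by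
  intro hh
  have := h.d11
  rw [hh, h.d12] at this
  exact zero_ne_one this

/-- A vertex on a coordinate plane has a boundary neighbour. -/
theorem Frm.bd_aux (h : Frm S v a1 a2 a3 φ1 φ2 φ3) {W' : Finset E3} {B : Finset (Finset E3)}
    (hC : Cfg W') (hF : Fan W' B) (hsub : W' ⊆ rel S v) (m1 : a1 - v ∈ W') (m2 : a2 - v ∈ W')
    {o : E3} (ho : o ∈ W') (ho3 : φ3 o = 0) : ∃ u ∈ W'.erase o, cnt B o u = 1 := by
  have f0 : φ3 ≠ 0 := by
    rintro rfl
    have := h.d33
    simp at this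
  have hf : ∀ x ∈ W', 0 ≤ φ3 x := fun x hx => (h.pos_rel (hsub hx)).2.2
  by_cases h1 : a1 - v = o
  · refine hF.boundary_nbr hC f0 hf ho m2 ?_ ho3 h.d32
    rw [← h1]
    exact h.ne12.symm
  · exact hF.boundary_nbr hC f0 hf ho m1 h1 ho3 h.d31

theorem Frm.cone_sub (h : Frm S v a1 a2 a3 φ1 φ2 φ3) {y : E3} (hy : y ∈ cone (rel S v)) :
    y ∈ cone {a1 - v, a2 - v, a3 - v} := by
  rw [h.cone_iff] at hy
  exact mem_cone3 hy.1 hy.2.1 hy.2.2 (h.ext y)

/-- Relative degeneracy: every set of inner vertices contains a vertex with at most three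
neighbours among the outer vertices and the vertices of the set. -/
theorem Frm.degenerate (hS : ConvPos S) (hspan : affineSpan ℝ (S : Set E3) = ⊤)
    (h : Frm S v a1 a2 a3 φ1 φ2 φ3)
    (htf : ∀ p ∈ S, 4 ≤ sdeg S p → ∀ q ∈ S, ∀ r ∈ S, IsEdgeS S p q → IsEdgeS S p r →
      IsEdgeS S q r → False)
    (hk : ∀ f : E3 →ₗ[ℝ] ℝ, (∀ y ∈ S, f v ≤ f y) → ∀ p ∈ S, 4 ≤ sdeg S p → f p ≠ f v →
      ∀ x ∈ S, ∀ y ∈ S, f x = f v → f y = f v → IsEdgeS S p x → IsEdgeS S p y → x = y)
    {X : Finset E3} (hX : X ⊆ (rel S v).filter (Inner (rel S v))) (hne : X.Nonempty) :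
    ∃ p ∈ X, ((rel S v).filter (fun q => IsEdge0 (rel S v) p q ∧
      (q ∈ X ∨ q ∉ (rel S v).filter (Inner (rel S v))))).card ≤ 3 := by
  by_contra hcon
  push Not at hcon
  set W := rel S v with hW
  set K : Finset E3 := {a1 - v, a2 - v, a3 - v} with hK
  set W' := W.filter (fun w => w ∈ X ∨ w ∈ K ∨ (¬ Inner W w ∧ ∃ p ∈ X, IsEdge0 W w p)) with hW'
  have hCW : Cfg W := cfg_rel hS hspan h.hv
  have hsub : W' ⊆ W := Finset.filter_subset _ _
  have hXin : ∀ {p : E3}, p ∈ X → p ∈ W ∧ Inner W p := fun hp => Finset.mem_filter.mp (hX hp)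
  have hXW' : ∀ {p : E3}, p ∈ X → p ∈ W' := fun hp =>
    Finset.mem_filter.mpr ⟨(hXin hp).1, Or.inl hp⟩
  have mK : ∀ {a : E3}, a ∈ K → a ∈ W := by
    intro a ha
    rw [hK] at ha
    simp only [Finset.mem_insert, Finset.mem_singleton] at ha
    rcases ha with rfl | rfl | rfl
    · exact h.a1_mem
    · exact h.swap12.a1_mem
    · exact h.swap23.swap12.a1_mem
  have hKW' : K ⊆ W' := fun a ha => Finset.mem_filter.mpr ⟨mK ha, Or.inr (Or.inl ha)⟩
  have nK : ∀ {a : E3}, a ∈ K → ¬ Inner W a := by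
    intro a ha hin
    rw [h.inner_iff] at hin
    rw [hK] at ha
    simp only [Finset.mem_insert, Finset.mem_singleton] at ha
    rcases ha with rfl | rfl | rfl
    · rw [h.d21] at hin; exact lt_irrefl _ hin.2.1
    · rw [h.d12] at hin; exact lt_irrefl _ hin.1
    · rw [h.d13] at hin; exact lt_irrefl _ hin.1
  have hC' : Cfg W' := hCW.mono hsub ⟨K, hKW', h.nice⟩
  have hcone : ∀ {y : E3}, y ∈ cone W → y ∈ cone W' := fun hy => cone_mono hKW' (h.cone_sub hy)
  have in1 : ∀ {y : E3}, Inner W y → Inner W' y := by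
    intro y hy r
    filter_upwards [hy r] with δ hδ
    exact hcone hδ
  have in2 : ∀ {y : E3}, Inner W' y → Inner W y := fun hy => hy.mono hsub
  have inX : ∀ {p : E3}, p ∈ W' → Inner W' p → p ∈ X := by
    intro p hp hin
    rcases (Finset.mem_filter.mp hp).2 with h1 | h1 | h1
    · exact h1
    · exact absurd (in2 hin) (nK h1)
    · exact absurd (in2 hin) h1.1
  obtain ⟨B, hF⟩ := fan_exists hC'
  have mS : ∀ {z : E3}, z ∈ W → z + v ∈ S := fun hz => (mem_rel.mp hz).1
  have ES : ∀ {p q : E3}, IsEdge0 W p q → IsEdgeS S (p + v) (q + v) := fun he => Frm.edge_rel he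
  have hdeg : ∀ {p : E3}, p ∈ X → 4 ≤ sdeg S (p + v) := by
    intro p hp
    have h1 := hcon p hp
    refine le_trans h1 ?_
    apply Finset.card_le_card_of_injOn (fun q => q + v)
    · intro q hq
      rw [Finset.mem_coe, Finset.mem_filter] at hq
      rw [Finset.mem_coe]
      exact Finset.mem_filter.mpr ⟨mS hq.1, ES hq.2.1⟩
    · intro a _ b _ hab
      exact add_right_cancel hab
  refine rel_count hC' hF (N := IsEdge0 W) (K := K) (fun p q he => he.symm) ?_ ?_ ?_
    Finset.card_le_three ?_ ?_ ?_ ?_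
  · rintro p _ q _ ⟨e1, f, e2, e3, e4⟩
    exact ⟨e1, f, e2, e3, fun x hx => e4 x (hsub hx)⟩
  · intro p hp q hq r hr hin npq npr nqr
    have hpX := inX hp hin
    exact htf _ (mS (hsub hp)) (hdeg hpX) _ (mS (hsub hq)) _ (mS (hsub hr)) (ES npq) (ES npr)
      (ES nqr)
  · intro p hp hin q hq r hr hqr npq npr f f0 f1 f2 f3
    have hpX := inX hp hin
    apply hqr
    apply add_right_cancel (b := v)
    refine hk f ?_ _ (mS (hsub hp)) (hdeg hpX) ?_ _ (mS (hsub hq)) _ (mS (hsub hr))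
      (by rw [map_add, f2, zero_add]) (by rw [map_add, f3, zero_add]) (ES npq) (ES npr)
    · intro y hy
      by_cases hyv : y = v
      · rw [hyv]
      · have := cone_nonneg f1 (hcone (mem_cone_self (sub_mem_rel hy hyv)))
        rw [map_sub] at this
        linarith
    · intro hh
      rw [map_add] at hh
      exact not_inner_of_support f0 f1 (y := p) (by linarith) hin
  · intro o ho hn
    rcases (Finset.mem_filter.mp ho).2 with h1 | h1 | ⟨_, p, hp, he⟩
    · exact absurd (in1 (hXin h1).2) hn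
    · exact Or.inl h1
    · exact Or.inr ⟨p, hXW' hp, in1 (hXin hp).2, he⟩
  · intro o ho hn
    have hn' : ¬ Inner W o := fun hh => hn (in1 hh)
    rw [h.inner_iff] at hn'
    obtain ⟨p1, p2, p3⟩ := h.pos_rel (hsub ho)
    have g1 : a1 - v ∈ W' := hKW' (by rw [hK]; simp)
    have g2 : a2 - v ∈ W' := hKW' (by rw [hK]; simp)
    have g3 : a3 - v ∈ W' := hKW' (by rw [hK]; simp)
    rcases eq_or_lt_of_le p3 with e3 | e3
    · exact h.bd_aux hC' hF hsub g1 g2 ho e3.symm
    · rcases eq_or_lt_of_le p2 with e2 | e2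
      · exact h.swap23.bd_aux hC' hF hsub g1 g3 ho e2.symm
      · rcases eq_or_lt_of_le p1 with e1 | e1
        · exact h.swap12.swap23.bd_aux hC' hF hsub g2 g3 ho e1.symm
        · exact absurd ⟨e1, e2, e3⟩ hn'
  · obtain ⟨p, hp⟩ := hne
    exact ⟨p, hXW' hp, in1 (hXin hp).2⟩
  · intro p hp hin
    have hpX := inX hp hin
    refine le_trans (hcon p hpX) (Finset.card_le_card ?_)
    intro q hq
    rw [Finset.mem_filter] at hq ⊢
    obtain ⟨hq1, hq2, hq3⟩ := hq
    refine ⟨?_, hq2⟩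
    rw [hW', Finset.mem_filter]
    refine ⟨hq1, ?_⟩
    rcases hq3 with h1 | h1
    · exact Or.inl h1
    · right; right
      exact ⟨fun hh => h1 (Finset.mem_filter.mpr ⟨hq1, hh⟩), p, hpX, hq2.symm⟩

/-- The colouring at a good simple vertex. -/
theorem good_corner (hS : ConvPos S) (hspan : affineSpan ℝ (S : Set E3) = ⊤)
    (h : Frm S v a1 a2 a3 φ1 φ2 φ3)
    (htf : ∀ p ∈ S, 4 ≤ sdeg S p → ∀ q ∈ S, ∀ r ∈ S, IsEdgeS S p q → IsEdgeS S p r →
      IsEdgeS S q r → False)
    (hk : ∀ f : E3 →ₗ[ℝ] ℝ, (∀ y ∈ S, f v ≤ f y) → ∀ p ∈ S, 4 ≤ sdeg S p → f p ≠ f v →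
      ∀ x ∈ S, ∀ y ∈ S, f x = f v → f y = f v → IsEdgeS S p x → IsEdgeS S p y → x = y)
    (hnb : ∀ x y, Bad S v x y → φ2 (x - v) = 0 ∨ φ2 (y - v) = 0) : HasHamTet S := by
  set W := rel S v with hW
  have hC : Cfg W := cfg_rel hS hspan h.hv
  apply hasHamTet_of_rel h.hv
  have pos := fun z (hz : z ∈ W) => h.pos_rel hz
  set I := W.filter (Inner W) with hI
  obtain ⟨χ, ρ, hχ0, hχ⟩ := greedy_deg (IsEdge0 W) (fun x hx => hx.1 rfl)
    (fun x => decide (φ2 x = 0)) I.card W I rfl (Finset.filter_subset _ _)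
    (fun X hX hne => h.degenerate hS hspan htf hk hX hne)
  have χout : ∀ x, ¬ Inner W x → χ x = decide (φ2 x = 0) :=
    fun x hx => hχ0 x (fun hh => hx (Finset.mem_filter.mp hh).2)
  have χt : ∀ x, ¬ Inner W x → χ x = true → φ2 x = 0 := by
    intro x hx hc
    rw [χout x hx] at hc
    exact of_decide_eq_true hc
  have χf : ∀ x, ¬ Inner W x → χ x = false → φ2 x ≠ 0 := by
    intro x hx hc
    rw [χout x hx] at hc
    exact of_decide_eq_false hc
  refine hasHamTet_of_col hC (χ := χ) ⟨?_, ?_, ?_, ?_⟩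
  · -- both colours occur
    refine ⟨a1 - v, h.a1_mem, a2 - v, h.swap12.a1_mem, ?_⟩
    have n1 : ¬ Inner W (a1 - v) := by
      rw [h.inner_iff, h.d21]; intro hh; exact lt_irrefl _ hh.2.1
    have n2 : ¬ Inner W (a2 - v) := by
      rw [h.inner_iff, h.d12]; intro hh; exact lt_irrefl _ hh.1
    rw [χout _ n1, χout _ n2, h.d21, h.d22]
    simp
  · -- no monochromatic chords
    intro p hp q hq np nq he hc hin
    have h2 := (h.inner_iff.mp hin).2.1
    rw [map_add] at h2
    rcases hnb _ _ (bad_of_chord hC h.hv hp hq np nq he hin) with g | g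
    · rw [add_sub_cancel_right] at g
      have c1 : χ p = true := by rw [χout p np, g]; simp
      have c2 := χt q nq (by rw [← hc]; exact c1)
      rw [g, c2, add_zero] at h2
      exact lt_irrefl _ h2
    · rw [add_sub_cancel_right] at g
      have c1 : χ q = true := by rw [χout q nq, g]; simp
      have c2 := χt p np (by rw [hc]; exact c1)
      rw [g, c2, add_zero] at h2
      exact lt_irrefl _ h2
  · -- forest condition
    refine ⟨ρ, ?_⟩
    intro p hp hin x hx y hy ex ey cx cy rx ry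
    exact hχ p (Finset.mem_filter.mpr ⟨hp, hin⟩) x hx y hy ex ey cx cy
      (fun hh => rx (Finset.mem_filter.mp hh).2) (fun hh => ry (Finset.mem_filter.mp hh).2)
  · -- at most two bichromatic outer edges
    intro B hF
    set X := (W ×ˢ W).filter
      (fun e => χ e.1 = true ∧ χ e.2 = false ∧ cnt B e.1 e.2 = 1) with hX
    -- structure of such an edge
    have hstr : ∀ e ∈ X, (∃ r, ({e.1, e.2, r} : Finset E3) ∈ B) ∧
        ((e.1 = a1 - v ∧ φ3 e.2 = 0 ∧ 0 < φ2 e.2) ∨
        (e.1 = a3 - v ∧ φ1 e.2 = 0 ∧ 0 < φ2 e.2)) := by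
      intro e he
      rw [hX, Finset.mem_filter, Finset.mem_product] at he
      obtain ⟨⟨hp, hq⟩, cp, cq, hcnt⟩ := he
      have hpq : e.1 ≠ e.2 := by
        intro hh
        rw [hh, cq] at cp
        simp at cp
      obtain ⟨hr, f, f0, f1, f2, f3⟩ := hF.boundary_data hC hp hq hpq hcnt
      have np : ¬ Inner W e.1 := not_inner_of_support f0 f1 f2
      have nq : ¬ Inner W e.2 := not_inner_of_support f0 f1 f3
      have hnin : ¬ Inner W (e.1 + e.2) :=
        not_inner_of_support f0 f1 (by rw [map_add, f2, f3, add_zero])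
      refine ⟨hr, ?_⟩
      have tp := χt _ np cp
      have fq := χf _ nq cq
      obtain ⟨p1, p2, p3⟩ := pos _ hp
      obtain ⟨q1, q2, q3⟩ := pos _ hq
      have q2' : 0 < φ2 e.2 := lt_of_le_of_ne q2 fq.symm
      have hz : (φ1 e.1 = 0 ∧ φ1 e.2 = 0) ∨ (φ3 e.1 = 0 ∧ φ3 e.2 = 0) := by
        by_contra hcon
        push Not at hcon
        obtain ⟨g1, g3⟩ := hcon
        apply hnin
        rw [h.inner_iff, map_add, map_add, map_add]
        refine ⟨?_, by linarith, ?_⟩
        · rcases eq_or_lt_of_le p1 with e' | e'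
          · have := lt_of_le_of_ne q1 (Ne.symm (g1 e'.symm)); linarith
          · linarith
        · rcases eq_or_lt_of_le p3 with e' | e'
          · have := lt_of_le_of_ne q3 (Ne.symm (g3 e'.symm)); linarith
          · linarith
      rcases hz with g | g
      · right
        exact ⟨h.ray_rel hS hp g.1 tp, g.2, q2'⟩
      · left
        exact ⟨h.swap12.swap23.ray_rel hS hp tp g.1, g.2, q2'⟩
    have hsub : X ⊆ (X.filter (fun e => e.1 = a1 - v ∧ φ3 e.2 = 0 ∧ 0 < φ2 e.2)) ∪
        (X.filter (fun e => e.1 = a3 - v ∧ φ1 e.2 = 0 ∧ 0 < φ2 e.2)) := by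
      intro e he
      rw [Finset.mem_union]
      rcases (hstr e he).2 with g | g
      · left; exact Finset.mem_filter.mpr ⟨he, g⟩
      · right; exact Finset.mem_filter.mpr ⟨he, g⟩
    have c1 : (X.filter (fun e => e.1 = a1 - v ∧ φ3 e.2 = 0 ∧ 0 < φ2 e.2)).card ≤ 1 := by
      rw [Finset.card_le_one]
      intro e he e' he'
      obtain ⟨heX, g1, g2, g3⟩ := Finset.mem_filter.mp he
      obtain ⟨heX', g1', g2', g3'⟩ := Finset.mem_filter.mp he'
      have g3n := g3.ne'
      obtain ⟨r, hr⟩ := (hstr e heX).1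
      obtain ⟨r', hr'⟩ := (hstr e' heX').1
      rw [g1] at hr
      rw [g1'] at hr'
      have key : e.2 = e'.2 := by
        refine hF.corner_unique hr hr' (l := φ1 e'.2 - φ2 e'.2 / φ2 e.2 * φ1 e.2)
          (m := φ2 e'.2 / φ2 e.2) (by positivity) ?_
        have x1 := h.ext e.2
        have x2 := h.ext e'.2
        rw [g2, zero_smul, add_zero, add_comm] at x1
        rw [g2', zero_smul, add_zero, add_comm] at x2
        exact ray_comb g3n x1 x2
      exact Prod.ext (g1.trans g1'.symm) key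
    have c2 : (X.filter (fun e => e.1 = a3 - v ∧ φ1 e.2 = 0 ∧ 0 < φ2 e.2)).card ≤ 1 := by
      rw [Finset.card_le_one]
      intro e he e' he'
      obtain ⟨heX, g1, g2, g3⟩ := Finset.mem_filter.mp he
      obtain ⟨heX', g1', g2', g3'⟩ := Finset.mem_filter.mp he'
      have g3n := g3.ne'
      obtain ⟨r, hr⟩ := (hstr e heX).1
      obtain ⟨r', hr'⟩ := (hstr e' heX').1
      rw [g1] at hr
      rw [g1'] at hr'
      have key : e.2 = e'.2 := by
        refine hF.corner_unique hr hr' (l := φ3 e'.2 - φ2 e'.2 / φ2 e.2 * φ3 e.2)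
          (m := φ2 e'.2 / φ2 e.2) (by positivity) ?_
        have x1 := h.ext e.2
        have x2 := h.ext e'.2
        rw [g2, zero_smul, zero_add] at x1
        rw [g2', zero_smul, zero_add] at x2
        exact ray_comb g3n x1 x2
      exact Prod.ext (g1.trans g1'.symm) key
    calc X.card ≤ _ := Finset.card_le_card hsub
      _ ≤ _ := Finset.card_union_le _ _
      _ ≤ 1 + 1 := Nat.add_le_add c1 c2

end

end Run7.h169
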