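import Pool.Agent.Run7.h169.Tf2

set_option autoImplicit false
open scoped Classical Topology
open Filter

namespace Run7.h169

/-- The cap above a plane with an extra point below. -/
noncomputable def capS (S : Finset E3) (h : E3 →ₗ[ℝ] ℝ) (v s0 : E3) : Finset E3 :=
  insert s0 (S.filter (fun u => h v ≤ h u))

/-- A bad chord, its plane and an auxiliary point of the polytope below the plane. -/
structure CapData (S : Finset E3) (v x y s0 : E3) (h : E3 →ₗ[ℝ] ℝ) : Prop where
  conv : ConvPos S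
  bad : Bad S v x y
  h0 : h ≠ 0
  hx : h x = h v
  hy : h y = h v
  hull : s0 ∈ convexHull ℝ (S : Set E3)
  low : h s0 < h v
  Q : ∀ (f : E3 →ₗ[ℝ] ℝ) (M : ℝ), (∀ z ∈ S, f z ≤ M) →
    f s0 ≤ M ∧ (f s0 = M → f v = M ∧ f x = M ∧ f y = M)

section

variable {S : Finset E3} {v x y s0 : E3} {h : E3 →ₗ[ℝ] ℝ}

theorem Bad.capData (hS : ConvPos S) (b : Bad S v x y) (h0 : h ≠ 0) (hx : h x = h v)
    (hy : h y = h v) : ∃ s0, CapData S v x y s0 h := by
  obtain ⟨b0, hb0, hb0'⟩ := b.exists_above (neg_ne_zero.mpr h0)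
    (by show -(h x) = -(h v); rw [hx]) (by show -(h y) = -(h v); rw [hy])
  have hb1 : h b0 < h v := by
    have : -(h v) < -(h b0) := hb0'
    linarith
  have key : ∀ f : E3 →ₗ[ℝ] ℝ,
      f ((1 - (1 / 2 : ℝ)) • ((1 - (1 / 2 : ℝ)) • b0 + (1 / 2 : ℝ) • v) +
        (1 / 2 : ℝ) • ((1 - (1 / 2 : ℝ)) • x + (1 / 2 : ℝ) • y)) =
      (f b0 + f v + f x + f y) / 4 := by
    intro f
    simp only [map_add, map_smul, smul_eq_mul]
    ring
  refine ⟨(1 - (1 / 2 : ℝ)) • ((1 - (1 / 2 : ℝ)) • b0 + (1 / 2 : ℝ) • v) +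
    (1 / 2 : ℝ) • ((1 - (1 / 2 : ℝ)) • x + (1 / 2 : ℝ) • y), hS, b, h0, hx, hy, ?_, ?_, ?_⟩
  · have m : ∀ z ∈ S, z ∈ convexHull ℝ (S : Set E3) := fun z hz => subset_convexHull ℝ _ hz
    exact seg_mem_hull (seg_mem_hull (m _ hb0) (m _ b.hv) (by norm_num) (by norm_num))
      (seg_mem_hull (m _ b.hx) (m _ b.hy) (by norm_num) (by norm_num)) (by norm_num)
      (by norm_num)
  · rw [key, hx, hy]
    linarith
  · intro f M hM
    rw [key]
    have m1 := hM b0 hb0
    have m2 := hM v b.hv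
    have m3 := hM x b.hx
    have m4 := hM y b.hy
    refine ⟨by linarith, ?_⟩
    intro he
    exact ⟨by linarith, by linarith, by linarith⟩

theorem CapData.swap (C : CapData S v x y s0 h) : CapData S v y x s0 h :=
  ⟨C.conv, C.bad.symm, C.h0, C.hy, C.hx, C.hull, C.low, fun f M hM =>
    ⟨(C.Q f M hM).1, fun he => by
      obtain ⟨h1, h2, h3⟩ := (C.Q f M hM).2 he
      exact ⟨h1, h3, h2⟩⟩⟩

theorem mem_capS {u : E3} : u ∈ capS S h v s0 ↔ u = s0 ∨ (u ∈ S ∧ h v ≤ h u) := by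
  unfold capS
  rw [Finset.mem_insert, Finset.mem_filter]

theorem CapData.m0 (_ : CapData S v x y s0 h) : s0 ∈ capS S h v s0 := mem_capS.mpr (Or.inl rfl)

theorem CapData.mv (C : CapData S v x y s0 h) : v ∈ capS S h v s0 :=
  mem_capS.mpr (Or.inr ⟨C.bad.hv, le_rfl⟩)

theorem CapData.mx (C : CapData S v x y s0 h) : x ∈ capS S h v s0 :=
  mem_capS.mpr (Or.inr ⟨C.bad.hx, C.hx.ge⟩)

theorem CapData.my (C : CapData S v x y s0 h) : y ∈ capS S h v s0 :=
  mem_capS.mpr (Or.inr ⟨C.bad.hy, C.hy.ge⟩)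

theorem CapData.tri (C : CapData S v x y s0 h) {c : E3} (hc : c ∈ S) (hcv : h c = h v) :
    c = v ∨ c = x ∨ c = y := C.bad.tri_mem C.conv C.h0 C.hx C.hy hc hcv

theorem CapData.ne_s0 (C : CapData S v x y s0 h) {u : E3} (hu : h v ≤ h u) : u ≠ s0 := by
  rintro rfl
  linarith [C.low]

theorem mem_capS_ne {u : E3} (hu : u ∈ capS S h v s0) (hne : u ≠ s0) : u ∈ S ∧ h v ≤ h u := by
  rcases mem_capS.mp hu with hh | hh
  · exact absurd hh hne
  · exact hh

/-- Three values of a functional that are all maximal. -/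
theorem CapData.lt_of (C : CapData S v x y s0 h) {f : E3 →ₗ[ℝ] ℝ} {M : ℝ}
    (hM : ∀ z ∈ S, f z ≤ M) (hne : ¬ (f v = M ∧ f x = M ∧ f y = M)) : f s0 < M := by
  obtain ⟨h1, h2⟩ := C.Q f M hM
  exact lt_of_le_of_ne h1 (fun hh => hne (h2 hh))

theorem ConvPos.expose (hS : ConvPos S) {z : E3} (hz : z ∈ S) :
    ∃ f : E3 →ₗ[ℝ] ℝ, ∀ w ∈ S, w ≠ z → f w < f z := by
  obtain ⟨f, u, h1, h2⟩ := geometric_hahn_banach_point_closed (convex_convexHull ℝ _)
    ((S.erase z).finite_toSet.isCompact_convexHull (𝕜 := ℝ)).isClosed (hS z hz)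
  refine ⟨-f.toLinearMap, ?_⟩
  intro w hw hwz
  have := h2 w (subset_convexHull ℝ _ (Finset.mem_coe.mpr (Finset.mem_erase.mpr ⟨hwz, hw⟩)))
  show -(f w) < -(f z)
  linarith

theorem notMem_hull_of_lt {T : Finset E3} {f : E3 →ₗ[ℝ] ℝ} {z : E3} (hT : ∀ w ∈ T, f w < f z) :
    z ∉ convexHull ℝ (T : Set E3) := by
  intro hz
  obtain ⟨c, h0, h1, h2⟩ := mem_hull.mp hz
  have e : f z = ∑ w ∈ T, c w * f w := by
    rw [← h2, map_sum]
    apply Finset.sum_congr rfl
    intro w _
    rw [map_smul, smul_eq_mul]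
  obtain ⟨w, hw, hw0⟩ : ∃ w ∈ T, c w ≠ 0 := by
    by_contra hcon
    push Not at hcon
    rw [Finset.sum_eq_zero hcon] at h1
    exact zero_ne_one h1
  have : ∑ w ∈ T, c w * f w < ∑ w ∈ T, c w * f z := by
    apply Finset.sum_lt_sum
    · intro i hi
      exact mul_le_mul_of_nonneg_left (hT i hi).le (h0 i hi)
    · exact ⟨w, hw, mul_lt_mul_of_pos_left (hT w hw) (lt_of_le_of_ne (h0 w hw) hw0.symm)⟩
  rw [← Finset.sum_mul, h1, one_mul, ← e] at this
  exact lt_irrefl _ this

theorem CapData.convPos (C : CapData S v x y s0 h) : ConvPos (capS S h v s0) := by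
  intro p hp
  by_cases hps : p = s0
  · apply notMem_hull_of_lt (f := -h)
    intro w hw
    obtain ⟨w1, w2⟩ := Finset.mem_erase.mp hw
    have := (mem_capS_ne w2 (by rw [← hps]; exact w1)).2
    show -(h w) < -(h p)
    rw [hps]
    linarith [C.low]
  · obtain ⟨hpS, hph⟩ := mem_capS_ne hp hps
    obtain ⟨f, hf⟩ := C.conv.expose hpS
    apply notMem_hull_of_lt (f := f)
    intro w hw
    obtain ⟨w1, w2⟩ := Finset.mem_erase.mp hw
    by_cases hws : w = s0
    · rw [hws]
      apply C.lt_of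
      · intro z hz
        by_cases hzp : z = p
        · rw [hzp]
        · exact (hf z hz hzp).le
      · rintro ⟨g1, g2, g3⟩
        have k1 : v = p := by
          by_contra hne
          exact (hf v C.bad.hv hne).ne g1
        have k2 : x = p := by
          by_contra hne
          exact (hf x C.bad.hx hne).ne g2
        exact C.bad.vx (k1.trans k2.symm)
    · exact hf w (mem_capS_ne w2 hws).1 w1

theorem CapData.frm (C : CapData S v x y s0 h) :
    ∃ ψ1 ψ2 ψ3, Frm (capS S h v s0) s0 v x y ψ1 ψ2 ψ3 := by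
  obtain ⟨fx, fx0, fx1, fx2⟩ := C.bad.cx
  obtain ⟨ee, e1, e2, e3⟩ := C.bad.edge.le
  have k1 : 0 < fx (y - v) := by
    have h1 := fx1 y C.bad.hy
    rw [map_sub]
    refine lt_of_le_of_ne (by linarith) (fun hh => C.bad.no ⟨fx, fx0, fx1, fx2, by linarith⟩)
  rw [map_sub] at k1
  have hs := C.low
  have hk : h v - h s0 ≠ 0 := by linarith
  have hx := C.hx
  have hy := C.hy
  have hN : Nice {v - s0, x - s0, y - s0} := by
    refine nice_of_functionals (f1 := ee - (ee (x - s0) / (h v - h s0)) • h)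
      (f2 := fx - (fx (y - s0) / (h v - h s0)) • h) (f3 := h) ?_ ?_ ?_ ?_ ?_ ?_
    · show ee (v - s0) - ee (x - s0) / (h v - h s0) * h (v - s0) ≠ 0
      rw [map_sub h, div_mul_cancel₀ _ hk, map_sub, map_sub]
      have := e3 v C.bad.hv C.bad.vx C.bad.vy
      linarith
    · show ee (x - s0) - ee (x - s0) / (h v - h s0) * h (x - s0) = 0
      rw [map_sub h, hx, div_mul_cancel₀ _ hk, sub_self]
    · show ee (y - s0) - ee (x - s0) / (h v - h s0) * h (y - s0) = 0
      rw [map_sub h, hy, div_mul_cancel₀ _ hk, map_sub, map_sub]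
      linarith
    · show fx (x - s0) - fx (y - s0) / (h v - h s0) * h (x - s0) ≠ 0
      rw [map_sub h, hx, div_mul_cancel₀ _ hk, map_sub, map_sub]
      linarith
    · show fx (y - s0) - fx (y - s0) / (h v - h s0) * h (y - s0) = 0
      rw [map_sub h, hy, div_mul_cancel₀ _ hk, sub_self]
    · rw [map_sub, hy]; exact hk
  refine ⟨_, _, _, frm_of_nice C.m0 C.mv C.mx C.my hN ?_⟩
  intro z hz
  by_cases hzs : z = s0
  · rw [hzs]
    exact ⟨0, 0, 0, le_rfl, le_rfl, le_rfl, by simp⟩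
  · obtain ⟨hzS, hz1⟩ := mem_capS_ne hz hzs
    have hd : 0 < h z - h s0 := by linarith
    set t := (h v - h s0) / (h z - h s0) with ht
    have ht0 : 0 < t := div_pos (by linarith) hd
    have ht1 : t ≤ 1 := by rw [ht, div_le_one hd]; linarith
    have hm : (1 - t) • s0 + t • z ∈ convexHull ℝ (S : Set E3) :=
      seg_mem_hull C.hull (subset_convexHull ℝ _ hzS) ht0.le ht1
    have hmv : h ((1 - t) • s0 + t • z) = h v := by
      rw [map_add, map_smul, map_smul, smul_eq_mul, smul_eq_mul]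
      have : t * (h z - h s0) = h v - h s0 := by rw [ht]; field_simp
      linarith
    obtain ⟨α, β, γ, p1, p2, p3, p4, p5⟩ := C.bad.section C.h0 hx hy hm hmv
    refine ⟨α / t, β / t, γ / t, div_nonneg p1 ht0.le, div_nonneg p2 ht0.le,
      div_nonneg p3 ht0.le, ?_⟩
    have e4 : t • (z - s0) = α • (v - s0) + β • (x - s0) + γ • (y - s0) := by
      have e5 : t • (z - s0) = ((1 - t) • s0 + t • z) - s0 := by module
      rw [e5, p5]
      have : s0 = (α + β + γ) • s0 := by rw [p4, one_smul]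
      conv_lhs => rw [this]
      module
    have e6 : z - s0 = (1 / t) • (t • (z - s0)) := by
      rw [smul_smul, one_div_mul_cancel ht0.ne', one_smul]
    rw [e6, e4]
    match_scalars <;> field_simp

theorem CapData.aux_pos (C : CapData S v x y s0 h) {u p q : E3} (hu : h v < h u)
    {α β : ℝ} (hp : h p = h v) (hq : h q = h v) (e : u - s0 = α • (p - s0) + β • (q - s0))
    {G : E3 →ₗ[ℝ] ℝ} {M : ℝ} (gp : G p = M) (gq : G q = M) (gs : G s0 < M) : M < G u := by
  have h1 := congrArg h e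
  simp only [map_add, map_smul, map_sub, smul_eq_mul, hp, hq] at h1
  have h2 := congrArg G e
  simp only [map_add, map_smul, map_sub, smul_eq_mul, gp, gq] at h2
  have h3 : (α + β) * (h v - h s0) = h u - h s0 := by linarith
  have h4 : (α + β) * (M - G s0) = G u - G s0 := by linarith
  have h5 : 0 < h v - h s0 := by linarith [C.low]
  have h6 : 1 < α + β := by
    by_contra hcon
    push Not at hcon
    nlinarith
  nlinarith

theorem CapData.inner (C : CapData S v x y s0 h) {u : E3} (hu : u ∈ S) (huh : h v < h u) :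
    Inner (rel (capS S h v s0) s0) (u - s0) := by
  obtain ⟨ψ1, ψ2, ψ3, hψ⟩ := C.frm
  rw [hψ.inner_iff]
  have hum : u ∈ capS S h v s0 := mem_capS.mpr (Or.inr ⟨hu, huh.le⟩)
  obtain ⟨p1, p2, p3⟩ := hψ.pos u hum
  have e := hψ.ext (u - s0)
  obtain ⟨fx, fx0, fx1, fx2⟩ := C.bad.cx
  obtain ⟨fy, fy0, fy1, fy2⟩ := C.bad.cy
  obtain ⟨ee, e1, e2, e3⟩ := C.bad.edge.le
  refine ⟨?_, ?_, ?_⟩
  · refine lt_of_le_of_ne p1 (fun h0 => ?_)
    rw [← h0, zero_smul, zero_add] at e
    have h1 := C.aux_pos huh C.hx C.hy e.symm (G := ee) rfl e1.symm (C.lt_of e2 (by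
      rintro ⟨g1, _, _⟩
      exact (e3 v C.bad.hv C.bad.vx C.bad.vy).ne g1))
    linarith [e2 u hu]
  · refine lt_of_le_of_ne p2 (fun h0 => ?_)
    rw [← h0, zero_smul, add_zero] at e
    have h1 := C.aux_pos huh rfl C.hy e.symm (G := -fy) (M := -(fy v)) rfl
      (by show -(fy y) = -(fy v); rw [fy2]) (C.lt_of (f := -fy) (M := -(fy v))
      (fun z hz => by show -(fy z) ≤ -(fy v); linarith [fy1 z hz]) (by
        rintro ⟨_, g2, _⟩
        have g2' : -(fy x) = -(fy v) := g2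
        exact C.bad.no ⟨fy, fy0, fy1, by linarith, fy2⟩))
    have h2 : -(fy v) < -(fy u) := h1
    linarith [fy1 u hu]
  · refine lt_of_le_of_ne p3 (fun h0 => ?_)
    rw [← h0, zero_smul, add_zero] at e
    have h1 := C.aux_pos huh rfl C.hx e.symm (G := -fx) (M := -(fx v)) rfl
      (by show -(fx x) = -(fx v); rw [fx2]) (C.lt_of (f := -fx) (M := -(fx v))
      (fun z hz => by show -(fx z) ≤ -(fx v); linarith [fx1 z hz]) (by
        rintro ⟨_, _, g3⟩
        have g3' : -(fx y) = -(fx v) := g3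
        exact C.bad.no ⟨fx, fx0, fx1, fx2, by linarith⟩))
    have h2 : -(fx v) < -(fx u) := h1
    linarith [fx1 u hu]

/-- A neighbour of an inner vertex is not the apex. -/
theorem not_edge_of_inner (hC : Cfg (rel S s0)) {z : E3} (hin : Inner (rel S s0) (z - s0)) :
    ¬ IsEdgeS S z s0 := by
  intro he
  obtain ⟨e, e1, e2, e3⟩ := he.le
  by_cases h3 : ∃ w ∈ S, w ≠ z ∧ w ≠ s0
  · obtain ⟨w, w1, w2, w3⟩ := h3
    refine not_inner_of_support (W := rel S s0) (f := -e) ?_ ?_ (y := z - s0) ?_ hin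
    · intro h0
      have h1 : e = 0 := neg_eq_zero.mp h0
      have := e3 w w1 w2 w3
      rw [h1] at this
      simp at this
    · intro x hx
      show 0 ≤ -(e x)
      have := e2 _ (mem_rel.mp hx).1
      rw [map_add] at this
      linarith
    · show -(e (z - s0)) = 0
      rw [map_sub]
      linarith
  · push Not at h3
    obtain ⟨A, hA, hAn⟩ := hC.full
    have : A ⊆ {z - s0} := by
      intro w hw
      rw [Finset.mem_singleton]
      by_contra hwz
      obtain ⟨g1, g2⟩ := mem_rel.mp (hA hw)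
      have := h3 _ g1 (fun hh => hwz (by rw [← hh]; abel))
      exact g2 (by simpa using this)
    have h4 := Finset.card_le_card this
    rw [hAn.1, Finset.card_singleton] at h4
    omega

theorem CapData.span (C : CapData S v x y s0 h) :
    affineSpan ℝ (capS S h v s0 : Set E3) = ⊤ := by
  obtain ⟨ψ1, ψ2, ψ3, hψ⟩ := C.frm
  exact hψ.span

theorem CapData.cfg (C : CapData S v x y s0 h) : Cfg (rel (capS S h v s0) s0) :=
  cfg_rel C.convPos C.span C.m0

theorem CapData.ne_edge (C : CapData S v x y s0 h) {u : E3} (hu : u ∈ S) (huh : h v < h u) :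
    ¬ IsEdgeS (capS S h v s0) u s0 := not_edge_of_inner C.cfg (C.inner hu huh)

/-- Edges of the cap at a vertex above the plane are edges. -/
theorem CapData.up_edge (C : CapData S v x y s0 h) {u q : E3} (hu : u ∈ S) (huh : h v < h u)
    (he : IsEdgeS (capS S h v s0) u q) : IsEdgeS S u q := by
  obtain ⟨hpq, e, e1, e2⟩ := he
  have hum : u ∈ capS S h v s0 := mem_capS.mpr (Or.inr ⟨hu, huh.le⟩)
  have ele : ∀ w ∈ capS S h v s0, e w ≤ e u := by
    intro w hw
    by_cases w1 : w = u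
    · rw [w1]
    · by_cases w2 : w = q
      · rw [w2, e1]
      · exact (e2 w hw w1 w2).le
  refine ⟨hpq, e, e1, ?_⟩
  intro z hz zu zq
  by_cases hzm : h v ≤ h z
  · exact e2 z (mem_capS.mpr (Or.inr ⟨hz, hzm⟩)) zu zq
  · push Not at hzm
    exact C.bad.push_edge C.conv C.h0 C.hx C.hy hu hz huh hzm (ele _ C.mv) (ele _ C.mx)
      (ele _ C.my) le_rfl
      (q := q) (fun hq' => e2 _ C.mv (by rintro rfl; exact lt_irrefl _ huh) hq')
      (fun hq' => e2 _ C.mx (by rintro rfl; linarith [C.hx]) hq')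
      (fun hq' => e2 _ C.my (by rintro rfl; linarith [C.hy]) hq')

/-- Supporting planes of the cap at a vertex above the plane support the polytope. -/
theorem CapData.supp (C : CapData S v x y s0 h) {u : E3} (hu : u ∈ S) (huh : h v < h u)
    {π : E3 →ₗ[ℝ] ℝ} (hπ : ∀ z ∈ S, h v ≤ h z → π z ≤ π u) : ∀ z ∈ S, π z ≤ π u := by
  intro z hz
  by_cases hzm : h v ≤ h z
  · exact hπ z hz hzm
  · push Not at hzm
    exact C.bad.push_le C.h0 C.hx C.hy hu hz huh hzm (hπ v C.bad.hv le_rfl)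
      (hπ x C.bad.hx C.hx.ge) (hπ y C.bad.hy C.hy.ge) le_rfl

theorem CapData.hasFrm (C : CapData S v x y s0 h) {u : E3} (hu : u ∈ S) (huh : h v < h u)
    (hf : HasFrm (capS S h v s0) u) : HasFrm S u := by
  obtain ⟨a1, a2, a3, φ1, φ2, φ3, hf⟩ := hf
  have hne := C.ne_edge hu huh
  have i1 : a1 ∈ S := (mem_capS_ne hf.h1 (by
    rintro rfl; exact hne (hf.edge_v1 C.convPos))).1
  have i2 : a2 ∈ S := (mem_capS_ne hf.h2 (by
    rintro rfl; exact hne (hf.swap12.edge_v1 C.convPos))).1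
  have i3 : a3 ∈ S := (mem_capS_ne hf.h3 (by
    rintro rfl; exact hne (hf.edge3 C.convPos).symm)).1
  have key : ∀ φ : E3 →ₗ[ℝ] ℝ, (∀ z ∈ capS S h v s0, 0 ≤ φ (z - u)) → ∀ z ∈ S, 0 ≤ φ (z - u) := by
    intro φ hφ z hz
    have := C.supp hu huh (π := -φ) (by
      intro w hw hwh
      have := hφ w (mem_capS.mpr (Or.inr ⟨hw, hwh⟩))
      rw [map_sub] at this
      show -(φ w) ≤ -(φ u)
      linarith) z hz
    have h3 : -(φ z) ≤ -(φ u) := this
    rw [map_sub]
    linarith
  exact ⟨a1, a2, a3, φ1, φ2, φ3, hu, i1, i2, i3, hf.d11, hf.d12, hf.d13, hf.d21, hf.d22, hf.d23,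
    hf.d31, hf.d32, hf.d33, hf.ext, fun z hz => ⟨key φ1 (fun w hw => (hf.pos w hw).1) z hz,
    key φ2 (fun w hw => (hf.pos w hw).2.1) z hz, key φ3 (fun w hw => (hf.pos w hw).2.2) z hz⟩⟩

theorem CapData.edge_vx (C : CapData S v x y s0 h) : IsEdgeS (capS S h v s0) v x := by
  obtain ⟨fx, fx0, fx1, fx2⟩ := C.bad.cx
  have hys : fx y ≠ fx v := fun hh => C.bad.no ⟨fx, fx0, fx1, fx2, hh⟩
  have hs : fx v < fx s0 := by
    have := C.lt_of (f := -fx) (M := -(fx v))
      (fun z hz => by show -(fx z) ≤ -(fx v); linarith [fx1 z hz]) (by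
        rintro ⟨_, _, g3⟩
        have g3' : -(fx y) = -(fx v) := g3
        exact hys (by linarith))
    have h1 : -(fx s0) < -(fx v) := this
    linarith
  have hl := C.low
  set ε := (fx s0 - fx v) / (2 * (h v - h s0)) with hε
  have hd : 0 < h v - h s0 := by linarith
  have hε0 : 0 < ε := div_pos (by linarith) (by linarith)
  have hεe : ε * (h v - h s0) = (fx s0 - fx v) / 2 := by
    rw [hε]; field_simp
  refine ⟨C.bad.vx, -fx - ε • h, ?_, ?_⟩
  · show -(fx v) - ε * h v = -(fx x) - ε * h x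
    rw [fx2, C.hx]
  · intro z hz zv zx
    show -(fx z) - ε * h z < -(fx v) - ε * h v
    rcases mem_capS.mp hz with rfl | ⟨hzS, hzh⟩
    · have : ε * (h v - h z) = ε * h v - ε * h z := by ring
      rw [this] at hεe
      linarith
    · have h1 := fx1 z hzS
      rcases lt_or_eq_of_le hzh with h2 | h2
      · have := mul_lt_mul_of_pos_left h2 hε0
        linarith
      · rcases C.tri hzS h2.symm with h3 | h3 | h3
        · exact absurd h3 zv
        · exact absurd h3 zx
        · rw [h3, C.hy]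
          have h4 := fx1 y C.bad.hy
          have := lt_of_le_of_ne h4 hys.symm
          linarith

theorem CapData.edge_xy (C : CapData S v x y s0 h) : IsEdgeS (capS S h v s0) x y := by
  obtain ⟨e, e1, e2, e3⟩ := C.bad.edge.le
  refine ⟨C.bad.edge.1, e, e1, ?_⟩
  intro z hz zx zy
  rcases mem_capS.mp hz with rfl | ⟨hzS, _⟩
  · exact C.lt_of e2 (by
      rintro ⟨g1, _, _⟩
      exact (e3 v C.bad.hv C.bad.vx C.bad.vy).ne g1)
  · exact e3 z hzS zx zy

/-- An improving neighbour in a face. -/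
theorem improve_face (hS : ConvPos S) (hspan : affineSpan ℝ (S : Set E3) = ⊤) {w : E3}
    (hw : w ∈ S) {F g : E3 →ₗ[ℝ] ℝ} (hF : ∀ z ∈ S, F w ≤ F z)
    (hz : ∃ z ∈ S, F z = F w ∧ g w < g z) : ∃ z ∈ S, IsEdgeS S w z ∧ F z = F w ∧ g w < g z := by
  obtain ⟨M, m1, m2, m3⟩ := exists_gens hS hspan hw
  obtain ⟨z, hzS, zF, zg⟩ := hz
  have hzw : z ≠ w := by rintro rfl; exact lt_irrefl _ zg
  obtain ⟨c, c0, c1⟩ := m2 _ (sub_mem_rel hzS hzw)
  have FM : ∀ m ∈ M, 0 ≤ F m := by
    intro m hm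
    have := hF _ (mem_rel.mp (m1 hm)).1
    rw [map_add] at this
    linarith
  have e1 : ∑ m ∈ M, c m * F m = 0 := by
    have := congrArg F c1
    rw [map_sum, map_sub, zF, sub_self] at this
    rw [← this]
    apply Finset.sum_congr rfl
    intro m _
    rw [map_smul, smul_eq_mul]
  have e2 := (Finset.sum_eq_zero_iff_of_nonneg (fun m hm => mul_nonneg (c0 m hm) (FM m hm))).mp e1
  have e3 : ∑ m ∈ M, c m * g m = g z - g w := by
    have := congrArg g c1
    rw [map_sum, map_sub] at this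
    rw [← this]
    apply Finset.sum_congr rfl
    intro m _
    rw [map_smul, smul_eq_mul]
  obtain ⟨m, hm, hm0⟩ : ∃ m ∈ M, 0 < c m * g m := by
    by_contra hcon
    push Not at hcon
    have := Finset.sum_nonpos hcon
    linarith
  have hcm : 0 < c m := lt_of_le_of_ne (c0 m hm) (by
    intro hh
    rw [← hh, zero_mul] at hm0
    exact lt_irrefl _ hm0)
  have hgm : 0 < g m := by
    by_contra hcon
    push Not at hcon
    have := mul_nonpos_of_nonneg_of_nonpos hcm.le hcon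
    linarith
  have hFm : F m = 0 := (mul_eq_zero.mp (e2 m hm)).resolve_left hcm.ne'
  refine ⟨m + w, (mem_rel.mp (m1 hm)).1, m3 m hm, ?_, ?_⟩
  · rw [map_add, hFm, zero_add]
  · rw [map_add]; linarith

/-- Lower bound for the degree in the cap. -/
theorem deg_ge_of {w : E3} (hs0 : s0 ∈ S) (hws : w ≠ s0) {N : Finset E3} (hN : N ⊆ S)
    (hN0 : s0 ∉ N) (he : ∀ q ∈ N, IsEdgeS S w q) : N.card ≤ deg (rel S s0) (w - s0) := by
  apply Finset.card_le_card_of_injOn (fun q => q - s0)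
  · intro q hq
    rw [Finset.mem_coe] at hq
    have hqs : q ≠ s0 := by rintro rfl; exact hN0 hq
    rw [Finset.mem_coe, Finset.mem_filter]
    exact ⟨sub_mem_rel (hN hq) hqs, (he q hq).rel hs0 hws.symm hqs.symm⟩
  · intro a _ b _ hab
    exact sub_left_inj.mp hab

end

end Run7.h169
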