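import Pool.Agent.Run7.h169.Tf3

set_option autoImplicit false
open scoped Classical Topology
open Filter

namespace Run7.h169

section

variable {S : Finset E3} {v x y s0 : E3} {h : E3 →ₗ[ℝ] ℝ} {B : Finset (Finset E3)}

/-- A plane of the cap contains a vertex above the plane of the chord. -/
theorem CapData.exists_up (C : CapData S v x y s0 h) (hF : Fan (rel (capS S h v s0) s0) B)
    {τ : Finset E3} (hτ : τ ∈ B) : ∃ t ∈ τ, t + s0 ∈ S ∧ h v < h (t + s0) := by
  by_contra hcon
  push Not at hcon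
  have hN := hF.nice τ hτ
  have hs := C.low
  have hd : 0 < h v - h s0 := by linarith
  have hval : ∀ t ∈ τ, h t = h v - h s0 := by
    intro t ht
    obtain ⟨t1, t2⟩ := mem_rel.mp (hF.sub τ hτ ht)
    obtain ⟨t3, t4⟩ := mem_capS_ne t1 (fun hh => t2 (by simpa using hh))
    have := hcon t ht t3
    have h5 : h (t + s0) = h v := le_antisymm this t4
    rw [map_add] at h5
    linarith
  have heq : gfun τ (fun _ => 1) = (1 / (h v - h s0)) • h := by
    apply nice_ext hN
    intro t ht
    rw [gfun_mem hN _ ht, LinearMap.smul_apply, smul_eq_mul, hval t ht]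
    field_simp
  obtain ⟨u, hu, huh⟩ := C.bad.exists_above C.h0 C.hx C.hy
  have hum : u - s0 ∈ rel (capS S h v s0) s0 :=
    sub_mem_rel (mem_capS.mpr (Or.inr ⟨hu, huh.le⟩)) (C.ne_s0 huh.le)
  have h1 := hF.supp τ hτ _ hum
  rw [heq, LinearMap.smul_apply, smul_eq_mul, map_sub, one_div, inv_mul_le_one₀ hd] at h1
  linarith

/-- A plane of the cap, as a supporting plane of the polytope. -/
theorem CapData.plane_supp (C : CapData S v x y s0 h) (hF : Fan (rel (capS S h v s0) s0) B)
    {τ : Finset E3} (hτ : τ ∈ B) {t : E3} (ht : t ∈ τ) (htS : t + s0 ∈ S)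
    (hth : h v < h (t + s0)) : ∀ z ∈ S, gfun τ (fun _ => 1) z ≤ gfun τ (fun _ => 1) (t + s0) := by
  have hN := hF.nice τ hτ
  apply C.supp htS hth
  intro z hz hzh
  have h1 := hF.supp τ hτ _ (sub_mem_rel (mem_capS.mpr (Or.inr ⟨hz, hzh⟩)) (C.ne_s0 hzh))
  rw [map_sub] at h1
  rw [map_add, gfun_mem hN _ ht]
  linarith

theorem CapData.Fs0 (C : CapData S v x y s0 h) {F : E3 →ₗ[ℝ] ℝ} (F0 : F ≠ 0)
    (F1 : ∀ z ∈ S, F v ≤ F z) (F2 : F x = F v) : F v < F s0 := by
  have := C.lt_of (f := -F) (M := -(F v))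
    (fun z hz => by show -(F z) ≤ -(F v); linarith [F1 z hz]) (by
      rintro ⟨_, _, g3⟩
      have g3' : -(F y) = -(F v) := g3
      exact C.bad.no ⟨F, F0, F1, F2, by linarith⟩)
  have h1 : -(F s0) < -(F v) := this
  linarith

/-- If a plane of the cap contains `v` and `x` and these do not form an edge, then the plane is
the plane of the facet of `v` and `x`. -/
theorem CapData.plane_eq (C : CapData S v x y s0 h) (hF : Fan (rel (capS S h v s0) s0) B)
    (hne : ¬ IsEdgeS S v x) {F : E3 →ₗ[ℝ] ℝ} (F0 : F ≠ 0) (F1 : ∀ z ∈ S, F v ≤ F z)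
    (F2 : F x = F v) {τ : Finset E3} (hτ : τ ∈ B) (hv : v - s0 ∈ τ) (hx : x - s0 ∈ τ) :
    gfun τ (fun _ => 1) = (-1 / (F s0 - F v)) • F := by
  have hN := hF.nice τ hτ
  obtain ⟨t, ht, htS, hth⟩ := C.exists_up hF hτ
  set π := gfun τ (fun _ => 1) with hπ
  have πt : π t = 1 := gfun_mem hN _ ht
  have πv : π (v - s0) = 1 := gfun_mem hN _ hv
  have πx : π (x - s0) = 1 := gfun_mem hN _ hx
  rw [map_sub] at πv πx
  have hsupp := C.plane_supp hF hτ ht htS hth
  rw [← hπ] at hsupp
  have hFt : F (t + s0) = F v := by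
    by_contra hFt
    apply hne
    refine edge_of_two_planes C.conv C.bad.hv C.bad.hx C.bad.vx F1 (g := -π) ?_ F2 ?_ ?_ hFt ?_
    · intro z hz
      have := hsupp z hz
      rw [map_add, πt] at this
      show -(π v) ≤ -(π z)
      linarith
    · show -(π x) = -(π v)
      linarith
    · intro h0
      have h1 : π = 0 := neg_eq_zero.mp h0
      rw [h1] at πt
      simp at πt
    · show -(π (t + s0)) = -(π v)
      rw [map_add, πt]
      linarith
  have hc := C.Fs0 F0 F1 F2
  have hvt : v - s0 ≠ t := by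
    intro hh
    rw [← hh, sub_add_cancel] at hth
    exact lt_irrefl _ hth
  have hxt : x - s0 ≠ t := by
    intro hh
    rw [← hh, sub_add_cancel, C.hx] at hth
    exact lt_irrefl _ hth
  have hvx : v - s0 ≠ x - s0 := fun hh => C.bad.vx (sub_left_inj.mp hh)
  obtain ⟨r, hr1, hr2, hτr⟩ := third hN.1 hv hx hvx
  have htr : t = r := by
    rw [hτr] at ht
    simp only [Finset.mem_insert, Finset.mem_singleton] at ht
    rcases ht with h1 | h1 | h1
    · exact absurd h1.symm hvt
    · exact absurd h1.symm hxt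
    · exact h1
  have hc' : F s0 - F v ≠ 0 := by linarith
  apply nice_ext hN
  intro z hz
  rw [hπ, gfun_mem hN _ hz, LinearMap.smul_apply, smul_eq_mul]
  have : F z = -(F s0 - F v) := by
    rw [hτr] at hz
    simp only [Finset.mem_insert, Finset.mem_singleton] at hz
    rcases hz with h1 | h1 | h1
    · rw [h1, map_sub]; ring
    · rw [h1, map_sub, F2]; ring
    · rw [h1, ← htr]
      rw [map_add] at hFt
      linarith
  rw [this]
  field_simp

/-- The number of triangles on the plane of the facet of a chord which is not an edge. -/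
theorem CapData.face_card (C : CapData S v x y s0 h) (hF : Fan (rel (capS S h v s0) s0) B)
    (hne : ¬ IsEdgeS S v x) {F : E3 →ₗ[ℝ] ℝ} (F0 : F ≠ 0) (F1 : ∀ z ∈ S, F v ≤ F z)
    (F2 : F x = F v) : (-1 / (F s0 - F v)) • F ∈ planes B ∧
      (S.filter (fun z => h v < h z ∧ F z = F v)).card ≤
        (bp B ((-1 / (F s0 - F v)) • F)).card := by
  have hC := C.cfg
  have n1 : v ≠ s0 := C.ne_s0 le_rfl
  have n2 : x ≠ s0 := C.ne_s0 C.hx.ge
  have hvW : v - s0 ∈ rel (capS S h v s0) s0 := sub_mem_rel C.mv n1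
  have hxW : x - s0 ∈ rel (capS S h v s0) s0 := sub_mem_rel C.mx n2
  obtain ⟨r, hr⟩ := hF.edge_cover hC hvW hxW (C.edge_vx.rel C.m0 n1.symm n2.symm)
  have heq := C.plane_eq hF hne F0 F1 F2 hr (by simp) (by simp)
  have hmem : (-1 / (F s0 - F v)) • F ∈ planes B := by
    rw [← heq]; exact Finset.mem_image_of_mem _ hr
  refine ⟨hmem, ?_⟩
  set π := (-1 / (F s0 - F v)) • F with hπ
  have hnep := bp_ne hmem
  have hsz := ((face_fan hF hnep).size (face_cfg hC hF hnep)).1
  have hc := C.Fs0 F0 F1 F2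
  have hc' : F s0 - F v ≠ 0 := by linarith
  have πval : ∀ z, F z = F v → π (z - s0) = 1 := by
    intro z hz
    rw [hπ, LinearMap.smul_apply, smul_eq_mul, map_sub, hz]
    field_simp
    ring
  set A := S.filter (fun z => h v < h z ∧ F z = F v) with hA
  have hvA : v ∉ insert x A := by
    rw [Finset.mem_insert, Finset.mem_filter]
    rintro (hh | hh)
    · exact C.bad.vx hh
    · exact lt_irrefl _ hh.2.1
  have hxA : x ∉ A := by
    rw [Finset.mem_filter]
    rintro hh
    have := hh.2.1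
    rw [C.hx] at this
    exact lt_irrefl _ this
  have hcard : (insert v (insert x A)).card = A.card + 2 := by
    rw [Finset.card_insert_of_notMem hvA, Finset.card_insert_of_notMem hxA]
  have hle : (insert v (insert x A)).card ≤ (vp (rel (capS S h v s0) s0) π).card := by
    apply Finset.card_le_card_of_injOn (fun z => z - s0)
    · intro z hz
      rw [Finset.mem_coe, Finset.mem_insert, Finset.mem_insert] at hz
      rw [Finset.mem_coe, mem_vp]
      rcases hz with rfl | rfl | hz
      · exact ⟨hvW, πval _ rfl⟩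
      · exact ⟨hxW, πval _ F2⟩
      · obtain ⟨z1, z2, z3⟩ := Finset.mem_filter.mp hz
        exact ⟨sub_mem_rel (mem_capS.mpr (Or.inr ⟨z1, z2.le⟩)) (C.ne_s0 z2.le), πval _ z3⟩
    · intro a _ b _ hab
      exact sub_left_inj.mp hab
  omega

/-- A plane of the cap which is not special has at least two triangles. -/
theorem CapData.big (C : CapData S v x y s0 h) (hF : Fan (rel (capS S h v s0) s0) B)
    (hloc : ∀ p ∈ S, ∀ q ∈ S, ∀ r ∈ S, h v < h p → IsEdgeS S p q → IsEdgeS S p r →
      IsEdgeS S q r → False) {π : E3 →ₗ[ℝ] ℝ} (hπ : π ∈ planes B)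
    (hnx : ¬ IsEdgeS S v x → ∀ τ ∈ bp B π, v - s0 ∈ τ → x - s0 ∈ τ → False)
    (hny : ¬ IsEdgeS S v y → ∀ τ ∈ bp B π, v - s0 ∈ τ → y - s0 ∈ τ → False) :
    2 ≤ (bp B π).card := by
  by_contra hlt
  push Not at hlt
  have hC := C.cfg
  have hpos := Finset.card_pos.mpr (bp_ne hπ)
  obtain ⟨τ, hτ⟩ := Finset.card_eq_one.mp (show (bp B π).card = 1 by omega)
  have hτm : τ ∈ bp B π := by rw [hτ]; simp
  obtain ⟨hτB, _⟩ := mem_bp.mp hτm
  have hN := hF.nice τ hτB
  have hcap : ∀ a ∈ τ, a + s0 ∈ S ∧ h v ≤ h (a + s0) := by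
    intro a ha
    obtain ⟨a1, a2⟩ := mem_rel.mp (hF.sub τ hτB ha)
    exact mem_capS_ne a1 (fun hh => a2 (by simpa using hh))
  have hedge : ∀ a ∈ τ, ∀ b ∈ τ, a ≠ b → IsEdgeS (capS S h v s0) (a + s0) (b + s0) := by
    intro a ha b hb hab
    apply Frm.edge_rel
    apply hF.edge_of_face hC (π := π) hab
    unfold cnt
    rw [hτ, Finset.filter_singleton, if_pos ⟨ha, hb⟩, Finset.card_singleton]
  have hS : ∀ a ∈ τ, ∀ b ∈ τ, a ≠ b → IsEdgeS S (a + s0) (b + s0) := by
    intro a ha b hb hab
    have he := hedge a ha b hb hab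
    obtain ⟨a1, a2⟩ := hcap a ha
    obtain ⟨b1, b2⟩ := hcap b hb
    rcases lt_or_eq_of_le a2 with a3 | a3
    · exact C.up_edge a1 a3 he
    · rcases lt_or_eq_of_le b2 with b3 | b3
      · exact (C.up_edge b1 b3 he.symm).symm
      · have e1 : ∀ {z w : E3}, z + s0 = w → z = w - s0 := by
          intro z w hh; rw [← hh]; abel
        have hab' : a + s0 ≠ b + s0 := fun hh => hab (add_right_cancel hh)
        rcases C.tri a1 a3.symm with g1 | g1 | g1
        · rcases C.tri b1 b3.symm with g2 | g2 | g2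
          · exact absurd (g1.trans g2.symm) hab'
          · rw [g1, g2]
            by_contra hne
            exact hnx hne τ hτm (by rw [← e1 g1]; exact ha) (by rw [← e1 g2]; exact hb)
          · rw [g1, g2]
            by_contra hne
            exact hny hne τ hτm (by rw [← e1 g1]; exact ha) (by rw [← e1 g2]; exact hb)
        · rcases C.tri b1 b3.symm with g2 | g2 | g2
          · rw [g1, g2]
            by_contra hne
            exact hnx (fun hh => hne hh.symm) τ hτm (by rw [← e1 g2]; exact hb)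
              (by rw [← e1 g1]; exact ha)
          · exact absurd (g1.trans g2.symm) hab'
          · rw [g1, g2]; exact C.bad.edge
        · rcases C.tri b1 b3.symm with g2 | g2 | g2
          · rw [g1, g2]
            by_contra hne
            exact hny (fun hh => hne hh.symm) τ hτm (by rw [← e1 g2]; exact hb)
              (by rw [← e1 g1]; exact ha)
          · rw [g1, g2]; exact C.bad.edge.symm
          · exact absurd (g1.trans g2.symm) hab'
  obtain ⟨t, ht, htS, hth⟩ := C.exists_up hF hτB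
  obtain ⟨q, hq, hqt⟩ : ∃ q ∈ τ, q ≠ t := by
    have : 1 < τ.card := by rw [hN.1]; norm_num
    obtain ⟨a, ha, b, hb, hab⟩ := Finset.one_lt_card.mp this
    by_cases hh : a = t
    · exact ⟨b, hb, fun h2 => hab (hh.trans h2.symm)⟩
    · exact ⟨a, ha, hh⟩
  obtain ⟨r, hr1, hr2, hτr⟩ := third hN.1 ht hq hqt.symm
  have hr : r ∈ τ := by rw [hτr]; simp
  exact hloc _ htS _ (hcap q hq).1 _ (hcap r hr).1 hth (hS t ht q hq hqt.symm)
    (hS t ht r hr hr1.symm) (hS q hq r hr hr2.symm)

theorem CapData.outer_card (C : CapData S v x y s0 h) :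
    ((rel (capS S h v s0) s0).filter (fun w => ¬ Inner (rel (capS S h v s0) s0) w)) =
      {v - s0, x - s0, y - s0} := by
  obtain ⟨ψ1, ψ2, ψ3, hψ⟩ := C.frm
  ext z
  rw [Finset.mem_filter, Finset.mem_insert, Finset.mem_insert, Finset.mem_singleton]
  constructor
  · rintro ⟨hz, hn⟩
    obtain ⟨z1, z2⟩ := mem_rel.mp hz
    obtain ⟨z3, z4⟩ := mem_capS_ne z1 (fun hh => z2 (by simpa using hh))
    rcases lt_or_eq_of_le z4 with z5 | z5
    · exfalso
      have := C.inner z3 z5
      rw [add_sub_cancel_right] at this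
      exact hn this
    · rcases C.tri z3 z5.symm with g | g | g
      · left; rw [← g]; abel
      · right; left; rw [← g]; abel
      · right; right; rw [← g]; abel
  · rintro (rfl | rfl | rfl)
    · refine ⟨sub_mem_rel C.mv (C.ne_s0 le_rfl), ?_⟩
      rw [hψ.inner_iff, hψ.d21]
      intro hh; exact lt_irrefl _ hh.2.1
    · refine ⟨sub_mem_rel C.mx (C.ne_s0 C.hx.ge), ?_⟩
      rw [hψ.inner_iff, hψ.d12]
      intro hh; exact lt_irrefl _ hh.1
    · refine ⟨sub_mem_rel C.my (C.ne_s0 C.hy.ge), ?_⟩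
      rw [hψ.inner_iff, hψ.d13]
      intro hh; exact lt_irrefl _ hh.1

/-- The count in the cap. -/
theorem CapData.count (C : CapData S v x y s0 h) (hF : Fan (rel (capS S h v s0) s0) B)
    {Pi : Finset (E3 →ₗ[ℝ] ℝ)} (hPi : Pi ⊆ planes B)
    (hbig : ∀ π ∈ planes B, π ∉ Pi → 2 ≤ (bp B π).card) {A : Finset E3}
    (hA : ∀ u ∈ S, h v < h u → u ∉ A → ¬ HasFrm S u) :
    2 * (deg (rel (capS S h v s0) s0) (v - s0) + deg (rel (capS S h v s0) s0) (x - s0) +
      deg (rel (capS S h v s0) s0) (y - s0)) + 2 * ∑ π ∈ Pi, (bp B π).card ≤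
      10 + 4 * Pi.card + 2 * A.card := by
  have hC := C.cfg
  have hE := hF.euler hC
  have hD := hF.deg_le hC
  have hO := C.outer_card
  set W := rel (capS S h v s0) s0 with hW
  rw [hO] at hE hD
  have n1 : v - s0 ≠ x - s0 := fun hh => C.bad.vx (sub_left_inj.mp hh)
  have n2 : v - s0 ≠ y - s0 := fun hh => C.bad.vy (sub_left_inj.mp hh)
  have n3 : x - s0 ≠ y - s0 := fun hh => C.bad.edge.1 (sub_left_inj.mp hh)
  have hO3 : ({v - s0, x - s0, y - s0} : Finset E3).card = 3 := by
    rw [Finset.card_eq_three]; exact ⟨_, _, _, n1, n2, n3, rfl⟩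
  rw [hO3] at hE hD
  -- the sides
  have hps : ps W B + 2 * ∑ π ∈ Pi, (bp B π).card ≤ 4 * B.card + 4 * Pi.card := by
    have e1 : ps W B = ∑ π ∈ planes B \ Pi, ps W (bp B π) + ∑ π ∈ Pi, ps W (bp B π) := by
      rw [ps_planes, Finset.sum_sdiff hPi]
    have e2 : B.card = ∑ π ∈ planes B \ Pi, (bp B π).card + ∑ π ∈ Pi, (bp B π).card := by
      rw [Finset.sum_sdiff hPi]; exact card_planes'
    have l1 : ∑ π ∈ planes B \ Pi, ps W (bp B π) ≤ ∑ π ∈ planes B \ Pi, 4 * (bp B π).card := by
      apply Finset.sum_le_sum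
      intro π hπ
      obtain ⟨p1, p2⟩ := Finset.mem_sdiff.mp hπ
      have := face_ps hC hF p1
      have := hbig π p1 p2
      omega
    have l2 : ∑ π ∈ Pi, ps W (bp B π) ≤ ∑ π ∈ Pi, (2 * (bp B π).card + 4) := by
      apply Finset.sum_le_sum
      intro π hπ
      exact face_ps hC hF (hPi hπ)
    rw [← Finset.mul_sum] at l1
    rw [Finset.sum_add_distrib, ← Finset.mul_sum, Finset.sum_const, smul_eq_mul] at l2
    omega
  -- the degrees
  have hdeg : 4 * (W.filter (Inner W)).card ≤
      ∑ p ∈ W.filter (Inner W), deg W p + A.card := by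
    have k : ∀ p ∈ W.filter (Inner W), 4 ≤ deg W p + (if p + s0 ∈ A then 1 else 0) := by
      intro p hp
      obtain ⟨p1, p2⟩ := Finset.mem_filter.mp hp
      obtain ⟨z1, z2⟩ := mem_rel.mp p1
      obtain ⟨z3, z4⟩ := mem_capS_ne z1 (fun hh => z2 (by simpa using hh))
      have z5 : h v < h (p + s0) := by
        refine lt_of_le_of_ne z4 (fun hh => ?_)
        have hm : p ∈ W.filter (fun w => ¬ Inner W w) := by
          rw [hO]
          simp only [Finset.mem_insert, Finset.mem_singleton]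
          rcases C.tri z3 hh.symm with g | g | g
          · left; rw [← g]; abel
          · right; left; rw [← g]; abel
          · right; right; rw [← g]; abel
        exact (Finset.mem_filter.mp hm).2 p2
      obtain ⟨k, k1, k2, k3, k4⟩ := deg_ge C.convPos C.span C.m0 p1
      have k5 := k4 (C.ne_edge z3 z5)
      rw [← hW] at k5
      by_cases hpA : p + s0 ∈ A
      · rw [if_pos hpA]; omega
      · rw [if_neg hpA]
        have := k2 (fun hf => hA _ z3 z5 hpA (C.hasFrm z3 z5 hf))
        omega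
    have := Finset.card_nsmul_le_sum _ _ _ k
    rw [smul_eq_mul, Finset.sum_add_distrib, ← Finset.card_filter] at this
    have l : ((W.filter (Inner W)).filter (fun p => p + s0 ∈ A)).card ≤ A.card := by
      apply Finset.card_le_card_of_injOn (fun p => p + s0)
      · intro p hp
        rw [Finset.mem_coe, Finset.mem_filter] at hp
        exact Finset.mem_coe.mpr hp.2
      · intro a _ b _ hab
        exact add_right_cancel hab
    omega
  have hsplit : ∑ p ∈ W, deg W p = ∑ p ∈ W.filter (Inner W), deg W p +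
      ∑ p ∈ W.filter (fun w => ¬ Inner W w), deg W p :=
    (Finset.sum_filter_add_sum_filter_not W (Inner W) _).symm
  rw [hO, Finset.sum_insert (by simp [n1, n2]), Finset.sum_pair n3] at hsplit
  omega

end

end Run7.h169
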