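import Pool.Agent.Run7.h169.Tf4

set_option autoImplicit false
open scoped Classical Topology
open Filter

namespace Run7.h169

section

variable {S : Finset E3} {v x y s0 : E3} {h : E3 →ₗ[ℝ] ℝ}

theorem CapData.mem_of (_ : CapData S v x y s0 h) {w : E3} (hw : w ∈ S) (hwh : h v ≤ h w) :
    w ∈ capS S h v s0 := mem_capS.mpr (Or.inr ⟨hw, hwh⟩)

/-- A base vertex of the cap with two base neighbours has degree at least three. -/
theorem CapData.deg3 (C : CapData S v x y s0 h) {w a b : E3} (hw : w ∈ S) (hwh : h w = h v)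
    (ha : a ∈ S) (hah : h a = h v) (hb : b ∈ S) (hbh : h b = h v) (hab : a ≠ b)
    (ea : IsEdgeS (capS S h v s0) w a) (eb : IsEdgeS (capS S h v s0) w b) :
    3 ≤ deg (rel (capS S h v s0) s0) (w - s0) := by
  obtain ⟨u0, hu0, hu0h⟩ := C.bad.exists_above C.h0 C.hx C.hy
  obtain ⟨u, hu, eu, _, huh⟩ := improve_face C.convPos C.span (C.mem_of hw hwh.ge) (F := 0)
    (g := h) (fun _ _ => le_rfl) ⟨u0, C.mem_of hu0 hu0h.le, rfl, by rw [hwh]; exact hu0h⟩
  rw [hwh] at huh
  have hau : a ≠ u := by rintro rfl; linarith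
  have hbu : b ≠ u := by rintro rfl; linarith
  have := deg_ge_of (S := capS S h v s0) (N := {a, b, u}) C.m0 (C.ne_s0 hwh.ge) (by
    intro z hz
    simp only [Finset.mem_insert, Finset.mem_singleton] at hz
    rcases hz with rfl | rfl | rfl
    · exact C.mem_of ha hah.ge
    · exact C.mem_of hb hbh.ge
    · exact hu) (by
    simp only [Finset.mem_insert, Finset.mem_singleton, not_or]
    exact ⟨(C.ne_s0 hah.ge).symm, (C.ne_s0 hbh.ge).symm, (C.ne_s0 huh.le).symm⟩) (by
    intro z hz
    simp only [Finset.mem_insert, Finset.mem_singleton] at hz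
    rcases hz with rfl | rfl | rfl
    · exact ea
    · exact eb
    · exact eu)
  rwa [Finset.card_eq_three.mpr ⟨a, b, u, hab, hau, hbu, rfl⟩] at this

theorem CapData.deg_v (C : CapData S v x y s0 h) :
    3 ≤ deg (rel (capS S h v s0) s0) (v - s0) :=
  C.deg3 C.bad.hv rfl C.bad.hx C.hx C.bad.hy C.hy C.bad.edge.1 C.edge_vx C.swap.edge_vx

theorem CapData.deg_x (C : CapData S v x y s0 h) :
    3 ≤ deg (rel (capS S h v s0) s0) (x - s0) :=
  C.deg3 C.bad.hx C.hx C.bad.hv rfl C.bad.hy C.hy C.bad.vy C.edge_vx.symm C.edge_xy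

theorem CapData.deg_y (C : CapData S v x y s0 h) :
    3 ≤ deg (rel (capS S h v s0) s0) (y - s0) :=
  C.deg3 C.bad.hy C.hy C.bad.hv rfl C.bad.hx C.hx C.bad.vx C.swap.edge_vx.symm C.edge_xy.symm

/-- A neighbour of `v` above the plane in the facet of a chord which is not an edge. -/
theorem CapData.up_in_face (C : CapData S v x y s0 h) (hne : ¬ IsEdgeS S v x)
    {F : E3 →ₗ[ℝ] ℝ} (F0 : F ≠ 0) (F1 : ∀ z ∈ S, F v ≤ F z) (F2 : F x = F v) :
    ∃ u ∈ S, h v < h u ∧ F u = F v ∧ IsEdgeS (capS S h v s0) v u := by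
  have F3 : F v < F y :=
    lt_of_le_of_ne (F1 y C.bad.hy) (fun hh => C.bad.no ⟨F, F0, F1, F2, hh.symm⟩)
  obtain ⟨u0, hu0, hu0h, hu0F⟩ := C.bad.face_side C.conv C.h0 C.hx C.hy F1 F2 F3 hne
  obtain ⟨u, hu, eu, huF, huh⟩ := improve_face C.convPos C.span C.mv (F := F) (g := h) (by
    intro z hz
    rcases mem_capS.mp hz with rfl | ⟨hzS, _⟩
    · exact (C.Fs0 F0 F1 F2).le
    · exact F1 z hzS) ⟨u0, C.mem_of hu0 hu0h.le, hu0F, hu0h⟩
  exact ⟨u, (mem_capS_ne hu (C.ne_s0 huh.le)).1, huh, huF, eu⟩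

theorem CapData.deg4 (C : CapData S v x y s0 h) {u1 u2 : E3} (hu1 : u1 ∈ S) (h1 : h v < h u1)
    (hu2 : u2 ∈ S) (h2 : h v < h u2) (h12 : u1 ≠ u2) (e1 : IsEdgeS (capS S h v s0) v u1)
    (e2 : IsEdgeS (capS S h v s0) v u2) : 4 ≤ deg (rel (capS S h v s0) s0) (v - s0) := by
  have hx := C.hx
  have hy := C.hy
  have := deg_ge_of (S := capS S h v s0) (N := {x, y, u1, u2}) C.m0 (C.ne_s0 le_rfl) (by
    intro z hz
    simp only [Finset.mem_insert, Finset.mem_singleton] at hz
    rcases hz with rfl | rfl | rfl | rfl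
    · exact C.mx
    · exact C.my
    · exact C.mem_of hu1 h1.le
    · exact C.mem_of hu2 h2.le) (by
    simp only [Finset.mem_insert, Finset.mem_singleton, not_or]
    exact ⟨(C.ne_s0 hx.ge).symm, (C.ne_s0 hy.ge).symm, (C.ne_s0 h1.le).symm,
      (C.ne_s0 h2.le).symm⟩) (by
    intro z hz
    simp only [Finset.mem_insert, Finset.mem_singleton] at hz
    rcases hz with rfl | rfl | rfl | rfl
    · exact C.edge_vx
    · exact C.swap.edge_vx
    · exact e1
    · exact e2)
  have hc : ({x, y, u1, u2} : Finset E3).card = 4 := by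
    rw [Finset.card_insert_of_notMem, Finset.card_insert_of_notMem, Finset.card_pair h12]
    · simp only [Finset.mem_insert, Finset.mem_singleton, not_or]
      exact ⟨by rintro rfl; linarith, by rintro rfl; linarith⟩
    · simp only [Finset.mem_insert, Finset.mem_singleton, not_or]
      exact ⟨C.bad.edge.1, by rintro rfl; linarith, by rintro rfl; linarith⟩
  rwa [hc] at this

/-- A supporting functional for a facet at the chord: of an edge, exposing exactly the edge. -/
theorem Bad.facet_fun (b : Bad S v x y) : ∃ F : E3 →ₗ[ℝ] ℝ, F ≠ 0 ∧ (∀ z ∈ S, F v ≤ F z) ∧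
    F x = F v ∧ (IsEdgeS S v x → ∀ z ∈ S, z ≠ v → z ≠ x → F v < F z) := by
  by_cases he : IsEdgeS S v x
  · obtain ⟨e, e1, e2, e3⟩ := he.le
    refine ⟨-e, ?_, ?_, ?_, ?_⟩
    · intro h0
      have h1 : e = 0 := neg_eq_zero.mp h0
      have := e3 y b.hy b.vy.symm b.edge.1.symm
      rw [h1] at this
      simp at this
    · intro z hz
      show -(e v) ≤ -(e z)
      linarith [e2 z hz]
    · show -(e x) = -(e v)
      rw [e1]
    · intro _ z hz zv zx
      show -(e v) < -(e z)
      linarith [e3 z hz zv zx]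
  · obtain ⟨F, F0, F1, F2⟩ := b.cx
    exact ⟨F, F0, F1, F2, fun hh => absurd hh he⟩

/-- The cap lemma. -/
theorem Bad.cap (hS : ConvPos S) (b : Bad S v x y) (h0 : h ≠ 0) (hx : h x = h v)
    (hy : h y = h v)
    (hloc : ∀ p ∈ S, ∀ q ∈ S, ∀ r ∈ S, h v < h p → IsEdgeS S p q → IsEdgeS S p r →
      IsEdgeS S q r → False) :
    ∃ z ∈ S, h v < h z ∧ HasFrm S z ∧ ∀ a ∈ S, h a < h v → ¬ Cof S z a := by
  by_contra hcon
  push Not at hcon
  obtain ⟨s0, C⟩ := b.capData hS h0 hx hy
  obtain ⟨B, hF⟩ := fan_exists C.cfg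
  obtain ⟨Fx, Fx0, Fx1, Fx2, Fx3⟩ := b.facet_fun
  obtain ⟨Fy, Fy0, Fy1, Fy2, Fy3⟩ := b.symm.facet_fun
  -- simple vertices above the plane are in one of the two facets
  have hA : ∀ u ∈ S, h v < h u → HasFrm S u → Fx u = Fx v ∨ Fy u = Fy v := by
    intro u hu huh hf
    obtain ⟨a, ha, hah, hcof⟩ := hcon u hu huh hf
    rcases lt_or_eq_of_le (Fy1 u hu) with g | g
    · left
      exact (b.below h0 hx hy Fx1 Fx2 Fy1 Fy2 hu huh g ha hah hcof).1
    · right; exact g.symm
  have uv : ∀ {u : E3}, h v < h u → u ≠ v ∧ u ≠ x ∧ u ≠ y := by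
    intro u hu
    exact ⟨by rintro rfl; exact lt_irrefl _ hu, by rintro rfl; linarith, by rintro rfl; linarith⟩
  set πx := (-1 / (Fx s0 - Fx v)) • Fx with hπx
  set πy := (-1 / (Fy s0 - Fy v)) • Fy with hπy
  have dv := C.deg_v
  have dx := C.deg_x
  have dy := C.deg_y
  by_cases ex : IsEdgeS S v x
  · have nx : ∀ u ∈ S, h v < h u → Fx u ≠ Fx v := by
      intro u hu huh
      exact (Fx3 ex u hu (uv huh).1 (uv huh).2.1).ne'
    by_cases ey : IsEdgeS S v y
    · -- both are edges
      have ny : ∀ u ∈ S, h v < h u → Fy u ≠ Fy v := by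
        intro u hu huh
        exact (Fy3 ey u hu (uv huh).1 (uv huh).2.2).ne'
      have := C.count hF (Pi := ∅) (Finset.empty_subset _)
        (fun π hπ _ => C.big hF hloc hπ (fun hh => absurd ex hh) (fun hh => absurd ey hh))
        (A := ∅) (by
          intro u hu huh _ hf
          rcases hA u hu huh hf with g | g
          · exact nx u hu huh g
          · exact ny u hu huh g)
      simp at this
      omega
    · obtain ⟨m1, m2⟩ := C.swap.face_card hF ey Fy0 Fy1 Fy2
      rw [← hπy] at m1 m2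
      have := C.count hF (Pi := {πy}) (Finset.singleton_subset_iff.mpr m1)
        (fun π hπ hn => C.big hF hloc hπ (fun hh => absurd ex hh) (fun _ τ hτ g1 g2 => by
          obtain ⟨t1, t2⟩ := mem_bp.mp hτ
          have := C.swap.plane_eq hF ey Fy0 Fy1 Fy2 t1 g1 g2
          apply hn
          rw [Finset.mem_singleton, ← t2, this]))
        (A := S.filter (fun z => h v < h z ∧ Fy z = Fy v)) (by
          intro u hu huh hnA hf
          rcases hA u hu huh hf with g | g
          · exact nx u hu huh g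
          · exact hnA (Finset.mem_filter.mpr ⟨hu, huh, g⟩))
      rw [Finset.sum_singleton, Finset.card_singleton] at this
      omega
  · by_cases ey : IsEdgeS S v y
    · have ny : ∀ u ∈ S, h v < h u → Fy u ≠ Fy v := by
        intro u hu huh
        exact (Fy3 ey u hu (uv huh).1 (uv huh).2.2).ne'
      obtain ⟨m1, m2⟩ := C.face_card hF ex Fx0 Fx1 Fx2
      rw [← hπx] at m1 m2
      have := C.count hF (Pi := {πx}) (Finset.singleton_subset_iff.mpr m1)
        (fun π hπ hn => C.big hF hloc hπ (fun _ τ hτ g1 g2 => by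
          obtain ⟨t1, t2⟩ := mem_bp.mp hτ
          have := C.plane_eq hF ex Fx0 Fx1 Fx2 t1 g1 g2
          apply hn
          rw [Finset.mem_singleton, ← t2, this]) (fun hh => absurd ey hh))
        (A := S.filter (fun z => h v < h z ∧ Fx z = Fx v)) (by
          intro u hu huh hnA hf
          rcases hA u hu huh hf with g | g
          · exact hnA (Finset.mem_filter.mpr ⟨hu, huh, g⟩)
          · exact ny u hu huh g)
      rw [Finset.sum_singleton, Finset.card_singleton] at this
      omega
    · -- no edges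
      obtain ⟨m1, m2⟩ := C.face_card hF ex Fx0 Fx1 Fx2
      obtain ⟨m3, m4⟩ := C.swap.face_card hF ey Fy0 Fy1 Fy2
      rw [← hπx] at m1 m2
      rw [← hπy] at m3 m4
      have hne : πx ≠ πy := by
        intro hh
        have c1 := C.Fs0 Fx0 Fx1 Fx2
        have c2 := C.swap.Fs0 Fy0 Fy1 Fy2
        have k1 : πx (x - s0) = 1 := by
          rw [hπx, LinearMap.smul_apply, smul_eq_mul, map_sub, Fx2]
          have : Fx s0 - Fx v ≠ 0 := by linarith
          field_simp
          ring
        have k2 : πy (v - s0) = 1 := by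
          rw [hπy, LinearMap.smul_apply, smul_eq_mul, map_sub]
          have : Fy s0 - Fy v ≠ 0 := by linarith
          field_simp
          ring
        rw [hh] at k1
        have k3 : πy x = πy v := by
          rw [map_sub] at k1 k2; linarith
        rw [hπy, LinearMap.smul_apply, LinearMap.smul_apply, smul_eq_mul, smul_eq_mul] at k3
        have k4 : Fy x = Fy v := by
          apply mul_left_cancel₀ _ k3
          apply div_ne_zero (by norm_num)
          linarith
        exact b.no ⟨Fy, Fy0, Fy1, k4, Fy2⟩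
      set Ax := S.filter (fun z => h v < h z ∧ Fx z = Fx v) with hAx
      set Ay := S.filter (fun z => h v < h z ∧ Fy z = Fy v) with hAy
      have hcount := C.count hF (Pi := {πx, πy}) (by
          intro π hπ
          rw [Finset.mem_insert, Finset.mem_singleton] at hπ
          rcases hπ with rfl | rfl
          · exact m1
          · exact m3)
        (fun π hπ hn => by
          rw [Finset.mem_insert, Finset.mem_singleton, not_or] at hn
          refine C.big hF hloc hπ (fun _ τ hτ g1 g2 => ?_) (fun _ τ hτ g1 g2 => ?_)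
          · obtain ⟨t1, t2⟩ := mem_bp.mp hτ
            have := C.plane_eq hF ex Fx0 Fx1 Fx2 t1 g1 g2
            apply hn.1
            rw [← t2, this]
          · obtain ⟨t1, t2⟩ := mem_bp.mp hτ
            have := C.swap.plane_eq hF ey Fy0 Fy1 Fy2 t1 g1 g2
            apply hn.2
            rw [← t2, this])
        (A := Ax ∪ Ay) (by
          intro u hu huh hnA hf
          rw [Finset.mem_union, not_or] at hnA
          rcases hA u hu huh hf with g | g
          · exact hnA.1 (Finset.mem_filter.mpr ⟨hu, huh, g⟩)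
          · exact hnA.2 (Finset.mem_filter.mpr ⟨hu, huh, g⟩))
      rw [Finset.sum_pair hne, Finset.card_pair hne] at hcount
      have hui := Finset.card_union_add_card_inter Ax Ay
      obtain ⟨u1, hu1, h1, g1, e1⟩ := C.up_in_face ex Fx0 Fx1 Fx2
      obtain ⟨u2, hu2, h2, g2, e2⟩ := C.swap.up_in_face ey Fy0 Fy1 Fy2
      by_cases h12 : u1 = u2
      · have : 0 < (Ax ∩ Ay).card := by
          apply Finset.card_pos.mpr
          refine ⟨u1, Finset.mem_inter.mpr ⟨Finset.mem_filter.mpr ⟨hu1, h1, g1⟩,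
            Finset.mem_filter.mpr ⟨hu1, h1, ?_⟩⟩⟩
          rw [h12]; exact g2
        omega
      · have := C.deg4 hu1 h1 hu2 h2 h12 e1 e2
        omega

end

end Run7.h169
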