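import Pool.Agent.Run7.h169.Tf5

set_option autoImplicit false
open scoped Classical Topology
open Filter

namespace Run7.h169

section

variable {S : Finset E3} {v x y : E3} {h : E3 →ₗ[ℝ] ℝ}

/-- A bad chord above the plane of a bad chord has a smaller cap. -/
theorem Bad.up_sub (b : Bad S v x y) (h0 : h ≠ 0)
    (hx : h x = h v) (hy : h y = h v)
    {w a c : E3} (hwv : h v < h w) (b' : Bad S w a c) (ha : h v ≤ h a) (hc : h v ≤ h c) :
    ∃ g : E3 →ₗ[ℝ] ℝ, g ≠ 0 ∧ g a = g w ∧ g c = g w ∧ up S g w ⊂ up S h v := by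
  obtain ⟨s0, hs0, hs0'⟩ := b.exists_above (neg_ne_zero.mpr h0)
    (by show -(h x) = -(h v); rw [hx]) (by show -(h y) = -(h v); rw [hy])
  have hs1 : h s0 < h v := by
    have : -(h v) < -(h s0) := hs0'
    linarith
  obtain ⟨h', h'0, h'a, h'c⟩ := exists_plane w a c
  have hne : h' s0 ≠ h' w := by
    intro hh
    obtain ⟨α, β, γ, p1, p2, p3, p4, p5⟩ := b'.section h'0 h'a h'c (subset_convexHull ℝ _ hs0) hh
    have e : h s0 = α * h w + β * h a + γ * h c := by rw [p5, map_tri]
    have : h v ≤ h s0 := by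
      have e2 : h v = α * h v + β * h v + γ * h v := by
        rw [← add_mul, ← add_mul, p4, one_mul]
      rw [e, e2]
      have := mul_le_mul_of_nonneg_left hwv.le p1
      have := mul_le_mul_of_nonneg_left ha p2
      have := mul_le_mul_of_nonneg_left hc p3
      linarith
    linarith
  -- choose the sign
  obtain ⟨g, g0, ga, gc, gs⟩ : ∃ g : E3 →ₗ[ℝ] ℝ, g ≠ 0 ∧ g a = g w ∧ g c = g w ∧ g s0 < g w := by
    rcases lt_or_gt_of_ne hne with hlt | hgt
    · exact ⟨h', h'0, h'a, h'c, hlt⟩
    · refine ⟨-h', neg_ne_zero.mpr h'0, ?_, ?_, ?_⟩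
      · show -(h' a) = -(h' w); rw [h'a]
      · show -(h' c) = -(h' w); rw [h'c]
      · show -(h' s0) < -(h' w); linarith
  refine ⟨g, g0, ga, gc, ?_⟩
  rw [Finset.ssubset_iff_of_subset]
  · exact ⟨w, mem_up.mpr ⟨b'.hv, hwv⟩, fun hh => lt_irrefl _ (mem_up.mp hh).2⟩
  · intro s hs
    rw [mem_up] at hs ⊢
    refine ⟨hs.1, ?_⟩
    by_contra hle
    push Not at hle
    obtain ⟨t, t0, t1, tm, tS⟩ := cross gs hs.2 hs0 hs.1
    obtain ⟨α, β, γ, p1, p2, p3, p4, p5⟩ := b'.section g0 ga gc tS tm
    have e : (1 - t) * h s0 + t * h s = α * h w + β * h a + γ * h c := by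
      rw [← map_seg, p5, map_tri]
    have e2 : h v = α * h v + β * h v + γ * h v := by
      rw [← add_mul, ← add_mul, p4, one_mul]
    have := mul_le_mul_of_nonneg_left hwv.le p1
    have := mul_le_mul_of_nonneg_left ha p2
    have := mul_le_mul_of_nonneg_left hc p3
    have : (1 - t) * h s0 + t * h s < h v := by nlinarith
    linarith

/-- The class of polytopes: no vertex of degree at least four is on a cycle of length three. -/
def Hyp (S : Finset E3) : Prop :=
  ∀ p ∈ S, 4 ≤ sdeg S p → ∀ q ∈ S, ∀ r ∈ S, IsEdgeS S p q → IsEdgeS S p r →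
    IsEdgeS S q r → False

/-- The condition at an apex concerning the facets. -/
def Kond (S : Finset E3) (v : E3) : Prop :=
  ∀ f : E3 →ₗ[ℝ] ℝ, (∀ y ∈ S, f v ≤ f y) → ∀ p ∈ S, 4 ≤ sdeg S p → f p ≠ f v →
    ∀ x ∈ S, ∀ y ∈ S, f x = f v → f y = f v → IsEdgeS S p x → IsEdgeS S p y → x = y

/-- Two neighbours of a vertex on a facet that does not contain the vertex form a bad chord. -/
theorem bad_of_two' (hS : ConvPos S) (hU : Hyp S) {f : E3 →ₗ[ℝ] ℝ} {p x y : E3}
    (hp : p ∈ S) (hd : 4 ≤ sdeg S p) (hx : x ∈ S) (hy : y ∈ S) (hf : ∀ z ∈ S, f x ≤ f z)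
    (fxy : f y = f x) (fp : f p ≠ f x) (ex : IsEdgeS S p x) (ey : IsEdgeS S p y) (hxy : x ≠ y) :
    Bad S x y p := by
  refine ⟨hx, hy, hp, hxy, ex.1.symm, ey.symm, ⟨f, ?_, hf, fxy⟩,
    (ex.cof hy ey.1.symm hxy.symm).symm, ?_⟩
  · rintro rfl
    exact fp (by simp)
  · rintro ⟨g, g0, g1, g2, g3⟩
    have he := edge_of_two_planes hS hx hy hxy hf g1 fxy g2 g0 fp g3
    exact hU p hp hd x hx y hy ex ey he

section

variable {a1 a2 a3 : E3} {φ1 φ2 φ3 : E3 →ₗ[ℝ] ℝ}

/-- A facet of a simple vertex whose two neighbours in the facet are adjacent is a triangle. -/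
theorem Frm.tri_face (hS : ConvPos S) (hf : Frm S v a1 a2 a3 φ1 φ2 φ3) (he : IsEdgeS S a1 a2) :
    ∀ z ∈ S, φ3 (z - v) = 0 → z = v ∨ z = a1 ∨ z = a2 := by
  intro z hz hz3
  by_contra hcon
  push Not at hcon
  obtain ⟨n0, n1, n2⟩ := hcon
  have n3 : z ≠ a3 := by
    rintro rfl
    rw [hf.d33] at hz3
    exact one_ne_zero hz3
  have hout := hf.out hS hz n0 n1 n2 n3
  rw [hz3, add_zero] at hout
  obtain ⟨e, e1, e2, e3⟩ := he.le
  have hv1 : v ≠ a1 := by
    intro hh
    have := hf.d11
    rw [← hh, sub_self, map_zero] at this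
    exact zero_ne_one this
  have hv2 : v ≠ a2 := by
    intro hh
    have := hf.d22
    rw [← hh, sub_self, map_zero] at this
    exact zero_ne_one this
  have hlt := e3 v hf.hv hv1 hv2
  have key := congrArg e (hf.ext (z - v))
  simp only [map_add, map_smul, map_sub e, smul_eq_mul, hz3, zero_mul, add_zero, ← e1] at key
  have h1 := e2 z hz
  have h2 := mul_lt_mul_of_pos_right hout (sub_pos.mpr hlt)
  linarith

/-- A vertex cofacial with a simple vertex is on one of the three facets. -/
theorem Frm.cof_zero (hf : Frm S v a1 a2 a3 φ1 φ2 φ3) {z : E3} (hz : z ∈ S) (hc : Cof S v z) :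
    φ1 (z - v) = 0 ∨ φ2 (z - v) = 0 ∨ φ3 (z - v) = 0 := by
  by_contra hcon
  push Not at hcon
  obtain ⟨p1, p2, p3⟩ := hf.pos z hz
  obtain ⟨f, f0, f1, f2⟩ := hc
  have g1 := f1 a1 hf.h1
  have g2 := f1 a2 hf.h2
  have g3 := f1 a3 hf.h3
  have key := congrArg f (hf.ext (z - v))
  simp only [map_add, map_smul, map_sub f, smul_eq_mul, f2, sub_self] at key
  have q1 : 0 < φ1 (z - v) := lt_of_le_of_ne p1 hcon.1.symm
  have q2 : 0 < φ2 (z - v) := lt_of_le_of_ne p2 hcon.2.1.symm
  have q3 : 0 < φ3 (z - v) := lt_of_le_of_ne p3 hcon.2.2.symm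
  have m1 := mul_nonneg q1.le (sub_nonneg.mpr g1)
  have m2 := mul_nonneg q2.le (sub_nonneg.mpr g2)
  have m3 := mul_nonneg q3.le (sub_nonneg.mpr g3)
  have z1 : f a1 - f v = 0 := by
    have : φ1 (z - v) * (f a1 - f v) = 0 := by linarith
    exact (mul_eq_zero.mp this).resolve_left q1.ne'
  have z2 : f a2 - f v = 0 := by
    have : φ2 (z - v) * (f a2 - f v) = 0 := by linarith
    exact (mul_eq_zero.mp this).resolve_left q2.ne'
  have z3 : f a3 - f v = 0 := by
    have : φ3 (z - v) * (f a3 - f v) = 0 := by linarith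
    exact (mul_eq_zero.mp this).resolve_left q3.ne'
  apply f0
  ext w
  rw [← hf.ext w, map_add, map_add, map_smul, map_smul, map_smul, map_sub, map_sub, map_sub,
    z1, z2, z3]
  simp

/-- The chord condition at a simple vertex with a triangular facet. -/
theorem Frm.hnb_tri (hf : Frm S v a1 a2 a3 φ1 φ2 φ3)
    (htri : ∀ z ∈ S, φ3 (z - v) = 0 → z = v ∨ z = a1 ∨ z = a2) :
    ∀ x y, Bad S v x y → φ2 (x - v) = 0 ∨ φ2 (y - v) = 0 := by
  intro x y b
  by_contra hcon
  push Not at hcon
  obtain ⟨n1, n2⟩ := hcon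
  have key : ∀ z ∈ S, v ≠ z → Cof S v z → φ2 (z - v) ≠ 0 → φ1 (z - v) = 0 := by
    intro z hz hvz hc hn
    rcases hf.cof_zero hz hc with g | g | g
    · exact g
    · exact absurd g hn
    · rcases htri z hz g with rfl | rfl | rfl
      · exact absurd rfl hvz
      · exact absurd hf.d21 hn
      · exact hf.d12
  have k1 := key x b.hx b.vx b.cx n1
  have k2 := key y b.hy b.vy b.cy n2
  rw [map_sub] at k1 k2
  refine b.no ⟨φ1, ?_, ?_, by linarith, by linarith⟩
  · rintro rfl
    have := hf.d11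
    simp at this
  · intro z hz
    have := (hf.pos z hz).1
    rw [map_sub] at this
    linarith

end

/-- A vertex with less than four neighbours has a frame. -/
theorem hasFrm_of_sdeg (hS : ConvPos S) (hspan : affineSpan ℝ (S : Set E3) = ⊤) {w : E3}
    (hw : w ∈ S) (hd : ¬ 4 ≤ sdeg S w) : HasFrm S w := by
  by_contra hno
  obtain ⟨M, m1, m2, _, m4⟩ := exists_nbrs hS hspan hw
  apply hd
  refine le_trans (m4 hno) ?_
  apply Finset.card_le_card_of_injOn (fun m => m + w)
  · intro m hm
    rw [Finset.mem_coe] at hm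
    rw [Finset.mem_coe]
    exact Finset.mem_filter.mpr ⟨(mem_rel.mp (m1 hm)).1, m2 m hm⟩
  · intro a _ b _ hab
    exact add_right_cancel hab

/-- A vertex on a cycle of length three has a frame with the cycle in a facet. -/
theorem exists_tri_frm (hS : ConvPos S) (hspan : affineSpan ℝ (S : Set E3) = ⊤) (hU : Hyp S)
    {w p q : E3} (hw : w ∈ S) (hp : p ∈ S) (hq : q ∈ S) (wp : IsEdgeS S w p)
    (wq : IsEdgeS S w q) (pq : IsEdgeS S p q) :
    ∃ c φ1 φ2 φ3, Frm S w p q c φ1 φ2 φ3 := by
  obtain ⟨a1, a2, a3, φ1, φ2, φ3, hf⟩ :=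
    hasFrm_of_sdeg hS hspan hw (fun hd => hU w hw hd p hp q hq wp wq pq)
  rcases hf.neighbour hp wp with rfl | rfl | rfl
  · rcases hf.neighbour hq wq with rfl | rfl | rfl
    · exact absurd rfl pq.1
    · exact ⟨_, _, _, _, hf⟩
    · exact ⟨_, _, _, _, hf.swap23⟩
  · rcases hf.neighbour hq wq with rfl | rfl | rfl
    · exact ⟨_, _, _, _, hf.swap12⟩
    · exact absurd rfl pq.1
    · exact ⟨_, _, _, _, hf.swap12.swap23⟩
  · rcases hf.neighbour hq wq with rfl | rfl | rfl
    · exact ⟨_, _, _, _, hf.swap23.swap12⟩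
    · exact ⟨_, _, _, _, hf.swap23.swap12.swap23⟩
    · exact absurd rfl pq.1

/-- The case of an apex on a cycle of length three. -/
theorem tri_corner (hS : ConvPos S) (hspan : affineSpan ℝ (S : Set E3) = ⊤) (hU : Hyp S)
    {w p q : E3} (hw : w ∈ S) (hp : p ∈ S) (hq : q ∈ S) (wp : IsEdgeS S w p)
    (wq : IsEdgeS S w q) (pq : IsEdgeS S p q) (hk : Kond S w) : HasHamTet S := by
  obtain ⟨c, φ1, φ2, φ3, hf⟩ := exists_tri_frm hS hspan hU hw hp hq wp wq pq
  exact good_corner hS hspan hf hU hk (hf.hnb_tri (hf.tri_face hS pq))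

/-- A polytope with triangle-free graph has a simple vertex. -/
theorem exists_simple (hS : ConvPos S) (hspan : affineSpan ℝ (S : Set E3) = ⊤)
    (htf : ∀ p ∈ S, ∀ q ∈ S, ∀ r ∈ S, IsEdgeS S p q → IsEdgeS S p r → IsEdgeS S q r → False) :
    ∃ z ∈ S, HasFrm S z := by
  by_contra hcon
  push Not at hcon
  obtain ⟨s0, hs0⟩ : S.Nonempty := by
    rw [Finset.nonempty_iff_ne_empty]
    rintro rfl
    rw [Finset.coe_empty, AffineSubspace.span_empty] at hspan
    exact absurd hspan (bot_ne_top)
  set W := rel S s0 with hW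
  have hC : Cfg W := cfg_rel hS hspan hs0
  obtain ⟨B, hF⟩ := fan_exists hC
  have hE := hF.euler hC
  have hD := hF.deg_le hC
  have mS : ∀ {z : E3}, z ∈ W → z + s0 ∈ S := fun hz => (mem_rel.mp hz).1
  have hbig : ∀ π ∈ planes B, 2 ≤ (bp B π).card := by
    intro π hπ
    by_contra hlt
    push Not at hlt
    have hpos := Finset.card_pos.mpr (bp_ne hπ)
    obtain ⟨τ, hτ⟩ := Finset.card_eq_one.mp (show (bp B π).card = 1 by omega)
    have hτm : τ ∈ bp B π := by rw [hτ]; simp
    obtain ⟨hτB, _⟩ := mem_bp.mp hτm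
    have hedge : ∀ a ∈ τ, ∀ b ∈ τ, a ≠ b → IsEdgeS S (a + s0) (b + s0) := by
      intro a ha b hb hab
      apply Frm.edge_rel
      apply hF.edge_of_face hC (π := π) hab
      unfold cnt
      rw [hτ, Finset.filter_singleton, if_pos ⟨ha, hb⟩, Finset.card_singleton]
    obtain ⟨a, b, c, hab, hac, hbc, habc⟩ := Finset.card_eq_three.mp (hF.nice τ hτB).1
    have ha : a ∈ τ := by rw [habc]; simp
    have hb : b ∈ τ := by rw [habc]; simp
    have hc : c ∈ τ := by rw [habc]; simp
    exact htf _ (mS (hF.sub τ hτB ha)) _ (mS (hF.sub τ hτB hb)) _ (mS (hF.sub τ hτB hc))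
      (hedge a ha b hb hab) (hedge a ha c hc hac) (hedge b hb c hc hbc)
  have hps : ps W B ≤ 4 * B.card := by
    rw [ps_planes, card_planes', Finset.mul_sum]
    apply Finset.sum_le_sum
    intro π hπ
    have := face_ps hC hF hπ
    have := hbig π hπ
    omega
  have hdeg : 4 * (W.filter (Inner W)).card ≤ ∑ p ∈ W.filter (Inner W), deg W p := by
    have k : ∀ p ∈ W.filter (Inner W), 4 ≤ deg W p := by
      intro p hp
      obtain ⟨p1, p2⟩ := Finset.mem_filter.mp hp
      obtain ⟨k, k1, k2, k3, k4⟩ := deg_ge hS hspan hs0 p1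
      have k5 := k4 (not_edge_of_inner hC (by rw [add_sub_cancel_right]; exact p2))
      have := k2 (hcon _ (mS p1))
      rw [← hW] at k5
      omega
    have h1 : (W.filter (Inner W)).card • 4 ≤ ∑ p ∈ W.filter (Inner W), deg W p :=
      Finset.card_nsmul_le_sum _ _ _ k
    rw [smul_eq_mul] at h1
    omega
  have hdeg' : 3 * (W.filter (fun w => ¬ Inner W w)).card ≤
      ∑ p ∈ W.filter (fun w => ¬ Inner W w), deg W p := by
    have k : ∀ p ∈ W.filter (fun w => ¬ Inner W w), 3 ≤ deg W p := by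
      intro p hp
      obtain ⟨p1, p2⟩ := Finset.mem_filter.mp hp
      obtain ⟨k, k1, k2, k3, k4⟩ := deg_ge hS hspan hs0 p1
      have := k2 (hcon _ (mS p1))
      rw [← hW] at k3
      omega
    have h1 : (W.filter (fun w => ¬ Inner W w)).card • 3 ≤
        ∑ p ∈ W.filter (fun w => ¬ Inner W w), deg W p :=
      Finset.card_nsmul_le_sum _ _ _ k
    rw [smul_eq_mul] at h1
    omega
  have hsplit : ∑ p ∈ W, deg W p = ∑ p ∈ W.filter (Inner W), deg W p +
      ∑ p ∈ W.filter (fun w => ¬ Inner W w), deg W p :=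
    (Finset.sum_filter_add_sum_filter_not W (Inner W) _).symm
  omega

/-- The local case: a bad chord whose cap contains no vertex of a cycle of length three. -/
theorem loc_false (hS : ConvPos S) (hspan : affineSpan ℝ (S : Set E3) = ⊤) (hU : Hyp S)
    (hno : ¬ HasHamTet S) : ∀ (n : ℕ) (v x y : E3) (h : E3 →ₗ[ℝ] ℝ), (up S h v).card = n →
    Bad S v x y → h ≠ 0 → h x = h v → h y = h v →
    (∀ p ∈ S, ∀ q ∈ S, ∀ r ∈ S, h v < h p → IsEdgeS S p q → IsEdgeS S p r →
      IsEdgeS S q r → False) → False := by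
  intro n
  induction n using Nat.strong_induction_on with
  | _ n ih =>
    intro v x y h hn b h0 hx hy hloc
    obtain ⟨z, hz, hzh, ⟨a1, a2, a3, φ1, φ2, φ3, hf⟩, zcof⟩ := b.cap hS h0 hx hy hloc
    have smaller : ∀ w a c : E3, Bad S w a c → h v < h w → h v ≤ h a → h v ≤ h c → False := by
      intro w a c b' hw ha hc
      obtain ⟨g, g0, ga, gc, hg⟩ := b.up_sub h0 hx hy hw b' ha hc
      refine ih _ (by rw [← hn]; exact Finset.card_lt_card hg) w a c g rfl b' g0 ga gc ?_
      intro p hp q hq r hr hgp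
      exact hloc p hp q hq r hr (mem_up.mp (hg.1 (mem_up.mpr ⟨hp, hgp⟩))).2
    have hge : ∀ a ∈ S, Cof S z a → h v ≤ h a := by
      intro a ha hc
      by_contra hcon
      push Not at hcon
      exact zcof a ha hcon hc
    apply hno
    refine good_corner hS hspan hf hU ?_ ?_
    · intro f hf1 p hp hd hpz d1 hd1 d2 hd2 fd1 fd2 ed1 ed2
      by_contra hne
      have f0 : f ≠ 0 := by rintro rfl; exact hpz (by simp)
      have hd1h := hge d1 hd1 ⟨f, f0, hf1, fd1⟩
      have hd2h := hge d2 hd2 ⟨f, f0, hf1, fd2⟩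
      have b1 : Bad S d1 d2 p := bad_of_two' hS hU hp hd hd1 hd2 (f := f)
        (fun w hw => by rw [fd1]; exact hf1 w hw) (by rw [fd1, fd2]) (by rw [fd1]; exact hpz)
        ed1 ed2 hne
      have b2 : Bad S d2 d1 p := bad_of_two' hS hU hp hd hd2 hd1 (f := f)
        (fun w hw => by rw [fd2]; exact hf1 w hw) (by rw [fd1, fd2]) (by rw [fd2]; exact hpz)
        ed2 ed1 (Ne.symm hne)
      have nadj : ¬ IsEdgeS S d1 d2 := fun he => hU p hp hd d1 hd1 d2 hd2 ed1 ed2 he
      have step : ∀ d d' : E3, d ∈ S → Bad S d d' p → IsEdgeS S p d → h v < h d → h v ≤ h d' →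
          False := by
        intro d d' hd bd ed hdh hd'h
        have hph : h v ≤ h p := by
          by_contra hcon
          push Not at hcon
          exact b.no_cross_edge hS h0 hx hy hd hp hdh hcon b.hv b.hx b.hy ed.symm
        exact smaller d d' p bd hdh hd'h hph
      -- the pair of ends of a side which is not an edge
      have side : ∀ u : E3, u ∈ S → ∀ t : E3, Bad S v u t → h u = h v → h t = h v →
          f v = f z → f u = f z → ¬ IsEdgeS S v u → False := by
        intro u hu t bt hu' ht fv fu hnu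
        obtain ⟨F, F0, F1, F2⟩ := bt.cx
        have F3 : F v < F t :=
          lt_of_le_of_ne (F1 t bt.hy) (fun hh => bt.no ⟨F, F0, F1, F2, hh.symm⟩)
        by_cases hFz : F z = F v
        · obtain ⟨a, ha, hah, haF⟩ := bt.face_side hS (h := -h) (neg_ne_zero.mpr h0)
            (by show -(h u) = -(h v); rw [hu']) (by show -(h t) = -(h v); rw [ht]) F1 F2 F3 hnu
          have hah' : h a < h v := by
            have : -(h v) < -(h a) := hah
            linarith
          exact zcof a ha hah' ⟨F, F0, fun w hw => by rw [hFz]; exact F1 w hw, by rw [haF, hFz]⟩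
        · exact hnu (edge_of_two_planes hS bt.hv bt.hx bt.vx F1
            (fun w hw => by rw [fv]; exact hf1 w hw) F2 (by rw [fv, fu]) f0 (r := z) hFz fv.symm)
      have notboth : h d1 = h v → h d2 = h v → False := by
        intro g1 g2
        rcases b.tri_mem hS h0 hx hy hd1 g1 with rfl | rfl | rfl
        · rcases b.tri_mem hS h0 hx hy hd2 g2 with rfl | rfl | rfl
          · exact hne rfl
          · exact side _ hd2 y b hx hy fd1 fd2 nadj
          · exact side _ hd2 x b.symm hy hx fd1 fd2 nadj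
        · rcases b.tri_mem hS h0 hx hy hd2 g2 with rfl | rfl | rfl
          · exact side _ hd1 y b hx hy fd2 fd1 (fun hh => nadj hh.symm)
          · exact hne rfl
          · exact nadj b.edge
        · rcases b.tri_mem hS h0 hx hy hd2 g2 with rfl | rfl | rfl
          · exact side _ hd1 x b.symm hy hx fd2 fd1 (fun hh => nadj hh.symm)
          · exact nadj b.edge.symm
          · exact hne rfl
      rcases lt_or_eq_of_le hd1h with g1 | g1
      · exact step d1 d2 hd1 b1 ed1 g1 hd2h
      · rcases lt_or_eq_of_le hd2h with g2 | g2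
        · exact step d2 d1 hd2 b2 ed2 g2 hd1h
        · exact notboth g1.symm g2.symm
    · intro a c b'
      exact (smaller z a c b' hzh (hge a b'.hx b'.cx) (hge c b'.hy b'.cy)).elim

/-- The case of a bad chord formed by two neighbours of a vertex of degree at least four. -/
theorem cfg4_false (hS : ConvPos S) (hspan : affineSpan ℝ (S : Set E3) = ⊤) (hU : Hyp S)
    (hno : ¬ HasHamTet S) : ∀ (n : ℕ) (c1 c2 x : E3) (h : E3 →ₗ[ℝ] ℝ), (up S h c1).card = n →
    Bad S c1 c2 x → IsEdgeS S c1 x → 4 ≤ sdeg S x → h ≠ 0 → h c2 = h c1 → h x = h c1 →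
      False := by
  intro n
  induction n using Nat.strong_induction_on with
  | _ n ih =>
    intro c1 c2 x h hn b ex hdx h0 h2 hx
    have hno12 : ¬ IsEdgeS S c1 c2 := fun he => hU x b.hy hdx c1 b.hv c2 b.hx ex.symm b.edge.symm he
    obtain ⟨F, F0, F1, F2⟩ := b.cx
    have F3 : F c1 < F x :=
      lt_of_le_of_ne (F1 x b.hy) (fun hh => b.no ⟨F, F0, F1, F2, hh.symm⟩)
    -- (2a) a vertex of a cycle above the plane off the facet
    have hA : ∀ w ∈ S, ∀ p ∈ S, ∀ q ∈ S, h c1 < h w → IsEdgeS S w p → IsEdgeS S w q →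
        IsEdgeS S p q → F w = F c1 := by
      intro w hw p hp q hq hwh wp wq pq
      by_contra hFw
      have hFw' : F c1 < F w := lt_of_le_of_ne (F1 w hw) (Ne.symm hFw)
      obtain ⟨e, e1, e2, e3⟩ := ex.le
      have hge : ∀ a ∈ S, Cof S w a → h c1 ≤ h a := by
        intro a ha hcof
        by_contra hcon
        push Not at hcon
        have := b.below h0 h2 hx (fx := F) (fy := -e) F1 F2
          (fun w hw => by show -(e c1) ≤ -(e w); linarith [e2 w hw])
          (by show -(e x) = -(e c1); rw [e1]) hw hwh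
          (by
            show -(e c1) < -(e w)
            have := e3 w hw (by rintro rfl; exact lt_irrefl _ hwh) (by rintro rfl; linarith)
            linarith) ha hcon hcof
        linarith [this.1]
      apply hno
      refine tri_corner hS hspan hU hw hp hq wp wq pq ?_
      intro f hf1 t ht hd htw d1 hd1 d2 hd2 fd1 fd2 ed1 ed2
      by_contra hne
      have f0 : f ≠ 0 := by rintro rfl; exact htw (by simp)
      have hd1h := hge d1 hd1 ⟨f, f0, hf1, fd1⟩
      have hd2h := hge d2 hd2 ⟨f, f0, hf1, fd2⟩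
      have b1 : Bad S d1 d2 t := bad_of_two' hS hU ht hd hd1 hd2 (f := f)
        (fun w hw => by rw [fd1]; exact hf1 w hw) (by rw [fd1, fd2]) (by rw [fd1]; exact htw)
        ed1 ed2 hne
      have b2 : Bad S d2 d1 t := bad_of_two' hS hU ht hd hd2 hd1 (f := f)
        (fun w hw => by rw [fd2]; exact hf1 w hw) (by rw [fd1, fd2]) (by rw [fd2]; exact htw)
        ed2 ed1 (Ne.symm hne)
      have nadj : ¬ IsEdgeS S d1 d2 := fun he => hU t ht hd d1 hd1 d2 hd2 ed1 ed2 he
      have step : ∀ d d' : E3, d ∈ S → Bad S d d' t → IsEdgeS S t d → h c1 < h d →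
          h c1 ≤ h d' → False := by
        intro d d' hdS bd ed hdh hd'h
        have hph : h c1 ≤ h t := by
          by_contra hcon
          push Not at hcon
          exact b.no_cross_edge hS h0 h2 hx hdS ht hdh hcon b.hv b.hx b.hy ed.symm
        obtain ⟨g, g0, ga, gc, hg⟩ := b.up_sub h0 h2 hx hdh bd hd'h hph
        exact ih _ (by rw [← hn]; exact Finset.card_lt_card hg) d d' t g rfl bd ed.symm hd g0
          ga gc
      have two : f c1 = f w → f c2 = f w → False := by
        intro g1 g2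
        exact hno12 (edge_of_two_planes hS b.hv b.hx b.vx F1
          (fun w hw => by rw [g1]; exact hf1 w hw) F2 (by rw [g1, g2]) f0 (r := w)
          (ne_of_gt hFw') g1.symm)
      have notboth : h d1 = h c1 → h d2 = h c1 → False := by
        intro g1 g2
        rcases b.tri_mem hS h0 h2 hx hd1 g1 with rfl | rfl | rfl
        · rcases b.tri_mem hS h0 h2 hx hd2 g2 with rfl | rfl | rfl
          · exact hne rfl
          · exact two fd1 fd2
          · exact nadj ex
        · rcases b.tri_mem hS h0 h2 hx hd2 g2 with rfl | rfl | rfl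
          · exact two fd2 fd1
          · exact hne rfl
          · exact nadj b.edge
        · rcases b.tri_mem hS h0 h2 hx hd2 g2 with rfl | rfl | rfl
          · exact nadj ex.symm
          · exact nadj b.edge.symm
          · exact hne rfl
      rcases lt_or_eq_of_le hd1h with g1 | g1
      · exact step d1 d2 hd1 b1 ed1 g1 hd2h
      · rcases lt_or_eq_of_le hd2h with g2 | g2
        · exact step d2 d1 hd2 b2 ed2 g2 hd1h
        · exact notboth g1.symm g2.symm
    -- (2b) no cycle above the plane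
    refine loc_false hS hspan hU hno _ c1 c2 x h rfl b h0 h2 hx ?_
    intro w hw p hp q hq hwh wp wq pq
    have hFw := hA w hw p hp q hq hwh wp wq pq
    have hside : ∀ p ∈ S, ∀ q ∈ S, IsEdgeS S w p → IsEdgeS S w q → IsEdgeS S p q →
        F p = F c1 := by
      intro p hp q hq wp wq pq
      have hph : h c1 ≤ h p := by
        by_contra hcon
        push Not at hcon
        exact b.no_cross_edge hS h0 h2 hx hw hp hwh hcon b.hv b.hx b.hy wp
      rcases lt_or_eq_of_le hph with g | g
      · exact hA p hp w hw q hq g wp.symm pq wq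
      · rcases b.tri_mem hS h0 h2 hx hp g.symm with rfl | rfl | rfl
        · rfl
        · exact F2
        · exact (hU _ hp hdx w hw q hq wp.symm pq wq).elim
    have hFp := hside p hp q hq wp wq pq
    have hFq := hside q hq p hp wq wp pq.symm
    obtain ⟨c, φ1, φ2, φ3, hf⟩ := exists_tri_frm hS hspan hU hw hp hq wp wq pq
    have htri := hf.tri_face hS pq
    have hval : ∀ z, F z - F w = φ3 (z - w) * (F c - F w) := by
      intro z
      have key := congrArg F (hf.ext (z - w))
      simp only [map_add, map_smul, map_sub F, smul_eq_mul, hFp, hFq, hFw, sub_self, mul_zero,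
        zero_add] at key
      rw [hFw]; exact key.symm
    have hFc : F c - F w ≠ 0 := by
      intro hh
      have := hval x
      rw [hh, mul_zero, hFw] at this
      linarith
    have mem : ∀ z ∈ S, F z = F c1 → z = w ∨ z = p ∨ z = q := by
      intro z hz hFz
      apply htri z hz
      have := hval z
      rw [hFz, hFw, sub_self] at this
      rw [hFw] at hFc
      exact (mul_eq_zero.mp this.symm).resolve_right hFc
    have n1 : c1 ≠ w := by rintro rfl; exact lt_irrefl _ hwh
    have n2 : c2 ≠ w := by rintro rfl; linarith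
    rcases mem c1 b.hv rfl with g1 | g1 | g1
    · exact n1 g1
    · rcases mem c2 b.hx F2 with g2 | g2 | g2
      · exact n2 g2
      · exact b.vx (g1.trans g2.symm)
      · exact hno12 (by rw [g1, g2]; exact pq)
    · rcases mem c2 b.hx F2 with g2 | g2 | g2
      · exact n2 g2
      · exact hno12 (by rw [g1, g2]; exact pq.symm)
      · exact b.vx (g1.trans g2.symm)

/-- Polytopes in which every vertex on a cycle of length three of the graph has degree three
have Hamiltonian tetrahedralizations. -/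
theorem hyp_hasHamTet (hS : ConvPos S) (hspan : affineSpan ℝ (S : Set E3) = ⊤) (hU : Hyp S) :
    HasHamTet S := by
  by_contra hno
  by_cases hc : ∃ p ∈ S, ∃ q ∈ S, ∃ r ∈ S, IsEdgeS S p q ∧ IsEdgeS S p r ∧ IsEdgeS S q r
  · obtain ⟨w, hw, p, hp, q, hq, wp, wq, pq⟩ := hc
    apply hno
    refine tri_corner hS hspan hU hw hp hq wp wq pq ?_
    intro f hf1 t ht hd htw d1 hd1 d2 hd2 fd1 fd2 ed1 ed2
    by_contra hne
    have b1 : Bad S d1 d2 t := bad_of_two' hS hU ht hd hd1 hd2 (f := f)
      (fun w hw => by rw [fd1]; exact hf1 w hw) (by rw [fd1, fd2]) (by rw [fd1]; exact htw)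
      ed1 ed2 hne
    obtain ⟨h, h0, h2, hx⟩ := exists_plane d1 d2 t
    exact cfg4_false hS hspan hU hno _ d1 d2 t h rfl b1 ed1.symm hd h0 h2 hx
  · push Not at hc
    have htf : ∀ p ∈ S, ∀ q ∈ S, ∀ r ∈ S, IsEdgeS S p q → IsEdgeS S p r → IsEdgeS S q r →
        False := fun p hp q hq r hr e1 e2 e3 => hc p hp q hq r hr e1 e2 e3
    by_cases hb : ∃ v x y, Bad S v x y
    · obtain ⟨v, x, y, b⟩ := hb
      obtain ⟨h, h0, hx, hy⟩ := exists_plane v x y
      exact loc_false hS hspan hU hno _ v x y h rfl b h0 hx hy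
        (fun p hp q hq r hr _ => htf p hp q hq r hr)
    · push Not at hb
      obtain ⟨z, hz, a1, a2, a3, φ1, φ2, φ3, hf⟩ := exists_simple hS hspan htf
      apply hno
      refine good_corner hS hspan hf hU ?_ (fun x y b => absurd b (hb z x y))
      intro f hf1 t ht hd htw d1 hd1 d2 hd2 fd1 fd2 ed1 ed2
      by_contra hne
      exact hb _ _ _ (bad_of_two' hS hU ht hd hd1 hd2 (f := f)
        (fun w hw => by rw [fd1]; exact hf1 w hw) (by rw [fd1, fd2]) (by rw [fd1]; exact htw)
        ed1 ed2 hne)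

end

end Run7.h169
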