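import Pool.Agent.Run7.h169.Descent

set_option autoImplicit false
open scoped Classical Topology
open Filter

namespace Run7.h169

/-- Translation as an affine map. -/
noncomputable def trs (w : E3) : E3 →ᵃ[ℝ] E3 := (AffineEquiv.constVAdd ℝ E3 w).toAffineMap

theorem trs_apply (w x : E3) : trs w x = w + x := by
  simp [trs]

theorem trs_inj (w : E3) : Function.Injective (trs w) := by
  intro x y h
  rw [trs_apply, trs_apply] at h
  exact add_left_cancel h

theorem hull_image (w : E3) (t : Finset E3) :
    convexHull ℝ ((t.image (trs w) : Finset E3) : Set E3) = (trs w) '' convexHull ℝ (t : Set E3) := by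
  rw [AffineMap.image_convexHull, Finset.coe_image]

theorem affInd_image (w : E3) (t : Finset E3)
    (h : AffineIndependent ℝ (fun x : t => (x.1 : EuclideanSpace ℝ (Fin 3)))) :
    AffineIndependent ℝ
      (fun x : (t.image (trs w) : Finset E3) => (x.1 : EuclideanSpace ℝ (Fin 3))) := by
  have h1 := (h.map' (trs w) (trs_inj w)).range
  have h2 : Set.range (trs w ∘ fun x : t => (x.1 : EuclideanSpace ℝ (Fin 3))) =
      ((t.image (trs w) : Finset E3) : Set E3) := by
    ext z
    simp
  rw [h2] at h1
  exact h1

/-- Translation invariance. -/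
theorem HasHamTet.translate {S : Finset E3} (h : HasHamTet S) (w : E3) :
    HasHamTet (S.image (trs w)) := by
  obtain ⟨T, h1, h2, h3, f, h4, h5, h6⟩ := h
  have hinj : Function.Injective (fun t : Finset E3 => t.image (trs w)) :=
    Finset.image_injective (trs_inj w)
  have hcard : (T.image (fun t : Finset E3 => t.image (trs w))).card = T.card :=
    Finset.card_image_of_injective _ hinj
  refine ⟨T.image (fun t : Finset E3 => t.image (trs w)), ?_, ?_, ?_, ?_⟩
  · intro t ht
    rw [Finset.mem_image] at ht
    obtain ⟨u, hu, rfl⟩ := ht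
    obtain ⟨g1, g2, g3⟩ := h1 u hu
    refine ⟨Finset.image_subset_image g1, ?_, affInd_image w u g3⟩
    rw [Finset.card_image_of_injective _ (trs_inj w), g2]
  · rw [hull_image, ← h2, Set.image_iUnion₂]
    ext z
    simp only [Set.mem_iUnion, Finset.mem_image, exists_prop]
    constructor
    · rintro ⟨t, ⟨u, hu, rfl⟩, hz⟩
      rw [hull_image] at hz
      exact ⟨u, hu, hz⟩
    · rintro ⟨u, hu, hz⟩
      refine ⟨_, ⟨u, hu, rfl⟩, ?_⟩
      rw [hull_image]; exact hz
  · intro t ht u hu
    rw [Finset.mem_image] at ht hu
    obtain ⟨t', ht', rfl⟩ := ht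
    obtain ⟨u', hu', rfl⟩ := hu
    rw [hull_image, hull_image, ← Set.image_inter (trs_inj w), h3 t' ht' u' hu',
      ← Finset.image_inter _ _ (trs_inj w), hull_image]
  · refine ⟨fun i => (f i).image (trs w), ?_, ?_, ?_⟩
    · intro i hi
      rw [hcard] at hi
      exact Finset.mem_image_of_mem _ (h4 i hi)
    · intro i hi j hj heq
      rw [hcard] at hi hj
      exact h5 i hi j hj (hinj heq)
    · intro i hi
      rw [hcard] at hi
      beta_reduce
      rw [← Finset.image_inter _ _ (trs_inj w), Finset.card_image_of_injective _ (trs_inj w)]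
      exact h6 i hi

/-- The vertices other than the apex, seen from the apex. -/
noncomputable def rel (S : Finset E3) (v : E3) : Finset E3 := (S.erase v).image (fun y => y - v)

theorem mem_rel {S : Finset E3} {v z : E3} : z ∈ rel S v ↔ z + v ∈ S ∧ z ≠ 0 := by
  unfold rel
  rw [Finset.mem_image]
  constructor
  · rintro ⟨y, hy, rfl⟩
    rw [Finset.mem_erase] at hy
    refine ⟨by rw [sub_add_cancel]; exact hy.2, ?_⟩
    intro h
    exact hy.1 (sub_eq_zero.mp h)
  · rintro ⟨h1, h2⟩
    refine ⟨z + v, ?_, by abel⟩
    rw [Finset.mem_erase]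
    refine ⟨?_, h1⟩
    intro h
    apply h2
    have : z + v - v = v - v := by rw [h]
    simpa using this

theorem sub_mem_rel {S : Finset E3} {v y : E3} (hy : y ∈ S) (hne : y ≠ v) : y - v ∈ rel S v := by
  rw [mem_rel]
  exact ⟨by rw [sub_add_cancel]; exact hy, fun h => hne (sub_eq_zero.mp h)⟩

theorem hasHamTet_of_rel {S : Finset E3} {v : E3} (hv : v ∈ S)
    (h : HasHamTet (insert 0 (rel S v))) : HasHamTet S := by
  have h1 := h.translate v
  have e : (insert 0 (rel S v)).image (trs v) = S := by
    ext z
    rw [Finset.mem_image]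
    constructor
    · rintro ⟨y, hy, rfl⟩
      rw [trs_apply]
      rcases Finset.mem_insert.mp hy with rfl | hy
      · simpa using hv
      · rw [mem_rel] at hy
        rw [add_comm]; exact hy.1
    · intro hz
      refine ⟨z - v, ?_, by rw [trs_apply]; abel⟩
      rw [Finset.mem_insert]
      by_cases hzv : z = v
      · left; rw [hzv, sub_self]
      · right; exact sub_mem_rel hz hzv
  rwa [e] at h1

theorem rel_sum {v : E3} (P : Finset E3) (c : E3 → ℝ)
    {x : E3} (hx : ∑ z ∈ P, c z • z = x) (hc : ∀ z ∈ P, 0 ≤ c z) (hs : ∑ z ∈ P, c z ≤ 1)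
    (Q : Set E3) (hv : v ∈ Q) (hQ : ∀ z ∈ P, z + v ∈ Q) : x + v ∈ convexHull ℝ Q := by
  have hmem : (1 - ∑ z ∈ P, c z) • v + ∑ z ∈ P, c z • (z + v) ∈ convexHull ℝ Q := by
    have h1 := (convex_convexHull ℝ Q).sum_mem (t := insert none (P.image some))
      (w := fun o : Option E3 => o.elim (1 - ∑ z ∈ P, c z) c)
      (z := fun o : Option E3 => o.elim v (fun z => z + v)) (by
        intro o ho
        rcases o with _ | z
        · simp; exact hs
        · simp only [Finset.mem_insert, reduceCtorEq, Finset.mem_image, Option.some.injEq,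
            exists_eq_right, false_or] at ho
          exact hc z ho) (by
        rw [Finset.sum_insert (by simp), Finset.sum_image (by intro a _ b _ h; simpa using h)]
        simp) (by
        intro o ho
        rcases o with _ | z
        · exact subset_convexHull ℝ _ hv
        · simp only [Finset.mem_insert, reduceCtorEq, Finset.mem_image, Option.some.injEq,
            exists_eq_right, false_or] at ho
          exact subset_convexHull ℝ _ (hQ z ho))
    rw [Finset.sum_insert (by simp), Finset.sum_image (by intro a _ b _ h; simpa using h)] at h1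
    exact h1
  have e : (1 - ∑ z ∈ P, c z) • v + ∑ z ∈ P, c z • (z + v) = x + v := by
    simp only [smul_add, Finset.sum_add_distrib, hx, ← Finset.sum_smul]
    module
  rw [e] at hmem
  exact hmem

/-- The vertices seen from one of them form a configuration. -/
theorem cfg_rel {S : Finset E3} (hS : ConvPos S) (hspan : affineSpan ℝ (S : Set E3) = ⊤) {v : E3}
    (hv : v ∈ S) : Cfg (rel S v) := by
  refine ⟨?_, ?_, ?_⟩
  · -- separation
    have hcl : IsClosed (convexHull ℝ ((S.erase v : Finset E3) : Set E3)) :=
      (Finset.finite_toSet _).isClosed_convexHull ℝ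
    obtain ⟨f, u, h1, h2⟩ := geometric_hahn_banach_point_closed
      (convex_convexHull ℝ _) hcl (hS v hv)
    refine ⟨f.toLinearMap, ?_⟩
    intro y hy
    rw [mem_rel] at hy
    have h3 := h2 (y + v) (subset_convexHull ℝ _ (by
      rw [Finset.mem_coe, Finset.mem_erase]
      refine ⟨?_, hy.1⟩
      intro h
      apply hy.2
      have : y + v - v = v - v := by rw [h]
      simpa using this))
    have h4 : f (y + v) = f y + f v := map_add f y v
    show 0 < f y
    linarith
  · -- spanning
    have h1 : vectorSpan ℝ (S : Set E3) = ⊤ :=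
      AffineSubspace.vectorSpan_eq_top_of_affineSpan_eq_top ℝ E3 E3 hspan
    rw [vectorSpan_eq_span_vsub_set_right ℝ (Finset.mem_coe.mpr hv)] at h1
    obtain ⟨b, hb1, hb2, hb3, hb4⟩ := exists_linearIndepOn_extension
      (K := ℝ) (v := (id : E3 → E3)) (s := ∅) (t := (rel S v : Set E3)) (by simp) (by simp)
    have hspanb : Submodule.span ℝ (id '' b) = ⊤ := by
      rw [eq_top_iff, ← h1, Submodule.span_le]
      rintro z ⟨y, hy, rfl⟩
      by_cases hyv : y = v
      · rw [hyv]; simp
      · apply hb3
        exact ⟨y - v, sub_mem_rel hy hyv, rfl⟩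
    have hfin : b.Finite := (rel S v).finite_toSet.subset hb1
    have hli' : LinearIndependent ℝ (fun x : b => id (x : E3)) := hb4
    refine ⟨hfin.toFinset, ?_, ?_, ?_⟩
    · intro x hx
      rw [Set.Finite.mem_toFinset] at hx
      exact_mod_cast hb1 hx
    · have hcard : Module.finrank ℝ E3 = hfin.toFinset.card := by
        have : Fintype b := hfin.fintype
        have h1 : Submodule.span ℝ (Set.range (fun x : b => id (x : E3))) = ⊤ := by
          rw [← hspanb]
          congr 1
          ext z; simp
        have bb := Module.Basis.mk hli' (by rw [h1])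
        rw [Module.finrank_eq_card_basis bb]
        rw [Set.Finite.card_toFinset]
      rw [← hcard]
      simp
    · rw [Set.Finite.coe_toFinset]
      exact hb4
  · intro x hx c hc hsum
    by_contra hle
    push Not at hle
    have hx' := mem_rel.mp hx
    apply hS (x + v) hx'.1
    refine rel_sum ((rel S v).erase x) c hsum hc hle _ ?_ ?_
    · rw [Finset.mem_coe, Finset.mem_erase]
      refine ⟨?_, hv⟩
      intro h
      apply hx'.2
      have : x + v - v = v - v := by rw [← h]
      simpa using this
    · intro z hz
      rw [Finset.mem_erase] at hz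
      rw [Finset.mem_coe, Finset.mem_erase]
      refine ⟨?_, (mem_rel.mp hz.2).1⟩
      intro h
      exact hz.1 (add_right_cancel h)

end Run7.h169
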