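import Pool.Agent.Run7.h169.Good2

set_option autoImplicit false
open scoped Classical Topology
open Filter

namespace Run7.h169

section

variable {S : Finset E3} {v a1 a2 a3 : E3} {φ1 φ2 φ3 : E3 →ₗ[ℝ] ℝ}

theorem insert_frm (hS : ConvPos S) (h : Frm S v a1 a2 a3 φ1 φ2 φ3)
    (hH : HasHamTet (S.erase v)) : HasHamTet S := by
  have h1 := hH.translate (-v)
  rw [rel_eq_image] at h1
  exact hasHamTet_of_rel h.hv ((h.sv hS).hasHamTet h1)

theorem erase_frm (hS : ConvPos S) (h : Frm S v a1 a2 a3 φ1 φ2 φ3) :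
    HasHamTet S ∨ affineSpan ℝ ((S.erase v : Finset E3) : Set E3) = ⊤ := by
  have hsv := h.sv hS
  by_cases hall : ∀ w ∈ rel S v, w ∈ ({a1 - v, a2 - v, a3 - v} : Finset E3)
  · left
    have : rel S v = {a1 - v, a2 - v, a3 - v} := Finset.Subset.antisymm hall hsv.sub
    apply hasHamTet_of_rel h.hv
    rw [this]
    exact hasHamTet_tetra h.nice
  · right
    push Not at hall
    obtain ⟨y, hy, hyτ⟩ := hall
    have hmem : ∀ w ∈ rel S v, w + v ∈ S.erase v := by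
      intro w hw
      obtain ⟨w1, w2⟩ := mem_rel.mp hw
      rw [Finset.mem_erase]
      exact ⟨fun hh => w2 (by simpa using hh), w1⟩
    have hne : ((S.erase v : Finset E3) : Set E3).Nonempty := ⟨y + v, hmem y hy⟩
    rw [AffineSubspace.affineSpan_eq_top_iff_vectorSpan_eq_top_of_nonempty ℝ E3 E3 hne]
    by_contra htop
    obtain ⟨f, hf0, hf⟩ := Submodule.exists_le_ker_of_lt_top _ (lt_top_iff_ne_top.mpr htop)
    have hconst : ∀ w ∈ rel S v, f w = f y := by
      intro w hw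
      have := hf (vsub_mem_vectorSpan ℝ (hmem w hw) (hmem y hy))
      rw [LinearMap.mem_ker, vsub_eq_sub, add_sub_add_right_eq_sub, map_sub] at this
      linarith
    have e1 : f y = f y * psi {a1 - v, a2 - v, a3 - v} y := by
      conv_lhs => rw [← crd_sum h.nice y]
      rw [map_sum, psi_apply, Finset.mul_sum]
      apply Finset.sum_congr rfl
      intro k hk
      rw [map_smul, smul_eq_mul, hconst k (hsv.sub hk)]
      ring
    have p1 := hsv.out y hy hyτ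
    have e2 : f y = 0 := by
      have : f y * (psi {a1 - v, a2 - v, a3 - v} y - 1) = 0 := by linarith
      rcases mul_eq_zero.mp this with h1 | h1
      · exact h1
      · linarith
    apply hf0
    apply nice_ext h.nice
    intro x hx
    rw [hconst x (hsv.sub hx), e2]; rfl

/-- The sum of the coordinates at a simple vertex exceeds one off the frame. -/
theorem Frm.out (hS : ConvPos S) (h : Frm S v a1 a2 a3 φ1 φ2 φ3) {s : E3} (hs : s ∈ S)
    (h0 : s ≠ v) (n1 : s ≠ a1) (n2 : s ≠ a2) (n3 : s ≠ a3) :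
    1 < φ1 (s - v) + φ2 (s - v) + φ3 (s - v) := by
  have h1 := (h.sv hS).out (s - v) (sub_mem_rel hs h0) (by
    simp only [Finset.mem_insert, Finset.mem_singleton, not_or]
    exact ⟨fun hh => n1 (sub_left_inj.mp hh), fun hh => n2 (sub_left_inj.mp hh),
      fun hh => n3 (sub_left_inj.mp hh)⟩)
  obtain ⟨g1, g2, g3⟩ := h.crd_eq (s - v)
  obtain ⟨d1, d2, d3⟩ := h.nice.distinct
  rw [psi_apply, Finset.sum_insert (by simp [d1, d2]), Finset.sum_insert (by simp [d3]),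
    Finset.sum_singleton, g1, g2, g3] at h1
  linarith

end

/-- Data for deleting a simple neighbour `w + v` of the apex `v` whose other two neighbours are
joined by an edge. -/
structure Cut (S : Finset E3) (v w x y : E3) (φ1 φ2 φ3 : E3 →ₗ[ℝ] ℝ) : Prop where
  conv : ConvPos S
  frm : Frm S (w + v) v (x + v) (y + v) φ1 φ2 φ3

section

variable {S : Finset E3} {v w x y : E3} {φ1 φ2 φ3 : E3 →ₗ[ℝ] ℝ}

theorem Cut.w1 (h : Cut S v w x y φ1 φ2 φ3) : φ1 w = -1 ∧ φ2 w = 0 ∧ φ3 w = 0 := by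
  have e : v - (w + v) = -w := by abel
  have h1 := h.frm.d11
  have h2 := h.frm.d21
  have h3 := h.frm.d31
  rw [e, map_neg] at h1 h2 h3
  refine ⟨by linarith, by linarith, by linarith⟩

theorem Cut.x1 (h : Cut S v w x y φ1 φ2 φ3) : φ1 x = -1 ∧ φ2 x = 1 ∧ φ3 x = 0 := by
  have e : x + v - (w + v) = x - w := by abel
  have h1 := h.frm.d12
  have h2 := h.frm.d22
  have h3 := h.frm.d32
  obtain ⟨g1, g2, g3⟩ := h.w1
  rw [e, map_sub] at h1 h2 h3
  refine ⟨by linarith, by linarith, by linarith⟩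

theorem Cut.y1 (h : Cut S v w x y φ1 φ2 φ3) : φ1 y = -1 ∧ φ2 y = 0 ∧ φ3 y = 1 := by
  have e : y + v - (w + v) = y - w := by abel
  have h1 := h.frm.d13
  have h2 := h.frm.d23
  have h3 := h.frm.d33
  obtain ⟨g1, g2, g3⟩ := h.w1
  rw [e, map_sub] at h1 h2 h3
  refine ⟨by linarith, by linarith, by linarith⟩

theorem Cut.pos (h : Cut S v w x y φ1 φ2 φ3) {z : E3} (hz : z ∈ rel S v) :
    -1 ≤ φ1 z ∧ 0 ≤ φ2 z ∧ 0 ≤ φ3 z := by
  obtain ⟨g1, g2, g3⟩ := h.w1
  obtain ⟨p1, p2, p3⟩ := h.frm.pos (z + v) (mem_rel.mp hz).1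
  have e : z + v - (w + v) = z - w := by abel
  rw [e, map_sub] at p1 p2 p3
  refine ⟨by linarith, by linarith, by linarith⟩

/-- The identity expressing the projection along `w`. -/
theorem Cut.proj (h : Cut S v w x y φ1 φ2 φ3) (z : E3) :
    z + (φ1 z + φ2 z + φ3 z) • w = φ2 z • x + φ3 z • y := by
  have e := h.frm.ext (z + (φ1 z + φ2 z + φ3 z) • w)
  have e' := h.frm.ext (φ2 z • x + φ3 z • y)
  obtain ⟨w1, w2, w3⟩ := h.w1
  obtain ⟨x1, x2, x3⟩ := h.x1
  obtain ⟨y1, y2, y3⟩ := h.y1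
  rw [← e, ← e']
  simp only [map_add, map_smul, w1, w2, w3, x1, x2, x3, y1, y2, y3, smul_eq_mul]
  match_scalars <;> ring

theorem Cut.ne (h : Cut S v w x y φ1 φ2 φ3) : w ≠ 0 ∧ x ≠ 0 ∧ y ≠ 0 ∧ w ≠ x ∧ w ≠ y ∧ x ≠ y := by
  obtain ⟨w1, w2, w3⟩ := h.w1
  obtain ⟨x1, x2, x3⟩ := h.x1
  obtain ⟨y1, y2, y3⟩ := h.y1
  refine ⟨?_, ?_, ?_, ?_, ?_, ?_⟩
  · rintro rfl; rw [map_zero] at w1; norm_num at w1
  · rintro rfl; rw [map_zero] at x1; norm_num at x1
  · rintro rfl; rw [map_zero] at y1; norm_num at y1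
  · rintro rfl; rw [w2] at x2; norm_num at x2
  · rintro rfl; rw [w3] at y3; norm_num at y3
  · rintro rfl; rw [x2] at y2; norm_num at y2

theorem mem_rel_erase {z : E3} : z ∈ rel (S.erase (w + v)) v ↔ z ∈ rel S v ∧ z ≠ w := by
  rw [mem_rel, mem_rel, Finset.mem_erase]
  constructor
  · rintro ⟨⟨h1, h2⟩, h3⟩
    exact ⟨⟨h2, h3⟩, fun hh => h1 (by rw [hh])⟩
  · rintro ⟨⟨h1, h2⟩, h3⟩
    exact ⟨⟨fun hh => h3 (add_right_cancel hh), h1⟩, h2⟩

theorem Cut.memw (h : Cut S v w x y φ1 φ2 φ3) : w ∈ rel S v :=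
  mem_rel.mpr ⟨h.frm.hv, h.ne.1⟩

theorem Cut.memx (h : Cut S v w x y φ1 φ2 φ3) : x ∈ rel (S.erase (w + v)) v :=
  mem_rel_erase.mpr ⟨mem_rel.mpr ⟨h.frm.h2, h.ne.2.1⟩, h.ne.2.2.2.1.symm⟩

theorem Cut.memy (h : Cut S v w x y φ1 φ2 φ3) : y ∈ rel (S.erase (w + v)) v :=
  mem_rel_erase.mpr ⟨mem_rel.mpr ⟨h.frm.h3, h.ne.2.2.1⟩, h.ne.2.2.2.2.1.symm⟩

theorem Cut.sig_pos (h : Cut S v w x y φ1 φ2 φ3) {z : E3} (hz : z ∈ rel (S.erase (w + v)) v)
    (nx : z ≠ x) (ny : z ≠ y) : 0 < φ1 z + φ2 z + φ3 z := by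
  rw [mem_rel_erase] at hz
  obtain ⟨z1, z2⟩ := mem_rel.mp hz.1
  have h1 := h.frm.out h.conv z1 (fun hh => hz.2 (add_right_cancel hh))
    (fun hh => z2 (by simpa using hh)) (fun hh => nx (add_right_cancel hh))
    (fun hh => ny (add_right_cancel hh))
  obtain ⟨g1, g2, g3⟩ := h.w1
  have e : z + v - (w + v) = z - w := by abel
  rw [e, map_sub, map_sub, map_sub, g1, g2, g3] at h1
  linarith

theorem Cut.sig_nonneg (h : Cut S v w x y φ1 φ2 φ3) {z : E3}
    (hz : z ∈ rel (S.erase (w + v)) v) : 0 ≤ φ1 z + φ2 z + φ3 z := by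
  by_cases nx : z = x
  · obtain ⟨x1, x2, x3⟩ := h.x1
    rw [nx, x1, x2, x3]; norm_num
  · by_cases ny : z = y
    · obtain ⟨y1, y2, y3⟩ := h.y1
      rw [ny, y1, y2, y3]; norm_num
    · exact (h.sig_pos hz nx ny).le

theorem Cut.rel_eq (h : Cut S v w x y φ1 φ2 φ3) :
    rel S v = insert w (rel (S.erase (w + v)) v) := by
  ext z
  rw [Finset.mem_insert, mem_rel_erase]
  constructor
  · intro hz
    by_cases hw : z = w
    · left; exact hw
    · right; exact ⟨hz, hw⟩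
  · rintro (rfl | hz)
    · exact h.memw
    · exact hz.1

theorem Cut.cone_back (h : Cut S v w x y φ1 φ2 φ3) {z : E3} (hz : z ∈ cone (rel S v))
    (hs : 0 ≤ φ1 z + φ2 z + φ3 z) : z ∈ cone (rel (S.erase (w + v)) v) := by
  set W' := rel (S.erase (w + v)) v with hW'
  rw [h.rel_eq] at hz
  obtain ⟨c, hc, hcz⟩ := hz
  have hwn : w ∉ W' := fun hh => (mem_rel_erase.mp hh).2 rfl
  rw [Finset.sum_insert hwn] at hcz
  set z' := ∑ k ∈ W', c k • k with hz'
  have hz'c : z' ∈ cone W' := ⟨c, fun k hk => hc k (Finset.mem_insert_of_mem hk), rfl⟩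
  have hcw := hc w (Finset.mem_insert_self _ _)
  obtain ⟨w1, w2, w3⟩ := h.w1
  have hσ : φ1 z + φ2 z + φ3 z = φ1 z' + φ2 z' + φ3 z' - c w := by
    rw [← hcz]
    simp only [map_add, map_smul, w1, w2, w3, smul_eq_mul]
    ring
  have hσ' : 0 ≤ φ1 z' + φ2 z' + φ3 z' := by linarith
  have hp2 : 0 ≤ φ2 z' ∧ 0 ≤ φ3 z' := by
    rw [hz']
    simp only [map_sum, map_smul, smul_eq_mul]
    constructor
    · exact Finset.sum_nonneg (fun k hk => mul_nonneg (hc k (Finset.mem_insert_of_mem hk))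
        (h.pos (mem_rel_erase.mp hk).1).2.1)
    · exact Finset.sum_nonneg (fun k hk => mul_nonneg (hc k (Finset.mem_insert_of_mem hk))
        (h.pos (mem_rel_erase.mp hk).1).2.2)
  have hproj : z' + (φ1 z' + φ2 z' + φ3 z') • w ∈ cone W' := by
    rw [h.proj z']
    exact cone_add (cone_smul hp2.1 (mem_cone_self h.memx)) (cone_smul hp2.2
      (mem_cone_self h.memy))
  rcases eq_or_lt_of_le hσ' with h0 | h0
  · have hcw0 : c w = 0 := by linarith
    rw [← hcz, hcw0, zero_smul, zero_add]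
    exact hz'c
  · set σ := φ1 z' + φ2 z' + φ3 z' with hσd
    have hle : c w / σ ≤ 1 := by rw [div_le_one h0]; linarith
    have e : z = (1 - c w / σ) • z' + (c w / σ) • (z' + σ • w) := by
      rw [← hcz]
      match_scalars <;> field_simp <;> ring
    rw [e]
    exact cone_add (cone_smul (by linarith) hz'c) (cone_smul (div_nonneg hcw h0.le) hproj)

theorem Inner.mono {W W' : Finset E3} (h : W' ⊆ W) {z : E3} (hz : Inner W' z) : Inner W z := by
  intro r
  filter_upwards [hz r] with δ hδ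
  exact cone_mono h hδ

theorem Cut.sub (h : Cut S v w x y φ1 φ2 φ3) : rel (S.erase (w + v)) v ⊆ rel S v := by
  intro z hz
  exact (mem_rel_erase.mp hz).1

theorem Cut.inner_back (h : Cut S v w x y φ1 φ2 φ3) (hx : ¬ Inner (rel S v) x)
    (hy : ¬ Inner (rel S v) y) {z : E3} (hz : z ∈ rel (S.erase (w + v)) v)
    (hin : Inner (rel S v) z) : Inner (rel (S.erase (w + v)) v) z := by
  have nx : z ≠ x := by rintro rfl; exact hx hin
  have ny : z ≠ y := by rintro rfl; exact hy hin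
  have hσ := h.sig_pos hz nx ny
  intro r
  filter_upwards [hin r, ev_pos (b := φ1 r + φ2 r + φ3 r) hσ] with δ h1 h2
  apply h.cone_back h1
  simp only [map_add, map_smul, smul_eq_mul]
  linarith

theorem Cut.inner_sum (h : Cut S v w x y φ1 φ2 φ3) :
    ¬ Inner (rel (S.erase (w + v)) v) (x + y) := by
  apply not_inner_of_support (f := φ1 + φ2 + φ3)
  · intro h0
    have h1 : (φ1 + φ2 + φ3) w = 0 := by rw [h0]; rfl
    obtain ⟨w1, w2, w3⟩ := h.w1
    have h2 : φ1 w + φ2 w + φ3 w = 0 := h1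
    rw [w1, w2, w3] at h2
    norm_num at h2
  · intro z hz
    exact h.sig_nonneg hz
  · obtain ⟨x1, x2, x3⟩ := h.x1
    obtain ⟨y1, y2, y3⟩ := h.y1
    show φ1 (x + y) + φ2 (x + y) + φ3 (x + y) = 0
    simp only [map_add, x1, x2, x3, y1, y2, y3]
    norm_num

theorem Cut.edge_w (h : Cut S v w x y φ1 φ2 φ3) (hE : IsEdge0 (rel S v) x y)
    {f : E3 →ₗ[ℝ] ℝ} (hf : ∀ z ∈ rel (S.erase (w + v)) v, f z ≤ 1) {p : E3}
    (hp : p ∈ rel (S.erase (w + v)) v) (px : p ≠ x) (py : p ≠ y) (hfp : f p = 1) : f w < 1 := by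
  by_contra hge
  push Not at hge
  have hσ := h.sig_pos hp px py
  obtain ⟨p1, p2, p3⟩ := h.pos (h.sub hp)
  have e := congrArg f (h.proj p)
  rw [map_add, map_smul, map_add, map_smul, map_smul, hfp, smul_eq_mul, smul_eq_mul,
    smul_eq_mul] at e
  have l1 := hf x h.memx
  have l2 := hf y h.memy
  have m1 : φ2 p * f x ≤ φ2 p * 1 := mul_le_mul_of_nonneg_left l1 p2
  have m2 : φ3 p * f y ≤ φ3 p * 1 := mul_le_mul_of_nonneg_left l2 p3
  have m3 : (φ1 p + φ2 p + φ3 p) * 1 ≤ (φ1 p + φ2 p + φ3 p) * f w :=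
    mul_le_mul_of_nonneg_left hge hσ.le
  have hφ1 : φ1 p = -1 := by linarith
  obtain ⟨hxy, g, g1, g2, g3⟩ := hE
  have e2 := congrArg g (h.proj p)
  rw [map_add, map_smul, map_add, map_smul, map_smul, g1, g2, smul_eq_mul, smul_eq_mul,
    smul_eq_mul] at e2
  have gw := g3 w h.memw h.ne.2.2.2.1 h.ne.2.2.2.2.1
  have gp := g3 p (h.sub hp) px py
  have m4 : (φ1 p + φ2 p + φ3 p) * g w < (φ1 p + φ2 p + φ3 p) * 1 :=
    mul_lt_mul_of_pos_left gw hσ
  rw [hφ1] at e2 m4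
  linarith

theorem Cut.edge_back (h : Cut S v w x y φ1 φ2 φ3) (hE : IsEdge0 (rel S v) x y) {p r : E3}
    (hp : p ∈ rel (S.erase (w + v)) v) (hr : r ∈ rel (S.erase (w + v)) v)
    (he : IsEdge0 (rel (S.erase (w + v)) v) p r) : IsEdge0 (rel S v) p r := by
  obtain ⟨hpr, f, f1, f2, f3⟩ := he
  have hf : ∀ z ∈ rel (S.erase (w + v)) v, f z ≤ 1 := by
    intro z hz
    by_cases z1 : z = p
    · rw [z1, f1]
    · by_cases z2 : z = r
      · rw [z2, f2]
      · exact (f3 z hz z1 z2).le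
  have key : f w < 1 → IsEdge0 (rel S v) p r := by
    intro hw
    refine ⟨hpr, f, f1, f2, ?_⟩
    intro z hz z1 z2
    rw [h.rel_eq, Finset.mem_insert] at hz
    rcases hz with rfl | hz
    · exact hw
    · exact f3 z hz z1 z2
  by_cases p1 : p = x
  · by_cases r1 : r = y
    · rw [p1, r1]; exact hE
    · by_cases r2 : r = x
      · exact absurd (p1.trans r2.symm) hpr
      · exact key (h.edge_w hE hf hr r2 r1 f2)
  · by_cases p2 : p = y
    · by_cases r1 : r = x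
      · rw [p2, r1]; exact hE.symm
      · by_cases r2 : r = y
        · exact absurd (p2.trans r2.symm) hpr
        · exact key (h.edge_w hE hf hr r1 r2 f2)
    · exact key (h.edge_w hE hf hp p1 p2 f1)

end

end Run7.h169
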