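import Pool.Agent.Run7.h169.Trim

set_option autoImplicit false
open scoped Classical Topology
open Filter

namespace Run7.h169

/-- A colouring seen from an apex; bad monochromatic chords must cut off a simple vertex. -/
structure PreCol (S : Finset E3) (v : E3) (χ : E3 → Bool) (q : E3) : Prop where
  forest : ∃ ρ : E3 → ℕ, ∀ p ∈ rel S v, Inner (rel S v) p → ∀ x ∈ rel S v, ∀ y ∈ rel S v,
    IsEdge0 (rel S v) p x → IsEdge0 (rel S v) p y → χ x = χ p → χ y = χ p →
    (Inner (rel S v) x → ρ x ≤ ρ p) → (Inner (rel S v) y → ρ y ≤ ρ p) → x = y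
  outer : ∀ x ∈ rel S v, ¬ Inner (rel S v) x → χ x = false → x = q
  chord : ∀ p ∈ rel S v, ∀ r ∈ rel S v, ¬ Inner (rel S v) p → ¬ Inner (rel S v) r →
    IsEdge0 (rel S v) p r → χ p = χ r → Inner (rel S v) (p + r) → Triv S v (p + v) (r + v)

section

variable {S : Finset E3} {v a1 a2 a3 : E3} {φ1 φ2 φ3 : E3 →ₗ[ℝ] ℝ}

theorem Frm.restrict (h : Frm S v a1 a2 a3 φ1 φ2 φ3) {S' : Finset E3} (hs : S' ⊆ S)
    (hv : v ∈ S') (h1 : a1 ∈ S') (h2 : a2 ∈ S') (h3 : a3 ∈ S') :
    Frm S' v a1 a2 a3 φ1 φ2 φ3 :=
  ⟨hv, h1, h2, h3, h.d11, h.d12, h.d13, h.d21, h.d22, h.d23, h.d31, h.d32, h.d33, h.ext,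
    fun y hy => h.pos y (hs hy)⟩

/-- Without bad monochromatic chords the colouring is good. -/
theorem PreCol.exists_col {χ : E3 → Bool} {q : E3} (hC : Cfg (rel S v))
    (h : PreCol S v χ q)
    (hno : ∀ p ∈ rel S v, ∀ r ∈ rel S v, ¬ Inner (rel S v) p → ¬ Inner (rel S v) r →
      IsEdge0 (rel S v) p r → χ p = χ r → ¬ Inner (rel S v) (p + r)) :
    ∃ χ', Col (rel S v) χ' := by
  set W := rel S v with hW
  obtain ⟨x0, hx0, y0, hy0, hxy, nx, ny⟩ := exists_two_outer hC
  obtain ⟨ρ, hρ⟩ := h.forest
  by_cases htwo : ∃ x ∈ W, ∃ y ∈ W, χ x ≠ χ y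
  · refine ⟨χ, htwo, hno, ⟨ρ, hρ⟩, ?_⟩
    intro B hF
    by_cases hq : ∃ x ∈ W, ¬ Inner W x ∧ χ x = false
    · obtain ⟨z, hz, nz, cz⟩ := hq
      have hzq := h.outer z hz nz cz
      apply outer_of_single hC (hzq ▸ hz) _ B hF
      exact h.outer
    · push Not at hq
      apply outer_of_single hC hx0 _ B hF
      intro x hx n hc
      exact absurd hc (hq x hx n)
  · push Not at htwo
    -- all vertices have the same colour, which is true
    have hall : ∀ x ∈ W, χ x = true := by
      intro x hx
      by_contra hne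
      have hf : χ x = false := by simpa using hne
      have e1 := h.outer x0 hx0 nx ((htwo x0 hx0 x hx).trans hf)
      have e2 := h.outer y0 hy0 ny ((htwo y0 hy0 x hx).trans hf)
      exact hxy (e1.trans e2.symm)
    set χ' : E3 → Bool := fun z => decide (z ≠ x0) with hχ'
    have c1 : ∀ z, z ≠ x0 → χ' z = true := by
      intro z hz; rw [hχ']; beta_reduce; simp [hz]
    have c2 : χ' x0 = false := by rw [hχ']; beta_reduce; simp
    have c3 : ∀ z, χ' z = true → z ≠ x0 := by
      rintro z hz rfl
      rw [c2] at hz; simp at hz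
    have c4 : ∀ z, χ' z = false → z = x0 := by
      intro z hz
      by_contra hne
      rw [c1 z hne] at hz; simp at hz
    refine ⟨χ', ⟨x0, hx0, y0, hy0, ?_⟩, ?_, ⟨ρ, ?_⟩, ?_⟩
    · rw [c2, c1 y0 hxy.symm]; decide
    · intro p hp r hr np nr he _
      exact hno p hp r hr np nr he (by rw [hall p hp, hall r hr])
    · intro p hp hin x hx y hy ex ey cx cy
      exact hρ p hp hin x hx y hy ex ey (by rw [hall x hx, hall p hp])
        (by rw [hall y hy, hall p hp])
    · intro B hF
      exact outer_of_single hC hx0 (fun x _ _ hc => c4 x hc) B hF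

/-- A colouring seen from an apex gives a Hamiltonian tetrahedralization. -/
theorem PreCol.hasHamTet {χ : E3 → Bool} {q : E3} : ∀ (n : ℕ) (S : Finset E3), S.card = n →
    ConvPos S → affineSpan ℝ (S : Set E3) = ⊤ → v ∈ S → PreCol S v χ q → HasHamTet S := by
  intro n
  induction n with
  | zero =>
    intro S hn _ _ hv _
    rw [Finset.card_eq_zero] at hn
    rw [hn] at hv
    exact absurd hv (Finset.notMem_empty v)
  | succ n ih =>
    intro S hn hS hspan hv h
    have hC := cfg_rel hS hspan hv
    by_cases hbad : ∃ p ∈ rel S v, ∃ r ∈ rel S v, ¬ Inner (rel S v) p ∧ ¬ Inner (rel S v) r ∧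
        IsEdge0 (rel S v) p r ∧ χ p = χ r ∧ Inner (rel S v) (p + r)
    · obtain ⟨p, hp, r, hr, np, nr, he, hc, hin⟩ := hbad
      obtain ⟨w0, φ1, φ2, φ3, hF⟩ := h.chord p hp r hr np nr he hc hin
      obtain ⟨w, rfl⟩ : ∃ w, w0 = w + v := ⟨w0 - v, by abel⟩
      have hcut : Cut S v w p r φ1 φ2 φ3 := ⟨hS, hF⟩
      rcases erase_frm hS hF with h1 | h1
      · exact h1
      · apply insert_frm hS hF
        have hwv : v ≠ w + v := fun hh => hcut.ne.1 (by simpa using hh.symm)
        have hv' : v ∈ S.erase (w + v) := Finset.mem_erase.mpr ⟨hwv, hv⟩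
        refine ih (S.erase (w + v)) (by rw [Finset.card_erase_of_mem hF.hv, hn]; rfl)
          (hS.mono (Finset.erase_subset _ _)) h1 hv' ?_
        have hback : ∀ z ∈ rel (S.erase (w + v)) v, ¬ Inner (rel (S.erase (w + v)) v) z →
            ¬ Inner (rel S v) z := fun z hz hn hh => hn (hcut.inner_back np nr hz hh)
        refine ⟨?_, ?_, ?_⟩
        · obtain ⟨ρ, hρ⟩ := h.forest
          refine ⟨ρ, ?_⟩
          intro a ha hina x hx y hy ex ey cx cy rx ry
          exact hρ a (hcut.sub ha) (hina.mono hcut.sub) x (hcut.sub hx) y (hcut.sub hy)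
            (hcut.edge_back he ha hx ex) (hcut.edge_back he ha hy ey) cx cy
            (fun hh => rx (hcut.inner_back np nr hx hh))
            (fun hh => ry (hcut.inner_back np nr hy hh))
        · intro x hx nx cx
          exact h.outer x (hcut.sub hx) (hback x hx nx) cx
        · intro a ha b hb na nb eab cab inab
          obtain ⟨w', ψ1, ψ2, ψ3, hF'⟩ := h.chord a (hcut.sub ha) b (hcut.sub hb) (hback a ha na)
            (hback b hb nb) (hcut.edge_back he ha hb eab) cab (inab.mono hcut.sub)
          have ma := (mem_rel_erase.mp ha)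
          have mb := (mem_rel_erase.mp hb)
          have a0 := (mem_rel.mp ma.1).2
          have b0 := (mem_rel.mp mb.1).2
          have hne : w' ≠ w + v := by
            intro hw
            rw [hw] at hF'
            have k1 := hF.neighbour (mem_rel.mp mb.1).1 (hF'.edge3 hS).symm
            have k2 := hF.neighbour (mem_rel.mp ma.1).1 (hF'.swap23.edge3 hS).symm
            have kb : b = p ∨ b = r := by
              rcases k1 with k | k | k
              · exact absurd (by simpa using k) b0
              · left; exact add_right_cancel k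
              · right; exact add_right_cancel k
            have ka : a = p ∨ a = r := by
              rcases k2 with k | k | k
              · exact absurd (by simpa using k) a0
              · left; exact add_right_cancel k
              · right; exact add_right_cancel k
            have hab : a ≠ b := eab.1
            rcases ka with rfl | rfl
            · rcases kb with rfl | rfl
              · exact hab rfl
              · exact hcut.inner_sum inab
            · rcases kb with rfl | rfl
              · rw [add_comm a b] at inab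
                exact hcut.inner_sum inab
              · exact hab rfl
          refine ⟨w', ψ1, ψ2, ψ3, hF'.restrict (Finset.erase_subset _ _)
            (Finset.mem_erase.mpr ⟨hne, hF'.hv⟩) hv' (mem_rel.mp ha).1 (mem_rel.mp hb).1⟩
    · push Not at hbad
      obtain ⟨χ', hχ'⟩ := h.exists_col hC (fun p hp r hr np nr he hc hin =>
        hbad p hp r hr np nr he hc hin)
      exact hasHamTet_of_rel hv (hasHamTet_of_col hC hχ')

end

end Run7.h169
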