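import Pool.Agent.Run7.h169.Mx5

set_option autoImplicit false
open scoped Classical Topology
open Filter

namespace Run7.h169

section

variable {S : Finset E3} {z : E3}

/-- The case of a nonempty forest of inner vertices whose inner neighbours outside are simple. -/
theorem colour_forest (hS : ConvPos S) (hspan : affineSpan ℝ (S : Set E3) = ⊤) (hz : z ∈ S)
    (hsep : ∀ a c, ¬ Sep S z a c) {M : Finset E3}
    (hM : M ⊆ (rel S z).filter (Inner (rel S z))) (hne : M.Nonempty)
    (hleaf : ∀ M' ⊆ M, M'.Nonempty → ∃ x ∈ M', ∀ y ∈ M', ∀ t ∈ M',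
      IsEdge0 (rel S z) x y → IsEdge0 (rel S z) x t → y = t)
    (hdeg : ∀ p ∈ rel S z, Inner (rel S z) p → p ∉ M → deg (rel S z) p ≤ 4)
    (hdeg3 : ∀ p ∈ rel S z, Inner (rel S z) p → p ∉ M → ∀ m ∈ M, IsEdge0 (rel S z) p m →
      deg (rel S z) p ≤ 3) : HasHamTet S := by
  have hC : Cfg (rel S z) := cfg_rel hS hspan hz
  set W := rel S z with hW
  have h0W : (0 : E3) ∉ W := zero_notMem_rel
  have hirr : ∀ x, ¬ IsEdge0 W x x := fun x h => h.1 rfl
  have hsymm : ∀ x y, IsEdge0 W x y → IsEdge0 W y x := fun x y h => h.symm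
  obtain ⟨ρ0, hρ0⟩ := forest_rank hsymm hirr (0 : E3) _ M rfl hleaf
  set I := (W.filter (Inner W)) \ M with hI
  obtain ⟨χ, ρ, hχ0, hχ⟩ := greedy_deg (IsEdge0 W) hirr (fun x => decide (x ∉ M))
    I.card W I rfl (Finset.sdiff_subset.trans (Finset.filter_subset _ _)) (by
      intro X hX hXne
      by_contra hcon
      push Not at hcon
      have hXI : X ⊆ W.filter (Inner W) := hX.trans Finset.sdiff_subset
      have hcl : ∀ p ∈ X, ∀ q ∈ W, Inner W q → IsEdge0 W p q → q ∈ X := by
        intro p hp q hq iq he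
        obtain ⟨hp1, hpM⟩ := Finset.mem_sdiff.mp (hX hp)
        obtain ⟨hpW, ip⟩ := Finset.mem_filter.mp hp1
        have h4 := hcon p hp
        have hsub : W.filter (fun q => IsEdge0 W p q ∧ (q ∈ X ∨ q ∉ I)) ⊆
            W.filter (fun q => IsEdge0 W p q) := by
          intro y hy
          obtain ⟨y1, y2, _⟩ := Finset.mem_filter.mp hy
          exact Finset.mem_filter.mpr ⟨y1, y2⟩
        have hd := hdeg p hpW ip hpM
        have hle := Finset.card_le_card hsub
        have heq := Finset.eq_of_subset_of_card_le hsub (by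
          have : (W.filter (fun q => IsEdge0 W p q)).card ≤ 4 := hd
          omega)
        have hqm : q ∈ W.filter (fun q => IsEdge0 W p q) := Finset.mem_filter.mpr ⟨hq, he⟩
        rw [← heq, Finset.mem_filter] at hqm
        obtain ⟨q1, _, q3⟩ := hqm
        rcases q3 with h | h
        · exact h
        · exfalso
          have hqM : q ∈ M := by
            by_contra hqM
            exact h (Finset.mem_sdiff.mpr ⟨Finset.mem_filter.mpr ⟨hq, iq⟩, hqM⟩)
          have h3 : (W.filter (fun q => IsEdge0 W p q)).card ≤ 3 := hdeg3 p hpW ip hpM q hqM he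
          omega
      obtain ⟨m, hm⟩ := hne
      obtain ⟨m1, m2⟩ := Finset.mem_filter.mp (hM hm)
      have := inner_conn hS hspan hz hsep hXI hXne hcl m1 m2
      exact (Finset.mem_sdiff.mp (hX this)).2 hm)
  have χM : ∀ x ∈ M, χ x = false := by
    intro x hx
    rw [hχ0 x (fun hh => (Finset.mem_sdiff.mp hh).2 hx)]
    simp [hx]
  have χO : ∀ x, ¬ Inner W x → χ x = true := by
    intro x hx
    rw [hχ0 x (fun hh => hx (Finset.mem_filter.mp (Finset.mem_sdiff.mp hh).1).2)]
    have : x ∉ M := fun hm => hx (Finset.mem_filter.mp (hM hm)).2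
    simp [this]
  set K := W.sup ρ0 + 1 with hK
  set ρ' : E3 → ℕ := fun x => if x ∈ I then ρ x + K else ρ0 x with hρ'
  have ρI : ∀ x ∈ I, ρ' x = ρ x + K := by
    intro x hx; rw [hρ']; beta_reduce; rw [if_pos hx]
  have ρN : ∀ x, x ∉ I → ρ' x = ρ0 x := by
    intro x hx; rw [hρ']; beta_reduce; rw [if_neg hx]
  refine PreCol.hasHamTet (χ := χ) (q := z) _ S rfl hS hspan hz
    (preCol_of hC hz hsep ⟨ρ', ?_⟩ ?_)
  · intro p hp ip x hx y hy ex ey cx cy rx ry
    by_cases hpI : p ∈ I
    · refine hχ p hpI x hx y hy ex ey cx cy ?_ ?_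
      · intro hxI
        have := rx (Finset.mem_filter.mp (Finset.mem_sdiff.mp hxI).1).2
        rw [ρI x hxI, ρI p hpI] at this
        omega
      · intro hyI
        have := ry (Finset.mem_filter.mp (Finset.mem_sdiff.mp hyI).1).2
        rw [ρI y hyI, ρI p hpI] at this
        omega
    · have hpM : p ∈ M := by
        by_contra hpM
        exact hpI (Finset.mem_sdiff.mpr ⟨Finset.mem_filter.mpr ⟨hp, ip⟩, hpM⟩)
      have hρp : ρ0 p < K := by
        have : ρ0 p ≤ W.sup ρ0 := Finset.le_sup (f := ρ0) hp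
        omega
      have mem : ∀ x ∈ W, χ x = χ p → (Inner W x → ρ' x ≤ ρ' p) → x ∈ M ∧ ρ0 x ≤ ρ0 p := by
        intro x hx cx rx
        have ix : Inner W x := by
          by_contra hn
          rw [χO x hn, χM p hpM] at cx
          simp at cx
        have hxI : x ∉ I := by
          intro hxI
          have := rx ix
          rw [ρI x hxI, ρN p hpI] at this
          omega
        refine ⟨?_, ?_⟩
        · by_contra hxM
          exact hxI (Finset.mem_sdiff.mpr ⟨Finset.mem_filter.mpr ⟨hx, ix⟩, hxM⟩)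
        · have := rx ix
          rwa [ρN x hxI, ρN p hpI] at this
      obtain ⟨m1, m2⟩ := mem x hx cx rx
      obtain ⟨n1, n2⟩ := mem y hy cy ry
      exact hρ0 p hpM (fun hh => h0W (hh ▸ hp)) x m1 y n1 ex ey (fun _ => m2) (fun _ => n2)
  · intro x _ nx hc
    rw [χO x nx] at hc
    simp at hc

/-- The vertices outside a set inducing a forest have at most four neighbours, at most three if
they are adjacent to the set. -/
theorem forest4_hasHamTet (hS : ConvPos S) (hspan : affineSpan ℝ (S : Set E3) = ⊤)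
    {F : E3 → Prop} (hF : NoCycle (IsEdgeS S) (fun x => x ∈ S ∧ F x))
    (hd4 : ∀ p ∈ S, ¬ F p → sdeg S p ≤ 4)
    (hd3 : ∀ p ∈ S, ¬ F p → ∀ q ∈ S, F q → IsEdgeS S p q → sdeg S p ≤ 3) : HasHamTet S := by
  by_contra hno
  obtain ⟨z, hz, H, hred, hbad⟩ := exists_apex hS hspan hno
  obtain ⟨S', hsub, hz', hR, hsep, hH, hcof, hedge⟩ := erase_all (z := z) (H := H) _ S rfl hS hz
    hred
  rcases hR.hasHamTet hS hspan with h1 | ⟨hspan', himp⟩
  · exact hno h1
  have hno' : ¬ HasHamTet S' := fun hh => hno (himp hh)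
  have hS' : ConvPos S' := hS.mono hsub
  have hC : Cfg (rel S z) := cfg_rel hS hspan hz
  have hC' : Cfg (rel S' z) := cfg_rel hS' hspan' hz'
  set W' := rel S' z with hW'
  have mS : ∀ {w : E3}, w ∈ W' → w + z ∈ S' := fun hw => (mem_rel.mp hw).1
  have mW : ∀ {w : E3}, w ∈ W' → w ∈ rel S z := fun hw =>
    mem_rel.mpr ⟨hsub (mem_rel.mp hw).1, (mem_rel.mp hw).2⟩
  have hinn : ∀ {w : E3}, w ∈ W' → Inner W' w → Inner (rel S z) w := by
    intro w hw hi
    by_contra hn
    exact (cof_inner_iff hC' hw).mp (((cof_inner_iff hC (mW hw)).mpr hn).sub hsub) hi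
  have hout : ∀ {w : E3}, w ∈ W' → ¬ Inner W' w → ¬ Inner (rel S z) w := by
    intro w hw hn
    exact (cof_inner_iff hC (mW hw)).mp (hcof z hz' _ (mS hw) ((cof_inner_iff hC' hw).mpr hn))
  have hed : ∀ {p q : E3}, p ∈ W' → Inner W' p → q ∈ W' → IsEdge0 W' p q →
      IsEdgeS S (p + z) (q + z) := by
    intro p q hp ip hq he
    exact hedge _ (mS hp) (fun hc => (cof_inner_iff hC' hp).mp hc ip) _ (mS hq) (Frm.edge_rel he)
  have hdegle : ∀ {p : E3}, p ∈ W' → Inner W' p → deg W' p ≤ sdeg S (p + z) := by
    intro p hp ip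
    apply Finset.card_le_card_of_injOn (fun q => q + z)
    · intro q hq
      rw [Finset.mem_coe, Finset.mem_filter] at hq
      rw [Finset.mem_coe]
      exact Finset.mem_filter.mpr ⟨hsub (mS hq.1), hed hp ip hq.1 hq.2⟩
    · intro a _ b _ hab
      exact add_right_cancel hab
  -- there are inner vertices
  have hin : ∃ y ∈ W', Inner W' y := by
    by_contra hcon
    push Not at hcon
    exact hno' (colour_none hS' hspan' hz' hsep hcon)
  -- no inner vertex belongs to the forest
  have hinF : ∀ p ∈ W', Inner W' p → ¬ F (p + z) := by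
    intro p0 hp0 ip0 hFp0
    apply hno'
    set M := W'.filter (fun p => Inner W' p ∧ F (p + z)) with hM
    have memM : ∀ {p : E3}, p ∈ M → p ∈ W' ∧ Inner W' p ∧ F (p + z) := fun hp =>
      Finset.mem_filter.mp hp
    have hnoW : NoCycle (IsEdge0 W') (fun x => x ∈ M) := by
      rintro ⟨n, c, h1, h2, h3, h4, h5⟩
      apply hF
      refine ⟨n, fun i => c i + z, h1, ?_, ?_, ?_, ?_⟩
      · intro i hi
        obtain ⟨a1, _, a3⟩ := memM (h2 i hi)
        exact ⟨hsub (mS a1), a3⟩
      · intro i hi j hj hij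
        exact h3 i hi j hj (add_right_cancel hij)
      · intro i hi
        obtain ⟨a1, a2, _⟩ := memM (h2 i (by omega))
        obtain ⟨b1, _, _⟩ := memM (h2 (i + 1) hi)
        exact hed a1 a2 b1 (h4 i hi)
      · obtain ⟨a1, a2, _⟩ := memM (h2 (n - 1) (by omega))
        obtain ⟨b1, _, _⟩ := memM (h2 0 (by omega))
        exact hed a1 a2 b1 h5
    refine colour_forest hS' hspan' hz' hsep (M := M) ?_
      ⟨p0, Finset.mem_filter.mpr ⟨hp0, ip0, hFp0⟩⟩ ?_ ?_ ?_
    · intro x hx
      obtain ⟨a1, a2, _⟩ := memM hx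
      exact Finset.mem_filter.mpr ⟨a1, a2⟩
    · intro M' hM' hne'
      exact hnoW.exists_leaf (fun x h => h.1 rfl) M' hne' (fun x hx => hM' hx)
    · intro p hp ip hpM
      refine (hdegle hp ip).trans (hd4 _ (hsub (mS hp)) ?_)
      exact fun hFp => hpM (Finset.mem_filter.mpr ⟨hp, ip, hFp⟩)
    · intro p hp ip hpM m hm he
      obtain ⟨a1, _, a3⟩ := memM hm
      exact (hdegle hp ip).trans (hd3 _ (hsub (mS hp))
        (fun hFp => hpM (Finset.mem_filter.mpr ⟨hp, ip, hFp⟩)) _ (hsub (mS a1)) a3
        (hed hp ip a1 he))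
  have hdeg : ∀ p ∈ W', Inner W' p → deg W' p ≤ 4 := fun p hp ip =>
    (hdegle hp ip).trans (hd4 _ (hsub (mS hp)) (hinF p hp ip))
  -- inner vertices have degree four
  have hin4 : ∀ p ∈ W', Inner W' p → 4 ≤ sdeg S (p + z) := by
    intro p hp ip
    by_contra hcon
    have h1 := hdegle hp ip
    have h3 : deg W' p ≤ 3 := by omega
    exact hno' (colour_simple hS' hspan' hz' hsep hdeg hp ip h3)
  -- no outer vertex belongs to the forest
  have houtF : ∀ o ∈ W', ¬ Inner W' o → ¬ F (o + z) := by
    intro o ho no hFo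
    obtain ⟨n1, n1W, i1, e1⟩ := outer_has_inner hS' hspan' hz' hsep hin ho no
    have h3 := hd3 _ (hsub (mS n1W)) (hinF n1 n1W i1) _ (hsub (mS ho)) hFo
      (hed n1W i1 ho e1.symm)
    have h4 := hin4 n1 n1W i1
    omega
  -- outer vertices have two inner neighbours
  have hout4 : ∀ o ∈ W', ¬ Inner W' o → ∃ N : Finset E3, N.card = 4 ∧
      ∀ q ∈ N, q ∈ rel S z ∧ IsEdgeS S (o + z) (q + z) := by
    intro o ho no
    obtain ⟨n1, n1W, i1, e1⟩ := outer_has_inner hS' hspan' hz' hsep hin ho no
    obtain ⟨n2, n2W, i2, e2, hne⟩ : ∃ n2 ∈ W', Inner W' n2 ∧ IsEdge0 W' o n2 ∧ n2 ≠ n1 := by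
      by_contra hcon
      push Not at hcon
      exact hno' (colour_root hS' hspan' hz' hsep hdeg ho no n1W i1 e1.symm hcon)
    obtain ⟨u, uW, x, xW, hux, nu, nx, eu, ex⟩ :=
      two_outer_nbrs hS hspan hz (mW ho) (hout ho no)
    have j1 := hinn n1W i1
    have j2 := hinn n2W i2
    refine ⟨{n1, n2, u, x}, ?_, ?_⟩
    · rw [Finset.card_insert_of_notMem, Finset.card_insert_of_notMem, Finset.card_pair hux]
      · simp only [Finset.mem_insert, Finset.mem_singleton, not_or]
        exact ⟨by rintro rfl; exact nu j2, by rintro rfl; exact nx j2⟩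
      · simp only [Finset.mem_insert, Finset.mem_singleton, not_or]
        exact ⟨hne.symm, by rintro rfl; exact nu j1, by rintro rfl; exact nx j1⟩
    · intro q hq
      simp only [Finset.mem_insert, Finset.mem_singleton] at hq
      rcases hq with rfl | rfl | rfl | rfl
      · exact ⟨mW n1W, (hed n1W i1 ho e1.symm).symm⟩
      · exact ⟨mW n2W, (hed n2W i2 ho e2.symm).symm⟩
      · exact ⟨uW, Frm.edge_rel eu⟩
      · exact ⟨xW, Frm.edge_rel ex⟩
  have hcount : ∀ o ∈ W', ¬ Inner W' o → 4 ≤ sdeg S (o + z) ∧ ¬ IsEdgeS S z (o + z) := by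
    intro o ho no
    obtain ⟨N, hN, hNe⟩ := hout4 o ho no
    have hsubN : N.image (fun q => q + z) ⊆ S.filter (fun q => IsEdgeS S (o + z) q) := by
      intro w hw
      obtain ⟨q, hq, rfl⟩ := Finset.mem_image.mp hw
      exact Finset.mem_filter.mpr ⟨(mem_rel.mp (hNe q hq).1).1, (hNe q hq).2⟩
    have hcard : (N.image (fun q => q + z)).card = 4 := by
      rw [Finset.card_image_of_injective _ (add_left_injective z), hN]
    constructor
    · rw [← hcard]
      exact Finset.card_le_card hsubN
    · intro he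
      have hznot : z ∉ N.image (fun q => q + z) := by
        intro hh
        obtain ⟨q, hq, hqz⟩ := Finset.mem_image.mp hh
        exact (mem_rel.mp (hNe q hq).1).2 (by simpa using hqz)
      have h5 : (insert z (N.image (fun q => q + z))).card ≤ sdeg S (o + z) := by
        apply Finset.card_le_card
        intro w hw
        rcases Finset.mem_insert.mp hw with rfl | hw
        · exact Finset.mem_filter.mpr ⟨hz, he.symm⟩
        · exact hsubN hw
      rw [Finset.card_insert_of_notMem hznot, hcard] at h5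
      have := hd4 _ (hsub (mS ho)) (houtF o ho no)
      omega
  apply hbad
  · intro w hw he
    by_contra hHw
    have hwS' : w ∈ S' := by
      by_contra hn
      exact hHw (hH w hw hn)
    have hwz : w ≠ z := he.1.symm
    have hm := sub_mem_rel hwS' hwz
    have hce : Cof S z w := by
      obtain ⟨e, e1, e2, e3⟩ := he.le
      obtain ⟨y, hy, iy⟩ := hin
      refine ⟨-e, ?_, ?_, ?_⟩
      · intro h0
        have h1 : e = 0 := neg_eq_zero.mp h0
        have hyw : y + z ≠ w := by
          rintro rfl
          rw [add_sub_cancel_right] at hm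
          refine not_inner_of_support (W := W') (f := -e) ?_ ?_ (y := y) ?_ iy
          · intro h2
            obtain ⟨A, hA, hAn⟩ := hC.full
            have h3 : A ⊆ {y} := by
              intro w hw
              rw [Finset.mem_singleton]
              by_contra hwy
              have := e3 _ (mem_rel.mp (hA hw)).1 (fun hh => (mem_rel.mp (hA hw)).2
                (by simpa using hh)) (fun hh => hwy (add_right_cancel hh))
              rw [h1] at this
              simp at this
            have h4 := Finset.card_le_card h3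
            rw [hAn.1, Finset.card_singleton] at h4
            omega
          · intro x hx
            show 0 ≤ -(e x)
            rw [h1]; simp
          · show -(e y) = 0
            rw [h1]; simp
        have := e3 _ (hsub (mS hy)) (fun hh => (mem_rel.mp hy).2 (by simpa using hh)) hyw
        rw [h1] at this
        simp at this
      · intro u hu
        show -(e z) ≤ -(e u)
        linarith [e2 u hu]
      · show -(e w) = -(e z)
        rw [e1]
    have hno2 : ¬ Inner W' (w - z) := by
      refine (cof_inner_iff hC' hm).mp ?_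
      rw [sub_add_cancel]
      exact hce.sub hsub
    have := (hcount _ hm hno2).2
    rw [sub_add_cancel] at this
    exact this he
  · intro p hp hpz hf
    by_contra hHp
    have hpS' : p ∈ S' := by
      by_contra hn
      exact hHp (hH p hp hn)
    have hm := sub_mem_rel hpS' hpz
    have h4 : 4 ≤ sdeg S (p - z + z) := by
      by_cases hi : Inner W' (p - z)
      · exact hin4 _ hm hi
      · exact (hcount _ hm hi).1
    rw [sub_add_cancel] at h4
    exact not_hasFrm_of_sdeg h4 hf

end

end Run7.h169
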