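import Pool.Agent.Run7.h169.Support
import Pool.Agent.Run7.h169.Stack

set_option autoImplicit false
open scoped Classical Topology
open Filter

namespace Run7.h169

/-- A zonotope seen from one of its vertices, placed at the origin. -/
structure ZW {ι : Type*} [Fintype ι] (W : Finset E3) (g : ι → E3) (f0 : E3 →ₗ[ℝ] ℝ) : Prop where
  hsum : ∀ t : ι → ℝ, (∀ i, 0 ≤ t i ∧ t i ≤ 1) →
    ∑ i, t i • g i ∈ convexHull ℝ ((insert 0 W : Finset E3) : Set E3)
  hrep : ∀ w ∈ W, ∃ t : ι → ℝ, (∀ i, 0 ≤ t i ∧ t i ≤ 1) ∧ ∑ i, t i • g i = w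
  pos : ∀ i, 0 < f0 (g i)
  expo : ∀ w ∈ W, ∃ h : E3 →ₗ[ℝ] ℝ, 0 < h w ∧ ∀ z ∈ W, z ≠ w → h z < h w

/-- The set of generators of a vertex. -/
def IsGen {ι : Type*} [Fintype ι] (W : Finset E3) (g : ι → E3) (w : E3) (I : Finset ι) : Prop :=
  (∃ h : E3 →ₗ[ℝ] ℝ, (∀ i ∈ I, 0 < h (g i)) ∧ ∀ i, i ∉ I → h (g i) < 0) ∧
    ∑ i ∈ I, g i = w ∧ ∀ t : ι → ℝ, (∀ i, 0 ≤ t i ∧ t i ≤ 1) → ∑ i, t i • g i = w →
      ∀ i, t i = if i ∈ I then 1 else 0

section

variable {ι : Type*} [Fintype ι] {W : Finset E3} {g : ι → E3} {f0 : E3 →ₗ[ℝ] ℝ}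

theorem hull_face {A : Finset E3} {h : E3 →ₗ[ℝ] ℝ} {M : ℝ} (hM : ∀ x ∈ A, h x ≤ M) {z : E3}
    (hz : z ∈ convexHull ℝ (A : Set E3)) : h z ≤ M ∧
      (h z = M → z ∈ convexHull ℝ ((A.filter (fun x => h x = M) : Finset E3) : Set E3)) := by
  obtain ⟨c, h0, h1, h2⟩ := mem_hull.mp hz
  have e : M - h z = ∑ x ∈ A, c x * (M - h x) := by
    simp only [mul_sub, Finset.sum_sub_distrib, ← Finset.sum_mul, h1, one_mul]
    rw [← h2, map_sum]
    congr 1
    apply Finset.sum_congr rfl
    intro x _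
    rw [map_smul, smul_eq_mul]
  have hnn : ∀ x ∈ A, 0 ≤ c x * (M - h x) := fun x hx =>
    mul_nonneg (h0 x hx) (by linarith [hM x hx])
  constructor
  · have := Finset.sum_nonneg hnn
    linarith
  · intro hzM
    have hs : ∑ x ∈ A, c x * (M - h x) = 0 := by rw [← e, hzM, sub_self]
    rw [Finset.sum_eq_zero_iff_of_nonneg hnn] at hs
    refine mem_hull_of_support h0 h1 h2 ?_
    intro x hx hcx
    rw [Finset.mem_filter]
    refine ⟨hx, ?_⟩
    rcases mul_eq_zero.mp (hs x hx) with h3 | h3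
    · exact absurd h3 hcx
    · linarith

theorem ZW.sum_mem (h : ZW W g f0) (I : Finset ι) :
    ∑ i ∈ I, g i ∈ convexHull ℝ ((insert 0 W : Finset E3) : Set E3) := by
  have := h.hsum (fun i => if i ∈ I then 1 else 0) (fun i => by
    beta_reduce; split_ifs <;> norm_num)
  simpa using this

theorem update_sum (t : ι → ℝ) (i : ι) (s : ℝ) :
    ∑ j, Function.update t i s j • g j = ∑ j, t j • g j + (s - t i) • g i := by
  rw [← Finset.add_sum_erase _ _ (Finset.mem_univ i), ← Finset.add_sum_erase _ (fun j => t j • g j)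
    (Finset.mem_univ i), Function.update_self]
  rw [Finset.sum_congr rfl (g := fun j => t j • g j) (fun j hj => by
    rw [Function.update_of_ne (Finset.mem_erase.mp hj).1])]
  module

theorem update_mem {t : ι → ℝ} (ht : ∀ i, 0 ≤ t i ∧ t i ≤ 1) (i : ι) {s : ℝ} (h0 : 0 ≤ s)
    (h1 : s ≤ 1) : ∀ j, 0 ≤ Function.update t i s j ∧ Function.update t i s j ≤ 1 := by
  intro j
  by_cases hj : j = i
  · rw [hj, Function.update_self]; exact ⟨h0, h1⟩
  · rw [Function.update_of_ne hj]; exact ht j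

theorem ZW.exists_gen (h : ZW W g f0) {w : E3} (hw : w ∈ W) : ∃ I, IsGen W g w I := by
  obtain ⟨e, e0, e1⟩ := h.expo w hw
  have hM : ∀ x ∈ (insert 0 W : Finset E3), e x ≤ e w := by
    intro x hx
    rcases Finset.mem_insert.mp hx with rfl | hx
    · rw [map_zero]; exact e0.le
    · by_cases hxw : x = w
      · rw [hxw]
      · exact (e1 x hx hxw).le
  have hstrict : ∀ z ∈ convexHull ℝ ((insert 0 W : Finset E3) : Set E3), z ≠ w → e z < e w := by
    intro z hz hne
    obtain ⟨g1, g2⟩ := hull_face hM hz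
    refine lt_of_le_of_ne g1 (fun heq => hne ?_)
    have g3 := g2 heq
    have g4 : (insert 0 W : Finset E3).filter (fun x => e x = e w) ⊆ {w} := by
      intro x hx
      rw [Finset.mem_filter] at hx
      rw [Finset.mem_singleton]
      by_contra hxw
      rcases Finset.mem_insert.mp hx.1 with h5 | h5
      · rw [h5, map_zero] at hx
        exact e0.ne hx.2
      · exact (e1 x h5 hxw).ne hx.2
    have g5 := convexHull_mono (𝕜 := ℝ) (Finset.coe_subset.mpr g4) g3
    simpa using g5
  have hg0 : ∀ i, g i ≠ 0 := by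
    intro i hi
    have := h.pos i
    rw [hi, map_zero] at this
    exact lt_irrefl _ this
  have key : ∀ t : ι → ℝ, (∀ i, 0 ≤ t i ∧ t i ≤ 1) → ∑ i, t i • g i = w →
      ∀ i, (t i < 1 → e (g i) < 0) ∧ (0 < t i → 0 < e (g i)) := by
    intro t ht hsum i
    constructor
    · intro hlt
      have h1 := h.hsum _ (update_mem ht i (s := 1) zero_le_one le_rfl)
      rw [update_sum, hsum] at h1
      have h2 := hstrict _ h1 (by
        intro heq
        have : (1 - t i) • g i = 0 := by simpa using heq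
        rcases smul_eq_zero.mp this with h3 | h3
        · linarith
        · exact hg0 i h3)
      rw [map_add, map_smul, smul_eq_mul] at h2
      have h3 : (1 - t i) * e (g i) < 0 := by linarith
      by_contra hge
      push Not at hge
      have := mul_nonneg (by linarith : 0 ≤ 1 - t i) hge
      linarith
    · intro hgt
      have h1 := h.hsum _ (update_mem ht i (s := 0) le_rfl zero_le_one)
      rw [update_sum, hsum] at h1
      have h2 := hstrict _ h1 (by
        intro heq
        have : (0 - t i) • g i = 0 := by simpa using heq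
        rcases smul_eq_zero.mp this with h3 | h3
        · linarith
        · exact hg0 i h3)
      rw [map_add, map_smul, smul_eq_mul] at h2
      have h3 : (0 - t i) * e (g i) < 0 := by linarith
      by_contra hge
      push Not at hge
      have := mul_nonneg (by linarith : 0 ≤ t i) (by linarith : 0 ≤ -(e (g i)))
      linarith
  have key2 : ∀ t : ι → ℝ, (∀ i, 0 ≤ t i ∧ t i ≤ 1) → ∑ i, t i • g i = w →
      ∀ i, t i = if 0 < e (g i) then 1 else 0 := by
    intro t ht hsum i
    obtain ⟨k1, k2⟩ := key t ht hsum i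
    split_ifs with hp
    · by_contra hne
      have := k1 (lt_of_le_of_ne (ht i).2 hne)
      linarith
    · by_contra hne
      exact hp (k2 (lt_of_le_of_ne (ht i).1 (Ne.symm hne)))
  obtain ⟨t, ht, hsum⟩ := h.hrep w hw
  refine ⟨Finset.univ.filter (fun i => 0 < e (g i)), ⟨e, ?_, ?_⟩, ?_, ?_⟩
  · intro i hi
    exact (Finset.mem_filter.mp hi).2
  · intro i hi
    have hn : ¬ 0 < e (g i) := fun hh => hi (Finset.mem_filter.mpr ⟨Finset.mem_univ _, hh⟩)
    apply (key t ht hsum i).1
    rw [key2 t ht hsum i, if_neg hn]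
    exact zero_lt_one
  · rw [← hsum, Finset.sum_filter]
    apply Finset.sum_congr rfl
    intro i _
    rw [key2 t ht hsum i]
    split_ifs <;> simp
  · intro t' ht' hsum' i
    rw [key2 t' ht' hsum' i]
    simp

theorem IsGen.unique {w : E3} {I J : Finset ι} (hI : IsGen W g w I) (hJ : IsGen W g w J) :
    I = J := by
  ext i
  have h1 := hI.2.2 (fun i => if i ∈ J then 1 else 0) (fun i => by
    beta_reduce; split_ifs <;> norm_num) (by simpa using hJ.2.1) i
  by_cases h2 : i ∈ I <;> by_cases h3 : i ∈ J <;> simp_all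

theorem IsGen.inj {p q : E3} {I J : Finset ι} (hI : IsGen W g p I) (hJ : IsGen W g q J)
    (h : I = J) : p = q := by rw [← hI.2.1, ← hJ.2.1, h]

/-- Parallel generators. -/
def Par (g : ι → E3) (i j : ι) : Prop := ∃ c : ℝ, 0 < c ∧ g j = c • g i

theorem par_equiv (g : ι → E3) : Equivalence (Par g) := by
  refine ⟨fun i => ⟨1, one_pos, by simp⟩, ?_, ?_⟩
  · rintro i j ⟨c, hc, h⟩
    refine ⟨c⁻¹, inv_pos.mpr hc, ?_⟩
    rw [h, smul_smul, inv_mul_cancel₀ hc.ne', one_smul]
  · rintro i j k ⟨c, hc, h⟩ ⟨d, hd, h'⟩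
    refine ⟨d * c, mul_pos hd hc, ?_⟩
    rw [h', h, smul_smul]

/-- Classes of parallel generators. -/
def parSetoid (g : ι → E3) : Setoid ι := ⟨Par g, par_equiv g⟩

theorem IsGen.par {w : E3} {I : Finset ι} (hI : IsGen W g w I) {i j : ι} (hi : i ∈ I)
    (hij : Par g i j) : j ∈ I := by
  obtain ⟨⟨e, e1, e2⟩, _, _⟩ := hI
  obtain ⟨c, hc, h⟩ := hij
  by_contra hj
  have h1 := e2 j hj
  rw [h, map_smul, smul_eq_mul] at h1
  have := mul_pos hc (e1 i hi)
  linarith

/-- The level of a vertex. -/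
noncomputable def lev (g : ι → E3) (I : Finset ι) : Finset (Quotient (parSetoid g)) :=
  I.image (fun i => (Quotient.mk (parSetoid g) i))

/-- One endpoint of an edge has one more class of generators. -/
theorem ZW.edge_aux (h : ZW W g f0) {p q : E3} (hp : p ∈ W) (hq : q ∈ W) (he : IsEdge0 W p q)
    {I J : Finset ι} (hI : IsGen W g p I) (hJ : IsGen W g q J) (hf0 : 0 < f0 (q - p)) :
    I ⊆ J ∧ ∃ a, a ∈ J ∧ a ∉ I ∧ (∀ i ∈ J, i ∉ I → Par g a i) ∧ (∀ i, Par g a i → i ∈ J ∧ i ∉ I) := by
  obtain ⟨hpq, f, f1, f2, f3⟩ := he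
  have hM : ∀ x ∈ (insert 0 W : Finset E3), f x ≤ 1 := by
    intro x hx
    rcases Finset.mem_insert.mp hx with rfl | hx
    · rw [map_zero]; exact zero_le_one
    · by_cases hxp : x = p
      · rw [hxp, f1]
      · by_cases hxq : x = q
        · rw [hxq, f2]
        · exact (f3 x hx hxp hxq).le
  have hface : ∀ z ∈ convexHull ℝ ((insert 0 W : Finset E3) : Set E3), f z = 1 →
      ∃ s : ℝ, 0 ≤ s ∧ z = p + s • (q - p) := by
    intro z hz hz1
    have g3 := (hull_face hM hz).2 hz1
    have g4 : (insert 0 W : Finset E3).filter (fun x => f x = 1) ⊆ {p, q} := by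
      intro x hx
      rw [Finset.mem_filter] at hx
      rw [Finset.mem_insert, Finset.mem_singleton]
      by_contra hcon
      push Not at hcon
      rcases Finset.mem_insert.mp hx.1 with h5 | h5
      · rw [h5, map_zero] at hx
        exact zero_ne_one hx.2
      · exact (f3 x h5 hcon.1 hcon.2).ne hx.2
    have g5 := convexHull_mono (𝕜 := ℝ) (Finset.coe_subset.mpr g4) g3
    rw [mem_hull] at g5
    obtain ⟨c, c0, c1, c2⟩ := g5
    rw [Finset.sum_pair hpq] at c1 c2
    refine ⟨c q, c0 q (by simp), ?_⟩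
    rw [← c2]
    have : c p = 1 - c q := by linarith
    rw [this]; module
  have hface' : ∀ z ∈ convexHull ℝ ((insert 0 W : Finset E3) : Set E3), f z = 1 →
      ∃ s : ℝ, 0 ≤ s ∧ z = q + s • (p - q) := by
    intro z hz hz1
    have g3 := (hull_face hM hz).2 hz1
    have g4 : (insert 0 W : Finset E3).filter (fun x => f x = 1) ⊆ {p, q} := by
      intro x hx
      rw [Finset.mem_filter] at hx
      rw [Finset.mem_insert, Finset.mem_singleton]
      by_contra hcon
      push Not at hcon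
      rcases Finset.mem_insert.mp hx.1 with h5 | h5
      · rw [h5, map_zero] at hx
        exact zero_ne_one hx.2
      · exact (f3 x h5 hcon.1 hcon.2).ne hx.2
    have g5 := convexHull_mono (𝕜 := ℝ) (Finset.coe_subset.mpr g4) g3
    rw [mem_hull] at g5
    obtain ⟨c, c0, c1, c2⟩ := g5
    rw [Finset.sum_pair hpq] at c1 c2
    refine ⟨c p, c0 p (by simp), ?_⟩
    rw [← c2]
    have : c q = 1 - c p := by linarith
    rw [this]; module
  -- changing one generator
  have hadd : ∀ {w : E3} {K : Finset ι}, IsGen W g w K → ∀ i, i ∉ K →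
      w + g i ∈ convexHull ℝ ((insert 0 W : Finset E3) : Set E3) := by
    intro w K hK i hi
    have := h.sum_mem (insert i K)
    rw [Finset.sum_insert hi, hK.2.1, add_comm] at this
    exact this
  have hsub : ∀ {w : E3} {K : Finset ι}, IsGen W g w K → ∀ i, i ∈ K →
      w - g i ∈ convexHull ℝ ((insert 0 W : Finset E3) : Set E3) := by
    intro w K hK i hi
    have h1 := h.sum_mem (K.erase i)
    have h2 : ∑ j ∈ K.erase i, g j = w - g i := by
      rw [← hK.2.1, ← Finset.add_sum_erase _ _ hi]; abel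
    rwa [h2] at h1
  have f0q : f0 q - f0 p > 0 := by rw [map_sub] at hf0; exact hf0
  -- signs
  have p1 : ∀ i ∈ I, 0 < f (g i) := by
    intro i hi
    have h1 := (hull_face hM (hsub hI i hi)).1
    rw [map_sub, f1] at h1
    refine lt_of_le_of_ne (by linarith) (fun h0 => ?_)
    obtain ⟨s, hs, hs'⟩ := hface _ (hsub hI i hi) (by rw [map_sub, f1, ← h0, sub_zero])
    have h2 := congrArg f0 hs'
    simp only [map_sub, map_add, map_smul, smul_eq_mul] at h2
    have h3 := h.pos i
    have h4 := mul_nonneg hs f0q.le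
    linarith
  have p2 : ∀ i, i ∉ I → f (g i) ≤ 0 := by
    intro i hi
    have h1 := (hull_face hM (hadd hI i hi)).1
    rw [map_add, f1] at h1
    linarith
  have q1 : ∀ i, i ∉ J → f (g i) < 0 := by
    intro i hi
    have h1 := (hull_face hM (hadd hJ i hi)).1
    rw [map_add, f2] at h1
    refine lt_of_le_of_ne (by linarith) (fun h0 => ?_)
    obtain ⟨s, hs, hs'⟩ := hface' _ (hadd hJ i hi) (by rw [map_add, f2, h0, add_zero])
    have h2 := congrArg f0 hs'
    simp only [map_sub, map_add, map_smul, smul_eq_mul] at h2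
    have h3 := h.pos i
    have h4 := mul_nonneg hs f0q.le
    linarith
  have q2 : ∀ i ∈ J, 0 ≤ f (g i) := by
    intro i hi
    have h1 := (hull_face hM (hsub hJ i hi)).1
    rw [map_sub, f2] at h1
    linarith
  have hIJ : I ⊆ J := by
    intro i hi
    by_contra hj
    have := p1 i hi
    have := q1 i hj
    linarith
  have hpar : ∀ i ∈ J, i ∉ I → ∃ s : ℝ, 0 < s ∧ g i = s • (q - p) := by
    intro i hi hi'
    have h0 : f (g i) = 0 := le_antisymm (p2 i hi') (q2 i hi)
    obtain ⟨s, hs, hs'⟩ := hface _ (hadd hI i hi') (by rw [map_add, f1, h0, add_zero])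
    have h1 : g i = s • (q - p) := add_left_cancel hs'
    refine ⟨s, lt_of_le_of_ne hs (fun h2 => ?_), h1⟩
    rw [← h2, zero_smul] at h1
    have := h.pos i
    rw [h1, map_zero] at this
    exact lt_irrefl _ this
  obtain ⟨a, haJ, haI⟩ : ∃ a, a ∈ J ∧ a ∉ I := by
    by_contra hcon
    push Not at hcon
    exact hpq (hI.inj hJ (Finset.Subset.antisymm hIJ hcon))
  refine ⟨hIJ, a, haJ, haI, ?_, ?_⟩
  · intro i hi hi'
    obtain ⟨s, hs, e1⟩ := hpar a haJ haI
    obtain ⟨s', hs', e2⟩ := hpar i hi hi'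
    refine ⟨s' / s, div_pos hs' hs, ?_⟩
    rw [e1, e2, smul_smul, div_mul_cancel₀ _ hs.ne']
  · rintro i ⟨c, hc, hi⟩
    obtain ⟨s, hs, e1⟩ := hpar a haJ haI
    have h0 : f (g i) = 0 := by
      rw [hi, e1, map_smul, map_smul, map_sub, f1, f2]; simp
    constructor
    · by_contra hj
      have := q1 i hj
      linarith
    · intro hj
      have := p1 i hj
      linarith

theorem lev_card {I J : Finset ι} (hIJ : I ⊆ J) {a : ι} (ha : a ∈ J) (ha' : a ∉ I)
    (h1 : ∀ i ∈ J, i ∉ I → Par g a i) (h2 : ∀ i, Par g a i → i ∈ J ∧ i ∉ I) :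
    (lev g J).card = (lev g I).card + 1 := by
  have e : lev g J = insert (Quotient.mk (parSetoid g) a) (lev g I) := by
    ext x
    unfold lev
    simp only [Finset.mem_image, Finset.mem_insert]
    constructor
    · rintro ⟨i, hi, rfl⟩
      by_cases hi' : i ∈ I
      · exact Or.inr ⟨i, hi', rfl⟩
      · left
        exact (Quotient.sound (s := parSetoid g) (h1 i hi hi')).symm
    · rintro (rfl | ⟨i, hi, rfl⟩)
      · exact ⟨a, ha, rfl⟩
      · exact ⟨i, hIJ hi, rfl⟩
  rw [e, Finset.card_insert_of_notMem]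
  unfold lev
  rw [Finset.mem_image]
  rintro ⟨i, hi, hq⟩
  have : Par g a i := Quotient.exact (s := parSetoid g) hq.symm
  exact (h2 i this).2 hi

theorem ZW.edge (h : ZW W g f0) {p q : E3} (hp : p ∈ W) (hq : q ∈ W) (he : IsEdge0 W p q)
    {I J : Finset ι} (hI : IsGen W g p I) (hJ : IsGen W g q J) :
    (I ⊆ J ∧ ∃ a, a ∈ J ∧ a ∉ I ∧ (∀ i ∈ J, i ∉ I → Par g a i) ∧
      (∀ i, Par g a i → i ∈ J ∧ i ∉ I)) ∨
    (J ⊆ I ∧ ∃ a, a ∈ I ∧ a ∉ J ∧ (∀ i ∈ I, i ∉ J → Par g a i) ∧
      (∀ i, Par g a i → i ∈ I ∧ i ∉ J)) := by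
  rcases lt_trichotomy (f0 (q - p)) 0 with h1 | h1 | h1
  · right
    exact h.edge_aux hq hp he.symm hJ hI (by rw [map_sub] at h1 ⊢; linarith)
  · exfalso
    obtain ⟨hpq, f, f1, f2, f3⟩ := he
    -- some generator distinguishes p and q
    have hM : ∀ x ∈ (insert 0 W : Finset E3), f x ≤ 1 := by
      intro x hx
      rcases Finset.mem_insert.mp hx with rfl | hx
      · rw [map_zero]; exact zero_le_one
      · by_cases hxp : x = p
        · rw [hxp, f1]
        · by_cases hxq : x = q
          · rw [hxq, f2]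
          · exact (f3 x hx hxp hxq).le
    have hface : ∀ z ∈ convexHull ℝ ((insert 0 W : Finset E3) : Set E3), f z = 1 →
        f0 z = f0 p := by
      intro z hz hz1
      have g3 := (hull_face hM hz).2 hz1
      have g4 : (insert 0 W : Finset E3).filter (fun x => f x = 1) ⊆ {p, q} := by
        intro x hx
        rw [Finset.mem_filter] at hx
        rw [Finset.mem_insert, Finset.mem_singleton]
        by_contra hcon
        push Not at hcon
        rcases Finset.mem_insert.mp hx.1 with h5 | h5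
        · rw [h5, map_zero] at hx
          exact zero_ne_one hx.2
        · exact (f3 x h5 hcon.1 hcon.2).ne hx.2
      have g5 := convexHull_mono (𝕜 := ℝ) (Finset.coe_subset.mpr g4) g3
      rw [mem_hull] at g5
      obtain ⟨c, c0, c1, c2⟩ := g5
      rw [Finset.sum_pair hpq] at c1 c2
      rw [← c2, map_add, map_smul, map_smul, smul_eq_mul, smul_eq_mul]
      rw [map_sub] at h1
      have h3 : f0 q = f0 p := by linarith
      rw [h3, ← add_mul, c1, one_mul]
    have hno : ∀ {w z : E3} {K L : Finset ι}, IsGen W g w K → IsGen W g z L → f w = 1 → f z = 1 →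
        f0 w = f0 p → K ⊆ L := by
      intro w z K L hK hL hw hz hw0 i hi
      by_contra hiL
      have m1 : w - g i ∈ convexHull ℝ ((insert 0 W : Finset E3) : Set E3) := by
        have h1 := h.sum_mem (K.erase i)
        have h2 : ∑ j ∈ K.erase i, g j = w - g i := by
          rw [← hK.2.1, ← Finset.add_sum_erase _ _ hi]; abel
        rwa [h2] at h1
      have m2 : z + g i ∈ convexHull ℝ ((insert 0 W : Finset E3) : Set E3) := by
        have := h.sum_mem (insert i L)
        rw [Finset.sum_insert hiL, hL.2.1, add_comm] at this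
        exact this
      have n1 := (hull_face hM m1).1
      have n2 := (hull_face hM m2).1
      rw [map_sub, hw] at n1
      rw [map_add, hz] at n2
      have n3 : f (g i) = 0 := by linarith
      have n4 := hface _ m1 (by rw [map_sub, hw, n3, sub_zero])
      rw [map_sub, hw0] at n4
      have := h.pos i
      linarith
    have k1 := hno hI hJ f1 f2 rfl
    have k2 := hno hJ hI f2 f1 (by rw [map_sub] at h1; linarith)
    exact hpq (hI.inj hJ (Finset.Subset.antisymm k1 k2))
  · left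
    exact h.edge_aux hp hq he hI hJ h1

theorem ZW.edge_parity (h : ZW W g f0) {p q : E3} (hp : p ∈ W) (hq : q ∈ W) (he : IsEdge0 W p q)
    {I J : Finset ι} (hI : IsGen W g p I) (hJ : IsGen W g q J) :
    (lev g J).card = (lev g I).card + 1 ∨ (lev g I).card = (lev g J).card + 1 := by
  rcases h.edge hp hq he hI hJ with ⟨h1, a, h2, h3, h4, h5⟩ | ⟨h1, a, h2, h3, h4, h5⟩
  · exact Or.inl (lev_card h1 h2 h3 h4 h5)
  · exact Or.inr (lev_card h1 h2 h3 h4 h5)

theorem ZW.gen_cone (h : ZW W g f0) (i : ι) : g i ∈ cone W := by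
  have h1 := h.sum_mem {i}
  rw [Finset.sum_singleton, mem_hull] at h1
  obtain ⟨c, c0, _, c2⟩ := h1
  by_cases h0 : (0 : E3) ∈ W
  · rw [Finset.insert_eq_self.mpr h0] at c0 c2
    exact ⟨c, c0, c2⟩
  · rw [Finset.sum_insert h0, smul_zero, zero_add] at c2
    exact ⟨c, fun x hx => c0 x (Finset.mem_insert_of_mem hx), c2⟩

theorem cone_nonneg {f : E3 →ₗ[ℝ] ℝ} (hf : ∀ x ∈ W, 0 ≤ f x) {z : E3} (hz : z ∈ cone W) :
    0 ≤ f z := by
  obtain ⟨c, hc, rfl⟩ := hz
  rw [map_sum]
  apply Finset.sum_nonneg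
  intro x hx
  rw [map_smul, smul_eq_mul]
  exact mul_nonneg (hc x hx) (hf x hx)

theorem ZW.zero_of_support (h : ZW W g f0) {w : E3} {I : Finset ι} (hI : IsGen W g w I)
    {f : E3 →ₗ[ℝ] ℝ} (hf : ∀ x ∈ W, 0 ≤ f x) (hw : f w = 0) : ∀ i ∈ I, f (g i) = 0 := by
  rw [← hI.2.1, map_sum] at hw
  exact (Finset.sum_eq_zero_iff_of_nonneg (fun i _ => cone_nonneg hf (h.gen_cone i))).mp hw

end

end Run7.h169
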