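import Pool.Agent.Run7.h169.Zono

set_option autoImplicit false
open scoped Classical Topology
open Filter

namespace Run7.h169

/-- Three vectors on which functionals are triangular form a nice set. -/
theorem nice_of_functionals {x y z : E3} {f1 f2 f3 : E3 →ₗ[ℝ] ℝ} (a1 : f1 x ≠ 0) (a2 : f1 y = 0)
    (a3 : f1 z = 0) (b2 : f2 y ≠ 0) (b3 : f2 z = 0) (c3 : f3 z ≠ 0) : Nice {x, y, z} := by
  have d12 : x ≠ y := by rintro rfl; exact a1 a2
  have d13 : x ≠ z := by rintro rfl; exact a1 a3
  have d23 : y ≠ z := by rintro rfl; exact b2 b3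
  constructor
  · rw [Finset.card_eq_three]; exact ⟨_, _, _, d12, d13, d23, rfl⟩
  · rw [linearIndepOn_finset_iff]
    intro c hc
    rw [Finset.sum_insert (by simp [d12, d13]), Finset.sum_insert (by simp [d23]),
      Finset.sum_singleton] at hc
    simp only [id] at hc
    have e1 := congrArg f1 hc
    simp only [map_add, map_smul, a2, a3, smul_eq_mul, mul_zero, add_zero, map_zero] at e1
    have h1 : c x = 0 := (mul_eq_zero.mp e1).resolve_right a1
    rw [h1, zero_smul, zero_add] at hc
    have e2 := congrArg f2 hc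
    simp only [map_add, map_smul, b3, smul_eq_mul, mul_zero, add_zero, map_zero] at e2
    have h2 : c y = 0 := (mul_eq_zero.mp e2).resolve_right b2
    rw [h2, zero_smul, zero_add] at hc
    have e3 := congrArg f3 hc
    simp only [map_smul, smul_eq_mul, map_zero] at e3
    have h3 : c z = 0 := (mul_eq_zero.mp e3).resolve_right c3
    intro i hi
    simp only [Finset.mem_insert, Finset.mem_singleton] at hi
    rcases hi with rfl | rfl | rfl
    · exact h1
    · exact h2
    · exact h3

section

variable {ι : Type*} [Fintype ι] {W : Finset E3} {g : ι → E3} {f0 : E3 →ₗ[ℝ] ℝ}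

/-- An inner vertex is not a neighbour of a non-inner vertex with more generators. -/
theorem ZW.outer_lower (h : ZW W g f0) (hC : Cfg W) {w x : E3} (hw : w ∈ W) (hx : x ∈ W)
    (hin : Inner W w) (hout : ¬ Inner W x) (he : IsEdge0 W w x) {I J : Finset ι}
    (hI : IsGen W g w I) (hJ : IsGen W g x J) :
    J ⊆ I ∧ ∃ a, a ∈ I ∧ a ∉ J ∧ (∀ i ∈ I, i ∉ J → Par g a i) ∧
      (∀ i, Par g a i → i ∈ I ∧ i ∉ J) := by
  rcases h.edge hw hx he hI hJ with ⟨h1, _⟩ | h1
  · exfalso
    obtain ⟨f, f0', f1, f2⟩ := exists_support hC (mem_cone_self hx) hout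
    have h3 := h.zero_of_support hJ f1 f2
    apply not_inner_of_support f0' f1 (y := w) _ hin
    rw [← hI.2.1, map_sum]
    exact Finset.sum_eq_zero (fun i hi => h3 i (h1 hi))
  · exact h1

/-- An inner vertex with two non-inner neighbours has level three. -/
theorem ZW.level_three (h : ZW W g f0) (hC : Cfg W) {w x y : E3} (hw : w ∈ W) (hx : x ∈ W)
    (hy : y ∈ W) (hxy : x ≠ y) (hin : Inner W w) (hox : ¬ Inner W x) (hoy : ¬ Inner W y)
    (ex : IsEdge0 W w x) (ey : IsEdge0 W w y) {I : Finset ι} (hI : IsGen W g w I) :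
    (lev g I).card = 3 := by
  obtain ⟨J, hJ⟩ := h.exists_gen hx
  obtain ⟨K, hK⟩ := h.exists_gen hy
  obtain ⟨hJI, a, haI, haJ, a1, a2⟩ := h.outer_lower hC hw hx hin hox ex hI hJ
  obtain ⟨hKI, b, hbI, hbK, b1, b2⟩ := h.outer_lower hC hw hy hin hoy ey hI hK
  obtain ⟨fx, fx0, fx1, fx2⟩ := exists_support hC (mem_cone_self hx) hox
  obtain ⟨fy, fy0, fy1, fy2⟩ := exists_support hC (mem_cone_self hy) hoy
  have zx := h.zero_of_support hJ fx1 fx2
  have zy := h.zero_of_support hK fy1 fy2
  have hab : ¬ Par g a b := by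
    intro hab
    apply hxy
    apply hJ.inj hK
    ext i
    have e1 : i ∈ J ↔ i ∈ I ∧ ¬ Par g a i := by
      constructor
      · intro hi
        exact ⟨hJI hi, fun hp => (a2 i hp).2 hi⟩
      · rintro ⟨hi, hp⟩
        by_contra hiJ
        exact hp (a1 i hi hiJ)
    have e2 : i ∈ K ↔ i ∈ I ∧ ¬ Par g b i := by
      constructor
      · intro hi
        exact ⟨hKI hi, fun hp => (b2 i hp).2 hi⟩
      · rintro ⟨hi, hp⟩
        by_contra hiK
        exact hp (b1 i hi hiK)
    rw [e1, e2]
    constructor
    · rintro ⟨h1, h2⟩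
      exact ⟨h1, fun hp => h2 ((par_equiv g).trans hab hp)⟩
    · rintro ⟨h1, h2⟩
      exact ⟨h1, fun hp => h2 ((par_equiv g).trans ((par_equiv g).symm hab) hp)⟩
  have hba : ¬ Par g b a := fun hh => hab ((par_equiv g).symm hh)
  have hbJ : b ∈ J := by
    by_contra hbJ
    exact hab (a1 b hbI hbJ)
  have haK : a ∈ K := by
    by_contra haK
    exact hba (b1 a haI haK)
  have xb : fx (g b) = 0 := zx b hbJ
  have ya : fy (g a) = 0 := zy a haK
  have hwc : w ∈ cone W := mem_cone_self hw
  have xa : 0 < fx (g a) := by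
    refine lt_of_le_of_ne (cone_nonneg fx1 (h.gen_cone a)) (fun h0 => ?_)
    have hpos := Inner.pos_of_support fx0 fx1 hwc hin
    rw [← hI.2.1, map_sum] at hpos
    have : ∑ i ∈ I, fx (g i) = 0 := by
      apply Finset.sum_eq_zero
      intro i hi
      by_cases hiJ : i ∈ J
      · exact zx i hiJ
      · obtain ⟨c, _, hc⟩ := a1 i hi hiJ
        rw [hc, map_smul, ← h0, smul_zero]
    linarith
  have yb : 0 < fy (g b) := by
    refine lt_of_le_of_ne (cone_nonneg fy1 (h.gen_cone b)) (fun h0 => ?_)
    have hpos := Inner.pos_of_support fy0 fy1 hwc hin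
    rw [← hI.2.1, map_sum] at hpos
    have : ∑ i ∈ I, fy (g i) = 0 := by
      apply Finset.sum_eq_zero
      intro i hi
      by_cases hiK : i ∈ K
      · exact zy i hiK
      · obtain ⟨c, _, hc⟩ := b1 i hi hiK
        rw [hc, map_smul, ← h0, smul_zero]
    linarith
  -- there is a third class
  obtain ⟨m, hmI, hma, hmb⟩ : ∃ m ∈ I, ¬ Par g a m ∧ ¬ Par g b m := by
    by_contra hcon
    push Not at hcon
    obtain ⟨e, e1, e2⟩ := hI.1
    obtain ⟨n, n0, na, nb⟩ := exists_functional (g a) (g b)
    have hsmall : ∀ i ∈ I, n (g i) = 0 := by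
      intro i hi
      by_cases hp : Par g a i
      · obtain ⟨c, _, hc⟩ := hp
        rw [hc, map_smul, na, smul_zero]
      · obtain ⟨c, _, hc⟩ := hcon i hi hp
        rw [hc, map_smul, nb, smul_zero]
    have hnw : n w = 0 := by
      rw [← hI.2.1, map_sum]
      exact Finset.sum_eq_zero hsmall
    -- generators on both sides
    have hside : ∀ n' : E3 →ₗ[ℝ] ℝ, n' ≠ 0 → n' w = 0 → ∃ i, 0 < n' (g i) := by
      intro n' hn' hn'w
      obtain ⟨r, hr⟩ : ∃ r, n' r ≠ 0 := by
        by_contra hc
        push Not at hc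
        apply hn'
        ext r
        exact hc r
      have hδ : ∀ᶠ δ in 𝓝[>] (0 : ℝ), 0 < δ := self_mem_nhdsWithin
      obtain ⟨δ, h1, h2⟩ := ((hin ((n' r) • r)).and hδ).exists
      have h3 : 0 < n' (w + δ • n' r • r) := by
        rw [map_add, map_smul, map_smul, hn'w, smul_eq_mul, smul_eq_mul, zero_add]
        exact mul_pos h2 (mul_self_pos.mpr hr)
      by_contra hc
      push Not at hc
      have h4 : ∀ z ∈ W, 0 ≤ (-n') z := by
        intro z hz
        obtain ⟨L, hL⟩ := h.exists_gen hz
        show 0 ≤ -(n' z)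
        rw [← hL.2.1, map_sum, neg_nonneg]
        exact Finset.sum_nonpos (fun i _ => hc i)
      have h5 := cone_nonneg h4 h1
      have h6 : 0 ≤ -(n' (w + δ • n' r • r)) := h5
      linarith
    obtain ⟨i, hi⟩ := hside n n0 hnw
    obtain ⟨j, hj⟩ := hside (-n) (neg_ne_zero.mpr n0) (by
      show -(n w) = 0
      rw [hnw, neg_zero])
    have hj' : n (g j) < 0 := by
      have : 0 < -(n (g j)) := hj
      linarith
    have hiI : i ∉ I := fun hh => by rw [hsmall i hh] at hi; exact lt_irrefl _ hi
    have hjI : j ∉ I := fun hh => by rw [hsmall j hh] at hj'; exact lt_irrefl _ hj'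
    have hN : Nice {g i, g a, g b} := nice_of_functionals (f1 := n) (f2 := fx) (f3 := fy) hi.ne'
      na nb xa.ne' xb yb.ne'
    set z : E3 := (-(n (g j))) • g i + (n (g i)) • g j with hz
    have ez := crd_sum3 hN z
    have nz : n z = 0 := by
      rw [hz, map_add, map_smul, map_smul, smul_eq_mul, smul_eq_mul]; ring
    have c0 : crd {g i, g a, g b} (g i) z = 0 := by
      have := congrArg n ez
      simp only [map_add, map_smul, na, nb, nz, smul_eq_mul, mul_zero, add_zero] at this
      exact (mul_eq_zero.mp this).resolve_right hi.ne'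
    rw [c0, zero_smul, zero_add] at ez
    have hzc : z ∈ cone W := cone_add (cone_smul (by linarith) (h.gen_cone i))
      (cone_smul hi.le (h.gen_cone j))
    have l1 := cone_nonneg fx1 hzc
    have l2 := cone_nonneg fy1 hzc
    rw [← ez, map_add, map_smul, map_smul, xb, smul_eq_mul, smul_eq_mul, mul_zero,
      add_zero] at l1
    rw [← ez, map_add, map_smul, map_smul, ya, smul_eq_mul, smul_eq_mul, mul_zero,
      zero_add] at l2
    have l3 : 0 ≤ crd {g i, g a, g b} (g a) z := nonneg_of_mul_nonneg_left l1 xa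
    have l4 : 0 ≤ crd {g i, g a, g b} (g b) z := nonneg_of_mul_nonneg_left l2 yb
    have l5 : 0 ≤ e z := by
      rw [← ez, map_add, map_smul, map_smul, smul_eq_mul, smul_eq_mul]
      have k1 := mul_nonneg l3 (e1 a haI).le
      have k2 := mul_nonneg l4 (e1 b hbI).le
      linarith
    have l6 : e z < 0 := by
      rw [hz, map_add, map_smul, map_smul, smul_eq_mul, smul_eq_mul]
      have k1 := mul_neg_of_pos_of_neg (by linarith : 0 < -(n (g j))) (e2 i hiI)
      have k2 := mul_neg_of_pos_of_neg hi (e2 j hjI)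
      linarith
    linarith
  -- all further generators are parallel to the third
  have van : ∀ i ∈ I, ¬ Par g a i → ¬ Par g b i → fx (g i) = 0 ∧ fy (g i) = 0 := by
    intro i hi h1 h2
    constructor
    · apply zx
      by_contra hh
      exact h1 (a1 i hi hh)
    · apply zy
      by_contra hh
      exact h2 (b1 i hi hh)
  have hm := van m hmI hma hmb
  have hN : Nice {g a, g b, g m} := nice_of_functionals (f1 := fx) (f2 := fy) (f3 := f0) xa.ne'
    xb hm.1 yb.ne' hm.2 (h.pos m).ne'
  have hpar : ∀ i ∈ I, ¬ Par g a i → ¬ Par g b i → Par g m i := by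
    intro i hi h1 h2
    have hv := van i hi h1 h2
    have e := crd_sum3 hN (g i)
    have k1 : crd {g a, g b, g m} (g a) (g i) = 0 := by
      have := congrArg fx e
      simp only [map_add, map_smul, xb, hm.1, hv.1, smul_eq_mul, mul_zero, add_zero] at this
      exact (mul_eq_zero.mp this).resolve_right xa.ne'
    have k2 : crd {g a, g b, g m} (g b) (g i) = 0 := by
      have := congrArg fy e
      simp only [map_add, map_smul, ya, hm.2, hv.2, smul_eq_mul, mul_zero, add_zero,
        zero_add] at this
      exact (mul_eq_zero.mp this).resolve_right yb.ne'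
    rw [k1, k2, zero_smul, zero_smul, zero_add, zero_add] at e
    refine ⟨_, ?_, e.symm⟩
    have h3 := congrArg f0 e
    rw [map_smul, smul_eq_mul] at h3
    have h4 := h.pos i
    rw [← h3] at h4
    exact (pos_iff_pos_of_mul_pos h4).mpr (h.pos m)
  have elev : lev g I = {Quotient.mk (parSetoid g) a, Quotient.mk (parSetoid g) b,
      Quotient.mk (parSetoid g) m} := by
    ext c
    unfold lev
    simp only [Finset.mem_image, Finset.mem_insert, Finset.mem_singleton]
    constructor
    · rintro ⟨i, hi, rfl⟩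
      by_cases h1 : Par g a i
      · left; exact (Quotient.sound (s := parSetoid g) h1).symm
      · by_cases h2 : Par g b i
        · right; left; exact (Quotient.sound (s := parSetoid g) h2).symm
        · right; right; exact (Quotient.sound (s := parSetoid g) (hpar i hi h1 h2)).symm
    · rintro (rfl | rfl | rfl)
      · exact ⟨a, haI, rfl⟩
      · exact ⟨b, hbI, rfl⟩
      · exact ⟨m, hmI, rfl⟩
  rw [elev, Finset.card_eq_three]
  exact ⟨_, _, _, fun hh => hab (Quotient.exact (s := parSetoid g) hh),
    fun hh => hma (Quotient.exact (s := parSetoid g) hh),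
    fun hh => hmb (Quotient.exact (s := parSetoid g) hh), rfl⟩

/-- There are two different non-inner vertices. -/
theorem exists_two_outer (hC : Cfg W) :
    ∃ x ∈ W, ∃ y ∈ W, x ≠ y ∧ ¬ Inner W x ∧ ¬ Inner W y := by
  obtain ⟨l, hl⟩ := hC.ell
  obtain ⟨A, hA, hAn⟩ := hC.full
  obtain ⟨a, b, c, hab, hac, hbc, rfl⟩ := Finset.card_eq_three.mp hAn.1
  set n := crd {a, b, c} a with hn
  have na : n a = 1 := crd_self hAn (by simp)
  have nb : n b = 0 := crd_ne hAn (by simp) (by simp) hab
  have haW : a ∈ W := hA (by simp)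
  have hbW : b ∈ W := hA (by simp)
  have hne : W.Nonempty := ⟨a, haW⟩
  obtain ⟨x, hx, hmin⟩ := Finset.exists_min_image W (fun z => n z / l z) hne
  obtain ⟨y, hy, hmax⟩ := Finset.exists_max_image W (fun z => n z / l z) hne
  have hnl : ∀ m : ℝ, n - m • l ≠ 0 := by
    intro m h0
    have h1 : (n - m • l) a = 0 := by rw [h0]; rfl
    have h2 : (n - m • l) b = 0 := by rw [h0]; rfl
    have h3 : n a - m * l a = 0 := h1
    have h4 : n b - m * l b = 0 := h2
    rw [nb, zero_sub, neg_eq_zero] at h4
    have h5 : m = 0 := (mul_eq_zero.mp h4).resolve_right (hl b hbW).ne'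
    rw [na, h5, zero_mul, sub_zero] at h3
    exact one_ne_zero h3
  refine ⟨x, hx, y, hy, ?_, ?_, ?_⟩
  · rintro rfl
    apply hnl (n x / l x)
    have hall : ∀ z ∈ W, n z = n x / l x * l z := by
      intro z hz
      have h1 := hmin z hz
      have h2 := hmax z hz
      beta_reduce at h1 h2
      have h3 : n z / l z = n x / l x := le_antisymm h2 h1
      rw [← h3, div_mul_cancel₀ _ (hl z hz).ne']
    apply nice_ext hAn
    intro z hz
    show n z - n x / l x * l z = 0
    rw [← hall z (hA hz), sub_self]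
  · apply not_inner_of_support (hnl (n x / l x))
    · intro z hz
      show 0 ≤ n z - n x / l x * l z
      have h1 := hmin z hz
      beta_reduce at h1
      rw [le_div_iff₀ (hl z hz)] at h1
      linarith
    · show n x - n x / l x * l x = 0
      rw [div_mul_cancel₀ _ (hl x hx).ne', sub_self]
  · apply not_inner_of_support (neg_ne_zero.mpr (hnl (n y / l y)))
    · intro z hz
      show 0 ≤ -(n z - n y / l y * l z)
      have h1 := hmax z hz
      beta_reduce at h1
      rw [div_le_iff₀ (hl z hz)] at h1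
      linarith
    · show -(n y - n y / l y * l y) = 0
      rw [div_mul_cancel₀ _ (hl y hy).ne', sub_self, neg_zero]

/-- The outer condition for a colouring with a single false non-inner vertex. -/
theorem outer_of_single (hC : Cfg W) {χ : E3 → Bool} {q : E3} (hq : q ∈ W)
    (hχ : ∀ x ∈ W, ¬ Inner W x → χ x = false → x = q) (B : Finset (Finset E3)) (hF : Fan W B) :
    ((W ×ˢ W).filter (fun e => χ e.1 = true ∧ χ e.2 = false ∧ cnt B e.1 e.2 = 1)).card ≤ 2 := by
  refine le_trans ?_ (hF.boundary_le_two hC hq)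
  refine le_trans (Finset.card_le_card_of_injOn (fun e => e.1) ?_ ?_) le_rfl
  · intro e he
    rw [Finset.mem_coe, Finset.mem_filter, Finset.mem_product] at he
    obtain ⟨⟨h1, h2⟩, h3, h4, h5⟩ := he
    have hne : e.1 ≠ e.2 := by
      intro hh
      rw [hh, h4] at h3
      simp at h3
    have hout : ¬ Inner W e.2 := by
      intro hin
      have h6 : Inner W (e.1 + e.2) := by
        rw [add_comm]; exact hin.add (mem_cone_self h1)
      obtain ⟨_, _, _, _, h7⟩ := hF.boundary_of_cnt (Q := B) subset_rfl hne h5 h6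
      rw [Finset.sdiff_self] at h7
      exact Finset.notMem_empty _ h7
    have h6 := hχ e.2 h2 hout h4
    rw [Finset.mem_coe, Finset.mem_filter]
    refine ⟨h1, h6 ▸ hne, ?_⟩
    rw [← h6, cnt_comm]; exact h5
  · intro e he e' he' heq
    rw [Finset.mem_coe, Finset.mem_filter, Finset.mem_product] at he he'
    have key : ∀ e ∈ W ×ˢ W, χ e.1 = true → χ e.2 = false → cnt B e.1 e.2 = 1 → e.2 = q := by
      intro e hm h3 h4 h5
      rw [Finset.mem_product] at hm
      have hne : e.1 ≠ e.2 := by
        intro hh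
        rw [hh, h4] at h3
        simp at h3
      have hout : ¬ Inner W e.2 := by
        intro hin
        have h6 : Inner W (e.1 + e.2) := by
          rw [add_comm]; exact hin.add (mem_cone_self hm.1)
        obtain ⟨_, _, _, _, h7⟩ := hF.boundary_of_cnt (Q := B) subset_rfl hne h5 h6
        rw [Finset.sdiff_self] at h7
        exact Finset.notMem_empty _ h7
      exact hχ e.2 hm.2 hout h4
    have k1 := key e (Finset.mem_product.mpr he.1) he.2.1 he.2.2.1 he.2.2.2
    have k2 := key e' (Finset.mem_product.mpr he'.1) he'.2.1 he'.2.2.1 he'.2.2.2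
    exact Prod.ext heq (k1.trans k2.symm)

/-- The colouring of a zonotope. -/
theorem ZW.exists_col (h : ZW W g f0) (hC : Cfg W) : ∃ χ, Col W χ := by
  obtain ⟨q, hq, q', hq', hqq, ho, ho'⟩ := exists_two_outer hC
  have hgen : ∀ w ∈ W, ∃ I, IsGen W g w I := fun w hw => h.exists_gen hw
  -- parity
  set par : E3 → Prop := fun w => ∃ I, IsGen W g w I ∧ Even (lev g I).card with hpar
  set χ : E3 → Bool := fun w => if Inner W w then decide (par w) else decide (w ≠ q) with hχ
  have χin : ∀ w, Inner W w → χ w = decide (par w) := by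
    intro w hw; rw [hχ]; beta_reduce; rw [if_pos hw]
  have χout : ∀ w, ¬ Inner W w → χ w = decide (w ≠ q) := by
    intro w hw; rw [hχ]; beta_reduce; rw [if_neg hw]
  have par_iff : ∀ {w : E3} {I : Finset ι}, IsGen W g w I → (par w ↔ Even (lev g I).card) := by
    intro w I hI
    rw [hpar]
    constructor
    · rintro ⟨J, hJ, he⟩
      rwa [hI.unique hJ]
    · intro he
      exact ⟨I, hI, he⟩
  refine ⟨χ, ⟨q', hq', q, hq, ?_⟩, ?_, ⟨fun _ => 0, ?_⟩, ?_⟩
  · rw [χout q' ho', χout q ho]
    simp [Ne.symm hqq]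
  · intro p hp r hr np nr he _ hin
    obtain ⟨I, hI⟩ := hgen p hp
    obtain ⟨J, hJ⟩ := hgen r hr
    have key : ∀ {a b : E3} {K L : Finset ι}, b ∈ W → IsGen W g a K → IsGen W g b L → K ⊆ L →
        ¬ Inner W b → ¬ Inner W (a + b) := by
      intro a b K L hb hK hL hKL nb
      obtain ⟨f, f1, f2, f3⟩ := exists_support hC (mem_cone_self hb) nb
      apply not_inner_of_support f1 f2
      have h3 := h.zero_of_support hL f2 f3
      rw [map_add, f3, add_zero, ← hK.2.1, map_sum]
      exact Finset.sum_eq_zero (fun i hi => h3 i (hKL hi))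
    rcases h.edge hp hr he hI hJ with ⟨h1, _⟩ | ⟨h1, _⟩
    · exact key hr hI hJ h1 nr hin
    · rw [add_comm] at hin
      exact key hp hJ hI h1 np hin
  · intro p hp hin x hx y hy ex ey cx cy _ _
    obtain ⟨I, hI⟩ := hgen p hp
    have nin : ∀ z ∈ W, IsEdge0 W p z → χ z = χ p → ¬ Inner W z := by
      intro z hz ez cz hinz
      obtain ⟨J, hJ⟩ := hgen z hz
      rw [χin z hinz, χin p hin] at cz
      have h1 : (par z ↔ par p) := by simpa using cz
      rw [par_iff hI, par_iff hJ] at h1
      rcases h.edge_parity hp hz ez hI hJ with h2 | h2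
      · rw [h2, Nat.even_add_one] at h1
        tauto
      · rw [h2, Nat.even_add_one] at h1
        tauto
    have nx := nin x hx ex cx
    have ny := nin y hy ey cy
    by_contra hne
    by_cases hev : par p
    · have h3 := h.level_three hC hp hx hy hne hin nx ny ex ey hI
      rw [par_iff hI, h3] at hev
      revert hev; decide
    · rw [χin p hin, χout x nx] at cx
      rw [χin p hin, χout y ny] at cy
      simp only [hev, decide_false, decide_eq_false_iff_not, not_not] at cx cy
      exact hne (cx.trans cy.symm)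
  · intro B hF
    apply outer_of_single hC hq _ B hF
    intro x hx nx cx
    rw [χout x nx] at cx
    simpa using cx

theorem ZW.hasHamTet (h : ZW W g f0) (hC : Cfg W) : HasHamTet (insert 0 W) := by
  obtain ⟨χ, hχ⟩ := h.exists_col hC
  exact hasHamTet_of_col hC hχ

end

end Run7.h169
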