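import Pool.Agent.Run7.h169.Zono2

set_option autoImplicit false
open scoped Classical Topology
open Filter

namespace Run7.h169

theorem image_rel {S : Finset E3} {v : E3} (hv : v ∈ S) :
    (insert 0 (rel S v)).image (trs v) = S := by
  ext z
  rw [Finset.mem_image]
  constructor
  · rintro ⟨y, hy, rfl⟩
    rw [trs_apply]
    rcases Finset.mem_insert.mp hy with rfl | hy
    · simpa using hv
    · rw [mem_rel] at hy
      rw [add_comm]; exact hy.1
  · intro hz
    refine ⟨z - v, ?_, by rw [trs_apply]; abel⟩
    rw [Finset.mem_insert]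
    by_cases hzv : z = v
    · left; rw [hzv, sub_self]
    · right; exact sub_mem_rel hz hzv

theorem hull_rel {S : Finset E3} {v : E3} (hv : v ∈ S) {z : E3} :
    z ∈ convexHull ℝ ((insert 0 (rel S v) : Finset E3) : Set E3) ↔
      z + v ∈ convexHull ℝ (S : Set E3) := by
  have h := hull_image v (insert 0 (rel S v))
  rw [image_rel hv] at h
  rw [h]
  constructor
  · intro hz
    exact ⟨z, hz, by rw [trs_apply, add_comm]⟩
  · rintro ⟨y, hy, hyz⟩
    rw [trs_apply, add_comm] at hyz
    rw [← add_right_cancel hyz]; exact hy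

theorem sum_filter_ne {ι : Type*} [Fintype ι] (g : ι → E3) (F : ι → E3)
    (hF : ∀ i, g i = 0 → F i = 0) : ∑ i : {i // g i ≠ 0}, F i.1 = ∑ i, F i := by
  rw [← Finset.sum_subtype (Finset.univ.filter (fun i => g i ≠ 0)) (by simp) F,
    Finset.sum_filter]
  apply Finset.sum_congr rfl
  intro i _
  split_ifs with h
  · rfl
  · push Not at h
    exact (hF i h).symm

/-- Every three-dimensional zonotope has a Hamiltonian tetrahedralization. -/
theorem zonotope_hasHamTet {ι : Type*} [Fintype ι] {g : ι → E3} {c : E3} {S : Finset E3}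
    (hspan : affineSpan ℝ (S : Set E3) = ⊤) (hS : ConvPos S)
    (hz : convexHull ℝ (S : Set E3) =
      {z | ∃ t : ι → ℝ, (∀ i, 0 ≤ t i ∧ t i ≤ 1) ∧ z = c + ∑ i, t i • g i}) : HasHamTet S := by
  have hne : S.Nonempty := by
    by_contra h
    rw [Finset.not_nonempty_iff_eq_empty] at h
    rw [h] at hspan
    simp at hspan
  obtain ⟨v, hv⟩ := hne
  have hC := cfg_rel hS hspan hv
  obtain ⟨f0, hf0⟩ := hC.ell
  apply hasHamTet_of_rel hv
  -- the representation of the apex
  have hvZ : v ∈ convexHull ℝ (S : Set E3) := subset_convexHull ℝ _ hv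
  rw [hz] at hvZ
  obtain ⟨s, hs, hsv⟩ := hvZ
  have hstrict : ∀ z, z ∈ convexHull ℝ (S : Set E3) → z ≠ v → f0 v < f0 z := by
    intro z hzS hne
    have hM : ∀ x ∈ S, (-f0) x ≤ (-f0) v := by
      intro x hx
      show -(f0 x) ≤ -(f0 v)
      by_cases hxv : x = v
      · rw [hxv]
      · have := hf0 _ (sub_mem_rel hx hxv)
        rw [map_sub] at this
        linarith
    obtain ⟨g1, g2⟩ := hull_face hM hzS
    refine lt_of_le_of_ne ?_ (fun heq => hne ?_)
    · have : -(f0 z) ≤ -(f0 v) := g1
      linarith
    · have g3 := g2 (by show -(f0 z) = -(f0 v); rw [heq])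
      have g4 : S.filter (fun x => (-f0) x = (-f0) v) ⊆ {v} := by
        intro x hx
        rw [Finset.mem_filter] at hx
        rw [Finset.mem_singleton]
        by_contra hxv
        have h1 := hf0 _ (sub_mem_rel hx.1 hxv)
        rw [map_sub] at h1
        have h2 : -(f0 x) = -(f0 v) := hx.2
        linarith
      have g5 := convexHull_mono (𝕜 := ℝ) (Finset.coe_subset.mpr g4) g3
      simpa using g5
  have hup : ∀ i, s i < 1 → g i ≠ 0 → 0 < f0 (g i) := by
    intro i hi hgi
    have h1 : c + ∑ j, Function.update s i 1 j • g j ∈ convexHull ℝ (S : Set E3) := by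
      rw [hz]
      exact ⟨_, update_mem hs i zero_le_one le_rfl, rfl⟩
    rw [update_sum, ← add_assoc, ← hsv] at h1
    have h2 := hstrict _ h1 (by
      intro heq
      have : (1 - s i) • g i = 0 := by simpa using heq
      rcases smul_eq_zero.mp this with h3 | h3
      · linarith
      · exact hgi h3)
    rw [map_add, map_smul, smul_eq_mul] at h2
    have h3 : 0 < (1 - s i) * f0 (g i) := by linarith
    exact (pos_iff_pos_of_mul_pos h3).mp (by linarith)
  have hdown : ∀ i, 0 < s i → g i ≠ 0 → f0 (g i) < 0 := by
    intro i hi hgi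
    have h1 : c + ∑ j, Function.update s i 0 j • g j ∈ convexHull ℝ (S : Set E3) := by
      rw [hz]
      exact ⟨_, update_mem hs i le_rfl zero_le_one, rfl⟩
    rw [update_sum, ← add_assoc, ← hsv] at h1
    have h2 := hstrict _ h1 (by
      intro heq
      have : (0 - s i) • g i = 0 := by simpa using heq
      rcases smul_eq_zero.mp this with h3 | h3
      · linarith
      · exact hgi h3)
    rw [map_add, map_smul, smul_eq_mul] at h2
    have h3 : 0 < s i * (-(f0 (g i))) := by linarith
    have := (pos_iff_pos_of_mul_pos h3).mp hi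
    linarith
  have hs01 : ∀ i, g i ≠ 0 → s i = if 0 < f0 (g i) then 0 else 1 := by
    intro i hgi
    split_ifs with hp
    · by_contra hne
      have := hdown i (lt_of_le_of_ne (hs i).1 (Ne.symm hne)) hgi
      linarith
    · by_contra hne
      exact hp (hup i (lt_of_le_of_ne (hs i).2 hne) hgi)
  -- the reflected generators
  set g' : {i // g i ≠ 0} → E3 := fun i => if 0 < f0 (g i.1) then g i.1 else -g i.1 with hg'
  have hpos : ∀ i, 0 < f0 (g' i) := by
    intro i
    rw [hg']
    beta_reduce
    split_ifs with hp
    · exact hp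
    · rw [map_neg]
      have h1 : 0 < s i.1 := by
        rw [hs01 i.1 i.2, if_neg hp]; exact one_pos
      have := hdown i.1 h1 i.2
      linarith
  have key : ∀ (i : ι) (a : ℝ), g i ≠ 0 → (a - s i) • g i =
      (if 0 < f0 (g i) then a else 1 - a) • (if 0 < f0 (g i) then g i else -g i) := by
    intro i a hi
    rw [hs01 i hi]
    split_ifs
    · rw [sub_zero]
    · module
  have hZW : ZW (rel S v) g' f0 := by
    refine ⟨?_, ?_, hpos, ?_⟩
    · intro t ht
      rw [hull_rel hv, hz]
      refine ⟨fun i => if h : g i ≠ 0 then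
        (if 0 < f0 (g i) then t ⟨i, h⟩ else 1 - t ⟨i, h⟩) else s i, ?_, ?_⟩
      · intro i
        beta_reduce
        by_cases h : g i ≠ 0
        · rw [dif_pos h]
          have := ht ⟨i, h⟩
          split_ifs
          · exact this
          · constructor <;> linarith [this.1, this.2]
        · rw [dif_neg h]; exact hs i
      · have e1 : ∑ i, (if h : g i ≠ 0 then
            (if 0 < f0 (g i) then t ⟨i, h⟩ else 1 - t ⟨i, h⟩) else s i) • g i =
            ∑ i, s i • g i + ∑ i, ((if h : g i ≠ 0 then
            (if 0 < f0 (g i) then t ⟨i, h⟩ else 1 - t ⟨i, h⟩) else s i) - s i) • g i := by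
          rw [← Finset.sum_add_distrib]
          apply Finset.sum_congr rfl
          intro i _
          module
        have e2 : ∑ i : {i // g i ≠ 0}, ((if h : g i.1 ≠ 0 then
            (if 0 < f0 (g i.1) then t ⟨i.1, h⟩ else 1 - t ⟨i.1, h⟩) else s i.1) - s i.1) •
              g i.1 = ∑ i, ((if h : g i ≠ 0 then
            (if 0 < f0 (g i) then t ⟨i, h⟩ else 1 - t ⟨i, h⟩) else s i) - s i) • g i :=
          sum_filter_ne g (fun i => ((if h : g i ≠ 0 then
            (if 0 < f0 (g i) then t ⟨i, h⟩ else 1 - t ⟨i, h⟩) else s i) - s i) • g i)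
            (fun i hi => smul_eq_zero_of_right _ hi)
        have e3 : ∑ i : {i // g i ≠ 0}, ((if h : g i.1 ≠ 0 then
            (if 0 < f0 (g i.1) then t ⟨i.1, h⟩ else 1 - t ⟨i.1, h⟩) else s i.1) - s i.1) •
              g i.1 = ∑ i, t i • g' i := by
          apply Finset.sum_congr rfl
          intro i _
          rw [dif_pos i.2, key i.1 _ i.2, hg']
          beta_reduce
          split_ifs
          · rfl
          · congr 1; ring
        rw [e1, ← e2, e3, ← add_assoc, ← hsv, add_comm]
    · intro w hw
      have h1 : w + v ∈ convexHull ℝ (S : Set E3) := subset_convexHull ℝ _ (mem_rel.mp hw).1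
      rw [hz] at h1
      obtain ⟨t, ht, htw⟩ := h1
      refine ⟨fun i => if 0 < f0 (g i.1) then t i.1 else 1 - t i.1, ?_, ?_⟩
      · intro i
        beta_reduce
        have := ht i.1
        split_ifs
        · exact this
        · constructor <;> linarith [this.1, this.2]
      · have e1 : w = ∑ i, (t i - s i) • g i := by
          have : w = (c + ∑ i, t i • g i) - (c + ∑ i, s i • g i) := by
            rw [← htw, ← hsv]; abel
          rw [this]
          simp only [sub_smul, Finset.sum_sub_distrib]
          abel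
        rw [e1, ← sum_filter_ne g (fun i => (t i - s i) • g i)
          (fun i hi => by beta_reduce; rw [hi, smul_zero])]
        apply Finset.sum_congr rfl
        intro i _
        rw [key i.1 _ i.2]
    · intro w hw
      obtain ⟨w1, w2⟩ := mem_rel.mp hw
      have hcl : IsClosed (convexHull ℝ ((S.erase (w + v) : Finset E3) : Set E3)) :=
        (Finset.finite_toSet _).isClosed_convexHull ℝ
      obtain ⟨f, u, h1, h2⟩ := geometric_hahn_banach_point_closed
        (convex_convexHull ℝ _) hcl (hS (w + v) w1)
      have h3 : ∀ x ∈ S, x ≠ w + v → f (w + v) < f x := by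
        intro x hx hne
        exact h1.trans (h2 x (subset_convexHull ℝ _ (by
          rw [Finset.mem_coe, Finset.mem_erase]; exact ⟨hne, hx⟩)))
      refine ⟨-f.toLinearMap, ?_, ?_⟩
      · show 0 < -(f w)
        have h4 := h3 v hv (fun hh => w2 (by simpa using hh.symm))
        rw [map_add] at h4
        linarith
      · intro z hz' hzw
        show -(f z) < -(f w)
        have h4 := h3 (z + v) (mem_rel.mp hz').1 (fun hh => hzw (add_right_cancel hh))
        rw [map_add, map_add] at h4
        linarith
  exact hZW.hasHamTet hC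

end Run7.h169
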